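import Pool.Agent.Mg.Ff259ea.Gae27b5

section

/-!
The Archimedean term, and the explicit formula in its final form.
-/

set_option autoImplicit false

open Complex MeasureTheory Set Filter Topology DirichletCharacter
open scoped Real ComplexConjugate

namespace Pool.Agent.MP_f259ea_nt

variable {N : ℕ} (χ : DirichletCharacter ℂ N)

/-- The bounded remainder of the Archimedean density. -/
noncomputable def Efun (L x : ℝ) : ℂ :=
  ((Real.log N / 2 : ℝ) : ℂ) + logDeriv (gammaFactor χ) (1 / 2 + x * I) - ((L / 2 : ℝ) : ℂ)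

/-- The Archimedean error term. -/
noncomputable def Err (w : ℂ → ℂ) (a b L u : ℝ) : ℂ :=
  ∫ t in a..b, (Efun χ L t * w t) * Complex.exp (2 * π * I * u * t)

lemma analyticAt_gammaFactor {s : ℂ} (hs : 0 < s.re) : AnalyticAt ℂ (gammaFactor χ) s :=
  DifferentiableOn.analyticOnNhd
    (fun _ hz => (differentiableAt_gammaFactor χ hz).differentiableWithinAt) isOpen_rePos s hs

lemma continuous_Efun (L : ℝ) : Continuous (Efun χ L) := by
  unfold Efun
  refine (continuous_const.add ?_).sub continuous_const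
  rw [continuous_iff_continuousAt]
  intro x
  have hs : 0 < (1 / 2 + x * I : ℂ).re := by simp
  exact ContinuousAt.comp (f := fun x : ℝ => (1 / 2 + x * I : ℂ))
    (continuousAt_logDeriv (analyticAt_gammaFactor χ hs) (gammaFactor_ne_zero χ hs)) (by fun_prop)

lemma continuous_Err {w : ℂ → ℂ} (hw : Differentiable ℂ w) (a b L : ℝ) :
    Continuous (Err χ w a b L) := by
  have h1 := continuous_Efun χ L
  have h2 := hw.continuous
  unfold Err
  apply intervalIntegral.continuous_parametric_intervalIntegral_of_continuous'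
  fun_prop

lemma norm_Err_le {w : ℂ → ℂ} {a b L M : ℝ} (hab : a ≤ b)
    (hM : ∀ t ∈ Icc a b, ‖Efun χ L t * w t‖ ≤ M) (u : ℝ) : ‖Err χ w a b L u‖ ≤ M * (b - a) := by
  have h1 := intervalIntegral.norm_integral_le_of_norm_le_const (a := a) (b := b) (C := M)
    (f := fun t : ℝ => (Efun χ L t * w t) * Complex.exp (2 * π * I * u * t)) (by
      intro t ht
      rw [uIoc_of_le hab] at ht
      rw [norm_mul, norm_exp_uz]
      simpa using hM t (Ioc_subset_Icc_self ht))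
  rwa [abs_of_nonneg (by linarith)] at h1

lemma integral_Err_sq_le (hP : StmtPlanch) {w : ℂ → ℂ} (hw : Differentiable ℂ w)
    {a b L M ℓ : ℝ} (hab : a ≤ b) (hℓ : 0 < ℓ)
    (hM : ∀ t ∈ Icc a b, ‖Efun χ L t * w t‖ ≤ M) :
    (∫ s in (-1 : ℝ)..1, ‖Err χ w a b L (s * ℓ)‖ ^ 2 ≤ M ^ 2 * (b - a) / ℓ) ∧
    (∫ s in (-1 : ℝ)..1, ‖conj (Err χ w a b L (-(s * ℓ)))‖ ^ 2 ≤ M ^ 2 * (b - a) / ℓ) := by
  have h1 := hP (fun t => Efun χ L t * w t) a b M ℓ hab hℓ.le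
    ((continuous_Efun χ L).mul (hw.continuous.comp continuous_ofReal)).continuousOn hM
  have h2 : ∫ s in (-1 : ℝ)..1, ‖Err χ w a b L (s * ℓ)‖ ^ 2 ≤ M ^ 2 * (b - a) / ℓ := by
    rw [intervalIntegral.integral_comp_mul_right (fun u => ‖Err χ w a b L u‖ ^ 2) hℓ.ne',
      smul_eq_mul, div_eq_inv_mul]
    gcongr
    simpa [Err] using h1
  refine ⟨h2, ?_⟩
  simp_rw [RCLike.norm_conj, ← neg_mul]
  rw [intervalIntegral.integral_comp_neg (fun s => ‖Err χ w a b L (s * ℓ)‖ ^ 2)]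
  simpa using h2

variable [NeZero N]

lemma gam_decomp {w : ℂ → ℂ} {W : ℝ → ℂ} (hw : Differentiable ℂ w)
    (hi : Integrable (fun t : ℝ => w t)) (hW : ∀ u : ℝ, ∫ t : ℝ, gu w u t = W u)
    {a b τ L : ℝ} (hab : a ≤ b) (hL : 0 ≤ L) (hτ : ∫ t in (Icc a b)ᶜ, ‖w t‖ ≤ τ) (u : ℝ) :
    ‖Gam χ w a b u - ((L / 2 : ℝ) : ℂ) * W u - Err χ w a b L u‖ ≤ L / 2 * τ := by
  have hg : Integrable (fun t : ℝ => gu w u t) := by
    have := integrable_gu (w := w) (v := 0) (by simpa using hi) u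
    simpa using this
  have hgc : Continuous (fun t : ℝ => gu w u t) :=
    (differentiable_gu hw u).continuous.comp continuous_ofReal
  have h1 : Gam χ w a b u = Err χ w a b L u + ((L / 2 : ℝ) : ℂ) * ∫ t in a..b, gu w u t := by
    unfold Gam Err
    rw [← intervalIntegral.integral_const_mul, ← intervalIntegral.integral_add]
    · congr 1
      funext t
      unfold Efun gu
      ring
    · have h1 := continuous_Efun χ L
      have h2 := hw.continuous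
      exact Continuous.intervalIntegrable (by fun_prop) _ _
    · exact Continuous.intervalIntegrable (by fun_prop) _ _
  rw [h1, ← hW u, ← integral_add_compl (s := Icc a b) measurableSet_Icc hg,
    intervalIntegral.integral_of_le hab, integral_Icc_eq_integral_Ioc]
  have h2 : Err χ w a b L u + ((L / 2 : ℝ) : ℂ) * (∫ t in Ioc a b, gu w u t)
      - ((L / 2 : ℝ) : ℂ) * ((∫ t in Ioc a b, gu w u t) + ∫ t in (Icc a b)ᶜ, gu w u t)
      - Err χ w a b L u = -(((L / 2 : ℝ) : ℂ) * ∫ t in (Icc a b)ᶜ, gu w u t) := by ring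
  rw [h2, norm_neg, norm_mul, norm_real, Real.norm_eq_abs, abs_of_nonneg (by positivity)]
  gcongr
  refine (norm_integral_le_integral_norm _).trans (le_trans (le_of_eq ?_) hτ)
  congr 1
  funext t
  unfold gu
  rw [norm_mul, norm_exp_uz]
  simp

theorem explicit_formula' (hrect : StmtRect) (hχ : χ.IsPrimitive) {w : ℂ → ℂ} {W : ℝ → ℂ}
    (hw : Differentiable ℂ w) (hwc : ∀ z, w (conj z) = conj (w z))
    (hWc : ∀ u, W (-u) = conj (W u))
    (hi : Integrable (fun t : ℝ => w (t + (-(3 / 2) : ℝ) * I)))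
    (hW : ∀ u : ℝ, ∫ t : ℝ, gu w u (t + (-(3 / 2) : ℝ) * I) = W u)
    (hi0 : Integrable (fun t : ℝ => w t)) (hW0 : ∀ u : ℝ, ∫ t : ℝ, gu w u t = W u)
    {a b τ B ω L : ℝ} (ha : 0 < a) (hab : a < b) (hL0 : 0 ≤ L)
    (hτ : ∫ t in (Icc a b)ᶜ, ‖w (t + (-(3 / 2) : ℝ) * I)‖ ≤ τ)
    (hτ0 : ∫ t in (Icc a b)ᶜ, ‖w t‖ ≤ τ)
    (hL : ∀ t : ℝ, t = a ∨ t = b → ∀ σ ∈ Icc (1 / 2 : ℝ) 2, LFunction χ (σ + t * I) ≠ 0 ∧
      ‖logDeriv (LFunction χ) (σ + t * I)‖ ≤ B)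
    (hω : ∀ t : ℝ, t = a ∨ t = b → ∀ y ∈ Icc (-(3 / 2) : ℝ) 0, ‖w (t + y * I)‖ ≤ ω)
    (Z : Finset ℂ)
    (hZ : ∀ z, z ∈ Z ↔ z ∈ Icc a b ×ℂ Icc (-(3 / 2) : ℝ) (3 / 2) ∧ Xi χ z = 0) (u : ℝ) :
    ‖2 * π * (∑ ρ ∈ Z, ((analyticOrderAt (Xi χ) ρ).toNat : ℂ) * gu w u ρ)
        - (L * W u - Psum χ W u - conj (Psum χ W (-u)))
        - Err χ w a b L u - conj (Err χ w a b L (-u))‖
      ≤ 2 * (3 * B * ω + Btwo χ * τ) * Real.exp (3 * π * |u|) + L * τ := by
  have h1 := explicit_formula χ hrect hχ hw hwc hi hW ha hab hτ hL hω Z hZ u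
  have h2 := gam_decomp χ hw hi0 hW0 hab.le hL0 hτ0 u
  have h3 := gam_decomp χ hw hi0 hW0 hab.le hL0 hτ0 (-u)
  rw [← RCLike.norm_conj] at h3
  set S := ∑ ρ ∈ Z, ((analyticOrderAt (Xi χ) ρ).toNat : ℂ) * gu w u ρ
  have h4 : 2 * π * S - (L * W u - Psum χ W u - conj (Psum χ W (-u)))
        - Err χ w a b L u - conj (Err χ w a b L (-u))
      = (2 * π * S
        - (Gam χ w a b u + conj (Gam χ w a b (-u)) - Psum χ W u - conj (Psum χ W (-u))))
        + (Gam χ w a b u - ((L / 2 : ℝ) : ℂ) * W u - Err χ w a b L u)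
        + conj (Gam χ w a b (-u) - ((L / 2 : ℝ) : ℂ) * W (-u) - Err χ w a b L (-u)) := by
    rw [hWc]
    simp only [map_sub, map_mul, conj_conj, conj_ofReal]
    push_cast
    ring
  rw [h4]
  refine (norm_add₃_le).trans ?_
  linarith

end Pool.Agent.MP_f259ea_nt

end

section

/-!
Counting zeros in the variable `z`.
-/

set_option autoImplicit false

open Complex MeasureTheory Set Filter Topology DirichletCharacter
open scoped Real ComplexConjugate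

namespace Pool.Agent.MP_f259ea_nt

variable {N : ℕ} [NeZero N] (χ : DirichletCharacter ℂ N)

/-- The multiplicity of a zero. -/
noncomputable def nn (z : ℂ) : ℕ := (analyticOrderAt (Xi χ) z).toNat

lemma sOf_injective : Function.Injective sOf := by
  intro z w h
  unfold sOf at h
  exact mul_left_cancel₀ I_ne_zero (add_left_cancel h)

lemma nn_conj (hχ : χ.IsPrimitive) {z : ℂ} (hz : 0 < z.re) : nn χ (conj z) = nn χ z := by
  unfold nn; rw [order_Xi_conj χ hχ hz]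

lemma one_le_nn {z : ℂ} (hz : 0 < z.re) (h : Xi χ z = 0) : 1 ≤ nn χ z := by
  unfold nn
  obtain ⟨n, hn⟩ := ENat.ne_top_iff_exists.1 (order_Xi_ne_top χ hz)
  have h1 := (analyticOnNhd_Xi χ z hz).analyticOrderAt_ne_zero.2 h
  rw [← hn] at h1 ⊢
  simp only [ENat.toNat_natCast]
  have : n ≠ 0 := by simpa using h1
  omega

lemma count_unit (hc : StmtCount) (hχ : χ.IsPrimitive) :
    ∃ C t₀ : ℝ, 0 ≤ C ∧ 1 ≤ t₀ ∧ ∀ t : ℝ, t₀ ≤ t → ∀ Z : Finset ℂ,
      (∀ z ∈ Z, t ≤ z.re ∧ z.re ≤ t + 1 ∧ |z.im| < 1 / 2) →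
        ∑ z ∈ Z, (nn χ z : ℝ) ≤ C * Real.log t := by
  classical
  obtain ⟨C, t₀, h⟩ := hc N χ
  have key : ∀ t : ℝ, max t₀ 1 ≤ t → ∀ Z : Finset ℂ,
      (∀ z ∈ Z, t ≤ z.re ∧ z.re ≤ t + 1 ∧ |z.im| < 1 / 2 ∧ z.im ≤ 0) →
        ∑ z ∈ Z, (nn χ z : ℝ) ≤ max C 0 * Real.log t := by
    intro t ht Z hZ
    have ht1 : 1 ≤ t := (le_max_right _ _).trans ht
    have h1 := h t ((le_max_left _ _).trans ht) (Z.image sOf) (by
      intro ρ hρ
      obtain ⟨z, hz, rfl⟩ := Finset.mem_image.1 hρ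
      obtain ⟨h1, h2, h3, h4⟩ := hZ z hz
      rw [abs_lt] at h3
      simp only [sOf_re, sOf_im]
      exact ⟨by linarith, by linarith, h1, h2⟩)
    rw [Finset.sum_image (fun _ _ _ _ h => sOf_injective h)] at h1
    calc ∑ z ∈ Z, (nn χ z : ℝ)
        = ∑ z ∈ Z, ((analyticOrderAt (LFunction χ) (sOf z)).toNat : ℝ) := by
          refine Finset.sum_congr rfl fun z hz => ?_
          obtain ⟨h1, -, -, h4⟩ := hZ z hz
          unfold nn
          rw [order_Xi_eq χ (by linarith) (by linarith)]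
      _ ≤ C * Real.log t := h1
      _ ≤ _ := by
          have := Real.log_nonneg ht1
          gcongr
          exact le_max_left _ _
  refine ⟨2 * max C 0, max t₀ 1, by positivity, le_max_right _ _, fun t ht Z hZ => ?_⟩
  have ht1 : 1 ≤ t := (le_max_right _ _).trans ht
  rw [← Finset.sum_filter_add_sum_filter_not Z (fun z => z.im ≤ 0)]
  have h1 := key t ht (Z.filter (fun z => z.im ≤ 0)) (by
    intro z hz
    rw [Finset.mem_filter] at hz
    obtain ⟨h1, h2, h3⟩ := hZ z hz.1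
    exact ⟨h1, h2, h3, hz.2⟩)
  have h2 := key t ht ((Z.filter (fun z => ¬ z.im ≤ 0)).image conj) (by
    intro ρ hρ
    obtain ⟨z, hz, rfl⟩ := Finset.mem_image.1 hρ
    rw [Finset.mem_filter] at hz
    obtain ⟨h1, h2, h3⟩ := hZ z hz.1
    simp only [conj_re, conj_im, abs_neg]
    exact ⟨h1, h2, h3, by linarith [not_le.1 hz.2]⟩)
  rw [Finset.sum_image (fun _ _ _ _ h => by simpa using congrArg conj h)] at h2
  have h3 : ∑ z ∈ Z.filter (fun z => ¬ z.im ≤ 0), (nn χ (conj z) : ℝ)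
      = ∑ z ∈ Z.filter (fun z => ¬ z.im ≤ 0), (nn χ z : ℝ) := by
    refine Finset.sum_congr rfl fun z hz => ?_
    rw [Finset.mem_filter] at hz
    rw [nn_conj χ hχ (by linarith [(hZ z hz.1).1])]
  linarith

lemma count_long (hc : StmtCount) (hχ : χ.IsPrimitive) :
    ∃ C t₀ : ℝ, 0 ≤ C ∧ 1 ≤ t₀ ∧ ∀ t R : ℝ, t₀ ≤ t → 0 ≤ R → ∀ Z : Finset ℂ,
      (∀ z ∈ Z, t ≤ z.re ∧ z.re ≤ t + R ∧ |z.im| < 1 / 2) →
        ∑ z ∈ Z, (nn χ z : ℝ) ≤ C * (R + 1) * Real.log (t + R + 1) := by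
  classical
  obtain ⟨C, t₀, hC, ht₀, h⟩ := count_unit χ hc hχ
  have key : ∀ (n : ℕ) (t : ℝ), t₀ ≤ t → ∀ Z : Finset ℂ,
      (∀ z ∈ Z, t ≤ z.re ∧ z.re ≤ t + (n + 1) ∧ |z.im| < 1 / 2) →
        ∑ z ∈ Z, (nn χ z : ℝ) ≤ C * (n + 1) * Real.log (t + n) := by
    intro n t ht
    induction n with
    | zero => intro Z hZ; simpa using h t ht Z (by simpa using hZ)
    | succ n ih =>
      intro Z hZ
      rw [← Finset.sum_filter_add_sum_filter_not Z (fun z => z.re ≤ t + (n + 1))]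
      have h1 := ih (Z.filter (fun z => z.re ≤ t + (n + 1))) (by
        intro z hz
        rw [Finset.mem_filter] at hz
        obtain ⟨h1, -, h3⟩ := hZ z hz.1
        exact ⟨h1, hz.2, h3⟩)
      have hn : (0 : ℝ) ≤ n := by positivity
      have h2 := h (t + (n + 1)) (by linarith) (Z.filter (fun z => ¬ z.re ≤ t + (n + 1))) (by
        intro z hz
        rw [Finset.mem_filter] at hz
        obtain ⟨-, h2, h3⟩ := hZ z hz.1
        push_cast at h2
        exact ⟨(not_le.1 hz.2).le, by linarith, h3⟩)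
      have h3 : Real.log (t + n) ≤ Real.log (t + (n + 1)) := by
        gcongr
        · linarith
        · linarith
      have h4 : C * (n + 1) * Real.log (t + n) ≤ C * (n + 1) * Real.log (t + (n + 1)) := by gcongr
      push_cast
      nlinarith
  refine ⟨C, t₀, hC, ht₀, fun t R ht hR Z hZ => ?_⟩
  have h1 := key ⌊R⌋₊ t ht Z (by
    intro z hz
    obtain ⟨h1, h2, h3⟩ := hZ z hz
    exact ⟨h1, by linarith [Nat.lt_floor_add_one R], h3⟩)
  refine h1.trans ?_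
  have h2 := Nat.floor_le hR
  have hn : (0 : ℝ) ≤ ⌊R⌋₊ := by positivity
  have h3 : 0 ≤ Real.log (t + ⌊R⌋₊) := Real.log_nonneg (by linarith)
  have h4 : Real.log (t + ⌊R⌋₊) ≤ Real.log (t + R + 1) :=
    Real.log_le_log (by linarith) (by linarith)
  gcongr

lemma isCompact_rect (a b c d : ℝ) : IsCompact (Icc a b ×ℂ Icc c d) :=
  isCompact_Icc.reProdIm isCompact_Icc

lemma target_sets (hχ : χ.IsPrimitive) {T : ℝ} (hT : 0 < T) :
    ∃ Z : Finset ℂ, (∀ z, z ∈ Z ↔ T < z.re ∧ z.re ≤ 2 * T ∧ Xi χ z = 0) ∧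
      (∑ᶠ ρ ∈ {s : ℂ | 0 < s.re ∧ s.re < 1 ∧ T < s.im ∧ s.im ≤ 2 * T ∧ LFunction χ s = 0},
            ((analyticOrderAt (LFunction χ) ρ).toNat : ℝ)) = ∑ z ∈ Z, (nn χ z : ℝ) ∧
      {s : ℂ | 0 < s.re ∧ s.re < 1 ∧ T < s.im ∧ s.im ≤ 2 * T ∧ LFunction χ s = 0}.ncard
        = Z.card := by
  classical
  have hfin := finite_zeros_Xi χ (isCompact_rect T (2 * T) (-1) 1)
    (fun z hz => hT.trans_le hz.1.1)
  set Z := hfin.toFinset.filter (fun z => T < z.re) with hZdef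
  have hZ : ∀ z, z ∈ Z ↔ T < z.re ∧ z.re ≤ 2 * T ∧ Xi χ z = 0 := by
    intro z
    rw [hZdef, Finset.mem_filter, Finite.mem_toFinset]
    constructor
    · rintro ⟨⟨h1, h2⟩, h3⟩
      exact ⟨h3, h1.1.2, h2⟩
    · rintro ⟨h1, h2, h3⟩
      have h4 := abs_lt.1 (abs_im_lt_of_Xi_eq_zero χ hχ (hT.trans h1) h3)
      exact ⟨⟨⟨⟨h1.le, h2⟩, ⟨by linarith, by linarith⟩⟩, h3⟩, h1⟩
  have hS : {s : ℂ | 0 < s.re ∧ s.re < 1 ∧ T < s.im ∧ s.im ≤ 2 * T ∧ LFunction χ s = 0}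
      = ((Z.image sOf : Finset ℂ) : Set ℂ) := by
    ext s
    simp only [mem_ofPred_eq, Finset.coe_image, mem_image, Finset.mem_coe, hZ]
    constructor
    · rintro ⟨h1, h2, h3, h4, h5⟩
      have hs : sOf ((s - 1 / 2) / I) = s := by unfold sOf; field_simp; ring
      have hre := sOf_re ((s - 1 / 2) / I)
      have him := sOf_im ((s - 1 / 2) / I)
      rw [hs] at hre him
      refine ⟨(s - 1 / 2) / I, ⟨by linarith, by linarith, ?_⟩, hs⟩
      rw [Xi_eq_zero_iff χ (by linarith)]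
      unfold Lz
      rwa [hs]
    · rintro ⟨z, ⟨h1, h2, h3⟩, rfl⟩
      have h4 := abs_lt.1 (abs_im_lt_of_Xi_eq_zero χ hχ (hT.trans h1) h3)
      simp only [sOf_re, sOf_im]
      exact ⟨by linarith, by linarith, h1, h2, (Xi_eq_zero_iff χ h4.2).1 h3⟩
  refine ⟨Z, hZ, ?_, ?_⟩
  · rw [hS, finsum_mem_coe_finset, Finset.sum_image (fun _ _ _ _ h => sOf_injective h)]
    refine Finset.sum_congr rfl fun z hz => ?_
    obtain ⟨h1, -, h3⟩ := (hZ z).1 hz
    have h4 := abs_lt.1 (abs_im_lt_of_Xi_eq_zero χ hχ (hT.trans h1) h3)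
    unfold nn
    rw [order_Xi_eq χ h4.2 (hT.trans h1)]
  · rw [hS, ncard_coe_finset, Finset.card_image_of_injective _ sOf_injective]

end Pool.Agent.MP_f259ea_nt

end

section

/-!
The analysis at a fixed height `T`.
-/

set_option autoImplicit false

open Complex MeasureTheory Set Filter Topology DirichletCharacter
open scoped Real ComplexConjugate

namespace Pool.Agent.MP_f259ea_nt

variable {N : ℕ} [NeZero N] (χ : DirichletCharacter ℂ N)

/-- The zero sum with weight `1` on interior zeros and weight `w` on transition zeros. -/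
noncomputable def nu (w : ℂ → ℂ) (Zi Zt : Finset ℂ) (u : ℝ) : ℂ :=
  ∑ z ∈ Zi, (nn χ z : ℂ) * Complex.exp (2 * π * I * u * z)
    + ∑ z ∈ Zt, ((nn χ z : ℂ) * w z) * Complex.exp (2 * π * I * u * z)

lemma continuous_nu (w : ℂ → ℂ) (Zi Zt : Finset ℂ) : Continuous (nu χ w Zi Zt) := by
  unfold nu
  fun_prop

lemma nu_sub {w : ℂ → ℂ} (Zr : Finset ℂ) (P : ℂ → Prop) [DecidablePred P] {ω : ℝ} (hω0 : 0 ≤ ω)
    (him : ∀ z ∈ Zr, |z.im| ≤ 1 / 2) (hω : ∀ z ∈ Zr, P z → ‖w z - 1‖ ≤ ω) (u : ℝ) :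
    ‖nu χ w (Zr.filter P) (Zr.filter fun z => ¬ P z) u - ∑ z ∈ Zr, (nn χ z : ℂ) * gu w u z‖
      ≤ (∑ z ∈ Zr, (nn χ z : ℝ)) * ω * Real.exp (π * |u|) := by
  rw [← Finset.sum_filter_add_sum_filter_not Zr P (fun z => (nn χ z : ℂ) * gu w u z)]
  unfold nu gu
  have h1 : ∑ z ∈ Zr.filter P, (nn χ z : ℂ) * Complex.exp (2 * π * I * u * z)
      + ∑ z ∈ Zr.filter (fun z => ¬ P z), ((nn χ z : ℂ) * w z) * Complex.exp (2 * π * I * u * z)
      - (∑ z ∈ Zr.filter P, (nn χ z : ℂ) * (w z * Complex.exp (2 * π * I * u * z))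
        + ∑ z ∈ Zr.filter (fun z => ¬ P z),
          (nn χ z : ℂ) * (w z * Complex.exp (2 * π * I * u * z)))
      = ∑ z ∈ Zr.filter P, -((nn χ z : ℂ) * ((w z - 1) * Complex.exp (2 * π * I * u * z))) := by
    simp_rw [mul_assoc]
    rw [add_sub_add_right_eq_sub, ← Finset.sum_sub_distrib]
    refine Finset.sum_congr rfl fun z _ => by ring
  rw [h1]
  refine (norm_sum_le _ _).trans ?_
  rw [Finset.sum_mul, Finset.sum_mul]
  refine le_trans (Finset.sum_le_sum fun z hz => ?_)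
    (Finset.sum_le_sum_of_subset_of_nonneg (Finset.filter_subset P Zr) (fun _ _ _ => by positivity))
  rw [Finset.mem_filter] at hz
  have h2 := hω z hz.1 hz.2
  have h3 := norm_exp_uz_le u z (him z hz.1)
  have h4 : 2 * π * |u| * (1 / 2) = π * |u| := by ring
  rw [h4] at h3
  rw [norm_neg, norm_mul, norm_mul, norm_natCast, mul_assoc (nn χ z : ℝ)]
  gcongr

omit [NeZero N] in
lemma Psum_zero {W : ℝ → ℂ} {δ : ℝ} (hsupp : ∀ u, δ ≤ |u| → W u = 0) (h2 : δ ≤ un 2) :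
    Psum χ W 0 = 0 := by
  unfold Psum
  have : ∀ n : ℕ, coef χ n * W (0 - un n) = 0 := by
    intro n
    rcases lt_or_ge n 2 with hn | hn
    · interval_cases n
      · simp [coef_zero]
      · simp [coef_one]
    · rw [hsupp, mul_zero]
      rw [zero_sub, abs_neg, abs_of_nonneg (un_nonneg n)]
      exact h2.trans (un_mono (by norm_num) hn)
  simp only [this, tsum_zero]

omit [NeZero N] in
lemma norm_Efun_le {Cg T t : ℝ} (hT : 2 ≤ T) (ht : t ∈ Icc T (2 * T))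
    (hg : ∀ t : ℝ, 2 ≤ t →
      ‖logDeriv (gammaFactor χ) (1 / 2 + t * I) - ((Real.log t / 2 : ℝ) : ℂ)‖ ≤ Cg) :
    ‖Efun χ (Real.log T) t‖ ≤ Real.log N / 2 + Cg + 1 := by
  have h1 := hg t (hT.trans ht.1)
  have h2 : Efun χ (Real.log T) t = ((Real.log N / 2 : ℝ) : ℂ)
      + (logDeriv (gammaFactor χ) (1 / 2 + t * I) - ((Real.log t / 2 : ℝ) : ℂ))
      + (((Real.log t - Real.log T) / 2 : ℝ) : ℂ) := by
    unfold Efun; push_cast; ring
  rw [h2]
  refine norm_add₃_le.trans ?_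
  rw [norm_real, norm_real, Real.norm_eq_abs, Real.norm_eq_abs,
    abs_of_nonneg (by have := Real.log_natCast_nonneg N; positivity)]
  have h3 : Real.log T ≤ Real.log t := Real.log_le_log (by linarith) ht.1
  have h4 : Real.log t ≤ Real.log (2 * T) := Real.log_le_log (by linarith [ht.1]) ht.2
  rw [Real.log_mul (by norm_num) (by linarith)] at h4
  have h5 := Real.log_two_lt_d9
  rw [abs_of_nonneg (by linarith)]
  linarith

/-- The analysis at a fixed height. -/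
lemma finite_core (hrect : StmtRect) (hP : StmtPlanch) (hχ : χ.IsPrimitive)
    {K Kt : ℝ → ℝ} {Km ε : ℝ} (hK : ContinuousOn K (Icc (-1) 1))
    (hK0 : ∀ a ∈ Icc (-1 : ℝ) 1, 0 ≤ K a) (hKm : ∀ a ∈ Icc (-1 : ℝ) 1, K a ≤ Km)
    (hε : 0 < ε) (hKt0 : ∀ a, 0 ≤ Kt a)
    {T U H ℓ Cw r Bh Cg Nall θ : ℝ} {X : ℕ} (hT : 2 ≤ T) (hHU : H ≤ U) (hU : 2 * U + 2 ≤ T)
    (hH : 0 < H) (hℓ : 0 < ℓ) (hCw : 0 < Cw) (hr : 0 ≤ r)
    {w : ℂ → ℂ} {W : ℝ → ℂ} (hw : Differentiable ℂ w) (hwc : ∀ z, w (conj z) = conj (w z))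
    (hW : Continuous W) (hWc : ∀ u, W (-u) = conj (W u)) (hsupp : ∀ u, 1 / H ≤ |u| → W u = 0)
    (hW0 : W 0 = (((2 * T - 1 - U) - (T + 1 + U) : ℝ) : ℂ))
    (hW2 : ∫ u, ‖W u‖ ^ 2 ≤ (2 * T - 1 - U) - (T + 1 + U))
    (hFT : ∀ v : ℝ, |v| ≤ 2 → Integrable (fun t : ℝ => w (t + v * I)) ∧
        ∀ u : ℝ, ∫ t : ℝ, w (t + v * I) * Complex.exp (2 * π * I * u * (t + v * I)) = W u)
    (hwb : ∀ z : ℂ, |z.im| ≤ 2 → ‖w z‖ ≤ Cw)
    (hin : ∀ z : ℂ, |z.im| ≤ 2 → T + 1 + U + U ≤ z.re → z.re ≤ 2 * T - 1 - U - U →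
        ‖w z - 1‖ ≤ Cw * r)
    (hout : ∀ z : ℂ, |z.im| ≤ 2 → (z.re ≤ T + 1 + U - U ∨ 2 * T - 1 - U + U ≤ z.re) →
        ‖w z‖ ≤ Cw * r)
    (htail : ∀ v : ℝ, |v| ≤ 2 →
        ∫ t in (Icc (T + 1 + U - U) (2 * T - 1 - U + U))ᶜ, ‖w (t + v * I)‖ ≤ Cw * H * r)
    {a b : ℝ} (ha : a ∈ Icc T (T + 1)) (hb : b ∈ Icc (2 * T - 1) (2 * T))
    (hL : ∀ t : ℝ, t = a ∨ t = b → ∀ σ ∈ Icc (1 / 2 : ℝ) 2, LFunction χ (σ + t * I) ≠ 0 ∧
      ‖logDeriv (LFunction χ) (σ + t * I)‖ ≤ Bh)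
    (hg : ∀ t : ℝ, 2 ≤ t →
      ‖logDeriv (gammaFactor χ) (1 / 2 + t * I) - ((Real.log t / 2 : ℝ) : ℂ)‖ ≤ Cg)
    (hX : ∀ n : ℕ, X < n → ℓ + 1 / H ≤ un n) (h1 : 2 * (1 / H) ≤ 1 / (2 * π * X))
    (h2 : 2 * (1 / H) ≤ un 2)
    (hKt : ∀ a ∈ Icc (-1 : ℝ) 1, ∀ a', |a - a'| < 1 / H / ℓ → K a ≤ Kt a' + ε)
    (Z : Finset ℂ) (hZ : ∀ z, z ∈ Z ↔ T < z.re ∧ z.re ≤ 2 * T ∧ Xi χ z = 0)
    (hNall : ∑ z ∈ Z, (nn χ z : ℝ) ≤ Nall)
    (hθ : 2 * (3 * Bh * (Cw * r) + Btwo χ * (Cw * H * r)) * Real.exp (3 * π * ℓ)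
      + Real.log T * (Cw * H * r) + 2 * π * (Nall * (Cw * r) * Real.exp (π * ℓ)) ≤ θ) :
    ∃ Zt : Finset ℂ, Zt ⊆ Z.filter (fun z => ¬ (T + 1 + U + U ≤ z.re ∧ z.re ≤ 2 * T - 1 - U - U)) ∧
      (∀ z ∈ Zt, conj z ∈ Zt) ∧
      (4 * π ^ 2 * ∫ s in (-1 : ℝ)..1, K s * ‖nu χ w
          (Z.filter (fun z => T + 1 + U + U ≤ z.re ∧ z.re ≤ 2 * T - 1 - U - U)) Zt (s * ℓ)‖ ^ 2
        ≤ (1 + ε) * (T / ℓ * (Real.log T ^ 2 * (Kt 0 + ε) + ∑ n ∈ Finset.Icc 1 X,
          ArithmeticFunction.vonMangoldt n ^ 2 / n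
            * (Kt (Real.log n / (2 * π * ℓ)) + Kt (-(Real.log n / (2 * π * ℓ))) + 2 * ε)))
          + (1 + 1 / ε) * Km * (6 * (((Real.log N / 2 + Cg + 1) * Cw) ^ 2 * T / ℓ) + 6 * θ ^ 2)) ∧
      Real.log T * (T - 2 - 2 * U) ≤ 2 * π * ‖nu χ w
          (Z.filter (fun z => T + 1 + U + U ≤ z.re ∧ z.re ≤ 2 * T - 1 - U - U)) Zt 0‖
        + 2 * ((Real.log N / 2 + Cg + 1) * Cw * T) + θ := by
  classical
  have hU0 : 0 < U := hH.trans_le hHU
  have ha0 : 0 < a := by linarith [ha.1]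
  have hab : a < b := by linarith [ha.2, hb.1]
  have hL0 : 0 ≤ Real.log T := Real.log_nonneg (by linarith)
  set P : ℂ → Prop := fun z => T + 1 + U + U ≤ z.re ∧ z.re ≤ 2 * T - 1 - U - U with hPdef
  set Zr := Z.filter (fun z => a ≤ z.re ∧ z.re ≤ b) with hZr
  have him : ∀ z ∈ Z, |z.im| < 1 / 2 := fun z hz => by
    obtain ⟨h1, -, h3⟩ := (hZ z).1 hz
    exact abs_im_lt_of_Xi_eq_zero χ hχ (by linarith) h3
  have hXa := Xi_vert_ne_zero χ hχ ha0 (hL a (Or.inl rfl))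
  have hZr' : ∀ z, z ∈ Zr ↔ z ∈ Icc a b ×ℂ Icc (-(3 / 2) : ℝ) (3 / 2) ∧ Xi χ z = 0 := by
    intro z
    rw [hZr, Finset.mem_filter]
    constructor
    · rintro ⟨h1, h2⟩
      have h3 := abs_lt.1 (him z h1)
      exact ⟨⟨h2, ⟨by linarith, by linarith⟩⟩, ((hZ z).1 h1).2.2⟩
    · rintro ⟨⟨h1, -⟩, h3⟩
      refine ⟨(hZ z).2 ⟨?_, h1.2.trans hb.2, h3⟩, h1⟩
      refine ha.1.trans_lt (lt_of_le_of_ne h1.1 ?_)
      intro h
      apply hXa z.im
      rw [h, re_add_im]; exact h3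
  have hZi : Zr.filter P = Z.filter P := by
    ext z
    simp only [hZr, Finset.mem_filter, hPdef]
    constructor
    · rintro ⟨⟨h1, -⟩, h3⟩; exact ⟨h1, h3⟩
    · rintro ⟨h1, h3⟩
      exact ⟨⟨h1, by linarith [ha.2, h3.1], by linarith [hb.1, h3.2]⟩, h3⟩
  have htail' : ∀ v : ℝ, |v| ≤ 2 → ∫ t in (Icc a b)ᶜ, ‖w (t + v * I)‖ ≤ Cw * H * r := by
    intro v hv
    refine le_trans ?_ (htail v hv)
    refine setIntegral_mono_set (hFT v hv).1.norm.integrableOn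
      (Eventually.of_forall fun _ => norm_nonneg _) (LE.le.eventuallyLE ?_)
    exact compl_subset_compl.2 (Icc_subset_Icc (by linarith [ha.2]) (by linarith [hb.1]))
  have hv1 : |(-(3 / 2) : ℝ)| ≤ 2 := by norm_num [abs_le]
  have hv0 : |(0 : ℝ)| ≤ 2 := by norm_num
  have hEF := explicit_formula' χ hrect hχ hw hwc hWc (hFT _ hv1).1 (hFT _ hv1).2
    (by simpa using (hFT _ hv0).1) (by simpa [gu] using (hFT _ hv0).2) ha0 hab hL0 (htail' _ hv1)
    (by simpa using htail' _ hv0) hL (ω := Cw * r) (by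
      intro t ht y hy
      apply hout
      · simp; rw [abs_le]; constructor <;> linarith [hy.1, hy.2]
      · rcases ht with rfl | rfl
        · left; simp; linarith [ha.2]
        · right; simp; linarith [hb.1]) Zr hZr'
  have hNr : ∑ z ∈ Zr, (nn χ z : ℝ) ≤ Nall :=
    (Finset.sum_le_sum_of_subset_of_nonneg (Finset.filter_subset _ _)
      (fun _ _ _ => by positivity)).trans hNall
  have hBh : 0 ≤ Bh := (norm_nonneg _).trans (hL a (Or.inl rfl) 1 (by norm_num)).2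
  have hB2 := Btwo_nonneg χ
  have key : ∀ u : ℝ, |u| ≤ ℓ →
      ‖2 * π * nu χ w (Z.filter P) (Zr.filter fun z => ¬ P z) u
        - (Real.log T * W u - Psum χ W u - conj (Psum χ W (-u)))
        - Err χ w a b (Real.log T) u - conj (Err χ w a b (Real.log T) (-u))‖ ≤ θ := by
    intro u hu
    have h3 := hEF u
    have h4 := nu_sub χ (w := w) Zr P (ω := Cw * r) (by positivity)
      (fun z hz => (him z (Finset.mem_of_mem_filter z hz)).le) (fun z hz hP =>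
        hin z (by linarith [him z (Finset.mem_of_mem_filter z hz)]) hP.1 hP.2) u
    rw [hZi] at h4
    set ν := nu χ w (Z.filter P) (Zr.filter fun z => ¬ P z) u
    change ‖2 * π * (∑ ρ ∈ Zr, (nn χ ρ : ℂ) * gu w u ρ) - _ - _ - _‖ ≤ _ at h3
    set μ := ∑ ρ ∈ Zr, (nn χ ρ : ℂ) * gu w u ρ
    have h5 : 2 * π * ν - (Real.log T * W u - Psum χ W u - conj (Psum χ W (-u)))
        - Err χ w a b (Real.log T) u - conj (Err χ w a b (Real.log T) (-u))
        = (2 * π * μ - (Real.log T * W u - Psum χ W u - conj (Psum χ W (-u)))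
        - Err χ w a b (Real.log T) u - conj (Err χ w a b (Real.log T) (-u)))
          + 2 * π * (ν - μ) := by ring
    rw [h5]
    refine (norm_add_le _ _).trans (le_trans ?_ hθ)
    have h6 : ‖2 * π * (ν - μ)‖ = 2 * π * ‖ν - μ‖ := by
      rw [norm_mul, norm_mul, norm_real, Real.norm_eq_abs, abs_of_pos Real.pi_pos]
      simp
    have h7 : Real.exp (3 * π * |u|) ≤ Real.exp (3 * π * ℓ) := by
      have := Real.pi_pos
      gcongr
    have h8 : ‖ν - μ‖ ≤ Nall * (Cw * r) * Real.exp (π * ℓ) := by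
      refine h4.trans ?_
      have := Real.pi_pos
      have : 0 ≤ Nall := le_trans (by positivity) hNr
      gcongr
    rw [h6]
    have := Real.pi_pos
    have h9 : 2 * (3 * Bh * (Cw * r) + Btwo χ * (Cw * H * r)) * Real.exp (3 * π * |u|)
        ≤ 2 * (3 * Bh * (Cw * r) + Btwo χ * (Cw * H * r)) * Real.exp (3 * π * ℓ) := by gcongr
    have h10 : 2 * π * ‖ν - μ‖ ≤ 2 * π * (Nall * (Cw * r) * Real.exp (π * ℓ)) := by gcongr
    linarith
  have hME : ∀ t ∈ Icc a b, ‖Efun χ (Real.log T) t * w t‖ ≤ (Real.log N / 2 + Cg + 1) * Cw := by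
    intro t ht
    have h3 := norm_Efun_le χ hT (t := t) ⟨ha.1.trans ht.1, ht.2.trans hb.2⟩ hg
    have h4 := hwb t (by simp)
    rw [norm_mul]
    have := (norm_nonneg _).trans h3
    gcongr
  have hME0 : 0 ≤ (Real.log N / 2 + Cg + 1) * Cw := (norm_nonneg _).trans (hME a ⟨le_rfl, hab.le⟩)
  have hba : b - a ≤ T := by linarith [ha.1, hb.2]
  refine ⟨Zr.filter fun z => ¬ P z, ?_, ?_, ?_, ?_⟩
  · exact Finset.filter_subset_filter _ (Finset.filter_subset _ _)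
  · intro z hz
    simp only [hZr, Finset.mem_filter, hZ, hPdef, conj_re] at hz ⊢
    refine ⟨⟨⟨hz.1.1.1, hz.1.1.2.1, ?_⟩, hz.1.2⟩, hz.2⟩
    exact (Xi_conj_eq_zero_iff χ hχ (by linarith [hz.1.1.1])).2 hz.1.1.2.2
  · obtain ⟨e1, e2⟩ := integral_Err_sq_le χ hP hw (L := Real.log T) hab.le hℓ hME
    have hQ : ((Real.log N / 2 + Cg + 1) * Cw) ^ 2 * (b - a) / ℓ
        ≤ ((Real.log N / 2 + Cg + 1) * Cw) ^ 2 * T / ℓ := by gcongr
    have hcE := continuous_Err χ hw a b (Real.log T)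
    have hcν := continuous_nu χ w (Z.filter P) (Zr.filter fun z => ¬ P z)
    have hSc : ContinuousOn (fun s : ℝ => Real.log T * W (s * ℓ) - Psum χ W (s * ℓ)
        - conj (Psum χ W (-(s * ℓ)))) (Icc (-1) 1) := by
      refine ContinuousOn.congr (f := fun s : ℝ =>
        ∑ i ∈ (insert 0 (Finset.Icc 2 X)).disjSum (Finset.Icc 2 X),
          alp χ (Real.log T) i * W (s * ℓ - cen i)) (Continuous.continuousOn (by fun_prop)) ?_
      intro s hs
      apply main_eq_sum χ hsupp hWc hX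
      rw [abs_mul, abs_of_pos hℓ]
      have : |s| ≤ 1 := abs_le.2 hs
      nlinarith
    have h3 := perturb (K := K)
      (μ := fun s => 2 * π * nu χ w (Z.filter P) (Zr.filter fun z => ¬ P z) (s * ℓ))
      (S := fun s => Real.log T * W (s * ℓ) - Psum χ W (s * ℓ) - conj (Psum χ W (-(s * ℓ))))
      (E₁ := fun s => Err χ w a b (Real.log T) (s * ℓ))
      (E₂ := fun s => conj (Err χ w a b (Real.log T) (-(s * ℓ)))) (θ := θ) hK hK0 hKm
      (by fun_prop) hSc (by fun_prop) (by fun_prop) hε (fun s hs => key _ (by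
        rw [abs_mul, abs_of_pos hℓ]
        have : |s| ≤ 1 := abs_le.2 hs
        nlinarith)) (e1.trans hQ) (e2.trans hQ)
    have h4 := mean_value_main χ (L := Real.log T) (D := T) hK hK0 hW hsupp hWc
      (hW2.trans (by linarith)) hℓ hε.le hX h1 h2 hKt0 hKt
    have h5 : 4 * π ^ 2 * ∫ s in (-1 : ℝ)..1,
          K s * ‖nu χ w (Z.filter P) (Zr.filter fun z => ¬ P z) (s * ℓ)‖ ^ 2
        = ∫ s in (-1 : ℝ)..1,
          K s * ‖2 * π * nu χ w (Z.filter P) (Zr.filter fun z => ¬ P z) (s * ℓ)‖ ^ 2 := by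
      rw [← intervalIntegral.integral_const_mul]
      congr 1
      funext s
      rw [norm_mul, norm_mul, norm_real, Real.norm_eq_abs, abs_of_pos Real.pi_pos]
      simp only [norm_ofNat]
      ring
    rw [h5]
    refine h3.trans ?_
    gcongr
  · have h3 := key 0 (by simpa using hℓ.le)
    have hδ : 1 / H ≤ un 2 := by
      have : 0 < 1 / H := by positivity
      linarith
    rw [neg_zero, Psum_zero χ hsupp hδ, hW0] at h3
    have h4 := norm_Err_le χ (L := Real.log T) hab.le hME 0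
    have h5 : (Real.log N / 2 + Cg + 1) * Cw * (b - a) ≤ (Real.log N / 2 + Cg + 1) * Cw * T := by
      gcongr
    set ν := nu χ w (Z.filter P) (Zr.filter fun z => ¬ P z) 0
    set E := Err χ w a b (Real.log T) 0
    have h6 : ((Real.log T * (T - 2 - 2 * U) : ℝ) : ℂ) = 2 * π * ν - E - conj E
        - (2 * π * ν - (Real.log T * (((2 * T - 1 - U) - (T + 1 + U) : ℝ) : ℂ) - 0 - conj 0)
          - E - conj E) := by
      simp only [map_zero]; push_cast; ring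
    have h7 := congrArg norm h6
    rw [norm_real, Real.norm_eq_abs, abs_of_nonneg (mul_nonneg hL0 (by linarith))] at h7
    rw [h7]
    refine (norm_sub_le _ _).trans ?_
    have h8 : ‖2 * π * ν - E - conj E‖ ≤ 2 * π * ‖ν‖ + ‖E‖ + ‖E‖ := by
      refine (norm_sub_le _ _).trans ?_
      rw [RCLike.norm_conj]
      gcongr
      refine (norm_sub_le _ _).trans ?_
      rw [norm_mul, norm_mul, norm_real, Real.norm_eq_abs, abs_of_pos Real.pi_pos]
      simp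
    linarith

end Pool.Agent.MP_f259ea_nt

end
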