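import Mathlib

section

/-!
Interface between the analytic part (A) and the finite-dimensional part (B, C) of the
distinct-zeros bound.
-/

set_option autoImplicit false

open Complex
open scoped Real ComplexConjugate

namespace Pool.Agent.MP_f259ea_nt

/-- The exponential sum `a ↦ ∑ x ∈ Z, c x * exp (2 π i a x)` over complex frequencies. -/
noncomputable def mu (Z : Finset ℂ) (c : ℂ → ℂ) (a : ℝ) : ℂ :=
  ∑ x ∈ Z, c x * Complex.exp (2 * π * I * a * x)

/-- The finite inequality (parts B and C).  `Z₀` is a conjugation-symmetric multiset of main points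
with multiplicities `m`, real parts in `[x₀, x₀ + R]`; `Z₁` is a conjugation-symmetric set of
extra points with arbitrary symmetric complex weights `c`. -/
def StmtB (K : ℝ → ℝ) (α β η : ℝ) : Prop :=
  ∃ C : ℝ, ∀ (Z₀ Z₁ : Finset ℂ) (m : ℂ → ℕ) (c : ℂ → ℂ) (x₀ R : ℝ), 0 ≤ R →
    (∀ x ∈ Z₀, conj x ∈ Z₀ ∧ m (conj x) = m x ∧ 1 ≤ m x ∧ x₀ ≤ x.re ∧ x.re ≤ x₀ + R) →
    (∀ x ∈ Z₁, conj x ∈ Z₁ ∧ c (conj x) = conj (c x)) →
    α * (∑ x ∈ Z₀, (m x : ℝ)) - β * (Z₀.card : ℝ) - η * R - C * (1 + ∑ x ∈ Z₁, (1 + ‖c x‖))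
      ≤ ∫ a in (-1 : ℝ)..1, K a * ‖mu Z₀ (fun x => (m x : ℂ)) a + mu Z₁ c a‖ ^ 2

/-- The pair-correlation functional `K 0 + ∫_{-1}^{1} |a| K a da`. -/
noncomputable def Jval (K : ℝ → ℝ) : ℝ := K 0 + ∫ a in (-1 : ℝ)..1, |a| * K a

/-- The target: asymptotically at least a proportion `c` of the zeros are distinct. -/
def Target (c : ℝ) : Prop :=
  ∀ (N : ℕ) [NeZero N] (χ : DirichletCharacter ℂ N), χ.IsPrimitive →
    ∃ T₀ : ℝ, ∀ T : ℝ, T₀ ≤ T →
      c * (∑ᶠ ρ ∈ {s : ℂ | 0 < s.re ∧ s.re < 1 ∧ T < s.im ∧ s.im ≤ 2 * T ∧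
              DirichletCharacter.LFunction χ s = 0},
            ((analyticOrderAt (DirichletCharacter.LFunction χ) ρ).toNat : ℝ))
        ≤ ({s : ℂ | 0 < s.re ∧ s.re < 1 ∧ T < s.im ∧ s.im ≤ 2 * T ∧
              DirichletCharacter.LFunction χ s = 0}.ncard : ℝ)

/-- Part A: the finite inequality for a continuous kernel `K ≥ 0` on `[-1,1]` gives the target. -/
def StmtA : Prop :=
  ∀ (K : ℝ → ℝ) (α β η c : ℝ), ContinuousOn K (Set.Icc (-1) 1) →
    (∀ a ∈ Set.Icc (-1 : ℝ) 1, 0 ≤ K a) → 0 < β → 0 ≤ η → StmtB K α β η →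
    c * β < α - η - Jval K → Target c

end Pool.Agent.MP_f259ea_nt

end

section

/-!
Statements of the analytic lemmas used in part A.
-/

set_option autoImplicit false

open Complex MeasureTheory Set
open scoped Real ComplexConjugate

namespace Pool.Agent.MP_f259ea_nt

/-- Plancherel inequality for a bounded function on an interval. -/
def StmtPlanch : Prop :=
  ∀ (F : ℝ → ℂ) (a b M Y : ℝ), a ≤ b → 0 ≤ Y → ContinuousOn F (Icc a b) →
    (∀ t ∈ Icc a b, ‖F t‖ ≤ M) →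
    ∫ u in (-Y)..Y, ‖∫ t in a..b, F t * Complex.exp (2 * π * I * u * t)‖ ^ 2 ≤ M ^ 2 * (b - a)

/-- Band-limited smoothing `w` of the indicator of `[A, B]` at scale `H`, with its Fourier
transform `W` supported in `|u| < 1 / H`. -/
def StmtWeight : Prop :=
  ∀ k : ℕ, ∃ C : ℝ, 0 < C ∧ ∀ H A B : ℝ, 2 ≤ H → A ≤ B →
    ∃ (w : ℂ → ℂ) (W : ℝ → ℂ),
      Differentiable ℂ w ∧ (∀ z, w (conj z) = conj (w z)) ∧
      Continuous W ∧ (∀ u, W (-u) = conj (W u)) ∧ (∀ u, 1 / H ≤ |u| → W u = 0) ∧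
      W 0 = ((B - A : ℝ) : ℂ) ∧ (∫ u, ‖W u‖ ^ 2 ≤ B - A) ∧
      (∀ v : ℝ, |v| ≤ 2 → Integrable (fun t : ℝ => w (t + v * I)) ∧
        ∀ u : ℝ, ∫ t : ℝ, w (t + v * I) * Complex.exp (2 * π * I * u * (t + v * I)) = W u) ∧
      (∀ z : ℂ, |z.im| ≤ 2 → ‖w z‖ ≤ C) ∧
      (∀ (z : ℂ) (D : ℝ), |z.im| ≤ 2 → H ≤ D → A + D ≤ z.re → z.re ≤ B - D →
        ‖w z - 1‖ ≤ C * (H / D) ^ k) ∧
      (∀ (z : ℂ) (D : ℝ), |z.im| ≤ 2 → H ≤ D → (z.re ≤ A - D ∨ B + D ≤ z.re) →
        ‖w z‖ ≤ C * (H / D) ^ k) ∧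
      (∀ v D : ℝ, |v| ≤ 2 → H ≤ D →
        ∫ t in (Icc (A - D) (B + D))ᶜ, ‖w (t + v * I)‖ ≤ C * H * (H / D) ^ k)

/-- Weighted argument principle on a rectangle. -/
def StmtRect : Prop :=
  ∀ (F g : ℂ → ℂ) (a b c d : ℝ) (Z : Finset ℂ), a < b → c < d →
    AnalyticOnNhd ℂ F (Icc a b ×ℂ Icc c d) → Differentiable ℂ g →
    (∀ z, z ∈ Z ↔ z ∈ Icc a b ×ℂ Icc c d ∧ F z = 0) →
    (∀ z ∈ Z, z ∈ Ioo a b ×ℂ Ioo c d) →
    (∫ x in a..b, logDeriv F (x + c * I) * g (x + c * I))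
      - (∫ x in a..b, logDeriv F (x + d * I) * g (x + d * I))
      + I * (∫ y in c..d, logDeriv F (b + y * I) * g (b + y * I))
      - I * (∫ y in c..d, logDeriv F (a + y * I) * g (a + y * I))
      = 2 * π * I * ∑ ρ ∈ Z, ((analyticOrderAt F ρ).toNat : ℂ) * g ρ

/-- Good heights: a horizontal segment on which `L'/L` is at most `C (log t)^2`. -/
def StmtHeights : Prop :=
  ∀ (N : ℕ) [NeZero N] (χ : DirichletCharacter ℂ N), ∃ C t₀ : ℝ, ∀ t : ℝ, t₀ ≤ t →
    ∃ t' ∈ Icc t (t + 1), ∀ σ ∈ Icc (1 / 2 : ℝ) 2,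
      DirichletCharacter.LFunction χ (σ + t' * I) ≠ 0 ∧
      ‖logDeriv (DirichletCharacter.LFunction χ) (σ + t' * I)‖ ≤ C * Real.log t ^ 2

/-- Local zero count in the right half of the strip. -/
def StmtCount : Prop :=
  ∀ (N : ℕ) [NeZero N] (χ : DirichletCharacter ℂ N), ∃ C t₀ : ℝ, ∀ t : ℝ, t₀ ≤ t →
    ∀ Z : Finset ℂ, (∀ ρ ∈ Z, 1 / 2 ≤ ρ.re ∧ ρ.re ≤ 2 ∧ t ≤ ρ.im ∧ ρ.im ≤ t + 1) →
      ∑ ρ ∈ Z, ((analyticOrderAt (DirichletCharacter.LFunction χ) ρ).toNat : ℝ) ≤ C * Real.log t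

/-- The logarithmic derivative of the Gamma factor on the critical line. -/
def StmtDigamma : Prop :=
  ∀ (N : ℕ) (χ : DirichletCharacter ℂ N), ∃ C : ℝ, ∀ t : ℝ, 2 ≤ t →
    ‖logDeriv (DirichletCharacter.gammaFactor χ) (1 / 2 + t * I) - ((Real.log t / 2 : ℝ) : ℂ)‖ ≤ C

/-- Mertens-type upper bound for the diagonal prime sum. -/
def StmtMertens : Prop :=
  ∀ f : ℝ → ℝ, Continuous f → (∀ a, 0 ≤ f a) → ∀ ε : ℝ, 0 < ε → ∃ Y₀ : ℝ, ∀ Y : ℝ, Y₀ ≤ Y →
    ∀ X : ℕ, (X : ℝ) ≤ 2 * Real.exp Y →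
      ∑ n ∈ Finset.Icc 1 X, ArithmeticFunction.vonMangoldt n ^ 2 / n * f (Real.log n / Y)
        ≤ Y ^ 2 * ((∫ a in (0 : ℝ)..1, a * f a) + ε)

end Pool.Agent.MP_f259ea_nt

end

section

/-!
The completed `L`-function in the variable `z`, `s = 1/2 + i z`, and its symmetry.
-/

set_option autoImplicit false

open Complex MeasureTheory Set Filter Topology DirichletCharacter
open scoped Real ComplexConjugate

namespace Pool.Agent.MP_f259ea_nt

/-- `s = 1/2 + i z`. -/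
noncomputable def sOf (z : ℂ) : ℂ := 1 / 2 + I * z

@[simp] lemma sOf_re (z : ℂ) : (sOf z).re = 1 / 2 - z.im := by
  simp [sOf]; ring

@[simp] lemma sOf_im (z : ℂ) : (sOf z).im = z.re := by
  simp [sOf]

lemma sOf_conj (z : ℂ) : sOf (conj z) = 1 - conj (sOf z) := by
  apply Complex.ext <;> simp; ring

lemma hasDerivAt_sOf (z : ℂ) : HasDerivAt sOf I z := by
  unfold sOf
  simpa using ((hasDerivAt_id z).const_mul I).const_add (1 / 2 : ℂ)

lemma differentiable_sOf : Differentiable ℂ sOf := fun z => (hasDerivAt_sOf z).differentiableAt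

variable {N : ℕ} [NeZero N] (χ : DirichletCharacter ℂ N)

/-- The completed function `N^{s/2} Λ(s, χ)` at `s = 1/2 + i z`. -/
noncomputable def Xi (z : ℂ) : ℂ := (N : ℂ) ^ (sOf z / 2) * completedLFunction χ (sOf z)

/-- The Archimedean factor `N^{s/2} Γ_χ(s)` at `s = 1/2 + i z`. -/
noncomputable def Gz (z : ℂ) : ℂ := (N : ℂ) ^ (sOf z / 2) * gammaFactor χ (sOf z)

/-- `L(1/2 + i z, χ)`. -/
noncomputable def Lz (z : ℂ) : ℂ := LFunction χ (sOf z)

lemma sOf_ne_zero {z : ℂ} (hz : 0 < z.re) : sOf z ≠ 0 := by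
  intro h
  have := congrArg Complex.im h
  simp at this
  linarith

lemma sOf_ne_one {z : ℂ} (hz : 0 < z.re) : sOf z ≠ 1 := by
  intro h
  have := congrArg Complex.im h
  simp at this
  linarith

omit [NeZero N] in
lemma gammaFactor_ne_zero {s : ℂ} (hs : 0 < s.re) : gammaFactor χ s ≠ 0 := by
  unfold gammaFactor
  split_ifs
  · exact Gammaℝ_ne_zero_of_re_pos hs
  · exact Gammaℝ_ne_zero_of_re_pos (by simp; linarith)

lemma differentiableAt_Gammaℝ {s : ℂ} (hs : 0 < s.re) : DifferentiableAt ℂ Gammaℝ s := by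
  have h1 : DifferentiableAt ℂ (fun s => ((Gammaℝ s)⁻¹)⁻¹) s :=
    (differentiable_Gammaℝ_inv s).inv (inv_ne_zero (Gammaℝ_ne_zero_of_re_pos hs))
  simpa using h1

omit [NeZero N] in
lemma differentiableAt_gammaFactor {s : ℂ} (hs : 0 < s.re) :
    DifferentiableAt ℂ (gammaFactor χ) s := by
  unfold gammaFactor
  split_ifs
  · exact differentiableAt_Gammaℝ hs
  · have h1 : 0 < (s + 1).re := by simp; linarith
    exact DifferentiableAt.comp (g := Gammaℝ) (f := fun s : ℂ => s + 1) s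
      (differentiableAt_Gammaℝ h1) (by fun_prop)

lemma differentiable_Npow : Differentiable ℂ (fun z : ℂ => (N : ℂ) ^ (sOf z / 2)) := by
  intro z
  apply DifferentiableAt.const_cpow
  · exact (differentiable_sOf z).div_const 2
  · left; exact_mod_cast NeZero.ne N

lemma Npow_ne_zero (z : ℂ) : (N : ℂ) ^ (sOf z / 2) ≠ 0 := by
  rw [Ne, cpow_eq_zero_iff]
  rintro ⟨h, -⟩
  exact (NeZero.ne N) (by exact_mod_cast h)

lemma differentiableAt_Xi {z : ℂ} (hz : 0 < z.re) : DifferentiableAt ℂ (Xi χ) z := by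
  unfold Xi
  refine (differentiable_Npow z).mul ?_
  exact (differentiableAt_completedLFunction χ _ (Or.inl (sOf_ne_zero hz))
    (Or.inl (sOf_ne_one hz))).comp z (differentiable_sOf z)

lemma isOpen_rePos : IsOpen {z : ℂ | 0 < z.re} := isOpen_lt continuous_const continuous_re

lemma analyticOnNhd_Xi : AnalyticOnNhd ℂ (Xi χ) {z : ℂ | 0 < z.re} :=
  DifferentiableOn.analyticOnNhd
    (fun _ hz => (differentiableAt_Xi χ hz).differentiableWithinAt) isOpen_rePos

lemma differentiableAt_Lz {z : ℂ} (hz : 0 < z.re) : DifferentiableAt ℂ (Lz χ) z :=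
  (differentiableAt_LFunction χ _ (Or.inl (sOf_ne_one hz))).comp z (differentiable_sOf z)

lemma analyticOnNhd_Lz : AnalyticOnNhd ℂ (Lz χ) {z : ℂ | 0 < z.re} :=
  DifferentiableOn.analyticOnNhd
    (fun _ hz => (differentiableAt_Lz χ hz).differentiableWithinAt) isOpen_rePos

lemma differentiableAt_Gz {z : ℂ} (hz : z.im < 1 / 2) : DifferentiableAt ℂ (Gz χ) z := by
  unfold Gz
  refine (differentiable_Npow z).mul ?_
  exact (differentiableAt_gammaFactor χ (by simp; linarith)).comp z (differentiable_sOf z)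

lemma isOpen_imLt : IsOpen {z : ℂ | z.im < 1 / 2} := isOpen_lt continuous_im continuous_const

lemma analyticOnNhd_Gz : AnalyticOnNhd ℂ (Gz χ) {z : ℂ | z.im < 1 / 2} :=
  DifferentiableOn.analyticOnNhd
    (fun _ hz => (differentiableAt_Gz χ hz).differentiableWithinAt) isOpen_imLt

lemma Gz_ne_zero {z : ℂ} (hz : z.im < 1 / 2) : Gz χ z ≠ 0 :=
  mul_ne_zero (Npow_ne_zero z) (gammaFactor_ne_zero χ (by simp; linarith))

lemma Xi_eq_mul {z : ℂ} (hz : z.im < 1 / 2) : Xi χ z = Gz χ z * Lz χ z := by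
  have hs : 0 < (sOf z).re := by simp; linarith
  have hs0 : sOf z ≠ 0 := by
    intro h; rw [h] at hs; simp at hs
  unfold Xi Gz Lz
  rw [LFunction_eq_completed_div_gammaFactor χ _ (Or.inl hs0)]
  field_simp [gammaFactor_ne_zero χ hs]

lemma Xi_eventuallyEq {z : ℂ} (hz : z.im < 1 / 2) : Xi χ =ᶠ[𝓝 z] Gz χ * Lz χ := by
  filter_upwards [isOpen_imLt.mem_nhds hz] with w hw
  exact Xi_eq_mul χ hw

lemma Lz_ne_zero {z : ℂ} (hz : z.im ≤ -(1 / 2)) (hz' : 0 < z.re) : Lz χ z ≠ 0 :=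
  LFunction_ne_zero_of_one_le_re χ (Or.inr (sOf_ne_one hz')) (by simp; linarith)

lemma Gammaℝ_conj (s : ℂ) : Gammaℝ (conj s) = conj (Gammaℝ s) := by
  rw [Gammaℝ_def, Gammaℝ_def, map_mul, ← Gamma_conj]
  have h1 : conj (s / 2) = conj s / 2 := by simp [map_ofNat]
  have h2 : (π : ℂ) ^ (-conj s / 2) = conj ((π : ℂ) ^ (-s / 2)) := by
    have : -conj s / 2 = conj (-s / 2) := by simp [map_ofNat]
    rw [this, cpow_conj _ _ (by rw [arg_ofReal_of_nonneg Real.pi_pos.le]; exact Real.pi_ne_zero.symm)]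
    simp
  rw [h1, h2]

omit [NeZero N] in
lemma even_inv_iff : χ⁻¹.Even ↔ χ.Even := by
  unfold DirichletCharacter.Even
  rw [MulChar.inv_apply_eq_inv']
  exact inv_eq_one

omit [NeZero N] in
lemma gammaFactor_inv_conj (s : ℂ) : gammaFactor χ⁻¹ (conj s) = conj (gammaFactor χ s) := by
  unfold gammaFactor
  by_cases h : χ.Even
  · rw [if_pos h, if_pos ((even_inv_iff χ).2 h), Gammaℝ_conj]
  · rw [if_neg h, if_neg (fun h' => h ((even_inv_iff χ).1 h')), ← Gammaℝ_conj]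
    simp

lemma LFunction_inv_conj {s : ℂ} (hs : 1 < s.re) :
    LFunction χ⁻¹ (conj s) = conj (LFunction χ s) := by
  rw [LFunction_eq_LSeries _ hs, LFunction_eq_LSeries _ (by simpa using hs)]
  unfold LSeries
  rw [conj_tsum]
  congr 1
  funext n
  rcases eq_or_ne n 0 with rfl | hn
  · simp
  · rw [LSeries.term_of_ne_zero hn, LSeries.term_of_ne_zero hn, map_div₀]
    congr 1
    · exact (MulChar.star_apply' χ n).symm
    · rw [cpow_conj _ _ (by rw [natCast_arg]; exact Real.pi_ne_zero.symm)]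
      simp

lemma completed_inv_conj {s : ℂ} (hs : 1 < s.re) :
    completedLFunction χ⁻¹ (conj s) = conj (completedLFunction χ s) := by
  have hs0 : s ≠ 0 := by intro h; rw [h] at hs; simp at hs; linarith
  have hs0' : conj s ≠ 0 := by simpa using hs0
  have h1 := LFunction_eq_completed_div_gammaFactor χ s (Or.inl hs0)
  have h2 := LFunction_eq_completed_div_gammaFactor χ⁻¹ (conj s) (Or.inl hs0')
  have g1 := gammaFactor_ne_zero χ (s := s) (by linarith)
  have g2 := gammaFactor_ne_zero χ⁻¹ (s := conj s) (by simp; linarith)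
  rw [eq_div_iff g1] at h1
  rw [eq_div_iff g2] at h2
  rw [← h1, ← h2, map_mul, LFunction_inv_conj χ hs, gammaFactor_inv_conj]

lemma Xi_conj_aux (hχ : χ.IsPrimitive) {z : ℂ} (hz : z.im < -(1 / 2)) :
    Xi χ (conj z) = rootNumber χ * conj (Xi χ z) := by
  have hs : 1 < (sOf z).re := by simp; linarith
  have hN : (N : ℂ) ≠ 0 := by exact_mod_cast NeZero.ne N
  unfold Xi
  rw [sOf_conj, hχ.completedLFunction_one_sub, completed_inv_conj χ hs, map_mul]
  have h1 : conj ((N : ℂ) ^ (sOf z / 2)) = (N : ℂ) ^ (conj (sOf z) / 2) := by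
    have : conj (sOf z) / 2 = conj (sOf z / 2) := by simp [map_ofNat]
    rw [this, cpow_conj _ _ (by rw [natCast_arg]; exact Real.pi_ne_zero.symm)]
    simp
  have h2 : (N : ℂ) ^ ((1 - conj (sOf z)) / 2) * (N : ℂ) ^ (conj (sOf z) - 1 / 2)
      = (N : ℂ) ^ (conj (sOf z) / 2) := by
    rw [← cpow_add _ _ hN]; congr 1; ring
  rw [h1, ← h2]; ring

lemma convex_rePos : Convex ℝ {z : ℂ | 0 < z.re} := convex_halfSpace_re_gt 0

lemma Xi_conj (hχ : χ.IsPrimitive) {z : ℂ} (hz : 0 < z.re) :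
    Xi χ (conj z) = rootNumber χ * conj (Xi χ z) := by
  have h1 : AnalyticOnNhd ℂ (conj ∘ Xi χ ∘ conj) {z : ℂ | 0 < z.re} := by
    refine DifferentiableOn.analyticOnNhd (fun w hw => ?_) isOpen_rePos
    have := (differentiableAt_Xi χ (z := conj w) (by simpa using hw)).conj_conj
    simpa using this.differentiableWithinAt
  have h2 : AnalyticOnNhd ℂ (fun w => conj (rootNumber χ) * Xi χ w) {z : ℂ | 0 < z.re} :=
    analyticOnNhd_const.mul (analyticOnNhd_Xi χ)
  have h3 : (conj ∘ Xi χ ∘ conj) =ᶠ[𝓝 (1 - I)] fun w => conj (rootNumber χ) * Xi χ w := by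
    have : IsOpen {z : ℂ | z.im < -(1 / 2)} := isOpen_lt continuous_im continuous_const
    filter_upwards [this.mem_nhds (show (1 - I : ℂ) ∈ _ by simp; norm_num)] with w hw
    simp [Xi_conj_aux χ hχ hw]
  have h4 := h1.eqOn_of_preconnected_of_eventuallyEq h2 convex_rePos.isPreconnected
    (show (1 - I : ℂ) ∈ _ by simp) h3 hz
  have h5 := congrArg conj h4
  simpa using h5

lemma Xi_ne_zero_of_im_le {z : ℂ} (hz : z.im ≤ -(1 / 2)) (hz' : 0 < z.re) : Xi χ z ≠ 0 := by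
  rw [Xi_eq_mul χ (by linarith)]
  exact mul_ne_zero (Gz_ne_zero χ (by linarith)) (Lz_ne_zero χ hz hz')

lemma order_Xi_ne_top {z : ℂ} (hz : 0 < z.re) : analyticOrderAt (Xi χ) z ≠ ⊤ := by
  refine (analyticOnNhd_Xi χ).analyticOrderAt_ne_top_of_isPreconnected (x := 1 - I)
    convex_rePos.isPreconnected (by simp) hz ?_
  have h := Xi_ne_zero_of_im_le χ (z := 1 - I) (by simp; norm_num) (by simp)
  rw [(analyticOnNhd_Xi χ _ (by simp)).analyticOrderAt_eq_zero.2 h]
  simp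

lemma rootNumber_ne_zero (hχ : χ.IsPrimitive) : rootNumber χ ≠ 0 := by
  intro h
  have h1 := Xi_conj χ hχ (z := 1 + I) (by simp)
  rw [h, zero_mul] at h1
  exact Xi_ne_zero_of_im_le χ (z := conj (1 + I)) (by simp; norm_num) (by simp) h1

lemma Xi_conj_eq_zero_iff (hχ : χ.IsPrimitive) {z : ℂ} (hz : 0 < z.re) :
    Xi χ (conj z) = 0 ↔ Xi χ z = 0 := by
  rw [Xi_conj χ hχ hz]
  simp [rootNumber_ne_zero χ hχ]

lemma abs_im_lt_of_Xi_eq_zero (hχ : χ.IsPrimitive) {z : ℂ} (hz : 0 < z.re) (h : Xi χ z = 0) :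
    |z.im| < 1 / 2 := by
  rw [abs_lt]
  constructor
  · by_contra h1
    exact Xi_ne_zero_of_im_le χ (not_lt.1 h1) hz h
  · by_contra h1
    refine Xi_ne_zero_of_im_le χ (z := conj z) (by simp; linarith) (by simpa using hz) ?_
    exact (Xi_conj_eq_zero_iff χ hχ hz).2 h

lemma Xi_eq_zero_iff {z : ℂ} (hz : z.im < 1 / 2) : Xi χ z = 0 ↔ Lz χ z = 0 := by
  rw [Xi_eq_mul χ hz]
  simp [Gz_ne_zero χ hz]

lemma order_Xi_eq {z : ℂ} (hz : z.im < 1 / 2) (hz' : 0 < z.re) :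
    analyticOrderAt (Xi χ) z = analyticOrderAt (LFunction χ) (sOf z) := by
  rw [analyticOrderAt_congr (Xi_eventuallyEq χ hz),
    analyticOrderAt_mul (analyticOnNhd_Gz χ z hz) (analyticOnNhd_Lz χ z hz'),
    (analyticOnNhd_Gz χ z hz).analyticOrderAt_eq_zero.2 (Gz_ne_zero χ hz), zero_add]
  exact analyticOrderAt_comp_of_deriv_ne_zero (f := LFunction χ)
    (differentiable_sOf.analyticAt z) (by rw [(hasDerivAt_sOf z).deriv]; exact I_ne_zero)

lemma Xi_eventuallyEq_conj (hχ : χ.IsPrimitive) {z : ℂ} (hz : 0 < z.re) :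
    Xi χ =ᶠ[𝓝 z] fun w => rootNumber χ * (conj ∘ Xi χ ∘ conj) w := by
  filter_upwards [isOpen_rePos.mem_nhds hz] with w hw
  have := Xi_conj χ hχ (z := conj w) (by simpa using hw)
  simpa using this

lemma order_Xi_conj (hχ : χ.IsPrimitive) {z : ℂ} (hz : 0 < z.re) :
    analyticOrderAt (Xi χ) (conj z) = analyticOrderAt (Xi χ) z := by
  obtain ⟨n, hn⟩ := ENat.ne_top_iff_exists.1 (order_Xi_ne_top χ hz)
  have hz' : 0 < (conj z).re := by simpa using hz
  obtain ⟨g, hg, hg0, hgf⟩ := ((analyticOnNhd_Xi χ z hz).analyticOrderAt_eq_natCast).1 hn.symm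
  rw [← hn, (analyticOnNhd_Xi χ _ hz').analyticOrderAt_eq_natCast]
  refine ⟨fun w => rootNumber χ * (conj ∘ g ∘ conj) w, ?_, ?_, ?_⟩
  · refine analyticAt_const.mul ?_
    rw [analyticAt_iff_eventually_differentiableAt] at hg ⊢
    have hc : Tendsto conj (𝓝 (conj z)) (𝓝 z) := by
      have := continuous_conj.tendsto (conj z)
      simpa using this
    filter_upwards [hc.eventually hg] with w hw
    simpa using hw.conj_conj
  · simp [rootNumber_ne_zero χ hχ, hg0]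
  · have hc : Tendsto conj (𝓝 (conj z)) (𝓝 z) := by
      have := continuous_conj.tendsto (conj z)
      simpa using this
    filter_upwards [hc.eventually hgf, Xi_eventuallyEq_conj χ hχ hz'] with w hw hw'
    rw [hw']
    simp only [Function.comp, hw, smul_eq_mul, map_mul, map_pow, map_sub, conj_conj]
    ring

lemma logDeriv_Xi_conj (hχ : χ.IsPrimitive) {z : ℂ} (hz : 0 < z.re) :
    logDeriv (Xi χ) (conj z) = conj (logDeriv (Xi χ) z) := by
  have hz' : 0 < (conj z).re := by simpa using hz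
  have h1 := Xi_eventuallyEq_conj χ hχ hz'
  rw [logDeriv_apply, logDeriv_apply, h1.deriv_eq, deriv_const_mul_field, deriv_conj_conj,
    Xi_conj χ hχ hz, map_div₀]
  simp only [Function.comp, conj_conj]
  rw [mul_div_mul_left _ _ (rootNumber_ne_zero χ hχ)]

lemma finite_zeros_Xi {K : Set ℂ} (hK : IsCompact K) (hKU : K ⊆ {z : ℂ | 0 < z.re}) :
    {z ∈ K | Xi χ z = 0}.Finite := by
  have h1 : (Xi χ ⁻¹' {0}ᶜ) ∈ codiscreteWithin {z : ℂ | 0 < z.re} :=
    (analyticOnNhd_Xi χ).preimage_zero_mem_codiscreteWithin (x := 1 - I)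
      (Xi_ne_zero_of_im_le χ (by simp; norm_num) (by simp)) (by simp)
      ⟨⟨1, by simp⟩, convex_rePos.isPreconnected⟩
  have h2 : (Xi χ ⁻¹' {0}ᶜ) ∈ codiscreteWithin K := codiscreteWithin_mono hKU h1
  have h3 := hK.finite_sdiff_of_mem_codiscreteWithin h2
  refine h3.subset ?_
  intro z hz
  exact ⟨hz.1, by simpa using hz.2⟩

lemma logDeriv_Xi_eq {z : ℂ} (hz : z.im < 1 / 2) (hz' : 0 < z.re) (h : Lz χ z ≠ 0) :
    logDeriv (Xi χ) z = logDeriv (Gz χ) z + logDeriv (Lz χ) z := by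
  have h1 := Xi_eventuallyEq χ hz
  have h2 : logDeriv (Xi χ) z = logDeriv (Gz χ * Lz χ) z := by
    rw [logDeriv_apply, logDeriv_apply, h1.deriv_eq, h1.eq_of_nhds]
  rw [h2]
  exact logDeriv_mul z (Gz_ne_zero χ hz) h (differentiableAt_Gz χ hz) (differentiableAt_Lz χ hz')

lemma logDeriv_Lz {z : ℂ} (hz' : 0 < z.re) :
    logDeriv (Lz χ) z = I * logDeriv (LFunction χ) (sOf z) := by
  have := logDeriv_comp (f := LFunction χ) (g := sOf) (x := z)
    (differentiableAt_LFunction χ _ (Or.inl (sOf_ne_one hz'))) (differentiable_sOf z)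
  rw [(hasDerivAt_sOf z).deriv] at this
  rw [mul_comm]
  exact this

lemma logDeriv_Gz {z : ℂ} (hz : z.im < 1 / 2) :
    logDeriv (Gz χ) z = I * (((Real.log N / 2 : ℝ) : ℂ) + logDeriv (gammaFactor χ) (sOf z)) := by
  have hs : 0 < (sOf z).re := by simp; linarith
  have hN : (N : ℂ) ≠ 0 := by exact_mod_cast NeZero.ne N
  have h1 := logDeriv_comp (f := gammaFactor χ) (g := sOf) (x := z)
    (differentiableAt_gammaFactor χ hs) (differentiable_sOf z)
  rw [(hasDerivAt_sOf z).deriv] at h1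
  have h2 : logDeriv (fun z : ℂ => (N : ℂ) ^ (sOf z / 2)) z = I * ((Real.log N / 2 : ℝ) : ℂ) := by
    have h3 := ((hasDerivAt_sOf z).div_const 2).const_cpow (c := (N : ℂ)) (Or.inl hN)
    rw [logDeriv_apply, h3.deriv]
    have := Npow_ne_zero (N := N) z
    field_simp
    push_cast
    ring
  have h4 : logDeriv (Gz χ) z = logDeriv (fun z : ℂ => (N : ℂ) ^ (sOf z / 2)) z
      + logDeriv (gammaFactor χ ∘ sOf) z :=
    logDeriv_mul (f := fun z : ℂ => (N : ℂ) ^ (sOf z / 2)) (g := gammaFactor χ ∘ sOf) z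
      (Npow_ne_zero z) (gammaFactor_ne_zero χ hs) (differentiable_Npow z)
      ((differentiableAt_gammaFactor χ hs).comp z (differentiable_sOf z))
  rw [h4, h1, h2]; ring

end Pool.Agent.MP_f259ea_nt

end

section

/-!
Half contours and the prime side of the explicit formula.
-/

set_option autoImplicit false

open Complex MeasureTheory Set Filter Topology DirichletCharacter
open scoped Real ComplexConjugate

namespace Pool.Agent.MP_f259ea_nt

/-- The test function `w(z) e(u z)`. -/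
noncomputable def gu (w : ℂ → ℂ) (u : ℝ) (z : ℂ) : ℂ := w z * Complex.exp (2 * π * I * u * z)

lemma differentiable_gu {w : ℂ → ℂ} (hw : Differentiable ℂ w) (u : ℝ) :
    Differentiable ℂ (gu w u) := by
  unfold gu
  fun_prop

lemma norm_exp_uz (u : ℝ) (z : ℂ) :
    ‖Complex.exp (2 * π * I * u * z)‖ = Real.exp (-(2 * π * u * z.im)) := by
  rw [Complex.norm_exp]
  congr 1
  simp

lemma norm_exp_uz_le (u : ℝ) (z : ℂ) {r : ℝ} (hz : |z.im| ≤ r) :
    ‖Complex.exp (2 * π * I * u * z)‖ ≤ Real.exp (2 * π * |u| * r) := by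
  rw [norm_exp_uz]
  apply Real.exp_le_exp.2
  have h1 : -(u * z.im) ≤ |u| * r := by
    calc -(u * z.im) ≤ |u * z.im| := neg_le_abs _
      _ = |u| * |z.im| := abs_mul _ _
      _ ≤ |u| * r := by gcongr
  have := Real.pi_pos
  nlinarith

lemma gu_conj {w : ℂ → ℂ} (hw : ∀ z, w (conj z) = conj (w z)) (u : ℝ) (z : ℂ) :
    gu w u (conj z) = conj (gu w (-u) z) := by
  unfold gu
  rw [hw, map_mul, ← Complex.exp_conj]
  congr 2
  simp [map_ofNat]

/-- The lower half of a rectangular contour, from `a` to `b` through height `c ≤ 0`. -/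
noncomputable def Half (φ : ℂ → ℂ) (a b c : ℝ) : ℂ :=
  (∫ x in a..b, φ (x + c * I)) + I * (∫ y in c..0, φ (b + y * I)) - I * ∫ y in c..0, φ (a + y * I)

lemma Half_eq_of_differentiableOn {φ : ℂ → ℂ} {a b c : ℝ} (hab : a ≤ b) (hc : c ≤ 0)
    (h : DifferentiableOn ℂ φ (Icc a b ×ℂ Icc c 0)) : Half φ a b c = ∫ x in a..b, φ x := by
  have h1 := integral_boundary_rect_eq_zero_of_differentiableOn φ (a + c * I) b
    (by simpa [uIcc_of_le hab, uIcc_of_le hc] using h)
  simp only [add_re, ofReal_re, mul_re, I_re, mul_zero, ofReal_im, I_im, mul_one, sub_self,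
    add_zero, add_im, mul_im, zero_add, ofReal_zero, zero_mul, smul_eq_mul] at h1
  unfold Half
  linear_combination h1

lemma Half_add {φ ψ : ℂ → ℂ} {a b c : ℝ}
    (h1 : IntervalIntegrable (fun x : ℝ => φ (x + c * I)) volume a b)
    (h1' : IntervalIntegrable (fun x : ℝ => ψ (x + c * I)) volume a b)
    (h2 : IntervalIntegrable (fun y : ℝ => φ (b + y * I)) volume c 0)
    (h2' : IntervalIntegrable (fun y : ℝ => ψ (b + y * I)) volume c 0)
    (h3 : IntervalIntegrable (fun y : ℝ => φ (a + y * I)) volume c 0)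
    (h3' : IntervalIntegrable (fun y : ℝ => ψ (a + y * I)) volume c 0) :
    Half (fun z => φ z + ψ z) a b c = Half φ a b c + Half ψ a b c := by
  unfold Half
  rw [intervalIntegral.integral_add h1 h1', intervalIntegral.integral_add h2 h2',
    intervalIntegral.integral_add h3 h3']
  ring

lemma Half_congr {φ ψ : ℂ → ℂ} {a b c : ℝ} (hab : a ≤ b) (hc : c ≤ 0)
    (h1 : ∀ x ∈ Icc a b, φ (x + c * I) = ψ (x + c * I))
    (h2 : ∀ y ∈ Icc c 0, φ (b + y * I) = ψ (b + y * I))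
    (h3 : ∀ y ∈ Icc c 0, φ (a + y * I) = ψ (a + y * I)) :
    Half φ a b c = Half ψ a b c := by
  unfold Half
  rw [intervalIntegral.integral_congr (g := fun x : ℝ => ψ (x + c * I))
      (by rw [uIcc_of_le hab]; exact h1),
    intervalIntegral.integral_congr (f := fun y : ℝ => φ (b + y * I))
      (g := fun y : ℝ => ψ (b + y * I)) (by rw [uIcc_of_le hc]; exact h2),
    intervalIntegral.integral_congr (f := fun y : ℝ => φ (a + y * I))
      (g := fun y : ℝ => ψ (a + y * I)) (by rw [uIcc_of_le hc]; exact h3)]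

lemma vertical_split {φ φ' : ℂ → ℂ} {t c : ℝ} (hc : c ≤ 0)
    (hsym : ∀ y : ℝ, φ (conj (t + y * I)) = conj (φ' (t + y * I)))
    (hcont : ContinuousOn (fun y : ℝ => φ (t + y * I)) (Icc c (-c))) :
    ∫ y in c..(-c), φ (t + y * I)
      = (∫ y in c..0, φ (t + y * I)) + conj (∫ y in c..0, φ' (t + y * I)) := by
  have i1 : IntervalIntegrable (fun y : ℝ => φ (t + y * I)) volume c 0 :=
    (hcont.mono (by rw [uIcc_of_le hc]; exact Icc_subset_Icc_right (by linarith))).intervalIntegrable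
  have i2 : IntervalIntegrable (fun y : ℝ => φ (t + y * I)) volume 0 (-c) :=
    (hcont.mono (by
      rw [uIcc_of_le (by linarith)]; exact Icc_subset_Icc_left hc)).intervalIntegrable
  rw [← intervalIntegral.integral_add_adjacent_intervals i1 i2,
    ← intervalIntegral.intervalIntegral_conj]
  congr 1
  have h1 := intervalIntegral.integral_comp_neg (a := c) (b := 0)
    (fun y : ℝ => φ (t + y * I))
  rw [neg_zero] at h1
  rw [← h1]
  congr 1
  funext y
  rw [← hsym]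
  congr 1
  simp

lemma total_eq_half {φ φ' : ℂ → ℂ} {a b c : ℝ} (hab : a ≤ b) (hc : c ≤ 0)
    (hsym : ∀ z : ℂ, a ≤ z.re → φ (conj z) = conj (φ' z))
    (ha : ContinuousOn (fun y : ℝ => φ (a + y * I)) (Icc c (-c)))
    (hb : ContinuousOn (fun y : ℝ => φ (b + y * I)) (Icc c (-c))) :
    (∫ x in a..b, φ (x + c * I)) - (∫ x in a..b, φ (x + (-c : ℝ) * I))
      + I * (∫ y in c..(-c), φ (b + y * I)) - I * (∫ y in c..(-c), φ (a + y * I))
      = Half φ a b c - conj (Half φ' a b c) := by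
  rw [vertical_split hc (fun y => hsym _ (by simpa using hab)) hb,
    vertical_split hc (fun y => hsym _ (by simp)) ha]
  have h1 : (∫ x in a..b, φ (x + (-c : ℝ) * I)) = conj (∫ x in a..b, φ' (x + c * I)) := by
    rw [← intervalIntegral.intervalIntegral_conj]
    apply intervalIntegral.integral_congr
    intro x hx
    rw [uIcc_of_le hab] at hx
    have := hsym (x + c * I) (by simpa using hx.1)
    simp only
    rw [← this]
    congr 1
    simp
  rw [h1]
  unfold Half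
  simp only [map_sub, map_add, map_mul, conj_I]
  ring

lemma continuousAt_logDeriv {f : ℂ → ℂ} {z : ℂ} (hf : AnalyticAt ℂ f z) (h : f z ≠ 0) :
    ContinuousAt (logDeriv f) z :=
  hf.deriv.continuousAt.div hf.continuousAt h

lemma differentiableAt_logDeriv {f : ℂ → ℂ} {z : ℂ} (hf : AnalyticAt ℂ f z) (h : f z ≠ 0) :
    DifferentiableAt ℂ (logDeriv f) z :=
  hf.deriv.differentiableAt.div hf.differentiableAt h

/-- The frequency `log n / (2 π)`. -/
noncomputable def un (n : ℕ) : ℝ := Real.log n / (2 * π)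

variable {N : ℕ} (χ : DirichletCharacter ℂ N)

/-- The coefficient `χ(n) Λ(n) / √n`. -/
noncomputable def coef (n : ℕ) : ℂ :=
  χ n * (ArithmeticFunction.vonMangoldt n : ℝ) / (Real.sqrt n : ℝ)

/-- The prime side `∑ χ(n) Λ(n) n^{-1/2} W(u - log n / 2π)`. -/
noncomputable def Psum (W : ℝ → ℂ) (u : ℝ) : ℂ := ∑' n : ℕ, coef χ n * W (u - un n)

/-- The coefficient sequence `χ Λ`. -/
noncomputable def chiL : ℕ → ℂ :=
  (fun n : ℕ => χ n) * (fun n : ℕ => ((ArithmeticFunction.vonMangoldt n : ℝ) : ℂ))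

/-- The bound `∑ |χ(n) Λ(n)| / n^2`. -/
noncomputable def Btwo : ℝ := ∑' n, ‖LSeries.term (chiL χ) 2 n‖

lemma summable_Btwo : Summable fun n => ‖LSeries.term (chiL χ) 2 n‖ :=
  (LSeriesSummable_twist_vonMangoldt χ (s := 2) (by simp)).norm

lemma Btwo_nonneg : 0 ≤ Btwo χ := tsum_nonneg fun _ => norm_nonneg _

lemma norm_term_of_re {s : ℂ} (hs : s.re = 2) (n : ℕ) :
    ‖LSeries.term (chiL χ) s n‖ = ‖LSeries.term (chiL χ) 2 n‖ := by
  rw [LSeries.norm_term_eq, LSeries.norm_term_eq, hs]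
  simp

lemma norm_LSeries_chiL_le {s : ℂ} (hs : s.re = 2) : ‖LSeries (chiL χ) s‖ ≤ Btwo χ := by
  unfold LSeries Btwo
  have h := summable_Btwo χ
  simp_rw [← norm_term_of_re χ hs] at h ⊢
  exact norm_tsum_le_tsum_norm h

lemma term_mul_gu (w : ℂ → ℂ) (u : ℝ) (z : ℂ) (n : ℕ) :
    LSeries.term (chiL χ) (sOf z) n * gu w u z = coef χ n * gu w (u - un n) z := by
  rcases eq_or_ne n 0 with rfl | hn
  · simp [coef]
  · have hn0 : (0 : ℝ) < n := by positivity
    have hnc : (n : ℂ) ≠ 0 := by exact_mod_cast hn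
    have h1 : (n : ℂ) ^ (sOf z)
        = (Real.sqrt n : ℝ) * Complex.exp (2 * π * I * (un n) * z) := by
      rw [cpow_def_of_ne_zero hnc, Real.sqrt_eq_rpow, Real.rpow_def_of_pos hn0, ofReal_exp,
        ← Complex.exp_add]
      congr 1
      have hpi : (π : ℂ) ≠ 0 := by exact_mod_cast Real.pi_ne_zero
      unfold un sOf
      push_cast
      field_simp
    have h2 : ((Real.sqrt n : ℝ) : ℂ) ≠ 0 := by
      exact_mod_cast (Real.sqrt_pos.2 hn0).ne'
    rw [LSeries.term_of_ne_zero hn, h1]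
    unfold gu coef chiL
    have h3 : Complex.exp (2 * π * I * u * z)
        = Complex.exp (2 * π * I * ((u - un n : ℝ) : ℂ) * z)
          * Complex.exp (2 * π * I * (un n) * z) := by
      rw [← Complex.exp_add]; congr 1; push_cast; ring
    rw [h3]
    have h4 := Complex.exp_ne_zero (2 * π * I * (un n) * z)
    simp only [Pi.mul_apply]
    field_simp

lemma integrable_gu {w : ℂ → ℂ} {v : ℝ} (hi : Integrable (fun t : ℝ => w (t + v * I))) (u : ℝ) :
    Integrable (fun t : ℝ => gu w u (t + v * I)) := by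
  unfold gu
  refine hi.mul_bdd (c := Real.exp (2 * π * |u| * |v|)) (by fun_prop) ?_
  filter_upwards with t
  exact norm_exp_uz_le u _ (by simp)

lemma line_integral {w : ℂ → ℂ} {W : ℝ → ℂ}
    (hi : Integrable (fun t : ℝ => w (t + (-(3 / 2) : ℝ) * I)))
    (hW : ∀ u : ℝ, ∫ t : ℝ, gu w u (t + (-(3 / 2) : ℝ) * I) = W u) (u : ℝ) :
    ∫ t : ℝ, LSeries (chiL χ) (sOf (t + (-(3 / 2) : ℝ) * I)) * gu w u (t + (-(3 / 2) : ℝ) * I)
      = Psum χ W u := by
  have hre : ∀ t : ℝ, (sOf (t + (-(3 / 2) : ℝ) * I)).re = 2 := by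
    intro t; simp; norm_num
  have h := integral_tsum_of_summable_integral_norm (μ := volume)
    (F := fun (n : ℕ) (t : ℝ) => LSeries.term (chiL χ) (sOf (t + (-(3 / 2) : ℝ) * I)) n
      * gu w u (t + (-(3 / 2) : ℝ) * I)) ?_ ?_
  · unfold Psum LSeries
    simp_rw [← tsum_mul_right]
    rw [← h]
    congr 1
    funext n
    simp_rw [term_mul_gu]
    rw [integral_const_mul, hW]
  · intro n
    simp_rw [term_mul_gu]
    exact (integrable_gu hi _).const_mul _
  · simp_rw [norm_mul, norm_term_of_re χ (hre _), integral_const_mul]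
    exact (summable_Btwo χ).mul_right _

lemma continuous_LSeries_line :
    Continuous fun t : ℝ => LSeries (chiL χ) (sOf (t + (-(3 / 2) : ℝ) * I)) := by
  have hre : ∀ t : ℝ, (sOf (t + (-(3 / 2) : ℝ) * I)).re = 2 := by
    intro t; simp; norm_num
  unfold LSeries
  refine continuous_tsum (fun n => ?_) (summable_Btwo χ)
    (fun n t => (norm_term_of_re χ (hre t) n).le)
  rcases eq_or_ne n 0 with rfl | hn
  · simp [continuous_const]
  · simp_rw [LSeries.term_of_ne_zero hn]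
    have hnc : (n : ℂ) ≠ 0 := by exact_mod_cast hn
    refine continuous_const.div ?_ (fun t => by simp [cpow_eq_zero_iff, hn])
    refine Continuous.const_cpow ?_ (Or.inl hnc)
    exact differentiable_sOf.continuous.comp (by fun_prop)

/-- The segment integral differs from the prime sum by a tail. -/
lemma segment_integral {w : ℂ → ℂ} {W : ℝ → ℂ}
    (hi : Integrable (fun t : ℝ => w (t + (-(3 / 2) : ℝ) * I)))
    (hW : ∀ u : ℝ, ∫ t : ℝ, gu w u (t + (-(3 / 2) : ℝ) * I) = W u) (u : ℝ) {a b τ : ℝ}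
    (hab : a ≤ b) (hτ : ∫ t in (Icc a b)ᶜ, ‖w (t + (-(3 / 2) : ℝ) * I)‖ ≤ τ) :
    ‖(∫ t in a..b, LSeries (chiL χ) (sOf (t + (-(3 / 2) : ℝ) * I))
        * gu w u (t + (-(3 / 2) : ℝ) * I)) - Psum χ W u‖
      ≤ Btwo χ * Real.exp (3 * π * |u|) * τ := by
  have hre : ∀ t : ℝ, (sOf (t + (-(3 / 2) : ℝ) * I)).re = 2 := by
    intro t; simp; norm_num
  have hint : Integrable (fun t : ℝ => LSeries (chiL χ) (sOf (t + (-(3 / 2) : ℝ) * I))
      * gu w u (t + (-(3 / 2) : ℝ) * I)) := by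
    refine (integrable_gu hi u).bdd_mul (c := Btwo χ)
      (continuous_LSeries_line χ).aestronglyMeasurable ?_
    filter_upwards with t
    exact norm_LSeries_chiL_le χ (hre t)
  rw [← line_integral χ hi hW u, ← integral_add_compl (s := Icc a b) measurableSet_Icc hint,
    intervalIntegral.integral_of_le hab, integral_Icc_eq_integral_Ioc]
  rw [sub_add_cancel_left, norm_neg]
  calc _ ≤ ∫ t in (Icc a b)ᶜ, Btwo χ * Real.exp (3 * π * |u|) * ‖w (t + (-(3 / 2) : ℝ) * I)‖ := by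
        refine norm_integral_le_of_norm_le (hi.norm.const_mul _).integrableOn ?_
        filter_upwards with t
        rw [norm_mul]
        unfold gu
        rw [norm_mul]
        have h1 := norm_LSeries_chiL_le χ (hre t)
        have h2 := norm_exp_uz_le u (t + (-(3 / 2) : ℝ) * I) (r := 3 / 2) (by
          simp; norm_num [abs_of_pos])
        have h3 : 2 * π * |u| * (3 / 2) = 3 * π * |u| := by ring
        rw [h3] at h2
        have := Btwo_nonneg χ
        calc _ ≤ Btwo χ * (‖w (t + (-(3 / 2) : ℝ) * I)‖ * Real.exp (3 * π * |u|)) := by gcongr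
          _ = _ := by ring
    _ ≤ _ := by
        rw [integral_const_mul]
        have := Btwo_nonneg χ
        gcongr

lemma logDeriv_LFunction_eq [NeZero N] {s : ℂ} (hs : 1 < s.re) :
    logDeriv (LFunction χ) s = -LSeries (chiL χ) s := by
  rw [logDeriv_apply, deriv_LFunction_eq_deriv_LSeries χ hs, LFunction_eq_LSeries χ hs]
  have := LSeries_twist_vonMangoldt_eq χ hs
  unfold chiL
  rw [this]; ring

end Pool.Agent.MP_f259ea_nt

end

section

/-!
The explicit formula on a finite rectangle.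
-/

set_option autoImplicit false

open Complex MeasureTheory Set Filter Topology DirichletCharacter
open scoped Real ComplexConjugate

namespace Pool.Agent.MP_f259ea_nt

variable {N : ℕ} [NeZero N] (χ : DirichletCharacter ℂ N)

/-- The Archimedean term. -/
noncomputable def Gam (w : ℂ → ℂ) (a b u : ℝ) : ℂ :=
  ∫ x in a..b, (((Real.log N / 2 : ℝ) : ℂ) + logDeriv (gammaFactor χ) (1 / 2 + x * I)) * gu w u x

lemma sOf_vert (t y : ℝ) : sOf (t + y * I) = ((1 / 2 - y : ℝ) : ℂ) + t * I := by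
  apply Complex.ext <;> simp

lemma Lz_vert {t B : ℝ} (ht : 0 < t)
    (hL : ∀ σ ∈ Icc (1 / 2 : ℝ) 2, LFunction χ (σ + t * I) ≠ 0 ∧
      ‖logDeriv (LFunction χ) (σ + t * I)‖ ≤ B) {y : ℝ} (hy : y ∈ Icc (-(3 / 2) : ℝ) 0) :
    Lz χ (t + y * I) ≠ 0 ∧ ‖logDeriv (Lz χ) (t + y * I)‖ ≤ B := by
  have h := hL (1 / 2 - y) ⟨by linarith [hy.2], by linarith [hy.1]⟩
  rw [logDeriv_Lz χ (by simpa using ht), norm_mul, norm_I, one_mul]
  unfold Lz
  rw [sOf_vert]
  exact h

lemma Xi_vert_ne_zero (hχ : χ.IsPrimitive) {t B : ℝ} (ht : 0 < t)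
    (hL : ∀ σ ∈ Icc (1 / 2 : ℝ) 2, LFunction χ (σ + t * I) ≠ 0 ∧
      ‖logDeriv (LFunction χ) (σ + t * I)‖ ≤ B) (y : ℝ) : Xi χ (t + y * I) ≠ 0 := by
  have key : ∀ y : ℝ, y ≤ 0 → Xi χ (t + y * I) ≠ 0 := by
    intro y hy
    by_cases h1 : y ≤ -(1 / 2)
    · exact Xi_ne_zero_of_im_le χ (by simpa using h1) (by simpa using ht)
    · rw [Ne, Xi_eq_zero_iff χ (by simp; linarith)]
      exact (Lz_vert χ ht hL ⟨by linarith, hy⟩).1
  rcases le_total y 0 with hy | hy
  · exact key y hy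
  · have h1 := key (-y) (by linarith)
    rw [Ne, ← Xi_conj_eq_zero_iff χ hχ (by simpa using ht)] at h1
    simpa using h1

lemma half_Lz {w : ℂ → ℂ} {W : ℝ → ℂ}
    (hi : Integrable (fun t : ℝ => w (t + (-(3 / 2) : ℝ) * I)))
    (hW : ∀ u : ℝ, ∫ t : ℝ, gu w u (t + (-(3 / 2) : ℝ) * I) = W u)
    {a b τ B ω : ℝ} (ha : 0 < a) (hab : a < b)
    (hτ : ∫ t in (Icc a b)ᶜ, ‖w (t + (-(3 / 2) : ℝ) * I)‖ ≤ τ)
    (hL : ∀ t : ℝ, t = a ∨ t = b → ∀ σ ∈ Icc (1 / 2 : ℝ) 2, LFunction χ (σ + t * I) ≠ 0 ∧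
      ‖logDeriv (LFunction χ) (σ + t * I)‖ ≤ B)
    (hω : ∀ t : ℝ, t = a ∨ t = b → ∀ y ∈ Icc (-(3 / 2) : ℝ) 0, ‖w (t + y * I)‖ ≤ ω) (u : ℝ) :
    ‖Half (fun z => logDeriv (Lz χ) z * gu w u z) a b (-(3 / 2)) + I * Psum χ W u‖
      ≤ (3 * B * ω + Btwo χ * τ) * Real.exp (3 * π * |u|) := by
  have hvert : ∀ t : ℝ, t = a ∨ t = b →
      ‖∫ y in (-(3 / 2) : ℝ)..0, logDeriv (Lz χ) (t + y * I) * gu w u (t + y * I)‖
        ≤ B * ω * Real.exp (3 * π * |u|) * (3 / 2) := by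
    intro t ht
    have ht0 : 0 < t := by rcases ht with rfl | rfl <;> linarith
    have h1 := intervalIntegral.norm_integral_le_of_norm_le_const (a := (-(3 / 2) : ℝ)) (b := 0)
      (C := B * ω * Real.exp (3 * π * |u|))
      (f := fun y : ℝ => logDeriv (Lz χ) (t + y * I) * gu w u (t + y * I)) ?_
    · have h2 : |(0 : ℝ) - -(3 / 2)| = 3 / 2 := by norm_num [abs_of_pos]
      rwa [h2] at h1
    · intro y hy
      rw [uIoc_of_le (by norm_num)] at hy
      have hy' : y ∈ Icc (-(3 / 2) : ℝ) 0 := Ioc_subset_Icc_self hy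
      have h2 := (Lz_vert χ ht0 (hL t ht) hy').2
      have h3 := hω t ht y hy'
      have h4 := norm_exp_uz_le u (t + y * I) (r := 3 / 2) (by
        simp; rw [abs_le]; constructor <;> linarith [hy'.1, hy'.2])
      have h5 : 2 * π * |u| * (3 / 2) = 3 * π * |u| := by ring
      rw [h5] at h4
      unfold gu
      rw [norm_mul, norm_mul]
      have hB : 0 ≤ B := (norm_nonneg _).trans h2
      have hω0 : 0 ≤ ω := (norm_nonneg _).trans h3
      calc _ ≤ B * (ω * Real.exp (3 * π * |u|)) := by gcongr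
        _ = _ := by ring
  have hhor : (∫ x in a..b, logDeriv (Lz χ) (x + (-(3 / 2) : ℝ) * I)
        * gu w u (x + (-(3 / 2) : ℝ) * I))
      = -I * ∫ t in a..b, LSeries (chiL χ) (sOf (t + (-(3 / 2) : ℝ) * I))
        * gu w u (t + (-(3 / 2) : ℝ) * I) := by
    rw [← intervalIntegral.integral_const_mul]
    apply intervalIntegral.integral_congr
    intro x hx
    rw [uIcc_of_le hab.le] at hx
    simp only
    rw [logDeriv_Lz χ (by simp; linarith [hx.1]), logDeriv_LFunction_eq χ (by simp; norm_num)]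
    ring
  have hseg := segment_integral χ hi hW u hab.le hτ
  unfold Half
  rw [hhor]
  set X := ∫ t in a..b, LSeries (chiL χ) (sOf (t + (-(3 / 2) : ℝ) * I))
        * gu w u (t + (-(3 / 2) : ℝ) * I)
  set V₁ := ∫ y in (-(3 / 2) : ℝ)..0, logDeriv (Lz χ) (b + y * I) * gu w u (b + y * I)
  set V₂ := ∫ y in (-(3 / 2) : ℝ)..0, logDeriv (Lz χ) (a + y * I) * gu w u (a + y * I)
  have h1 : -I * X + I * V₁ - I * V₂ + I * Psum χ W u = I * (V₁ - V₂ - (X - Psum χ W u)) := by ring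
  rw [h1, norm_mul, norm_I, one_mul]
  have h2 := hvert a (Or.inl rfl)
  have h3 := hvert b (Or.inr rfl)
  calc _ ≤ ‖V₁‖ + ‖V₂‖ + ‖X - Psum χ W u‖ :=
        (norm_sub_le _ _).trans (by gcongr; exact norm_sub_le _ _)
    _ ≤ _ := by nlinarith

lemma half_Gz {w : ℂ → ℂ} (hw : Differentiable ℂ w) {a b : ℝ} (hab : a < b) (u : ℝ) :
    Half (fun z => logDeriv (Gz χ) z * gu w u z) a b (-(3 / 2)) = I * Gam χ w a b u := by
  rw [Half_eq_of_differentiableOn hab.le (by norm_num)]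
  · unfold Gam
    rw [← intervalIntegral.integral_const_mul]
    congr 1
    funext x
    rw [logDeriv_Gz χ (by simp)]
    have : sOf x = 1 / 2 + x * I := by unfold sOf; ring
    rw [this]; ring
  · intro z hz
    have hz' : z.im < 1 / 2 := by
      have := hz.2.2
      linarith
    exact ((differentiableAt_logDeriv (analyticOnNhd_Gz χ z hz') (Gz_ne_zero χ hz')).mul
      (differentiable_gu hw u z)).differentiableWithinAt

lemma intervalIntegrable_of_continuousAt {f : ℂ → ℂ} {p : ℝ → ℂ} (hp : Continuous p) {a b : ℝ}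
    (hab : a ≤ b) (h : ∀ x ∈ Icc a b, ContinuousAt f (p x)) :
    IntervalIntegrable (fun x => f (p x)) volume a b := by
  apply ContinuousOn.intervalIntegrable
  rw [uIcc_of_le hab]
  intro x hx
  exact ((h x hx).comp hp.continuousAt).continuousWithinAt

lemma half_Xi {w : ℂ → ℂ} {W : ℝ → ℂ} (hw : Differentiable ℂ w)
    (hi : Integrable (fun t : ℝ => w (t + (-(3 / 2) : ℝ) * I)))
    (hW : ∀ u : ℝ, ∫ t : ℝ, gu w u (t + (-(3 / 2) : ℝ) * I) = W u)
    {a b τ B ω : ℝ} (ha : 0 < a) (hab : a < b)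
    (hτ : ∫ t in (Icc a b)ᶜ, ‖w (t + (-(3 / 2) : ℝ) * I)‖ ≤ τ)
    (hL : ∀ t : ℝ, t = a ∨ t = b → ∀ σ ∈ Icc (1 / 2 : ℝ) 2, LFunction χ (σ + t * I) ≠ 0 ∧
      ‖logDeriv (LFunction χ) (σ + t * I)‖ ≤ B)
    (hω : ∀ t : ℝ, t = a ∨ t = b → ∀ y ∈ Icc (-(3 / 2) : ℝ) 0, ‖w (t + y * I)‖ ≤ ω) (u : ℝ) :
    ‖Half (fun z => logDeriv (Xi χ) z * gu w u z) a b (-(3 / 2))
        - I * (Gam χ w a b u - Psum χ W u)‖
      ≤ (3 * B * ω + Btwo χ * τ) * Real.exp (3 * π * |u|) := by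
  have hb : 0 < b := ha.trans hab
  have hg := (differentiable_gu hw u).continuous
  have hLh : ∀ x ∈ Icc a b, Lz χ (x + (-(3 / 2) : ℝ) * I) ≠ 0 := fun x hx =>
    Lz_ne_zero χ (by simp; norm_num) (by simp; linarith [hx.1])
  have hLa : ∀ y ∈ Icc (-(3 / 2) : ℝ) 0, Lz χ (a + y * I) ≠ 0 := fun y hy =>
    (Lz_vert χ ha (hL a (Or.inl rfl)) hy).1
  have hLb : ∀ y ∈ Icc (-(3 / 2) : ℝ) 0, Lz χ (b + y * I) ≠ 0 := fun y hy =>
    (Lz_vert χ hb (hL b (Or.inr rfl)) hy).1
  have cG : ∀ z : ℂ, z.im < 1 / 2 → ContinuousAt (fun z => logDeriv (Gz χ) z * gu w u z) z :=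
    fun z hz => (continuousAt_logDeriv (analyticOnNhd_Gz χ z hz) (Gz_ne_zero χ hz)).mul
      hg.continuousAt
  have cL : ∀ z : ℂ, 0 < z.re → Lz χ z ≠ 0 →
      ContinuousAt (fun z => logDeriv (Lz χ) z * gu w u z) z :=
    fun z hz h => (continuousAt_logDeriv (analyticOnNhd_Lz χ z hz) h).mul hg.continuousAt
  have h1 : Half (fun z => logDeriv (Xi χ) z * gu w u z) a b (-(3 / 2))
      = Half (fun z => logDeriv (Gz χ) z * gu w u z + logDeriv (Lz χ) z * gu w u z) a b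
        (-(3 / 2)) := by
    apply Half_congr hab.le (by norm_num)
    · intro x hx
      rw [logDeriv_Xi_eq χ (by simp; norm_num) (by simp; linarith [hx.1]) (hLh x hx)]; ring
    · intro y hy
      rw [logDeriv_Xi_eq χ (by simp; linarith [hy.2]) (by simpa using hb) (hLb y hy)]; ring
    · intro y hy
      rw [logDeriv_Xi_eq χ (by simp; linarith [hy.2]) (by simpa using ha) (hLa y hy)]; ring
  rw [h1, Half_add (φ := fun z => logDeriv (Gz χ) z * gu w u z)
    (ψ := fun z => logDeriv (Lz χ) z * gu w u z), half_Gz χ hw hab]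
  · have h2 := half_Lz χ hi hW ha hab hτ hL hω u
    convert h2 using 2
    ring
  · exact intervalIntegrable_of_continuousAt (p := fun x : ℝ => x + (-(3 / 2) : ℝ) * I)
      (by fun_prop) hab.le (fun x _ => cG _ (by simp; norm_num))
  · exact intervalIntegrable_of_continuousAt (p := fun x : ℝ => x + (-(3 / 2) : ℝ) * I)
      (by fun_prop) hab.le (fun x hx => cL _ (by simp; linarith [hx.1]) (hLh x hx))
  · exact intervalIntegrable_of_continuousAt (p := fun y : ℝ => b + y * I)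
      (by fun_prop) (by norm_num) (fun y hy => cG _ (by simp; linarith [hy.2]))
  · exact intervalIntegrable_of_continuousAt (p := fun y : ℝ => b + y * I)
      (by fun_prop) (by norm_num) (fun y hy => cL _ (by simpa using hb) (hLb y hy))
  · exact intervalIntegrable_of_continuousAt (p := fun y : ℝ => a + y * I)
      (by fun_prop) (by norm_num) (fun y hy => cG _ (by simp; linarith [hy.2]))
  · exact intervalIntegrable_of_continuousAt (p := fun y : ℝ => a + y * I)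
      (by fun_prop) (by norm_num) (fun y hy => cL _ (by simpa using ha) (hLa y hy))

theorem explicit_formula (hrect : StmtRect) (hχ : χ.IsPrimitive) {w : ℂ → ℂ} {W : ℝ → ℂ}
    (hw : Differentiable ℂ w) (hwc : ∀ z, w (conj z) = conj (w z))
    (hi : Integrable (fun t : ℝ => w (t + (-(3 / 2) : ℝ) * I)))
    (hW : ∀ u : ℝ, ∫ t : ℝ, gu w u (t + (-(3 / 2) : ℝ) * I) = W u)
    {a b τ B ω : ℝ} (ha : 0 < a) (hab : a < b)
    (hτ : ∫ t in (Icc a b)ᶜ, ‖w (t + (-(3 / 2) : ℝ) * I)‖ ≤ τ)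
    (hL : ∀ t : ℝ, t = a ∨ t = b → ∀ σ ∈ Icc (1 / 2 : ℝ) 2, LFunction χ (σ + t * I) ≠ 0 ∧
      ‖logDeriv (LFunction χ) (σ + t * I)‖ ≤ B)
    (hω : ∀ t : ℝ, t = a ∨ t = b → ∀ y ∈ Icc (-(3 / 2) : ℝ) 0, ‖w (t + y * I)‖ ≤ ω)
    (Z : Finset ℂ)
    (hZ : ∀ z, z ∈ Z ↔ z ∈ Icc a b ×ℂ Icc (-(3 / 2) : ℝ) (3 / 2) ∧ Xi χ z = 0) (u : ℝ) :
    ‖2 * π * (∑ ρ ∈ Z, ((analyticOrderAt (Xi χ) ρ).toNat : ℂ) * gu w u ρ)
        - (Gam χ w a b u + conj (Gam χ w a b (-u)) - Psum χ W u - conj (Psum χ W (-u)))‖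
      ≤ 2 * (3 * B * ω + Btwo χ * τ) * Real.exp (3 * π * |u|) := by
  have hb : 0 < b := ha.trans hab
  have hXa := Xi_vert_ne_zero χ hχ ha (hL a (Or.inl rfl))
  have hXb := Xi_vert_ne_zero χ hχ hb (hL b (Or.inr rfl))
  have hR := hrect (Xi χ) (gu w u) a b (-(3 / 2)) (3 / 2) Z hab (by norm_num)
    ((analyticOnNhd_Xi χ).mono (fun z hz => ha.trans_le hz.1.1)) (differentiable_gu hw u) hZ ?_
  · have hcont : ∀ t : ℝ, 0 < t → (∀ y : ℝ, Xi χ (t + y * I) ≠ 0) →
        ContinuousOn (fun y : ℝ => logDeriv (Xi χ) (t + y * I) * gu w u (t + y * I))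
          (Icc (-(3 / 2) : ℝ) (-(-(3 / 2)))) := by
      intro t ht hX y _
      have h1 : ContinuousAt (fun z => logDeriv (Xi χ) z * gu w u z) (t + y * I) :=
        (continuousAt_logDeriv (analyticOnNhd_Xi χ _ (by simpa using ht)) (hX y)).mul
          (differentiable_gu hw u).continuous.continuousAt
      exact (ContinuousAt.comp (f := fun y : ℝ => (t : ℂ) + y * I) h1
        (by fun_prop)).continuousWithinAt
    have hT := total_eq_half (φ := fun z => logDeriv (Xi χ) z * gu w u z)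
      (φ' := fun z => logDeriv (Xi χ) z * gu w (-u) z) (a := a) (b := b) (c := -(3 / 2)) hab.le
      (by norm_num) (fun z hz => by
        rw [logDeriv_Xi_conj χ hχ (ha.trans_le hz), gu_conj hwc, map_mul])
      (hcont a ha hXa) (hcont b hb hXb)
    simp only [neg_neg] at hT
    rw [hR] at hT
    have h1 := half_Xi χ hw hi hW ha hab hτ hL hω u
    have h2 := half_Xi χ hw hi hW ha hab hτ hL hω (-u)
    rw [abs_neg] at h2
    set H₁ := Half (fun z => logDeriv (Xi χ) z * gu w u z) a b (-(3 / 2))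
    set H₂ := Half (fun z => logDeriv (Xi χ) z * gu w (-u) z) a b (-(3 / 2))
    set S := ∑ ρ ∈ Z, ((analyticOrderAt (Xi χ) ρ).toNat : ℂ) * gu w u ρ
    have h3 : I * (2 * π * S - (Gam χ w a b u + conj (Gam χ w a b (-u)) - Psum χ W u
          - conj (Psum χ W (-u))))
        = (H₁ - I * (Gam χ w a b u - Psum χ W u))
          - conj (H₂ - I * (Gam χ w a b (-u) - Psum χ W (-u))) := by
      simp only [map_sub, map_mul, conj_I]
      linear_combination hT
    have h4 := congrArg norm h3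
    rw [norm_mul, norm_I, one_mul] at h4
    rw [h4]
    refine (norm_sub_le _ _).trans ?_
    rw [RCLike.norm_conj]
    linarith
  · intro z hz
    obtain ⟨⟨h1, h2⟩, h3⟩ := (hZ z).1 hz
    have h4 := abs_im_lt_of_Xi_eq_zero χ hχ (ha.trans_le h1.1) h3
    rw [abs_lt] at h4
    refine ⟨⟨lt_of_le_of_ne h1.1 ?_, lt_of_le_of_ne h1.2 ?_⟩, by simp; constructor <;> linarith⟩
    · intro h
      apply hXa z.im
      rw [h, re_add_im]; exact h3
    · intro h
      apply hXb z.im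
      rw [← h, re_add_im]; exact h3

end Pool.Agent.MP_f259ea_nt

end

section

/-!
Mean value of sums of disjointly supported translates.
-/

set_option autoImplicit false

open Complex MeasureTheory Set Filter Topology DirichletCharacter
open scoped Real ComplexConjugate

namespace Pool.Agent.MP_f259ea_nt

lemma norm_sum_sq_le_of_disjoint {ι : Type*} (s : Finset ι) (f : ι → ℂ)
    (h : ∀ i ∈ s, ∀ j ∈ s, i ≠ j → f i = 0 ∨ f j = 0) :
    ‖∑ i ∈ s, f i‖ ^ 2 ≤ ∑ i ∈ s, ‖f i‖ ^ 2 := by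
  by_cases h0 : ∀ i ∈ s, f i = 0
  · rw [Finset.sum_eq_zero h0]
    simpa using Finset.sum_nonneg fun i _ => by positivity
  · push Not at h0
    obtain ⟨i, hi, hfi⟩ := h0
    rw [Finset.sum_eq_single_of_mem i hi (fun j hj hji => (h j hj i hi hji).resolve_right hfi)]
    exact Finset.single_le_sum (f := fun i => ‖f i‖ ^ 2) (fun _ _ => by positivity) hi

lemma integrable_norm_sq_of_support {W : ℝ → ℂ} {δ : ℝ} (hW : Continuous W)
    (hsupp : ∀ u, δ ≤ |u| → W u = 0) : Integrable (fun u => ‖W u‖ ^ 2) := by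
  refine Continuous.integrable_of_hasCompactSupport (by fun_prop) ?_
  refine HasCompactSupport.intro (isCompact_Icc (a := -δ) (b := δ)) (fun u hu => ?_)
  have : δ ≤ |u| := by
    by_contra h
    exact hu (abs_le.1 (not_le.1 h).le)
  simp [hsupp u this]

lemma integral_translate_le {W : ℝ → ℂ} {δ D ℓ : ℝ} (hW : Continuous W)
    (hsupp : ∀ u, δ ≤ |u| → W u = 0) (hD : ∫ u, ‖W u‖ ^ 2 ≤ D) (hℓ : 0 < ℓ) (c : ℝ) :
    ∫ a in (-1 : ℝ)..1, ‖W (a * ℓ - c)‖ ^ 2 ≤ D / ℓ := by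
  have h1 := intervalIntegral.integral_comp_mul_sub (a := -1) (b := 1) (fun u => ‖W u‖ ^ 2)
    hℓ.ne' c
  simp only [mul_comm ℓ] at h1
  rw [h1, smul_eq_mul, div_eq_inv_mul]
  gcongr
  refine le_trans ?_ hD
  rw [intervalIntegral.integral_of_le (by linarith)]
  exact setIntegral_le_integral (integrable_norm_sq_of_support hW hsupp)
    (Eventually.of_forall fun _ => by positivity)

lemma mean_value_translates {ι : Type*} (s : Finset ι) (c : ι → ℝ) (α : ι → ℂ) (Ki : ι → ℝ)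
    {K : ℝ → ℝ} {W : ℝ → ℂ} {δ D ℓ : ℝ} (hK : ContinuousOn K (Icc (-1) 1))
    (hK0 : ∀ a ∈ Icc (-1 : ℝ) 1, 0 ≤ K a) (hW : Continuous W)
    (hsupp : ∀ u, δ ≤ |u| → W u = 0) (hD : ∫ u, ‖W u‖ ^ 2 ≤ D) (hℓ : 0 < ℓ)
    (hsep : ∀ i ∈ s, ∀ j ∈ s, i ≠ j → 2 * δ ≤ |c i - c j|)
    (hKi0 : ∀ i ∈ s, 0 ≤ Ki i)
    (hKi : ∀ i ∈ s, ∀ a ∈ Icc (-1 : ℝ) 1, |a * ℓ - c i| < δ → K a ≤ Ki i) :
    ∫ a in (-1 : ℝ)..1, K a * ‖∑ i ∈ s, α i * W (a * ℓ - c i)‖ ^ 2
      ≤ D / ℓ * ∑ i ∈ s, ‖α i‖ ^ 2 * Ki i := by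
  have hc : ∀ i, Continuous fun a : ℝ => ‖W (a * ℓ - c i)‖ ^ 2 := fun i => by fun_prop
  calc _ ≤ ∫ a in (-1 : ℝ)..1, ∑ i ∈ s, ‖α i‖ ^ 2 * Ki i * ‖W (a * ℓ - c i)‖ ^ 2 := by
        apply intervalIntegral.integral_mono_on (by norm_num)
        · apply ContinuousOn.intervalIntegrable
          rw [uIcc_of_le (by norm_num)]
          exact hK.mul (Continuous.continuousOn (by fun_prop))
        · exact Continuous.intervalIntegrable (by fun_prop) _ _
        · intro a ha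
          have h1 := norm_sum_sq_le_of_disjoint s (fun i => α i * W (a * ℓ - c i)) (by
            intro i hi j hj hij
            have h2 := hsep i hi j hj hij
            by_cases h3 : δ ≤ |a * ℓ - c i|
            · left; simp [hsupp _ h3]
            · right
              have h4 : δ ≤ |a * ℓ - c j| := by
                have h5 : |c i - c j| ≤ |a * ℓ - c i| + |a * ℓ - c j| := by
                  have := abs_sub_le (c i) (a * ℓ) (c j)
                  rwa [abs_sub_comm (c i) (a * ℓ)] at this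
                linarith [not_le.1 h3]
              simp [hsupp _ h4])
          calc _ ≤ K a * ∑ i ∈ s, ‖α i * W (a * ℓ - c i)‖ ^ 2 := by
                have := hK0 a ha
                gcongr
            _ ≤ _ := by
                rw [Finset.mul_sum]
                refine Finset.sum_le_sum fun i hi => ?_
                by_cases h3 : δ ≤ |a * ℓ - c i|
                · simp [hsupp _ h3]
                · have h4 := hKi i hi a ha (not_le.1 h3)
                  rw [norm_mul, mul_pow]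
                  have : K a * (‖α i‖ ^ 2 * ‖W (a * ℓ - c i)‖ ^ 2)
                      ≤ Ki i * (‖α i‖ ^ 2 * ‖W (a * ℓ - c i)‖ ^ 2) := by gcongr
                  linarith
    _ = ∑ i ∈ s, ‖α i‖ ^ 2 * Ki i * ∫ a in (-1 : ℝ)..1, ‖W (a * ℓ - c i)‖ ^ 2 := by
        rw [intervalIntegral.integral_finsetSum
          (fun i _ => Continuous.intervalIntegrable (by fun_prop) _ _)]
        simp_rw [intervalIntegral.integral_const_mul]
    _ ≤ _ := by
        rw [Finset.mul_sum]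
        refine Finset.sum_le_sum fun i hi => ?_
        have h1 := integral_translate_le hW hsupp hD hℓ (c i)
        have h2 := hKi0 i hi
        calc _ ≤ ‖α i‖ ^ 2 * Ki i * (D / ℓ) := by gcongr
          _ = _ := by ring

lemma norm_add_sq_le (x y : ℂ) {ε : ℝ} (hε : 0 < ε) :
    ‖x + y‖ ^ 2 ≤ (1 + ε) * ‖x‖ ^ 2 + (1 + 1 / ε) * ‖y‖ ^ 2 := by
  have h1 : ‖x + y‖ ^ 2 ≤ (‖x‖ + ‖y‖) ^ 2 := by
    have := norm_add_le x y
    gcongr
  have h2 : 2 * ‖x‖ * ‖y‖ ≤ ε * ‖x‖ ^ 2 + 1 / ε * ‖y‖ ^ 2 := by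
    have h3 : 0 ≤ (ε * ‖x‖ - ‖y‖) ^ 2 / ε := by positivity
    have h4 : (ε * ‖x‖ - ‖y‖) ^ 2 / ε = ε * ‖x‖ ^ 2 + 1 / ε * ‖y‖ ^ 2 - 2 * ‖x‖ * ‖y‖ := by
      field_simp; ring
    linarith
  nlinarith

/-- `L^2` perturbation: `μ = S + E₁ + E₂ + O(θ)`. -/
lemma perturb {K : ℝ → ℝ} {μ S E₁ E₂ : ℝ → ℂ} {Km θ ε Q : ℝ} (hK : ContinuousOn K (Icc (-1) 1))
    (hK0 : ∀ a ∈ Icc (-1 : ℝ) 1, 0 ≤ K a) (hKm : ∀ a ∈ Icc (-1 : ℝ) 1, K a ≤ Km)
    (hμ : Continuous μ) (hS : ContinuousOn S (Icc (-1) 1)) (hE₁ : Continuous E₁)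
    (hE₂ : Continuous E₂) (hε : 0 < ε)
    (hθ : ∀ a ∈ Icc (-1 : ℝ) 1, ‖μ a - S a - E₁ a - E₂ a‖ ≤ θ)
    (h₁ : ∫ a in (-1 : ℝ)..1, ‖E₁ a‖ ^ 2 ≤ Q) (h₂ : ∫ a in (-1 : ℝ)..1, ‖E₂ a‖ ^ 2 ≤ Q) :
    ∫ a in (-1 : ℝ)..1, K a * ‖μ a‖ ^ 2
      ≤ (1 + ε) * (∫ a in (-1 : ℝ)..1, K a * ‖S a‖ ^ 2)
        + (1 + 1 / ε) * Km * (6 * Q + 6 * θ ^ 2) := by
  have hKm0 : 0 ≤ Km := (hK0 0 (by simp)).trans (hKm 0 (by simp))
  have i1 : IntervalIntegrable (fun a => K a * ‖S a‖ ^ 2) volume (-1) 1 := by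
    apply ContinuousOn.intervalIntegrable
    rw [uIcc_of_le (by norm_num)]
    exact hK.mul (hS.norm.pow 2)
  have i2 : IntervalIntegrable (fun a => ‖E₁ a‖ ^ 2) volume (-1) 1 :=
    Continuous.intervalIntegrable (by fun_prop) _ _
  have i3 : IntervalIntegrable (fun a => ‖E₂ a‖ ^ 2) volume (-1) 1 :=
    Continuous.intervalIntegrable (by fun_prop) _ _
  calc _ ≤ ∫ a in (-1 : ℝ)..1, ((1 + ε) * (K a * ‖S a‖ ^ 2)
          + (1 + 1 / ε) * Km * (3 * ‖E₁ a‖ ^ 2 + 3 * ‖E₂ a‖ ^ 2 + 3 * θ ^ 2)) := by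
        apply intervalIntegral.integral_mono_on (by norm_num)
        · apply ContinuousOn.intervalIntegrable
          rw [uIcc_of_le (by norm_num)]
          exact hK.mul (Continuous.continuousOn (by fun_prop))
        · exact (i1.const_mul _).add (Continuous.intervalIntegrable (by fun_prop) _ _)
        · intro a ha
          have h3 := norm_add_sq_le (S a) (μ a - S a) hε
          rw [add_sub_cancel] at h3
          have h4 : ‖μ a - S a‖ ≤ ‖E₁ a‖ + ‖E₂ a‖ + θ := by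
            have h5 : μ a - S a = E₁ a + E₂ a + (μ a - S a - E₁ a - E₂ a) := by ring
            rw [h5]
            refine (norm_add_le _ _).trans ?_
            have := norm_add_le (E₁ a) (E₂ a)
            have := hθ a ha
            linarith
          have h6 : ‖μ a - S a‖ ^ 2 ≤ 3 * ‖E₁ a‖ ^ 2 + 3 * ‖E₂ a‖ ^ 2 + 3 * θ ^ 2 := by
            have h7 : ‖μ a - S a‖ ^ 2 ≤ (‖E₁ a‖ + ‖E₂ a‖ + θ) ^ 2 := by gcongr
            nlinarith [sq_nonneg (‖E₁ a‖ - ‖E₂ a‖), sq_nonneg (‖E₁ a‖ - θ), sq_nonneg (‖E₂ a‖ - θ)]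
          have h8 := hK0 a ha
          have h9 := hKm a ha
          calc K a * ‖μ a‖ ^ 2
              ≤ K a * ((1 + ε) * ‖S a‖ ^ 2 + (1 + 1 / ε) * ‖μ a - S a‖ ^ 2) := by gcongr
            _ = (1 + ε) * (K a * ‖S a‖ ^ 2) + (1 + 1 / ε) * K a * ‖μ a - S a‖ ^ 2 := by ring
            _ ≤ _ := by gcongr
    _ = (1 + ε) * (∫ a in (-1 : ℝ)..1, K a * ‖S a‖ ^ 2)
          + (1 + 1 / ε) * Km * (3 * (∫ a in (-1 : ℝ)..1, ‖E₁ a‖ ^ 2)
            + 3 * (∫ a in (-1 : ℝ)..1, ‖E₂ a‖ ^ 2) + 6 * θ ^ 2) := by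
        rw [intervalIntegral.integral_add (i1.const_mul _)
          (Continuous.intervalIntegrable (by fun_prop) _ _), intervalIntegral.integral_const_mul,
          intervalIntegral.integral_const_mul,
          intervalIntegral.integral_add ((i2.const_mul _).add (i3.const_mul _))
            intervalIntegrable_const,
          intervalIntegral.integral_add (i2.const_mul _) (i3.const_mul _),
          intervalIntegral.integral_const_mul, intervalIntegral.integral_const_mul,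
          intervalIntegral.integral_const]
        simp only [smul_eq_mul]
        ring
    _ ≤ _ := by
        have : 3 * (∫ a in (-1 : ℝ)..1, ‖E₁ a‖ ^ 2) + 3 * (∫ a in (-1 : ℝ)..1, ‖E₂ a‖ ^ 2)
          + 6 * θ ^ 2 ≤ 6 * Q + 6 * θ ^ 2 := by linarith
        gcongr

variable {N : ℕ} (χ : DirichletCharacter ℂ N)

lemma un_mono {m n : ℕ} (hm : 0 < m) (h : m ≤ n) : un m ≤ un n := by
  unfold un
  have := Real.pi_pos
  gcongr

lemma un_nonneg (n : ℕ) : 0 ≤ un n := by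
  unfold un
  have := Real.pi_pos
  have := Real.log_natCast_nonneg n
  positivity

lemma un_sep {m n X : ℕ} (hm : 0 < m) (h : m < n) (hn : n ≤ X) :
    1 / (2 * π * X) ≤ un n - un m := by
  have hm' : (0 : ℝ) < m := by exact_mod_cast hm
  have hmn : (m : ℝ) + 1 ≤ n := by exact_mod_cast h
  have hX : (n : ℝ) ≤ X := by exact_mod_cast hn
  have hn' : (0 : ℝ) < n := by linarith
  have h1 : Real.log (m / n) ≤ m / n - 1 := Real.log_le_sub_one_of_pos (by positivity)
  rw [Real.log_div hm'.ne' hn'.ne'] at h1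
  have h2 : 1 / (X : ℝ) ≤ 1 - m / n := by
    calc 1 / (X : ℝ) ≤ 1 / n := by gcongr
      _ ≤ (n - m) / n := by gcongr; linarith
      _ = 1 - m / n := by field_simp
  unfold un
  have := Real.pi_pos
  rw [← sub_div, le_div_iff₀ (by positivity)]
  have h3 : 1 / (2 * π * X) * (2 * π) = 1 / (X : ℝ) := by
    have : (0 : ℝ) < X := by linarith
    field_simp
  linarith

lemma coef_zero : coef χ 0 = 0 := by simp [coef]

lemma coef_one : coef χ 1 = 0 := by simp [coef]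

lemma norm_coef_sq_le (n : ℕ) : ‖coef χ n‖ ^ 2 ≤ ArithmeticFunction.vonMangoldt n ^ 2 / n := by
  unfold coef
  rw [norm_div, norm_mul, div_pow, mul_pow, norm_real, norm_real, Real.norm_eq_abs,
    Real.norm_eq_abs, sq_abs, sq_abs, Real.sq_sqrt (by positivity)]
  gcongr
  have h1 := χ.norm_le_one (n : ZMod N)
  have h2 : ‖χ (n : ZMod N)‖ ^ 2 ≤ 1 := by
    have := norm_nonneg (χ (n : ZMod N))
    nlinarith
  nlinarith [sq_nonneg (ArithmeticFunction.vonMangoldt n)]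

lemma Psum_eq_sum {W : ℝ → ℂ} {δ ℓ : ℝ} (hsupp : ∀ u, δ ≤ |u| → W u = 0) {X : ℕ}
    (hX : ∀ n : ℕ, X < n → ℓ + δ ≤ un n) {u : ℝ} (hu : u ≤ ℓ) :
    Psum χ W u = ∑ n ∈ Finset.Icc 2 X, coef χ n * W (u - un n) := by
  unfold Psum
  apply tsum_eq_sum
  intro n hn
  rw [Finset.mem_Icc, not_and_or, not_le, not_le] at hn
  rcases hn with hn | hn
  · interval_cases n
    · simp [coef_zero]
    · simp [coef_one]
  · have h1 := hX n hn
    rw [hsupp, mul_zero]
    rw [abs_sub_comm]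
    exact le_trans (by linarith) (le_abs_self _)

/-- Centres of the translates. -/
noncomputable def cen : ℕ ⊕ ℕ → ℝ := Sum.elim un (fun n => -un n)

/-- Coefficients of the translates. -/
noncomputable def alp (L : ℝ) : ℕ ⊕ ℕ → ℂ :=
  Sum.elim (fun n => if n = 0 then (L : ℂ) else -coef χ n) (fun n => -conj (coef χ n))

lemma un_zero : un 0 = 0 := by simp [un]

lemma main_eq_sum {W : ℝ → ℂ} {δ ℓ : ℝ} (hsupp : ∀ u, δ ≤ |u| → W u = 0)
    (hWc : ∀ u, W (-u) = conj (W u)) {X : ℕ}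
    (hX : ∀ n : ℕ, X < n → ℓ + δ ≤ un n) (L : ℝ) {u : ℝ} (hu : |u| ≤ ℓ) :
    L * W u - Psum χ W u - conj (Psum χ W (-u))
      = ∑ i ∈ (insert 0 (Finset.Icc 2 X)).disjSum (Finset.Icc 2 X),
          alp χ L i * W (u - cen i) := by
  rw [abs_le] at hu
  rw [Psum_eq_sum χ hsupp hX hu.2, Psum_eq_sum χ hsupp hX (u := -u) (by linarith),
    Finset.sum_disjSum, Finset.sum_insert (by simp), map_sum]
  simp only [alp, cen, Sum.elim_inl, Sum.elim_inr, un_zero, sub_zero, if_true, sub_neg_eq_add]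
  have h1 : ∑ n ∈ Finset.Icc 2 X, (if n = 0 then (L : ℂ) else -coef χ n) * W (u - un n)
      = -∑ n ∈ Finset.Icc 2 X, coef χ n * W (u - un n) := by
    rw [← Finset.sum_neg_distrib]
    refine Finset.sum_congr rfl fun n hn => ?_
    have : n ≠ 0 := by rw [Finset.mem_Icc] at hn; omega
    rw [if_neg this]; ring
  have h2 : ∑ n ∈ Finset.Icc 2 X, -conj (coef χ n) * W (u + un n)
      = -∑ n ∈ Finset.Icc 2 X, conj (coef χ n * W (-u - un n)) := by
    rw [← Finset.sum_neg_distrib]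
    refine Finset.sum_congr rfl fun n _ => ?_
    have : -u - un n = -(u + un n) := by ring
    rw [this, hWc, map_mul, conj_conj]; ring
  rw [h1, h2]; ring

lemma cen_sep {δ : ℝ} {X : ℕ} (h1 : 2 * δ ≤ 1 / (2 * π * X)) (h2 : 2 * δ ≤ un 2) :
    ∀ i ∈ (insert 0 (Finset.Icc 2 X)).disjSum (Finset.Icc 2 X),
      ∀ j ∈ (insert 0 (Finset.Icc 2 X)).disjSum (Finset.Icc 2 X), i ≠ j →
        2 * δ ≤ |cen i - cen j| := by
  have key : ∀ m n : ℕ, m ∈ insert 0 (Finset.Icc 2 X) → n ∈ insert 0 (Finset.Icc 2 X) → m < n →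
      2 * δ ≤ un n - un m := by
    intro m n hm hn hmn
    simp only [Finset.mem_insert, Finset.mem_Icc] at hm hn
    rcases hm with rfl | hm
    · have := un_mono (m := 2) (n := n) (by norm_num) (by omega)
      rw [un_zero]; linarith
    · exact h1.trans (un_sep (by omega) hmn (by omega))
  have key2 : ∀ m n : ℕ, m ∈ insert 0 (Finset.Icc 2 X) → n ∈ insert 0 (Finset.Icc 2 X) → m ≠ n →
      2 * δ ≤ |un m - un n| := by
    intro m n hm hn hmn
    rcases lt_or_gt_of_ne hmn with h | h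
    · rw [abs_sub_comm]; exact (key m n hm hn h).trans (le_abs_self _)
    · exact (key n m hn hm h).trans (le_abs_self _)
  have key3 : ∀ m n : ℕ, n ∈ Finset.Icc 2 X → 2 * δ ≤ un m + un n := by
    intro m n hn
    rw [Finset.mem_Icc] at hn
    have := un_mono (m := 2) (n := n) (by norm_num) hn.1
    have := un_nonneg m
    linarith
  rintro (m | m) hm (n | n) hn hmn
  · simp only [Finset.inl_mem_disjSum] at hm hn
    exact key2 m n hm hn (fun h => hmn (by rw [h]))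
  · simp only [Finset.inr_mem_disjSum] at hn
    simp only [cen, Sum.elim_inl, Sum.elim_inr, sub_neg_eq_add]
    exact (key3 m n hn).trans (le_abs_self _)
  · simp only [Finset.inr_mem_disjSum] at hm
    simp only [cen, Sum.elim_inl, Sum.elim_inr]
    rw [abs_sub_comm, sub_neg_eq_add]
    exact (key3 n m hm).trans (le_abs_self _)
  · simp only [Finset.inr_mem_disjSum] at hm hn
    simp only [cen, Sum.elim_inr]
    have := key2 n m (Finset.mem_insert_of_mem hn) (Finset.mem_insert_of_mem hm)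
      (fun h => hmn (by rw [h]))
    convert this using 2
    ring

/-- Mean value of the main term. -/
lemma mean_value_main {K Kt : ℝ → ℝ} {W : ℝ → ℂ} {δ D ℓ L ε : ℝ} {X : ℕ}
    (hK : ContinuousOn K (Icc (-1) 1))
    (hK0 : ∀ a ∈ Icc (-1 : ℝ) 1, 0 ≤ K a) (hW : Continuous W)
    (hsupp : ∀ u, δ ≤ |u| → W u = 0) (hWc : ∀ u, W (-u) = conj (W u))
    (hD : ∫ u, ‖W u‖ ^ 2 ≤ D) (hℓ : 0 < ℓ) (hε : 0 ≤ ε)
    (hX : ∀ n : ℕ, X < n → ℓ + δ ≤ un n) (h1 : 2 * δ ≤ 1 / (2 * π * X)) (h2 : 2 * δ ≤ un 2)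
    (hKt0 : ∀ a, 0 ≤ Kt a)
    (hKt : ∀ a ∈ Icc (-1 : ℝ) 1, ∀ a', |a - a'| < δ / ℓ → K a ≤ Kt a' + ε) :
    ∫ a in (-1 : ℝ)..1, K a
        * ‖L * W (a * ℓ) - Psum χ W (a * ℓ) - conj (Psum χ W (-(a * ℓ)))‖ ^ 2
      ≤ D / ℓ * (L ^ 2 * (Kt 0 + ε) + ∑ n ∈ Finset.Icc 1 X,
          ArithmeticFunction.vonMangoldt n ^ 2 / n
            * (Kt (Real.log n / (2 * π * ℓ)) + Kt (-(Real.log n / (2 * π * ℓ))) + 2 * ε)) := by
  have hD0 : 0 ≤ D := le_trans (integral_nonneg fun _ => by positivity) hD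
  have h3 := mean_value_translates ((insert 0 (Finset.Icc 2 X)).disjSum (Finset.Icc 2 X)) cen
    (alp χ L) (fun i => Kt (cen i / ℓ) + ε) hK hK0 hW hsupp hD hℓ (cen_sep h1 h2)
    (fun i _ => by have := hKt0 (cen i / ℓ); positivity) (by
      intro i _ a ha h
      apply hKt a ha
      rw [lt_div_iff₀ hℓ]
      have : a * ℓ - cen i = (a - cen i / ℓ) * ℓ := by field_simp
      rwa [this, abs_mul, abs_of_pos hℓ] at h)
  have h4 : ∫ a in (-1 : ℝ)..1, K a
        * ‖L * W (a * ℓ) - Psum χ W (a * ℓ) - conj (Psum χ W (-(a * ℓ)))‖ ^ 2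
      = ∫ a in (-1 : ℝ)..1, K a * ‖∑ i ∈ (insert 0 (Finset.Icc 2 X)).disjSum (Finset.Icc 2 X),
          alp χ L i * W (a * ℓ - cen i)‖ ^ 2 := by
    apply intervalIntegral.integral_congr
    intro a ha
    rw [uIcc_of_le (by norm_num)] at ha
    simp only
    rw [main_eq_sum χ hsupp hWc hX L]
    rw [abs_mul, abs_of_pos hℓ]
    have : |a| ≤ 1 := abs_le.2 ha
    nlinarith
  rw [h4]
  refine h3.trans ?_
  gcongr
  rw [Finset.sum_disjSum, Finset.sum_insert (by simp)]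
  simp only [alp, cen, Sum.elim_inl, Sum.elim_inr, un_zero, if_true, zero_div, norm_real,
    Real.norm_eq_abs, sq_abs]
  rw [add_assoc, ← Finset.sum_add_distrib]
  gcongr
  have hsub : Finset.Icc 2 X ⊆ Finset.Icc 1 X := Finset.Icc_subset_Icc_left (by norm_num)
  refine le_trans ?_ (Finset.sum_le_sum_of_subset_of_nonneg hsub (fun n _ _ => ?_))
  · refine Finset.sum_le_sum fun n hn => ?_
    have hn0 : n ≠ 0 := by rw [Finset.mem_Icc] at hn; omega
    rw [if_neg hn0, norm_neg, norm_neg, RCLike.norm_conj]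
    have e1 : un n / ℓ = Real.log n / (2 * π * ℓ) := by unfold un; rw [div_div]
    rw [neg_div, e1]
    have h5 := norm_coef_sq_le χ n
    have h6 := hKt0 (Real.log n / (2 * π * ℓ))
    have h7 := hKt0 (-(Real.log n / (2 * π * ℓ)))
    calc _ = ‖coef χ n‖ ^ 2 * (Kt (Real.log n / (2 * π * ℓ))
          + Kt (-(Real.log n / (2 * π * ℓ))) + 2 * ε) := by ring
      _ ≤ _ := by gcongr
  · have h6 := hKt0 (Real.log n / (2 * π * ℓ))
    have h7 := hKt0 (-(Real.log n / (2 * π * ℓ)))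
    positivity

end Pool.Agent.MP_f259ea_nt

end

section

/-!
The weighted argument principle on a rectangle.
-/

set_option autoImplicit false

open Complex MeasureTheory Set Filter Topology
open scoped Real ComplexConjugate

namespace Pool.Agent.MP_f259ea_nt

/-- The boundary integral over the rectangle `[a, b] × [c, d]`. -/
noncomputable def rI (h : ℂ → ℂ) (a b c d : ℝ) : ℂ :=
  (∫ x in a..b, h (x + c * I)) - (∫ x in a..b, h (x + d * I))
    + I * (∫ y in c..d, h (b + y * I)) - I * (∫ y in c..d, h (a + y * I))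

/-- The boundary of the rectangle. -/
def Bd (a b c d : ℝ) (z : ℂ) : Prop :=
  z ∈ Icc a b ×ℂ Icc c d ∧ (z.re = a ∨ z.re = b ∨ z.im = c ∨ z.im = d)

theorem Bd.not_mem {a b c d : ℝ} {z : ℂ} (h : Bd a b c d z) : z ∉ Ioo a b ×ℂ Ioo c d := by
  intro hz
  obtain ⟨⟨h1, h2⟩, h3, h4⟩ := hz
  rcases h.2 with h | h | h | h <;> linarith

theorem bd_bot {a b c d x : ℝ} (hab : a ≤ b) (hcd : c ≤ d) (hx : x ∈ uIcc a b) :
    Bd a b c d (x + c * I) := by
  rw [uIcc_of_le hab] at hx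
  refine ⟨⟨by simpa using hx, by simp [hcd]⟩, by simp⟩

theorem bd_top {a b c d x : ℝ} (hab : a ≤ b) (hcd : c ≤ d) (hx : x ∈ uIcc a b) :
    Bd a b c d (x + d * I) := by
  rw [uIcc_of_le hab] at hx
  refine ⟨⟨by simpa using hx, by simp [hcd]⟩, by simp⟩

theorem bd_right {a b c d y : ℝ} (hab : a ≤ b) (hcd : c ≤ d) (hy : y ∈ uIcc c d) :
    Bd a b c d (b + y * I) := by
  rw [uIcc_of_le hcd] at hy
  refine ⟨⟨by simp [hab], by simpa using hy⟩, by simp⟩

theorem bd_left {a b c d y : ℝ} (hab : a ≤ b) (hcd : c ≤ d) (hy : y ∈ uIcc c d) :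
    Bd a b c d (a + y * I) := by
  rw [uIcc_of_le hcd] at hy
  refine ⟨⟨by simp [hab], by simpa using hy⟩, by simp⟩

theorem rI_eq_zero {h : ℂ → ℂ} {a b c d : ℝ} (hab : a ≤ b) (hcd : c ≤ d)
    (hh : DifferentiableOn ℂ h (Icc a b ×ℂ Icc c d)) : rI h a b c d = 0 := by
  have := integral_boundary_rect_eq_zero_of_differentiableOn h ⟨a, c⟩ ⟨b, d⟩
    (by simpa [uIcc_of_le hab, uIcc_of_le hcd] using hh)
  simpa [rI] using this

theorem rI_congr {h h' : ℂ → ℂ} {a b c d : ℝ} (hab : a ≤ b) (hcd : c ≤ d)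
    (e : ∀ z, Bd a b c d z → h z = h' z) : rI h a b c d = rI h' a b c d := by
  simp only [rI]
  rw [intervalIntegral.integral_congr fun x hx => e _ (bd_bot hab hcd hx),
    intervalIntegral.integral_congr fun x hx => e _ (bd_top hab hcd hx),
    intervalIntegral.integral_congr fun x hx => e _ (bd_right hab hcd hx),
    intervalIntegral.integral_congr fun x hx => e _ (bd_left hab hcd hx)]

theorem rI_add {h h' : ℂ → ℂ} {a b c d : ℝ} (hab : a ≤ b) (hcd : c ≤ d)
    (e : ∀ z, Bd a b c d z → ContinuousAt h z) (e' : ∀ z, Bd a b c d z → ContinuousAt h' z) :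
    rI (fun z => h z + h' z) a b c d = rI h a b c d + rI h' a b c d := by
  have key : ∀ (k : ℂ → ℂ) (p : ℝ → ℂ) (u v : ℝ), Continuous p →
      (∀ z, Bd a b c d z → ContinuousAt k z) → (∀ x ∈ uIcc u v, Bd a b c d (p x)) →
      IntervalIntegrable (fun x => k (p x)) volume u v := fun k p u v hp hk hb =>
    ContinuousOn.intervalIntegrable fun x hx =>
      (ContinuousAt.comp (f := p) (hk _ (hb x hx)) hp.continuousAt).continuousWithinAt
  simp only [rI]
  rw [intervalIntegral.integral_add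
      (key h (fun x : ℝ => x + c * I) a b (by fun_prop) e fun x hx => bd_bot hab hcd hx)
      (key h' (fun x : ℝ => x + c * I) a b (by fun_prop) e' fun x hx => bd_bot hab hcd hx),
    intervalIntegral.integral_add
      (key h (fun x : ℝ => x + d * I) a b (by fun_prop) e fun x hx => bd_top hab hcd hx)
      (key h' (fun x : ℝ => x + d * I) a b (by fun_prop) e' fun x hx => bd_top hab hcd hx),
    intervalIntegral.integral_add
      (key h (fun y : ℝ => b + y * I) c d (by fun_prop) e fun x hx => bd_right hab hcd hx)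
      (key h' (fun y : ℝ => b + y * I) c d (by fun_prop) e' fun x hx => bd_right hab hcd hx),
    intervalIntegral.integral_add
      (key h (fun y : ℝ => a + y * I) c d (by fun_prop) e fun x hx => bd_left hab hcd hx)
      (key h' (fun y : ℝ => a + y * I) c d (by fun_prop) e' fun x hx => bd_left hab hcd hx)]
  ring

theorem rI_const_mul (k : ℂ) (h : ℂ → ℂ) (a b c d : ℝ) :
    rI (fun z => k * h z) a b c d = k * rI h a b c d := by
  simp only [rI, intervalIntegral.integral_const_mul]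
  ring

theorem log_neg_of_im_pos {w : ℂ} (hw : 0 < w.im) : log (-w) = log w - π * I := by
  apply Complex.ext
  · simp [log_re]
  · rw [log_im, arg_neg_eq_arg_sub_pi_of_im_pos hw]
    simp [log_im]

theorem log_neg_of_im_neg {w : ℂ} (hw : w.im < 0) : log (-w) = log w + π * I := by
  apply Complex.ext
  · simp [log_re]
  · rw [log_im, arg_neg_eq_arg_add_pi_of_im_neg hw]
    simp [log_im]

theorem integral_inv_horizontal (ρ : ℂ) (a b e : ℝ) (he : e ≠ ρ.im) :
    (∫ x : ℝ in a..b, ((x : ℂ) + e * I - ρ)⁻¹) =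
      log (b + e * I - ρ) - log (a + e * I - ρ) := by
  have him : ∀ x : ℝ, ((x : ℂ) + e * I - ρ).im ≠ 0 := fun x => by simpa [sub_eq_zero] using he
  rw [intervalIntegral.integral_eq_sub_of_hasDerivAt (f := fun x : ℝ => log ((x : ℂ) + e * I - ρ))]
  · intro x _
    have h1 : HasDerivAt (fun x : ℝ => (x : ℂ) + e * I - ρ) 1 x :=
      ((hasDerivAt_id x).ofReal_comp.add_const _).sub_const _
    simpa using h1.clog_real (Or.inr (him x))
  · refine ContinuousOn.intervalIntegrable (ContinuousOn.inv₀ (by fun_prop) fun x _ h => ?_)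
    exact him x (by rw [h]; simp)

theorem integral_inv_right (ρ : ℂ) (b c d : ℝ) (hb : ρ.re < b) :
    I * (∫ y : ℝ in c..d, ((b : ℂ) + y * I - ρ)⁻¹) =
      log (b + d * I - ρ) - log (b + c * I - ρ) := by
  have hre : ∀ y : ℝ, 0 < ((b : ℂ) + y * I - ρ).re := fun y => by simpa using hb
  rw [← intervalIntegral.integral_const_mul, intervalIntegral.integral_eq_sub_of_hasDerivAt
    (f := fun y : ℝ => log ((b : ℂ) + y * I - ρ))]
  · intro y _
    have h1 : HasDerivAt (fun y : ℝ => (b : ℂ) + y * I - ρ) (1 * I) y :=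
      ((((hasDerivAt_id y).ofReal_comp).mul_const I).const_add _).sub_const _
    exact (h1.clog_real (Or.inl (hre y))).congr_deriv (by simp [div_eq_mul_inv])
  · refine ContinuousOn.intervalIntegrable (continuousOn_const.mul
      (ContinuousOn.inv₀ (by fun_prop) fun y _ h => ?_))
    have := hre y
    rw [h] at this
    simp at this

theorem integral_inv_left (ρ : ℂ) (a c d : ℝ) (ha : a < ρ.re) :
    I * (∫ y : ℝ in c..d, ((a : ℂ) + y * I - ρ)⁻¹) =
      log (-(a + d * I - ρ)) - log (-(a + c * I - ρ)) := by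
  have hre : ∀ y : ℝ, 0 < (-((a : ℂ) + y * I - ρ)).re := fun y => by simpa using ha
  rw [← intervalIntegral.integral_const_mul, intervalIntegral.integral_eq_sub_of_hasDerivAt
    (f := fun y : ℝ => log (-((a : ℂ) + y * I - ρ)))]
  · intro y _
    have h1 : HasDerivAt (fun y : ℝ => -((a : ℂ) + y * I - ρ)) (-(1 * I)) y :=
      (((((hasDerivAt_id y).ofReal_comp).mul_const I).const_add _).sub_const _).neg
    exact (h1.clog_real (Or.inl (hre y))).congr_deriv
      (by rw [neg_div_neg_eq]; simp [div_eq_mul_inv])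
  · refine ContinuousOn.intervalIntegrable (continuousOn_const.mul
      (ContinuousOn.inv₀ (by fun_prop) fun y _ h => ?_))
    have := hre y
    rw [h] at this
    simp at this

theorem rI_inv {ρ : ℂ} {a b c d : ℝ} (hρ : ρ ∈ Ioo a b ×ℂ Ioo c d) :
    rI (fun z => (z - ρ)⁻¹) a b c d = 2 * π * I := by
  obtain ⟨⟨h1, h2⟩, h3, h4⟩ := hρ
  simp only [rI]
  rw [integral_inv_horizontal ρ a b c h3.ne, integral_inv_horizontal ρ a b d h4.ne',
    integral_inv_right ρ b c d h2, integral_inv_left ρ a c d h1,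
    log_neg_of_im_pos (w := a + d * I - ρ) (by simpa using h4),
    log_neg_of_im_neg (w := a + c * I - ρ) (by simpa using h3)]
  ring

/-- Cauchy's integral formula on a rectangle, for an entire function. -/
theorem rI_cauchy {ρ : ℂ} {a b c d : ℝ} (hab : a ≤ b) (hcd : c ≤ d)
    (hρ : ρ ∈ Ioo a b ×ℂ Ioo c d) {g : ℂ → ℂ} (hg : Differentiable ℂ g) :
    rI (fun z => (z - ρ)⁻¹ * g z) a b c d = 2 * π * I * g ρ := by
  have hd : Differentiable ℂ (dslope g ρ) :=
    differentiableOn_univ.1 ((differentiableOn_dslope univ_mem).2 hg.differentiableOn)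
  have hne : ∀ z, Bd a b c d z → z - ρ ≠ 0 := fun z hz h =>
    hz.not_mem (by rw [sub_eq_zero.1 h]; exact hρ)
  rw [rI_congr (h' := fun z => dslope g ρ z + g ρ * (z - ρ)⁻¹) hab hcd, rI_add hab hcd,
    rI_eq_zero hab hcd hd.differentiableOn, rI_const_mul, rI_inv hρ]
  · ring
  · exact fun z _ => hd.continuous.continuousAt
  · intro z hz
    exact continuousAt_const.mul ((continuousAt_id.sub continuousAt_const).inv₀ (hne z hz))
  · intro z hz
    have h1 := hne z hz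
    rw [dslope_of_ne _ (sub_ne_zero.1 h1), slope_def_field]
    field_simp
    ring

theorem analyticAt_logDeriv {F : ℂ → ℂ} {z : ℂ} (hF : AnalyticAt ℂ F z) (h0 : F z ≠ 0) :
    AnalyticAt ℂ (logDeriv F) z :=
  hF.deriv.div hF h0

/-- Removing one zero of an analytic function. -/
theorem exists_factor_rect {F : ℂ → ℂ} {S : Set ℂ} {ρ : ℂ} (hF : AnalyticOnNhd ℂ F S) (hρ : ρ ∈ S)
    (hfin : analyticOrderAt F ρ ≠ ⊤) :
    ∃ G : ℂ → ℂ, AnalyticOnNhd ℂ G S ∧ G ρ ≠ 0 ∧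
      ∀ z, z ≠ ρ → F z = (z - ρ) ^ (analyticOrderAt F ρ).toNat * G z := by
  classical
  obtain ⟨G, hG, hG0, hFG⟩ := (hF ρ hρ).analyticOrderAt_ne_top.1 hfin
  set m := (analyticOrderAt F ρ).toNat with hm
  refine ⟨fun z => if z = ρ then G ρ else F z / (z - ρ) ^ m, fun z hz => ?_, by simpa using hG0,
    fun z hz => ?_⟩
  · by_cases hzρ : z = ρ
    · subst hzρ
      refine hG.congr ?_
      filter_upwards [hFG] with w hw
      by_cases hw' : w = z
      · simp [hw']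
      · have : (w - z) ^ m ≠ 0 := pow_ne_zero _ (sub_ne_zero.2 hw')
        simp only [hw', if_false, hw, smul_eq_mul, analyticOrderNatAt, ← hm]
        field_simp
    · have h1 : AnalyticAt ℂ (fun w => F w / (w - ρ) ^ m) z :=
        (hF z hz).div (by fun_prop) (pow_ne_zero _ (sub_ne_zero.2 hzρ))
      refine h1.congr ?_
      filter_upwards [isOpen_ne.mem_nhds hzρ] with w hw
      simp [hw]
  · have : (z - ρ) ^ m ≠ 0 := pow_ne_zero _ (sub_ne_zero.2 hz)
    simp only [hz, if_false]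
    field_simp

theorem rI_argument {g : ℂ → ℂ} {a b c d : ℝ} (hab : a ≤ b) (hcd : c ≤ d)
    (hg : Differentiable ℂ g) (Z : Finset ℂ) :
    ∀ F : ℂ → ℂ, AnalyticOnNhd ℂ F (Icc a b ×ℂ Icc c d) →
      (∀ z, z ∈ Z ↔ z ∈ Icc a b ×ℂ Icc c d ∧ F z = 0) → (∀ z ∈ Z, z ∈ Ioo a b ×ℂ Ioo c d) →
      rI (fun z => logDeriv F z * g z) a b c d
        = 2 * π * I * ∑ ρ ∈ Z, ((analyticOrderAt F ρ).toNat : ℂ) * g ρ := by
  classical
  induction Z using Finset.induction_on with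
  | empty =>
    intro F hF hZ _
    rw [rI_eq_zero hab hcd]
    · simp
    · intro z hz
      have h0 : F z ≠ 0 := fun h => by simpa using (hZ z).2 ⟨hz, h⟩
      exact ((analyticAt_logDeriv (hF z hz) h0).differentiableAt.mul
        (hg z)).differentiableWithinAt
  | insert ρ Z hρZ ih =>
    intro F hF hZ hin
    have hρin := hin ρ (Finset.mem_insert_self _ _)
    have hρS := ((hZ ρ).1 (Finset.mem_insert_self _ _)).1
    have hnh : Icc a b ×ℂ Icc c d ∈ 𝓝 ρ :=
      mem_of_superset ((isOpen_Ioo.reProdIm isOpen_Ioo).mem_nhds hρin)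
        (inter_subset_inter (preimage_mono Ioo_subset_Icc_self) (preimage_mono Ioo_subset_Icc_self))
    have hfin : analyticOrderAt F ρ ≠ ⊤ := by
      intro h
      rw [analyticOrderAt_eq_top] at h
      have h2 : ((insert ρ Z : Finset ℂ) : Set ℂ) ∈ 𝓝 ρ := by
        filter_upwards [h, hnh] with z h1 h2 using (hZ z).2 ⟨h2, h1⟩
      exact (infinite_of_mem_nhds ρ h2) (Finset.finite_toSet _)
    obtain ⟨G, hG, hG0, hFG⟩ := exists_factor_rect hF hρS hfin
    set m := (analyticOrderAt F ρ).toNat with hm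
    have hev : ∀ z, z ≠ ρ → F =ᶠ[𝓝 z] fun w => (w - ρ) ^ m * G w := fun z hz => by
      filter_upwards [isOpen_ne.mem_nhds hz] with w hw using hFG w hw
    have hGZ : ∀ z, z ∈ Z ↔ z ∈ Icc a b ×ℂ Icc c d ∧ G z = 0 := by
      intro z
      by_cases hz : z = ρ
      · subst hz
        simp [hρZ, hG0]
      · have h1 := hZ z
        rw [Finset.mem_insert, or_iff_right hz, hFG z hz, mul_eq_zero,
          or_iff_right (pow_ne_zero _ (sub_ne_zero.2 hz))] at h1
        exact h1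
    have hord : ∀ z ∈ Z, analyticOrderAt F z = analyticOrderAt G z := by
      intro z hz
      have hzρ : z ≠ ρ := fun h => hρZ (h ▸ hz)
      have hp : AnalyticAt ℂ (fun w : ℂ => (w - ρ) ^ m) z := by fun_prop
      rw [analyticOrderAt_congr (hev z hzρ)]
      have := analyticOrderAt_mul hp (hG z ((hGZ z).1 hz).1)
      rw [hp.analyticOrderAt_eq_zero.2 (pow_ne_zero _ (sub_ne_zero.2 hzρ)), zero_add] at this
      exact this
    have hne : ∀ z, Bd a b c d z → z ≠ ρ := fun z hz h => hz.not_mem (h ▸ hρin)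
    have hGne : ∀ z, Bd a b c d z → G z ≠ 0 := fun z hz h =>
      hz.not_mem (hin z (Finset.mem_insert_of_mem ((hGZ z).2 ⟨hz.1, h⟩)))
    have hs : ∑ z ∈ Z, ((analyticOrderAt F z).toNat : ℂ) * g z
        = ∑ z ∈ Z, ((analyticOrderAt G z).toNat : ℂ) * g z :=
      Finset.sum_congr rfl fun z hz => by rw [hord z hz]
    rw [rI_congr (h' := fun z => (m : ℂ) * ((z - ρ)⁻¹ * g z) + logDeriv G z * g z) hab hcd,
      rI_add hab hcd, rI_const_mul, rI_cauchy hab hcd hρin hg,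
      ih G hG hGZ fun z hz => hin z (Finset.mem_insert_of_mem hz), Finset.sum_insert hρZ, hs]
    · ring
    · intro z hz
      exact continuousAt_const.mul (((continuousAt_id.sub continuousAt_const).inv₀
        (sub_ne_zero.2 (hne z hz))).mul hg.continuous.continuousAt)
    · intro z hz
      exact (analyticAt_logDeriv (hG z hz.1) (hGne z hz)).continuousAt.mul
        hg.continuous.continuousAt
    · intro z hz
      have h1 : z - ρ ≠ 0 := sub_ne_zero.2 (hne z hz)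
      have h2 : logDeriv (fun w : ℂ => w - ρ) z = (z - ρ)⁻¹ := by
        simp [logDeriv_apply]
      rw [(logDeriv_congr_nhds (hev z (hne z hz))).self_of_nhds,
        logDeriv_mul (f := fun w => (w - ρ) ^ m) z (pow_ne_zero _ h1) (hGne z hz) (by fun_prop)
          (hG z hz.1).differentiableAt,
        logDeriv_fun_pow (f := fun w => w - ρ) (by fun_prop), h2]
      ring

theorem stmtRect : StmtRect := fun F _ _ _ _ _ Z hab hcd hF hg hZ hin =>
  rI_argument hab.le hcd.le hg Z F hF hZ hin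

end Pool.Agent.MP_f259ea_nt

end

section

/-!
Data and side conditions for part B.  All side conditions are finite (rational) inequalities.

Cells: `n` cells of width `D = 1 / M`, cell `i` is `[node i, node (i+1)]`, centred at `0`.
-/

set_option autoImplicit false

open Finset

namespace Pool.Agent.MP_f259ea_nt

/-- The tent function `(1 - |x|)₊`. -/
noncomputable def tent (x : ℝ) : ℝ := max (1 - |x|) 0

/-- Step-function data for part B. -/
structure BData where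
  /-- number of cells -/
  n : ℕ
  /-- cells per unit length -/
  M : ℕ
  /-- number of multiplier vectors -/
  J : ℕ
  /-- number of extra minorant vectors -/
  T : ℕ
  /-- the window `ψ` (value on cell `i`) -/
  ψ : ℕ → ℝ
  /-- multiplier vectors `c j` (value on cell `i`) -/
  c : ℕ → ℕ → ℝ
  /-- main minorant vector -/
  h : ℕ → ℝ
  /-- extra minorant vectors -/
  g : ℕ → ℕ → ℝ
  ν : ℝ
  σ : ℝ
  τ : ℝ
  b : ℝ
  l : ℝ
  kl : ℝ
  s : ℝ

namespace BData

variable (d : BData)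

noncomputable def D : ℝ := 1 / (d.M : ℝ)

noncomputable def node (i : ℕ) : ℝ := ((i : ℝ) - (d.n : ℝ) / 2) * d.D

noncomputable def w (i i' : ℕ) : ℝ :=
  d.ψ i * d.ψ i' * (1 - ∑ j ∈ range d.J, d.c j i * d.c j i')

noncomputable def H (i i' : ℕ) : ℝ :=
  d.h i * d.h i' + ∑ t ∈ range d.T, d.g t i * d.g t i'

/-- The kernel: piecewise linear with nodes at multiples of `D`. -/
noncomputable def K (a : ℝ) : ℝ :=
  ∑ i ∈ range d.n, ∑ i' ∈ range d.n, d.w i i' * (d.D * tent (a / d.D - ((i : ℝ) - (i' : ℝ))))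

noncomputable def h0 : ℝ := d.D * ∑ i ∈ range d.n, d.h i

noncomputable def ρ : ℝ := d.h0 ^ 2 + ∑ t ∈ range d.T, (d.D * ∑ i ∈ range d.n, d.g t i) ^ 2

noncomputable def cp : ℝ := 2 * d.τ * (1 - d.ν) - 2 * d.ν * d.σ

noncomputable def t2 : ℝ := (1 - d.ν) * d.τ ^ 2

noncomputable def ε : ℝ := 2 * d.ν * d.σ

/-- Primitive of the degree-6 Taylor minorant of `cos (2 π l u)` (with `π² ≤ 9.87`). -/
noncomputable def F (u : ℝ) : ℝ :=
  u - (4 * (987 / 100) * d.l ^ 2) * u ^ 3 / 6 + (4 * (987 / 100) * d.l ^ 2) ^ 2 * u ^ 5 / 120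
    - (4 * (987 / 100) * d.l ^ 2) ^ 3 * u ^ 7 / 5040

/-- The side conditions. -/
structure Good : Prop where
  M_pos : 0 < d.M
  ψ_nonneg : ∀ i < d.n, 0 ≤ d.ψ i
  ψ_sum : d.D * ∑ i ∈ range d.n, d.ψ i = 1
  supp : ∀ i < d.n, ∀ i' < d.n, i' + d.M ≤ i → d.ψ i * d.ψ i' = 0
  c_le : ∀ i < d.n, ∑ j ∈ range d.J, d.c j i ^ 2 ≤ d.ν
  lag : ∀ r < d.n, ∑ i ∈ range (d.n - r), d.H (i + r) i ≤ ∑ i ∈ range (d.n - r), d.w (i + r) i
  maj : ∀ i < d.n, d.ψ i - d.h i ≤
    d.b * (max (1 - 987 / 100 * d.l ^ 2 * max (d.node i ^ 2) (d.node (i + 1) ^ 2) / 6) 0) ^ 2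
  kl_le : d.kl ≤ ∑ i ∈ range d.n, d.ψ i * (d.F (d.node (i + 1)) - d.F (d.node i))
  ν_nonneg : 0 ≤ d.ν
  ν_le : d.ν ≤ 1
  σ_pos : 0 < d.σ
  τ_nonneg : 0 ≤ d.τ
  b_nonneg : 0 ≤ d.b
  l_pos : 0 < d.l
  s_nonneg : 0 ≤ d.s
  h0_nonneg : 0 ≤ d.h0
  σ_ge : 2 * d.h0 + 2 * d.b / d.l ≤ d.σ
  cp_σ : 2 * d.σ ≤ d.cp
  cp_ρ : 3 * d.ρ ≤ d.cp
  pair : 2 * d.ρ ≤ 2 * d.cp - d.t2
  triple : 7 * d.ρ ≤ 3 * d.cp - d.t2
  cl21 : (5 * d.ρ + d.t2 + 3 * d.ε) * (2 + d.s ^ 2)
    ≤ (d.cp + d.ε) * (4 + d.s ^ 2 + 4 * d.s * d.kl)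
  cl22 : 8 * d.ρ + d.t2 + 4 * d.ε ≤ (d.cp + d.ε) * (2 + 2 * d.kl)
  cl111 : 3 * d.ρ + d.t2 + 3 * d.ε ≤ (d.cp + d.ε) * (1 + 2 * d.kl)

end BData

/-- Part B (proved in `B_Main.lean`). -/
def StmtBMain : Prop := ∀ d : BData, d.Good → StmtB d.K (3 * d.ρ) (2 * d.ρ) 0

end Pool.Agent.MP_f259ea_nt

end

section

/-!
Analytic facts about the kernel of part B, in the form used by the finite linear algebra.
-/

set_option autoImplicit false

open Complex
open scoped Real ComplexConjugate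

namespace Pool.Agent.MP_f259ea_nt

/-- Finite-dimensional vector model of the quadratic form `∫ K |μ|²`. -/
def Model (K : ℝ → ℝ) (k : ℂ → ℂ) (ν : ℝ) : Prop :=
  ∀ Z : Finset ℂ, (∀ x ∈ Z, conj x ∈ Z) →
    ∃ (n S : ℕ) (v : ℂ → Fin n → ℂ) (d : Fin S → Fin n → ℝ),
      (∀ α, ∑ s, d s α ^ 2 ≤ ν) ∧
      (∀ x ∈ Z, ∀ y ∈ Z, ∑ α, v x α * conj (v y α) = k (x - conj y)) ∧
      ∀ c : ℂ → ℂ, ∫ a in (-1 : ℝ)..1, K a * ‖mu Z c a‖ ^ 2
        = ∑ α, ∑ β, (1 - ∑ s, d s α * d s β) * ‖∑ x ∈ Z, c x * v x α * conj (v (conj x) β)‖ ^ 2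

/-- Positivity input: on real points the form dominates the pair sum of `f`.
Real points are the `x : ℂ` with `x.im = 0`. -/
def H1 (K f : ℝ → ℝ) : Prop :=
  ∀ (X : Finset ℂ) (w : ℂ → ℝ), (∀ x ∈ X, x.im = 0) →
    ∑ x ∈ X, ∑ y ∈ X, w x * w y * f (x.re - y.re)
      ≤ ∫ a in (-1 : ℝ)..1, K a * ‖mu X (fun x => (w x : ℂ)) a‖ ^ 2

/-- Majorant input: under the window condition the weighted Gram matrix of `k` is at most the one
of `h` plus `2 r`. -/
def H2 (k : ℂ → ℂ) (h : ℝ → ℂ) (l r : ℝ) : Prop :=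
  ∀ (X : Finset ℂ) (w : ℂ → ℝ) (ξ : ℂ → ℂ), (∀ x ∈ X, x.im = 0) → (∀ x ∈ X, 0 ≤ w x) →
    (∀ t : ℝ, ∑ x ∈ X with t ≤ x.re ∧ x.re < t + l, w x ≤ 2) →
    (∑ x ∈ X, ∑ y ∈ X, ξ x * conj (ξ y) * ((√(w x) * √(w y) : ℝ) : ℂ)
        * (k (x - y) - h (x.re - y.re))).re
      ≤ 2 * r * ∑ x ∈ X, ‖ξ x‖ ^ 2

/-- The analytic facts. -/
structure Cert (K : ℝ → ℝ) (k : ℂ → ℂ) (f : ℝ → ℝ) (h : ℝ → ℂ) (ν ρ h0 l r kl : ℝ) : Prop where
  model : Model K k ν
  h1 : H1 K f
  h2 : H2 k h l r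
  k_zero : k 0 = 1
  k_ge : ∀ x : ℝ, |x| ≤ l → kl ≤ (k x).re
  h_conj : ∀ x, h (-x) = conj (h x)
  h_zero : h 0 = h0
  h_sq_le : ∀ x, ‖h x‖ ^ 2 ≤ f x
  f_zero : f 0 = ρ

/-- Proved in `C_Cert.lean`. -/
def StmtCert : Prop :=
  ∀ d : BData, d.Good → ∃ (k : ℂ → ℂ) (f : ℝ → ℝ) (h : ℝ → ℂ),
    Cert d.K k f h d.ν d.ρ d.h0 d.l (d.b / d.l) d.kl

end Pool.Agent.MP_f259ea_nt

end
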