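import Mathlib
import Pool.Agent.Mg.Ff259ea.Gae27b5

section

/-!
Local zero counting and the pole expansion of the logarithmic derivative.
-/

set_option autoImplicit false

open Complex Set Filter Topology Metric

namespace Pool.Agent.MP_f259ea_nt

/-- Factor out finitely many zeros of an analytic function. -/
theorem exists_factor (K : Set ℂ) (f : ℂ → ℂ) (hf : AnalyticOnNhd ℂ f K) (m : ℂ → ℕ)
    (Z : Finset ℂ) (hZ : ∀ ρ ∈ Z, ρ ∈ K ∧ analyticOrderAt f ρ = m ρ) :
    ∃ g : ℂ → ℂ, AnalyticOnNhd ℂ g K ∧ (∀ z, f z = (∏ ρ ∈ Z, (z - ρ) ^ m ρ) * g z) ∧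
      ∀ ρ ∈ Z, g ρ ≠ 0 := by
  classical
  induction Z using Finset.induction_on with
  | empty => exact ⟨f, hf, by simp, by simp⟩
  | insert a Z ha ih =>
    obtain ⟨g, hg, hfg, hg0⟩ := ih fun ρ hρ => hZ ρ (Finset.mem_insert_of_mem hρ)
    obtain ⟨haK, hma⟩ := hZ a (Finset.mem_insert_self _ _)
    have hP : AnalyticAt ℂ (fun z => ∏ ρ ∈ Z, (z - ρ) ^ m ρ) a :=
      Finset.analyticAt_fun_prod _ fun ρ _ => by fun_prop
    have hPa : (∏ ρ ∈ Z, (a - ρ) ^ m ρ) ≠ 0 := by
      refine Finset.prod_ne_zero_iff.2 fun ρ hρ => pow_ne_zero _ (sub_ne_zero.2 ?_)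
      rintro rfl
      exact ha hρ
    have hord : analyticOrderAt g a = m a := by
      have e : f = (fun z => ∏ ρ ∈ Z, (z - ρ) ^ m ρ) * g := by
        ext z; simp [hfg z]
      rw [e, analyticOrderAt_mul hP (hg a haK), hP.analyticOrderAt_eq_zero.2 hPa, zero_add] at hma
      exact hma
    obtain ⟨h, hh, hha, hgh⟩ := (hg a haK).analyticOrderAt_eq_natCast.1 hord
    set g' : ℂ → ℂ := fun z => if z = a then h a else g z / (z - a) ^ m a with hg'
    have hev : g' =ᶠ[𝓝 a] h := by
      filter_upwards [hgh] with z hz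
      by_cases hza : z = a
      · simp [hg', hza]
      · simp only [hg', if_neg hza, hz, smul_eq_mul]
        have : (z - a) ^ m a ≠ 0 := pow_ne_zero _ (sub_ne_zero.2 hza)
        field_simp
    have hgg' : ∀ z, g z = (z - a) ^ m a * g' z := by
      intro z
      by_cases hza : z = a
      · subst hza
        have := hgh.self_of_nhds
        simpa [hg'] using this
      · simp only [hg', if_neg hza]
        have : (z - a) ^ m a ≠ 0 := pow_ne_zero _ (sub_ne_zero.2 hza)
        field_simp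
    refine ⟨g', fun z hz => ?_, fun z => ?_, fun ρ hρ => ?_⟩
    · by_cases hza : z = a
      · subst hza
        exact hh.congr hev.symm
      · have h1 : AnalyticAt ℂ (fun w => g w / (w - a) ^ m a) z :=
          (hg z hz).div (by fun_prop) (pow_ne_zero _ (sub_ne_zero.2 hza))
        refine h1.congr ?_
        filter_upwards [isOpen_ne.mem_nhds hza] with w hw
        simp [hg', hw]
    · rw [Finset.prod_insert ha, hfg z, hgg' z]; ring
    · rcases Finset.mem_insert.1 hρ with rfl | hρ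
      · simpa [hg'] using hha
      · intro h0
        exact hg0 ρ hρ (by rw [hgg' ρ, h0, mul_zero])

/-- Borel-Caratheodory bound for the logarithmic derivative of a zero-free function. -/
theorem logDeriv_bound_of_ne_zero (g : ℂ → ℂ) (c : ℂ) (M : ℝ) (hM : 0 < M)
    (hg : DifferentiableOn ℂ g (ball c (9 / 5)))
    (h0 : ∀ z ∈ ball c (9 / 5), g z ≠ 0)
    (hb : ∀ z ∈ ball c (9 / 5), ‖g z‖ ≤ Real.exp M * ‖g c‖) :
    ∀ z ∈ closedBall c (8 / 5), ‖logDeriv g z‖ ≤ 340 * M := by
  have hd : DifferentiableOn ℂ (logDeriv g) (ball c (9 / 5)) := by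
    have : logDeriv g = fun z => deriv g z / g z := by ext z; exact logDeriv_apply g z
    rw [this]
    exact (hg.deriv isOpen_ball).div hg h0
  obtain ⟨h, hc, hh⟩ := hd.isExactOn_ball.with_val_at c 0
  have hcb : c ∈ ball c (9 / 5 : ℝ) := mem_ball_self (by norm_num)
  have hconst : ∀ z ∈ ball c (9 / 5 : ℝ), g z * Complex.exp (-h z) = g c := by
    intro z hz
    have hD : ∀ w ∈ ball c (9 / 5 : ℝ),
        HasDerivAt (fun w => g w * Complex.exp (-h w)) 0 w := by
      intro w hw
      have h1 : HasDerivAt g (deriv g w) w :=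
        (hg.differentiableAt (isOpen_ball.mem_nhds hw)).hasDerivAt
      have h2 := (hh w hw).neg.cexp
      have h3 := h1.mul h2
      have e : deriv g w * cexp ((-h) w) + g w * (cexp ((-h) w) * -logDeriv g w) = 0 := by
        rw [logDeriv_apply]
        have := h0 w hw
        field_simp
        ring
      rw [e] at h3
      exact h3
    have := isOpen_ball.is_const_of_deriv_eq_zero (𝕜 := ℂ) (convex_ball c (9 / 5 : ℝ)).isPreconnected
      (fun w hw => (hD w hw).differentiableAt.differentiableWithinAt)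
      (fun w hw => (hD w hw).deriv) hz hcb
    simpa [hc] using this
  have hre : ∀ z ∈ ball c (9 / 5 : ℝ), (h z).re ≤ M := by
    intro z hz
    have e := hconst z hz
    have e2 : g z = g c * Complex.exp (h z) := by
      rw [← e, mul_assoc, ← Complex.exp_add]; simp
    have h1 := hb z hz
    rw [e2, norm_mul, Complex.norm_exp, mul_comm] at h1
    have hpos : 0 < ‖g c‖ := norm_pos_iff.2 (h0 c hcb)
    exact Real.exp_le_exp.1 (le_of_mul_le_mul_right h1 hpos)
  have hhd : DifferentiableOn ℂ h (ball c (9 / 5)) :=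
    fun w hw => (hh w hw).differentiableAt.differentiableWithinAt
  have hBC : ∀ z ∈ closedBall c (17 / 10 : ℝ), ‖h z‖ ≤ 34 * M := by
    intro z hz
    have hzc : ‖z - c‖ ≤ 17 / 10 := by rwa [mem_closedBall, dist_eq_norm] at hz
    have hmaps : ∀ w ∈ ball (0 : ℂ) (9 / 5 : ℝ), c + w ∈ ball c (9 / 5 : ℝ) := by
      intro w hw
      simpa [mem_ball, dist_eq_norm] using hw
    have := Complex.borelCaratheodory_zero (f := fun w => h (c + w)) (R := 9 / 5) (z := z - c) hM
      (hhd.comp (by fun_prop) hmaps) (fun w hw => hre _ (hmaps w hw)) (by norm_num)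
      (by rw [mem_ball_zero_iff]; linarith) (by simpa using hc)
    simp only [add_sub_cancel] at this
    refine this.trans ?_
    rw [div_le_iff₀ (by linarith)]
    nlinarith [norm_nonneg (z - c)]
  intro z hz
  have hzc : dist z c ≤ 8 / 5 := hz
  have hsub : closedBall z (1 / 10 : ℝ) ⊆ closedBall c (17 / 10 : ℝ) :=
    closedBall_subset_closedBall' (by linarith)
  have hsub2 : closedBall z (1 / 10 : ℝ) ⊆ ball c (9 / 5 : ℝ) :=
    hsub.trans (closedBall_subset_ball (by norm_num))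
  have hdc : DiffContOnCl ℂ h (ball z (1 / 10)) := by
    refine DifferentiableOn.diffContOnCl ?_
    rw [closure_ball z (by norm_num)]
    exact hhd.mono hsub2
  have hC := Complex.norm_deriv_le_of_forall_mem_sphere_norm_le (by norm_num) hdc
    (fun w hw => hBC w (hsub (sphere_subset_closedBall hw)))
  have hzb : z ∈ ball c (9 / 5 : ℝ) := hsub2 (mem_closedBall_self (by norm_num))
  rw [(hh z hzb).deriv] at hC
  linarith

/-- Local structure of an analytic function on a disc: number of zeros and pole expansion. -/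
theorem local_structure (f : ℂ → ℂ) (c : ℂ) (M : ℝ) (hM : 1 ≤ M)
    (hf : AnalyticOnNhd ℂ f (closedBall c (19 / 10))) (hc : f c ≠ 0)
    (hb : ∀ z ∈ sphere c (19 / 10), ‖f z‖ ≤ Real.exp M * ‖f c‖)
    (h1 : 1 ≤ Real.exp M * ‖f c‖) :
    ∃ Z : Finset ℂ, (∀ z, z ∈ Z ↔ z ∈ closedBall c (9 / 5) ∧ f z = 0) ∧
      (∀ ρ ∈ Z, 1 ≤ (analyticOrderAt f ρ).toNat) ∧
      (∑ ρ ∈ Z, ((analyticOrderAt f ρ).toNat : ℝ) ≤ 20 * M) ∧
      ∀ z ∈ closedBall c (8 / 5), f z ≠ 0 →
        ‖logDeriv f z - ∑ ρ ∈ Z, ((analyticOrderAt f ρ).toNat : ℂ) / (z - ρ)‖ ≤ 30000 * M := by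
  classical
  have hsub : closedBall c (9 / 5 : ℝ) ⊆ closedBall c (19 / 10 : ℝ) :=
    closedBall_subset_closedBall (by norm_num)
  have hf' := hf.mono hsub
  have htop : ∀ z ∈ closedBall c (19 / 10 : ℝ), analyticOrderAt f z ≠ ⊤ := by
    intro z hz
    refine hf.analyticOrderAt_ne_top_of_isPreconnected
      (convex_closedBall c _).isPreconnected (mem_closedBall_self (by norm_num)) hz ?_
    rw [(hf c (mem_closedBall_self (by norm_num))).analyticOrderAt_eq_zero.2 hc]
    simp
  set m : ℂ → ℕ := fun ρ => (analyticOrderAt f ρ).toNat with hm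
  have hmo : ∀ z ∈ closedBall c (19 / 10 : ℝ), analyticOrderAt f z = m z := by
    intro z hz
    simp only [hm]
    exact (ENat.natCast_toNat (htop z hz)).symm
  have hdiv : ∀ z ∈ closedBall c (9 / 5 : ℝ),
      MeromorphicOn.divisor f (closedBall c (9 / 5 : ℝ)) z = m z := by
    intro z hz
    rw [MeromorphicOn.AnalyticOnNhd.divisor_apply hf' hz, hmo z (hsub hz)]
    simp
  have hfin := (MeromorphicOn.divisor f (closedBall c (9 / 5 : ℝ))).finiteSupport
    (isCompact_closedBall _ _)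
  set Z : Finset ℂ := hfin.toFinset with hZdef
  have hZ : ∀ z, z ∈ Z ↔ z ∈ closedBall c (9 / 5) ∧ f z = 0 := by
    intro z
    simp only [hZdef, Set.Finite.mem_toFinset, Function.mem_support]
    constructor
    · intro h
      have hz : z ∈ closedBall c (9 / 5 : ℝ) := by
        by_contra hz
        exact h (Function.locallyFinsuppWithin.apply_eq_zero_of_notMem _ hz)
      refine ⟨hz, ?_⟩
      by_contra h0
      apply h
      rw [hdiv z hz]
      simp only [hm]
      rw [(hf' z hz).analyticOrderAt_eq_zero.2 h0]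
      simp
    · rintro ⟨hz, h0⟩
      rw [hdiv z hz]
      intro hm0
      have h2 : m z = 0 := by exact_mod_cast hm0
      have h3 := hmo z (hsub hz)
      rw [h2] at h3
      exact (hf' z hz).analyticOrderAt_eq_zero.1 (by simpa using h3) h0
  have hpos : ∀ ρ ∈ Z, 1 ≤ m ρ := by
    intro ρ hρ
    obtain ⟨hz, h0⟩ := (hZ ρ).1 hρ
    by_contra hlt
    have h2 : m ρ = 0 := by omega
    have h3 := hmo ρ (hsub hz)
    rw [h2] at h3
    exact (hf' ρ hz).analyticOrderAt_eq_zero.1 (by simpa using h3) h0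
  have hfc : 0 < ‖f c‖ := norm_pos_iff.2 hc
  have hcount : ∑ ρ ∈ Z, (m ρ : ℝ) ≤ 20 * M := by
    have hJ := AnalyticOnNhd.sum_divisor_le (c := c) (r := 9 / 5) (R := 19 / 10)
      (M := Real.exp M * ‖f c‖) (f := f) (by norm_num) (by norm_num [abs_of_pos]) h1
      (by rwa [abs_of_pos (by norm_num : (0 : ℝ) < 19 / 10)]) hc
      (by rwa [abs_of_pos (by norm_num : (0 : ℝ) < 19 / 10)])
    rw [abs_of_pos (by norm_num : (0 : ℝ) < 9 / 5), mul_div_assoc, div_self hfc.ne', mul_one,
      Real.log_exp, finsum_eq_sum_of_support_subset (s := Z) _ (by simp [hZdef])] at hJ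
    have e : ((∑ ρ ∈ Z, MeromorphicOn.divisor f (closedBall c (9 / 5 : ℝ)) ρ : ℤ) : ℝ)
        = ∑ ρ ∈ Z, (m ρ : ℝ) := by
      push_cast
      refine Finset.sum_congr rfl fun ρ hρ => ?_
      rw [hdiv ρ ((hZ ρ).1 hρ).1]
      simp
    rw [e] at hJ
    refine hJ.trans ?_
    have hlog : (1 / 20 : ℝ) ≤ Real.log (19 / 10 / (9 / 5)) := by
      have := Real.one_sub_inv_le_log_of_pos (x := 19 / 10 / (9 / 5)) (by norm_num)
      linarith [show (1 / 20 : ℝ) ≤ 1 - (19 / 10 / (9 / 5))⁻¹ by norm_num]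
    rw [div_le_iff₀ (by linarith)]
    nlinarith
  refine ⟨Z, hZ, hpos, hcount, fun z hz hz0 => ?_⟩
  obtain ⟨g, hg, hfg, hg0⟩ := exists_factor _ f hf m Z
    fun ρ hρ => ⟨hsub ((hZ ρ).1 hρ).1, hmo ρ (hsub ((hZ ρ).1 hρ).1)⟩
  set n : ℕ := ∑ ρ ∈ Z, m ρ with hn
  have hnR : (n : ℝ) ≤ 20 * M := by rw [hn]; push_cast; exact hcount
  have hgne : ∀ w ∈ closedBall c (9 / 5 : ℝ), g w ≠ 0 := by
    intro w hw h0
    by_cases hwZ : w ∈ Z
    · exact hg0 w hwZ h0
    · exact hwZ ((hZ w).2 ⟨hw, by rw [hfg w, h0, mul_zero]⟩)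
  have hgc : ‖f c‖ ≤ 2 ^ n * ‖g c‖ := by
    rw [hfg c, norm_mul, norm_prod, hn, ← Finset.prod_pow_eq_pow_sum]
    gcongr with ρ hρ
    rw [norm_pow]
    gcongr
    have := ((hZ ρ).1 hρ).1
    rw [mem_closedBall, dist_comm, dist_eq_norm] at this
    linarith
  have hsph : ∀ w ∈ sphere c (19 / 10 : ℝ), ‖g w‖ ≤ Real.exp (M + 3 * n) * ‖g c‖ := by
    intro w hw
    have hP : (1 / 10 : ℝ) ^ n ≤ ‖∏ ρ ∈ Z, (w - ρ) ^ m ρ‖ := by
      rw [norm_prod, hn, ← Finset.prod_pow_eq_pow_sum]
      gcongr with ρ hρ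
      rw [norm_pow]
      gcongr
      have h2 : dist ρ c ≤ 9 / 5 := ((hZ ρ).1 hρ).1
      have h3 : dist w c = 19 / 10 := hw
      have := dist_triangle w ρ c
      rw [dist_eq_norm w ρ] at this
      linarith
    have h2 := hb w hw
    rw [hfg w, norm_mul] at h2
    have h3 : (1 / 10 : ℝ) ^ n * ‖g w‖ ≤ Real.exp M * (2 ^ n * ‖g c‖) := by
      calc _ ≤ ‖∏ ρ ∈ Z, (w - ρ) ^ m ρ‖ * ‖g w‖ := by gcongr
        _ ≤ _ := h2.trans (by gcongr)
    have h20 : (20 : ℝ) ^ n ≤ Real.exp (3 * n) := by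
      rw [mul_comm, Real.exp_nat_mul]
      gcongr
      have := Real.exp_one_gt_d9
      have e3 : Real.exp 3 = Real.exp 1 ^ 3 := by rw [← Real.exp_nat_mul]; norm_num
      rw [e3]
      have : (2.7182818283 : ℝ) ^ 3 ≤ Real.exp 1 ^ 3 := by gcongr
      linarith [show (20 : ℝ) ≤ (2.7182818283 : ℝ) ^ 3 by norm_num]
    have h10 : (0 : ℝ) < (1 / 10) ^ n := by positivity
    have e20 : (20 : ℝ) ^ n * (1 / 10) ^ n = 2 ^ n := by rw [← mul_pow]; norm_num
    refine le_of_mul_le_mul_left (h3.trans ?_) h10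
    rw [Real.exp_add, ← e20]
    have := Real.exp_pos M
    have := norm_nonneg (g c)
    calc Real.exp M * (20 ^ n * (1 / 10) ^ n * ‖g c‖)
        ≤ Real.exp M * (Real.exp (3 * n) * (1 / 10) ^ n * ‖g c‖) := by gcongr
      _ = _ := by ring
  have hball : ∀ w ∈ ball c (9 / 5 : ℝ), ‖g w‖ ≤ Real.exp (M + 3 * n) * ‖g c‖ := by
    intro w hw
    have hdc : DiffContOnCl ℂ g (ball c (19 / 10)) := by
      refine DifferentiableOn.diffContOnCl ?_
      rw [closure_ball c (by norm_num)]
      exact hg.differentiableOn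
    refine Complex.norm_le_of_forall_mem_frontier_norm_le isBounded_ball hdc ?_ ?_
    · rw [frontier_ball c (by norm_num)]
      exact hsph
    · rw [closure_ball c (by norm_num)]
      exact hsub (ball_subset_closedBall hw)
  have hL := logDeriv_bound_of_ne_zero g c (M + 3 * n) (by positivity)
    (hg.differentiableOn.mono (ball_subset_closedBall.trans hsub))
    (fun w hw => hgne w (ball_subset_closedBall hw)) hball z hz
  have hz' : z ∈ closedBall c (9 / 5 : ℝ) := closedBall_subset_closedBall (by norm_num) hz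
  have hzρ : ∀ ρ ∈ Z, z - ρ ≠ 0 := by
    intro ρ hρ h0
    have : z = ρ := sub_eq_zero.1 h0
    exact hz0 (this ▸ ((hZ ρ).1 hρ).2)
  have hlog : logDeriv f z = ∑ ρ ∈ Z, (m ρ : ℂ) / (z - ρ) + logDeriv g z := by
    have e : f = fun w => (∏ ρ ∈ Z, (w - ρ) ^ m ρ) * g w := funext hfg
    have hPz : (∏ ρ ∈ Z, (z - ρ) ^ m ρ) ≠ 0 :=
      Finset.prod_ne_zero_iff.2 fun ρ hρ => pow_ne_zero _ (hzρ ρ hρ)
    conv_lhs => rw [e]
    rw [logDeriv_mul z hPz (hgne z hz') (by fun_prop) (hg z (hsub hz')).differentiableAt,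
      logDeriv_prod (f := fun ρ w => (w - ρ) ^ m ρ) (fun ρ hρ => pow_ne_zero _ (hzρ ρ hρ))
        (fun ρ _ => by fun_prop)]
    congr 1
    refine Finset.sum_congr rfl fun ρ hρ => ?_
    rw [logDeriv_fun_pow (by fun_prop), logDeriv_apply]
    simp [div_eq_mul_inv]
  change ‖logDeriv f z - ∑ ρ ∈ Z, (m ρ : ℂ) / (z - ρ)‖ ≤ _
  rw [hlog, add_sub_cancel_left]
  nlinarith

/-- Pigeonhole: a point of `[t, t + 1]` far from finitely many given reals. -/
theorem exists_far_point (Z : Finset ℂ) (t : ℝ) :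
    ∃ t' ∈ Icc t (t + 1), ∀ ρ ∈ Z, 1 / (2 * ((Z.card : ℝ) + 1)) ≤ |t' - ρ.im| := by
  classical
  set k : ℕ := Z.card with hk
  have hk1 : (0 : ℝ) < (k : ℝ) + 1 := by positivity
  have hcard : (Z.image fun ρ => ⌊(ρ.im - t) * (k + 1)⌋).card <
      ((Finset.range (k + 1)).image fun j : ℕ => (j : ℤ)).card := by
    rw [Finset.card_image_of_injective _ Nat.cast_injective, Finset.card_range]
    exact Nat.lt_succ_of_le Finset.card_image_le
  obtain ⟨j, hj1, hj2⟩ := Finset.exists_mem_notMem_of_card_lt_card hcard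
  obtain ⟨i, hi, rfl⟩ := Finset.mem_image.1 hj1
  have hik : (i : ℝ) ≤ k := by exact_mod_cast Nat.lt_succ_iff.1 (Finset.mem_range.1 hi)
  have hi0 : (0 : ℝ) ≤ i := Nat.cast_nonneg i
  refine ⟨t + (i + 1 / 2) / (k + 1), ⟨?_, ?_⟩, fun ρ hρ => ?_⟩
  · have : 0 ≤ ((i : ℝ) + 1 / 2) / (k + 1) := by positivity
    linarith
  · have : ((i : ℝ) + 1 / 2) / (k + 1) ≤ 1 := by rw [div_le_one hk1]; linarith
    linarith
  · by_contra hlt
    push Not at hlt
    apply hj2
    refine Finset.mem_image.2 ⟨ρ, hρ, ?_⟩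
    rw [Int.floor_eq_iff]
    rw [abs_lt] at hlt
    obtain ⟨h1, h2⟩ := hlt
    have e1 : (t + (i + 1 / 2) / (k + 1) - ρ.im) * (k + 1) = i + 1 / 2 - (ρ.im - t) * (k + 1) := by
      field_simp; ring
    have e2 : (1 / (2 * ((k : ℝ) + 1))) * (k + 1) = 1 / 2 := by field_simp
    have h1' := mul_lt_mul_of_pos_right h1 hk1
    have h2' := mul_lt_mul_of_pos_right h2 hk1
    rw [e1] at h1' h2'
    rw [neg_mul, e2] at h1'
    rw [e2] at h2'
    push_cast
    constructor <;> linarith

end Pool.Agent.MP_f259ea_nt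

end

section

/-!
The logarithmic derivative of the Gamma factor on the critical line.
-/

set_option autoImplicit false

open Complex Set Filter Topology
open scoped Real

namespace Pool.Agent.MP_f259ea_nt

lemma ne_neg_nat_of_re_pos {s : ℂ} (hs : 0 < s.re) (m : ℕ) : s ≠ -m := by
  intro h
  rw [h] at hs
  simp only [neg_re, natCast_re] at hs
  linarith [m.cast_nonneg (α := ℝ)]

lemma digamma_add_nat {s : ℂ} (hs : 0 < s.re) (n : ℕ) :
    digamma (s + n) = digamma s + ∑ j ∈ Finset.range n, (s + j)⁻¹ := by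
  induction n with
  | zero => simp
  | succ n ih =>
    rw [Finset.sum_range_succ, ← add_assoc, ← ih, Nat.cast_succ, ← add_assoc,
      digamma_apply_add_one]
    refine ne_neg_nat_of_re_pos ?_
    simp only [add_re, natCast_re]
    linarith [n.cast_nonneg (α := ℝ)]

lemma digamma_ofReal_bounds {y : ℝ} (hy : 1 < y) :
    ∃ r : ℝ, digamma y = r ∧ Real.log (y - 1) ≤ r ∧ r ≤ Real.log y := by
  have hy0 : 0 < y := by linarith
  have hd : DifferentiableAt ℂ Gamma (y : ℂ) :=
    differentiableAt_Gamma _ (ne_neg_nat_of_re_pos (by simpa using hy0))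
  have hr : DifferentiableAt ℝ Real.Gamma y :=
    Real.differentiableAt_Gamma fun m => by linarith [m.cast_nonneg (α := ℝ)]
  have h1 : HasDerivAt (fun x : ℝ => Gamma (x : ℂ)) (deriv Gamma (y : ℂ)) y :=
    hd.hasDerivAt.comp_ofReal
  have h2 : HasDerivAt (fun x : ℝ => Gamma (x : ℂ)) ((deriv Real.Gamma y : ℝ) : ℂ) y := by
    simp only [Gamma_ofReal]
    exact hr.hasDerivAt.ofReal_comp
  have hpos := Real.Gamma_pos_of_pos hy0
  have h3 : HasDerivAt (Real.log ∘ Real.Gamma) (deriv Real.Gamma y / Real.Gamma y) y :=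
    hr.hasDerivAt.log hpos.ne'
  refine ⟨deriv Real.Gamma y / Real.Gamma y, ?_, ?_, ?_⟩
  · rw [digamma_def, logDeriv_apply, h1.unique h2, Gamma_ofReal]; push_cast; rfl
  · have := Real.convexOn_log_Gamma.slope_le_of_hasDerivAt (x := y - 1) (y := y)
      (by simp only [mem_Ioi]; linarith) hy0 (by linarith) h3
    refine le_trans (le_of_eq ?_) this
    have e : Real.Gamma y = (y - 1) * Real.Gamma (y - 1) := by
      rw [← Real.Gamma_add_one (by linarith)]; congr 1; ring
    rw [slope_def_field]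
    simp only [Function.comp_apply]
    rw [e, Real.log_mul (by linarith) (Real.Gamma_pos_of_pos (by linarith)).ne']
    simp
  · have := Real.convexOn_log_Gamma.le_slope_of_hasDerivAt (x := y) (y := y + 1)
      hy0 (by simp only [mem_Ioi]; linarith) (by linarith) h3
    refine this.trans (le_of_eq ?_)
    rw [slope_def_field]
    simp only [Function.comp_apply]
    rw [Real.Gamma_add_one hy0.ne', Real.log_mul hy0.ne' hpos.ne']
    simp

lemma digamma_diff_tendsto {x : ℝ} (hx : 0 < x) (hx2 : x ≤ 2) :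
    Tendsto (fun n : ℕ => digamma ((x : ℂ) + n) - digamma (1 + n)) atTop (𝓝 0) := by
  have hlim : Tendsto (fun n : ℕ => 3 / ((n : ℝ) - 1)) atTop (𝓝 0) :=
    tendsto_const_nhds.div_atTop (tendsto_atTop_add_const_right _ (-1) tendsto_natCast_atTop_atTop)
  refine squeeze_zero_norm' ?_ hlim
  filter_upwards [eventually_ge_atTop 2] with n hn
  have hn' : (2 : ℝ) ≤ n := by exact_mod_cast hn
  obtain ⟨r, h1, h2, h3⟩ := digamma_ofReal_bounds (y := x + n) (by linarith)
  obtain ⟨r', h1', h2', h3'⟩ := digamma_ofReal_bounds (y := 1 + n) (by linarith)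
  push_cast at h1 h1'
  rw [h1, h1', ← ofReal_sub, norm_real, Real.norm_eq_abs]
  have a1 : Real.log ((n : ℝ) - 1) ≤ Real.log (x + n - 1) := Real.log_le_log (by linarith) (by linarith)
  have a2 : Real.log ((n : ℝ) - 1) ≤ Real.log (1 + n - 1) := Real.log_le_log (by linarith) (by linarith)
  have a3 : Real.log (x + n) ≤ Real.log (n + 2) := Real.log_le_log (by linarith) (by linarith)
  have a4 : Real.log (1 + n) ≤ Real.log (n + 2) := Real.log_le_log (by linarith) (by linarith)
  have a5 : Real.log (((n : ℝ) + 2) / (n - 1)) ≤ (n + 2) / (n - 1) - 1 :=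
    Real.log_le_sub_one_of_pos (div_pos (by linarith) (by linarith))
  rw [Real.log_div (by linarith) (by linarith)] at a5
  have a6 : ((n : ℝ) + 2) / (n - 1) - 1 = 3 / (n - 1) := by
    have : (n : ℝ) - 1 ≠ 0 := by linarith
    field_simp; ring
  rw [abs_le]
  constructor <;> linarith

/-- the terms of the digamma series -/
noncomputable def dgTerm (j : ℕ) (s : ℂ) : ℂ := ((1 : ℂ) + j)⁻¹ - (s + j)⁻¹

lemma norm_dgTerm {s : ℂ} (hs : 0 < s.re) (j : ℕ) :
    ‖dgTerm j s‖ ≤ ‖s - 1‖ / ((1 + j) * (s.re + j)) := by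
  have hj : (0 : ℝ) ≤ j := j.cast_nonneg
  have h1 : s.re + j ≤ ‖s + j‖ := by simpa using re_le_norm (s + j)
  have h2 : s + j ≠ 0 := norm_pos_iff.1 (by linarith)
  have h3 : ‖(1 : ℂ) + j‖ = 1 + j := by
    rw [show (1 : ℂ) + j = ((1 + j : ℝ) : ℂ) by push_cast; rfl, norm_real,
      Real.norm_of_nonneg (by linarith)]
  have h4 : (1 : ℂ) + j ≠ 0 := norm_pos_iff.1 (by linarith)
  have e : dgTerm j s = (s - 1) / ((1 + j) * (s + j)) := by
    unfold dgTerm; field_simp; ring
  rw [e, norm_div, norm_mul, h3]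
  gcongr

lemma digamma_series {s : ℂ} (hs : 1 / 8 < s.re) :
    Tendsto (fun n => ∑ j ∈ Finset.range n, dgTerm j s) atTop (𝓝 (digamma s - digamma 1)) := by
  set R : ℝ := ‖s‖ + 2 with hR
  let U : Set ℂ := {z | 1 / 8 < z.re} ∩ Metric.ball 0 R
  have hUo : IsOpen U := (isOpen_lt continuous_const continuous_re).inter Metric.isOpen_ball
  have hUc : IsPreconnected U :=
    ((convex_halfSpace_re_gt (1 / 8)).inter (convex_ball 0 R)).isPreconnected
  have hsU : s ∈ U := ⟨hs, by simp [hR]⟩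
  have h1U : (1 : ℂ) ∈ U := ⟨by norm_num, by
    simp only [Metric.mem_ball, dist_zero_right, norm_one]; linarith [norm_nonneg s]⟩
  have hsum : Summable fun j : ℕ => 8 * (R + 1) * (1 / ((j : ℝ) + 1) ^ 2) := by
    refine Summable.mul_left _ ?_
    have := (summable_nat_add_iff 1).2 (Real.summable_one_div_nat_pow.2 one_lt_two)
    simpa using this
  have hbd : ∀ (j : ℕ) (z : ℂ), z ∈ U → ‖dgTerm j z‖ ≤ 8 * (R + 1) * (1 / ((j : ℝ) + 1) ^ 2) := by
    intro j z hz
    have hz1 : 1 / 8 < z.re := hz.1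
    have hz2 : ‖z‖ < R := by simpa using hz.2
    have hj : (0 : ℝ) ≤ j := j.cast_nonneg
    refine (norm_dgTerm (by linarith) j).trans ?_
    have h1 : ‖z - 1‖ ≤ R + 1 := (norm_sub_le _ _).trans (by rw [norm_one]; linarith)
    calc ‖z - 1‖ / ((1 + j) * (z.re + j)) ≤ (R + 1) / ((1 + j) * ((1 + j) / 8)) := by
          refine div_le_div₀ (by linarith [norm_nonneg (z - 1)]) h1 (by positivity) ?_
          exact mul_le_mul_of_nonneg_left (by linarith) (by linarith)
      _ = _ := by field_simp; ring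
  have hF : DifferentiableOn ℂ (fun z => ∑' j, dgTerm j z) U := by
    refine differentiableOn_tsum_of_summable_norm hsum (fun j z hz => ?_) hUo hbd
    have hz1 : 1 / 8 < z.re := hz.1
    have h2 : z + j ≠ 0 := fun h => ne_neg_nat_of_re_pos (s := z) (by linarith) j
      (eq_neg_of_add_eq_zero_left h)
    have h3 : DifferentiableAt ℂ (fun w : ℂ => w + j) z := differentiableAt_id.add_const _
    exact ((differentiableAt_const _).sub (h3.inv h2)).differentiableWithinAt
  have hG : AnalyticOnNhd ℂ Gamma U := by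
    refine DifferentiableOn.analyticOnNhd (fun z hz => ?_) hUo
    have hz1 : 1 / 8 < z.re := hz.1
    exact (differentiableAt_Gamma _ (ne_neg_nat_of_re_pos (by linarith))).differentiableWithinAt
  have hψ : AnalyticOnNhd ℂ (fun z => digamma z - digamma 1) U := by
    refine AnalyticOnNhd.sub ?_ analyticOnNhd_const
    refine hG.deriv.div hG fun z hz => ?_
    have hz1 : 1 / 8 < z.re := hz.1
    exact Gamma_ne_zero (ne_neg_nat_of_re_pos (by linarith))
  have hlim : ∀ z ∈ U, Tendsto (fun n => ∑ j ∈ Finset.range n, dgTerm j z) atTop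
      (𝓝 (∑' j, dgTerm j z)) := fun z hz =>
    (Summable.of_norm_bounded hsum fun j => hbd j z hz).hasSum.tendsto_sum_nat
  have hreal : ∀ x : ℝ, 1 / 8 < x → x < 2 → ∑' j, dgTerm j x = digamma x - digamma 1 := by
    intro x h1 h2
    have hxU : (x : ℂ) ∈ U := ⟨by simpa using h1, by
      simp only [Metric.mem_ball, dist_zero_right, norm_real, Real.norm_eq_abs]
      rw [abs_of_pos (by linarith)]; linarith [norm_nonneg s]⟩
    refine tendsto_nhds_unique (hlim _ hxU) ?_
    have := (digamma_diff_tendsto (x := x) (by linarith) h2.le).const_sub (digamma x - digamma 1)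
    rw [sub_zero] at this
    refine this.congr fun n => ?_
    rw [digamma_add_nat (by simp; linarith), digamma_add_nat (by simp)]
    simp only [dgTerm, Finset.sum_sub_distrib]
    ring
  have hfreq : ∃ᶠ z in 𝓝[≠] (1 : ℂ), ∑' j, dgTerm j z = digamma z - digamma 1 := by
    have ht : Tendsto (fun x : ℝ => (x : ℂ)) (𝓝[≠] 1) (𝓝[≠] 1) := by
      refine tendsto_nhdsWithin_iff.2 ⟨?_, ?_⟩
      · exact (continuous_ofReal.tendsto 1).mono_left nhdsWithin_le_nhds
      · filter_upwards [self_mem_nhdsWithin] with x hx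
        simpa using hx
    refine ht.frequently (Eventually.frequently ?_)
    filter_upwards [nhdsWithin_le_nhds (Ioo_mem_nhds (show (1 / 8 : ℝ) < 1 by norm_num) one_lt_two)]
      with x hx using hreal x hx.1 hx.2
  have := (hF.analyticOnNhd hUo).eqOn_of_preconnected_of_frequently_eq hψ hUc h1U hfreq hsU
  simp only at this
  rw [← this]
  exact hlim s hsU

lemma digamma_sub_log {s : ℂ} (hs : 1 / 8 < s.re) (hs1 : s.re ≤ 1) (hy : 1 ≤ s.im) :
    ‖digamma s - (Real.log s.im : ℝ)‖ ≤ ‖digamma 1‖ + 8 := by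
  set y := s.im with hydef
  set n := ⌈y⌉₊ + 1 with hn
  have hn1 : y + 1 ≤ n := by rw [hn]; push_cast; linarith [Nat.le_ceil y]
  have hn2 : (n : ℝ) ≤ 3 * y := by
    rw [hn]; push_cast; linarith [Nat.ceil_lt_add_one (show 0 ≤ y by linarith)]
  have hn0 : (0 : ℝ) < n := by linarith
  have hs2 : ‖s - 1‖ ≤ n := by
    refine (norm_le_abs_re_add_abs_im _).trans ?_
    simp only [sub_re, one_re, sub_im, one_im, sub_zero]
    rw [abs_of_nonpos (by linarith), abs_of_pos (by linarith)]
    linarith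
  have hA : ‖∑ j ∈ Finset.range n, dgTerm j s - (Real.log y : ℝ)‖ ≤ 7 := by
    have e : ∑ j ∈ Finset.range n, dgTerm j s - (Real.log y : ℝ) =
        (((harmonic n : ℝ) - Real.log y : ℝ) : ℂ) - ∑ j ∈ Finset.range n, (s + j)⁻¹ := by
      simp only [dgTerm, Finset.sum_sub_distrib, harmonic]
      push_cast
      simp only [add_comm (1 : ℂ)]
      ring
    rw [e]
    refine (norm_sub_le _ _).trans ?_
    have h1 : ‖∑ j ∈ Finset.range n, (s + j)⁻¹‖ ≤ 3 := by
      refine (norm_sum_le_of_le _ (n := fun _ => y⁻¹) fun j _ => ?_).trans ?_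
      · rw [norm_inv]
        refine inv_anti₀ (by linarith) ?_
        simpa using im_le_norm (s + j)
      · simp only [Finset.sum_const, Finset.card_range, nsmul_eq_mul]
        rw [← div_eq_mul_inv, div_le_iff₀ (by linarith)]; exact hn2
    have h2 := log_add_one_le_harmonic n
    have h3 := harmonic_le_one_add_log n
    push_cast at h2
    have h4 : Real.log y ≤ Real.log (n + 1) := Real.log_le_log (by linarith) (by linarith)
    have h5 : Real.log n ≤ Real.log 3 + Real.log y := by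
      rw [← Real.log_mul (by norm_num) (by linarith)]
      exact Real.log_le_log hn0 hn2
    have h6 : Real.log 3 ≤ 2 := by
      linarith [Real.log_le_sub_one_of_pos (show (0 : ℝ) < 3 by norm_num)]
    rw [norm_real, Real.norm_eq_abs, abs_of_nonneg (by linarith)]
    linarith
  have hB : ∀ m : ℕ, ‖∑ j ∈ Finset.range (n + m), dgTerm j s - (Real.log y : ℝ)‖ ≤
      8 - n / (n + m) := by
    intro m
    induction m with
    | zero => simp only [add_zero, Nat.cast_zero, div_self hn0.ne']; linarith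
    | succ m ih =>
      rw [← add_assoc, Finset.sum_range_succ, add_sub_right_comm]
      refine (norm_add_le _ _).trans ?_
      have hm : (0 : ℝ) ≤ m := m.cast_nonneg
      have h1 := norm_dgTerm (s := s) (by linarith) (n + m)
      have h2 : ‖s - 1‖ / ((1 + (n + m : ℕ)) * (s.re + (n + m : ℕ))) ≤
          n / ((1 + (n + m)) * (n + m)) := by
        push_cast
        refine div_le_div₀ hn0.le hs2 (by positivity) ?_
        exact mul_le_mul_of_nonneg_left (by linarith) (by linarith)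
      have h3 : (n : ℝ) / ((1 + (n + m)) * (n + m)) = n / (n + m) - n / (n + (m + 1 : ℕ)) := by
        push_cast; field_simp; ring
      linarith
  have hC : ‖digamma s - digamma 1 - (Real.log y : ℝ)‖ ≤ 8 := by
    have ht := ((digamma_series hs).comp (tendsto_add_atTop_nat n)).sub_const
      ((Real.log y : ℝ) : ℂ)
    refine le_of_tendsto ht.norm (Eventually.of_forall fun m => ?_)
    have := hB m
    have h0 : (0 : ℝ) ≤ n / (n + m) := by positivity
    simp only [Function.comp_apply, add_comm m n]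
    linarith
  calc ‖digamma s - (Real.log y : ℝ)‖ = ‖digamma 1 + (digamma s - digamma 1 - (Real.log y : ℝ))‖ := by
        congr 1; ring
    _ ≤ _ := (norm_add_le _ _).trans (by linarith)

lemma logDeriv_Gammaℝ {s : ℂ} (hs : 0 < s.re) :
    logDeriv Gammaℝ s = -(Complex.log π) / 2 + digamma (s / 2) / 2 := by
  have hs2 : 0 < (s / 2).re := by simp; linarith
  have hπ : (π : ℂ) ≠ 0 := by exact_mod_cast Real.pi_ne_zero
  have h1 : HasDerivAt (fun z : ℂ => (π : ℂ) ^ (-z / 2)) ((π : ℂ) ^ (-s / 2) * Complex.log π * (-1 / 2))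
      s := ((hasDerivAt_id' s).neg.div_const 2).const_cpow (Or.inl hπ)
  have h2 : HasDerivAt (fun z : ℂ => Gamma (z / 2)) (deriv Gamma (s / 2) * (1 / 2)) s :=
    (differentiableAt_Gamma _ (ne_neg_nat_of_re_pos hs2)).hasDerivAt.comp s
      ((hasDerivAt_id' s).div_const 2)
  have h3 : HasDerivAt Gammaℝ _ s := h1.fun_mul h2
  have h4 : (π : ℂ) ^ (-s / 2) ≠ 0 := by
    rw [Ne, cpow_eq_zero_iff]; tauto
  have h5 := Gamma_ne_zero (ne_neg_nat_of_re_pos hs2)
  rw [logDeriv_apply, h3.deriv, digamma_def, logDeriv_apply, Gammaℝ_def]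
  field_simp

lemma logDeriv_Gammaℝ_bound {σ t : ℝ} (h1 : 1 / 2 ≤ σ) (h2 : σ ≤ 2) (ht : 2 ≤ t) :
    ‖logDeriv Gammaℝ (σ + t * I) - ((Real.log t / 2 : ℝ) : ℂ)‖ ≤
      ‖Complex.log π‖ + ‖digamma 1‖ + 9 := by
  rw [logDeriv_Gammaℝ (by simp; linarith)]
  have e1 : ((σ + t * I : ℂ) / 2).re = σ / 2 := by simp
  have e2 : ((σ + t * I : ℂ) / 2).im = t / 2 := by simp
  have h3 := digamma_sub_log (s := (σ + t * I) / 2) (by rw [e1]; linarith) (by rw [e1]; linarith)
    (by rw [e2]; linarith)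
  rw [e2, Real.log_div (by linarith) (by norm_num)] at h3
  have e : -(Complex.log π) / 2 + digamma ((σ + t * I) / 2) / 2 - ((Real.log t / 2 : ℝ) : ℂ) =
      (-(Complex.log π) + (digamma ((σ + t * I) / 2) - ((Real.log t - Real.log 2 : ℝ) : ℂ))
        - ((Real.log 2 : ℝ) : ℂ)) / 2 := by
    push_cast; ring
  rw [e, norm_div]
  have h4 := norm_sub_le (-(Complex.log π) + (digamma ((σ + t * I) / 2) -
    ((Real.log t - Real.log 2 : ℝ) : ℂ))) ((Real.log 2 : ℝ) : ℂ)
  have h5 := norm_add_le (-(Complex.log π)) (digamma ((σ + t * I) / 2) -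
    ((Real.log t - Real.log 2 : ℝ) : ℂ))
  have h6 : ‖((Real.log 2 : ℝ) : ℂ)‖ ≤ 1 := by
    rw [norm_real, Real.norm_of_nonneg (Real.log_nonneg one_le_two)]
    linarith [Real.log_le_sub_one_of_pos (show (0 : ℝ) < 2 by norm_num)]
  rw [norm_neg] at h5
  have := norm_nonneg (Complex.log π)
  have := norm_nonneg (digamma 1)
  simp only [Complex.norm_ofNat]
  linarith

theorem stmtDigamma : StmtDigamma := by
  intro N χ
  refine ⟨‖Complex.log π‖ + ‖digamma 1‖ + 9, fun t ht => ?_⟩
  by_cases hχ : χ.Even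
  · have e : DirichletCharacter.gammaFactor χ = Gammaℝ := funext fun s => hχ.gammaFactor_def s
    have := logDeriv_Gammaℝ_bound (σ := 1 / 2) le_rfl (by norm_num) ht
    rw [e]
    convert this using 4
    push_cast; rfl
  · have e : DirichletCharacter.gammaFactor χ = fun s => Gammaℝ (s + 1) := funext fun s => by
      simp [DirichletCharacter.gammaFactor, hχ]
    have := logDeriv_Gammaℝ_bound (σ := 3 / 2) (by norm_num) (by norm_num) ht
    rw [e, logDeriv_apply, deriv_comp_add_const, ← logDeriv_apply]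
    convert this using 4
    push_cast; ring

end Pool.Agent.MP_f259ea_nt

end
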