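import Pool.Agent.Mg.Ff259ea.Gae27b5

section

set_option autoImplicit false

open Complex MeasureTheory Set Filter Topology
open scoped Real ComplexConjugate

namespace Pool.Agent.MP_f259ea_nt

theorem norm_exp_I (k u t : ℝ) : ‖Complex.exp (k * I * u * t)‖ = 1 := by
  rw [show (k * I * u * t : ℂ) = ((k * u * t : ℝ) : ℂ) * I by push_cast; ring]
  exact Complex.norm_exp_ofReal_mul_I _

theorem swap_exp {f g : ℝ → ℂ} (hf : Integrable f) (hg : Integrable g) (k : ℝ) :
    ∫ u : ℝ, (∫ t : ℝ, f t * Complex.exp (k * I * u * t)) * g u =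
      ∫ t : ℝ, f t * ∫ u : ℝ, g u * Complex.exp (k * I * u * t) := by
  simp_rw [← integral_mul_const, ← integral_const_mul]
  rw [integral_integral_swap]
  · congr 1; funext t; congr 1; funext u; ring
  · refine (hg.norm.mul_prod hf.norm).mono' ?_ (Eventually.of_forall fun z => ?_)
    · refine (hf.1.comp_snd.mul ?_).mul hg.1.comp_fst
      exact (by fun_prop : Continuous fun z : ℝ × ℝ =>
        Complex.exp (k * I * z.1 * z.2)).aestronglyMeasurable
    · simp only [Function.uncurry, norm_mul, norm_exp_I]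
      rw [mul_one, mul_comm]

theorem gauss_norm {r : ℝ} (hr : 0 < r) (x : ℝ) :
    ‖∫ u : ℝ, Complex.exp (-(π * r) * u ^ 2) * Complex.exp (2 * π * I * u * x)‖ =
      (√r)⁻¹ * Real.exp (-(π / r) * x ^ 2) := by
  have h := integral_cexp_quadratic (b := -(π * r)) (by
    have := Real.pi_pos
    simp only [neg_re, mul_re, ofReal_re, ofReal_im, mul_zero, sub_zero]
    nlinarith) (2 * π * I * x) 0
  have e : (fun u : ℝ => Complex.exp (-(π * r) * u ^ 2) * Complex.exp (2 * π * I * u * x)) =
      fun u : ℝ => Complex.exp (-(π * r) * u ^ 2 + 2 * π * I * x * u + 0) := by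
    funext u; rw [← Complex.exp_add]; congr 1; ring
  have hπ : (π : ℂ) ≠ 0 := ofReal_ne_zero.2 Real.pi_ne_zero
  have hr' : (r : ℂ) ≠ 0 := ofReal_ne_zero.2 hr.ne'
  rw [e, h, norm_mul]
  congr 1
  · rw [show (π / -(-(π * r)) : ℂ) = ((r⁻¹ : ℝ) : ℂ) by push_cast; field_simp,
      show (1 / 2 : ℂ) = ((1 / 2 : ℝ) : ℂ) by push_cast; rfl,
      ← ofReal_cpow (inv_nonneg.2 hr.le), norm_real, Real.norm_of_nonneg (by positivity),
      ← Real.sqrt_eq_rpow, Real.sqrt_inv]
  · rw [show (0 - (2 * π * I * x) ^ 2 / (4 * -(π * r)) : ℂ) = ((-(π / r) * x ^ 2 : ℝ) : ℂ) by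
      push_cast; field_simp; rw [I_sq]; ring, ← ofReal_exp, norm_real,
      Real.norm_of_nonneg (Real.exp_pos _).le]

theorem planch_gauss {f : ℝ → ℂ} (hf : Integrable f) {M : ℝ} (hM : ∀ t, ‖f t‖ ≤ M) {r : ℝ}
    (hr : 0 < r) : ∫ u : ℝ, ‖∫ t : ℝ, f t * Complex.exp (2 * π * I * u * t)‖ ^ 2 *
      Real.exp (-(π * r) * u ^ 2) ≤ M * ∫ t, ‖f t‖ := by
  have e2 : ∀ u t : ℝ, Complex.exp (2 * π * I * u * t) =
      Complex.exp ((2 * π : ℝ) * I * u * t) := fun u t => by push_cast; rfl
  set G : ℝ → ℂ := fun u => ∫ t : ℝ, f t * Complex.exp (2 * π * I * u * t) with hG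
  have hGc : Continuous G := by
    refine continuous_of_dominated (bound := fun t => ‖f t‖) (fun u => hf.1.mul
      (by fun_prop : Continuous fun t : ℝ =>
        Complex.exp (2 * π * I * u * t)).aestronglyMeasurable)
      (fun u => Eventually.of_forall fun t => ?_) hf.norm (Eventually.of_forall fun t => ?_)
    · rw [norm_mul, e2, norm_exp_I, mul_one]
    · fun_prop
  have hGb : ∀ u, ‖G u‖ ≤ ∫ t, ‖f t‖ := fun u => (norm_integral_le_integral_norm _).trans (by
    simp_rw [norm_mul, e2, norm_exp_I, mul_one]; rfl)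
  have hφ : Integrable fun u : ℝ => Complex.exp (-(π * r) * u ^ 2) :=
    integrable_cexp_neg_mul_sq (by
      have := Real.pi_pos
      simp only [mul_re, ofReal_re, ofReal_im, mul_zero, sub_zero]
      positivity)
  have hcG : ∀ u, conj (G u) = ∫ t : ℝ, conj (f t) * Complex.exp ((-(2 * π) : ℝ) * I * u * t) := by
    intro u
    rw [hG, ← integral_conj]
    congr 1; funext t
    rw [map_mul, ← Complex.exp_conj]
    congr 2
    simp [map_ofNat]
  have hcf : Integrable fun t => conj (f t) := by
    refine hf.norm.mono' ?_ (Eventually.of_forall fun t => by simp)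
    exact continuous_conj.comp_aestronglyMeasurable hf.1
  have h1 : Integrable fun u : ℝ => conj (G u) * Complex.exp (-(π * r) * u ^ 2) :=
    hφ.bdd_mul (c := ∫ t, ‖f t‖) (continuous_conj.comp hGc).aestronglyMeasurable
      (Eventually.of_forall fun u => by simpa using hGb u)
  have h2 : ∀ t : ℝ, ‖∫ u : ℝ, conj (G u) * Complex.exp (-(π * r) * u ^ 2) *
      Complex.exp ((2 * π : ℝ) * I * u * t)‖ ≤ M := by
    intro t
    have h3 : Integrable fun u : ℝ => Complex.exp (-(π * r) * u ^ 2) *
        Complex.exp ((2 * π : ℝ) * I * u * t) :=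
      hφ.mul_bdd (c := 1) (by fun_prop : Continuous fun u : ℝ =>
        Complex.exp ((2 * π : ℝ) * I * u * t)).aestronglyMeasurable
        (Eventually.of_forall fun u => (norm_exp_I _ _ _).le)
    simp_rw [mul_assoc (conj (G _)), hcG]
    rw [swap_exp hcf h3]
    have h4 : ∀ s : ℝ, ‖∫ u : ℝ, Complex.exp (-(π * r) * u ^ 2) *
        Complex.exp ((2 * π : ℝ) * I * u * t) * Complex.exp ((-(2 * π) : ℝ) * I * u * s)‖ =
        (√r)⁻¹ * Real.exp (-(π / r) * (s - t) ^ 2) := by
      intro s
      rw [show (s - t) ^ 2 = (t - s) ^ 2 by ring, ← gauss_norm hr]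
      congr 2; funext u
      rw [mul_assoc, ← Complex.exp_add]
      congr 2
      push_cast; ring
    have h5 : Integrable fun s : ℝ => Real.exp (-(π / r) * (s - t) ^ 2) :=
      (integrable_exp_neg_mul_sq (div_pos Real.pi_pos hr)).comp_sub_right t
    refine (norm_integral_le_of_norm_le (g := fun s => M * ((√r)⁻¹ *
      Real.exp (-(π / r) * (s - t) ^ 2))) ((h5.const_mul _).const_mul _)
      (Eventually.of_forall fun s => ?_)).trans (le_of_eq ?_)
    · rw [norm_mul, h4]
      exact mul_le_mul_of_nonneg_right (by simpa using hM s) (by positivity)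
    · rw [integral_const_mul, integral_const_mul,
        integral_sub_right_eq_self (fun s => Real.exp (-(π / r) * s ^ 2)) t, integral_gaussian,
        show π / (π / r) = r by field_simp, inv_mul_cancel₀ (Real.sqrt_pos.2 hr).ne', mul_one]
  have h6 : ((∫ u : ℝ, ‖G u‖ ^ 2 * Real.exp (-(π * r) * u ^ 2) : ℝ) : ℂ) =
      ∫ u : ℝ, G u * (conj (G u) * Complex.exp (-(π * r) * u ^ 2)) := by
    rw [← integral_complex_ofReal]
    congr 1; funext u
    rw [← mul_assoc, Complex.mul_conj, Complex.normSq_eq_norm_sq]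
    simp
  refine (Real.le_norm_self _).trans ?_
  rw [← Complex.norm_real, h6]
  simp_rw [hG, e2] at h1 h2 ⊢
  rw [swap_exp hf h1, ← integral_const_mul]
  refine norm_integral_le_of_norm_le (hf.norm.const_mul _) (Eventually.of_forall fun t => ?_)
  rw [norm_mul, mul_comm]
  exact mul_le_mul_of_nonneg_right (h2 t) (norm_nonneg _)

theorem stmtPlanch : StmtPlanch := by
  intro F a b M Y hab hY hF hM
  have hM0 : 0 ≤ M := (norm_nonneg _).trans (hM a ⟨le_rfl, hab⟩)
  let f : ℝ → ℂ := (Ioc a b).indicator F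
  have hf : Integrable f := (integrable_indicator_iff measurableSet_Ioc).2
    (hF.integrableOn_Icc.mono_set Ioc_subset_Icc_self)
  have hfM : ∀ t, ‖f t‖ ≤ (Ioc a b).indicator (fun _ => M) t := fun t => by
    by_cases h : t ∈ Ioc a b
    · simpa [f, h] using hM t (Ioc_subset_Icc_self h)
    · simp [f, h]
  have h1 : ∫ t, ‖f t‖ ≤ M * (b - a) := by
    refine (integral_mono hf.norm ((integrable_indicator_iff measurableSet_Ioc).2
      (by simp)) hfM).trans (le_of_eq ?_)
    rw [integral_indicator_const _ measurableSet_Ioc]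
    simp [hab, mul_comm]
  have e : ∀ u : ℝ, ∫ t in a..b, F t * Complex.exp (2 * π * I * u * t) =
      ∫ t : ℝ, f t * Complex.exp (2 * π * I * u * t) := fun u => by
    rw [intervalIntegral.integral_of_le hab, ← integral_indicator measurableSet_Ioc]
    congr 1; funext t
    by_cases h : t ∈ Ioc a b <;> simp [f, h]
  simp_rw [e]
  have e2 : ∀ u t : ℝ, Complex.exp (2 * π * I * u * t) =
      Complex.exp ((2 * π : ℝ) * I * u * t) := fun u t => by push_cast; rfl
  set G : ℝ → ℂ := fun u => ∫ t : ℝ, f t * Complex.exp (2 * π * I * u * t) with hG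
  have hGc : Continuous G := by
    refine continuous_of_dominated (bound := fun t => ‖f t‖) (fun u => hf.1.mul
      (by fun_prop : Continuous fun t : ℝ =>
        Complex.exp (2 * π * I * u * t)).aestronglyMeasurable)
      (fun u => Eventually.of_forall fun t => ?_) hf.norm (Eventually.of_forall fun t => ?_)
    · rw [norm_mul, e2, norm_exp_I, mul_one]
    · fun_prop
  have hGb : ∀ u, ‖G u‖ ≤ ∫ t, ‖f t‖ := fun u => (norm_integral_le_integral_norm _).trans (by
    simp_rw [norm_mul, e2, norm_exp_I, mul_one]; rfl)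
  have key : ∀ r : ℝ, 0 < r → ∫ u in (-Y)..Y, ‖G u‖ ^ 2 ≤
      Real.exp (π * r * Y ^ 2) * (M ^ 2 * (b - a)) := by
    intro r hr
    have hi : Integrable fun u : ℝ => ‖G u‖ ^ 2 * Real.exp (-(π * r) * u ^ 2) :=
      (integrable_exp_neg_mul_sq (mul_pos Real.pi_pos hr)).bdd_mul (c := (∫ t, ‖f t‖) ^ 2)
        (by fun_prop) (Eventually.of_forall fun u => by
          rw [norm_pow, norm_norm]
          exact pow_le_pow_left₀ (norm_nonneg _) (hGb u) 2)
    have h2 := planch_gauss hf (fun t => (hfM t).trans (indicator_le_self' (fun _ _ => hM0) t)) hr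
    calc ∫ u in (-Y)..Y, ‖G u‖ ^ 2
        ≤ ∫ u in (-Y)..Y, Real.exp (π * r * Y ^ 2) * (‖G u‖ ^ 2 * Real.exp (-(π * r) * u ^ 2)) := by
          refine intervalIntegral.integral_mono_on (by linarith)
            (Continuous.intervalIntegrable (by fun_prop) _ _)
            (Continuous.intervalIntegrable (by fun_prop) _ _) fun u hu => ?_
          rw [mul_left_comm, ← Real.exp_add]
          refine le_mul_of_one_le_right (by positivity) (Real.one_le_exp ?_)
          have : u ^ 2 ≤ Y ^ 2 := sq_le_sq' hu.1 hu.2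
          have := mul_pos Real.pi_pos hr
          nlinarith
      _ ≤ Real.exp (π * r * Y ^ 2) * ∫ u : ℝ, ‖G u‖ ^ 2 * Real.exp (-(π * r) * u ^ 2) := by
          rw [intervalIntegral.integral_const_mul, intervalIntegral.integral_of_le (by linarith)]
          exact mul_le_mul_of_nonneg_left (setIntegral_le_integral hi
            (Eventually.of_forall fun u => by positivity)) (Real.exp_pos _).le
      _ ≤ _ := by
          refine mul_le_mul_of_nonneg_left (h2.trans ?_) (Real.exp_pos _).le
          rw [sq, mul_assoc]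
          exact mul_le_mul_of_nonneg_left h1 hM0
  have ht : Tendsto (fun r : ℝ => Real.exp (π * r * Y ^ 2) * (M ^ 2 * (b - a))) (𝓝[>] 0)
      (𝓝 (M ^ 2 * (b - a))) := by
    have : Continuous fun r : ℝ => Real.exp (π * r * Y ^ 2) * (M ^ 2 * (b - a)) := by fun_prop
    simpa using (this.tendsto 0).mono_left nhdsWithin_le_nhds
  exact ge_of_tendsto ht (eventually_nhdsWithin_of_forall key)

end Pool.Agent.MP_f259ea_nt

end

section

set_option autoImplicit false

open Complex MeasureTheory Set Filter Topology FourierTransform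
open scoped Real ComplexConjugate ContDiff

namespace Pool.Agent.MP_f259ea_nt

/-- The Fourier-Laplace transform. -/
noncomputable def om (g : ℝ → ℂ) (z : ℂ) : ℂ := ∫ x : ℝ, g x * Complex.exp (-(2 * π * I * x * z))

theorem norm_exp_om (x : ℝ) (z : ℂ) :
    ‖Complex.exp (-(2 * π * I * x * z))‖ = Real.exp (2 * π * x * z.im) := by
  rw [Complex.norm_exp]
  congr 1
  simp

theorem hcs_of {g : ℝ → ℂ} {R : ℝ} (h : ∀ x, R ≤ |x| → g x = 0) : HasCompactSupport g :=
  HasCompactSupport.intro (isCompact_Icc (a := -R) (b := R)) fun x hx => h x (by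
    by_contra h'
    exact hx ⟨(abs_lt.1 (not_le.1 h')).1.le, (abs_lt.1 (not_le.1 h')).2.le⟩)

theorem om_integrable {g : ℝ → ℂ} (hg : Continuous g) (hc : HasCompactSupport g) (z : ℂ) :
    Integrable fun x : ℝ => g x * Complex.exp (-(2 * π * I * x * z)) :=
  Continuous.integrable_of_hasCompactSupport (by fun_prop) hc.mul_right

theorem om_differentiable {g : ℝ → ℂ} (hg : Continuous g) {R : ℝ}
    (h : ∀ x, R ≤ |x| → g x = 0) : Differentiable ℂ (om g) := by
  intro z₀
  have hc := hcs_of h
  refine (hasDerivAt_integral_of_dominated_loc_of_deriv_le (μ := volume)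
    (F := fun (z : ℂ) (x : ℝ) => g x * Complex.exp (-(2 * π * I * x * z)))
    (F' := fun (z : ℂ) (x : ℝ) => g x * (Complex.exp (-(2 * π * I * x * z)) * -(2 * π * I * x)))
    (bound := fun x => ‖g x‖ * (Real.exp (2 * π * (R * (‖z₀‖ + 1))) * ‖-(2 * π * I * x : ℂ)‖))
    (Metric.ball_mem_nhds z₀ one_pos)
    (Eventually.of_forall fun z => (om_integrable hg hc z).1) (om_integrable hg hc z₀)
    (Continuous.aestronglyMeasurable (by fun_prop)) (Eventually.of_forall fun x z hz => ?_)
    (Continuous.integrable_of_hasCompactSupport (by fun_prop) hc.norm.mul_right)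
    (Eventually.of_forall fun x z _ => ?_)).2.differentiableAt
  · by_cases hx : R ≤ |x|
    · simp [h x hx]
    · rw [norm_mul, norm_mul, norm_exp_om]
      have h1 : |z.im| ≤ ‖z₀‖ + 1 := (abs_im_le_norm z).trans (by
        have := norm_sub_norm_le z z₀
        rw [mem_ball_iff_norm] at hz
        linarith)
      have h2 : x * z.im ≤ R * (‖z₀‖ + 1) := (le_abs_self _).trans (by
        rw [abs_mul]
        exact mul_le_mul (not_le.1 hx).le h1 (abs_nonneg _)
          ((abs_nonneg _).trans (not_le.1 hx).le))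
      refine mul_le_mul_of_nonneg_left (mul_le_mul_of_nonneg_right (Real.exp_le_exp.2 ?_)
        (norm_nonneg _)) (norm_nonneg _)
      rw [mul_assoc]
      exact mul_le_mul_of_nonneg_left h2 (by positivity)
  · exact ((((hasDerivAt_id z).const_mul (2 * π * I * x : ℂ)).neg).cexp.const_mul (g x)).congr_deriv
      (by simp)

theorem om_deriv {g : ℝ → ℂ} (hg : ContDiff ℝ ∞ g) (hc : HasCompactSupport g) (z : ℂ) :
    om (deriv g) z = 2 * π * I * z * om g z := by
  have h1 := om_integrable hg.continuous hc z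
  have h2 := om_integrable (hg.continuous_deriv (by simp)) hc.deriv z
  have h := integral_eq_zero_of_hasDerivAt_of_integrable
    (f := fun x : ℝ => g x * Complex.exp (-(2 * π * I * x * z)))
    (f' := fun x : ℝ => deriv g x * Complex.exp (-(2 * π * I * x * z)) -
      2 * π * I * z * (g x * Complex.exp (-(2 * π * I * x * z)))) (fun x => ?_)
    (h2.sub (h1.const_mul _)) h1
  · rw [integral_sub h2 (h1.const_mul _), integral_const_mul] at h
    exact sub_eq_zero.1 h
  · have h3 : HasDerivAt (fun x : ℝ => Complex.exp (-(2 * π * I * x * z)))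
        (Complex.exp (-(2 * π * I * x * z)) * -(2 * π * I * z)) x := by
      have := (((hasDerivAt_id x).ofReal_comp.const_mul (2 * π * I : ℂ)).mul_const z).neg.cexp
      simpa using this
    exact ((hg.differentiable (by simp) x).hasDerivAt.mul h3).congr_deriv (by ring)

theorem om_decay (j : ℕ) : ∀ g : ℝ → ℂ, ContDiff ℝ ∞ g → (∀ x, 1 < |x| → g x = 0) →
    ∃ C, ∀ z : ℂ, |z.im| ≤ 1 → ‖om g z‖ * (1 + |z.re|) ^ j ≤ C := by
  induction j with
  | zero =>
    intro g hg h
    have hc : HasCompactSupport g := hcs_of (R := 2) fun x hx => h x (by linarith)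
    refine ⟨∫ x, ‖g x‖ * Real.exp (2 * π), fun z hz => ?_⟩
    rw [pow_zero, mul_one]
    refine norm_integral_le_of_norm_le (Continuous.integrable_of_hasCompactSupport
      (hg.continuous.norm.mul continuous_const) hc.norm.mul_right)
      (Eventually.of_forall fun x => ?_)
    by_cases hx : 1 < |x|
    · simp [h x hx]
    · rw [norm_mul, norm_exp_om]
      have h2 : x * z.im ≤ 1 := (le_abs_self _).trans (by
        rw [abs_mul]
        exact mul_le_one₀ (not_lt.1 hx) (abs_nonneg _) hz)
      refine mul_le_mul_of_nonneg_left (Real.exp_le_exp.2 ?_) (norm_nonneg _)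
      rw [mul_assoc]
      exact mul_le_of_le_one_right (by positivity) h2
  | succ j ih =>
    intro g hg h
    have hc : HasCompactSupport g := hcs_of (R := 2) fun x hx => h x (by linarith)
    obtain ⟨C, hC⟩ := ih g hg h
    obtain ⟨C', hC'⟩ := ih (deriv g) (contDiff_infty_iff_deriv.1 hg).2 fun x hx => by
      have : g =ᶠ[𝓝 x] fun _ => 0 :=
        mem_of_superset ((isOpen_lt continuous_const continuous_abs).mem_nhds
          (show x ∈ {x : ℝ | 1 < |x|} from hx)) h
      rw [this.deriv_eq, deriv_const]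
    refine ⟨C + C', fun z hz => ?_⟩
    have h1 := hC' z hz
    rw [om_deriv hg hc] at h1
    have h2 : |z.re| * ‖om g z‖ ≤ ‖2 * π * I * z * om g z‖ := by
      rw [norm_mul]
      refine mul_le_mul_of_nonneg_right ((abs_re_le_norm z).trans ?_) (norm_nonneg _)
      rw [norm_mul]
      refine le_mul_of_one_le_left (norm_nonneg _) ?_
      simp only [norm_mul, Complex.norm_ofNat, norm_real, norm_I, mul_one,
        Real.norm_of_nonneg Real.pi_pos.le]
      linarith [Real.pi_gt_three]
    have h3 := mul_le_mul_of_nonneg_right h2 (show 0 ≤ (1 + |z.re|) ^ j by positivity)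
    have h4 := hC z hz
    rw [pow_succ]
    nlinarith

theorem om_eq_fourier (g : ℝ → ℂ) (v t : ℝ) :
    om g (t + v * I) = 𝓕 (fun x : ℝ => g x * Complex.exp (2 * π * x * v)) t := by
  rw [Real.fourier_real_eq_integral_exp_smul]
  unfold om
  congr 1; funext x
  rw [smul_eq_mul, mul_left_comm, ← Complex.exp_add]
  congr 2
  push_cast
  linear_combination (-2 * π * x * v) * I_sq

theorem om_inv {g : ℝ → ℂ} (hg : Continuous g) (hc : HasCompactSupport g) (v : ℝ)
    (hi : Integrable fun t : ℝ => om g (t + v * I)) (u : ℝ) :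
    ∫ t : ℝ, om g (t + v * I) * Complex.exp (2 * π * I * u * (t + v * I)) = g u := by
  simp_rw [om_eq_fourier] at hi ⊢
  have hc' : Continuous fun x : ℝ => g x * Complex.exp (2 * π * x * v) := by fun_prop
  have h := congrFun (hc'.fourierInv_fourier_eq
    (hc'.integrable_of_hasCompactSupport hc.mul_right) hi) u
  rw [Real.fourierInv_eq'] at h
  have e : g u = (g u * Complex.exp (2 * π * u * v)) * Complex.exp (-(2 * π * u * v)) := by
    rw [mul_assoc, ← Complex.exp_add]; simp
  rw [e, ← h, ← integral_mul_const]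
  congr 1; funext t
  rw [smul_eq_mul, mul_comm (Complex.exp _), mul_assoc _ (Complex.exp _), ← Complex.exp_add]
  congr 2
  simp only [RCLike.inner_apply, conj_trivial]
  push_cast
  linear_combination (2 * π * u * v) * I_sq

theorem tail_le {ψ : ℝ → ℂ} (hψ : Continuous ψ) {C : ℝ} {k : ℕ}
    (h : ∀ x, ‖ψ x‖ * (1 + |x|) ^ (k + 2) ≤ C) {y : ℝ} (hy : 0 ≤ y) {T : Set ℝ}
    (hT : MeasurableSet T) (hTy : ∀ x ∈ T, y ≤ |x|) :
    Integrable ψ ∧ ‖∫ x in T, ψ x‖ * (1 + y) ^ k ≤ C * π := by
  have hC : 0 ≤ C := le_trans (by positivity) (h 0)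
  have key : ∀ x y, 0 ≤ y → y ≤ |x| → ‖ψ x‖ ≤ C / (1 + y) ^ k * (1 + x ^ 2)⁻¹ := by
    intro x y h0 h1
    rw [← div_eq_mul_inv, div_div, le_div_iff₀ (by positivity)]
    refine le_trans (mul_le_mul_of_nonneg_left ?_ (norm_nonneg _)) (h x)
    rw [pow_add]
    gcongr
    have := abs_nonneg x
    rw [← sq_abs x]
    nlinarith
  have hi := integrable_inv_one_add_sq
  refine ⟨(hi.const_mul _).mono' hψ.aestronglyMeasurable
    (Eventually.of_forall fun x => key x 0 le_rfl (abs_nonneg _)), ?_⟩
  rw [← le_div_iff₀ (by positivity)]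
  refine (norm_integral_le_of_norm_le (hi.const_mul (C / (1 + y) ^ k)).integrableOn
    ((ae_restrict_iff' hT).2 (Eventually.of_forall fun x hx => key x y hy (hTy x hx)))).trans ?_
  refine (setIntegral_le_integral (hi.const_mul _)
    (Eventually.of_forall fun x => by positivity)).trans (le_of_eq ?_)
  rw [integral_const_mul, integral_univ_inv_one_add_sq]
  ring

theorem stmtWeight : StmtWeight := by
  intro k
  let β : ContDiffBump (0 : ℝ) := ⟨1 / 2, 1, by norm_num, by norm_num⟩
  let b : ℝ → ℂ := fun x => (β x : ℝ)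
  have hb : ContDiff ℝ ∞ b := Complex.ofRealCLM.contDiff.comp β.contDiff
  have hb0 : ∀ x, 1 ≤ |x| → b x = 0 := fun x hx => by
    simp only [b]
    rw [β.zero_of_le_dist (by simpa [β] using hx), ofReal_zero]
  have hb1 : b 0 = 1 := by
    simp only [b]
    rw [β.one_of_mem_closedBall (by simp [β]), ofReal_one]
  have hbn : ∀ x, ‖b x‖ ≤ 1 := fun x => by
    simp only [b, norm_real, Real.norm_of_nonneg β.nonneg]
    exact β.le_one
  obtain ⟨C, hC⟩ := om_decay (k + 2 + 2) b hb fun x hx => hb0 x hx.le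
  have hC0 : 0 ≤ C := le_trans (by positivity) (hC 0 (by simp))
  have hπ := Real.pi_pos
  refine ⟨C * π * (4 * π) + 1, by positivity, fun H A B hH hAB => ?_⟩
  have hH0 : 0 < H := by linarith
  have hH' : (H : ℂ) ≠ 0 := ofReal_ne_zero.2 hH0.ne'
  let W : ℝ → ℂ := fun u => b (H * u) * ∫ s in A..B, Complex.exp (2 * π * I * u * s)
  have hWc : Continuous W := (hb.continuous.comp (by fun_prop)).mul
    (intervalIntegral.continuous_parametric_intervalIntegral_of_continuous' (by fun_prop) _ _)
  have hW0 : ∀ u, 1 / H ≤ |u| → W u = 0 := fun u hu => by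
    simp only [W]
    rw [hb0, zero_mul]
    rwa [abs_mul, abs_of_pos hH0, mul_comm, ← div_le_iff₀ hH0]
  have hWn : ∀ u, W (-u) = conj (W u) := fun u => by
    simp only [W, b, map_mul, conj_ofReal, mul_neg, β.neg]
    rw [intervalIntegral.integral_of_le hAB, intervalIntegral.integral_of_le hAB, ← integral_conj]
    congr 2; funext s
    rw [← Complex.exp_conj]
    congr 1
    simp [map_ofNat]
  -- representation of `om W`
  have hψ : ∀ v : ℝ, Continuous fun x : ℝ => om b (x + v * I) := fun v =>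
    (om_differentiable hb.continuous hb0).continuous.comp (by fun_prop)
  have rep : ∀ z : ℂ, om W z =
      ∫ x in Ioc ((z.re - B) / H) ((z.re - A) / H), om b (x + (z.im / H : ℝ) * I) := by
    intro z
    have h1 : Integrable fun u : ℝ => b (H * u) * Complex.exp (-(2 * π * I * u * z)) :=
      om_integrable (g := fun u => b (H * u)) (hb.continuous.comp (by fun_prop))
        (hcs_of (R := 1 / H) fun u hu => hb0 _ (by
          rwa [abs_mul, abs_of_pos hH0, mul_comm, ← div_le_iff₀ hH0])) z
    have h2 := swap_exp (f := (Ioc A B).indicator fun _ => (1 : ℂ))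
      ((integrable_indicator_iff measurableSet_Ioc).2 (by simp)) h1 (2 * π)
    have h3 : ∀ s : ℝ, ∫ u : ℝ, b (H * u) * Complex.exp (-(2 * π * I * u * z)) *
        Complex.exp ((2 * π : ℝ) * I * u * s) =
        (H⁻¹ : ℝ) • om b ((z.re / H - s / H : ℝ) + (z.im / H : ℝ) * I) := by
      intro s
      have := Measure.integral_comp_mul_left (fun x : ℝ => b x * Complex.exp (-(2 * π * I * x *
        ((z.re / H - s / H : ℝ) + (z.im / H : ℝ) * I)))) H
      rw [abs_of_pos (inv_pos.2 hH0)] at this
      rw [om, ← this]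
      congr 1; funext u
      rw [mul_assoc, ← Complex.exp_add]
      congr 2
      conv_lhs => rw [← re_add_im z]
      push_cast
      field_simp
      ring
    have h4 : ∀ φ : ℝ → ℂ, ∫ t : ℝ, (Ioc A B).indicator (fun _ => (1 : ℂ)) t * φ t =
        ∫ t in A..B, φ t := fun φ => by
      rw [intervalIntegral.integral_of_le hAB, ← integral_indicator measurableSet_Ioc]
      congr 1; funext t
      by_cases h : t ∈ Ioc A B <;> simp [h]
    simp_rw [h3, h4] at h2
    rw [intervalIntegral.integral_smul, intervalIntegral.integral_comp_sub_div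
      (fun x : ℝ => om b (x + (z.im / H : ℝ) * I)) hH0.ne', smul_smul, inv_mul_cancel₀ hH0.ne',
      one_smul, ← sub_div, ← sub_div, intervalIntegral.integral_of_le (by gcongr)] at h2
    rw [← h2, om]
    congr 1; funext u
    simp only [W]
    push_cast
    ring
  have hv : ∀ z : ℂ, |z.im| ≤ 2 → ∀ x : ℝ,
      ‖om b (x + (z.im / H : ℝ) * I)‖ * (1 + |x|) ^ (k + 2 + 2) ≤ C := fun z hz x => by
    have := hC (x + (z.im / H : ℝ) * I) (by
      simp only [add_im, ofReal_im, mul_im, ofReal_re, I_im, mul_one, I_re, mul_zero, add_zero,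
        zero_add]
      rw [abs_div, abs_of_pos hH0, div_le_one hH0]
      linarith)
    simpa only [add_re, ofReal_re, mul_re, I_re, mul_zero, ofReal_im, I_im, mul_one, sub_self,
      add_zero] using this
  have conv : ∀ (a D : ℝ), 0 ≤ a → H ≤ D → a * (1 + D / H) ^ (k + 2) ≤ C * π →
      a ≤ C * π * (H / D) ^ (k + 2) := fun a D ha hD h => by
    have hD0 : 0 < D := by linarith
    rw [← inv_div, inv_pow, ← div_eq_mul_inv, le_div_iff₀ (by positivity)]
    refine le_trans ?_ h
    gcongr
    linarith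
  have weak : ∀ D : ℝ, H ≤ D → C * π * (H / D) ^ (k + 2) ≤ (C * π * (4 * π) + 1) * (H / D) ^ k :=
    fun D hD => by
      have hD0 : 0 < D := by linarith
      refine mul_le_mul ?_ (pow_le_pow_of_le_one (by positivity) ((div_le_one hD0).2 hD)
        (by omega)) (by positivity) (by positivity)
      nlinarith [Real.pi_gt_three, mul_nonneg hC0 hπ.le]
  have out : ∀ (z : ℂ) (D : ℝ), |z.im| ≤ 2 → H ≤ D → (z.re ≤ A - D ∨ B + D ≤ z.re) →
      ‖om W z‖ ≤ C * π * (H / D) ^ (k + 2) := fun z D hz hD h => by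
    have hD0 : 0 < D := by linarith
    refine conv _ D (norm_nonneg _) hD ?_
    rw [rep]
    refine (tail_le (hψ _) (hv z hz) (by positivity) measurableSet_Ioc fun x hx => ?_).2
    rcases h with h | h
    · refine le_trans ?_ (neg_le_abs x)
      have : (z.re - A) / H ≤ -D / H := by gcongr; linarith
      rw [neg_div] at this
      linarith [hx.2]
    · refine le_trans ?_ (le_abs_self x)
      have : D / H ≤ (z.re - B) / H := by gcongr; linarith
      linarith [hx.1]
  have hwd : Differentiable ℂ (om W) := om_differentiable hWc hW0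
  have hdom : Integrable fun t : ℝ => (1 + ((t - A) / H) ^ 2)⁻¹ + (1 + ((t - B) / H) ^ 2)⁻¹ :=
    ((integrable_inv_one_add_sq.comp_div hH0.ne').comp_sub_right A).add
      ((integrable_inv_one_add_sq.comp_div hH0.ne').comp_sub_right B)
  have out2 : ∀ v D : ℝ, |v| ≤ 2 → H ≤ D → ∀ t ∈ (Icc (A - D) (B + D))ᶜ,
      ‖om W (t + v * I)‖ ≤ C * π * (H / D) ^ k * 2 *
        ((1 + ((t - A) / H) ^ 2)⁻¹ + (1 + ((t - B) / H) ^ 2)⁻¹) := by
    intro v D hv hD t ht
    have hD0 : 0 < D := by linarith
    have key : ∀ E, D ≤ E → (t ≤ A - E ∨ B + E ≤ t) → ‖om W (t + v * I)‖ ≤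
        C * π * (H / D) ^ k * 2 * (1 + (E / H) ^ 2)⁻¹ := fun E hE h => by
      have hE0 : 0 < E := by linarith
      refine (out _ E (by simpa using hv) (hD.trans hE) (by simpa using h)).trans ?_
      rw [pow_add, mul_assoc (C * π * _), ← mul_assoc]
      gcongr
      have : 1 ≤ E / H := (one_le_div hH0).2 (hD.trans hE)
      rw [← inv_div, inv_pow, ← div_eq_mul_inv, inv_eq_one_div,
        div_le_div_iff₀ (by positivity) (by positivity)]
      nlinarith
    rw [mem_compl_iff, mem_Icc, not_and_or, not_le, not_le] at ht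
    rcases ht with ht | ht
    · refine (key (A - t) (by linarith) (Or.inl (by linarith))).trans ?_
      rw [show ((A - t) / H) ^ 2 = ((t - A) / H) ^ 2 by ring]
      gcongr
      exact le_add_of_nonneg_right (by positivity)
    · refine (key (t - B) (by linarith) (Or.inr (by linarith))).trans ?_
      gcongr
      exact le_add_of_nonneg_left (by positivity)
  have hint : ∀ v : ℝ, |v| ≤ 2 → Integrable fun t : ℝ => om W (t + v * I) := fun v hv => by
    have hc : Continuous fun t : ℝ => om W (t + v * I) := hwd.continuous.comp (by fun_prop)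
    rw [← integrableOn_univ, ← union_compl_self (Icc (A - H) (B + H))]
    refine hc.integrableOn_Icc.union ((hdom.const_mul _).integrableOn.mono'
      hc.aestronglyMeasurable ((ae_restrict_iff' measurableSet_Icc.compl).2
        (Eventually.of_forall (out2 v H hv le_rfl))))
  refine ⟨om W, W, hwd, fun z => ?_, hWc, hWn, hW0, by simp [W, hb1], ?_,
    fun v hv => ⟨hint v hv, om_inv hWc (hcs_of hW0) v (hint v hv)⟩, fun z hz => ?_,
    fun z D hz hD h1 h2 => ?_, fun z D hz hD h => (out z D hz hD h).trans (weak D hD),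
    fun v D hv hD => ?_⟩
  · rw [om, om, ← integral_conj, ← integral_neg_eq_self]
    congr 1; funext u
    rw [map_mul, hWn, ← Complex.exp_conj]
    congr 2
    simp [map_ofNat]
  · have h := stmtPlanch (fun _ => 1) A B 1 (1 / H) hAB (by positivity) continuousOn_const
      (by simp)
    simp only [one_mul, one_pow] at h
    refine le_trans ?_ h
    rw [← intervalIntegral.integral_eq_integral_of_support_subset (a := -(1 / H)) (b := 1 / H)]
    · refine intervalIntegral.integral_mono_on (by linarith [one_div_pos.2 hH0])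
        (Continuous.intervalIntegrable (by fun_prop) _ _) (Continuous.intervalIntegrable
        ((intervalIntegral.continuous_parametric_intervalIntegral_of_continuous'
          (by fun_prop) _ _).norm.pow 2) _ _) fun u _ => ?_
      simp only [W, norm_mul]
      gcongr
      exact mul_le_of_le_one_left (norm_nonneg _) (hbn _)
    · intro u hu
      by_contra h'
      refine hu ?_
      beta_reduce
      rw [hW0 u]
      · simp
      · by_contra h''
        exact h' ⟨(abs_lt.1 (not_le.1 h'')).1, (abs_lt.1 (not_le.1 h'')).2.le⟩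
  · have := (tail_le (hψ _) (hv z hz) le_rfl (T := Ioc ((z.re - B) / H) ((z.re - A) / H))
      measurableSet_Ioc fun x _ => abs_nonneg x).2
    rw [← rep] at this
    simp only [add_zero, one_pow, mul_one] at this
    nlinarith [Real.pi_gt_three, mul_nonneg hC0 hπ.le]
  · have hD0 : 0 < D := by linarith
    refine le_trans (conv _ D (norm_nonneg _) hD ?_) (weak D hD)
    obtain ⟨h3, h4⟩ := tail_le (hψ _) (hv z hz) (y := D / H) (by positivity)
      (T := (Ioc ((z.re - B) / H) ((z.re - A) / H))ᶜ) measurableSet_Ioc.compl fun x hx => by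
        rw [mem_compl_iff, mem_Ioc, not_and_or, not_lt, not_le] at hx
        rcases hx with hx | hx
        · refine le_trans ?_ (neg_le_abs x)
          have : (z.re - B) / H ≤ -D / H := by gcongr; linarith
          rw [neg_div] at this
          linarith
        · refine le_trans ?_ (le_abs_self x)
          have : D / H ≤ (z.re - A) / H := by gcongr; linarith
          linarith
    have h5 := om_inv hb.continuous (hcs_of hb0) _ h3 0
    simp only [ofReal_zero, mul_zero, zero_mul, Complex.exp_zero, mul_one, hb1] at h5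
    rw [← h5, ← integral_add_compl (s := Ioc ((z.re - B) / H) ((z.re - A) / H))
      measurableSet_Ioc h3, rep z, sub_add_cancel_left, norm_neg]
    exact h4
  · have hD0 : 0 < D := by linarith
    refine (setIntegral_mono_on (hint v hv).norm.integrableOn (hdom.const_mul _).integrableOn
      measurableSet_Icc.compl (out2 v D hv hD)).trans ((setIntegral_le_integral (hdom.const_mul _)
      (Eventually.of_forall fun t => by positivity)).trans ?_)
    have e : ∀ c : ℝ, ∫ t : ℝ, (1 + ((t - c) / H) ^ 2)⁻¹ = H * π := fun c => by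
      rw [integral_sub_right_eq_self (fun t : ℝ => (1 + (t / H) ^ 2)⁻¹) c,
        Measure.integral_comp_div (fun t : ℝ => (1 + t ^ 2)⁻¹), integral_univ_inv_one_add_sq,
        abs_of_pos hH0, smul_eq_mul]
    rw [integral_const_mul, integral_add
      ((integrable_inv_one_add_sq.comp_div hH0.ne').comp_sub_right A)
      ((integrable_inv_one_add_sq.comp_div hH0.ne').comp_sub_right B), e, e]
    have : 0 ≤ H * (H / D) ^ k := by positivity
    nlinarith

end Pool.Agent.MP_f259ea_nt

end

section

/-!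
Mertens-type upper bound for the diagonal prime sum.
-/

set_option autoImplicit false

open MeasureTheory Set Finset ArithmeticFunction

namespace Pool.Agent.MP_f259ea_nt

/-- the partial sums of `Λ n / n` -/
noncomputable def mertSum (N : ℕ) : ℝ := ∑ n ∈ Finset.Icc 1 N, vonMangoldt n / n

lemma sum_log_eq (N : ℕ) : ∑ n ∈ Finset.Icc 1 N, Real.log n =
    ∑ d ∈ Finset.Icc 1 N, vonMangoldt d * ((N / d : ℕ) : ℝ) := by
  induction N with
  | zero => simp
  | succ N ih =>
    rw [Finset.sum_Icc_succ_top (by omega), ih]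
    have h1 : ∑ d ∈ Finset.Icc 1 (N + 1), vonMangoldt d * (((N + 1) / d : ℕ) : ℝ) =
        ∑ d ∈ Finset.Icc 1 (N + 1), vonMangoldt d * ((N / d : ℕ) : ℝ) +
          ∑ d ∈ Finset.Icc 1 (N + 1), if d ∣ N + 1 then vonMangoldt d else 0 := by
      rw [← Finset.sum_add_distrib]
      refine Finset.sum_congr rfl fun d _ => ?_
      rw [Nat.succ_div]
      split_ifs <;> push_cast <;> ring
    rw [h1, Finset.sum_Icc_succ_top (by omega) (fun d => vonMangoldt d * ((N / d : ℕ) : ℝ)),
      Nat.div_eq_of_lt (Nat.lt_succ_self N), ← Finset.sum_filter, ← vonMangoldt_sum]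
    simp only [Nat.cast_zero, mul_zero, add_zero]
    congr 1

lemma sum_log_bounds (N : ℕ) : N * Real.log N - N ≤ ∑ n ∈ Finset.Icc 1 N, Real.log n ∧
    ∑ n ∈ Finset.Icc 1 N, Real.log n ≤ N * Real.log N := by
  constructor
  · induction N with
    | zero => simp
    | succ N ih =>
      rw [Finset.sum_Icc_succ_top (by omega)]
      rcases Nat.eq_zero_or_pos N with rfl | hN
      · simp
      have hN' : (0 : ℝ) < N := by exact_mod_cast hN
      have h1 : Real.log ((N + 1) / N) ≤ (N + 1) / N - 1 := Real.log_le_sub_one_of_pos (by positivity)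
      rw [Real.log_div (by positivity) hN'.ne'] at h1
      have h2 : (N : ℝ) * (Real.log (N + 1) - Real.log N) ≤ 1 := by
        calc (N : ℝ) * (Real.log (N + 1) - Real.log N) ≤ N * ((N + 1) / N - 1) := by gcongr
          _ = 1 := by field_simp; ring
      push_cast
      nlinarith
  · calc ∑ n ∈ Finset.Icc 1 N, Real.log n ≤ ∑ n ∈ Finset.Icc 1 N, Real.log N := by
          refine Finset.sum_le_sum fun n hn => ?_
          rw [Finset.mem_Icc] at hn
          exact Real.log_le_log (by exact_mod_cast hn.1) (by exact_mod_cast hn.2)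
      _ = N * Real.log N := by simp

lemma mertSum_bounds {N : ℕ} (hN : 1 ≤ N) :
    Real.log N - 1 ≤ mertSum N ∧ mertSum N ≤ Real.log N + (Real.log 4 + 4) := by
  have hN' : (0 : ℝ) < N := by exact_mod_cast hN
  obtain ⟨h1, h2⟩ := sum_log_bounds N
  rw [sum_log_eq] at h1 h2
  have h3 : ∑ d ∈ Finset.Icc 1 N, vonMangoldt d * ((N / d : ℕ) : ℝ) ≤ N * mertSum N := by
    rw [mertSum, Finset.mul_sum]
    refine Finset.sum_le_sum fun d _ => ?_
    have := (Nat.cast_div_le (α := ℝ) (m := N) (n := d))
    calc vonMangoldt d * ((N / d : ℕ) : ℝ) ≤ vonMangoldt d * (N / d) := by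
          gcongr
      _ = _ := by ring
  have h4 : N * mertSum N ≤ ∑ d ∈ Finset.Icc 1 N, vonMangoldt d * ((N / d : ℕ) : ℝ) +
      ∑ d ∈ Finset.Icc 1 N, vonMangoldt d := by
    rw [mertSum, Finset.mul_sum, ← Finset.sum_add_distrib]
    refine Finset.sum_le_sum fun d hd => ?_
    have h5 : (N : ℝ) / d ≤ ((N / d : ℕ) : ℝ) + 1 := by
      rw [← Nat.floor_div_eq_div (K := ℝ)]
      exact (Nat.lt_floor_add_one _).le
    calc (N : ℝ) * (vonMangoldt d / d) = vonMangoldt d * (N / d) := by ring
      _ ≤ vonMangoldt d * (((N / d : ℕ) : ℝ) + 1) := by gcongr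
      _ = _ := by ring
  have h6 : ∑ d ∈ Finset.Icc 1 N, vonMangoldt d ≤ (Real.log 4 + 4) * N := by
    have := Chebyshev.psi_le_const_mul_self hN'.le
    rw [Chebyshev.psi_eq_sum_Icc, Nat.floor_natCast] at this
    refine le_trans (Finset.sum_le_sum_of_subset_of_nonneg ?_ fun _ _ _ => vonMangoldt_nonneg) this
    exact Finset.Icc_subset_Icc (by omega) le_rfl
  constructor
  · exact le_of_mul_le_mul_left (by nlinarith) hN'
  · exact le_of_mul_le_mul_left (by nlinarith) hN'

lemma mertSum_diff {x y : ℝ} (hx : 1 ≤ x) (hxy : x ≤ y) :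
    ∑ n ∈ Finset.Ioc ⌊x⌋₊ ⌊y⌋₊, vonMangoldt n / n ≤ Real.log y - Real.log x + 10 := by
  have hx1 : 1 ≤ ⌊x⌋₊ := Nat.le_floor (by exact_mod_cast hx)
  have hxy' : ⌊x⌋₊ ≤ ⌊y⌋₊ := Nat.floor_mono hxy
  have e : ∑ n ∈ Finset.Ioc ⌊x⌋₊ ⌊y⌋₊, vonMangoldt n / n = mertSum ⌊y⌋₊ - mertSum ⌊x⌋₊ := by
    have := Finset.sum_Ioc_consecutive (fun n : ℕ => vonMangoldt n / n) (Nat.zero_le ⌊x⌋₊) hxy'
    simp only [mertSum, ← Finset.Icc_add_one_left_eq_Ioc, zero_add] at this ⊢
    linarith
  have h1 := (mertSum_bounds hx1).1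
  have h2 := (mertSum_bounds (hx1.trans hxy')).2
  have hx1' : (1 : ℝ) ≤ ⌊x⌋₊ := by exact_mod_cast hx1
  have h3 : Real.log ⌊y⌋₊ ≤ Real.log y :=
    Real.log_le_log (by have : (⌊x⌋₊ : ℝ) ≤ ⌊y⌋₊ := by exact_mod_cast hxy'
                        linarith) (Nat.floor_le (by linarith))
  have h4 : Real.log x ≤ Real.log 2 + Real.log ⌊x⌋₊ := by
    rw [← Real.log_mul (by norm_num) (by linarith)]
    exact Real.log_le_log (by linarith) (by linarith [Nat.lt_floor_add_one x])
  have h5 : Real.log 2 ≤ 1 := by linarith [Real.log_le_sub_one_of_pos (show (0 : ℝ) < 2 by norm_num)]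
  have h6 : Real.log 4 ≤ 3 := by linarith [Real.log_le_sub_one_of_pos (show (0 : ℝ) < 4 by norm_num)]
  linarith

lemma piece_le {g : ℝ → ℝ} {Y a b G : ℝ} (hY : 0 < Y) (ha : 0 ≤ a) (hab : a ≤ b) (hG0 : 0 ≤ G)
    (hG : ∀ t ∈ Set.Icc a b, g t ≤ G) :
    ∑ n ∈ Finset.Ioc ⌊Real.exp (a * Y)⌋₊ ⌊Real.exp (b * Y)⌋₊,
      vonMangoldt n / n * g (Real.log n / Y) ≤ G * ((b - a) * Y + 10) := by
  have h1 := mertSum_diff (x := Real.exp (a * Y)) (y := Real.exp (b * Y))
    (Real.one_le_exp (by positivity)) (Real.exp_le_exp.2 (by gcongr))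
  rw [Real.log_exp, Real.log_exp] at h1
  calc _ ≤ ∑ n ∈ Finset.Ioc ⌊Real.exp (a * Y)⌋₊ ⌊Real.exp (b * Y)⌋₊, G * (vonMangoldt n / n) := by
        refine Finset.sum_le_sum fun n hn => ?_
        rw [Finset.mem_Ioc] at hn
        have h2 : Real.exp (a * Y) < n := Nat.lt_of_floor_lt hn.1
        have h3 : (n : ℝ) ≤ Real.exp (b * Y) := (Nat.le_floor_iff (Real.exp_pos _).le).1 hn.2
        have hn0 : (0 : ℝ) < n := (Real.exp_pos _).trans h2
        rw [mul_comm G]
        refine mul_le_mul_of_nonneg_left (hG _ ⟨?_, ?_⟩) (div_nonneg vonMangoldt_nonneg hn0.le)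
        · rw [le_div_iff₀ hY]; exact ((Real.lt_log_iff_exp_lt hn0).2 h2).le
        · rw [div_le_iff₀ hY]; exact (Real.log_le_iff_le_exp hn0).2 h3
    _ ≤ _ := by
        rw [← Finset.mul_sum]
        exact mul_le_mul_of_nonneg_left (by linarith) hG0

theorem stmtMertens : StmtMertens := by
  intro f hf hf0 ε hε
  let g : ℝ → ℝ := fun a => a * f a
  have hg : Continuous g := continuous_id.mul hf
  obtain ⟨B, hB⟩ := (isCompact_Icc (a := (0 : ℝ)) (b := 2)).bddAbove_image hg.continuousOn
  have hB' : ∀ t ∈ Set.Icc (0 : ℝ) 2, g t ≤ B := fun t ht => hB (Set.mem_image_of_mem g ht)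
  have hB0 : 0 ≤ B := le_trans (by simp [g]) (hB' 0 (by simp))
  obtain ⟨δ, hδ, hU⟩ := Metric.uniformContinuousOn_iff.1
    ((isCompact_Icc (a := (0 : ℝ)) (b := 2)).uniformContinuousOn_of_continuous hg.continuousOn)
    (ε / 4) (by linarith)
  obtain ⟨K, hK⟩ := exists_nat_one_div_lt hδ
  set k : ℝ := K + 1 with hk
  have hk0 : 0 < k := by positivity
  refine ⟨max 1 ((k * ((B + ε) * 10) + B * 11) / (ε / 2)), fun Y hY X hX => ?_⟩
  have hY1 : 1 ≤ Y := le_trans (le_max_left _ _) hY
  have hY0 : 0 < Y := by linarith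
  have hY2 : k * ((B + ε) * 10) + B * 11 ≤ Y * (ε / 2) :=
    (div_le_iff₀ (by linarith)).1 (le_trans (le_max_right _ _) hY)
  let T : ℕ → ℝ := fun n => vonMangoldt n / n * g (Real.log n / Y)
  have hT0 : ∀ n, 0 ≤ T n := fun n => mul_nonneg (div_nonneg vonMangoldt_nonneg n.cast_nonneg)
    (mul_nonneg (div_nonneg (Real.log_natCast_nonneg n) hY0.le) (hf0 _))
  have step : ∀ j : ℕ, j ≤ K + 1 → ∑ n ∈ Finset.Ioc 0 ⌊Real.exp (j / k * Y)⌋₊, T n ≤
      Y * (∫ a in (0 : ℝ)..(j / k), g a) + j * (ε / 2 * Y / k + (B + ε) * 10) := by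
    intro j
    induction j with
    | zero => intro _; simp [T]
    | succ j ih =>
      intro hj
      have hj' : (j : ℝ) + 1 ≤ k := by rw [hk]; exact_mod_cast hj
      have h0 : (0 : ℝ) ≤ j / k := by positivity
      have h1 : (j : ℝ) / k ≤ (j + 1 : ℕ) / k := by push_cast; gcongr; linarith
      have h2 : ((j + 1 : ℕ) : ℝ) / k ≤ 1 := by push_cast; rwa [div_le_one hk0]
      have h3 : ((j + 1 : ℕ) : ℝ) / k - j / k = 1 / k := by push_cast; ring
      have hclose : ∀ t ∈ Set.Icc ((j : ℝ) / k) ((j + 1 : ℕ) / k), |g t - g (j / k)| < ε / 4 :=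
        fun t ht => hU t ⟨by linarith [ht.1], by linarith [ht.2]⟩ _ ⟨h0, by linarith⟩ (by
          rw [Real.dist_eq, abs_of_nonneg (by linarith [ht.1])]; linarith [ht.2])
      have hg0 : 0 ≤ g (j / k) := mul_nonneg h0 (hf0 _)
      have hp := piece_le (g := g) hY0 h0 h1 (G := g (j / k) + ε / 4) (by linarith)
        fun t ht => by linarith [(abs_lt.1 (hclose t ht)).2]
      have hint : (g (j / k) - ε / 4) * (1 / k) ≤ ∫ a in ((j : ℝ) / k)..((j + 1 : ℕ) / k), g a := by
        have := intervalIntegral.integral_mono_on h1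
          (intervalIntegrable_const (μ := volume) (c := g (j / k) - ε / 4))
          (hg.intervalIntegrable _ _) fun t ht => by linarith [(abs_lt.1 (hclose t ht)).1]
        rwa [intervalIntegral.integral_const, h3, smul_eq_mul, mul_comm] at this
      rw [← Finset.sum_Ioc_consecutive T (Nat.zero_le ⌊Real.exp (j / k * Y)⌋₊)
        (Nat.floor_mono (Real.exp_le_exp.2 (by gcongr))),
        ← intervalIntegral.integral_add_adjacent_intervals (hg.intervalIntegrable 0 (j / k))
          (hg.intervalIntegrable _ _)]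
      have ih' := ih (by omega)
      rw [h3] at hp
      have hgB := hB' (j / k) ⟨h0, by linarith⟩
      have h4 := mul_le_mul_of_nonneg_left hint hY0.le
      have e1 : (g (j / k) + ε / 4) * (1 / k * Y + 10) =
          Y * ((g (j / k) - ε / 4) * (1 / k)) + ε / 2 * Y / k + (g (j / k) + ε / 4) * 10 := by ring
      have e2 : ((j + 1 : ℕ) : ℝ) * (ε / 2 * Y / k + (B + ε) * 10) =
          j * (ε / 2 * Y / k + (B + ε) * 10) + (ε / 2 * Y / k + (B + ε) * 10) := by
        push_cast; ring
      rw [e2, mul_add]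
      simp only [T] at ih' ⊢
      linarith
  have h1 := step (K + 1) le_rfl
  have ek : ((K + 1 : ℕ) : ℝ) = k := by rw [hk]; push_cast; ring
  rw [ek, div_self hk0.ne'] at h1
  have hl2 : Real.log 2 ≤ 1 := by linarith [Real.log_le_sub_one_of_pos (show (0 : ℝ) < 2 by norm_num)]
  have hl0 : 0 ≤ Real.log 2 := Real.log_nonneg one_le_two
  have hq : Real.log 2 / Y ≤ 1 := by rw [div_le_one hY0]; linarith
  have hq0 : 0 ≤ Real.log 2 / Y := by positivity
  have h2 := piece_le (g := g) hY0 zero_le_one (b := 1 + Real.log 2 / Y) (by linarith) hB0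
    fun t ht => hB' t ⟨by linarith [ht.1], by linarith [ht.2]⟩
  have e3 : (1 + Real.log 2 / Y - 1) * Y = Real.log 2 := by field_simp; ring
  rw [e3] at h2
  have hX' : X ≤ ⌊Real.exp ((1 + Real.log 2 / Y) * Y)⌋₊ := by
    refine Nat.le_floor ?_
    have : (1 + Real.log 2 / Y) * Y = Real.log 2 + Y := by field_simp; ring
    rwa [this, Real.exp_add, Real.exp_log two_pos]
  have h3 : ∑ n ∈ Finset.Icc 1 X, T n ≤ Y * ((∫ a in (0 : ℝ)..1, g a) + ε) := by
    calc ∑ n ∈ Finset.Icc 1 X, T n
        ≤ ∑ n ∈ Finset.Ioc 0 ⌊Real.exp ((1 + Real.log 2 / Y) * Y)⌋₊, T n := by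
          refine Finset.sum_le_sum_of_subset_of_nonneg (fun n hn => ?_) fun n _ _ => hT0 n
          rw [Finset.mem_Icc] at hn
          rw [Finset.mem_Ioc]; omega
      _ = _ := (Finset.sum_Ioc_consecutive T (Nat.zero_le ⌊Real.exp (1 * Y)⌋₊)
          (Nat.floor_mono (Real.exp_le_exp.2 (by gcongr; linarith)))).symm
      _ ≤ _ := by
          have e4 : k * (ε / 2 * Y / k + (B + ε) * 10) = ε / 2 * Y + k * ((B + ε) * 10) := by
            field_simp
          rw [e4] at h1
          have := mul_le_mul_of_nonneg_left hl2 hB0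
          simp only [T] at h1 ⊢
          nlinarith
  calc _ ≤ ∑ n ∈ Finset.Icc 1 X, Y * T n := by
        refine Finset.sum_le_sum fun n _ => ?_
        have h4 : vonMangoldt n ≤ Real.log n := vonMangoldt_le_log
        have h5 : 0 ≤ vonMangoldt n := vonMangoldt_nonneg
        have e : Y * T n = vonMangoldt n * Real.log n / n * f (Real.log n / Y) := by
          simp only [T, g]; field_simp
        rw [e, sq]
        have := hf0 (Real.log n / Y)
        gcongr
    _ ≤ _ := by
        rw [← Finset.mul_sum, sq, mul_assoc]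
        exact mul_le_mul_of_nonneg_left h3 hY0.le

end Pool.Agent.MP_f259ea_nt

end
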