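import Pool.Agent.Mg.Ff259ea.Gae27b5
import Pool.Agent.MP_f259ea_nt.A_HeightsGrowth
import Pool.Agent.Mg.Ff259ea.G21ab5a
import Pool.Agent.Mg.Ff259ea.G0bd8eb
import Pool.Agent.Mg.Ff259ea.Gb29d25

section

/-!
Good heights and local zero counts for Dirichlet L-functions.
-/

set_option autoImplicit false

open Complex Set Filter Topology Metric

namespace Pool.Agent.MP_f259ea_nt

theorem one_le_log_of_three_le {t : ℝ} (ht : 3 ≤ t) : 1 ≤ Real.log t := by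
  rw [Real.le_log_iff_exp_le (by linarith)]
  linarith [Real.exp_one_lt_d9]

theorem mem_closedBall_of_rect {t : ℝ} {z : ℂ} (h1 : 1 / 2 ≤ z.re) (h2 : z.re ≤ 2)
    (h3 : t ≤ z.im) (h4 : z.im ≤ t + 1) :
    z ∈ closedBall ((2 : ℂ) + ((t + 1 / 2 : ℝ) : ℂ) * I) (8 / 5) := by
  rw [mem_closedBall, dist_eq_norm, Complex.norm_eq_sqrt_sq_add_sq]
  refine Real.sqrt_le_iff.2 ⟨by norm_num, ?_⟩
  simp only [sub_re, add_re, re_ofNat, mul_re, ofReal_re, I_re, mul_zero, ofReal_im, I_im,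
    mul_one, sub_self, add_zero, sub_im, add_im, im_ofNat, mul_im, zero_add]
  nlinarith

/-- Zeros of `L(s, χ)` near height `t` and the pole expansion of `L'/L`. -/
theorem LFunction_local (N : ℕ) [NeZero N] (χ : DirichletCharacter ℂ N) :
    ∃ C : ℝ, 1 ≤ C ∧ ∀ t : ℝ, 3 ≤ t → ∃ Z : Finset ℂ,
      (∀ z, z ∈ Z ↔ z ∈ closedBall ((2 : ℂ) + ((t + 1 / 2 : ℝ) : ℂ) * I) (9 / 5) ∧
        DirichletCharacter.LFunction χ z = 0) ∧
      (∀ ρ ∈ Z, 1 ≤ (analyticOrderAt (DirichletCharacter.LFunction χ) ρ).toNat) ∧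
      (∑ ρ ∈ Z, ((analyticOrderAt (DirichletCharacter.LFunction χ) ρ).toNat : ℝ)
        ≤ C * Real.log t) ∧
      ∀ z ∈ closedBall ((2 : ℂ) + ((t + 1 / 2 : ℝ) : ℂ) * I) (8 / 5),
        DirichletCharacter.LFunction χ z ≠ 0 →
        ‖logDeriv (DirichletCharacter.LFunction χ) z -
          ∑ ρ ∈ Z, ((analyticOrderAt (DirichletCharacter.LFunction χ) ρ).toNat : ℂ) / (z - ρ)‖
          ≤ C * Real.log t := by
  obtain ⟨C, hC, hgr⟩ := LFunction_growth N χ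
  obtain ⟨δ, hδ, hlow⟩ := LFunction_lower N χ
  set A : ℝ := (3 * C + 1) / δ with hA
  have hApos : 0 < A := by positivity
  have habs := abs_nonneg (Real.log A)
  refine ⟨30000 * (|Real.log A| + 2), by linarith, fun t ht => ?_⟩
  have hlog := one_le_log_of_three_le ht
  set c : ℂ := (2 : ℂ) + ((t + 1 / 2 : ℝ) : ℂ) * I with hc
  have hcre : c.re = 2 := by simp [hc]
  have hcim : c.im = t + 1 / 2 := by simp [hc]
  set M : ℝ := |Real.log A| + 1 + Real.log t with hM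
  have hM1 : 1 ≤ M := by linarith
  have hMle : M ≤ (|Real.log A| + 2) * Real.log t := by nlinarith
  have hball : ∀ z ∈ closedBall c (19 / 10 : ℝ), 1 / 20 ≤ z.re ∧ 1 ≤ z.im ∧ ‖z‖ ≤ 3 * t := by
    intro z hz
    rw [mem_closedBall, dist_eq_norm] at hz
    have h1 := (abs_le.1 ((Complex.abs_re_le_norm (z - c)).trans hz)).1
    have h2 := (abs_le.1 ((Complex.abs_im_le_norm (z - c)).trans hz)).1
    rw [sub_re, hcre] at h1
    rw [sub_im, hcim] at h2
    refine ⟨by linarith, by linarith, ?_⟩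
    have h3 : ‖c‖ ≤ 2 + (t + 1 / 2) := by
      refine (Complex.norm_le_abs_re_add_abs_im c).trans ?_
      rw [hcre, hcim, abs_of_pos (by norm_num), abs_of_pos (by linarith)]
    have h4 : ‖z‖ ≤ ‖z - c‖ + ‖c‖ := norm_le_norm_sub_add _ _
    linarith
  have han : AnalyticOnNhd ℂ (DirichletCharacter.LFunction χ) (closedBall c (19 / 10)) := by
    have hU : IsOpen {s : ℂ | 0 < s.im} := isOpen_lt continuous_const Complex.continuous_im
    refine (DifferentiableOn.analyticOnNhd (s := {s : ℂ | 0 < s.im}) (fun s hs => ?_) hU).mono ?_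
    · refine (DirichletCharacter.differentiableAt_LFunction χ s (Or.inl ?_)).differentiableWithinAt
      rintro rfl
      simp at hs
    · intro z hz
      have := (hball z hz).2.1
      change 0 < z.im
      linarith
  have hLc := hlow c hcre
  have hexp : A * t ≤ Real.exp M := by
    rw [hM, Real.exp_add, Real.exp_log (by linarith)]
    gcongr
    calc A = Real.exp (Real.log A) := (Real.exp_log hApos).symm
      _ ≤ _ := Real.exp_le_exp.2 (by linarith [le_abs_self (Real.log A)])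
  have hbig : (3 * C + 1) * t ≤ Real.exp M * ‖DirichletCharacter.LFunction χ c‖ := by
    calc (3 * C + 1) * t = A * t * δ := by rw [hA]; field_simp
      _ ≤ _ := by gcongr
  obtain ⟨Z, hZ, hpos, hcount, hpf⟩ := local_structure (DirichletCharacter.LFunction χ) c M hM1 han
    (norm_pos_iff.1 (hδ.trans_le hLc))
    (fun z hz => by
      obtain ⟨h1, h2, h3⟩ := hball z (sphere_subset_closedBall hz)
      have := hgr z h1 h2
      nlinarith)
    (by nlinarith)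
  refine ⟨Z, hZ, hpos, hcount.trans (by nlinarith), fun z hz hz0 => (hpf z hz hz0).trans ?_⟩
  nlinarith

theorem stmtCount : StmtCount := by
  classical
  intro N _ χ
  obtain ⟨C, _, h⟩ := LFunction_local N χ
  refine ⟨C, 3, fun t ht Z' hZ' => ?_⟩
  obtain ⟨Z, hZ, -, hcount, -⟩ := h t ht
  refine le_trans ?_ hcount
  have key : ∑ ρ ∈ Z', (analyticOrderAt (DirichletCharacter.LFunction χ) ρ).toNat ≤
      ∑ ρ ∈ Z, (analyticOrderAt (DirichletCharacter.LFunction χ) ρ).toNat := ?_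
  · exact_mod_cast key
  refine Finset.sum_le_sum_of_ne_zero fun ρ hρ hne => ?_
  obtain ⟨h1, h2, h3, h4⟩ := hZ' ρ hρ
  refine (hZ ρ).2 ⟨closedBall_subset_closedBall (by norm_num) (mem_closedBall_of_rect h1 h2 h3 h4),
    ?_⟩
  refine apply_eq_zero_of_analyticOrderAt_ne_zero fun h0 => hne ?_
  rw [h0]; simp

theorem stmtHeights : StmtHeights := by
  intro N _ χ
  obtain ⟨C, hC, h⟩ := LFunction_local N χ
  refine ⟨C + 4 * C ^ 2, 3, fun t ht => ?_⟩
  obtain ⟨Z, hZ, hpos, hcount, hpf⟩ := h t ht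
  have hlog := one_le_log_of_three_le ht
  obtain ⟨t', ht', hfar⟩ := exists_far_point Z t
  refine ⟨t', ht', fun σ hσ => ?_⟩
  set z : ℂ := σ + t' * I with hz
  have hzre : z.re = σ := by simp [hz]
  have hzim : z.im = t' := by simp [hz]
  have hzb := mem_closedBall_of_rect (t := t) (z := z) (by rw [hzre]; exact hσ.1)
    (by rw [hzre]; exact hσ.2) (by rw [hzim]; exact ht'.1) (by rw [hzim]; exact ht'.2)
  have hk : (0 : ℝ) < 1 / (2 * ((Z.card : ℝ) + 1)) := by positivity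
  have hne : DirichletCharacter.LFunction χ z ≠ 0 := by
    intro h0
    have hzZ := (hZ z).2 ⟨closedBall_subset_closedBall (by norm_num) hzb, h0⟩
    have := hfar z hzZ
    rw [hzim, sub_self, abs_zero] at this
    linarith
  refine ⟨hne, ?_⟩
  have h1 := hpf z hzb hne
  have hcard : (Z.card : ℝ) ≤ C * Real.log t := by
    refine le_trans ?_ hcount
    rw [Finset.card_eq_sum_ones]
    push_cast
    exact Finset.sum_le_sum fun ρ hρ => by exact_mod_cast hpos ρ hρ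
  have hCl : 1 ≤ C * Real.log t := by nlinarith
  have h2 : ‖∑ ρ ∈ Z, ((analyticOrderAt (DirichletCharacter.LFunction χ) ρ).toNat : ℂ) / (z - ρ)‖
      ≤ C * Real.log t * (4 * (C * Real.log t)) := by
    refine (norm_sum_le _ _).trans ?_
    calc _ ≤ ∑ ρ ∈ Z, ((analyticOrderAt (DirichletCharacter.LFunction χ) ρ).toNat : ℝ) *
          (4 * (C * Real.log t)) := by
          refine Finset.sum_le_sum fun ρ hρ => ?_
          rw [norm_div, Complex.norm_natCast, div_eq_mul_inv]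
          gcongr
          have h3 : 1 / (2 * ((Z.card : ℝ) + 1)) ≤ ‖z - ρ‖ := by
            refine (hfar ρ hρ).trans ?_
            have := Complex.abs_im_le_norm (z - ρ)
            rwa [sub_im, hzim] at this
          calc ‖z - ρ‖⁻¹ ≤ (1 / (2 * ((Z.card : ℝ) + 1)))⁻¹ := inv_anti₀ hk h3
            _ = 2 * ((Z.card : ℝ) + 1) := by simp
            _ ≤ _ := by linarith
      _ ≤ _ := by rw [← Finset.sum_mul]; gcongr
  have h3 := norm_le_norm_sub_add (logDeriv (DirichletCharacter.LFunction χ) z)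
    (∑ ρ ∈ Z, ((analyticOrderAt (DirichletCharacter.LFunction χ) ρ).toNat : ℂ) / (z - ρ))
  have h4 : C * Real.log t ≤ C * Real.log t ^ 2 := by
    have : Real.log t ≤ Real.log t ^ 2 := by nlinarith
    gcongr
  nlinarith

end Pool.Agent.MP_f259ea_nt

end

section

/-!
Choice of parameters and asymptotics.
-/

set_option autoImplicit false

open Complex MeasureTheory Set Filter Topology DirichletCharacter
open scoped Real ComplexConjugate

namespace Pool.Agent.MP_f259ea_nt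

lemma params {lam : ℝ} (h0 : 0 < lam) (h1 : lam < 1) :
    ∃ (k : ℕ) (p : ℝ → ℝ), Tendsto p atTop atTop ∧ Tendsto (fun T => T / p T ^ 2) atTop atTop ∧
      (∀ T : ℝ, 1 ≤ T → p T ^ 3 * Real.exp (lam * Real.log T) = T ∧ T ^ 5 ≤ p T ^ k) := by
  set η := (1 - lam) / 3 with hη
  have hη0 : 0 < η := by rw [hη]; linarith
  refine ⟨⌈5 / η⌉₊, fun T => T ^ η, tendsto_rpow_atTop hη0, ?_, fun T hT => ⟨?_, ?_⟩⟩
  · refine (tendsto_rpow_atTop (y := 1 - 2 * η) (by rw [hη]; linarith)).congr' ?_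
    filter_upwards [eventually_gt_atTop 0] with T hT
    rw [Real.rpow_sub hT, Real.rpow_one, ← Real.rpow_natCast, ← Real.rpow_mul hT.le]
    congr 2
    push_cast; ring
  · have hT0 : 0 < T := by linarith
    rw [← Real.rpow_natCast, ← Real.rpow_mul hT0.le, mul_comm lam, ← Real.rpow_def_of_pos hT0,
      ← Real.rpow_add hT0]
    have : η * (3 : ℕ) + lam = 1 := by rw [hη]; push_cast; ring
    rw [this, Real.rpow_one]
  · have hT0 : 0 < T := by linarith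
    rw [← Real.rpow_natCast, ← Real.rpow_natCast, ← Real.rpow_mul hT0.le]
    apply Real.rpow_le_rpow_of_exponent_le hT
    have := Nat.le_ceil (5 / η)
    rw [div_le_iff₀ hη0] at this
    push_cast
    linarith

lemma tendsto_div_log_sq : Tendsto (fun T : ℝ => T / Real.log T ^ 2) atTop atTop := by
  have h := (Real.isLittleO_pow_log_id_atTop (n := 2)).tendsto_div_nhds_zero
  have h2 : Tendsto (fun T : ℝ => Real.log T ^ 2 / T) atTop (𝓝[>] 0) := by
    refine tendsto_nhdsWithin_iff.2 ⟨h, ?_⟩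
    filter_upwards [eventually_gt_atTop 1] with T hT
    have := Real.log_pos hT
    simp only [mem_Ioi]
    positivity
  simpa [Function.comp_def] using tendsto_inv_nhdsGT_zero.comp h2

/-- Extension of a kernel from `[-1, 1]` to the line. -/
lemma exists_ext {K : ℝ → ℝ} (hK : ContinuousOn K (Icc (-1) 1))
    (hK0 : ∀ a ∈ Icc (-1 : ℝ) 1, 0 ≤ K a) {e : ℝ} (he : 0 < e) :
    ∃ (Kt : ℝ → ℝ) (ρ : ℝ), Continuous Kt ∧ (∀ a, 0 ≤ Kt a) ∧ 0 < ρ ∧ Kt 0 = K 0 ∧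
      (∀ a ∈ Icc (-1 : ℝ) 1, ∀ a', |a - a'| < ρ → K a ≤ Kt a' + e) ∧
      ∫ a in (0 : ℝ)..1, a * (Kt a + Kt (-a) + 2 * e) = (∫ a in (-1 : ℝ)..1, |a| * K a) + e := by
  have hmem : ∀ a : ℝ, max (-1) (min a 1) ∈ Icc (-1 : ℝ) 1 := fun a =>
    ⟨le_max_left _ _, max_le (by norm_num) (min_le_right _ _)⟩
  have hid : ∀ a ∈ Icc (-1 : ℝ) 1, max (-1) (min a 1) = a := fun a ha => by
    rw [min_eq_left ha.2, max_eq_right ha.1]
  have hc : Continuous fun a : ℝ => K (max (-1) (min a 1)) :=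
    hK.comp_continuous (by fun_prop) hmem
  obtain ⟨ρ, hρ, hu⟩ := Metric.uniformContinuousOn_iff.1
    (isCompact_Icc.uniformContinuousOn_of_continuous hK) e he
  refine ⟨fun a => K (max (-1) (min a 1)), ρ, hc, fun a => hK0 _ (hmem a), hρ,
    by simp, fun a ha a' h => ?_, ?_⟩
  · have h1 := hu a ha _ (hmem a') (by
      rw [Real.dist_eq]
      refine lt_of_le_of_lt ?_ h
      obtain ⟨h1, h2⟩ := ha
      simp only [max_def, min_def]
      split_ifs <;> rw [abs_le] <;> constructor <;>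
        linarith [le_abs_self (a - a'), neg_abs_le (a - a'), abs_nonneg (a - a')])
    rw [Real.dist_eq, abs_lt] at h1
    linarith
  · set Kt : ℝ → ℝ := fun a => K (max (-1) (min a 1)) with hKt
    have e1 : ∫ a in (-1 : ℝ)..1, |a| * K a = ∫ a in (-1 : ℝ)..1, |a| * Kt a := by
      apply intervalIntegral.integral_congr
      intro a ha
      rw [uIcc_of_le (by norm_num)] at ha
      simp only [hKt, hid a ha]
    have e2 : ∫ a in (-1 : ℝ)..0, |a| * Kt a = ∫ a in (0 : ℝ)..1, a * Kt (-a) := by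
      have := intervalIntegral.integral_comp_neg (a := 0) (b := 1) (fun a => |a| * Kt a)
      rw [neg_zero] at this
      rw [← this]
      apply intervalIntegral.integral_congr
      intro a ha
      rw [uIcc_of_le (by norm_num)] at ha
      simp only [abs_neg, abs_of_nonneg ha.1]
    have e3 : ∫ a in (0 : ℝ)..1, |a| * Kt a = ∫ a in (0 : ℝ)..1, a * Kt a := by
      apply intervalIntegral.integral_congr
      intro a ha
      rw [uIcc_of_le (by norm_num)] at ha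
      simp only [abs_of_nonneg ha.1]
    rw [e1, ← intervalIntegral.integral_add_adjacent_intervals (a := -1) (b := 0) (c := 1)
      (Continuous.intervalIntegrable (by fun_prop) _ _)
      (Continuous.intervalIntegrable (by fun_prop) _ _), e2, e3]
    have e4 : (fun a : ℝ => a * (Kt a + Kt (-a) + 2 * e))
        = fun a => a * Kt (-a) + a * Kt a + 2 * e * a := by funext a; ring
    change ∫ a in (0 : ℝ)..1, (fun a : ℝ => a * (Kt a + Kt (-a) + 2 * e)) a = _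
    rw [e4, intervalIntegral.integral_add (Continuous.intervalIntegrable (by fun_prop) _ _)
      (Continuous.intervalIntegrable (by fun_prop) _ _),
      intervalIntegral.integral_add (Continuous.intervalIntegrable (by fun_prop) _ _)
      (Continuous.intervalIntegrable (by fun_prop) _ _), intervalIntegral.integral_const_mul,
      integral_id]
    ring

lemma exists_small {K0 J lam ε : ℝ} (hε : 0 < ε) :
    ∃ e : ℝ, 0 < e ∧ (1 + e) * ((K0 + e) / lam + lam * (J + e + e)) ≤ K0 / lam + lam * J + ε := by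
  have hc : Continuous fun e : ℝ => (1 + e) * ((K0 + e) / lam + lam * (J + e + e)) := by fun_prop
  have h1 : ∀ᶠ e in 𝓝 (0 : ℝ),
      (1 + e) * ((K0 + e) / lam + lam * (J + e + e)) < K0 / lam + lam * J + ε :=
    hc.continuousAt.eventually_lt continuousAt_const (by simpa using hε)
  obtain ⟨e, he1, he2⟩ := ((h1.filter_mono nhdsWithin_le_nhds).and
    (self_mem_nhdsWithin (a := (0 : ℝ)) (s := Ioi 0))).exists
  exact ⟨e, he2, he1.le⟩

lemma theta_le_one {T H r Cw B2 Bh Nall L E3 E1 : ℝ} (hT : 1 ≤ T) (hH0 : 0 ≤ H) (hH : H ≤ T)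
    (hr0 : 0 ≤ r) (hr : T ^ 5 * r ≤ 1) (hCw : 0 < Cw) (hB2 : 0 ≤ B2) (hBh : Bh ≤ T)
    (hN0 : 0 ≤ Nall) (hN : Nall ≤ T ^ 2) (hL : L ≤ T) (hE3 : E3 ≤ T ^ 2) (hE30 : 0 ≤ E3) (hE1 : E1 ≤ T)
    (hE10 : 0 ≤ E1) (hbig : Cw * (14 + 2 * B2) ≤ T) :
    2 * (3 * Bh * (Cw * r) + B2 * (Cw * H * r)) * E3 + L * (Cw * H * r)
      + 2 * π * (Nall * (Cw * r) * E1) ≤ 1 := by
  have hpi := Real.pi_le_four
  have hpi3 := Real.pi_lt_d2
  have hpi0 := Real.pi_pos
  have hT2 : T ^ 2 ≤ T ^ 3 := pow_le_pow_right₀ hT (by norm_num)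
  have hT3 : T ^ 4 ≤ T ^ 5 := pow_le_pow_right₀ hT (by norm_num)
  have h1 : 2 * (3 * Bh * (Cw * r) + B2 * (Cw * H * r)) * E3
      ≤ 2 * (3 * T * (Cw * r) + B2 * (Cw * T * r)) * T ^ 2 := by gcongr
  have h2 : L * (Cw * H * r) ≤ T * (Cw * T * r) := by gcongr
  have h3 : 2 * π * (Nall * (Cw * r) * E1) ≤ 2 * 3.15 * (T ^ 2 * (Cw * r) * T) := by gcongr
  have h4 : T * (Cw * T * r) ≤ Cw * r * T ^ 3 := by
    calc T * (Cw * T * r) = Cw * r * T ^ 2 := by ring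
      _ ≤ _ := by gcongr
  have h5 : Cw * (14 + 2 * B2) * (r * T ^ 3) ≤ T * (r * T ^ 3) := by gcongr
  have h6 : T * (r * T ^ 3) ≤ 1 := by
    calc T * (r * T ^ 3) = T ^ 4 * r := by ring
      _ ≤ T ^ 5 * r := by gcongr
      _ ≤ 1 := hr
  have h7 : 0 ≤ Cw * r * T ^ 3 := by positivity
  nlinarith

variable {N : ℕ} [NeZero N] (χ : DirichletCharacter ℂ N)

lemma sep_params {H ℓ T p : ℝ} (hH : 20 ≤ H) (hℓ : 0 < ℓ) (hp : 26 ≤ p) (hHp : H = T / p ^ 2)
    (hT : p ^ 3 * Real.exp (2 * π * ℓ) = T) :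
    ∃ X : ℕ, (X : ℝ) ≤ 2 * Real.exp (2 * π * ℓ) ∧ (∀ n : ℕ, X < n → ℓ + 1 / H ≤ un n) ∧
      2 * (1 / H) ≤ 1 / (2 * π * X) ∧ 2 * (1 / H) ≤ un 2 := by
  have hpi := Real.pi_lt_d2
  have hpi0 := Real.pi_pos
  have hH0 : 0 < H := by linarith
  have hδ : 1 / H ≤ 1 / 20 := by gcongr
  have hδ0 : 0 < 1 / H := by positivity
  have hlog := Real.log_two_gt_d9
  have hX : (⌊Real.exp (2 * π * (ℓ + 1 / H))⌋₊ : ℝ) ≤ 2 * Real.exp (2 * π * ℓ) := by
    refine (Nat.floor_le (Real.exp_pos _).le).trans ?_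
    rw [mul_add, Real.exp_add, mul_comm]
    gcongr
    refine le_trans (Real.exp_le_exp.2 ?_) (Real.exp_log (show (0 : ℝ) < 2 by norm_num)).le
    nlinarith
  have hX1 : (1 : ℝ) ≤ ⌊Real.exp (2 * π * (ℓ + 1 / H))⌋₊ := by
    have : 1 ≤ ⌊Real.exp (2 * π * (ℓ + 1 / H))⌋₊ :=
      Nat.le_floor (by simpa using Real.one_le_exp (by positivity))
    exact_mod_cast this
  refine ⟨⌊Real.exp (2 * π * (ℓ + 1 / H))⌋₊, hX, fun n hn => ?_, ?_, ?_⟩
  · have h1 : Real.exp (2 * π * (ℓ + 1 / H)) < n := (Nat.floor_lt (Real.exp_pos _).le).1 hn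
    have h2 := Real.log_lt_log (Real.exp_pos _) h1
    rw [Real.log_exp] at h2
    unfold un
    rw [le_div_iff₀ (by positivity)]
    linarith
  · have hE := Real.exp_pos (2 * π * ℓ)
    have hp0 : 0 < p := by linarith
    have h1 : H = p * Real.exp (2 * π * ℓ) := by rw [hHp, ← hT]; field_simp
    rw [mul_one_div, div_le_div_iff₀ hH0 (by positivity), one_mul]
    calc 2 * (2 * π * (⌊Real.exp (2 * π * (ℓ + 1 / H))⌋₊ : ℝ))
        ≤ 2 * (2 * 3.15 * (2 * Real.exp (2 * π * ℓ))) := by gcongr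
      _ ≤ p * Real.exp (2 * π * ℓ) := by nlinarith
      _ = H := h1.symm
  · unfold un
    rw [le_div_iff₀ (by positivity)]
    push_cast
    nlinarith

lemma norm_nu_zero_le {w : ℂ → ℂ} {Cw : ℝ} (Zi Zt : Finset ℂ) (h : ∀ z ∈ Zt, ‖w z‖ ≤ Cw) :
    ‖nu χ w Zi Zt 0‖ ≤ ∑ z ∈ Zi, (nn χ z : ℝ) + (∑ z ∈ Zt, (nn χ z : ℝ)) * Cw := by
  unfold nu
  refine (norm_add_le _ _).trans (add_le_add ?_ ?_)
  · refine (norm_sum_le _ _).trans (le_of_eq ?_)
    simp
  · rw [Finset.sum_mul]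
    refine (norm_sum_le _ _).trans (Finset.sum_le_sum fun z hz => ?_)
    have := h z hz
    simp only [ofReal_zero, mul_zero, zero_mul, Complex.exp_zero, mul_one, norm_mul, norm_natCast]
    gcongr

lemma arith_c {L T U C Cw ME ε Ni Nt ν : ℝ} (hU : 1 ≤ U) (hL : 0 ≤ L) (hC : 0 ≤ C) (hCw : 0 < Cw)
    (hT : 1 ≤ T) (hME : 0 ≤ ME) (hNt : Nt ≤ 16 * C * U * L) (hν : ν ≤ Ni + Nt * Cw)
    (hUL : (12 + 400 * C * (Cw + 1)) * U * L ≤ ε * T * L) (hTM : (6 * ME + 14) * T ≤ ε * L * T)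
    (hII : L * (T - 2 - 2 * U) ≤ 2 * π * ν + 2 * (ME * T) + 1) :
    (1 - ε) * (T * L / (2 * π)) ≤ Ni := by
  have hpi := Real.pi_lt_d2
  have hpi0 := Real.pi_pos
  have h2 : Nt * Cw ≤ 16 * C * U * L * Cw := by gcongr
  have h3 : 2 * π * ν ≤ 2 * π * Ni + 2 * 3.15 * (16 * C * U * L * Cw) := by
    calc _ ≤ 2 * π * (Ni + 16 * C * U * L * Cw) := by gcongr; linarith
      _ = 2 * π * Ni + 2 * π * (16 * C * U * L * Cw) := by ring
      _ ≤ _ := by gcongr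
  rw [← mul_div_assoc, div_le_iff₀ (by positivity)]
  have h4 : L ≤ U * L := by nlinarith
  have hCUL : 0 ≤ C * U * L := by positivity
  have hCCUL : 0 ≤ C * Cw * U * L := by positivity
  have hMET : 0 ≤ ME * T := by positivity
  nlinarith

lemma arith_d {L T U C Cw ε : ℝ} (hU : 1 ≤ U) (hL : 0 ≤ L) (hC : 0 ≤ C) (hCw : 0 < Cw)
    (hUL : (12 + 400 * C * (Cw + 1)) * U * L ≤ ε * T * L) :
    16 * C * U * L ≤ ε * (T * L / (2 * π)) := by
  have hpi := Real.pi_lt_d2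
  have hpi0 := Real.pi_pos
  rw [← mul_div_assoc, le_div_iff₀ (by positivity)]
  have hCUL : 0 ≤ C * U * L := by positivity
  have hCCUL : 0 ≤ C * Cw * U * L := by positivity
  have hUL0 : 0 ≤ U * L := by positivity
  calc 16 * C * U * L * (2 * π) ≤ 16 * C * U * L * (2 * 3.15) := by gcongr
    _ ≤ _ := by nlinarith

lemma arith_e {L T U C Cw ME ε Nt S : ℝ} (hU : 1 ≤ U) (hL : 0 ≤ L) (hC : 0 ≤ C) (hCw : 0 < Cw)
    (hT : 1 ≤ T) (hME : 0 ≤ ME) (hNt : Nt ≤ 16 * C * U * L) (hS : S ≤ Nt * (Cw + 1))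
    (hUL : (12 + 400 * C * (Cw + 1)) * U * L ≤ ε * T * L) (hTM : (6 * ME + 14) * T ≤ ε * L * T) :
    1 + S ≤ ε * (T * L / (2 * π)) := by
  have hpi := Real.pi_lt_d2
  have hpi0 := Real.pi_pos
  have h2 : Nt * (Cw + 1) ≤ 16 * C * U * L * (Cw + 1) := by gcongr
  rw [← mul_div_assoc, le_div_iff₀ (by positivity)]
  have hCUL : 0 ≤ C * U * L := by positivity
  have hCCUL : 0 ≤ C * Cw * U * L := by positivity
  have hUL0 : 0 ≤ U * L := by positivity
  have hMET : 0 ≤ ME * T := by positivity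
  calc _ ≤ (1 + 16 * C * U * L * (Cw + 1)) * (2 * π) := by gcongr; linarith
    _ ≤ (1 + 16 * C * U * L * (Cw + 1)) * (2 * 3.15) := by gcongr
    _ ≤ _ := by nlinarith

lemma arith_b {L T ℓ lam e ε K0 J Km ME I₀ Sg : ℝ} (hl0 : 0 < lam) (hL : 1 ≤ L) (hT : 1 ≤ T)
    (hℓ : ℓ = lam * L / (2 * π)) (hℓ1 : 1 ≤ ℓ) (he : 0 < e) (hε : 0 < ε) (hKm : 0 ≤ Km)
    (hesm : (1 + e) * ((K0 + e) / lam + lam * (J + e + e)) ≤ K0 / lam + lam * J + ε / 2)
    (hLK : (1 + 1 / e) * Km * (6 * ME ^ 2 + 6) / ε ≤ L)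
    (h1 : Sg ≤ (2 * π * ℓ) ^ 2 * (J + e + e))
    (hI : 4 * π ^ 2 * I₀ ≤ (1 + e) * (T / ℓ * (L ^ 2 * (K0 + e) + Sg))
      + (1 + 1 / e) * Km * (6 * (ME ^ 2 * T / ℓ) + 6 * 1 ^ 2)) :
    I₀ ≤ (K0 / lam + lam * J + ε) * (T * L / (2 * π)) := by
  have hpi3 := Real.pi_gt_three
  have hpi0 := Real.pi_pos
  have h2 : (1 + e) * (T / ℓ * (L ^ 2 * (K0 + e) + (2 * π * ℓ) ^ 2 * (J + e + e)))
      = 4 * π ^ 2 * ((1 + e) * ((K0 + e) / lam + lam * (J + e + e))
        * (T * L / (2 * π))) := by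
    rw [hℓ]; field_simp; ring
  have h3 : (1 + 1 / e) * Km * (6 * (ME ^ 2 * T / ℓ) + 6 * 1 ^ 2)
      ≤ 4 * π ^ 2 * (ε / 2 * (T * L / (2 * π))) := by
    have h4 : ME ^ 2 * T / ℓ ≤ ME ^ 2 * T := div_le_self (by positivity) hℓ1
    rw [div_le_iff₀ hε] at hLK
    calc _ ≤ (1 + 1 / e) * Km * (6 * (ME ^ 2 * T) + 6 * T) := by gcongr; linarith
      _ = (1 + 1 / e) * Km * (6 * ME ^ 2 + 6) * T := by ring
      _ ≤ L * ε * T := by gcongr
      _ ≤ π * (L * ε * T) := by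
          have : 0 ≤ L * ε * T := by positivity
          nlinarith
      _ = _ := by field_simp; ring
  have h5 : 4 * π ^ 2 * I₀ ≤ 4 * π ^ 2 * ((K0 / lam + lam * J + ε) * (T * L / (2 * π))) := by
    refine hI.trans ?_
    have h6 : (1 + e) * ((K0 + e) / lam + lam * (J + e + e)) * (T * L / (2 * π))
        ≤ (K0 / lam + lam * J + ε / 2) * (T * L / (2 * π)) := by gcongr
    calc _ ≤ (1 + e) * (T / ℓ * (L ^ 2 * (K0 + e) + (2 * π * ℓ) ^ 2 * (J + e + e)))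
          + 4 * π ^ 2 * (ε / 2 * (T * L / (2 * π))) := by gcongr
      _ ≤ 4 * π ^ 2 * ((K0 / lam + lam * J + ε / 2) * (T * L / (2 * π)))
          + 4 * π ^ 2 * (ε / 2 * (T * L / (2 * π))) := by rw [h2]; gcongr
      _ = _ := by ring
  exact le_of_mul_le_mul_left h5 (by positivity)

lemma count_out (hχ : χ.IsPrimitive) {C tc T U L : ℝ} (hC : 0 ≤ C)
    (hcount : ∀ t R : ℝ, tc ≤ t → 0 ≤ R → ∀ Z : Finset ℂ,
      (∀ z ∈ Z, t ≤ z.re ∧ z.re ≤ t + R ∧ |z.im| < 1 / 2) →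
        ∑ z ∈ Z, (nn χ z : ℝ) ≤ C * (R + 1) * Real.log (t + R + 1))
    (htc' : tc ≤ T) (hU1 : 1 ≤ U) (hU2 : 2 * U + 2 ≤ T) (hlog2 : Real.log (2 * T + 1) ≤ 2 * L)
    (Z : Finset ℂ) (hZ : ∀ z, z ∈ Z ↔ T < z.re ∧ z.re ≤ 2 * T ∧ Xi χ z = 0) :
    ∑ z ∈ Z.filter (fun z => ¬ (T + 1 + U + U ≤ z.re ∧ z.re ≤ 2 * T - 1 - U - U)), (nn χ z : ℝ)
      ≤ 16 * C * U * L := by
  classical
  have him : ∀ z ∈ Z, |z.im| < 1 / 2 := fun z hz => by
    obtain ⟨h1, -, h3⟩ := (hZ z).1 hz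
    exact abs_im_lt_of_Xi_eq_zero χ hχ (by linarith) h3
  set P : ℂ → Prop := fun z => T + 1 + U + U ≤ z.re ∧ z.re ≤ 2 * T - 1 - U - U with hP
  rw [← Finset.sum_filter_add_sum_filter_not (Z.filter (fun z => ¬ P z))
    (fun z => z.re ≤ T + (1 + 2 * U))]
  have h1 := hcount T (1 + 2 * U) htc' (by linarith)
    ((Z.filter (fun z => ¬ P z)).filter (fun z => z.re ≤ T + (1 + 2 * U))) (fun z hz => by
      simp only [Finset.mem_filter] at hz
      exact ⟨((hZ z).1 hz.1.1).1.le, hz.2, him z hz.1.1⟩)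
  have h2 := hcount (2 * T - 1 - 2 * U) (1 + 2 * U) (by linarith) (by linarith)
    ((Z.filter (fun z => ¬ P z)).filter (fun z => ¬ z.re ≤ T + (1 + 2 * U))) (fun z hz => by
      simp only [Finset.mem_filter, hP, not_and, not_le] at hz
      refine ⟨?_, by linarith [((hZ z).1 hz.1.1).2.1], him z hz.1.1⟩
      linarith [hz.1.2 (by linarith [hz.2])])
  have h3 : Real.log (T + (1 + 2 * U) + 1) ≤ 2 * L :=
    (Real.log_le_log (by linarith) (by linarith)).trans hlog2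
  have h4 : Real.log (2 * T - 1 - 2 * U + (1 + 2 * U) + 1) ≤ 2 * L :=
    (Real.log_le_log (by linarith) (by linarith)).trans hlog2
  have h5 : C * (1 + 2 * U + 1) * Real.log (T + (1 + 2 * U) + 1) ≤ C * (4 * U) * (2 * L) := by
    gcongr
    · exact Real.log_nonneg (by linarith)
    · linarith
  have h6 : C * (1 + 2 * U + 1) * Real.log (2 * T - 1 - 2 * U + (1 + 2 * U) + 1)
      ≤ C * (4 * U) * (2 * L) := by
    gcongr
    · exact Real.log_nonneg (by linarith)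
    · linarith
  linarith

lemma count_all (hχ : χ.IsPrimitive) {C tc T L : ℝ} (hC : 0 ≤ C) (htc : 1 ≤ tc)
    (hcount : ∀ t R : ℝ, tc ≤ t → 0 ≤ R → ∀ Z : Finset ℂ,
      (∀ z ∈ Z, t ≤ z.re ∧ z.re ≤ t + R ∧ |z.im| < 1 / 2) →
        ∑ z ∈ Z, (nn χ z : ℝ) ≤ C * (R + 1) * Real.log (t + R + 1))
    (htc' : tc ≤ T) (hL1 : 1 ≤ L) (hlog2 : Real.log (2 * T + 1) ≤ 2 * L) (hC4 : 4 * C ≤ T / L ^ 2)
    (Z : Finset ℂ) (hZ : ∀ z, z ∈ Z ↔ T < z.re ∧ z.re ≤ 2 * T ∧ Xi χ z = 0) :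
    ∑ z ∈ Z, (nn χ z : ℝ) ≤ T ^ 2 := by
  have hT0 : 0 < T := by linarith
  have h1 := hcount T T htc' hT0.le Z (fun z hz => by
    obtain ⟨h1, h2, h3⟩ := (hZ z).1 hz
    exact ⟨h1.le, by linarith, abs_im_lt_of_Xi_eq_zero χ hχ (by linarith) h3⟩)
  rw [le_div_iff₀ (by positivity)] at hC4
  have h2 : T + T + 1 = 2 * T + 1 := by ring
  rw [h2] at h1
  calc _ ≤ C * (T + 1) * Real.log (2 * T + 1) := h1
    _ ≤ C * (2 * T) * (2 * L) := by
        gcongr
        · exact Real.log_nonneg (by linarith)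
        · linarith
    _ ≤ C * (2 * T) * (2 * L ^ 2) := by gcongr; nlinarith
    _ = T * (4 * C * L ^ 2) := by ring
    _ ≤ T * T := by gcongr
    _ = T ^ 2 := by ring

lemma basic_ineqs {T p lam ε Q : ℝ} (hT4 : 4 ≤ T) (hp : 26 ≤ p) (hl1 : lam < 1) (hε : 0 < ε)
    (hL1 : 1 ≤ Real.log T) (hQ : Q / ε ≤ p) :
    T / p ^ 2 ≤ T / p ∧ T / p ≤ T / 26 ∧ T / p ^ 2 / (T / p) = 1 / p ∧ Real.log T ≤ T ∧
      Real.log (2 * T + 1) ≤ 2 * Real.log T ∧ Real.exp (lam * Real.log T) ≤ T ∧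
      Q * (T / p) ≤ ε * T := by
  have hT0 : 0 < T := by linarith
  have hp0 : 0 < p := by linarith
  refine ⟨by gcongr; nlinarith, by gcongr, by field_simp, ?_, ?_, ?_, ?_⟩
  · have := Real.log_le_sub_one_of_pos hT0
    linarith
  · rw [← Real.log_rpow hT0]
    apply Real.log_le_log (by linarith)
    rw [Real.rpow_two]; nlinarith
  · refine le_trans (Real.exp_le_exp.2 ?_) (Real.exp_log hT0).le
    nlinarith
  · rw [div_le_iff₀ hε] at hQ
    rw [← mul_div_assoc, div_le_iff₀ hp0]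
    nlinarith

lemma exp_ineqs {T ℓ : ℝ} (hℓ : 0 < ℓ) (h : Real.exp (2 * π * ℓ) ≤ T) :
    Real.exp (3 * π * ℓ) ≤ T ^ 2 ∧ Real.exp (π * ℓ) ≤ T := by
  have hpi0 := Real.pi_pos
  have h1 : 0 < π * ℓ := by positivity
  constructor
  · calc Real.exp (3 * π * ℓ) ≤ Real.exp (2 * π * ℓ + 2 * π * ℓ) :=
          Real.exp_le_exp.2 (by nlinarith)
      _ = Real.exp (2 * π * ℓ) ^ 2 := by rw [Real.exp_add]; ring
      _ ≤ T ^ 2 := by gcongr
  · exact (Real.exp_le_exp.2 (by nlinarith)).trans h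

lemma height_ineq {Ch T L t : ℝ} (hL : 1 ≤ L) (hlog2 : Real.log (2 * T + 1) ≤ 2 * L)
    (hCh : 4 * max Ch 0 ≤ T / L ^ 2) (h1 : 1 ≤ t) (h2 : t ≤ 2 * T + 1) :
    Ch * Real.log t ^ 2 ≤ T := by
  have h3 : Real.log t ≤ 2 * L := (Real.log_le_log (by linarith) h2).trans hlog2
  have h4 := Real.log_nonneg h1
  rw [le_div_iff₀ (by positivity)] at hCh
  calc Ch * Real.log t ^ 2 ≤ max Ch 0 * (2 * L) ^ 2 := by
        gcongr
        exact le_max_left _ _
    _ ≤ T := by linarith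

theorem core_asymp (hχ : χ.IsPrimitive) {K : ℝ → ℝ} (hK : ContinuousOn K (Icc (-1) 1))
    (hK0 : ∀ a ∈ Icc (-1 : ℝ) 1, 0 ≤ K a) {lam ε : ℝ} (hl0 : 0 < lam) (hl1 : lam < 1)
    (hε : 0 < ε) :
    ∀ᶠ T in atTop, ∀ Z : Finset ℂ, (∀ z, z ∈ Z ↔ T < z.re ∧ z.re ≤ 2 * T ∧ Xi χ z = 0) →
      ∃ (Zi Zt : Finset ℂ) (w : ℂ → ℂ), Zi ⊆ Z ∧ Zt ⊆ Z ∧ (∀ z ∈ Zi, conj z ∈ Zi) ∧
        (∀ z ∈ Zt, conj z ∈ Zt) ∧ (∀ z, w (conj z) = conj (w z)) ∧
        (∫ s in (-1 : ℝ)..1, K s * ‖nu χ w Zi Zt (s * (lam * Real.log T / (2 * π)))‖ ^ 2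
          ≤ (K 0 / lam + lam * (∫ a in (-1 : ℝ)..1, |a| * K a) + ε)
            * (T * Real.log T / (2 * π))) ∧
        (1 - ε) * (T * Real.log T / (2 * π)) ≤ ∑ z ∈ Zi, (nn χ z : ℝ) ∧
        ∑ z ∈ Z, (nn χ z : ℝ) ≤ ∑ z ∈ Zi, (nn χ z : ℝ) + ε * (T * Real.log T / (2 * π)) ∧
        1 + ∑ z ∈ Zt, (1 + ‖(nn χ z : ℂ) * w z‖) ≤ ε * (T * Real.log T / (2 * π)) := by
  classical
  obtain ⟨k, p, hp, hHt, hpT⟩ := params hl0 hl1
  obtain ⟨Cw, hCw, hWt⟩ := stmtWeight k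
  obtain ⟨Ch, th, hHe⟩ := stmtHeights N χ
  obtain ⟨Cg, hg⟩ := stmtDigamma N χ
  obtain ⟨C, tc, hC, htc, hcount⟩ := count_long χ stmtCount hχ
  obtain ⟨Km, hKm⟩ : ∃ Km, ∀ a ∈ Icc (-1 : ℝ) 1, K a ≤ Km := by
    obtain ⟨Km, h⟩ := isCompact_Icc.bddAbove_image hK
    exact ⟨Km, fun a ha => h (mem_image_of_mem _ ha)⟩
  have hKm0 : 0 ≤ Km := (hK0 0 (by simp)).trans (hKm 0 (by simp))
  set J := ∫ a in (-1 : ℝ)..1, |a| * K a with hJ
  obtain ⟨e, he, hesm⟩ := exists_small (K0 := K 0) (J := J) (lam := lam) (half_pos hε)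
  obtain ⟨Kt, ρ, hKtc, hKt0, hρ, hKt00, hKtρ, hKtint⟩ := exists_ext hK hK0 he
  obtain ⟨Y₀, hY⟩ := stmtMertens (fun a => Kt a + Kt (-a) + 2 * e) (by fun_prop)
    (fun a => by have := hKt0 a; have := hKt0 (-a); positivity) e he
  rw [hKtint, ← hJ] at hY
  set ME := (Real.log N / 2 + Cg + 1) * Cw with hME
  have hCg : 0 ≤ Cg := (norm_nonneg _).trans (hg 2 le_rfl)
  have hME0 : 0 ≤ ME := by
    have := Real.log_natCast_nonneg N
    positivity
  have hB2 := Btwo_nonneg χ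
  have hpi := Real.pi_lt_d2
  have hpi3 := Real.pi_gt_three
  have hpi0 := Real.pi_pos
  have hℓt : Tendsto (fun T : ℝ => lam * Real.log T / (2 * π)) atTop atTop :=
    (Real.tendsto_log_atTop.const_mul_atTop hl0).atTop_div_const (by positivity)
  filter_upwards [eventually_ge_atTop th, eventually_ge_atTop tc, eventually_ge_atTop 4,
    eventually_ge_atTop (Cw * (14 + 2 * Btwo χ)), hp.eventually_ge_atTop 26,
    hp.eventually_ge_atTop ((12 + 400 * C * (Cw + 1)) / ε), hHt.eventually_ge_atTop 20,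
    hℓt.eventually_ge_atTop 1, hℓt.eventually_ge_atTop (1 / ρ),
    (Real.tendsto_log_atTop.const_mul_atTop hl0).eventually_ge_atTop Y₀,
    tendsto_div_log_sq.eventually_ge_atTop (4 * max Ch 0),
    tendsto_div_log_sq.eventually_ge_atTop (4 * C),
    Real.tendsto_log_atTop.eventually_ge_atTop 1,
    Real.tendsto_log_atTop.eventually_ge_atTop ((1 + 1 / e) * Km * (6 * ME ^ 2 + 6) / ε),
    Real.tendsto_log_atTop.eventually_ge_atTop ((6 * ME + 14) / ε)]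
    with T hth htc' hT4 hTθ hp26 hpε hH20 hℓ1 hℓρ hY₀ hCh hC4 hL1 hLK hLM Z hZ
  have hT1 : 1 ≤ T := by linarith only [hT4]
  obtain ⟨hpexp, hpk⟩ := hpT T hT1
  obtain ⟨hHU, hU26, hHU', hLT, hlog2, hexp, hUε⟩ := basic_ineqs hT4 hp26 hl1 hε hL1 hpε
  set L := Real.log T with hL
  set ℓ := lam * L / (2 * π) with hℓdef
  set H := T / p T ^ 2 with hH
  set U := T / p T with hU
  have hT0 : 0 < T := by linarith only [hT4]
  have hp0 : 0 < p T := by linarith only [hp26]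
  have hL0 : 0 ≤ L := by linarith only [hL1]
  have hY2 : 2 * π * ℓ = lam * L := by rw [hℓdef]; field_simp
  have hℓ0 : 0 < ℓ := by linarith only [hℓ1]
  have hU2 : 2 * U + 2 ≤ T := by linarith only [hU26, hT4]
  have hHT : H ≤ T := by linarith only [hHU, hU26, hT4]
  have hH0 : 0 < H := by linarith only [hH20]
  have hU1 : 1 ≤ U := by linarith only [hH20, hHU]
  obtain ⟨w, W, hw, hwc, hW, hWc, hsupp, hW0, hW2, hFT, hwb, hin, hout, htail⟩ :=
    hWt H (T + 1 + U) (2 * T - 1 - U) (by linarith only [hH20]) (by linarith only [hU2])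
  obtain ⟨a, ha, hLa⟩ := hHe T hth
  obtain ⟨b, hb, hLb⟩ := hHe (2 * T - 1) (by linarith only [hth, hT4])
  obtain ⟨X, hX, hX1, hX2, hX3⟩ := sep_params hH20 hℓ0 hp26 hH (by rw [hY2]; exact hpexp)
  have hNall := count_all χ hχ hC htc hcount htc' hL1 hlog2 hC4 Z hZ
  have hNout := count_out χ hχ hC hcount htc' hU1 hU2 hlog2 Z hZ
  obtain ⟨hE3, hE1⟩ := exp_ineqs (T := T) hℓ0 (by rw [hY2]; exact hexp)
  have hr0 : 0 ≤ (H / U) ^ k := by positivity
  have hθ := theta_le_one (T := T) (H := H) (r := (H / U) ^ k) (Cw := Cw) (B2 := Btwo χ) (Bh := T)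
    (Nall := T ^ 2) (L := L) (E3 := Real.exp (3 * π * ℓ)) (E1 := Real.exp (π * ℓ)) hT1
    hH0.le hHT hr0 (by
      rw [hHU', div_pow, one_pow, mul_one_div, div_le_one (by positivity)]; exact hpk) hCw hB2
    le_rfl (by positivity) le_rfl hLT hE3 (Real.exp_pos _).le hE1 (Real.exp_pos _).le hTθ
  have hρ' : 1 / H / ℓ ≤ ρ := by
    rw [div_le_iff₀ hρ] at hℓρ
    rw [div_le_iff₀ hℓ0]
    have : 1 / H ≤ 1 := by rw [div_le_one hH0]; linarith only [hH20]
    linarith only [this, hℓρ]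
  obtain ⟨Zt, hZt, hZtc, hI, hII⟩ := finite_core χ stmtRect stmtPlanch hχ hK hK0 hKm he hKt0
    (T := T) (U := U) (H := H) (ℓ := ℓ) (Cw := Cw) (r := (H / U) ^ k) (Bh := T) (Cg := Cg)
    (X := X) (by linarith only [hT4]) hHU hU2 hH0 hℓ0 hCw hr0 hw hwc hW hWc hsupp hW0
    hW2 hFT hwb (fun z hz h1 h2 => hin z U hz hHU h1 h2) (fun z hz h => hout z U hz hHU h)
    (fun v hv => htail v U hv hHU) ha ⟨hb.1, by linarith only [hb.2]⟩ (by
      rintro t (rfl | rfl) σ hσ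
      · exact ⟨(hLa σ hσ).1, (hLa σ hσ).2.trans
          (height_ineq hL1 hlog2 hCh hT1 (by linarith only [hT1]))⟩
      · exact ⟨(hLb σ hσ).1, (hLb σ hσ).2.trans
          (height_ineq hL1 hlog2 hCh (by linarith only [hT1]) (by linarith only [hT1]))⟩)
    hg hX1 hX2 hX3 (fun a ha a' h => hKtρ a ha a' (h.trans_le hρ')) Z hZ hNall hθ
  set P : ℂ → Prop := fun z => T + 1 + U + U ≤ z.re ∧ z.re ≤ 2 * T - 1 - U - U with hP
  have hZtZ : Zt ⊆ Z := hZt.trans (Finset.filter_subset _ _)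
  have hNt : ∑ z ∈ Zt, (nn χ z : ℝ) ≤ 16 * C * U * L :=
    (Finset.sum_le_sum_of_subset_of_nonneg hZt (fun _ _ _ => by positivity)).trans hNout
  have hLM' : 6 * ME + 14 ≤ ε * L := by rw [div_le_iff₀ hε] at hLM; linarith only [hLM]
  have hUL : (12 + 400 * C * (Cw + 1)) * U * L ≤ ε * T * L :=
    mul_le_mul_of_nonneg_right hUε hL0
  have hTM : (6 * ME + 14) * T ≤ ε * L * T := mul_le_mul_of_nonneg_right hLM' hT0.le
  have hwZt : ∀ z ∈ Zt, ‖w z‖ ≤ Cw := fun z hz => by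
    obtain ⟨h1, -, h3⟩ := (hZ z).1 (hZtZ hz)
    have := abs_im_lt_of_Xi_eq_zero χ hχ (hT0.trans h1) h3
    exact hwb z (by linarith only [this])
  refine ⟨Z.filter P, Zt, w, Finset.filter_subset _ _, hZtZ, ?_, hZtc, hwc, ?_, ?_, ?_, ?_⟩
  · intro z hz
    simp only [Finset.mem_filter, hZ, hP, conj_re] at hz ⊢
    exact ⟨⟨hz.1.1, hz.1.2.1, (Xi_conj_eq_zero_iff χ hχ (hT0.trans hz.1.1)).2 hz.1.2.2⟩, hz.2⟩
  · have h1 := hY (2 * π * ℓ) (by rw [hY2]; exact hY₀) X hX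
    rw [hKt00] at hI
    exact arith_b hl0 hL1 hT1 hℓdef hℓ1 he hε hKm0 hesm hLK h1 hI
  · exact arith_c hU1 hL0 hC hCw hT1 hME0 hNt (norm_nu_zero_le χ (Z.filter P) Zt hwZt) hUL hTM hII
  · rw [← Finset.sum_filter_add_sum_filter_not Z P]
    exact add_le_add le_rfl (hNout.trans (arith_d hU1 hL0 hC hCw hUL))
  · refine arith_e hU1 hL0 hC hCw hT1 hME0 hNt ?_ hUL hTM
    rw [Finset.sum_mul]
    refine Finset.sum_le_sum fun z hz => ?_
    obtain ⟨h1, -, h3⟩ := (hZ z).1 (hZtZ hz)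
    have h4 : (1 : ℝ) ≤ nn χ z := by exact_mod_cast one_le_nn χ (hT0.trans h1) h3
    have h5 := hwZt z hz
    rw [norm_mul, Complex.norm_natCast]
    have : (nn χ z : ℝ) * ‖w z‖ ≤ nn χ z * Cw := mul_le_mul_of_nonneg_left h5 (by positivity)
    linarith only [this, h4]

end Pool.Agent.MP_f259ea_nt

end

section

/-!
Part A: the finite inequality implies the bound for distinct zeros.
-/

set_option autoImplicit false

open Complex MeasureTheory Set Filter Topology DirichletCharacter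
open scoped Real ComplexConjugate

namespace Pool.Agent.MP_f259ea_nt

lemma mu_image (Z : Finset ℂ) (c : ℂ → ℂ) {ℓ : ℝ} (hℓ : 0 < ℓ) (s : ℝ) :
    mu (Z.image fun z => (ℓ : ℂ) * z) (fun x => c (x / ℓ)) s
      = ∑ z ∈ Z, c z * Complex.exp (2 * π * I * ((s * ℓ : ℝ) : ℂ) * z) := by
  have hℓ' : (ℓ : ℂ) ≠ 0 := by exact_mod_cast hℓ.ne'
  unfold mu
  rw [Finset.sum_image (fun _ _ _ _ h => mul_left_cancel₀ hℓ' h)]
  refine Finset.sum_congr rfl fun z _ => ?_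
  simp only [mul_div_cancel_left₀ _ hℓ']
  congr 2
  push_cast; ring

lemma exists_lam {K0 J α β η c : ℝ} (h : c * β < α - η - (K0 + J)) :
    ∃ lam ε : ℝ, 0 < lam ∧ lam < 1 ∧ 0 < ε ∧ ε < 1 ∧
      c * β < α * (1 - ε) - η * lam - (K0 / lam + lam * J + ε) - ε := by
  have hc : ContinuousAt (fun e : ℝ => α * (1 - e) - η * (1 - e)
      - (K0 / (1 - e) + (1 - e) * J + e) - e) 0 := by
    fun_prop (disch := norm_num)
  have h1 : ∀ᶠ e in 𝓝 (0 : ℝ), c * β < α * (1 - e) - η * (1 - e)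
      - (K0 / (1 - e) + (1 - e) * J + e) - e :=
    continuousAt_const.eventually_lt hc (by simpa using h)
  have h2 : ∀ᶠ e in 𝓝 (0 : ℝ), e < 1 := eventually_lt_nhds one_pos
  obtain ⟨e, ⟨he1, he3⟩, he2⟩ := (((h1.and h2).filter_mono nhdsWithin_le_nhds).and
    (self_mem_nhdsWithin (a := (0 : ℝ)) (s := Ioi 0))).exists
  have he2' : 0 < e := he2
  exact ⟨1 - e, e, by linarith, by linarith, he2', he3, he1⟩

lemma arith_final {M Ni Na D c α β η lam Jl ε : ℝ} (hM : 0 ≤ M) (hβ : 0 < β) (hc : 0 ≤ c)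
    (hε1 : ε < 1) (hε : 0 < ε) (hη : 0 ≤ η) (hl : 0 < lam) (hJ : 0 ≤ Jl)
    (h : c * β < α * (1 - ε) - η * lam - (Jl + ε) - ε)
    (h1 : (1 - ε) * M ≤ Ni) (h2 : Na ≤ Ni + ε * M)
    (h3 : α * Ni - β * D - η * (lam * M) - ε * M ≤ (Jl + ε) * M) : c * Na ≤ D := by
  have hNi : 0 ≤ Ni := le_trans (mul_nonneg (by linarith) hM) h1
  have h4 : (1 - ε) * Na ≤ Ni := by nlinarith
  have hA : 0 ≤ η * lam + Jl + 2 * ε := by positivity
  have h5 : (η * lam + Jl + 2 * ε) * ((1 - ε) * M) ≤ (η * lam + Jl + 2 * ε) * Ni := by gcongr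
  have h6 : (1 - ε) * (α * Ni - (η * lam + Jl + 2 * ε) * M) ≤ (1 - ε) * (β * D) := by
    apply mul_le_mul_of_nonneg_left _ (by linarith)
    linarith
  have h7 : c * β * Ni ≤ (α * (1 - ε) - η * lam - (Jl + ε) - ε) * Ni := by gcongr
  have h8 : c * β * ((1 - ε) * Na) ≤ c * β * Ni := by gcongr
  have h9 : (1 - ε) * β * (c * Na) ≤ (1 - ε) * β * D := by nlinarith
  exact le_of_mul_le_mul_left h9 (mul_pos (by linarith) hβ)

theorem stmtA : StmtA := by
  classical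
  intro K α β η c hK hK0 hβ hη hB hc N _ χ hχ
  rcases lt_or_ge c 0 with hc0 | hc0
  · refine ⟨0, fun T _ => le_trans ?_ (Nat.cast_nonneg _)⟩
    exact mul_nonpos_of_nonpos_of_nonneg hc0.le
      (finsum_nonneg fun _ => finsum_nonneg fun _ => Nat.cast_nonneg _)
  obtain ⟨CB, hB⟩ := hB
  unfold Jval at hc
  set J := ∫ a in (-1 : ℝ)..1, |a| * K a with hJ
  have hJ0 : 0 ≤ J := intervalIntegral.integral_nonneg (by norm_num)
    (fun a ha => mul_nonneg (abs_nonneg _) (hK0 a ha))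
  have hK00 : 0 ≤ K 0 := hK0 0 (by simp)
  obtain ⟨lam, ε, hl0, hl1, hε, hε1, hsm⟩ := exists_lam hc
  have hC1 : 0 < max CB 0 + 1 := by positivity
  have hε' : 0 < ε / (max CB 0 + 1) := by positivity
  have hε'' : ε / (max CB 0 + 1) ≤ ε := div_le_self hε.le (by linarith [le_max_right CB 0])
  have hcore := core_asymp χ hχ hK hK0 hl0 hl1 hε'
  obtain ⟨T₀, hT₀⟩ := eventually_atTop.1 (hcore.and (eventually_gt_atTop 1))
  refine ⟨T₀, fun T hT => ?_⟩
  obtain ⟨h1, hT1⟩ := hT₀ T hT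
  have hT0 : 0 < T := by linarith
  obtain ⟨Z, hZ, e1, e2⟩ := target_sets χ hχ hT0
  rw [e1, e2]
  obtain ⟨Zi, Zt, w, hZi, hZt, hZic, hZtc, hwc, hI, hN1, hN2, hN3⟩ := h1 Z hZ
  have hL : 0 < Real.log T := Real.log_pos hT1
  have hpi := Real.pi_pos
  set ℓ := lam * Real.log T / (2 * π) with hℓdef
  set M := T * Real.log T / (2 * π) with hM
  have hℓ : 0 < ℓ := by positivity
  have hM0 : 0 ≤ M := by positivity
  have hℓ' : (ℓ : ℂ) ≠ 0 := by exact_mod_cast hℓ.ne'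
  have hinj : Function.Injective fun z : ℂ => (ℓ : ℂ) * z := fun _ _ h => mul_left_cancel₀ hℓ' h
  have h2 := hB (Zi.image fun z => (ℓ : ℂ) * z) (Zt.image fun z => (ℓ : ℂ) * z)
    (fun x => nn χ (x / ℓ)) (fun x => (nn χ (x / ℓ) : ℂ) * w (x / ℓ)) (ℓ * T) (ℓ * T)
    (by positivity) (by
      intro x hx
      obtain ⟨z, hz, rfl⟩ := Finset.mem_image.1 hx
      obtain ⟨h1, h2, h3⟩ := (hZ z).1 (hZi hz)
      have e : conj ((ℓ : ℂ) * z) = ℓ * conj z := by simp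
      refine ⟨Finset.mem_image.2 ⟨conj z, hZic z hz, e.symm⟩, ?_, ?_, ?_, ?_⟩
      · simp only [e, mul_div_cancel_left₀ _ hℓ']
        exact nn_conj χ hχ (hT0.trans h1)
      · simp only [mul_div_cancel_left₀ _ hℓ']
        exact one_le_nn χ (hT0.trans h1) h3
      · simp only [re_ofReal_mul]
        gcongr
      · simp only [re_ofReal_mul]
        nlinarith) (by
      intro x hx
      obtain ⟨z, hz, rfl⟩ := Finset.mem_image.1 hx
      obtain ⟨h1, -, -⟩ := (hZ z).1 (hZt hz)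
      have e : conj ((ℓ : ℂ) * z) = ℓ * conj z := by simp
      refine ⟨Finset.mem_image.2 ⟨conj z, hZtc z hz, e.symm⟩, ?_⟩
      simp only [e, mul_div_cancel_left₀ _ hℓ']
      rw [nn_conj χ hχ (hT0.trans h1), hwc]
      simp)
  have e3 : ∀ s : ℝ, mu (Zi.image fun z => (ℓ : ℂ) * z) (fun x => (nn χ (x / ℓ) : ℂ)) s
      + mu (Zt.image fun z => (ℓ : ℂ) * z) (fun x => (nn χ (x / ℓ) : ℂ) * w (x / ℓ)) s
      = nu χ w Zi Zt (s * ℓ) := by
    intro s
    rw [mu_image Zi (fun z => (nn χ z : ℂ)) hℓ, mu_image Zt (fun z => (nn χ z : ℂ) * w z) hℓ]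
    rfl
  simp only [e3] at h2
  rw [Finset.sum_image (fun _ _ _ _ h => hinj h), Finset.sum_image (fun _ _ _ _ h => hinj h),
    Finset.card_image_of_injective _ hinj] at h2
  simp only [mul_div_cancel_left₀ _ hℓ'] at h2
  have hcard : (Zi.card : ℝ) ≤ Z.card := by exact_mod_cast Finset.card_le_card hZi
  have hS0 : 0 ≤ 1 + ∑ z ∈ Zt, (1 + ‖(nn χ z : ℂ) * w z‖) := by positivity
  have h3 : CB * (1 + ∑ z ∈ Zt, (1 + ‖(nn χ z : ℂ) * w z‖)) ≤ ε * M := by
    calc _ ≤ (max CB 0 + 1) * (1 + ∑ z ∈ Zt, (1 + ‖(nn χ z : ℂ) * w z‖)) := by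
          gcongr
          linarith [le_max_left CB 0]
      _ ≤ (max CB 0 + 1) * (ε / (max CB 0 + 1) * M) := by gcongr
      _ = ε * M := by field_simp
  have h4 : ε / (max CB 0 + 1) * M ≤ ε * M := by gcongr
  have h5 : ℓ * T = lam * M := by rw [hℓdef, hM]; ring
  refine arith_final (M := M) (Ni := ∑ z ∈ Zi, (nn χ z : ℝ)) (α := α) (η := η) (lam := lam)
    (Jl := K 0 / lam + lam * J) (ε := ε) hM0 hβ hc0 hε1 hε hη hl0 (by positivity) hsm
    (by linarith) (by linarith) ?_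
  have h6 : β * (Zi.card : ℝ) ≤ β * Z.card := by gcongr
  rw [h5] at h2
  linarith

end Pool.Agent.MP_f259ea_nt

end
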