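import Pool.Agent.Mg.Ff259ea.Gae27b5

section

/-!
Fourier transform of the tent function and of piecewise linear kernels.
-/

set_option autoImplicit false

open Complex MeasureTheory Set
open scoped Real ComplexConjugate

namespace Pool.Agent.MP_f259ea_nt

theorem tent_nonneg (x : ℝ) : 0 ≤ tent x := le_max_right _ _

theorem continuous_tent : Continuous tent := by
  unfold tent; fun_prop

theorem tent_eq_zero {x : ℝ} (hx : 1 ≤ |x|) : tent x = 0 := by
  unfold tent; exact max_eq_right (by linarith)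

theorem tent_neg (x : ℝ) : tent (-x) = tent x := by simp [tent]

theorem tent_of_le {x : ℝ} (hx : |x| ≤ 1) : tent x = 1 - |x| := by
  unfold tent; exact max_eq_left (by linarith)

/-- `∫_0^D exp (c u) du`. -/
noncomputable def cE (D : ℝ) (c : ℂ) : ℂ := ∫ u in (0 : ℝ)..D, Complex.exp (c * u)

theorem int_lin_exp (D : ℝ) {c : ℂ} (hc : c ≠ 0) :
    ∫ a in (0 : ℝ)..D, ((D - a : ℝ) : ℂ) * Complex.exp (c * a)
      = (Complex.exp (c * D) - 1) / c ^ 2 - D / c := by
  have h : ∀ a ∈ uIcc (0 : ℝ) D, HasDerivAt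
      (fun a : ℝ => ((D - a : ℝ) : ℂ) * Complex.exp (c * a) / c + Complex.exp (c * a) / c ^ 2)
      (((D - a : ℝ) : ℂ) * Complex.exp (c * a)) a := by
    intro a _
    have h1 : HasDerivAt (fun a : ℝ => Complex.exp (c * a)) (Complex.exp (c * a) * c) a := by
      have := ((hasDerivAt_id (a : ℂ)).const_mul c).cexp.comp_ofReal
      simpa using this
    have h2 : HasDerivAt (fun a : ℝ => ((D - a : ℝ) : ℂ)) (-1) a := by
      have := ((hasDerivAt_id a).const_sub D).ofReal_comp
      simpa using this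
    have := ((h2.mul h1).div_const c).add (h1.div_const (c ^ 2))
    refine this.congr_deriv ?_
    field_simp
    ring
  rw [intervalIntegral.integral_eq_sub_of_hasDerivAt h
    (Continuous.intervalIntegrable (by fun_prop) _ _)]
  simp only [sub_self, ofReal_zero, zero_mul, zero_div, zero_add, sub_zero, mul_zero,
    Complex.exp_zero, mul_one]
  ring

theorem tent_integral_base {D : ℝ} (hD : 0 < D) (c : ℂ) :
    ∫ a : ℝ, ((D * tent (a / D) : ℝ) : ℂ) * Complex.exp (c * a) = cE D c * cE D (-c) := by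
  have hs : Function.support (fun a : ℝ => ((D * tent (a / D) : ℝ) : ℂ) * Complex.exp (c * a))
      ⊆ Ioc (-D) D := by
    intro a ha
    by_contra hn
    apply ha
    have : 1 ≤ |a / D| := by
      rw [abs_div, abs_of_pos hD, le_div_iff₀ hD, one_mul, le_abs]
      simp only [mem_Ioc, not_and_or, not_lt, not_le] at hn
      rcases hn with h | h
      · right; linarith
      · left; linarith
    simp [tent_eq_zero this]
  have hc : Continuous (fun a : ℝ => ((D * tent (a / D) : ℝ) : ℂ) * Complex.exp (c * a)) := by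
    have := continuous_tent
    fun_prop
  rw [← intervalIntegral.integral_eq_integral_of_support_subset hs,
    ← intervalIntegral.integral_add_adjacent_intervals (b := 0)
      (hc.intervalIntegrable _ _) (hc.intervalIntegrable _ _)]
  have e1 : ∫ a in (0 : ℝ)..D, ((D * tent (a / D) : ℝ) : ℂ) * Complex.exp (c * a)
      = ∫ a in (0 : ℝ)..D, ((D - a : ℝ) : ℂ) * Complex.exp (c * a) := by
    refine intervalIntegral.integral_congr fun a ha => ?_
    rw [uIcc_of_le hD.le] at ha
    have : |a / D| = a / D := abs_of_nonneg (div_nonneg ha.1 hD.le)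
    have h2 : D * tent (a / D) = D - a := by
      rw [tent_of_le (by rw [this, div_le_one hD]; exact ha.2), this]; field_simp
    simp only [h2]
  have e2 : ∫ a in (-D)..(0 : ℝ), ((D * tent (a / D) : ℝ) : ℂ) * Complex.exp (c * a)
      = ∫ a in (0 : ℝ)..D, ((D - a : ℝ) : ℂ) * Complex.exp (-c * a) := by
    have := intervalIntegral.integral_comp_neg (a := 0) (b := D)
      (fun a : ℝ => ((D * tent (a / D) : ℝ) : ℂ) * Complex.exp (c * a))
    rw [neg_zero] at this
    rw [← this]
    refine intervalIntegral.integral_congr fun a ha => ?_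
    rw [uIcc_of_le hD.le] at ha
    have : |a / D| = a / D := abs_of_nonneg (div_nonneg ha.1 hD.le)
    have h2 : D * tent (-a / D) = D - a := by
      rw [neg_div, tent_neg, tent_of_le (by rw [this, div_le_one hD]; exact ha.2), this]
      field_simp
    simp only [h2]
    congr 2
    push_cast; ring
  rw [e1, e2]
  rcases eq_or_ne c 0 with rfl | hc0
  · simp only [cE, neg_zero, zero_mul, Complex.exp_zero, mul_one]
    rw [intervalIntegral.integral_ofReal, intervalIntegral.integral_sub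
      (intervalIntegrable_const) (continuous_id'.intervalIntegrable _ _)]
    simp only [intervalIntegral.integral_const, integral_id, sub_zero, smul_eq_mul, real_smul,
      mul_one]
    push_cast; ring
  · rw [int_lin_exp D hc0, int_lin_exp D (neg_ne_zero.2 hc0), cE, cE,
      integral_exp_mul_complex hc0, integral_exp_mul_complex (neg_ne_zero.2 hc0)]
    have : Complex.exp (c * D) * Complex.exp (-c * D) = 1 := by
      rw [← Complex.exp_add]; simp
    simp only [ofReal_zero, mul_zero, Complex.exp_zero]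
    generalize Complex.exp (c * D) = A at this ⊢
    generalize Complex.exp (-c * D) = B at this ⊢
    field_simp
    linear_combination this

theorem tent_integral {D : ℝ} (hD : 0 < D) (j : ℝ) (c : ℂ) :
    ∫ a : ℝ, ((D * tent (a / D - j) : ℝ) : ℂ) * Complex.exp (c * a)
      = Complex.exp (c * (j * D)) * (cE D c * cE D (-c)) := by
  rw [← tent_integral_base hD c, ← integral_const_mul,
    ← integral_add_right_eq_self _ (j * D)]
  congr 1; funext a
  have : (a + j * D) / D - j = a / D := by field_simp; ring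
  rw [this]; push_cast
  rw [mul_add, Complex.exp_add]; ring

theorem tent_integrable {D : ℝ} (hD : 0 < D) (j : ℝ) {g : ℝ → ℂ} (hg : Continuous g) :
    Integrable (fun a : ℝ => ((D * tent (a / D - j) : ℝ) : ℂ) * g a) := by
  have := continuous_tent
  refine Continuous.integrable_of_hasCompactSupport (by fun_prop) ?_
  refine HasCompactSupport.intro (K := Icc ((j - 1) * D) ((j + 1) * D)) isCompact_Icc ?_
  intro a ha
  have : 1 ≤ |a / D - j| := by
    simp only [mem_Icc, not_and_or, not_le] at ha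
    rw [le_abs]
    rcases ha with h | h
    · right
      have : a / D < j - 1 := by rw [div_lt_iff₀ hD]; exact h
      linarith
    · left
      have : j + 1 < a / D := by rw [lt_div_iff₀ hD]; exact h
      linarith
  simp [tent_eq_zero this]

/-- Piecewise linear kernel of a matrix `W`. -/
noncomputable def KW (n : ℕ) (D : ℝ) (W : ℕ → ℕ → ℝ) (a : ℝ) : ℝ :=
  ∑ i ∈ Finset.range n, ∑ i' ∈ Finset.range n, W i i' * (D * tent (a / D - ((i : ℝ) - (i' : ℝ))))

/-- Fourier transform of the cell `[(i - n/2) D, (i + 1 - n/2) D]`. -/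
noncomputable def cell (n : ℕ) (D : ℝ) (i : ℕ) (z : ℂ) : ℂ :=
  Complex.exp (2 * π * I * z * ((((i : ℝ) - (n : ℝ) / 2) * D : ℝ) : ℂ)) * cE D (2 * π * I * z)

theorem KW_integrable (n : ℕ) {D : ℝ} (hD : 0 < D) (W : ℕ → ℕ → ℝ) {g : ℝ → ℂ}
    (hg : Continuous g) : Integrable (fun a : ℝ => (KW n D W a : ℂ) * g a) := by
  unfold KW
  push_cast
  simp_rw [Finset.sum_mul]
  refine integrable_finsetSum _ fun i _ => integrable_finsetSum _ fun i' _ => ?_
  have := (tent_integrable hD ((i : ℝ) - i') hg).const_mul (W i i' : ℂ)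
  refine this.congr (Filter.Eventually.of_forall fun a => ?_)
  push_cast; ring

theorem KW_ft (n : ℕ) {D : ℝ} (hD : 0 < D) (W : ℕ → ℕ → ℝ) (z : ℂ) :
    ∫ a : ℝ, (KW n D W a : ℂ) * Complex.exp (2 * π * I * a * z)
      = ∑ i ∈ Finset.range n, ∑ i' ∈ Finset.range n, W i i' * (cell n D i z * cell n D i' (-z)) := by
  have hint : ∀ i i' : ℕ, Integrable (fun a : ℝ => (W i i' : ℂ) *
      (((D * tent (a / D - ((i : ℝ) - i')) : ℝ) : ℂ) * Complex.exp (2 * π * I * z * a))) :=
    fun i i' => (tent_integrable hD ((i : ℝ) - i') (by fun_prop)).const_mul _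
  have e : (fun a : ℝ => (KW n D W a : ℂ) * Complex.exp (2 * π * I * a * z)) = fun a : ℝ =>
      ∑ i ∈ Finset.range n, ∑ i' ∈ Finset.range n, (W i i' : ℂ) *
      (((D * tent (a / D - ((i : ℝ) - i')) : ℝ) : ℂ) * Complex.exp (2 * π * I * z * a)) := by
    funext a
    unfold KW
    rw [ofReal_sum, Finset.sum_mul]
    refine Finset.sum_congr rfl fun i _ => ?_
    rw [ofReal_sum, Finset.sum_mul]
    refine Finset.sum_congr rfl fun i' _ => ?_
    rw [ofReal_mul, show 2 * π * I * a * z = 2 * π * I * z * a by ring]; ring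
  rw [e, integral_finsetSum _ fun i _ => integrable_finsetSum _ fun i' _ => hint i i']
  refine Finset.sum_congr rfl fun i _ => ?_
  rw [integral_finsetSum _ fun i' _ => hint i i']
  refine Finset.sum_congr rfl fun i' _ => ?_
  rw [integral_const_mul, tent_integral hD]
  congr 1
  unfold cell
  rw [show 2 * π * I * -z = -(2 * π * I * z) by ring]
  have : Complex.exp (2 * π * I * z * (((i : ℝ) - (i' : ℝ) : ℝ) * D)) =
      Complex.exp (2 * π * I * z * ((((i : ℝ) - (n : ℝ) / 2) * D : ℝ) : ℂ)) *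
      Complex.exp (-(2 * π * I * z) * ((((i' : ℝ) - (n : ℝ) / 2) * D : ℝ) : ℂ)) := by
    rw [← Complex.exp_add]; congr 1; push_cast; ring
  rw [this]; ring

theorem continuous_mu (Z : Finset ℂ) (c : ℂ → ℂ) : Continuous (mu Z c) := by
  unfold mu; fun_prop

theorem normSq_mu (Z : Finset ℂ) (c : ℂ → ℂ) (a : ℝ) :
    ((‖mu Z c a‖ ^ 2 : ℝ) : ℂ) = ∑ x ∈ Z, ∑ y ∈ Z,
      c x * conj (c y) * Complex.exp (2 * π * I * a * (x - conj y)) := by
  rw [ofReal_pow, ← Complex.mul_conj', mu, map_sum, Finset.sum_mul_sum]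
  refine Finset.sum_congr rfl fun x _ => Finset.sum_congr rfl fun y _ => ?_
  rw [map_mul, ← Complex.exp_conj]
  have : Complex.exp (2 * π * I * a * (x - conj y)) =
      Complex.exp (2 * π * I * a * x) * Complex.exp (conj (2 * π * I * a * y)) := by
    rw [← Complex.exp_add]; congr 1
    simp only [map_mul, conj_ofReal, conj_I, map_ofNat]; ring
  rw [this]; ring

theorem KW_mu (n : ℕ) {D : ℝ} (hD : 0 < D) (W : ℕ → ℕ → ℝ) (Z : Finset ℂ) (c : ℂ → ℂ) :
    ((∫ a : ℝ, KW n D W a * ‖mu Z c a‖ ^ 2 : ℝ) : ℂ) = ∑ x ∈ Z, ∑ y ∈ Z, c x * conj (c y) *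
      ∑ i ∈ Finset.range n, ∑ i' ∈ Finset.range n,
        W i i' * (cell n D i (x - conj y) * cell n D i' (-(x - conj y))) := by
  rw [← integral_complex_ofReal]
  have hint : ∀ x y : ℂ, Integrable (fun a : ℝ => c x * conj (c y) *
      ((KW n D W a : ℂ) * Complex.exp (2 * π * I * a * (x - conj y)))) :=
    fun x y => (KW_integrable n hD W (by fun_prop)).const_mul _
  have e : (fun a : ℝ => (((KW n D W a * ‖mu Z c a‖ ^ 2 : ℝ) : ℂ))) = fun a : ℝ =>
      ∑ x ∈ Z, ∑ y ∈ Z, c x * conj (c y) *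
      ((KW n D W a : ℂ) * Complex.exp (2 * π * I * a * (x - conj y))) := by
    funext a
    rw [ofReal_mul, normSq_mu, Finset.mul_sum]
    refine Finset.sum_congr rfl fun x _ => ?_
    rw [Finset.mul_sum]
    refine Finset.sum_congr rfl fun y _ => ?_
    ring
  erw [e]
  rw [integral_finsetSum _ fun x _ => integrable_finsetSum _ fun y _ => hint x y]
  refine Finset.sum_congr rfl fun x _ => ?_
  rw [integral_finsetSum _ fun y _ => hint x y]
  refine Finset.sum_congr rfl fun y _ => ?_
  rw [integral_const_mul, KW_ft n hD]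

theorem KW_mu_integrable (n : ℕ) {D : ℝ} (hD : 0 < D) (W : ℕ → ℕ → ℝ) {g : ℝ → ℝ}
    (hg : Continuous g) : Integrable (fun a : ℝ => KW n D W a * g a) := by
  have := (KW_integrable n hD W (g := fun a => (g a : ℂ)) (by fun_prop)).re
  simpa using this

/-- The cell transform as an integral over the cell. -/
theorem cell_eq (n : ℕ) (D : ℝ) (i : ℕ) (z : ℂ) :
    cell n D i z = ∫ u in (((i : ℝ) - (n : ℝ) / 2) * D)..((((i + 1 : ℕ) : ℝ) - (n : ℝ) / 2) * D),
      Complex.exp (2 * π * I * u * z) := by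
  set s : ℝ := ((i : ℝ) - (n : ℝ) / 2) * D with hs
  have : (((i + 1 : ℕ) : ℝ) - (n : ℝ) / 2) * D = D + s := by rw [hs]; push_cast; ring
  rw [this]
  have h := intervalIntegral.integral_comp_add_right (a := 0) (b := D)
    (fun u : ℝ => Complex.exp (2 * π * I * u * z)) s
  rw [zero_add] at h
  rw [← h, cell, cE, ← hs, ← intervalIntegral.integral_const_mul]
  refine intervalIntegral.integral_congr fun u _ => ?_
  rw [← Complex.exp_add]; congr 1; push_cast; ring

theorem conj_cell (n : ℕ) (D : ℝ) (i : ℕ) (z : ℂ) :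
    conj (cell n D i z) = cell n D i (-conj z) := by
  rw [cell_eq, cell_eq]
  unfold intervalIntegral
  rw [map_sub, ← integral_conj, ← integral_conj]
  suffices h : ∀ u : ℝ, conj (Complex.exp (2 * π * I * u * z))
      = Complex.exp (2 * π * I * u * -conj z) by simp only [h]
  intro u
  rw [← Complex.exp_conj]; congr 1
  simp only [map_mul, conj_ofReal, conj_I, map_ofNat]; ring

theorem cell_zero (n : ℕ) (D : ℝ) (i : ℕ) : cell n D i 0 = D := by
  simp [cell, cE]

end Pool.Agent.MP_f259ea_nt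

end

section

/-!
The finite-dimensional vector model and the positivity input.
-/

set_option autoImplicit false

open Complex MeasureTheory Set
open scoped Real ComplexConjugate MatrixOrder ComplexOrder Matrix

namespace Pool.Agent.MP_f259ea_nt

theorem cell_quad (n : ℕ) (D : ℝ) (i : ℕ) (Z : Finset ℂ) (c : ℂ → ℂ) :
    ∑ x ∈ Z, ∑ y ∈ Z, c x * conj (c y) * cell n D i (x - conj y)
      = ((∫ u in (((i : ℝ) - (n : ℝ) / 2) * D)..((((i + 1 : ℕ) : ℝ) - (n : ℝ) / 2) * D),
          ‖mu Z c u‖ ^ 2 : ℝ) : ℂ) := by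
  rw [← intervalIntegral.integral_ofReal]
  simp only [normSq_mu]
  rw [intervalIntegral.integral_finsetSum fun x _ =>
    Continuous.intervalIntegrable (by fun_prop) _ _]
  refine Finset.sum_congr rfl fun x _ => ?_
  rw [intervalIntegral.integral_finsetSum fun x _ =>
    Continuous.intervalIntegrable (by fun_prop) _ _]
  refine Finset.sum_congr rfl fun y _ => ?_
  rw [intervalIntegral.integral_const_mul, cell_eq]

theorem cell_factor (n : ℕ) {D : ℝ} (hD : 0 < D) (i : ℕ) (Z : Finset ℂ) :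
    ∃ B : ℂ → Z → ℂ, ∀ x ∈ Z, ∀ y ∈ Z,
      ∑ p, B x p * conj (B y p) = cell n D i (x - conj y) := by
  classical
  let A : Matrix Z Z ℂ := fun x y => cell n D i (x - conj (y : ℂ))
  have hA : A.PosSemidef := by
    refine Matrix.PosSemidef.of_dotProduct_mulVec_nonneg ?_ fun ξ => ?_
    · ext x y
      simp only [A, Matrix.conjTranspose_apply, RCLike.star_def, conj_cell, map_sub, conj_conj]
      congr 1; ring
    · let c : ℂ → ℂ := fun x => if h : x ∈ Z then conj (ξ ⟨x, h⟩) else 0
      have h := cell_quad n D i Z c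
      have e : star ξ ⬝ᵥ (A *ᵥ ξ)
          = ∑ x ∈ Z, ∑ y ∈ Z, c x * conj (c y) * cell n D i (x - conj y) := by
        rw [← Finset.sum_coe_sort Z]
        simp only [dotProduct, Matrix.mulVec, Pi.star_apply, RCLike.star_def, Finset.mul_sum]
        refine Finset.sum_congr rfl fun x _ => ?_
        rw [← Finset.sum_coe_sort Z]
        refine Finset.sum_congr rfl fun y _ => ?_
        simp only [A, c, x.2, y.2, dif_pos, conj_conj]
        ring
      rw [e, h]
      refine Complex.zero_le_real.2 (intervalIntegral.integral_nonneg ?_ fun u _ => by positivity)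
      push_cast; nlinarith
  obtain ⟨B, hB⟩ := CStarAlgebra.nonneg_iff_eq_star_mul_self.mp hA.nonneg
  refine ⟨fun x p => if h : x ∈ Z then conj (B p ⟨x, h⟩) else 0, fun x hx y hy => ?_⟩
  have := congrFun (congrFun hB ⟨x, hx⟩) ⟨y, hy⟩
  simp only [A, Matrix.mul_apply, Matrix.star_apply, RCLike.star_def] at this
  simp only [hx, hy, dif_pos, conj_conj]
  exact this.symm

/-- Fourier transform of a step function. -/
noncomputable def ft (n : ℕ) (D : ℝ) (α : ℕ → ℝ) (z : ℂ) : ℂ :=
  ∑ i ∈ Finset.range n, α i * cell n D i z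

theorem conj_ft (n : ℕ) (D : ℝ) (α : ℕ → ℝ) (z : ℂ) :
    conj (ft n D α z) = ft n D α (-conj z) := by
  simp only [ft, map_sum, map_mul, conj_ofReal, conj_cell]

theorem ft_zero (n : ℕ) (D : ℝ) (α : ℕ → ℝ) :
    ft n D α 0 = ((D * ∑ i ∈ Finset.range n, α i : ℝ) : ℂ) := by
  simp only [ft, cell_zero]; push_cast; rw [Finset.mul_sum]
  exact Finset.sum_congr rfl fun i _ => mul_comm _ _

namespace BData

variable {d : BData}

theorem D_pos (hd : d.Good) : 0 < d.D := by
  have := hd.M_pos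
  unfold BData.D; positivity

theorem K_eq : d.K = KW d.n d.D d.w := rfl

theorem w_symm (i i' : ℕ) : d.w i i' = d.w i' i := by
  unfold BData.w
  simp only [mul_comm]

theorem H_symm (i i' : ℕ) : d.H i i' = d.H i' i := by
  unfold BData.H
  simp only [mul_comm]

theorem K_zero (hd : d.Good) {a : ℝ} (ha : 1 ≤ |a|) : d.K a = 0 := by
  unfold BData.K
  refine Finset.sum_eq_zero fun i hi => Finset.sum_eq_zero fun i' hi' => ?_
  rw [Finset.mem_range] at hi hi'
  by_cases h1 : i' + d.M ≤ i
  · simp [BData.w, hd.supp i hi i' hi' h1]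
  by_cases h2 : i + d.M ≤ i'
  · rw [w_symm]; simp [BData.w, hd.supp i' hi' i hi h2]
  have hM : (0 : ℝ) < d.M := by exact_mod_cast hd.M_pos
  have e : a / d.D = a * d.M := by unfold BData.D; field_simp
  have g1 : (i : ℝ) + 1 ≤ i' + d.M := by exact_mod_cast (not_le.1 h1)
  have g2 : (i' : ℝ) + 1 ≤ i + d.M := by exact_mod_cast (not_le.1 h2)
  rw [tent_eq_zero, mul_zero, mul_zero]
  rw [e, le_abs]
  rcases le_abs.1 ha with h | h
  · left; nlinarith
  · right; nlinarith

theorem int_K (hd : d.Good) (g : ℝ → ℝ) :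
    ∫ a in (-1 : ℝ)..1, d.K a * g a = ∫ a, d.K a * g a := by
  refine intervalIntegral.integral_eq_integral_of_support_subset fun a ha => ?_
  by_contra hn
  apply ha
  have : 1 ≤ |a| := by
    simp only [mem_Ioc, not_and_or, not_lt, not_le] at hn
    rw [le_abs]
    rcases hn with h | h
    · right; linarith
    · left; linarith
  simp [K_zero hd this]

theorem model_gen (hd : d.Good) (Z : Finset ℂ) (hZ : ∀ x ∈ Z, conj x ∈ Z) :
    ∃ (v : ℂ → Fin d.n × Z → ℂ),
      (∀ x ∈ Z, ∀ y ∈ Z, ∑ α, v x α * conj (v y α) = ft d.n d.D d.ψ (x - conj y)) ∧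
      ∀ c : ℂ → ℂ, ∫ a in (-1 : ℝ)..1, d.K a * ‖mu Z c a‖ ^ 2
        = ∑ α : Fin d.n × Z, ∑ β : Fin d.n × Z, (1 - ∑ s : Fin d.J, d.c s α.1 * d.c s β.1)
          * ‖∑ x ∈ Z, c x * v x α * conj (v (conj x) β)‖ ^ 2 := by
  have hD := D_pos hd
  choose B hB using fun i => cell_factor d.n hD i Z
  let v : ℂ → Fin d.n × Z → ℂ := fun x α => (√(d.ψ α.1) : ℝ) * B α.1 x α.2
  have key : ∀ (i : Fin d.n), ∀ x ∈ Z, ∀ y ∈ Z,
      ∑ p : Z, v x (i, p) * conj (v y (i, p)) = d.ψ i * cell d.n d.D i (x - conj y) := by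
    intro i x hx y hy
    rw [← hB i x hx y hy, Finset.mul_sum]
    refine Finset.sum_congr rfl fun p _ => ?_
    have h : ((√(d.ψ i) : ℝ) : ℂ) * (√(d.ψ i) : ℝ) = d.ψ i := by
      rw [← ofReal_mul, Real.mul_self_sqrt (hd.ψ_nonneg i i.2)]
    simp only [v, map_mul, conj_ofReal]
    rw [← h]; ring
  refine ⟨v, fun x hx y hy => ?_, fun c => ?_⟩
  · rw [Fintype.sum_prod_type, ft, ← Fin.sum_univ_eq_sum_range
      (fun i => (d.ψ i : ℂ) * cell d.n d.D i (x - conj y))]
    exact Finset.sum_congr rfl fun i _ => key i x hx y hy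
  · rw [int_K hd, K_eq]
    apply Complex.ofReal_injective
    rw [KW_mu d.n hD]
    have hn : ∀ α β : Fin d.n × Z,
        ((‖∑ x ∈ Z, c x * v x α * conj (v (conj x) β)‖ ^ 2 : ℝ) : ℂ) = ∑ x ∈ Z, ∑ y ∈ Z,
          c x * conj (c y) * ((v x α * conj (v y α)) * (v (conj y) β * conj (v (conj x) β))) := by
      intro α β
      rw [ofReal_pow, ← Complex.mul_conj', map_sum, Finset.sum_mul_sum]
      refine Finset.sum_congr rfl fun x _ => Finset.sum_congr rfl fun y _ => ?_
      simp only [map_mul, conj_conj]; ring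
    have step : ∀ i i' : Fin d.n, ∑ p : Z, ∑ q : Z,
        ((‖∑ x ∈ Z, c x * v x (i, p) * conj (v (conj x) (i', q))‖ ^ 2 : ℝ) : ℂ)
        = ∑ x ∈ Z, ∑ y ∈ Z, c x * conj (c y) * ((d.ψ i * cell d.n d.D i (x - conj y)) *
          (d.ψ i' * cell d.n d.D i' (-(x - conj y)))) := by
      intro i i'
      simp only [hn]
      have : ∀ x ∈ Z, ∀ y ∈ Z, c x * conj (c y) * ((d.ψ i * cell d.n d.D i (x - conj y)) *
          (d.ψ i' * cell d.n d.D i' (-(x - conj y)))) = ∑ p : Z, ∑ q : Z,
          c x * conj (c y) * ((v x (i, p) * conj (v y (i, p))) *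
            (v (conj y) (i', q) * conj (v (conj x) (i', q)))) := by
        intro x hx y hy
        have h2 := key i' (conj y) (hZ y hy) (conj x) (hZ x hx)
        rw [conj_conj, show conj y - x = -(x - conj y) by ring] at h2
        rw [← key i x hx y hy, ← h2, Finset.sum_mul_sum, Finset.mul_sum]
        simp only [Finset.mul_sum]
      rw [Finset.sum_congr rfl fun x hx => Finset.sum_congr rfl fun y hy => this x hx y hy]
      symm
      rw [Finset.sum_congr rfl fun x _ => Finset.sum_comm, Finset.sum_comm]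
      refine Finset.sum_congr rfl fun p _ => ?_
      rw [Finset.sum_congr rfl fun x _ => Finset.sum_comm, Finset.sum_comm]
    have lhs : ∀ x y : ℂ, c x * conj (c y) * ∑ i ∈ Finset.range d.n, ∑ i' ∈ Finset.range d.n,
        (d.w i i' : ℂ) * (cell d.n d.D i (x - conj y) * cell d.n d.D i' (-(x - conj y)))
        = ∑ i : Fin d.n, ∑ i' : Fin d.n, ((1 - ∑ s : Fin d.J, d.c s i * d.c s i' : ℝ) : ℂ) *
          (c x * conj (c y) * ((d.ψ i * cell d.n d.D i (x - conj y)) *
          (d.ψ i' * cell d.n d.D i' (-(x - conj y))))) := by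
      intro x y
      rw [← Fin.sum_univ_eq_sum_range (fun i => ∑ i' ∈ Finset.range d.n,
        (d.w i i' : ℂ) * (cell d.n d.D i (x - conj y) * cell d.n d.D i' (-(x - conj y)))),
        Finset.mul_sum]
      refine Finset.sum_congr rfl fun i _ => ?_
      rw [← Fin.sum_univ_eq_sum_range (fun i' =>
        (d.w i i' : ℂ) * (cell d.n d.D i (x - conj y) * cell d.n d.D i' (-(x - conj y)))),
        Finset.mul_sum]
      refine Finset.sum_congr rfl fun i' _ => ?_
      rw [BData.w, ← Fin.sum_univ_eq_sum_range (fun s => d.c s i * d.c s i')]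
      push_cast; ring
    simp only [lhs]
    rw [ofReal_sum, Fintype.sum_prod_type,
      Finset.sum_congr rfl fun x _ => Finset.sum_comm, Finset.sum_comm]
    refine Finset.sum_congr rfl fun i _ => ?_
    simp only [Fintype.sum_prod_type]
    simp only [ofReal_sum (s := (Finset.univ : Finset (Fin d.n))),
      ofReal_sum (s := (Finset.univ : Finset Z))]
    rw [Finset.sum_congr rfl fun x _ => Finset.sum_comm, Finset.sum_comm]
    conv_rhs => rw [Finset.sum_comm]
    refine Finset.sum_congr rfl fun i' _ => ?_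
    simp only [ofReal_mul, ← Finset.mul_sum]
    rw [step]

theorem model (hd : d.Good) : Model d.K (ft d.n d.D d.ψ) d.ν := by
  intro Z hZ
  obtain ⟨v, h1, h2⟩ := model_gen hd Z hZ
  let e := Fintype.equivFin (Fin d.n × Z)
  refine ⟨Fintype.card (Fin d.n × Z), d.J, fun x α => v x (e.symm α),
    fun s α => d.c s (e.symm α).1, fun α => ?_, fun x hx y hy => ?_, fun c => ?_⟩
  · rw [Fin.sum_univ_eq_sum_range (fun s => d.c s (e.symm α).1 ^ 2)]
    exact hd.c_le _ (e.symm α).1.2
  · rw [← h1 x hx y hy]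
    exact Equiv.sum_comp e.symm (fun α => v x α * conj (v y α))
  · rw [h2 c, ← Equiv.sum_comp e.symm]
    refine Finset.sum_congr rfl fun α _ => ?_
    rw [← Equiv.sum_comp e.symm]

end BData

theorem sum_lower (n : ℕ) (G : ℕ → ℕ → ℝ) :
    ∑ m ∈ Finset.range n, ∑ j ∈ Finset.range (m + 1), G m j
      = ∑ r ∈ Finset.range n, ∑ j ∈ Finset.range (n - r), G (j + r) j := by
  rw [← Finset.sum_range_diag_flip n (fun r j => G (j + r) j)]
  refine Finset.sum_congr rfl fun m _ => ?_
  rw [← Finset.sum_flip (n := m) (fun j => G m j)]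
  refine Finset.sum_congr rfl fun r hr => ?_
  rw [Nat.sub_add_cancel (Nat.lt_succ_iff.1 (Finset.mem_range.1 hr))]

theorem sum_square (n : ℕ) (G : ℕ → ℕ → ℝ) :
    ∑ i ∈ Finset.range n, ∑ i' ∈ Finset.range n, G i i' + ∑ i ∈ Finset.range n, G i i
      = ∑ m ∈ Finset.range n, ∑ j ∈ Finset.range (m + 1), G m j
        + ∑ m ∈ Finset.range n, ∑ j ∈ Finset.range (m + 1), G j m := by
  induction n with
  | zero => simp
  | succ m ih =>
    rw [Finset.sum_range_succ (fun m => ∑ j ∈ Finset.range (m + 1), G m j),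
      Finset.sum_range_succ (fun m => ∑ j ∈ Finset.range (m + 1), G j m),
      Finset.sum_range_succ (fun i => G i i),
      Finset.sum_range_succ (fun i => ∑ i' ∈ Finset.range (m + 1), G i i'),
      Finset.sum_range_succ (fun j => G j m)]
    simp only [Finset.sum_range_succ (fun i' => G _ i') m, Finset.sum_add_distrib] at ih ⊢
    linarith

theorem sum_lag (n : ℕ) (W : ℕ → ℕ → ℝ) (hW : ∀ i i', W i i' = W i' i) (T : ℝ → ℝ) :
    ∑ i ∈ Finset.range n, ∑ i' ∈ Finset.range n, W i i' * T ((i : ℝ) - (i' : ℝ))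
      = ∑ r ∈ Finset.range n, (∑ i ∈ Finset.range (n - r), W (i + r) i) * (T r + T (-r))
        - (∑ i ∈ Finset.range n, W i i) * T 0 := by
  have h := sum_square n (fun i i' => W i i' * T ((i : ℝ) - (i' : ℝ)))
  rw [sum_lower n (fun i i' => W i i' * T ((i : ℝ) - (i' : ℝ))),
    sum_lower n (fun i i' => W i' i * T ((i' : ℝ) - (i : ℝ)))] at h
  rw [eq_sub_iff_add_eq, Finset.sum_mul]
  simp only [sub_self] at h
  rw [h, ← Finset.sum_add_distrib]
  refine Finset.sum_congr rfl fun r _ => ?_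
  rw [Finset.sum_mul, ← Finset.sum_add_distrib]
  refine Finset.sum_congr rfl fun i _ => ?_
  rw [hW i (i + r)]
  push_cast
  ring_nf

theorem lag_nonneg (n : ℕ) (W : ℕ → ℕ → ℝ) (hW : ∀ i i', W i i' = W i' i) (T : ℝ → ℝ)
    (hT : ∀ x, 0 ≤ T x) (h : ∀ r < n, 0 ≤ ∑ i ∈ Finset.range (n - r), W (i + r) i) :
    0 ≤ ∑ i ∈ Finset.range n, ∑ i' ∈ Finset.range n, W i i' * T ((i : ℝ) - (i' : ℝ)) := by
  rw [sum_lag n W hW]
  rcases n with _ | m
  · simp
  rw [Finset.sum_range_succ']
  have h0 := h 0 (Nat.succ_pos m)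
  have h1 : 0 ≤ ∑ r ∈ Finset.range m, (∑ i ∈ Finset.range (m + 1 - (r + 1)), W (i + (r + 1)) i)
      * (T ((r + 1 : ℕ) : ℝ) + T (-((r + 1 : ℕ) : ℝ))) :=
    Finset.sum_nonneg fun r hr => mul_nonneg
      (h (r + 1) (Nat.succ_lt_succ (Finset.mem_range.1 hr))) (add_nonneg (hT _) (hT _))
  simp only [Nat.sub_zero, add_zero, Nat.cast_zero, neg_zero] at h0 ⊢
  have := mul_nonneg h0 (hT 0)
  linarith

namespace BData

variable {d : BData}

/-- The minorant `f`. -/
noncomputable def fF (d : BData) (x : ℝ) : ℝ :=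
  ‖ft d.n d.D d.h x‖ ^ 2 + ∑ t ∈ Finset.range d.T, ‖ft d.n d.D (d.g t) x‖ ^ 2

theorem KH_le (hd : d.Good) (a : ℝ) : KW d.n d.D d.H a ≤ KW d.n d.D d.w a := by
  have hD := D_pos hd
  have := lag_nonneg d.n (fun i i' => d.w i i' - d.H i i')
    (fun i i' => by rw [w_symm, H_symm]) (fun j => d.D * tent (a / d.D - j))
    (fun j => mul_nonneg hD.le (tent_nonneg _))
    (fun r hr => by rw [Finset.sum_sub_distrib]; exact sub_nonneg.2 (hd.lag r hr))
  simp only [sub_mul, Finset.sum_sub_distrib] at this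
  exact sub_nonneg.1 this

theorem normSq_ft (n : ℕ) (D : ℝ) (α : ℕ → ℝ) (x : ℝ) :
    ((‖ft n D α x‖ ^ 2 : ℝ) : ℂ) = ∑ i ∈ Finset.range n, ∑ i' ∈ Finset.range n,
      ((α i * α i' : ℝ) : ℂ) * (cell n D i x * cell n D i' (-x)) := by
  rw [ofReal_pow, ← Complex.mul_conj', conj_ft, conj_ofReal, ft, ft, Finset.sum_mul_sum]
  refine Finset.sum_congr rfl fun i _ => Finset.sum_congr rfl fun i' _ => ?_
  push_cast; ring

theorem h1 (hd : d.Good) : H1 d.K d.fF := by
  intro X w hX
  have hD := D_pos hd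
  have hc : Continuous fun a => ‖mu X (fun x => (w x : ℂ)) a‖ ^ 2 :=
    (continuous_mu X _).norm.pow 2
  rw [int_K hd, K_eq]
  refine le_trans (le_of_eq ?_) (integral_mono (KW_mu_integrable d.n hD d.H hc)
    (KW_mu_integrable d.n hD d.w hc) fun a =>
      mul_le_mul_of_nonneg_right (KH_le hd a) (by positivity))
  apply Complex.ofReal_injective
  rw [KW_mu d.n hD, ofReal_sum]
  refine Finset.sum_congr rfl fun x hx => ?_
  rw [ofReal_sum]
  refine Finset.sum_congr rfl fun y hy => ?_
  have e : x - conj y = ((x.re - y.re : ℝ) : ℂ) := by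
    apply Complex.ext <;> simp [hX x hx, hX y hy]
  rw [e, conj_ofReal, ofReal_mul, ofReal_mul]
  congr 1
  rw [fF, ofReal_add, ofReal_sum, normSq_ft]
  simp only [normSq_ft, BData.H, ofReal_add, ofReal_sum, add_mul, Finset.sum_add_distrib,
    Finset.sum_mul]
  congr 1
  rw [Finset.sum_comm]
  refine Finset.sum_congr rfl fun i _ => ?_
  rw [Finset.sum_comm]

end BData

end Pool.Agent.MP_f259ea_nt

end

section

/-!
Fejér majorant, window bound and cosine bounds.
-/

set_option autoImplicit false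

open Complex MeasureTheory Set
open scoped Real ComplexConjugate FourierTransform

namespace Pool.Agent.MP_f259ea_nt

theorem re_cell (n : ℕ) (D : ℝ) (i : ℕ) (x : ℝ) :
    (cell n D i x).re
      = ∫ u in (((i : ℝ) - (n : ℝ) / 2) * D)..((((i + 1 : ℕ) : ℝ) - (n : ℝ) / 2) * D),
        Real.cos (2 * π * u * x) := by
  rw [cell_eq]
  have := intervalIntegral.intervalIntegral_re (𝕜 := ℂ) (μ := volume)
    (f := fun u : ℝ => Complex.exp (2 * π * I * u * x))
    (a := ((i : ℝ) - (n : ℝ) / 2) * D) (b := (((i + 1 : ℕ) : ℝ) - (n : ℝ) / 2) * D)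
    (Continuous.intervalIntegrable (by fun_prop) _ _)
  simp only [RCLike.re_to_complex] at this
  rw [← this]
  refine intervalIntegral.integral_congr fun u _ => ?_
  rw [show (2 * π * I * u * x : ℂ) = ((2 * π * u * x : ℝ) : ℂ) * I by push_cast; ring]
  exact Complex.exp_ofReal_mul_I_re _

/-- The Fejér kernel `(sin (π l u) / (π u))²`. -/
noncomputable def fej (l u : ℝ) : ℝ := ‖cell 1 l 0 u‖ ^ 2

theorem fej_nonneg (l u : ℝ) : 0 ≤ fej l u := by unfold fej; positivity

theorem continuous_fej (l : ℝ) : Continuous (fej l) := by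
  unfold fej
  refine Continuous.pow (Continuous.norm ?_) 2
  simp only [cell_eq]
  exact intervalIntegral.continuous_parametric_intervalIntegral_of_continuous' (by fun_prop) _ _

theorem norm_cell_eq (l u : ℝ) : ‖cell 1 l 0 u‖ = ‖cE l (2 * π * I * u)‖ := by
  unfold cell
  rw [norm_mul, show (2 * π * I * u * ((((0 : ℕ) : ℝ) - ((1 : ℕ) : ℝ) / 2) * l : ℝ) : ℂ)
    = ((2 * π * u * ((((0 : ℕ) : ℝ) - ((1 : ℕ) : ℝ) / 2) * l) : ℝ) : ℂ) * I by push_cast; ring,
    Complex.norm_exp_ofReal_mul_I, one_mul]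

theorem fej_le {l : ℝ} (hl : 0 < l) (u : ℝ) : fej l u ≤ (l ^ 2 + 1) * (1 + u ^ 2)⁻¹ := by
  have hexp : ∀ t : ℝ, ‖Complex.exp (2 * π * I * u * t)‖ = 1 := fun t => by
    rw [show (2 * π * I * u * t : ℂ) = ((2 * π * u * t : ℝ) : ℂ) * I by push_cast; ring]
    exact Complex.norm_exp_ofReal_mul_I _
  have h1 : ‖cell 1 l 0 u‖ ≤ l := by
    rw [norm_cell_eq, cE]
    refine (intervalIntegral.norm_integral_le_of_norm_le_const (C := 1)
      fun t _ => (hexp t).le).trans ?_
    rw [sub_zero, abs_of_pos hl, one_mul]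
  have h2 : ‖cell 1 l 0 u‖ * |u| ≤ 1 := by
    rcases eq_or_ne u 0 with rfl | hu
    · simp
    have hc : (2 * π * I * u : ℂ) ≠ 0 := by
      simp [Real.pi_ne_zero, hu]
    rw [norm_cell_eq, cE, integral_exp_mul_complex hc, norm_div]
    have hn : ‖(2 * π * I * u : ℂ)‖ = 2 * π * |u| := by
      simp [abs_of_pos Real.pi_pos]
    have h3 := norm_sub_le (Complex.exp (2 * π * I * u * l))
      (Complex.exp (2 * π * I * u * (0 : ℝ)))
    rw [hexp, hexp] at h3
    have hu' : 0 < |u| := abs_pos.2 hu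
    rw [hn, div_mul_eq_mul_div, div_le_one (by positivity)]
    nlinarith [Real.pi_gt_three]
  have h0 := norm_nonneg (cell 1 l 0 u)
  rw [fej, ← div_eq_mul_inv, le_div_iff₀ (by positivity)]
  have h4 : (‖cell 1 l 0 u‖ * |u|) ^ 2 ≤ 1 := by
    have : 0 ≤ ‖cell 1 l 0 u‖ * |u| := by positivity
    nlinarith
  rw [mul_pow, sq_abs] at h4
  nlinarith

theorem fej_integrable {l : ℝ} (hl : 0 < l) : Integrable (fej l) := by
  refine (integrable_inv_one_add_sq.const_mul (l ^ 2 + 1)).mono'
    (continuous_fej l).aestronglyMeasurable (Filter.Eventually.of_forall fun u => ?_)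
  rw [Real.norm_of_nonneg (fej_nonneg l u)]
  exact fej_le hl u

theorem fej_ft {l : ℝ} (hl : 0 < l) (x : ℝ) :
    ∫ u : ℝ, (fej l u : ℂ) * Complex.exp (2 * π * I * u * x) = ((l * tent (x / l) : ℝ) : ℂ) := by
  let T : ℝ → ℂ := fun a => ((l * tent (a / l) : ℝ) : ℂ)
  have hT : ∀ a, T a = KW 1 l (fun _ _ => 1) a := fun a => by simp [T, KW]
  have hF : 𝓕 T = fun u => (fej l u : ℂ) := by
    funext u
    rw [Real.fourier_real_eq_integral_exp_smul]
    have := KW_ft 1 hl (fun _ _ => 1) (-(u : ℂ))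
    simp only [Finset.range_one, Finset.sum_singleton, ofReal_one, one_mul, neg_neg] at this
    rw [fej, ofReal_pow, ← Complex.mul_conj', conj_cell, conj_ofReal, mul_comm (cell 1 l 0 u), ← this]
    congr 1; funext a
    rw [hT, smul_eq_mul, mul_comm]
    congr 2; push_cast; ring
  have hc : Continuous T := by
    have := continuous_tent
    fun_prop
  have hi : Integrable T := by
    have := tent_integrable hl 0 (g := fun _ => 1) continuous_const
    simpa [T] using this
  have := congrFun (hc.fourierInv_fourier_eq hi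
    (by rw [hF]; exact (fej_integrable hl).ofReal)) x
  rw [hF, Real.fourierInv_eq'] at this
  change _ = T x
  rw [← this]
  congr 1; funext u
  rw [smul_eq_mul, mul_comm]
  congr 2
  simp only [RCLike.inner_apply, conj_trivial]
  push_cast; ring

theorem fej_ge {l : ℝ} (hl : 0 < l) (u : ℝ) :
    l ^ 2 * (max (1 - π ^ 2 * l ^ 2 * u ^ 2 / 6) 0) ^ 2 ≤ fej l u := by
  have h1 : l * (1 - π ^ 2 * l ^ 2 * u ^ 2 / 6) ≤ ‖cell 1 l 0 u‖ := by
    refine le_trans ?_ (Complex.re_le_norm _)
    rw [re_cell]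
    have e1 : (((0 : ℕ) : ℝ) - ((1 : ℕ) : ℝ) / 2) * l = -(l / 2) := by push_cast; ring
    have e2 : (((0 + 1 : ℕ) : ℝ) - ((1 : ℕ) : ℝ) / 2) * l = l / 2 := by push_cast; ring
    rw [e1, e2]
    have : ∫ t in (-(l / 2))..(l / 2), (1 - 2 * π ^ 2 * u ^ 2 * t ^ 2)
        = l * (1 - π ^ 2 * l ^ 2 * u ^ 2 / 6) := by
      rw [intervalIntegral.integral_sub (by simp) (Continuous.intervalIntegrable (by fun_prop) _ _),
        intervalIntegral.integral_const_mul, integral_pow]
      simp only [intervalIntegral.integral_const, smul_eq_mul]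
      ring
    rw [← this]
    refine intervalIntegral.integral_mono_on (by linarith)
      (Continuous.intervalIntegrable (by fun_prop) _ _)
      (Continuous.intervalIntegrable (by fun_prop) _ _) fun t _ => ?_
    have := Real.one_sub_sq_div_two_le_cos (x := 2 * π * t * u)
    nlinarith
  have h2 : l * max (1 - π ^ 2 * l ^ 2 * u ^ 2 / 6) 0 ≤ ‖cell 1 l 0 u‖ := by
    rcases le_total (1 - π ^ 2 * l ^ 2 * u ^ 2 / 6) 0 with h | h
    · rw [max_eq_right h, mul_zero]; exact norm_nonneg _
    · rw [max_eq_left h]; exact h1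
  rw [fej, ← mul_pow]
  exact pow_le_pow_left₀ (mul_nonneg hl.le (le_max_right _ _)) h2 2

/-- Row sums of the tent matrix under the window condition. -/
theorem window_row {l : ℝ} (hl : 0 < l) (X : Finset ℂ) (w : ℂ → ℝ)
    (hwin : ∀ t : ℝ, ∑ x ∈ X with t ≤ x.re ∧ x.re < t + l, w x ≤ 2) (s : ℝ) :
    ∑ y ∈ X, w y * (l * tent ((s - y.re) / l)) ≤ 2 * l := by
  have key : ∀ y : ℝ, l * tent ((s - y) / l)
      = ∫ t in Ioc (s - l) s, (Ioc (y - l) y).indicator (fun _ => (1 : ℝ)) t := by
    intro y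
    rw [setIntegral_indicator measurableSet_Ioc, Set.Ioc_inter_Ioc]
    simp only [integral_const, MeasurableSet.univ, measureReal_restrict_apply, univ_inter,
      Real.volume_real_Ioc, smul_eq_mul, mul_one]
    unfold tent
    rw [mul_max_of_nonneg _ _ hl.le, mul_zero, abs_div, abs_of_pos hl]
    congr 1
    rcases le_total s y with h | h
    · rw [min_eq_left h, max_eq_right (by linarith), abs_of_nonpos (by linarith)]
      field_simp; ring
    · rw [min_eq_right h, max_eq_left (by linarith), abs_of_nonneg (by linarith)]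
      field_simp; ring
  have hint : ∀ y : ℝ, IntegrableOn ((Ioc (y - l) y).indicator (fun _ => (1 : ℝ)))
      (Ioc (s - l) s) := fun y =>
    (integrableOn_const (by simp)).indicator measurableSet_Ioc
  simp only [key, ← integral_const_mul]
  rw [← integral_finsetSum _ fun y _ => (hint y.re).const_mul _]
  have : ∫ t in Ioc (s - l) s, (2 : ℝ) = 2 * l := by
    simp only [integral_const, MeasurableSet.univ, measureReal_restrict_apply, univ_inter,
      Real.volume_real_Ioc, smul_eq_mul]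
    rw [max_eq_left (by linarith)]; ring
  rw [← this]
  refine integral_mono (integrable_finsetSum _ fun y _ => (hint y.re).const_mul _)
    (integrableOn_const (by simp)) fun t => ?_
  refine le_trans (le_of_eq ?_) (hwin t)
  rw [Finset.sum_filter]
  refine Finset.sum_congr rfl fun y _ => ?_
  by_cases h : t ≤ y.re ∧ y.re < t + l
  · rw [if_pos h, indicator_of_mem (show t ∈ Ioc (y.re - l) y.re from ⟨by linarith [h.2], h.1⟩),
      mul_one]
  · rw [if_neg h, indicator_of_notMem, mul_zero]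
    intro h'; exact h ⟨h'.2, by linarith [h'.1]⟩

theorem fej_mu {l : ℝ} (hl : 0 < l) (X : Finset ℂ) (w : ℂ → ℝ) (ξ : ℂ → ℂ)
    (hX : ∀ x ∈ X, x.im = 0) (hw : ∀ x ∈ X, 0 ≤ w x)
    (hwin : ∀ t : ℝ, ∑ x ∈ X with t ≤ x.re ∧ x.re < t + l, w x ≤ 2) :
    Integrable (fun u => fej l u * ‖mu X (fun x => ξ x * (√(w x) : ℝ)) u‖ ^ 2) ∧
    ∫ u, fej l u * ‖mu X (fun x => ξ x * (√(w x) : ℝ)) u‖ ^ 2 ≤ 2 * l * ∑ x ∈ X, ‖ξ x‖ ^ 2 := by
  set c : ℂ → ℂ := fun x => ξ x * (√(w x) : ℝ) with hc
  have e : ∀ x ∈ X, ∀ y ∈ X, x - conj y = ((x.re - y.re : ℝ) : ℂ) := fun x hx y hy => by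
    apply Complex.ext <;> simp [hX x hx, hX y hy]
  have hint : ∀ x y : ℂ, Integrable fun u : ℝ => c x * conj (c y) *
      ((fej l u : ℂ) * Complex.exp (2 * π * I * u * ((x.re - y.re : ℝ) : ℂ))) := by
    intro x y
    refine Integrable.const_mul ?_ _
    refine (fej_integrable hl).ofReal.mul_bdd (c := 1)
      (Continuous.aestronglyMeasurable (by fun_prop)) (Filter.Eventually.of_forall fun u => ?_)
    rw [show (2 * π * I * u * ((x.re - y.re : ℝ) : ℂ) : ℂ)
      = ((2 * π * u * (x.re - y.re) : ℝ) : ℂ) * I by push_cast; ring,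
      Complex.norm_exp_ofReal_mul_I]
  have e2 : (fun u => ((fej l u * ‖mu X c u‖ ^ 2 : ℝ) : ℂ)) = fun u => ∑ x ∈ X, ∑ y ∈ X,
      c x * conj (c y) *
      ((fej l u : ℂ) * Complex.exp (2 * π * I * u * ((x.re - y.re : ℝ) : ℂ))) := by
    funext u
    rw [ofReal_mul, normSq_mu, Finset.mul_sum]
    refine Finset.sum_congr rfl fun x hx => ?_
    rw [Finset.mul_sum]
    refine Finset.sum_congr rfl fun y hy => ?_
    rw [e x hx y hy]; ring
  have hI : Integrable (fun u => ((fej l u * ‖mu X c u‖ ^ 2 : ℝ) : ℂ)) := by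
    rw [e2]
    exact integrable_finsetSum _ fun x _ => integrable_finsetSum _ fun y _ => hint x y
  refine ⟨by simpa only [RCLike.re_to_complex, ofReal_re] using hI.re, ?_⟩
  have e3 : ((∫ u, fej l u * ‖mu X c u‖ ^ 2 : ℝ) : ℂ) = ∑ x ∈ X, ∑ y ∈ X,
      c x * conj (c y) * ((l * tent ((x.re - y.re) / l) : ℝ) : ℂ) := by
    rw [← integral_complex_ofReal, e2,
      integral_finsetSum _ fun x _ => integrable_finsetSum _ fun y _ => hint x y]
    refine Finset.sum_congr rfl fun x _ => ?_
    rw [integral_finsetSum _ fun y _ => hint x y]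
    refine Finset.sum_congr rfl fun y _ => ?_
    rw [integral_const_mul, fej_ft hl]
  have e4 := congrArg Complex.re e3
  rw [ofReal_re] at e4
  rw [e4, Complex.re_sum]
  simp only [Complex.re_sum]
  have b : ∀ x ∈ X, ∀ y ∈ X, (c x * conj (c y) * ((l * tent ((x.re - y.re) / l) : ℝ) : ℂ)).re
      ≤ ‖ξ x‖ ^ 2 / 2 * (w y * (l * tent ((x.re - y.re) / l)))
        + ‖ξ y‖ ^ 2 / 2 * (w x * (l * tent ((y.re - x.re) / l))) := by
    intro x hx y hy
    have ht : 0 ≤ l * tent ((x.re - y.re) / l) := mul_nonneg hl.le (tent_nonneg _)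
    have hs : tent ((y.re - x.re) / l) = tent ((x.re - y.re) / l) := by
      rw [← tent_neg]; congr 1; ring
    rw [hs]
    refine (Complex.re_le_norm _).trans ?_
    rw [norm_mul, norm_mul, Complex.norm_conj, Complex.norm_real, Real.norm_of_nonneg ht]
    simp only [hc, norm_mul, Complex.norm_real, Real.norm_of_nonneg (Real.sqrt_nonneg _)]
    have h1 := Real.mul_self_sqrt (hw x hx)
    have h2 := Real.mul_self_sqrt (hw y hy)
    have h3 := sq_nonneg (‖ξ x‖ * √(w y) - ‖ξ y‖ * √(w x))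
    have h4 : ‖ξ x‖ * √(w x) * (‖ξ y‖ * √(w y)) ≤ ‖ξ x‖ ^ 2 / 2 * w y + ‖ξ y‖ ^ 2 / 2 * w x := by
      rw [← h1, ← h2, Real.sqrt_mul_self (Real.sqrt_nonneg _),
        Real.sqrt_mul_self (Real.sqrt_nonneg _)]
      nlinarith
    nlinarith
  refine (Finset.sum_le_sum fun x hx => Finset.sum_le_sum fun y hy => b x hx y hy).trans ?_
  simp only [Finset.sum_add_distrib]
  rw [Finset.sum_comm (f := fun x y =>
    ‖ξ y‖ ^ 2 / 2 * (w x * (l * tent ((y.re - x.re) / l))))]
  have b2 : ∑ x ∈ X, ∑ y ∈ X, ‖ξ x‖ ^ 2 / 2 * (w y * (l * tent ((x.re - y.re) / l)))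
      ≤ l * ∑ x ∈ X, ‖ξ x‖ ^ 2 := by
    rw [Finset.mul_sum]
    refine Finset.sum_le_sum fun x _ => ?_
    rw [← Finset.mul_sum]
    have := window_row hl X w hwin x.re
    have h0 : 0 ≤ ‖ξ x‖ ^ 2 := by positivity
    nlinarith
  linarith

theorem nonneg_of_deriv {g g' : ℝ → ℝ} (h : ∀ x, HasDerivAt g (g' x) x) (h0 : g 0 = 0)
    (h' : ∀ x, 0 ≤ x → 0 ≤ g' x) {x : ℝ} (hx : 0 ≤ x) : 0 ≤ g x := by
  have hm : MonotoneOn g (Ici 0) := by
    refine monotoneOn_of_deriv_nonneg (convex_Ici 0)
      (fun y _ => (h y).continuousAt.continuousWithinAt)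
      (fun y _ => (h y).differentiableAt.differentiableWithinAt) fun y hy => ?_
    rw [(h y).deriv]
    rw [interior_Ici] at hy
    exact h' y (le_of_lt hy)
  have := hm (mem_Ici.2 le_rfl) hx hx
  rwa [h0] at this

theorem cos_ge_six (y : ℝ) : 1 - y ^ 2 / 2 + y ^ 4 / 24 - y ^ 6 / 720 ≤ Real.cos y := by
  wlog hy : 0 ≤ y generalizing y
  · have := this (-y) (by linarith)
    rw [Real.cos_neg] at this
    nlinarith
  have h4 : ∀ x, 0 ≤ x → 0 ≤ 1 - x ^ 2 / 2 + x ^ 4 / 24 - Real.cos x := fun x hx => by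
    refine nonneg_of_deriv (g := fun x => 1 - x ^ 2 / 2 + x ^ 4 / 24 - Real.cos x)
      (g' := fun x => Real.sin x - (x - x ^ 3 / 6)) (fun x => ?_) (by simp)
      (fun x hx => sub_nonneg.2 (Real.sin_ge_sub_cube hx)) hx
    have := (((((hasDerivAt_pow 2 x).div_const 2).const_sub 1).add
      ((hasDerivAt_pow 4 x).div_const 24)).sub (Real.hasDerivAt_cos x))
    refine this.congr_deriv ?_
    push_cast; ring
  have h5 : ∀ x, 0 ≤ x → 0 ≤ x - x ^ 3 / 6 + x ^ 5 / 120 - Real.sin x := fun x hx => by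
    refine nonneg_of_deriv (g := fun x => x - x ^ 3 / 6 + x ^ 5 / 120 - Real.sin x)
      (g' := fun x => 1 - x ^ 2 / 2 + x ^ 4 / 24 - Real.cos x) (fun x => ?_) (by simp) h4 hx
    have := ((((hasDerivAt_id x).sub ((hasDerivAt_pow 3 x).div_const 6)).add
      ((hasDerivAt_pow 5 x).div_const 120)).sub (Real.hasDerivAt_sin x))
    refine this.congr_deriv ?_
    push_cast; ring
  have h6 : 0 ≤ Real.cos y - (1 - y ^ 2 / 2 + y ^ 4 / 24 - y ^ 6 / 720) := by
    refine nonneg_of_deriv
      (g := fun x => Real.cos x - (1 - x ^ 2 / 2 + x ^ 4 / 24 - x ^ 6 / 720))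
      (g' := fun x => x - x ^ 3 / 6 + x ^ 5 / 120 - Real.sin x) (fun x => ?_) (by simp) h5 hy
    have := (Real.hasDerivAt_cos x).sub ((((((hasDerivAt_pow 2 x).div_const 2).const_sub 1).add
      ((hasDerivAt_pow 4 x).div_const 24))).sub ((hasDerivAt_pow 6 x).div_const 720))
    refine this.congr_deriv ?_
    push_cast; ring
  linarith

theorem cos_ge_of_sq_le {y s : ℝ} (h : y ^ 2 ≤ s) :
    1 - s / 2 + s ^ 2 / 24 - s ^ 3 / 720 ≤ Real.cos y := by
  refine le_trans ?_ (cos_ge_six y)
  have h0 : 0 ≤ y ^ 2 := sq_nonneg y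
  rw [show y ^ 4 = (y ^ 2) ^ 2 by ring, show y ^ 6 = (y ^ 2) ^ 3 by ring]
  generalize y ^ 2 = t at h h0
  have : 0 ≤ (s - t) * (360 - 30 * (s + t) + (s ^ 2 + s * t + t ^ 2)) :=
    mul_nonneg (sub_nonneg.2 h) (by nlinarith [sq_nonneg (s + t - 20), sq_nonneg (s - t)])
  nlinarith

theorem pi_sq_le : π ^ 2 ≤ 987 / 100 := by
  have := Real.pi_lt_d4
  have := Real.pi_pos
  nlinarith

end Pool.Agent.MP_f259ea_nt

end

section

/-!
The analytic facts hold under the side conditions; regularity and the functional of the kernel.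
-/

set_option autoImplicit false

open Complex MeasureTheory Set
open scoped Real ComplexConjugate

namespace Pool.Agent.MP_f259ea_nt

namespace BData

variable {d : BData}

theorem node_le (hd : d.Good) (i : ℕ) : d.node i ≤ d.node (i + 1) := by
  have := D_pos hd
  unfold BData.node; push_cast; nlinarith

theorem node_mono (hd : d.Good) : d.node 0 ≤ d.node d.n := by
  have := D_pos hd
  have h : (0 : ℝ) ≤ d.n := Nat.cast_nonneg _
  unfold BData.node; push_cast; nlinarith

theorem sq_le_max {a b u : ℝ} (h : u ∈ Icc a b) : u ^ 2 ≤ max (a ^ 2) (b ^ 2) := by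
  rcases le_total 0 u with h0 | h0
  · exact le_max_of_le_right (by nlinarith [h.2])
  · exact le_max_of_le_left (by nlinarith [h.1])

theorem maj_pt (hd : d.Good) {i : ℕ} (hi : i < d.n) {u : ℝ}
    (hu : u ∈ Icc (d.node i) (d.node (i + 1))) :
    d.ψ i - d.h i ≤ d.b / d.l ^ 2 * fej d.l u := by
  have hl := hd.l_pos
  refine (hd.maj i hi).trans ?_
  have h1 := fej_ge hl u
  have h2 : max (1 - 987 / 100 * d.l ^ 2 * max (d.node i ^ 2) (d.node (i + 1) ^ 2) / 6) 0
      ≤ max (1 - π ^ 2 * d.l ^ 2 * u ^ 2 / 6) 0 := by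
    refine max_le_max ?_ le_rfl
    have h3 := sq_le_max hu
    have h4 : π ^ 2 * d.l ^ 2 * u ^ 2
        ≤ 987 / 100 * d.l ^ 2 * max (d.node i ^ 2) (d.node (i + 1) ^ 2) := by
      have := pi_sq_le
      gcongr
    linarith
  have h5 := pow_le_pow_left₀ (le_max_right _ _) h2 2
  calc _ ≤ d.b * (max (1 - π ^ 2 * d.l ^ 2 * u ^ 2 / 6) 0) ^ 2 :=
        mul_le_mul_of_nonneg_left h5 hd.b_nonneg
    _ = d.b / d.l ^ 2 * (d.l ^ 2 * (max (1 - π ^ 2 * d.l ^ 2 * u ^ 2 / 6) 0) ^ 2) := by
        field_simp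
    _ ≤ _ := mul_le_mul_of_nonneg_left h1 (div_nonneg hd.b_nonneg (by positivity))

theorem h2 (hd : d.Good) :
    H2 (ft d.n d.D d.ψ) (fun x : ℝ => ft d.n d.D d.h x) d.l (d.b / d.l) := by
  intro X w ξ hX hw hwin
  have hl := hd.l_pos
  obtain ⟨hI, hle⟩ := fej_mu hl X w ξ hX hw hwin
  set c : ℂ → ℂ := fun x => ξ x * (√(w x) : ℝ) with hc
  have hcont : Continuous fun u => ‖mu X c u‖ ^ 2 := (continuous_mu X c).norm.pow 2
  have e : ∑ x ∈ X, ∑ y ∈ X, ξ x * conj (ξ y) * ((√(w x) * √(w y) : ℝ) : ℂ)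
        * (ft d.n d.D d.ψ (x - y) - ft d.n d.D d.h ((x.re - y.re : ℝ) : ℂ))
      = ((∑ i ∈ Finset.range d.n, (d.ψ i - d.h i) *
          ∫ u in d.node i..d.node (i + 1), ‖mu X c u‖ ^ 2 : ℝ) : ℂ) := by
    rw [ofReal_sum]
    simp only [ofReal_mul (d.ψ _ - d.h _), BData.node, ← cell_quad, Finset.mul_sum]
    conv_rhs => rw [Finset.sum_comm]
    refine Finset.sum_congr rfl fun x hx => ?_
    conv_rhs => rw [Finset.sum_comm]
    refine Finset.sum_congr rfl fun y hy => ?_
    have e1 : x - conj y = ((x.re - y.re : ℝ) : ℂ) := by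
      apply Complex.ext <;> simp [hX x hx, hX y hy]
    have e2 : x - y = ((x.re - y.re : ℝ) : ℂ) := by
      apply Complex.ext <;> simp [hX x hx, hX y hy]
    rw [e1, e2, ft, ft, ← Finset.sum_sub_distrib, Finset.mul_sum]
    refine Finset.sum_congr rfl fun i _ => ?_
    simp only [hc, map_mul, conj_ofReal]
    push_cast; ring
  rw [e, ofReal_re]
  have hb : 0 ≤ d.b / d.l ^ 2 := div_nonneg hd.b_nonneg (by positivity)
  have hc2 : Continuous fun u => fej d.l u * ‖mu X c u‖ ^ 2 := (continuous_fej _).mul hcont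
  calc ∑ i ∈ Finset.range d.n, (d.ψ i - d.h i) * ∫ u in d.node i..d.node (i + 1), ‖mu X c u‖ ^ 2
      ≤ ∑ i ∈ Finset.range d.n, d.b / d.l ^ 2 *
          ∫ u in d.node i..d.node (i + 1), fej d.l u * ‖mu X c u‖ ^ 2 := by
        refine Finset.sum_le_sum fun i hi => ?_
        rw [← intervalIntegral.integral_const_mul, ← intervalIntegral.integral_const_mul]
        refine intervalIntegral.integral_mono_on (node_le hd i)
          ((continuous_const.mul hcont).intervalIntegrable _ _)
          ((continuous_const.mul hc2).intervalIntegrable _ _) fun u hu => ?_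
        rw [← mul_assoc]
        exact mul_le_mul_of_nonneg_right (maj_pt hd (Finset.mem_range.1 hi) hu) (by positivity)
    _ = d.b / d.l ^ 2 * ∫ u in d.node 0..d.node d.n, fej d.l u * ‖mu X c u‖ ^ 2 := by
        rw [← Finset.mul_sum, intervalIntegral.sum_integral_adjacent_intervals
          fun k _ => hc2.intervalIntegrable _ _]
    _ ≤ d.b / d.l ^ 2 * ∫ u, fej d.l u * ‖mu X c u‖ ^ 2 := by
        refine mul_le_mul_of_nonneg_left ?_ hb
        rw [intervalIntegral.integral_of_le (node_mono hd)]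
        exact setIntegral_le_integral hI (Filter.Eventually.of_forall fun u =>
          mul_nonneg (fej_nonneg _ _) (by positivity))
    _ ≤ d.b / d.l ^ 2 * (2 * d.l * ∑ x ∈ X, ‖ξ x‖ ^ 2) := mul_le_mul_of_nonneg_left hle hb
    _ = _ := by field_simp

theorem k_ge (hd : d.Good) (x : ℝ) (hx : |x| ≤ d.l) : d.kl ≤ (ft d.n d.D d.ψ x).re := by
  refine hd.kl_le.trans ?_
  rw [ft, Complex.re_sum]
  refine Finset.sum_le_sum fun i hi => ?_
  rw [Complex.re_ofReal_mul]
  refine mul_le_mul_of_nonneg_left ?_ (hd.ψ_nonneg i (Finset.mem_range.1 hi))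
  rw [re_cell]
  change _ ≤ ∫ u in d.node i..d.node (i + 1), Real.cos (2 * π * u * x)
  set A : ℝ := 4 * (987 / 100) * d.l ^ 2 with hA
  have hF : ∀ u ∈ uIcc (d.node i) (d.node (i + 1)), HasDerivAt d.F
      (1 - (A * u ^ 2) / 2 + (A * u ^ 2) ^ 2 / 24 - (A * u ^ 2) ^ 3 / 720) u := by
    intro u _
    have := (((hasDerivAt_id u).sub (((hasDerivAt_pow 3 u).const_mul A).div_const 6)).add
      (((hasDerivAt_pow 5 u).const_mul (A ^ 2)).div_const 120)).sub
      (((hasDerivAt_pow 7 u).const_mul (A ^ 3)).div_const 5040)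
    refine this.congr_deriv ?_
    push_cast; ring
  rw [← intervalIntegral.integral_eq_sub_of_hasDerivAt hF
    (Continuous.intervalIntegrable (by fun_prop) _ _)]
  refine intervalIntegral.integral_mono_on (node_le hd i)
    (Continuous.intervalIntegrable (by fun_prop) _ _)
    (Continuous.intervalIntegrable (by fun_prop) _ _) fun u _ => cos_ge_of_sq_le ?_
  have h1 : x ^ 2 ≤ d.l ^ 2 := by
    rw [← sq_abs x]; exact pow_le_pow_left₀ (abs_nonneg _) hx 2
  have h2 := pi_sq_le
  calc (2 * π * u * x) ^ 2 = 4 * π ^ 2 * x ^ 2 * u ^ 2 := by ring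
    _ ≤ A * u ^ 2 := by rw [hA]; gcongr

theorem cert (hd : d.Good) : Cert d.K (ft d.n d.D d.ψ) d.fF (fun x : ℝ => ft d.n d.D d.h x)
    d.ν d.ρ d.h0 d.l (d.b / d.l) d.kl where
  model := model hd
  h1 := h1 hd
  h2 := h2 hd
  k_zero := by rw [ft_zero, hd.ψ_sum, ofReal_one]
  k_ge := k_ge hd
  h_conj := fun x => by rw [conj_ft, conj_ofReal, ofReal_neg]
  h_zero := by rw [ofReal_zero, ft_zero]; rfl
  h_sq_le := fun x => le_add_of_nonneg_right (Finset.sum_nonneg fun _ _ => by positivity)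
  f_zero := by
    simp only [fF, ofReal_zero, ft_zero, Complex.norm_real, Real.norm_eq_abs, sq_abs]; rfl

theorem K_continuous : Continuous d.K := by
  have := continuous_tent
  unfold BData.K
  fun_prop

theorem w_nonneg (hd : d.Good) {i i' : ℕ} (hi : i < d.n) (hi' : i' < d.n) : 0 ≤ d.w i i' := by
  refine mul_nonneg (mul_nonneg (hd.ψ_nonneg i hi) (hd.ψ_nonneg i' hi')) ?_
  have h1 := hd.c_le i hi
  have h2 := hd.c_le i' hi'
  have h3 : ∑ j ∈ Finset.range d.J, d.c j i * d.c j i'
      ≤ ∑ j ∈ Finset.range d.J, (d.c j i ^ 2 + d.c j i' ^ 2) / 2 :=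
    Finset.sum_le_sum fun j _ => by nlinarith [sq_nonneg (d.c j i - d.c j i')]
  rw [← Finset.sum_div, Finset.sum_add_distrib] at h3
  linarith [hd.ν_le]

theorem K_nonneg (hd : d.Good) (a : ℝ) : 0 ≤ d.K a :=
  Finset.sum_nonneg fun _ hi => Finset.sum_nonneg fun _ hi' =>
    mul_nonneg (w_nonneg hd (Finset.mem_range.1 hi) (Finset.mem_range.1 hi'))
      (mul_nonneg (D_pos hd).le (tent_nonneg _))

end BData

theorem stmtCert : StmtCert := fun _ hd => ⟨_, _, _, BData.cert hd⟩

theorem int_tent_mul (g : ℝ → ℝ) (hg : Continuous g) :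
    ∫ t, tent t * g t = ∫ t in (0 : ℝ)..1, (1 - t) * (g t + g (-t)) := by
  have hs : Function.support (fun t => tent t * g t) ⊆ Ioc (-1) 1 := by
    intro a ha
    by_contra hn
    apply ha
    have : 1 ≤ |a| := by
      simp only [mem_Ioc, not_and_or, not_lt, not_le] at hn
      rw [le_abs]
      rcases hn with h | h
      · right; linarith
      · left; linarith
    simp [tent_eq_zero this]
  have hc : Continuous fun t => tent t * g t := continuous_tent.mul hg
  rw [← intervalIntegral.integral_eq_integral_of_support_subset hs,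
    ← intervalIntegral.integral_add_adjacent_intervals (b := 0)
      (hc.intervalIntegrable _ _) (hc.intervalIntegrable _ _)]
  have := intervalIntegral.integral_comp_neg (a := 0) (b := 1) (fun t => tent t * g t)
  rw [neg_zero] at this
  rw [← this, ← intervalIntegral.integral_add (Continuous.intervalIntegrable (by
    have := continuous_tent; fun_prop) _ _) (hc.intervalIntegrable _ _)]
  refine intervalIntegral.integral_congr fun t ht => ?_
  rw [uIcc_of_le zero_le_one] at ht
  have h1 : |t| = t := abs_of_nonneg ht.1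
  rw [tent_neg, tent_of_le (by rw [h1]; exact ht.2), h1]; ring

theorem int_abs_tent {D : ℝ} (hD : 0 < D) (j : ℝ) :
    ∫ a, |a| * (D * tent (a / D - j))
      = D ^ 3 * ∫ t in (0 : ℝ)..1, (1 - t) * (|t + j| + |-t + j|) := by
  rw [← int_tent_mul (fun t => |t + j|) (by fun_prop),
    ← integral_add_right_eq_self _ (j * D)]
  have h := Measure.integral_comp_div (fun t => tent t * |t + j|) D
  rw [abs_of_pos hD, smul_eq_mul] at h
  rw [show D ^ 3 * ∫ t, tent t * |t + j| = D ^ 2 * (D * ∫ t, tent t * |t + j|) by ring, ← h,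
    ← integral_const_mul]
  congr 1; funext a
  have e1 : (a + j * D) / D - j = a / D := by field_simp; ring
  have e2 : |a + j * D| = D * |a / D + j| := by
    rw [← abs_of_pos hD, ← abs_mul, abs_of_pos hD]; congr 1; field_simp
  rw [e1, e2]; ring

theorem int_abs_tent_zero {D : ℝ} (hD : 0 < D) :
    ∫ a, |a| * (D * tent (a / D - 0)) = D ^ 3 / 3 := by
  rw [int_abs_tent hD]
  have : ∫ t in (0 : ℝ)..1, (1 - t) * (|t + 0| + |-t + 0|) = ∫ t in (0 : ℝ)..1, (2 * t - 2 * t ^ 2) := by
    refine intervalIntegral.integral_congr fun t ht => ?_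
    rw [uIcc_of_le zero_le_one] at ht
    simp only [add_zero, abs_neg, abs_of_nonneg ht.1]; ring
  rw [this, intervalIntegral.integral_sub (Continuous.intervalIntegrable (by fun_prop) _ _)
    (Continuous.intervalIntegrable (by fun_prop) _ _), intervalIntegral.integral_const_mul,
    intervalIntegral.integral_const_mul, integral_id, integral_pow]
  ring

theorem int_abs_tent_of_one_le {D : ℝ} (hD : 0 < D) {j : ℝ} (hj : 1 ≤ |j|) :
    ∫ a, |a| * (D * tent (a / D - j)) = D ^ 3 * |j| := by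
  rw [int_abs_tent hD]
  have : ∫ t in (0 : ℝ)..1, (1 - t) * (|t + j| + |-t + j|)
      = ∫ t in (0 : ℝ)..1, (2 * |j| - 2 * |j| * t) := by
    refine intervalIntegral.integral_congr fun t ht => ?_
    rw [uIcc_of_le zero_le_one] at ht
    rcases le_abs.1 hj with h | h
    · rw [abs_of_nonneg (by linarith [ht.1]), abs_of_nonneg (by linarith [ht.2]),
        abs_of_nonneg (by linarith)]; ring
    · rw [abs_of_nonpos (by linarith [ht.2]), abs_of_nonpos (by linarith [ht.1]),
        abs_of_nonpos (by linarith)]; ring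
  rw [this, intervalIntegral.integral_sub (Continuous.intervalIntegrable (by fun_prop) _ _)
    (Continuous.intervalIntegrable (by fun_prop) _ _), intervalIntegral.integral_const_mul,
    intervalIntegral.integral_const_mul, integral_id]
  simp only [intervalIntegral.integral_const, sub_zero, smul_eq_mul]
  ring

namespace BData

variable {d : BData}

theorem Jval_eq (hd : d.Good) : Jval d.K = ∑ i ∈ Finset.range d.n, ∑ i' ∈ Finset.range d.n,
    d.w i i' * (if i = i' then d.D + d.D ^ 3 / 3 else d.D ^ 3 * |(i : ℝ) - i'|) := by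
  have hD := D_pos hd
  have hint : ∀ j : ℝ, Integrable fun a : ℝ => |a| * (d.D * tent (a / d.D - j)) := fun j => by
    have := (tent_integrable hD j (g := fun a => ((|a| : ℝ) : ℂ)) (by fun_prop)).re
    simp only [RCLike.re_to_complex, ← ofReal_mul, ofReal_re] at this
    simpa only [mul_comm] using this
  have e : ∫ a in (-1 : ℝ)..1, |a| * d.K a = ∑ i ∈ Finset.range d.n, ∑ i' ∈ Finset.range d.n,
      d.w i i' * ∫ a, |a| * (d.D * tent (a / d.D - ((i : ℝ) - i'))) := by
    simp only [mul_comm |_| (d.K _)]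
    rw [int_K hd]
    simp only [← integral_const_mul]
    rw [Finset.sum_congr rfl fun (i : ℕ) _ => (integral_finsetSum _ fun (i' : ℕ) _ =>
      (hint ((i : ℝ) - i')).const_mul (d.w i i')).symm,
      ← integral_finsetSum _ fun (i : ℕ) _ => integrable_finsetSum _ fun (i' : ℕ) _ =>
      (hint ((i : ℝ) - i')).const_mul (d.w i i')]
    congr 1; funext a
    unfold BData.K
    rw [Finset.sum_mul]
    refine Finset.sum_congr rfl fun i _ => ?_
    rw [Finset.sum_mul]
    refine Finset.sum_congr rfl fun i' _ => ?_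
    ring
  rw [Jval, e, BData.K, ← Finset.sum_add_distrib]
  refine Finset.sum_congr rfl fun i _ => ?_
  rw [← Finset.sum_add_distrib]
  refine Finset.sum_congr rfl fun i' _ => ?_
  rw [← mul_add]
  congr 1
  split_ifs with h
  · subst h
    rw [sub_self, int_abs_tent_zero hD]
    simp [tent]
  · have h1 : 1 ≤ |(i : ℝ) - i'| := by
      have : (1 : ℤ) ≤ |(i : ℤ) - i'| := Int.one_le_abs (sub_ne_zero.2 (by exact_mod_cast h))
      exact_mod_cast this
    rw [int_abs_tent_of_one_le hD h1, tent_eq_zero (by simpa [abs_sub_comm] using h1)]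
    ring

end BData

end Pool.Agent.MP_f259ea_nt

end

section

/-!
The numerical data (integers, scale `10 ^ 7`).
-/

set_option autoImplicit false

namespace Pool.Agent.MP_f259ea_nt

def Lψ : List ℤ :=
  [0, 0, 0, 0, 0, 0, 0, 0, 0, 0, 0, 0, 0, 0, 0, 0, 0, 0, 0, 0, 0, 0, 0, 0, 0, 0, 0, 0, 0, 0, 0,
   0, 0, 0, 0, 0, 0, 0, 0, 0, 0, 0, 0, 0, 0, 0, 0, 0, 0, 0, 0, 0, 0, 0, 0, 0, 0, 0, 0, 0,
   6533686, 7178100, 7516346, 7759242, 7997038, 8387303, 8704241, 8981843, 9251680, 9450500,
   9672347, 9909422, 10183744, 10399249, 10593698, 10705233, 10876036, 10976006, 10976195,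
   11045511, 11115698, 11114223, 11129257, 11161834, 11362533, 11388404, 11399408, 11465495,
   11430524, 11335204, 11335204, 11430524, 11465495, 11399408, 11388404, 11362533, 11161834,
   11129257, 11114223, 11115698, 11045511, 10976195, 10976006, 10876036, 10705233, 10593698,
   10399249, 10183744, 9909422, 9672347, 9450500, 9251680, 8981843, 8704241, 8387303, 7997038,
   7759242, 7516346, 7178100, 6533686, 0, 0, 0, 0, 0, 0, 0, 0, 0, 0, 0, 0, 0, 0, 0, 0, 0, 0, 0,
   0, 0, 0, 0, 0, 0, 0, 0, 0, 0, 0, 0, 0, 0, 0, 0, 0, 0, 0, 0, 0, 0, 0, 0, 0, 0, 0, 0, 0, 0, 0,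
   0, 0, 0, 0, 0, 0, 0, 0, 0, 0]

def Lξ0 : List ℤ :=
  [0, 0, 0, 0, 0, 0, 0, 0, 0, 0, 0, 0, 0, 0, 0, 0, 0, 0, 0, 0, 0, 0, 0, 0, 0, 0, 0, 0, 0, 0, 0,
   0, 0, 0, 0, 0, 0, 0, 0, 0, 0, 0, 0, 0, 0, 0, 0, 0, 0, 0, 0, 0, 0, 0, 0, 0, 0, 0, 0, 0, 79765,
   -590140, -1186959, 95033, -634488, 221643, -11764, -231845, 319296, 767744, 731245, 377669,
   383048, 691832, 1018216, 1495298, 1901198, 1977718, 1935405, 2068471, 1749566, 1538729,
   1124008, 11297, -172093, 707859, 1262835, 1572408, 1620303, 1864627, 1864627, 1620303,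
   1572408, 1262835, 707859, -172093, 11297, 1124008, 1538729, 1749566, 2068471, 1935405,
   1977718, 1901198, 1495298, 1018216, 691832, 383048, 377669, 731245, 767744, 319296, -231845,
   -11764, 221643, -634488, 95033, -1186959, -590140, 79765, 0, 0, 0, 0, 0, 0, 0, 0, 0, 0, 0, 0,
   0, 0, 0, 0, 0, 0, 0, 0, 0, 0, 0, 0, 0, 0, 0, 0, 0, 0, 0, 0, 0, 0, 0, 0, 0, 0, 0, 0, 0, 0, 0,
   0, 0, 0, 0, 0, 0, 0, 0, 0, 0, 0, 0, 0, 0, 0, 0, 0]

def Lξ1 : List ℤ :=
  [0, 0, 0, 0, 0, 0, 0, 0, 0, 0, 0, 0, 0, 0, 0, 0, 0, 0, 0, 0, 0, 0, 0, 0, 0, 0, 0, 0, 0, 0, 0,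
   0, 0, 0, 0, 0, 0, 0, 0, 0, 0, 0, 0, 0, 0, 0, 0, 0, 0, 0, 0, 0, 0, 0, 0, 0, 0, 0, 0, 0,
   -1033430, 612489, 526639, 1514647, 1077764, 1130454, 1155766, 1380309, 1450341, 1389257,
   1272371, 1107122, 726555, 58903, -56152, 310254, 490147, 388380, 216585, -322210, -767803,
   -192587, 101342, -399109, -964145, -1796842, -1730500, -1006181, -1133899, -651091, 651091,
   1133899, 1006181, 1730500, 1796842, 964145, 399109, -101342, 192587, 767803, 322210, -216585,
   -388380, -490147, -310254, 56152, -58903, -726555, -1107122, -1272371, -1389257, -1450341,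
   -1380309, -1155766, -1130454, -1077764, -1514647, -526639, -612489, 1033430, 0, 0, 0, 0, 0, 0,
   0, 0, 0, 0, 0, 0, 0, 0, 0, 0, 0, 0, 0, 0, 0, 0, 0, 0, 0, 0, 0, 0, 0, 0, 0, 0, 0, 0, 0, 0, 0,
   0, 0, 0, 0, 0, 0, 0, 0, 0, 0, 0, 0, 0, 0, 0, 0, 0, 0, 0, 0, 0, 0, 0]

def Lξ2 : List ℤ :=
  [0, 0, 0, 0, 0, 0, 0, 0, 0, 0, 0, 0, 0, 0, 0, 0, 0, 0, 0, 0, 0, 0, 0, 0, 0, 0, 0, 0, 0, 0, 0,
   0, 0, 0, 0, 0, 0, 0, 0, 0, 0, 0, 0, 0, 0, 0, 0, 0, 0, 0, 0, 0, 0, 0, 0, 0, 0, 0, 0, 0,
   -393701, 1004334, -377641, -8399, 773106, 1208363, 1253181, 1021272, 1040725, 938018, 1066496,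
   1401044, 1755121, 1932382, 1704663, 1210272, 500037, -298271, -395603, -291885, -524917,
   -573877, -956252, -746092, 48763, 500674, 672792, 998221, 1050892, 905392, 905392, 1050892,
   998221, 672792, 500674, 48763, -746092, -956252, -573877, -524917, -291885, -395603, -298271,
   500037, 1210272, 1704663, 1932382, 1755121, 1401044, 1066496, 938018, 1040725, 1021272,
   1253181, 1208363, 773106, -8399, -377641, 1004334, -393701, 0, 0, 0, 0, 0, 0, 0, 0, 0, 0, 0,
   0, 0, 0, 0, 0, 0, 0, 0, 0, 0, 0, 0, 0, 0, 0, 0, 0, 0, 0, 0, 0, 0, 0, 0, 0, 0, 0, 0, 0, 0, 0,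
   0, 0, 0, 0, 0, 0, 0, 0, 0, 0, 0, 0, 0, 0, 0, 0, 0, 0]

def Lξ3 : List ℤ :=
  [0, 0, 0, 0, 0, 0, 0, 0, 0, 0, 0, 0, 0, 0, 0, 0, 0, 0, 0, 0, 0, 0, 0, 0, 0, 0, 0, 0, 0, 0, 0,
   0, 0, 0, 0, 0, 0, 0, 0, 0, 0, 0, 0, 0, 0, 0, 0, 0, 0, 0, 0, 0, 0, 0, 0, 0, 0, 0, 0, 0, 435547,
   -572729, -656378, -649, -538444, 89116, 105578, -462459, -98137, 390912, 600230, 623275,
   553870, 136623, -660221, -840513, -761880, -800981, -903418, -591082, -997250, -1473530,
   -1652927, -2065433, -2048813, -1058382, 356489, 828881, -408315, -598463, 598463, 408315,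
   -828881, -356489, 1058382, 2048813, 2065433, 1652927, 1473530, 997250, 591082, 903418, 800981,
   761880, 840513, 660221, -136623, -553870, -623275, -600230, -390912, 98137, 462459, -105578,
   -89116, 538444, 649, 656378, 572729, -435547, 0, 0, 0, 0, 0, 0, 0, 0, 0, 0, 0, 0, 0, 0, 0, 0,
   0, 0, 0, 0, 0, 0, 0, 0, 0, 0, 0, 0, 0, 0, 0, 0, 0, 0, 0, 0, 0, 0, 0, 0, 0, 0, 0, 0, 0, 0, 0,
   0, 0, 0, 0, 0, 0, 0, 0, 0, 0, 0, 0, 0]

def Lh : List ℤ :=
  [-15972, -64323, -64314, -15867, -57284, -107726, -144379, -102560, -91833, -162387, -54335,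
   -49752, -120921, -139906, -51752, -17317, -98652, -22503, -107741, -39330, -133274, -155170,
   -43098, -55696, 100945, 126275, 109021, 123317, 149284, 135711, 173503, 260691, 302145,
   358072, 444003, 480049, 410106, 531041, 539918, 691138, 900347, 954921, 1170366, 1219017,
   1423709, 1516791, 1592499, 1803471, 2067799, 2260761, 2368910, 2670720, 2886573, 3077216,
   3356711, 3648767, 3926194, 4137938, 4405869, 4701437, 4987157, 5315784, 5584230, 5768902,
   6086305, 6427585, 6747915, 6928090, 7155259, 7522743, 7574721, 7787244, 8124758, 8370297,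
   8410902, 8508846, 8796006, 8815896, 9111162, 9138660, 9430549, 9609420, 9551755, 9691282,
   9522726, 9550781, 9653440, 9700344, 9721221, 9810082, 9810082, 9721221, 9700344, 9653440,
   9550781, 9522726, 9691282, 9551755, 9609420, 9430549, 9138660, 9111162, 8815896, 8796006,
   8508846, 8410902, 8370297, 8124758, 7787244, 7574721, 7522743, 7155259, 6928090, 6747915,
   6427585, 6086305, 5768902, 5584230, 5315784, 4987157, 4701437, 4405869, 4137938, 3926194,
   3648767, 3356711, 3077216, 2886573, 2670720, 2368910, 2260761, 2067799, 1803471, 1592499,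
   1516791, 1423709, 1219017, 1170366, 954921, 900347, 691138, 539918, 531041, 410106, 480049,
   444003, 358072, 302145, 260691, 173503, 135711, 149284, 123317, 109021, 126275, 100945,
   -55696, -43098, -155170, -133274, -39330, -107741, -22503, -98652, -17317, -51752, -139906,
   -120921, -49752, -54335, -162387, -91833, -102560, -144379, -107726, -57284, -15867, -64314,
   -64323, -15972]

def Lg0 : List ℤ :=
  [125629, 59711, 63156, 54996, 89995, 194934, 327658, 355038, 397026, 308045, 527990, 582511,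
   515697, 478803, 478343, 434081, 392029, 461626, 513357, 537721, 491803, 466317, 305521,
   320254, 369173, 411176, 453444, 327250, 72428, 192549, 58779, 193156, -17061, -15479, 167710,
   326755, 483556, 605720, 606876, 764325, 911727, 1142813, 1401675, 1689630, 1885412, 2073086,
   2309230, 2506257, 2703885, 3035429, 3471913, 3574310, 3817532, 4021955, 4311557, 4511036,
   4612488, 4682520, 4762353, 4779305, 4720968, 4805374, 4774196, 4756685, 4670870, 4437259,
   4099601, 3921471, 3691667, 3684544, 3125205, 2784435, 2653458, 2494849, 2264801, 2107390,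
   1935263, 1587811, 1277415, 1009017, 866963, 695453, 767141, 586813, 346644, 109128, -149579,
   -113152, 209830, -77242, 77242, -209830, 113152, 149579, -109128, -346644, -586813, -767141,
   -695453, -866963, -1009017, -1277415, -1587811, -1935263, -2107390, -2264801, -2494849,
   -2653458, -2784435, -3125205, -3684544, -3691667, -3921471, -4099601, -4437259, -4670870,
   -4756685, -4774196, -4805374, -4720968, -4779305, -4762353, -4682520, -4612488, -4511036,
   -4311557, -4021955, -3817532, -3574310, -3471913, -3035429, -2703885, -2506257, -2309230,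
   -2073086, -1885412, -1689630, -1401675, -1142813, -911727, -764325, -606876, -605720, -483556,
   -326755, -167710, 15479, 17061, -193156, -58779, -192549, -72428, -327250, -453444, -411176,
   -369173, -320254, -305521, -466317, -491803, -537721, -513357, -461626, -392029, -434081,
   -478343, -478803, -515697, -582511, -527990, -308045, -397026, -355038, -327658, -194934,
   -89995, -54996, -63156, -59711, -125629]

def Lg1 : List ℤ :=
  [121546, 46484, 36965, 33264, 81409, 172907, 288070, 213344, 288092, 422186, 565047, 699994,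
   829427, 825878, 644374, 464898, 390656, 84370, -233270, -481601, -662655, -880749, -1063774,
   -1095802, -1291441, -1551424, -1581914, -1680844, -1695044, -1713228, -1835255, -2049011,
   -2233263, -2309970, -2435250, -2324470, -2280931, -2366830, -2272578, -2150975, -2069203,
   -1927195, -1728682, -1543474, -1559592, -1444159, -1310006, -1323105, -1409593, -1426751,
   -1399233, -1340538, -1211357, -956863, -909950, -845159, -748211, -619623, -487638, -290935,
   -489082, -232263, -85411, 53791, 123289, 135351, 121150, 448057, 551502, 553804, 529468,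
   477654, 372439, 442355, 786813, 1114046, 1243359, 1736340, 2246261, 2646130, 2932985, 3279481,
   3568683, 3570601, 3814088, 4163250, 4111706, 4151727, 4021958, 3863429, 3863429, 4021958,
   4151727, 4111706, 4163250, 3814088, 3570601, 3568683, 3279481, 2932985, 2646130, 2246261,
   1736340, 1243359, 1114046, 786813, 442355, 372439, 477654, 529468, 553804, 551502, 448057,
   121150, 135351, 123289, 53791, -85411, -232263, -489082, -290935, -487638, -619623, -748211,
   -845159, -909950, -956863, -1211357, -1340538, -1399233, -1426751, -1409593, -1323105,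
   -1310006, -1444159, -1559592, -1543474, -1728682, -1927195, -2069203, -2150975, -2272578,
   -2366830, -2280931, -2324470, -2435250, -2309970, -2233263, -2049011, -1835255, -1713228,
   -1695044, -1680844, -1581914, -1551424, -1291441, -1095802, -1063774, -880749, -662655,
   -481601, -233270, 84370, 390656, 464898, 644374, 825878, 829427, 699994, 565047, 422186,
   288092, 213344, 288070, 172907, 81409, 33264, 36965, 46484, 121546]

end Pool.Agent.MP_f259ea_nt

end
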