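import Pool.Agent.Mg.Ff259ea.Gb4a2ac
import Pool.Agent.Mg.Ff259ea.G80961c

/-!
Part B, assembly: the analytic certificate and the scalar side conditions give `StmtB`.
-/

set_option autoImplicit false

open Finset Complex Matrix
open scoped Real ComplexConjugate ComplexOrder

namespace Pool.Agent.MP_f259ea_nt.B

section diag

variable {n : Type*} [Fintype n] [DecidableEq n] {κ : Type*} [Fintype κ]

/-- Real diagonal multipliers. -/
noncomputable def dm (d : κ → n → ℝ) (s : κ) : Matrix n n ℂ := diagonal fun α => (d s α : ℂ)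

omit [Fintype n] [Fintype κ] in
lemma dm_herm (d : κ → n → ℝ) (s : κ) : (dm d s).IsHermitian := by
  unfold dm
  apply isHermitian_diagonal_of_self_adjoint
  ext α; simp

lemma dm_le (d : κ → n → ℝ) {ν : ℝ} (h : ∀ α, ∑ s, d s α ^ 2 ≤ ν) :
    ((ν : ℂ) • (1 : Matrix n n ℂ) - ∑ s, dm d s * dm d s).PosSemidef := by
  have : (ν : ℂ) • (1 : Matrix n n ℂ) - ∑ s, dm d s * dm d s
      = diagonal fun α => ((ν - ∑ s, d s α ^ 2 : ℝ) : ℂ) := by
    ext α β
    simp only [dm, diagonal_mul_diagonal, Matrix.sub_apply, Matrix.smul_apply, Matrix.sum_apply,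
      Matrix.one_apply, diagonal_apply]
    split_ifs with hab
    · push_cast; simp [sq]
    · simp
  rw [this]
  exact PosSemidef.diagonal fun α => Complex.zero_le_real.mpr (sub_nonneg.mpr (h α))

omit [DecidableEq n] in
lemma ip_herm {G : Matrix n n ℂ} (hG : G.IsHermitian) : ip G G = ∑ α, ∑ β, ‖G α β‖ ^ 2 := by
  unfold ip
  simp only [trace, diag_apply, mul_apply, Complex.re_sum]
  refine Finset.sum_congr rfl fun α _ => Finset.sum_congr rfl fun β _ => ?_
  rw [← hG.apply β α, RCLike.star_def, Complex.mul_conj', ← Complex.ofReal_pow, Complex.ofReal_re]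

lemma Bf_dm (d : κ → n → ℝ) {G : Matrix n n ℂ} (hG : G.IsHermitian) :
    Bf (dm d) G G = ∑ α, ∑ β, (1 - ∑ s, d s α * d s β) * ‖G α β‖ ^ 2 := by
  unfold Bf Nm
  rw [ip_herm hG, ip_sum_right]
  have : ∀ s, ip G (dm d s * G * dm d s) = ∑ α, ∑ β, d s α * d s β * ‖G α β‖ ^ 2 := by
    intro s
    unfold ip dm
    simp only [trace, diag_apply, Complex.re_sum]
    refine Finset.sum_congr rfl fun α _ => ?_
    rw [mul_apply, Complex.re_sum]
    refine Finset.sum_congr rfl fun β _ => ?_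
    rw [mul_diagonal, diagonal_mul, ← hG.apply β α, RCLike.star_def]
    have : G α β * ((d s β : ℂ) * conj (G α β) * d s α)
        = ((d s α * d s β * ‖G α β‖ ^ 2 : ℝ) : ℂ) := by
      push_cast; rw [← Complex.mul_conj']; ring
    rw [this, Complex.ofReal_re]
  simp only [this, sub_mul, one_mul, Finset.sum_sub_distrib, Finset.sum_mul]
  congr 1
  rw [Finset.sum_comm]
  refine Finset.sum_congr rfl fun α _ => ?_
  rw [Finset.sum_comm]

end diag

section ops

variable {n : Type*} [Fintype n] (v : ℂ → n → ℂ)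

/-- The operator attached to a weighted set of points. -/
noncomputable def op (A : Finset ℂ) (c : ℂ → ℂ) : Matrix n n ℂ :=
  ∑ z ∈ A, c z • rk (v z) (v (conj z))

/-- The operator attached to a weighted set of real points. -/
noncomputable def opR (A : Finset ℂ) (m : ℂ → ℕ) : Matrix n n ℂ :=
  ∑ z ∈ A, ((m z : ℝ) : ℂ) • rk (v z) (v z)

omit [Fintype n] in
lemma op_apply (A : Finset ℂ) (c : ℂ → ℂ) (α β : n) :
    op v A c α β = ∑ x ∈ A, c x * v x α * conj (v (conj x) β) := by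
  unfold op
  rw [Matrix.sum_apply]
  refine Finset.sum_congr rfl fun z _ => ?_
  rw [Matrix.smul_apply, rk_apply, smul_eq_mul, mul_assoc]

omit [Fintype n] in
lemma op_herm {A : Finset ℂ} {c : ℂ → ℂ} (hA : ∀ z ∈ A, conj z ∈ A ∧ c (conj z) = conj (c z)) :
    (op v A c).IsHermitian := by
  unfold Matrix.IsHermitian op
  rw [conjTranspose_sum, ← sum_conj (fun z hz => (hA z hz).1)
    (fun z => c z • rk (v z) (v (conj z)))]
  refine Finset.sum_congr rfl fun z hz => ?_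
  rw [conjTranspose_smul, rk_conjTranspose, (hA z hz).2, Complex.conj_conj, RCLike.star_def]

omit [Fintype n] in
lemma op_real {A : Finset ℂ} (hA : ∀ z ∈ A, z.im = 0) (m : ℂ → ℕ) :
    op v A (fun z => (m z : ℂ)) = opR v A m := by
  unfold op opR
  refine Finset.sum_congr rfl fun z hz => ?_
  rw [Complex.conj_eq_iff_im.mpr (hA z hz), Complex.ofReal_natCast]

lemma tr_opR {A : Finset ℂ} (hA : ∀ z ∈ A, star (v z) ⬝ᵥ v z = 1) (m : ℂ → ℕ) :
    tr (opR v A m) = ∑ z ∈ A, (m z : ℝ) := by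
  unfold tr opR
  rw [trace_sum, Complex.re_sum]
  refine Finset.sum_congr rfl fun z hz => ?_
  rw [trace_smul, trace_rk, hA z hz, smul_eq_mul, mul_one, Complex.ofReal_re]

end ops

/-- The window condition. -/
def Sparse (l : ℝ) (m : ℂ → ℕ) (R : Finset ℂ) : Prop :=
  (∀ z ∈ R, m z ≤ 2) ∧ ∀ t : ℝ, ∑ x ∈ R with t ≤ x.re ∧ x.re < t + l, (m x : ℝ) ≤ 2

section cluster

variable {n : Type*} [Fintype n] (v : ℂ → n → ℂ) (d : BData) (m : ℂ → ℕ)

/-- A cluster that can be moved to the indefinite part. -/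
def GoodCluster (C : Finset ℂ) : Prop :=
  ∃ u : n → ℂ, (opR v C m - rk u u).PosSemidef ∧
    d.ρ * ∑ z ∈ C, (3 * (m z : ℝ) - 2) + d.ε * ∑ z ∈ C, (m z : ℝ) + d.t2
      ≤ (d.cp + d.ε) * tr (rk u u)

variable {v d m}

lemma eps_nonneg (hd : d.Good) : 0 ≤ d.ε := by
  unfold BData.ε
  have := hd.ν_nonneg
  have := hd.σ_pos
  positivity

lemma cpe_pos (hd : d.Good) : 0 < d.cp + d.ε := by
  have := eps_nonneg hd
  have := hd.cp_σ
  have := hd.σ_pos
  linarith

lemma exists_cluster (hd : d.Good) (R : Finset ℂ) (hR : ∀ z ∈ R, z.im = 0 ∧ 1 ≤ m z)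
    (h1 : ∀ z ∈ R, star (v z) ⬝ᵥ v z = 1)
    (hk : ∀ z ∈ R, ∀ w ∈ R, |z.re - w.re| ≤ d.l → d.kl ≤ (star (v z) ⬝ᵥ v w).re)
    (hns : ¬ Sparse d.l m R) : ∃ C ⊆ R, C.Nonempty ∧ GoodCluster v d m C := by
  classical
  have hcpe := cpe_pos hd
  have hε := eps_nonneg hd
  -- pattern `m ≥ 3`
  by_cases h3 : ∃ z ∈ R, 3 ≤ m z
  · obtain ⟨z, hz, hz3⟩ := h3
    refine ⟨{z}, by simpa using hz, by simp, ?_⟩
    have hz3' : (3 : ℝ) ≤ m z := by exact_mod_cast hz3
    obtain ⟨u, hu1, hu2⟩ := exists_rank_one {z} v (fun z => (m z : ℝ)) (fun _ => 1)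
      (fun _ _ => Nat.cast_nonneg _) (by simp only [sum_singleton]; linarith)
    refine ⟨u, hu1, ?_⟩
    simp only [sum_singleton, h1 z hz, Complex.one_re, one_pow, mul_one] at hu2 ⊢
    have htr : tr (rk u u) = m z := mul_left_cancel₀ (by linarith) hu2
    rw [htr]
    have a1 := hd.cp_ρ
    have a2 := hd.triple
    nlinarith
  push Not at h3
  have h3' : ∀ z ∈ R, m z ≤ 2 := fun z hz => Nat.lt_succ_iff.mp (h3 z hz)
  -- patterns `(2,1)` and `(2,2)`
  by_cases h2 : ∃ z ∈ R, ∃ w ∈ R, z ≠ w ∧ |z.re - w.re| ≤ d.l ∧ m z = 2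
  · obtain ⟨z, hz, w, hw, hzw, hdist, hz2⟩ := h2
    refine ⟨{z, w}, insert_subset hz (singleton_subset_iff.mpr hw), by simp, ?_⟩
    have k1 := hk z hz w hw hdist
    have k2 := hk w hw z hz (by rwa [abs_sub_comm])
    have hw12 : m w = 1 ∨ m w = 2 := by
      have := h3' w hw
      have := (hR w hw).2
      omega
    rcases hw12 with hw1 | hw2
    · have hW : ∑ y ∈ ({z, w} : Finset ℂ), (m y : ℝ) * (if y = z then 1 else d.s) ^ 2
          = 2 + d.s ^ 2 := by
        rw [sum_pair hzw, if_pos rfl, if_neg hzw.symm, hz2, hw1]; push_cast; ring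
      obtain ⟨u, hu1, hu2⟩ := exists_rank_one {z, w} v (fun z => (m z : ℝ))
        (fun y => if y = z then 1 else d.s) (fun _ _ => Nat.cast_nonneg _)
        (by rw [hW]; positivity)
      refine ⟨u, hu1, ?_⟩
      rw [hW] at hu2
      simp only [sum_pair hzw, if_pos, if_neg hzw.symm, hz2, hw1, h1 z hz, h1 w hw,
        Complex.one_re] at hu2 ⊢
      push_cast at hu2 ⊢
      have hs := hd.s_nonneg
      have a1 : 4 + d.s ^ 2 + 4 * d.s * d.kl ≤ (2 + d.s ^ 2) * tr (rk u u) := by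
        rw [hu2]; nlinarith [mul_le_mul_of_nonneg_left k1 hs, mul_le_mul_of_nonneg_left k2 hs]
      have a2 := hd.cl21
      have a3 := mul_le_mul_of_nonneg_left a1 hcpe.le
      have a4 : (5 * d.ρ + d.t2 + 3 * d.ε) * (2 + d.s ^ 2)
          ≤ ((d.cp + d.ε) * tr (rk u u)) * (2 + d.s ^ 2) := by linarith
      have a5 := le_of_mul_le_mul_right a4 (by positivity)
      linarith
    · have hW : ∑ y ∈ ({z, w} : Finset ℂ), (m y : ℝ) * (1 : ℝ) ^ 2 = 4 := by
        rw [sum_pair hzw, hz2, hw2]; norm_num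
      obtain ⟨u, hu1, hu2⟩ := exists_rank_one {z, w} v (fun z => (m z : ℝ))
        (fun _ => 1) (fun _ _ => Nat.cast_nonneg _) (by rw [hW]; norm_num)
      refine ⟨u, hu1, ?_⟩
      rw [hW] at hu2
      simp only [sum_pair hzw, hz2, hw2, h1 z hz, h1 w hw, Complex.one_re] at hu2 ⊢
      push_cast at hu2 ⊢
      have a1 : 2 + 2 * d.kl ≤ tr (rk u u) := by linarith
      have a2 := hd.cl22
      have a3 := mul_le_mul_of_nonneg_left a1 hcpe.le
      linarith
  push Not at h2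
  -- pattern `(1,1,1)`
  have hex : ∃ t : ℝ, 2 < ∑ x ∈ R with t ≤ x.re ∧ x.re < t + d.l, (m x : ℝ) := by
    by_contra hc
    push Not at hc
    exact hns ⟨h3', hc⟩
  obtain ⟨t, ht⟩ := hex
  set S := R.filter (fun x => t ≤ x.re ∧ x.re < t + d.l) with hS
  have hSd : ∀ x ∈ S, ∀ y ∈ S, |x.re - y.re| ≤ d.l := by
    intro x hx y hy
    obtain ⟨-, a1, a2⟩ := mem_filter.mp hx
    obtain ⟨-, b1, b2⟩ := mem_filter.mp hy
    exact abs_le.mpr ⟨by linarith, by linarith⟩
  have hSR : ∀ x ∈ S, x ∈ R := fun x hx => (mem_filter.mp hx).1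
  have hcard2 : 1 < S.card := by
    by_contra hc
    have hc' : S.card ≤ 1 := not_lt.mp hc
    have : ∑ x ∈ S, (m x : ℝ) ≤ S.card • (2 : ℝ) :=
      Finset.sum_le_card_nsmul _ _ _ fun x hx => by exact_mod_cast h3' x (hSR x hx)
    have h' : (S.card : ℝ) ≤ 1 := by exact_mod_cast hc'
    rw [nsmul_eq_mul] at this
    linarith
  have hone : ∀ x ∈ S, m x = 1 := by
    intro x hx
    obtain ⟨y, hy, hyx⟩ := Finset.exists_mem_ne hcard2 x
    have a1 := h2 x (hSR x hx) y (hSR y hy) hyx.symm (hSd x hx y hy)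
    have a2 := h3' x (hSR x hx)
    have a3 := (hR x (hSR x hx)).2
    omega
  have hcard3 : 2 < S.card := by
    have : ∑ x ∈ S, (m x : ℝ) = S.card := by
      rw [Finset.sum_congr rfl fun x hx => by rw [hone x hx]]; simp
    rw [this] at ht
    exact_mod_cast ht
  obtain ⟨x, y, z, hx, hy, hz, hxy, hxz, hyz⟩ := Finset.two_lt_card_iff.mp hcard3
  have hsum : ∀ F : ℂ → ℝ, ∑ w ∈ ({x, y, z} : Finset ℂ), F w = F x + (F y + F z) := by
    intro F
    rw [sum_insert (by simp [hxy, hxz]), sum_pair hyz]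
  refine ⟨{x, y, z}, ?_, by simp, ?_⟩
  · intro w hw
    simp only [mem_insert, mem_singleton] at hw
    rcases hw with rfl | rfl | rfl
    exacts [hSR _ hx, hSR _ hy, hSR _ hz]
  have hW : ∑ w ∈ ({x, y, z} : Finset ℂ), (m w : ℝ) * (1 : ℝ) ^ 2 = 3 := by
    rw [hsum, hone x hx, hone y hy, hone z hz]; norm_num
  obtain ⟨u, hu1, hu2⟩ := exists_rank_one {x, y, z} v (fun z => (m z : ℝ))
    (fun _ => 1) (fun _ _ => Nat.cast_nonneg _) (by rw [hW]; norm_num)
  refine ⟨u, hu1, ?_⟩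
  rw [hW] at hu2
  simp only [hsum, hone x hx, hone y hy, hone z hz, h1 x (hSR x hx), h1 y (hSR y hy),
    h1 z (hSR z hz), Complex.one_re] at hu2 ⊢
  push_cast at hu2 ⊢
  have k := fun a (ha : a ∈ S) b (hb : b ∈ S) => hk a (hSR a ha) b (hSR b hb) (hSd a ha b hb)
  have a1 : 1 + 2 * d.kl ≤ tr (rk u u) := by
    linarith [k x hx y hy, k x hx z hz, k y hy x hx, k y hy z hz, k z hz x hx, k z hz y hy]
  have a2 := hd.cl111
  have a3 := mul_le_mul_of_nonneg_left a1 hcpe.le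
  linarith

lemma cluster_decomp (hd : d.Good) (R : Finset ℂ) : (∀ z ∈ R, z.im = 0 ∧ 1 ≤ m z) →
    (∀ z ∈ R, star (v z) ⬝ᵥ v z = 1) →
    (∀ z ∈ R, ∀ w ∈ R, |z.re - w.re| ≤ d.l → d.kl ≤ (star (v z) ⬝ᵥ v w).re) →
    ∃ R' ⊆ R, ∃ (p : ℕ) (u : Fin p → n → ℂ), Sparse d.l m R' ∧
      (opR v R m - opR v R' m - ∑ j, rk (u j) (u j)).PosSemidef ∧
      d.ρ * (∑ z ∈ R, (3 * (m z : ℝ) - 2) - ∑ z ∈ R', (3 * (m z : ℝ) - 2))
        + d.ε * (∑ z ∈ R, (m z : ℝ) - ∑ z ∈ R', (m z : ℝ)) + d.t2 * p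
        ≤ (d.cp + d.ε) * ∑ j, tr (rk (u j) (u j)) := by
  classical
  induction R using Finset.strongInduction with
  | H R ih =>
    intro hR h1 hk
    by_cases hs : Sparse d.l m R
    · refine ⟨R, subset_rfl, 0, fun j => j.elim0, hs, ?_, by simp⟩
      simpa using PosSemidef.zero
    obtain ⟨C, hCR, hCne, u0, hu1, hu2⟩ := exists_cluster hd R hR h1 hk hs
    have hss : R \ C ⊂ R := Finset.sdiff_ssubset hCR hCne
    obtain ⟨R', hR', p, u, a1, a2, a3⟩ := ih (R \ C) hss (fun z hz => hR z (hss.subset hz))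
      (fun z hz => h1 z (hss.subset hz))
      (fun z hz w hw => hk z (hss.subset hz) w (hss.subset hw))
    refine ⟨R', hR'.trans hss.subset, p + 1, Fin.cons u0 u, a1, ?_, ?_⟩
    · have := a2.add hu1
      convert this using 1
      rw [Fin.sum_univ_succ]
      simp only [Fin.cons_zero, Fin.cons_succ]
      have e : opR v R m = opR v (R \ C) m + opR v C m := by
        unfold opR; rw [Finset.sum_sdiff hCR]
      rw [e]; abel
    · rw [Fin.sum_univ_succ]
      simp only [Fin.cons_zero, Fin.cons_succ]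
      rw [← Finset.sum_sdiff hCR (f := fun z => 3 * (m z : ℝ) - 2),
        ← Finset.sum_sdiff hCR (f := fun z => (m z : ℝ))]
      push_cast
      linarith

end cluster

section sparse

variable {n : Type*} [Fintype n] [DecidableEq n] {v : ℂ → n → ℂ} {d : BData} {m : ℂ → ℕ}
  {k : ℂ → ℂ} {f : ℝ → ℝ} {h : ℝ → ℂ}

/-- Gram data of a sparse real configuration. -/
lemma sparse_data (hd : d.Good) (hc : Cert d.K k f h d.ν d.ρ d.h0 d.l (d.b / d.l) d.kl)
    (R : Finset ℂ) (hR : ∀ z ∈ R, z.im = 0 ∧ 1 ≤ m z) (hs : Sparse d.l m R)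
    (hv : ∀ x ∈ R, ∀ y ∈ R, star (v y) ⬝ᵥ v x = k (x - y)) :
    ∃ (V : Matrix n R ℂ) (E : Matrix R R ℂ), V * Vᴴ = opR v R m ∧ E.IsHermitian ∧
      ((d.σ : ℂ) • (1 : Matrix R R ℂ) + E - Vᴴ * V).PosSemidef ∧
      d.ρ * ∑ z ∈ R, (3 * (m z : ℝ) - 2) + ip E E
        ≤ ∫ a in (-1 : ℝ)..1, d.K a * ‖mu R (fun x => (m x : ℂ)) a‖ ^ 2 := by
  classical
  set sq : ℂ → ℝ := fun z => √(m z : ℝ) with hsq
  have hsq2 : ∀ z, sq z * sq z = m z := fun z => Real.mul_self_sqrt (Nat.cast_nonneg _)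
  set Ef : ℂ → ℂ → ℂ := fun z w =>
    if z = w then 0 else ((sq z * sq w : ℝ) : ℂ) * h (w.re - z.re) with hEf
  set V : Matrix n R ℂ := Matrix.of fun α z => (sq z : ℂ) * v z α with hV
  set E : Matrix R R ℂ := Matrix.of fun z w => Ef z w with hE
  have hEh : E.IsHermitian := by
    ext z w
    simp only [hE, hEf, conjTranspose_apply, Matrix.of_apply, RCLike.star_def]
    by_cases hzw : (z : ℂ) = w
    · rw [if_pos hzw, if_pos hzw.symm, map_zero]
    · rw [if_neg hzw, if_neg (Ne.symm hzw), map_mul, Complex.conj_ofReal, ← hc.h_conj, neg_sub,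
        mul_comm (sq w)]
  refine ⟨V, E, ?_, hEh, ?_, ?_⟩
  · ext α β
    rw [mul_apply, opR, Matrix.sum_apply, ← Finset.sum_coe_sort R]
    refine Finset.sum_congr rfl fun z _ => ?_
    simp only [hV, conjTranspose_apply, Matrix.of_apply, Matrix.smul_apply, rk_apply,
      RCLike.star_def, map_mul, Complex.conj_ofReal, smul_eq_mul, ← hsq2]
    push_cast; ring
  · have hM : ((d.σ : ℂ) • (1 : Matrix R R ℂ) + E - Vᴴ * V).IsHermitian :=
      (((PosSemidef.one.smul (Complex.zero_le_real.mpr hd.σ_pos.le)).isHermitian).add hEh).sub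
        (isHermitian_conjTranspose_mul_self V)
    refine PosSemidef.of_dotProduct_mulVec_nonneg hM fun ξ => ?_
    rw [Complex.nonneg_iff]
    refine ⟨?_, (hM.im_star_dotProduct_mulVec_self ξ).symm⟩
    set ξ' : ℂ → ℂ := fun x => if hx : x ∈ R then ξ ⟨x, hx⟩ else 0 with hξ'
    have hξ : ∀ z : R, ξ z = ξ' z := fun z => by simp [hξ', z.2]
    have hent : ∀ z w : R, ((d.σ : ℂ) • (1 : Matrix R R ℂ) + E - Vᴴ * V) z w
        = (if (z : ℂ) = w then ((d.σ - m (z : ℂ) * d.h0 : ℝ) : ℂ) else 0)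
          - ((sq w * sq z : ℝ) : ℂ) * (k (w - z) - h ((w : ℂ).re - (z : ℂ).re)) := by
      intro z w
      have e1 : (Vᴴ * V) z w = ((sq w * sq z : ℝ) : ℂ) * k (w - z) := by
        rw [← hv w w.2 z z.2, mul_apply, dotProduct, Finset.mul_sum]
        refine Finset.sum_congr rfl fun α _ => ?_
        simp only [hV, conjTranspose_apply, Matrix.of_apply, RCLike.star_def, map_mul,
          Complex.conj_ofReal, Pi.star_apply]
        push_cast; ring
      rw [Matrix.sub_apply, Matrix.add_apply, e1, Matrix.smul_apply, Matrix.one_apply]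
      simp only [hE, hEf, Matrix.of_apply]
      by_cases hzw : z = w
      · subst hzw
        simp only [if_true, sub_self, hc.h_zero, hsq2]
        push_cast; simp; ring
      · have : (z : ℂ) ≠ w := fun h' => hzw (Subtype.ext h')
        simp only [if_neg hzw, if_neg this]
        push_cast; simp; ring
    have hform : star ξ ⬝ᵥ (((d.σ : ℂ) • (1 : Matrix R R ℂ) + E - Vᴴ * V) *ᵥ ξ)
        = ((∑ z ∈ R, (d.σ - m z * d.h0) * ‖ξ' z‖ ^ 2 : ℝ) : ℂ)
          - ∑ x ∈ R, ∑ y ∈ R, ξ' x * conj (ξ' y) * ((√(m x : ℝ) * √(m y : ℝ) : ℝ) : ℂ)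
            * (k (x - y) - h (x.re - y.re)) := by
      rw [Finset.sum_comm, Complex.ofReal_sum, ← Finset.sum_sub_distrib, ← Finset.sum_coe_sort R,
        dotProduct]
      refine Finset.sum_congr rfl fun z _ => ?_
      rw [← Finset.sum_coe_sort R, mulVec, dotProduct, Finset.mul_sum]
      simp only [hent, sub_mul, mul_sub, Finset.sum_sub_distrib, Pi.star_apply, RCLike.star_def,
        hξ]
      congr 1
      · rw [Finset.sum_eq_single z]
        · rw [if_pos rfl]; push_cast; rw [← Complex.conj_mul']; ring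
        · intro w _ hw
          rw [if_neg (fun h' => hw (Subtype.ext h').symm)]; simp
        · simp
      · congr 1 <;> refine Finset.sum_congr rfl fun w _ => ?_ <;> simp only [hsq] <;> ring
    rw [hform, Complex.sub_re, Complex.ofReal_re, sub_nonneg]
    refine (hc.h2 R (fun x => (m x : ℝ)) ξ' (fun x hx => (hR x hx).1)
      (fun _ _ => Nat.cast_nonneg _) hs.2).trans ?_
    rw [Finset.mul_sum]
    refine Finset.sum_le_sum fun z hz => mul_le_mul_of_nonneg_right ?_ (sq_nonneg _)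
    have a1 : (m z : ℝ) ≤ 2 := by exact_mod_cast hs.1 z hz
    have a2 := mul_le_mul_of_nonneg_right a1 hd.h0_nonneg
    have a3 := hd.σ_ge
    have a4 : 2 * d.b / d.l = 2 * (d.b / d.l) := by ring
    linarith
  · have h1 := hc.h1 R (fun x => (m x : ℝ)) (fun x hx => (hR x hx).1)
    simp only [Complex.ofReal_natCast] at h1
    refine le_trans ?_ h1
    rw [ip_herm hEh, Finset.mul_sum]
    have e : ∑ z : R, ∑ w : R, ‖E z w‖ ^ 2 = ∑ z ∈ R, ∑ w ∈ R, ‖Ef z w‖ ^ 2 := by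
      rw [← Finset.sum_coe_sort R]
      refine Finset.sum_congr rfl fun z _ => ?_
      rw [← Finset.sum_coe_sort R]; rfl
    rw [e, ← Finset.sum_add_distrib]
    refine Finset.sum_le_sum fun z hz => ?_
    rw [← Finset.add_sum_erase R _ hz, ← Finset.add_sum_erase R _ hz, ← add_assoc]
    refine add_le_add ?_ (Finset.sum_le_sum fun w hw => ?_)
    · simp only [hEf, if_true, norm_zero, sub_self, hc.f_zero]
      have hρ : 0 ≤ d.ρ := by rw [← hc.f_zero]; exact (sq_nonneg _).trans (hc.h_sq_le 0)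
      have a1 : m z = 1 ∨ m z = 2 := by
        have := hs.1 z hz
        have := (hR z hz).2
        omega
      rcases a1 with a1 | a1 <;> rw [a1] <;> push_cast <;> linarith
    · have hne : z ≠ w := (Finset.ne_of_mem_erase hw).symm
      simp only [hEf, if_neg hne]
      have a1 : h (w.re - z.re) = conj (h (z.re - w.re)) := by rw [← hc.h_conj, neg_sub]
      rw [norm_mul, a1, Complex.norm_conj, Complex.norm_real, mul_pow, Real.norm_eq_abs, sq_abs,
        mul_pow, pow_two (sq z), pow_two (sq w), hsq2, hsq2]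
      exact mul_le_mul_of_nonneg_left (hc.h_sq_le _) (by positivity)

end sparse

lemma mu_indicator {A Z : Finset ℂ} (hAZ : A ⊆ Z) (c : ℂ → ℂ) (a : ℝ) :
    mu Z (fun z => if z ∈ A then c z else 0) a = mu A c a := by
  classical
  unfold mu
  simp only [ite_mul, zero_mul]
  rw [Finset.sum_ite_mem, Finset.inter_eq_right.mpr hAZ]

lemma op_indicator {n : Type*} (v : ℂ → n → ℂ) {A Z : Finset ℂ} (hAZ : A ⊆ Z) (c : ℂ → ℂ) :
    op v Z (fun z => if z ∈ A then c z else 0) = op v A c := by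
  classical
  unfold op
  simp only [ite_smul, zero_smul]
  rw [Finset.sum_ite_mem, Finset.inter_eq_right.mpr hAZ]

theorem stmtB_of_cert {d : BData} {k : ℂ → ℂ} {f : ℝ → ℝ} {h : ℝ → ℂ} (hd : d.Good)
    (hc : Cert d.K k f h d.ν d.ρ d.h0 d.l (d.b / d.l) d.kl) :
    StmtB d.K (3 * d.ρ) (2 * d.ρ) 0 := by
  classical
  refine ⟨d.cp + d.t2, fun Z₀ Z₁ m c x₀ Rr _ hZ₀ hZ₁ => ?_⟩
  have hcp : 0 ≤ d.cp := by linarith [hd.cp_σ, hd.σ_pos]
  have ht2 : 0 ≤ d.t2 := mul_nonneg (by linarith [hd.ν_le]) (sq_nonneg _)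
  set Z := Z₀ ∪ Z₁ with hZ
  have hZc : ∀ x ∈ Z, conj x ∈ Z := by
    intro x hx
    rcases mem_union.mp hx with h' | h'
    · exact mem_union_left _ (hZ₀ x h').1
    · exact mem_union_right _ (hZ₁ x h').1
  obtain ⟨n, S, v, dd, hdd, hgram, hint⟩ := hc.model Z hZc
  have hgram' : ∀ x ∈ Z, ∀ y ∈ Z, star (v y) ⬝ᵥ v x = k (x - conj y) := by
    intro x hx y hy
    rw [← hgram x hx y hy, dotProduct]
    exact Finset.sum_congr rfl fun α _ => by simp [mul_comm]
  have hBf : ∀ c' : ℂ → ℂ, (op v Z c').IsHermitian → Bf (dm dd) (op v Z c') (op v Z c')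
      = ∫ a in (-1 : ℝ)..1, d.K a * ‖mu Z c' a‖ ^ 2 := by
    intro c' hh
    rw [Bf_dm dd hh, hint c']
    simp only [op_apply]
  have hZ0 : Z₀ ⊆ Z := subset_union_left
  have hZ1 : Z₁ ⊆ Z := subset_union_right
  have htrp : ∀ z ∈ Z, ∀ c' : ℂ,
      tr (c' • rk (v z) (v (conj z)) + conj c' • rk (v (conj z)) (v z)) = 2 * c'.re := by
    intro z hz c'
    unfold tr
    rw [trace_add, trace_smul, trace_smul, trace_rk, trace_rk, hgram' z hz _ (hZc z hz),
      hgram' _ (hZc z hz) z hz, Complex.conj_conj, sub_self, sub_self, hc.k_zero]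
    simp; ring
  -- real points
  set R := Z₀.filter (fun z => z.im = 0) with hRdef
  set Zp := Z₀.filter (fun z => 0 < z.im) with hZp
  have hRZ : R ⊆ Z := (filter_subset _ _).trans hZ0
  have hR : ∀ z ∈ R, z.im = 0 ∧ 1 ≤ m z := fun z hz =>
    ⟨(mem_filter.mp hz).2, (hZ₀ z (mem_filter.mp hz).1).2.2.1⟩
  have hvR : ∀ x ∈ R, ∀ y ∈ R, star (v y) ⬝ᵥ v x = k (x - y) := by
    intro x hx y hy
    rw [hgram' x (hRZ hx) y (hRZ hy), Complex.conj_eq_iff_im.mpr (hR y hy).1]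
  have hv1 : ∀ z ∈ R, star (v z) ⬝ᵥ v z = 1 := by
    intro z hz; rw [hvR z hz z hz, sub_self, hc.k_zero]
  obtain ⟨R', hR', p, u, hsp, hP, hcl⟩ := cluster_decomp (v := v) (m := m) hd R hR hv1 (by
    intro z hz w hw hzw
    rw [hvR w hw z hz]
    have : w - z = ((w.re - z.re : ℝ) : ℂ) := by
      apply Complex.ext <;> simp [(hR z hz).1, (hR w hw).1]
    rw [this]
    exact hc.k_ge _ (by rwa [abs_sub_comm]))
  obtain ⟨V, E, hVV, hE, hVE, hlow⟩ := sparse_data (v := v) hd hc R' (fun z hz => hR z (hR' hz))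
    hsp (fun x hx y hy => hvR x (hR' hx) y (hR' hy))
  -- the indefinite part
  set T : ℂ → ℂ → Matrix (Fin n) (Fin n) ℂ :=
    fun c' z => c' • rk (v z) (v (conj z)) + conj c' • rk (v (conj z)) (v z) with hT
  set y : ℂ → ℂ → Fin n → ℂ := fun c' z => c' • v z + v (conj z) with hy
  set Q := ∑ j, rk (u j) (u j) + (∑ z ∈ Zp, T (m z) z + ∑ z ∈ Z₁, T (c z / 2) z) with hQ
  have hQh : Q.IsHermitian := by
    refine (posSemidef_sum _ fun j _ => rk_psd (u j)).isHermitian.add (IsHermitian.add ?_ ?_)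
    · unfold Matrix.IsHermitian
      rw [conjTranspose_sum]
      exact Finset.sum_congr rfl fun z _ => pair_herm _ _ _
    · unfold Matrix.IsHermitian
      rw [conjTranspose_sum]
      exact Finset.sum_congr rfl fun z _ => pair_herm _ _ _
  let uu : Fin p ⊕ (Zp ⊕ Z₁) → Fin n → ℂ :=
    Sum.elim u (Sum.elim (fun z => y (m z) z) (fun z => y (c z / 2) z))
  have hu : (∑ j, vecMulVec (uu j) (star (uu j)) - Q).PosSemidef := by
    have h1 : (∑ z ∈ Zp, (rk (y (m z) z) (y (m z) z) - T (m z) z)).PosSemidef :=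
      posSemidef_sum _ fun z _ => pair_le _ _ _
    have h2 : (∑ z ∈ Z₁, (rk (y (c z / 2) z) (y (c z / 2) z) - T (c z / 2) z)).PosSemidef :=
      posSemidef_sum _ fun z _ => pair_le _ _ _
    convert h1.add h2 using 1
    rw [Fintype.sum_sum_type, Fintype.sum_sum_type, Finset.sum_sub_distrib,
      Finset.sum_sub_distrib, hQ]
    simp only [uu, Sum.elim_inl, Sum.elim_inr]
    rw [Finset.sum_coe_sort Zp (fun z => vecMulVec (y (m z) z) (star (y (m z) z))),
      Finset.sum_coe_sort Z₁ (fun z => vecMulVec (y (c z / 2) z) (star (y (c z / 2) z)))]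
    unfold rk
    abel
  have hmain := main_abs (dm_herm dd) (dm_le dd hdd) hd.ν_le hd.σ_pos hd.τ_nonneg hd.cp_σ V E hE
    hVE hP hQh uu hu
  -- identify the total operator
  have hsym0 : ∀ z ∈ Z₀, conj z ∈ Z₀ ∧ ((m (conj z) : ℕ) : ℂ) = conj ((m z : ℕ) : ℂ) :=
    fun z hz => ⟨(hZ₀ z hz).1, by rw [(hZ₀ z hz).2.1, map_natCast]⟩
  have hop0 : op v Z₀ (fun z => (m z : ℂ)) = opR v R m + ∑ z ∈ Zp, T (m z) z := by
    rw [← op_real v (fun z hz => (hR z hz).1) m]
    unfold op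
    rw [sum_split (fun z hz => (hZ₀ z hz).1)]
    congr 1
    refine Finset.sum_congr rfl fun z hz => ?_
    simp only [hT]
    rw [(hsym0 z (mem_filter.mp hz).1).2, Complex.conj_conj]
  have hop1 : op v Z₁ c = ∑ z ∈ Z₁, T (c z / 2) z := by
    have e := sum_conj (fun z hz => (hZ₁ z hz).1) (fun z => (c z / 2) • rk (v z) (v (conj z)))
    simp only [hT]
    rw [Finset.sum_add_distrib]
    have e2 : ∑ z ∈ Z₁, conj (c z / 2) • rk (v (conj z)) (v z)
        = ∑ z ∈ Z₁, (c z / 2) • rk (v z) (v (conj z)) := by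
      rw [← e]
      refine Finset.sum_congr rfl fun z hz => ?_
      rw [(hZ₁ z hz).2, Complex.conj_conj, map_div₀, map_ofNat]
    rw [e2, ← Finset.sum_add_distrib]
    refine Finset.sum_congr rfl fun z _ => ?_
    rw [← add_smul, add_halves]
  set ct : ℂ → ℂ := fun z => (if z ∈ Z₀ then (m z : ℂ) else 0) + (if z ∈ Z₁ then c z else 0)
    with hct
  have hG : V * Vᴴ + (opR v R m - opR v R' m - ∑ j, rk (u j) (u j)) + Q = op v Z ct := by
    have : op v Z ct = op v Z₀ (fun z => (m z : ℂ)) + op v Z₁ c := by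
      rw [← op_indicator v hZ0, ← op_indicator v hZ1]
      unfold op
      simp only [hct, add_smul, Finset.sum_add_distrib]
    rw [this, hop0, hop1, hVV, hQ]; abel
  have hGh : (op v Z ct).IsHermitian := by
    rw [← hG]
    exact ((posSemidef_self_mul_conjTranspose V).isHermitian.add hP.isHermitian).add hQh
  have hmu : ∀ a, mu Z ct a = mu Z₀ (fun x => (m x : ℂ)) a + mu Z₁ c a := by
    intro a
    rw [← mu_indicator hZ0, ← mu_indicator hZ1]
    unfold mu
    simp only [hct, add_mul, Finset.sum_add_distrib]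
  rw [hG, hBf ct hGh] at hmain
  simp only [hmu] at hmain
  refine le_trans ?_ hmain
  have hP' : Bf (dm dd) (V * Vᴴ) (V * Vᴴ)
      = ∫ a in (-1 : ℝ)..1, d.K a * ‖mu R' (fun x => (m x : ℂ)) a‖ ^ 2 := by
    have e : V * Vᴴ = op v Z (fun z => if z ∈ R' then (m z : ℂ) else 0) := by
      rw [op_indicator v (hR'.trans hRZ), op_real v (fun z hz => (hR z (hR' hz)).1), hVV]
    have hh := (posSemidef_self_mul_conjTranspose V).isHermitian
    rw [e] at hh ⊢
    rw [hBf _ hh]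
    simp only [mu_indicator (hR'.trans hRZ)]
  have htrP : tr (opR v R m - opR v R' m - ∑ j, rk (u j) (u j))
      = ∑ z ∈ R, (m z : ℝ) - ∑ z ∈ R', (m z : ℝ) - ∑ j, tr (rk (u j) (u j)) := by
    rw [tr_sub, tr_sub, tr_opR v hv1, tr_opR v (fun z hz => hv1 z (hR' hz))]
    unfold tr; rw [trace_sum, Complex.re_sum]
  have htrQ : tr Q = ∑ j, tr (rk (u j) (u j)) + (∑ z ∈ Zp, 2 * (m z : ℝ) + ∑ z ∈ Z₁, (c z).re) := by
    have ts : ∀ {ι : Type} (s : Finset ι) (F : ι → Matrix (Fin n) (Fin n) ℂ),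
        tr (∑ j ∈ s, F j) = ∑ j ∈ s, tr (F j) := by
      intro ι s F; unfold tr; rw [trace_sum, Complex.re_sum]
    rw [hQ, tr_add, tr_add, ts, ts, ts]
    congr 2
    · refine Finset.sum_congr rfl fun z hz => ?_
      rw [hT]; simp only []
      rw [htrp z (hZ0 (mem_filter.mp hz).1), Complex.natCast_re]
    · refine Finset.sum_congr rfl fun z hz => ?_
      rw [hT]; simp only []
      rw [htrp z (hZ1 hz)]; simp; ring
  have hcard : (Fintype.card (Fin p ⊕ (Zp ⊕ Z₁)) : ℝ) = p + (Zp.card + Z₁.card) := by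
    simp
  rw [hP', htrP, htrQ, hcard]
  have s1 : ∑ x ∈ Z₀, (m x : ℝ) = ∑ z ∈ R, (m z : ℝ) + 2 * ∑ z ∈ Zp, (m z : ℝ) := by
    rw [sum_split (fun z hz => (hZ₀ z hz).1), Finset.mul_sum]
    congr 1
    refine Finset.sum_congr rfl fun z hz => ?_
    rw [(hZ₀ z (mem_filter.mp hz).1).2.1]; ring
  have s2 : (Z₀.card : ℝ) = R.card + 2 * Zp.card := by
    have := sum_split (fun z hz => (hZ₀ z hz).1) (fun _ => (1 : ℝ))
    simp only [sum_const, nsmul_eq_mul, mul_one] at this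
    rw [this]; ring
  have s3 : ∑ z ∈ R, (3 * (m z : ℝ) - 2) = 3 * ∑ z ∈ R, (m z : ℝ) - 2 * R.card := by
    rw [Finset.sum_sub_distrib, ← Finset.mul_sum]; simp; ring
  have s4 : (Zp.card : ℝ) ≤ ∑ z ∈ Zp, (m z : ℝ) := by
    rw [Finset.card_eq_sum_ones]; push_cast
    exact Finset.sum_le_sum fun z hz => by
      exact_mod_cast (hZ₀ z (mem_filter.mp hz).1).2.2.1
  have s5 : -∑ x ∈ Z₁, ‖c x‖ ≤ ∑ z ∈ Z₁, (c z).re := by
    rw [← Finset.sum_neg_distrib]
    exact Finset.sum_le_sum fun z _ => (abs_le.mp (Complex.abs_re_le_norm _)).1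
  have s6 : ∑ x ∈ Z₁, (1 + ‖c x‖) = Z₁.card + ∑ x ∈ Z₁, ‖c x‖ := by
    rw [Finset.sum_add_distrib]; simp
  have s7 : 0 ≤ ∑ x ∈ Z₁, ‖c x‖ := Finset.sum_nonneg fun _ _ => norm_nonneg _
  have s8 : (0 : ℝ) ≤ Z₁.card := Nat.cast_nonneg _
  have s9 : (0 : ℝ) ≤ Zp.card := Nat.cast_nonneg _
  rw [← Finset.mul_sum, s1, s2, s6]
  rw [s3] at hcl
  have c1 := hd.cp_ρ
  have c2 := hd.pair
  have p1 := mul_le_mul_of_nonneg_left s4 (sub_nonneg.mpr c1)
  have p2 := mul_le_mul_of_nonneg_right c2 s9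
  have p3 := mul_le_mul_of_nonneg_left s5 hcp
  have p4 := mul_nonneg hcp s8
  have p5 := mul_nonneg ht2 s7
  have ecp : 2 * d.τ * (1 - d.ν) - 2 * d.ν * d.σ = d.cp := rfl
  have et2 : (1 - d.ν) * d.τ ^ 2 = d.t2 := rfl
  have eε : 2 * d.ν * d.σ = d.ε := rfl
  rw [ecp, et2, eε]
  nlinarith

end Pool.Agent.MP_f259ea_nt.B

namespace Pool.Agent.MP_f259ea_nt

theorem stmtBMain : StmtBMain := fun _ hd => B.stmtB_of_cert hd (BData.cert hd)

end Pool.Agent.MP_f259ea_nt
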