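import Pool.Agent.Mg.Ff259ea.G06b7c0
import Pool.Agent.Mg.Ff259ea.Gae27b5
import Pool.Agent.Mg.Ff259ea.G3f0772
import Pool.Agent.Mg.Ff259ea.G80961c
import Pool.Agent.Mg.Ff259ea.Gb29d25

section

/-!
Conductor aspect: definitions and statements of the lemmas.

Family: all primitive characters of modulus `Q₁ < d ≤ Q`.  The sieve part bounds the mean square
of `∑ a n χ n` over the family with the sharp constant, for length `N ≤ Q ^ (2 - δ)`.
-/

set_option autoImplicit false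

open Complex MeasureTheory Finset
open scoped Real ComplexConjugate Classical ArithmeticFunction.Moebius
  ArithmeticFunction.vonMangoldt Nat

namespace Pool.Agent.MP_f259ea_nt.Q

/-! ### Sieve part: definitions -/

/-- `e(x) = exp (2 π i x)`. -/
noncomputable def ee (x : ℝ) : ℂ := Complex.exp (2 * π * I * x)

/-- Distance to the nearest integer. -/
noncomputable def dZ (x : ℝ) : ℝ := |x - round x|

/-- The exponential sum `∑_{1 ≤ n ≤ N} a n e(n θ)`. -/
noncomputable def Sx (N : ℕ) (a : ℕ → ℂ) (θ : ℝ) : ℂ := ∑ n ∈ Icc 1 N, a n * ee (n * θ)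

/-- The squared norm `∑_{1 ≤ n ≤ N} |a n|²`. -/
noncomputable def nrm (N : ℕ) (a : ℕ → ℂ) : ℝ := ∑ n ∈ Icc 1 N, ‖a n‖ ^ 2

/-- Reduced residues modulo `q`. -/
def red (q : ℕ) : Finset ℕ := (range q).filter fun b => Nat.Coprime b q

/-- Primitive characters modulo `d`. -/
noncomputable def prim (d : ℕ) : Finset (DirichletCharacter ℂ d) :=
  Finset.univ.filter fun χ => χ.IsPrimitive

/-- Sum over primitive characters modulo `d`. -/
noncomputable def Ad (d N : ℕ) (a : ℕ → ℂ) : ℝ :=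
  ∑ χ ∈ prim d, ‖∑ n ∈ Icc 1 N, a n * χ (n : ZMod d)‖ ^ 2

/-- Sum over reduced fractions with denominator `q`, shifted by `β`. -/
noncomputable def Bq (q N : ℕ) (a : ℕ → ℂ) (β : ℝ) : ℝ :=
  ∑ b ∈ red q, ‖Sx N a ((b : ℝ) / q + β)‖ ^ 2

/-- The mean square over the family. -/
noncomputable def famSum (Q₁ Q N : ℕ) (a : ℕ → ℂ) : ℝ := ∑ d ∈ Ioc Q₁ Q, Ad d N a

/-- The size of the family. -/
noncomputable def famCard (Q₁ Q : ℕ) : ℝ := ∑ d ∈ Ioc Q₁ Q, ((prim d).card : ℝ)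

/-- Number of primitive characters modulo `d`, as an arithmetic sum. -/
noncomputable def phiS (d : ℕ) : ℝ := ∑ e ∈ d.divisors, (μ (d / e) : ℝ) * (φ e : ℝ)

/-- Coefficient of `Bq q` in `Ad d`. -/
noncomputable def cc (q d : ℕ) : ℝ :=
  ∑ e ∈ d.divisors with q ∣ e, (μ (d / e) : ℝ) * ((φ e : ℝ) / e)

/-- Coefficient of `Ad d` in `Bq k`. -/
noncomputable def uu (d k : ℕ) : ℝ :=
  ∑ e ∈ k.divisors with d ∣ e, (μ (k / e) : ℝ) * ((e : ℝ) / φ e)

/-- Coefficient of `Bq q` in `famSum`. -/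
noncomputable def cq (Q₁ Q q : ℕ) : ℝ := ∑ d ∈ Ioc Q₁ Q with q ∣ d, cc q d

/-- Number of reduced fractions `b / q` whose distance to `θ` modulo one lies in `s`. -/
noncomputable def nS (q : ℕ) (s : Set ℝ) (θ : ℝ) : ℕ :=
  ((red q).filter fun b : ℕ => dZ (θ - (b : ℝ) / q) ∈ s).card

/-- Number of reduced fractions `b / q` within `η` of `θ` modulo one. -/
noncomputable def nB (q : ℕ) (η θ : ℝ) : ℕ := nS q (Set.Iic η) θ

/-- Number of integers `b` with `|b - θ e| ≤ η e`. -/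
noncomputable def cnt (θ η : ℝ) (e : ℕ) : ℕ := (Icc ⌈(θ - η) * e⌉ ⌊(θ + η) * e⌋).card

/-- The support of `a` is coprime to `k`. -/
def CopTo (N : ℕ) (a : ℕ → ℂ) (k : ℕ) : Prop := ∀ n ∈ Icc 1 N, a n ≠ 0 → Nat.Coprime n k

/-- The support of `a` is coprime to all `k ≤ Q`. -/
def Cop (N Q : ℕ) (a : ℕ → ℂ) : Prop := ∀ k ∈ Icc 1 Q, CopTo N a k

/-! ### Sieve part: statements -/

/-- Bounds for the arithmetic coefficients. -/
def StmtArith : Prop :=
  (∀ q d : ℕ, 1 ≤ d → q ∣ d → |cc q d| ≤ (q : ℝ) / d) ∧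
  (∀ d k : ℕ, 1 ≤ k → d ∣ k → 0 ≤ uu d k ∧ uu d k ≤ (d : ℝ) / φ k) ∧
  (∀ (d : ℕ) (R X : ℝ), 1 ≤ d → 1 ≤ R → d * R ≤ X →
    Real.log R ≤ ∑ k ∈ Icc 1 ⌊X⌋₊ with d ∣ k, uu d k) ∧
  (∀ k : ℕ, 1 ≤ k → ((k : ℝ) / φ k) ^ 2 ≤ 16 * (1 + Real.log k))

/-- Orthogonality over primitive characters of moduli dividing `e`, and consequences. -/
def StmtOrth : Prop :=
  (∀ e m n : ℕ, 1 ≤ e → Nat.Coprime m e → Nat.Coprime n e →
    ∑ d ∈ e.divisors, ∑ χ ∈ prim d, χ (m : ZMod d) * conj (χ (n : ZMod d))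
      = if m ≡ n [MOD e] then (φ e : ℂ) else 0) ∧
  (∀ d : ℕ, 1 ≤ d → ((prim d).card : ℝ) = phiS d ∧ (prim d).card ≤ d) ∧
  (∀ (N : ℕ) (a : ℕ → ℂ), Ad 1 N a = ‖∑ n ∈ Icc 1 N, a n‖ ^ 2)

/-- Short sums: the diagonal dominates. -/
def StmtLS1 : Prop :=
  ∀ (Q₁ Q N : ℕ) (a : ℕ → ℂ),
    famSum Q₁ Q N a ≤ (famCard Q₁ Q + Q * N * (1 + Real.log N)) * nrm N a

/-- Grouping fractions `b / e` by their reduced form. -/
def StmtRed : Prop :=
  ∀ (G : ℝ → ℝ) (e : ℕ), 1 ≤ e →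
    ∑ b ∈ range e, G ((b : ℝ) / e) = ∑ q ∈ e.divisors, ∑ b ∈ red q, G ((b : ℝ) / q)

/-- Passing between multiplicative and additive characters. -/
def StmtChar : Prop :=
  (∀ (d N : ℕ) (a : ℕ → ℂ), 1 ≤ d → CopTo N a d →
    Ad d N a = ∑ q ∈ d.divisors, cc q d * Bq q N a 0) ∧
  (∀ (k N : ℕ) (a : ℕ → ℂ) (β : ℝ), 1 ≤ k → CopTo N a k →
    Bq k N a β = ∑ d ∈ k.divisors, uu d k * Ad d N fun n => a n * ee (n * β))

/-- Gauss sums: primitive characters against reduced fractions, for arbitrary `a`. -/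
def StmtGauss : Prop := ∀ (d N : ℕ) (a : ℕ → ℂ), 1 ≤ d → Ad d N a ≤ Bq d N a 0

/-- Parseval and unfolding. -/
def StmtUnfold : Prop :=
  (∀ (N : ℕ) (a : ℕ → ℂ), Continuous (Sx N a) ∧ Function.Periodic (Sx N a) 1 ∧
    ∫ θ in (0 : ℝ)..1, ‖Sx N a θ‖ ^ 2 = nrm N a) ∧
  (∀ (k : ℕ) (s : Set ℝ) (G : ℝ → ℝ), MeasurableSet s → Continuous G → Function.Periodic G 1 →
    IntervalIntegrable (fun θ => (nS k s θ : ℝ) * G θ) volume 0 1 ∧
    IntervalIntegrable (fun β => s.indicator (fun _ => (1 : ℝ)) |β|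
      * ∑ b ∈ red k, G ((b : ℝ) / k + β)) volume (-(1 / 2)) (1 / 2) ∧
    ∫ θ in (0 : ℝ)..1, (nS k s θ : ℝ) * G θ
      = ∫ β in (-(1 / 2) : ℝ)..(1 / 2), s.indicator (fun _ => (1 : ℝ)) |β|
        * ∑ b ∈ red k, G ((b : ℝ) / k + β))

/-- Spacing of Farey fractions. -/
def StmtArcs : Prop :=
  (∀ (Q : ℕ) (η θ : ℝ), 0 ≤ η → η < 1 / 2 →
    ∑ q ∈ Icc 1 Q, (nB q η θ : ℝ) ≤ 2 * η * (Q : ℝ) ^ 2 + 1) ∧
  (∀ (Q : ℕ) (η θ : ℝ) (a : ℤ) (k : ℕ), 0 ≤ η → 1 ≤ k → Q * (|k * θ - a| + k * η) < 1 →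
    ∑ q ∈ Icc 1 Q, nB q η θ ≤ 1) ∧
  (∀ (Q M : ℕ) (η V θ : ℝ), 1 ≤ Q → 0 < η → 0 < V → 2 * V ^ 2 ≤ (Q : ℝ) ^ 2 * η →
    ∑ k ∈ Icc 1 M, nS k {x | Q * k * (x + η) < V} θ ≤ 1) ∧
  (∀ (θ : ℝ) (a : ℤ) (k : ℕ), 1 ≤ k → ∃ k' : ℕ, 1 ≤ k' ∧ k' ≤ k ∧ ∃ b ∈ red k',
    k' * dZ (θ - (b : ℝ) / k') ≤ |k * θ - a|) ∧
  (∀ (θ : ℝ) (b k : ℕ), 1 ≤ k → ∃ a : ℤ, |k * θ - a| = k * dZ (θ - (b : ℝ) / k))

/-- Gallagher's inequality with signed weights. -/
def StmtGall : Prop :=
  ∀ (Q N : ℕ) (a : ℕ → ℂ) (η Cc : ℝ) (c : ℕ → ℝ), 0 < η → η < 1 / 2 → 0 ≤ Cc →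
    (∀ q ∈ Icc 1 Q, |c q| ≤ Cc) →
    |∑ q ∈ Icc 1 Q, c q * Bq q N a 0
        - 1 / (2 * η) * ∫ θ in (0 : ℝ)..1, (∑ q ∈ Icc 1 Q, c q * nB q η θ) * ‖Sx N a θ‖ ^ 2|
      ≤ Cc * (2 * η * (Q : ℝ) ^ 2 + 1) * (4 * π * N) * nrm N a

/-- The classical large sieve for primitive characters. -/
def StmtLS0 : Prop :=
  ∀ (Q₁ Q N : ℕ) (a : ℕ → ℂ), famSum Q₁ Q N a ≤ 15 * ((Q : ℝ) ^ 2 + N) * nrm N a

/-- Lattice points in a thin triangle. -/
def StmtTri : Prop :=
  ∀ (θ η X : ℝ) (a : ℤ) (k : ℕ), 0 < η → 0 < X → 1 ≤ k → IsCoprime a (k : ℤ) →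
    |∑ e ∈ Icc 1 ⌊X⌋₊, (cnt θ η e : ℝ) - η * X ^ 2|
      ≤ 10 * (X * (|k * θ - a| + k * η) + η * X ^ 2 / (X * (|k * θ - a| + k * η)))

/-- The signed density of fractions on the minor arcs. -/
def StmtMinor : Prop :=
  ∃ C : ℝ, 0 < C ∧ ∀ (Q₁ Q : ℕ) (η W θ : ℝ), 1 ≤ Q → Q₁ ≤ Q → 0 < η → η < 1 / 2 → 0 < W →
    (∀ (a : ℤ) (k : ℕ), 1 ≤ k → W ≤ Q * (|k * θ - a| + k * η)) →
    |∑ q ∈ Icc 1 Q, cq Q₁ Q q * nB q η θ - 2 * η * ∑ d ∈ Ioc Q₁ Q, phiS d|
      ≤ C * (1 + Real.log Q) ^ 2 * (Q * √η + η * Q + η * (Q : ℝ) ^ 2 / W)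

/-- Mass on the major arcs. -/
def StmtMajor : Prop :=
  ∀ (N Q : ℕ) (a : ℕ → ℂ) (h β₀ : ℝ), Cop N Q a → 0 ≤ h → 0 ≤ β₀ → β₀ ≤ 1 / 2 →
    Real.exp h ≤ Q →
    h * ∫ β in (-β₀)..β₀, ‖Sx N a β‖ ^ 2
      ≤ ∫ θ in (0 : ℝ)..1, (∑ k ∈ Icc 1 ⌊Real.exp h⌋₊, (nB k β₀ θ : ℝ)) * ‖Sx N a θ‖ ^ 2

/-- Mass on the intermediate arcs. -/
def StmtInter : Prop :=
  ∀ (N Q : ℕ) (a : ℕ → ℂ) (η W R : ℝ), Cop N Q a → 1 ≤ Q → 0 < η → 1 ≤ W → 1 < R →
    8 * (W * R) ^ 2 ≤ (Q : ℝ) ^ 2 * η →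
    ∫ θ in (0 : ℝ)..1, (∑ k ∈ Icc 1 Q,
        (nS k {x | 1 ≤ Q * k * (x + η) ∧ Q * k * (x + η) < W} θ : ℝ)) * ‖Sx N a θ‖ ^ 2
      ≤ 4 * √(1 + Real.log Q) * (1 + Real.log W) / Real.log R * nrm N a

/-- The asymptotic large sieve for rough support. -/
def StmtLS2 : Prop :=
  ∀ δ ε : ℝ, 0 < δ → 0 < ε → ∃ Q₀ : ℕ, ∀ Q ≥ Q₀, ∀ (Q₁ N : ℕ) (a : ℕ → ℂ) (h β₀ : ℝ),
    Q₁ ≤ Q → (Q : ℝ) ≤ Q₁ * Real.log Q → (N : ℝ) ≤ (Q : ℝ) ^ (2 - δ) → Cop N Q a →
    0 ≤ h → 0 ≤ β₀ → (h = 0 ∨ 2 * Q * Real.exp h * (β₀ + 1 / N) ≤ 1) →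
    famSum Q₁ Q N a ≤ famCard Q₁ Q * (nrm N a - h * ∫ β in (-β₀)..β₀, ‖Sx N a β‖ ^ 2)
      + ε * (Q : ℝ) ^ 2 * nrm N a

/-- Lower bound for the mass near `0` by comparison with a slowly varying sequence. -/
def StmtModel : Prop :=
  ∀ (N : ℕ) (a g : ℕ → ℂ) (β₀ : ℝ), 0 < β₀ → β₀ ≤ 1 / 2 → g 0 = 0 → g (N + 1) = 0 →
    2 * (∑ n ∈ Icc 1 N, a n * conj (g n)).re - nrm N g
        - √(nrm N a) * √(∑ n ∈ range (N + 1), ‖g (n + 1) - g n‖ ^ 2) / (2 * β₀)
      ≤ ∫ β in (-β₀)..β₀, ‖Sx N a β‖ ^ 2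

/-- There are many primitive characters. -/
def StmtCard : Prop := ∃ c : ℝ, 0 < c ∧ ∃ Q₀ : ℕ, ∀ Q ≥ Q₀, c * (Q : ℝ) ^ 2 ≤ famCard 0 Q

/-! ### Analytic part -/

/-- Estimates for `L(s, χ)` that are uniform in the modulus. -/
def StmtUnif : Prop :=
  ∃ C : ℝ, 0 < C ∧ ∀ (N : ℕ) [NeZero N] (χ : DirichletCharacter ℂ N),
    (∀ t : ℝ, 3 ≤ t → ∃ t' ∈ Set.Icc t (t + 1), ∀ σ ∈ Set.Icc (1 / 2 : ℝ) 2,
      DirichletCharacter.LFunction χ (σ + t' * I) ≠ 0 ∧
      ‖logDeriv (DirichletCharacter.LFunction χ) (σ + t' * I)‖ ≤ C * Real.log (N * t) ^ 2) ∧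
    (χ.IsPrimitive → ∀ t R : ℝ, 3 ≤ t → 0 ≤ R → ∀ Z : Finset ℂ,
      (∀ z ∈ Z, t ≤ z.re ∧ z.re ≤ t + R ∧ |z.im| < 1 / 2) →
        ∑ z ∈ Z, (nn χ z : ℝ) ≤ C * (R + 1) * Real.log (N * (t + R + 1))) ∧
    (∀ t : ℝ, 2 ≤ t → ‖logDeriv (DirichletCharacter.gammaFactor χ) (1 / 2 + t * I)
      - ((Real.log t / 2 : ℝ) : ℂ)‖ ≤ C) ∧
    Btwo χ ≤ C

/-- Hypotheses on the Fourier transform of the weight. -/
structure GW (T : ℝ) (W : ℝ → ℂ) : Prop where
  cont : Continuous W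
  symm : ∀ u, W (-u) = conj (W u)
  sq_int : Integrable fun u => ‖W u‖ ^ 2
  sq_le : ∫ u, ‖W u‖ ^ 2 ≤ T
  gauss : ∀ u, ‖W u‖ ≤ T * Real.exp (-(π * u ^ 2))
  decay : ∀ u, |u| * ‖W u‖ ≤ 1
  lip : ∀ u v, ‖W u - W v‖ ≤ 20 * T ^ 2 * |u - v|

/-- Gaussian smoothing `w` of the indicator of `[A, B]`, with Fourier transform `W`. -/
def StmtWeightG : Prop :=
  ∃ C : ℝ, 0 < C ∧ ∀ T A B : ℝ, 1 ≤ T → T ≤ A → A ≤ B → B ≤ 2 * T →
    ∃ (w : ℂ → ℂ) (W : ℝ → ℂ),
      Differentiable ℂ w ∧ (∀ z, w (conj z) = conj (w z)) ∧ GW T W ∧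
      W 0 = ((B - A : ℝ) : ℂ) ∧
      (∀ v : ℝ, |v| ≤ 2 → Integrable (fun t : ℝ => w (t + v * I)) ∧
        ∀ u : ℝ, ∫ t : ℝ, w (t + v * I) * Complex.exp (2 * π * I * u * (t + v * I)) = W u) ∧
      (∀ z : ℂ, |z.im| ≤ 2 → ‖w z‖ ≤ C) ∧
      (∀ (z : ℂ) (D : ℝ), |z.im| ≤ 2 → 1 ≤ D → A + D ≤ z.re → z.re ≤ B - D →
        ‖w z - 1‖ ≤ C * Real.exp (-D ^ 2)) ∧
      (∀ (z : ℂ) (D : ℝ), |z.im| ≤ 2 → 1 ≤ D → (z.re ≤ A - D ∨ B + D ≤ z.re) →
        ‖w z‖ ≤ C * Real.exp (-D ^ 2)) ∧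
      (∀ v D : ℝ, |v| ≤ 2 → 1 ≤ D →
        ∫ t in (Set.Icc (A - D) (B + D))ᶜ, ‖w (t + v * I)‖ ≤ C * Real.exp (-D ^ 2))

/-- Length of the prime sums. -/
noncomputable def NN (δ : ℝ) (Q : ℕ) : ℕ := ⌊(Q : ℝ) ^ (2 - δ)⌋₊

/-- Length of the short part. -/
noncomputable def N1 (δ : ℝ) (Q : ℕ) : ℕ := ⌊(Q : ℝ) ^ (1 - δ)⌋₊

/-- The band width. -/
noncomputable def ell (δ : ℝ) (Q : ℕ) : ℝ := (2 - 2 * δ) * Real.log Q / (2 * π)

/-- The splitting point between the short and the long range. -/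
noncomputable def ust (δ : ℝ) (Q : ℕ) : ℝ := (1 - δ / 2) * Real.log Q / (2 * π)

/-- The gain from the major arcs. -/
noncomputable def hh (δ : ℝ) (Q : ℕ) (u : ℝ) : ℝ := max (2 * π * u - (1 + 3 * δ) * Real.log Q) 0

/-- The coefficient vector `Λ(n) n^{-1/2} W(u - log n / 2π)`. -/
noncomputable def av (W : ℝ → ℂ) (u : ℝ) (n : ℕ) : ℂ := ((Λ n / √n : ℝ) : ℂ) * W (u - un n)

/-- Short part. -/
noncomputable def a1 (δ : ℝ) (Q : ℕ) (W : ℝ → ℂ) (u : ℝ) (n : ℕ) : ℂ :=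
  if n ≤ N1 δ Q then av W u n else 0

/-- Large primes. -/
noncomputable def a2 (Q : ℕ) (W : ℝ → ℂ) (u : ℝ) (n : ℕ) : ℂ :=
  if n.Prime ∧ Q < n then av W u n else 0

/-- The rest. -/
noncomputable def a3 (δ : ℝ) (Q : ℕ) (W : ℝ → ℂ) (u : ℝ) (n : ℕ) : ℂ :=
  if n ≤ N1 δ Q ∨ (n.Prime ∧ Q < n) then 0 else av W u n

/-- The slowly varying model sequence. -/
noncomputable def gv (δ : ℝ) (Q : ℕ) (W : ℝ → ℂ) (u : ℝ) (n : ℕ) : ℂ :=
  if Q < n ∧ n ≤ NN δ Q then ((1 / √n : ℝ) : ℂ) * W (u - un n) else 0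

/-- The main term of the major arc mass. -/
noncomputable def gain (δ : ℝ) (Q : ℕ) (W : ℝ → ℂ) (u : ℝ) : ℝ :=
  2 * (∑ n ∈ Icc 1 (NN δ Q), a2 Q W u n * conj (gv δ Q W u n)).re - nrm (NN δ Q) (gv δ Q W u)

/-- The arithmetic side of the explicit formula. -/
noncomputable def Sch {d : ℕ} (χ : DirichletCharacter ℂ d) (W : ℝ → ℂ) (L u : ℝ) : ℂ :=
  L * W u - Psum χ W u - conj (Psum χ W (-u))

/-- The pair-correlation functional for band width two. -/
noncomputable def J2 (K : ℝ → ℝ) : ℝ := K 0 / 2 + ∫ a in (-1 : ℝ)..1, K a * min (2 * |a|) 1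

/-- Continuity, value at zero and truncation of the prime sum. -/
def StmtTail : Prop :=
  (∀ (T : ℝ) (W : ℝ → ℂ), GW T W → ∀ (d : ℕ) (χ : DirichletCharacter ℂ d),
    Continuous (Psum χ W)) ∧
  (∃ C : ℝ, 0 < C ∧ ∀ (T : ℝ) (W : ℝ → ℂ), GW T W → ∀ (d : ℕ) (χ : DirichletCharacter ℂ d),
    ‖Psum χ W 0‖ ≤ C * T) ∧
  (∀ δ : ℝ, 0 < δ → δ ≤ 1 / 2 → ∃ Q₀ : ℕ, ∀ Q ≥ Q₀, ∀ (T : ℝ) (W : ℝ → ℂ), T ≤ Q → GW T W →
    ∀ (d : ℕ) (χ : DirichletCharacter ℂ d) (u : ℝ), u ≤ ell δ Q →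
      ‖Psum χ W u - ∑ n ∈ Icc 1 (NN δ Q), av W u n * χ (n : ZMod d)‖ ≤ 1)

/-- Mertens-type estimates. -/
def StmtMert2 : Prop :=
  (∀ f : ℝ → ℝ, Continuous f → (∀ a, 0 ≤ f a) → ∀ ε : ℝ, 0 < ε → ∃ Y₀ : ℝ, ∀ Y : ℝ, Y₀ ≤ Y →
    Y * ((∫ a in (0 : ℝ)..1, f a) - ε)
      ≤ ∑ p ∈ Icc 1 ⌊Real.exp Y⌋₊ with p.Prime, Real.log p / p * f (Real.log p / Y) ∧
    ∑ n ∈ Icc 1 ⌊Real.exp Y⌋₊, 1 / (n : ℝ) * f (Real.log n / Y)
      ≤ Y * ((∫ a in (0 : ℝ)..1, f a) + ε)) ∧
  (∃ C : ℝ, 0 < C ∧ ∀ X : ℕ, ∑ n ∈ Icc 1 X with ¬ n.Prime, Λ n / (n : ℝ) ≤ C)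

/-- Localisation of the weight. -/
def StmtShift : Prop :=
  ∀ f : ℝ → ℝ, Continuous f → HasCompactSupport f → ∀ ε : ℝ, 0 < ε → ∃ T₀ : ℝ,
    ∀ (T ℓ c : ℝ) (W : ℝ → ℂ), T₀ ≤ T → T₀ ≤ ℓ → GW T W →
      Integrable (fun u => f (u / ℓ) * ‖W (u - c)‖ ^ 2) ∧
      |(∫ u, f (u / ℓ) * ‖W (u - c)‖ ^ 2) - f (c / ℓ) * ∫ u, ‖W u‖ ^ 2| ≤ ε * T

/-- The diagonal main term. -/
def StmtDiag : Prop :=
  ∀ K : ℝ → ℝ, Continuous K → (∀ a, 0 ≤ K a) → (∀ a, 1 ≤ |a| → K a = 0) → ∀ ε : ℝ, 0 < ε →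
    ∃ δ₀ : ℝ, 0 < δ₀ ∧ ∀ δ : ℝ, 0 < δ → δ ≤ δ₀ → ∃ Q₀ : ℕ, ∀ Q ≥ Q₀, ∀ (T : ℝ) (W : ℝ → ℂ),
      Real.log Q ≤ T → GW T W →
      ∫ u in (0 : ℝ)..(ell δ Q), (K (u / ell δ Q) + K (-(u / ell δ Q))) *
          (Real.log Q ^ 2 * ‖W u‖ ^ 2 + nrm (NN δ Q) (a1 δ Q W u) + nrm (NN δ Q) (a2 Q W u)
            - hh δ Q u * gain δ Q W u)
        ≤ ell δ Q * (2 * π * T * Real.log Q * (J2 K + ε))

/-- The terms away from their main ranges are small. -/
def StmtBad : Prop :=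
  ∃ C : ℝ, 0 < C ∧ ∀ δ : ℝ, 0 < δ → δ ≤ 1 / 2 → ∃ Q₀ : ℕ, ∀ Q ≥ Q₀, ∀ (T : ℝ) (W : ℝ → ℂ),
    Real.log Q ≤ T → GW T W →
    (∫ u in (1 / 20 : ℝ)..(ell δ Q), Real.log Q ^ 2 * ‖W u‖ ^ 2)
      + (∫ u in (0 : ℝ)..(1 / 20), nrm (NN δ Q) (a1 δ Q W u))
      + (∫ u in (ust δ Q)..(ell δ Q), nrm (NN δ Q) (a1 δ Q W u))
      + (∫ u in (0 : ℝ)..(ust δ Q), nrm (NN δ Q) (a2 Q W u))
      + (∫ u in (0 : ℝ)..(ell δ Q), nrm (NN δ Q) (a3 δ Q W u))
      + (∫ u in (0 : ℝ)..(ell δ Q), nrm (NN δ Q) (av W (-u)))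
      ≤ C * δ * T * Real.log Q ^ 2 ∧
    ∫ u in (0 : ℝ)..(ell δ Q), nrm (NN δ Q) (av W u) ≤ C * T * Real.log Q ^ 2

/-- The family bound for the large primes. -/
def StmtGain : Prop :=
  ∀ δ ε : ℝ, 0 < δ → δ ≤ 1 / 4 → 0 < ε → ∃ Q₀ : ℕ, ∀ Q ≥ Q₀, ∀ (T : ℝ) (W : ℝ → ℂ) (Q₁ : ℕ),
    T ≤ (Q : ℝ) ^ (δ / 4) → GW T W → Q₁ ≤ Q → (Q : ℝ) ≤ Q₁ * Real.log Q →
    ∀ u : ℝ, u ≤ ell δ Q →
      famSum Q₁ Q (NN δ Q) (a2 Q W u)
        ≤ famCard Q₁ Q * (nrm (NN δ Q) (a2 Q W u) - hh δ Q u * gain δ Q W u + 1)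
          + ε * (Q : ℝ) ^ 2 * nrm (NN δ Q) (a2 Q W u)

/-- The mean square of the arithmetic side over the family. -/
def StmtPrime : Prop :=
  ∀ K : ℝ → ℝ, Continuous K → (∀ a, 0 ≤ K a) → (∀ a, 1 ≤ |a| → K a = 0) → ∀ ε : ℝ, 0 < ε →
    ∃ δ : ℝ, 0 < δ ∧ δ ≤ 1 / 4 ∧ ∃ Q₀ : ℕ, ∀ Q ≥ Q₀, ∀ (T : ℝ) (W : ℝ → ℂ) (Q₁ : ℕ),
      Real.log Q ≤ T → T ≤ (Q : ℝ) ^ (δ / 4) → GW T W → Q₁ ≤ Q → (Q : ℝ) ≤ Q₁ * Real.log Q →
      ∑ d ∈ Ioc Q₁ Q, ∑ χ ∈ prim d,
          ∫ s in (-1 : ℝ)..1, K s * ‖Sch χ W (Real.log Q) (s * ell δ Q)‖ ^ 2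
        ≤ 2 * π * T * Real.log Q * (J2 K + ε) * famCard Q₁ Q
          + ε * (Q : ℝ) ^ 2 * T * Real.log Q

/-- The analysis for one character of the family. -/
def StmtPerChi : Prop :=
  ∀ K : ℝ → ℝ, Continuous K → (∀ a, 0 ≤ K a) → ∀ ε : ℝ, 0 < ε →
    ∃ θ : ℝ, 0 < θ ∧ ∃ Q₀ : ℕ, ∀ Q ≥ Q₀, ∀ T : ℝ, Real.log Q ≤ T → T ≤ (Q : ℝ) ^ θ →
      ∃ (w : ℂ → ℂ) (W : ℝ → ℂ), GW T W ∧ (∀ z, w (conj z) = conj (w z)) ∧
        ∀ ℓ : ℝ, Real.log Q / (2 * π) ≤ ℓ → ℓ ≤ Real.log Q / π →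
        ∀ (d : ℕ) [NeZero d] (χ : DirichletCharacter ℂ d), χ.IsPrimitive →
          (Q : ℝ) ≤ d * Real.log Q → d ≤ Q →
          ∀ Z : Finset ℂ, (∀ z, z ∈ Z ↔ T < z.re ∧ z.re ≤ 2 * T ∧ Xi χ z = 0) →
            ∃ Zi Zt : Finset ℂ, Zi ⊆ Z ∧ Zt ⊆ Z ∧ (∀ z ∈ Zi, conj z ∈ Zi) ∧
              (∀ z ∈ Zt, conj z ∈ Zt) ∧
              (4 * π ^ 2 * ∫ s in (-1 : ℝ)..1, K s * ‖nu χ w Zi Zt (s * ℓ)‖ ^ 2
                ≤ (1 + ε) * (∫ s in (-1 : ℝ)..1, K s * ‖Sch χ W (Real.log Q) (s * ℓ)‖ ^ 2)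
                  + ε * T * Real.log Q) ∧
              (1 - ε) * (T * Real.log Q / (2 * π)) ≤ ∑ z ∈ Zi, (nn χ z : ℝ) ∧
              ∑ z ∈ Z, (nn χ z : ℝ)
                ≤ ∑ z ∈ Zi, (nn χ z : ℝ) + ε * (T * Real.log Q / (2 * π)) ∧
              1 + ∑ z ∈ Zt, (1 + ‖(nn χ z : ℂ) * w z‖) ≤ ε * (T * Real.log Q / (2 * π))

/-- The finite inequality for simple real points. -/
def StmtS (K : ℝ → ℝ) : Prop :=
  ∃ C : ℝ, ∀ (Z₀ Z₁ : Finset ℂ) (m : ℂ → ℕ) (c : ℂ → ℂ),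
    (∀ x ∈ Z₀, conj x ∈ Z₀ ∧ m (conj x) = m x ∧ 1 ≤ m x) →
    (∀ x ∈ Z₁, conj x ∈ Z₁ ∧ c (conj x) = conj (c x)) →
    2 * (∑ x ∈ Z₀, (m x : ℝ)) - ((Z₀.filter fun x => x.im = 0 ∧ m x = 1).card : ℝ)
        - C * (1 + ∑ x ∈ Z₁, (1 + ‖c x‖))
      ≤ ∫ a in (-1 : ℝ)..1, K a * ‖mu Z₀ (fun x => (m x : ℂ)) a + mu Z₁ c a‖ ^ 2

/-- The finite inequality holds for data without multipliers. -/
def StmtSMain : Prop := ∀ d : BData, d.Good → d.J = 0 → StmtS d.K

end Pool.Agent.MP_f259ea_nt.Q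

end

section

set_option autoImplicit false

open Complex MeasureTheory Finset
open scoped Real ComplexConjugate Classical

namespace Pool.Agent.MP_f259ea_nt.Q

namespace Arcs

/-- The representative of `b / q` modulo one that is nearest to `θ`. -/
noncomputable def pt (θ : ℝ) (p : (_ : ℕ) × ℕ) : ℝ :=
  (p.2 : ℝ) / p.1 + round (θ - (p.2 : ℝ) / p.1)

theorem abs_pt (θ : ℝ) (p : (_ : ℕ) × ℕ) : |θ - pt θ p| = dZ (θ - (p.2 : ℝ) / p.1) := by
  rw [pt, dZ, sub_add_eq_sub_sub]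

theorem pt_eq (θ : ℝ) (p : (_ : ℕ) × ℕ) (h : 1 ≤ p.1) :
    pt θ p = ((p.2 + round (θ - (p.2 : ℝ) / p.1) * p.1 : ℤ) : ℝ) / p.1 := by
  have : (p.1 : ℝ) ≠ 0 := by positivity
  rw [pt]; push_cast; field_simp

theorem sep {a a' : ℤ} {k k' : ℕ} (hk : 1 ≤ k) (hk' : 1 ≤ k') (h : (a : ℝ) / k ≠ a' / k') :
    1 ≤ (k : ℝ) * k' * |(a : ℝ) / k - a' / k'| := by
  have h1 : (0 : ℝ) < k := by positivity
  have h2 : (0 : ℝ) < k' := by positivity
  have e : (k : ℝ) * k' * ((a : ℝ) / k - a' / k') = ((a * k' - a' * k : ℤ) : ℝ) := by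
    push_cast; field_simp
  rw [← abs_of_pos (mul_pos h1 h2), ← abs_mul, e, ← Int.cast_abs]
  have : a * k' - a' * k ≠ 0 := fun h0 => by
    rw [h0, Int.cast_zero] at e
    exact h (sub_eq_zero.1 ((mul_eq_zero.1 e).resolve_left (mul_pos h1 h2).ne'))
  exact_mod_cast Int.one_le_abs this

theorem inj {θ : ℝ} {p p' : (_ : ℕ) × ℕ} (h : p.2 ∈ red p.1) (h' : p'.2 ∈ red p'.1)
    (e : pt θ p = pt θ p') : p = p' := by
  obtain ⟨q, b⟩ := p
  obtain ⟨q', b'⟩ := p'
  simp only [red, mem_filter, mem_range] at h h'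
  have h1 : (0 : ℝ) < q := by exact_mod_cast Nat.zero_lt_of_lt h.1
  have h2 : (0 : ℝ) < q' := by exact_mod_cast Nat.zero_lt_of_lt h'.1
  have e1 := congrArg Int.fract e
  simp only [pt, Int.fract_add_intCast] at e1
  rw [Int.fract_eq_self.2 ⟨by positivity, (div_lt_one h1).2 (by exact_mod_cast h.1)⟩,
    Int.fract_eq_self.2 ⟨by positivity, (div_lt_one h2).2 (by exact_mod_cast h'.1)⟩,
    div_eq_div_iff h1.ne' h2.ne'] at e1
  have e2 : b * q' = b' * q := by exact_mod_cast e1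
  obtain rfl : q = q' := Nat.dvd_antisymm
    (h.2.symm.dvd_of_dvd_mul_left (e2 ▸ dvd_mul_left _ _))
    (h'.2.symm.dvd_of_dvd_mul_left (e2 ▸ dvd_mul_left _ _))
  rw [Nat.eq_of_mul_eq_mul_right (Nat.zero_lt_of_lt h.1) e2]

theorem one_le {q b : ℕ} (h : b ∈ red q) : 1 ≤ q :=
  Nat.zero_lt_of_lt (mem_range.1 (mem_filter.1 h).1)

theorem sep2 (θ : ℝ) {p p' : (_ : ℕ) × ℕ} (h : p.2 ∈ red p.1) (h' : p'.2 ∈ red p'.1)
    (hne : p ≠ p') : 1 ≤ (p.1 : ℝ) * p'.1 * |pt θ p - pt θ p'| := by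
  have := fun e => hne (inj (θ := θ) h h' e)
  rw [pt_eq θ p (one_le h), pt_eq θ p' (one_le h')] at this ⊢
  exact sep (one_le h) (one_le h') this

theorem sum_nS (M : ℕ) (s : ℕ → Set ℝ) (θ : ℝ) : ∑ q ∈ Icc 1 M, nS q (s q) θ =
    ((Icc 1 M).sigma fun q => (red q).filter fun b : ℕ => dZ (θ - (b : ℝ) / q) ∈ s q).card :=
  (card_sigma _ _).symm

theorem arcs1 (Q : ℕ) (η θ : ℝ) (h0 : 0 ≤ η) :
    ∑ q ∈ Icc 1 Q, (nB q η θ : ℝ) ≤ 2 * η * (Q : ℝ) ^ 2 + 1 := by
  have hf : 0 ≤ ⌊2 * η * (Q : ℝ) ^ 2⌋ := Int.floor_nonneg.2 (by positivity)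
  have key : ∑ q ∈ Icc 1 Q, nB q η θ ≤ (Icc 0 ⌊2 * η * (Q : ℝ) ^ 2⌋).card := by
    refine (sum_nS Q (fun _ => Set.Iic η) θ).trans_le (card_le_card_of_injOn
      (fun p => ⌊(pt θ p - θ + η) * (Q : ℝ) ^ 2⌋) (fun p hp => ?_) fun p hp p' hp' e => ?_)
    · simp only [coe_sigma, Set.mem_sigma_iff, mem_coe, mem_filter, Set.mem_Iic,
        ← abs_pt] at hp
      have := abs_le.1 hp.2.2
      refine mem_coe.2 (mem_Icc.2 ⟨Int.floor_nonneg.2 (mul_nonneg (by linarith) (by positivity)),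
        Int.floor_le_floor ?_⟩)
      gcongr; linarith
    · simp only [coe_sigma, Set.mem_sigma_iff, mem_coe, mem_filter, mem_Icc] at hp hp'
      by_contra hne
      have h1 := sep2 θ hp.2.1 hp'.2.1 hne
      have h2 := Int.abs_sub_lt_one_of_floor_eq_floor e
      rw [← sub_mul, abs_mul, abs_of_nonneg (sq_nonneg (Q : ℝ)),
        show pt θ p - θ + η - (pt θ p' - θ + η) = pt θ p - pt θ p' by ring] at h2
      have h3 : (p.1 : ℝ) * p'.1 ≤ (Q : ℝ) ^ 2 := by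
        rw [sq]; exact_mod_cast Nat.mul_le_mul hp.1.2 hp'.1.2
      nlinarith [abs_nonneg (pt θ p - pt θ p')]
  rw [Int.card_Icc] at key
  have k2 : ((∑ q ∈ Icc 1 Q, nB q η θ : ℕ) : ℤ) ≤ ⌊2 * η * (Q : ℝ) ^ 2⌋ + 1 := by omega
  have k3 : ((∑ q ∈ Icc 1 Q, nB q η θ : ℕ) : ℝ) ≤ (⌊2 * η * (Q : ℝ) ^ 2⌋ : ℝ) + 1 := by
    exact_mod_cast k2
  push_cast at k3
  linarith [Int.floor_le (2 * η * (Q : ℝ) ^ 2)]

theorem arcs2 (Q : ℕ) (η θ : ℝ) (a : ℤ) (k : ℕ) (_ : 0 ≤ η) (hk : 1 ≤ k)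
    (h : Q * (|k * θ - a| + k * η) < 1) : ∑ q ∈ Icc 1 Q, nB q η θ ≤ 1 := by
  refine (sum_nS Q (fun _ => Set.Iic η) θ).trans_le (card_le_one.2 ?_)
  have hk0 : (0 : ℝ) < k := by positivity
  have key : ∀ p ∈ (Icc 1 Q).sigma fun q => (red q).filter fun b : ℕ =>
      dZ (θ - (b : ℝ) / q) ∈ Set.Iic η, pt θ p = a / k := fun p hp => by
    simp only [mem_sigma, mem_filter, Set.mem_Iic, ← abs_pt, mem_Icc] at hp
    by_contra hne
    have h1 : 1 ≤ (p.1 : ℝ) * k * |pt θ p - a / k| := by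
      rw [pt_eq θ p hp.1.1] at hne ⊢
      exact sep hp.1.1 hk hne
    have h2 : k * |pt θ p - a / k| ≤ |k * θ - a| + k * η := by
      have e : |k * θ - a| = k * |θ - a / k| := by
        rw [← abs_of_pos hk0, ← abs_mul, abs_of_pos hk0]; congr 1; field_simp
      rw [e, ← mul_add]
      gcongr
      have := abs_sub_le (pt θ p) θ (a / k)
      rw [abs_sub_comm (pt θ p) θ] at this
      linarith [hp.2.2]
    have h3 : (p.1 : ℝ) ≤ Q := by exact_mod_cast hp.1.2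
    have := mul_le_mul h3 h2 (by positivity) (by positivity)
    rw [← mul_assoc] at this
    linarith
  intro p hp p' hp'
  exact inj (mem_filter.1 (mem_sigma.1 hp).2).1 (mem_filter.1 (mem_sigma.1 hp').2).1
    ((key p hp).trans (key p' hp').symm)

theorem arcs3 (Q M : ℕ) (η V θ : ℝ) (hQ : 1 ≤ Q) (h0 : 0 < η)
    (h : 2 * V ^ 2 ≤ (Q : ℝ) ^ 2 * η) :
    ∑ k ∈ Icc 1 M, nS k {x | Q * k * (x + η) < V} θ ≤ 1 := by
  refine (sum_nS M (fun k => {x | Q * k * (x + η) < V}) θ).trans_le (card_le_one.2 ?_)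
  intro p hp p' hp'
  simp only [mem_sigma, mem_filter, Set.mem_ofPred_eq, ← abs_pt, mem_Icc] at hp hp'
  by_contra hne
  have h1 := sep2 θ hp.2.1 hp'.2.1 hne
  have h2 := abs_sub_le (pt θ p) θ (pt θ p')
  rw [abs_sub_comm (pt θ p) θ] at h2
  have a1 : 0 ≤ (Q : ℝ) * p.1 * |θ - pt θ p| := by positivity
  have a2 : 0 ≤ (Q : ℝ) * p'.1 * |θ - pt θ p'| := by positivity
  have a3 : 0 ≤ (Q : ℝ) * p.1 * η := by positivity
  have a4 : 0 ≤ (Q : ℝ) * p'.1 * η := by positivity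
  have b1 := hp.2.2
  have b2 := hp'.2.2
  rw [mul_add] at b1 b2
  have c1 := mul_lt_mul'' (show (Q : ℝ) * p.1 * |θ - pt θ p| < V by linarith)
    (show (Q : ℝ) * p'.1 * η < V by linarith) a1 a4
  have c2 := mul_lt_mul'' (show (Q : ℝ) * p'.1 * |θ - pt θ p'| < V by linarith)
    (show (Q : ℝ) * p.1 * η < V by linarith) a2 a3
  have c3 := mul_le_mul_of_nonneg_left (h1.trans (mul_le_mul_of_nonneg_left h2 (by positivity)))
    (show 0 ≤ (Q : ℝ) ^ 2 * η by positivity)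
  nlinarith

theorem arcs4 (θ : ℝ) (a : ℤ) (k : ℕ) (hk : 1 ≤ k) : ∃ k' : ℕ, 1 ≤ k' ∧ k' ≤ k ∧ ∃ b ∈ red k',
    k' * dZ (θ - (b : ℝ) / k') ≤ |k * θ - a| := by
  set r : ℚ := Rat.divInt a k with hr
  have hk0 : (0 : ℝ) < k := by positivity
  have hd : r.den ≤ k := Nat.le_of_dvd hk (by exact_mod_cast Rat.den_dvd a k)
  have hd0 : (0 : ℤ) < r.den := by exact_mod_cast r.pos
  have hb : (((r.num % r.den).toNat : ℕ) : ℤ) = r.num % r.den :=
    Int.toNat_of_nonneg (Int.emod_nonneg _ hd0.ne')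
  refine ⟨r.den, r.pos, hd, (r.num % r.den).toNat, mem_filter.2 ⟨mem_range.2 ?_, ?_⟩, ?_⟩
  · have := Int.emod_lt_of_pos r.num hd0
    omega
  · rw [Nat.Coprime, ← Int.gcd_natCast_natCast, hb, Int.gcd_emod]
    exact r.reduced
  · have e1 : (r.num : ℝ) / r.den = a / k := by
      rw [← Rat.cast_def, hr, Rat.divInt_eq_div]; push_cast; rfl
    have e2 : (((r.num % r.den).toNat : ℕ) : ℝ) = r.num - r.den * (r.num / r.den : ℤ) := by
      rw [Int.emod_def] at hb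
      rw [Int.emod_def]
      exact_mod_cast hb
    have hd1 : (r.den : ℝ) ≠ 0 := by exact_mod_cast r.pos.ne'
    have e3 : |k * θ - a| = k * |θ - (((r.num % r.den).toNat : ℕ) : ℝ) / r.den -
        (r.num / r.den : ℤ)| := by
      rw [← abs_of_pos hk0, ← abs_mul, abs_of_pos hk0, e2, sub_div, e1]; congr 1; field_simp; ring
    rw [e3]
    exact mul_le_mul (by exact_mod_cast hd) (round_le _ _) (abs_nonneg _) hk0.le

theorem arcs5 (θ : ℝ) (b k : ℕ) (hk : 1 ≤ k) :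
    ∃ a : ℤ, |k * θ - a| = k * dZ (θ - (b : ℝ) / k) := by
  have hk0 : (0 : ℝ) < k := by positivity
  refine ⟨b + k * round (θ - (b : ℝ) / k), ?_⟩
  rw [dZ, ← abs_of_pos hk0, ← abs_mul, abs_of_pos hk0]
  congr 1; push_cast; field_simp; ring

theorem sob {F F' H : ℝ → ℝ} (hF : ∀ x, HasDerivAt F (F' x) x) (hF' : Continuous F')
    (hH : Continuous H) (hb : ∀ x, |F' x| ≤ H x) {η : ℝ} (hη : 0 < η) :
    |F 0 - 1 / (2 * η) * ∫ x in (-η)..η, F x| ≤ ∫ x in (-η)..η, H x := by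
  have h1 : ∀ x y, -η ≤ x → x ≤ y → y ≤ η → |F y - F x| ≤ ∫ x in (-η)..η, H x := by
    intro x y hx hxy hy
    rw [← intervalIntegral.integral_eq_sub_of_hasDerivAt (fun z _ => hF z)
      (hF'.intervalIntegrable _ _)]
    refine (intervalIntegral.abs_integral_le_integral_abs hxy).trans
      ((intervalIntegral.integral_mono_on hxy (hF'.abs.intervalIntegrable _ _)
        (hH.intervalIntegrable _ _) fun z _ => hb z).trans ?_)
    exact intervalIntegral.integral_mono_interval hx hxy hy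
      (Filter.Eventually.of_forall fun z => (abs_nonneg _).trans (hb z))
      (hH.intervalIntegrable _ _)
  have hc : Continuous F := continuous_iff_continuousAt.2 fun x => (hF x).continuousAt
  have h2 := intervalIntegral.norm_integral_le_of_norm_le_const (a := -η) (b := η)
    (f := fun x => F 0 - F x) (C := ∫ x in (-η)..η, H x) fun x hx => by
      rw [Set.uIoc_of_le (by linarith)] at hx
      rcases le_total x 0 with h | h
      · exact h1 x 0 hx.1.le h hη.le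
      · rw [Real.norm_eq_abs, abs_sub_comm]; exact h1 0 x (by linarith) h hx.2
  rw [intervalIntegral.integral_sub (by simp) (hc.intervalIntegrable _ _),
    intervalIntegral.integral_const, sub_neg_eq_add, abs_of_pos (by linarith), Real.norm_eq_abs,
    smul_eq_mul] at h2
  have e : F 0 - 1 / (2 * η) * ∫ x in (-η)..η, F x =
      ((η + η) * F 0 - ∫ x in (-η)..η, F x) / (η + η) := by field_simp; ring
  rw [e, abs_div, abs_of_pos (show 0 < η + η by linarith), div_le_iff₀ (by linarith)]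
  exact h2

theorem unfold (hU : StmtUnfold) (q : ℕ) {η : ℝ} (h0 : 0 < η) (h1 : η < 1 / 2) {G : ℝ → ℝ}
    (hG : Continuous G) (hp : Function.Periodic G 1) :
    ∫ θ in (0 : ℝ)..1, (nB q η θ : ℝ) * G θ =
      ∫ β in (-η)..η, ∑ b ∈ red q, G ((b : ℝ) / q + β) := by
  unfold nB
  rw [(hU.2 q _ G measurableSet_Iic hG hp).2.2, intervalIntegral.integral_of_le (by norm_num),
    intervalIntegral.integral_of_le (by linarith), ← integral_Icc_eq_integral_Ioc (x := -η)]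
  have e : Set.Icc (-η) η = Set.Ioc (-(1 / 2) : ℝ) (1 / 2) ∩ Set.Icc (-η) η :=
    (Set.inter_eq_right.2 (Set.Icc_subset_Ioc_iff (by linarith) |>.2
      ⟨by linarith, by linarith⟩)).symm
  rw [e, ← setIntegral_indicator measurableSet_Icc]
  congr 1
  funext β
  simp only [Set.indicator, Set.mem_Iic, Set.mem_Icc, abs_le]
  split_ifs <;> simp

theorem der (N : ℕ) (a : ℕ → ℂ) (θ : ℝ) :
    HasDerivAt (Sx N a) (Sx N (fun n => 2 * π * I * n * a n) θ) θ := by
  unfold Sx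
  refine HasDerivAt.fun_sum fun n _ => ?_
  have h1 : HasDerivAt (fun x : ℝ => 2 * π * I * (((n : ℝ) * x : ℝ) : ℂ)) (2 * π * I * n) θ := by
    simpa using (((hasDerivAt_id θ).const_mul (n : ℝ)).ofReal_comp).const_mul (2 * π * I)
  refine (h1.cexp.const_mul (a n)).congr_deriv ?_
  rw [ee]; ring

end Arcs

open Arcs

theorem stmtArcs : StmtArcs :=
  ⟨fun Q η θ h _ => arcs1 Q η θ h, arcs2, fun Q M η V θ hQ h0 _ h => arcs3 Q M η V θ hQ h0 h,
    arcs4, arcs5⟩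

theorem stmtGall (hU : StmtUnfold) : StmtGall := by
  intro Q N a η Cc c h0 h1 hC hc
  rcases Nat.eq_zero_or_pos N with rfl | hN
  · simp [Bq, Sx, nrm]
  set t : ℝ := 2 * π * N with ht
  have ht0 : 0 < t := by positivity
  set a' : ℕ → ℂ := fun n => 2 * π * I * n * a n with ha'
  obtain ⟨c1, p1, i1⟩ := hU.1 N a
  obtain ⟨c2, p2, i2⟩ := hU.1 N a'
  set H : ℝ → ℝ := fun θ => t * ‖Sx N a θ‖ ^ 2 + ‖Sx N a' θ‖ ^ 2 / t with hH
  have cG : Continuous fun θ => ‖Sx N a θ‖ ^ 2 := by fun_prop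
  have pG : Function.Periodic (fun θ => ‖Sx N a θ‖ ^ 2) 1 := fun x => by simp only [p1 x]
  have cH : Continuous H := by fun_prop
  have pH : Function.Periodic H 1 := fun x => by simp only [hH, p1 x, p2 x]
  have H0 : ∀ x, 0 ≤ H x := fun x => by positivity
  have key : ∀ q, |Bq q N a 0 - 1 / (2 * η) *
      ∫ θ in (0 : ℝ)..1, (nB q η θ : ℝ) * ‖Sx N a θ‖ ^ 2| ≤
        ∫ θ in (0 : ℝ)..1, (nB q η θ : ℝ) * H θ := fun q => by
    rw [unfold hU q h0 h1 cG pG, unfold hU q h0 h1 cH pH]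
    refine sob (F := Bq q N a) (F' := fun x => ∑ b ∈ red q,
      2 * inner ℝ (Sx N a ((b : ℝ) / q + x)) (Sx N a' ((b : ℝ) / q + x)))
      (fun x => HasDerivAt.fun_sum fun b _ => ((der N a _).comp_const_add _ x).norm_sq)
      (by fun_prop) (by fun_prop) (fun x => (abs_sum_le_sum_abs _ _).trans
        (sum_le_sum fun b _ => ?_)) h0
    rw [abs_mul, abs_two]
    refine (mul_le_mul_of_nonneg_left (abs_real_inner_le_norm _ _) zero_le_two).trans ?_
    simp only [hH]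
    rw [← sub_nonneg]
    have : ∀ x y : ℝ, t * x ^ 2 + y ^ 2 / t - 2 * (x * y) = (t * x - y) ^ 2 / t := fun x y => by
      field_simp; ring
    rw [this]; positivity
  have iG : ∀ q, IntervalIntegrable (fun θ => (nB q η θ : ℝ) * ‖Sx N a θ‖ ^ 2) volume 0 1 :=
    fun q => (hU.2 q (Set.Iic η) _ measurableSet_Iic cG pG).1
  have iH : ∀ q, IntervalIntegrable (fun θ => (nB q η θ : ℝ) * H θ) volume 0 1 :=
    fun q => (hU.2 q (Set.Iic η) _ measurableSet_Iic cH pH).1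
  have e1 : ∫ θ in (0 : ℝ)..1, (∑ q ∈ Icc 1 Q, c q * nB q η θ) * ‖Sx N a θ‖ ^ 2 =
      ∑ q ∈ Icc 1 Q, c q * ∫ θ in (0 : ℝ)..1, (nB q η θ : ℝ) * ‖Sx N a θ‖ ^ 2 := by
    simp only [sum_mul, mul_assoc]
    rw [intervalIntegral.integral_finsetSum fun q _ => (iG q).const_mul _]
    simp only [intervalIntegral.integral_const_mul]
  have n2 : nrm N a' ≤ t ^ 2 * nrm N a := by
    rw [nrm, nrm, mul_sum]
    refine sum_le_sum fun n hn => ?_
    have : (n : ℝ) ≤ N := by exact_mod_cast (mem_Icc.1 hn).2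
    simp only [ha', norm_mul, norm_I, Complex.norm_natCast, Complex.norm_real, Complex.norm_ofNat,
      Real.norm_of_nonneg Real.pi_pos.le, mul_one, ht]
    rw [mul_pow]; gcongr
  have iHle : ∫ θ in (0 : ℝ)..1, H θ ≤ 4 * π * N * nrm N a := by
    rw [intervalIntegral.integral_add ((cG.const_mul t).intervalIntegrable _ _)
      (Continuous.intervalIntegrable (by fun_prop) _ _), intervalIntegral.integral_const_mul,
      intervalIntegral.integral_div, i1, i2]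
    have : nrm N a' / t ≤ t * nrm N a := by rw [div_le_iff₀ ht0]; linarith
    calc _ ≤ t * nrm N a + t * nrm N a := by linarith
      _ = _ := by rw [ht]; ring
  rw [e1, mul_sum, ← sum_sub_distrib]
  calc _ ≤ ∑ q ∈ Icc 1 Q, Cc * ∫ θ in (0 : ℝ)..1, (nB q η θ : ℝ) * H θ := by
        refine (abs_sum_le_sum_abs _ _).trans (sum_le_sum fun q hq => ?_)
        rw [mul_left_comm, ← mul_sub, abs_mul]
        exact mul_le_mul (hc q hq) (key q) (abs_nonneg _) hC
    _ = Cc * ∫ θ in (0 : ℝ)..1, ∑ q ∈ Icc 1 Q, (nB q η θ : ℝ) * H θ := by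
        rw [← mul_sum, intervalIntegral.integral_finsetSum fun q _ => iH q]
    _ ≤ Cc * ∫ θ in (0 : ℝ)..1, (2 * η * (Q : ℝ) ^ 2 + 1) * H θ := by
        refine mul_le_mul_of_nonneg_left (intervalIntegral.integral_mono_on zero_le_one ?_
          ((cH.const_mul _).intervalIntegrable _ _) fun θ _ => ?_) hC
        · simpa only [Finset.sum_fn] using IntervalIntegrable.sum (Icc 1 Q) fun q _ => iH q
        · rw [← sum_mul]
          exact mul_le_mul_of_nonneg_right (arcs1 Q η θ h0.le) (H0 θ)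
    _ ≤ _ := by
        rw [intervalIntegral.integral_const_mul, mul_assoc (Cc * _), mul_assoc Cc]
        gcongr

end Pool.Agent.MP_f259ea_nt.Q

end

section

set_option autoImplicit false

open Complex MeasureTheory Finset
open scoped Real ComplexConjugate Classical Nat

namespace Pool.Agent.MP_f259ea_nt.Q

namespace Card

lemma sum_div (f : ℕ → ℝ) (Q : ℕ) :
    ∑ n ∈ Ioc 0 Q, ∑ d ∈ n.divisors, f d = ∑ d ∈ Ioc 0 Q, f d * ((Q / d : ℕ) : ℝ) := by
  rw [Finset.sum_comm' (t' := Ioc 0 Q) (s' := fun d => (Ioc 0 Q).filter fun n => d ∣ n)]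
  · refine Finset.sum_congr rfl fun d _ => ?_
    rw [Finset.sum_const, Nat.Ioc_filter_dvd_card_eq_div, nsmul_eq_mul, mul_comm]
  · intro n d
    simp only [Finset.mem_Ioc, Nat.mem_divisors, Finset.mem_filter]
    constructor
    · rintro ⟨⟨h1, h2⟩, h3, h4⟩
      exact ⟨⟨⟨h1, h2⟩, h3⟩, Nat.pos_of_dvd_of_pos h3 h1, (Nat.le_of_dvd h1 h3).trans h2⟩
    · rintro ⟨⟨⟨h1, h2⟩, h3⟩, -⟩
      exact ⟨⟨h1, h2⟩, h3, h1.ne'⟩

lemma key (f : ℕ → ℝ) (h0 : ∀ n, 0 ≤ f n) (h1 : ∀ n, 1 ≤ n → f n ≤ n) (Q K : ℕ) (hK : 0 < K) :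
    ∑ n ∈ Ioc 0 Q, ∑ d ∈ n.divisors, f d ≤ K * ∑ d ∈ Ioc 0 Q, f d + (Q : ℝ) ^ 2 / K := by
  have hK' : (0 : ℝ) < K := by exact_mod_cast hK
  have hb : ∀ d ∈ Ioc 0 Q, f d * ((Q / d : ℕ) : ℝ) ≤
      K * f d + if d ∈ Ioc 0 (Q / K) then (Q : ℝ) else 0 := by
    intro d hd
    have hd0 : 0 < d := (Finset.mem_Ioc.1 hd).1
    split_ifs with h
    · have e1 : f d * ((Q / d : ℕ) : ℝ) ≤ d * ((Q / d : ℕ) : ℝ) :=
        mul_le_mul_of_nonneg_right (h1 d hd0) (Nat.cast_nonneg _)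
      have e2 : (d : ℝ) * ((Q / d : ℕ) : ℝ) ≤ Q := by exact_mod_cast Nat.mul_div_le Q d
      have := mul_nonneg hK'.le (h0 d)
      linarith
    · have e1 : Q / K < d := by
        by_contra hc
        exact h (Finset.mem_Ioc.2 ⟨hd0, not_lt.1 hc⟩)
      have e2 : Q / d ≤ K := by
        rw [Nat.div_lt_iff_lt_mul hK] at e1
        exact ((Nat.div_lt_iff_lt_mul hd0).2 (by rwa [mul_comm])).le
      have e3 : ((Q / d : ℕ) : ℝ) ≤ K := by exact_mod_cast e2
      rw [add_zero, mul_comm]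
      exact mul_le_mul_of_nonneg_right e3 (h0 d)
  rw [sum_div]
  refine (Finset.sum_le_sum hb).trans ?_
  rw [Finset.sum_add_distrib, ← Finset.mul_sum, Finset.sum_ite_mem, Finset.sum_const, nsmul_eq_mul]
  have e4 : ((Ioc 0 Q ∩ Ioc 0 (Q / K)).card : ℝ) ≤ (Q : ℝ) / K := by
    have : (Ioc 0 Q ∩ Ioc 0 (Q / K)).card ≤ Q / K := by
      simpa using Finset.card_le_card (Finset.inter_subset_right (s₁ := Ioc 0 Q)
        (s₂ := Ioc 0 (Q / K)))
    exact (Nat.cast_le.2 this).trans Nat.cast_div_le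
  have e5 := mul_le_mul_of_nonneg_right e4 (Nat.cast_nonneg (α := ℝ) Q)
  have e6 : (Q : ℝ) / K * Q = (Q : ℝ) ^ 2 / K := by ring
  linarith

lemma sum_id (Q : ℕ) : (Q : ℝ) ^ 2 / 2 ≤ ∑ n ∈ Ioc 0 Q, (n : ℝ) := by
  induction Q with
  | zero => simp
  | succ n ih =>
    rw [Finset.sum_Ioc_succ_top (Nat.zero_le n)]
    push_cast
    nlinarith

end Card

theorem stmtCard (hO : StmtOrth) : StmtCard := by
  refine ⟨1 / 1024, by norm_num, 0, fun Q _ => ?_⟩
  have h1 := Card.key (fun n => (φ n : ℝ)) (fun n => Nat.cast_nonneg _)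
    (fun n _ => by exact_mod_cast Nat.totient_le n) Q 4 (by norm_num)
  have h2 := Card.key (fun n => ((prim n).card : ℝ)) (fun n => Nat.cast_nonneg _)
    (fun n hn => by exact_mod_cast (hO.2.1 n hn).2) Q 32 (by norm_num)
  have h3 : ∑ n ∈ Ioc 0 Q, ∑ d ∈ n.divisors, (φ d : ℝ) = ∑ n ∈ Ioc 0 Q, (n : ℝ) :=
    Finset.sum_congr rfl fun n _ => by exact_mod_cast Nat.sum_totient n
  have h4 : ∑ n ∈ Ioc 0 Q, ∑ d ∈ n.divisors, ((prim d).card : ℝ) = ∑ n ∈ Ioc 0 Q, (φ n : ℝ) := by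
    refine Finset.sum_congr rfl fun n hn => ?_
    have := hO.1 n 1 1 (Finset.mem_Ioc.1 hn).1 (Nat.coprime_one_left n) (Nat.coprime_one_left n)
    simp only [Nat.cast_one, map_one, mul_one, Finset.sum_const, nsmul_eq_mul, Nat.ModEq.refl,
      if_true] at this
    exact_mod_cast this
  have h5 := Card.sum_id Q
  rw [h3] at h1
  rw [h4] at h2
  unfold famCard
  push_cast at h1 h2
  linarith

end Pool.Agent.MP_f259ea_nt.Q

end

section

/-! Passing between multiplicative and additive characters. -/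

set_option autoImplicit false

open Complex MeasureTheory Finset
open scoped Real ComplexConjugate Classical ArithmeticFunction.Moebius
  ArithmeticFunction.vonMangoldt Nat

namespace Pool.Agent.MP_f259ea_nt.Q

theorem stmtRed : StmtRed := by
  intro G e he
  rw [sum_sigma']
  symm
  refine sum_nbij' (fun x => x.2 * (e / x.1))
    (fun b => ⟨e / Nat.gcd b e, b / Nat.gcd b e⟩) ?_ ?_ ?_ ?_ ?_
  · rintro ⟨q, b⟩ hx
    simp only [mem_sigma, Nat.mem_divisors, red, mem_filter, mem_range] at hx ⊢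
    obtain ⟨⟨⟨k, rfl⟩, h0⟩, hb, -⟩ := hx
    have hq : 0 < q := by omega
    have hk : 0 < k := Nat.pos_of_ne_zero fun h => h0 (by simp [h])
    rw [Nat.mul_div_cancel_left _ hq]
    exact Nat.mul_lt_mul_of_pos_right hb hk
  · intro b hb
    simp only [mem_sigma, Nat.mem_divisors, red, mem_filter, mem_range] at hb ⊢
    have hg : 0 < Nat.gcd b e := Nat.gcd_pos_of_pos_right _ he
    refine ⟨⟨Nat.div_dvd_of_dvd (Nat.gcd_dvd_right b e), by omega⟩, ?_,
      Nat.coprime_div_gcd_div_gcd hg⟩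
    exact Nat.div_lt_div_of_lt_of_dvd (Nat.gcd_dvd_right b e) hb
  · rintro ⟨q, b⟩ hx
    simp only [mem_sigma, Nat.mem_divisors, red, mem_filter, mem_range] at hx
    obtain ⟨⟨⟨k, rfl⟩, h0⟩, hb, hc⟩ := hx
    have hq : 0 < q := by omega
    have hk : 0 < k := Nat.pos_of_ne_zero fun h => h0 (by simp [h])
    have hg : Nat.gcd (b * k) (q * k) = k := by rw [Nat.gcd_mul_right, hc, one_mul]
    simp only [Nat.mul_div_cancel_left _ hq, hg, Nat.mul_div_cancel _ hk]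
  · intro b hb
    simp only
    rw [Nat.div_div_self (Nat.gcd_dvd_right b e) (by omega),
      Nat.div_mul_cancel (Nat.gcd_dvd_left b e)]
  · rintro ⟨q, b⟩ hx
    simp only [mem_sigma, Nat.mem_divisors, red, mem_filter, mem_range] at hx
    obtain ⟨⟨⟨k, rfl⟩, h0⟩, hb, hc⟩ := hx
    have hq : 0 < q := by omega
    have hk : 0 < k := Nat.pos_of_ne_zero fun h => h0 (by simp [h])
    have hk' : (k : ℝ) ≠ 0 := by exact_mod_cast hk.ne'
    simp only [Nat.mul_div_cancel_left _ hq]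
    congr 1
    push_cast
    rw [mul_div_mul_right _ _ hk']

namespace Q_Char

lemma inv (f g : ℕ → ℝ) (d : ℕ) (hd : 1 ≤ d)
    (h : ∀ e, 1 ≤ e → e ∣ d → ∑ i ∈ e.divisors, f i = g e) :
    f d = ∑ e ∈ d.divisors, (μ (d / e) : ℝ) * g e := by
  have := (ArithmeticFunction.sum_eq_iff_sum_mul_moebius_eq_on (f := f) (g := g) {n | n ∣ d}
    (fun m n hmn hn => hmn.trans hn)).1 (fun n hn hs => h n hn hs) d hd (dvd_refl d)
  rw [← this]
  exact Nat.sum_divisorsAntidiagonal' fun x y => (μ x : ℝ) * g y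

lemma swap (d : ℕ) (c B : ℕ → ℝ) :
    ∑ e ∈ d.divisors, c e * ∑ q ∈ e.divisors, B q
      = ∑ q ∈ d.divisors, (∑ e ∈ d.divisors with q ∣ e, c e) * B q := by
  simp only [mul_sum, sum_mul]
  refine sum_comm' fun e q => ?_
  simp only [Nat.mem_divisors, mem_filter]
  constructor
  · rintro ⟨⟨h1, h2⟩, h3, -⟩
    exact ⟨⟨⟨h1, h2⟩, h3⟩, h3.trans h1, h2⟩
  · rintro ⟨⟨⟨h1, h2⟩, h3⟩, -⟩
    exact ⟨⟨h1, h2⟩, h3, ne_zero_of_dvd_ne_zero h2 h1⟩

lemma sq_sum (s : Finset ℕ) (a u : ℕ → ℂ) :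
    ((‖∑ n ∈ s, a n * u n‖ ^ 2 : ℝ) : ℂ)
      = ∑ m ∈ s, ∑ n ∈ s, a m * conj (a n) * (u m * conj (u n)) := by
  rw [Complex.ofReal_pow, ← Complex.mul_conj', map_sum, sum_mul_sum]
  refine sum_congr rfl fun m _ => sum_congr rfl fun n _ => ?_
  rw [map_mul]
  ring

lemma geom (e m n : ℕ) (he : 1 ≤ e) :
    ∑ b ∈ range e, ee (m * ((b : ℝ) / e)) * conj (ee (n * ((b : ℝ) / e)))
      = if m ≡ n [MOD e] then (e : ℂ) else 0 := by
  have hω := Complex.isPrimitiveRoot_exp e (by omega)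
  set ω := Complex.exp (2 * π * I / e) with hωd
  set z := ω ^ ((n : ℤ) - m) with hz
  have hterm : ∀ b : ℕ, ee (m * ((b : ℝ) / e)) * conj (ee (n * ((b : ℝ) / e))) = z⁻¹ ^ b := by
    intro b
    rw [hz, hωd, ← Complex.exp_int_mul, ← Complex.exp_neg, ← Complex.exp_nat_mul, ee, ee,
      ← Complex.exp_conj, ← Complex.exp_add]
    congr 1
    simp only [map_mul, Complex.conj_ofReal, Complex.conj_I, map_ofNat]
    push_cast
    ring
  simp only [hterm]
  have hiff : z = 1 ↔ m ≡ n [MOD e] := by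
    rw [hz, hω.zpow_eq_one_iff_dvd, Nat.modEq_iff_dvd]
  split_ifs with h
  · simp [hiff.2 h]
  · have h1 : z⁻¹ ≠ 1 := fun h' => h (hiff.1 (inv_eq_one.1 h'))
    have h2 : z⁻¹ ^ e = 1 := by
      rw [inv_pow, inv_eq_one, hz, ← zpow_natCast, ← zpow_mul, hω.zpow_eq_one_iff_dvd]
      exact Dvd.intro_left _ rfl
    rw [geom_sum_eq h1, h2, sub_self, zero_div]

/-- The diagonal sum over congruent pairs. -/
noncomputable def DD (e N : ℕ) (a : ℕ → ℂ) : ℂ :=
  ∑ m ∈ Icc 1 N, ∑ n ∈ Icc 1 N, if m ≡ n [MOD e] then a m * conj (a n) else 0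

lemma sumB (e N : ℕ) (a : ℕ → ℂ) (he : 1 ≤ e) :
    ((∑ q ∈ e.divisors, Bq q N a 0 : ℝ) : ℂ) = e * DD e N a := by
  have h := stmtRed (fun x => ‖Sx N a x‖ ^ 2) e he
  simp only [Bq, add_zero]
  rw [← h, Complex.ofReal_sum]
  simp only [Sx, sq_sum]
  rw [sum_comm, DD, mul_sum]
  refine sum_congr rfl fun m _ => ?_
  rw [sum_comm, mul_sum]
  refine sum_congr rfl fun n _ => ?_
  rw [← mul_sum, geom e m n he]
  split_ifs
  · ring
  · simp

lemma sumA (hO : StmtOrth) (e N : ℕ) (a : ℕ → ℂ) (he : 1 ≤ e) (hc : CopTo N a e) :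
    ((∑ d ∈ e.divisors, Ad d N a : ℝ) : ℂ) = φ e * DD e N a := by
  simp only [Ad, Complex.ofReal_sum, sq_sum]
  rw [DD, mul_sum, sum_congr rfl fun d _ => sum_comm, sum_comm]
  refine sum_congr rfl fun m hm => ?_
  rw [mul_sum, sum_congr rfl fun d _ => sum_comm, sum_comm]
  refine sum_congr rfl fun n hn => ?_
  simp only [← mul_sum]
  by_cases h1 : a m = 0
  · simp [h1]
  by_cases h2 : a n = 0
  · simp [h2]
  rw [hO.1 e m n he (hc m hm h1) (hc n hn h2)]
  split_ifs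
  · ring
  · simp

lemma rel (hO : StmtOrth) (e N : ℕ) (a : ℕ → ℂ) (he : 1 ≤ e) (hc : CopTo N a e) :
    (φ e : ℝ) * ∑ q ∈ e.divisors, Bq q N a 0 = e * ∑ d ∈ e.divisors, Ad d N a := by
  apply Complex.ofReal_injective
  rw [Complex.ofReal_mul, Complex.ofReal_mul, sumA hO e N a he hc, sumB e N a he]
  push_cast
  ring

lemma cop_dvd {N : ℕ} {a : ℕ → ℂ} {e d : ℕ} (h : CopTo N a d) (hed : e ∣ d) : CopTo N a e :=
  fun n hn h0 => (h n hn h0).coprime_dvd_right hed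

lemma shift (q N : ℕ) (a : ℕ → ℂ) (β : ℝ) :
    Bq q N a β = Bq q N (fun n => a n * ee (n * β)) 0 := by
  simp only [Bq, Sx, add_zero]
  refine sum_congr rfl fun b _ => ?_
  congr 2
  refine sum_congr rfl fun n _ => ?_
  rw [mul_assoc, ee, ee, ee, ← Complex.exp_add]
  congr 2
  push_cast
  ring

end Q_Char

open Q_Char in
theorem stmtChar (hO : StmtOrth) : StmtChar := by
  refine ⟨fun d N a hd hc => ?_, fun k N a β hk hc => ?_⟩
  · rw [inv (fun i => Ad i N a) (fun e => (φ e : ℝ) / e * ∑ q ∈ e.divisors, Bq q N a 0) d hd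
      fun e he hed => ?_]
    · simp only [← mul_assoc]
      exact swap d (fun e => (μ (d / e) : ℝ) * ((φ e : ℝ) / e)) _
    · have h0 : (e : ℝ) ≠ 0 := by exact_mod_cast (by omega : e ≠ 0)
      have := rel hO e N a he (cop_dvd hc hed)
      rw [div_mul_eq_mul_div, this, mul_div_cancel_left₀ _ h0]
  · rw [shift]
    set a' : ℕ → ℂ := fun n => a n * ee (n * β) with ha'
    have hc' : CopTo N a' k := fun n hn h0 => hc n hn (left_ne_zero_of_mul h0)
    rw [inv (fun i => Bq i N a' 0) (fun e => (e : ℝ) / φ e * ∑ q ∈ e.divisors, Ad q N a') k hk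
      fun e he hed => ?_]
    · simp only [← mul_assoc]
      exact swap k (fun e => (μ (k / e) : ℝ) * ((e : ℝ) / φ e)) _
    · have h0 : (φ e : ℝ) ≠ 0 := by exact_mod_cast (Nat.totient_pos.2 he).ne'
      have := rel hO e N a' he (cop_dvd hc' hed)
      rw [div_mul_eq_mul_div, ← this, mul_div_cancel_left₀ _ h0]

end Pool.Agent.MP_f259ea_nt.Q

end

section

set_option autoImplicit false

open Complex MeasureTheory Finset
open scoped Real ComplexConjugate Classical Nat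

namespace Pool.Agent.MP_f259ea_nt.Q

namespace Q_Gauss

theorem parseval {κ ι : Type*} [Fintype κ] [Fintype ι] [DecidableEq ι] (g : κ → ι → ℂ)
    (w : ι → ℝ)
    (h : ∀ b b', ∑ k, g k b * conj (g k b') = if b = b' then (w b : ℂ) else 0) (x : ι → ℂ) :
    ∑ k, ‖∑ b, g k b * x b‖ ^ 2 = ∑ b, w b * ‖x b‖ ^ 2 := by
  apply Complex.ofReal_injective
  push_cast
  simp only [← Complex.mul_conj', map_sum, map_mul, Finset.sum_mul_sum]
  rw [Finset.sum_comm]
  refine Finset.sum_congr rfl fun b _ => ?_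
  rw [Finset.sum_comm]
  have : ∀ b', ∑ k, g k b * x b * (conj (g k b') * conj (x b')) =
      (∑ k, g k b * conj (g k b')) * (x b * conj (x b')) := fun b' => by
    rw [Finset.sum_mul]; exact Finset.sum_congr rfl fun k _ => by ring
  simp [this, h]

variable {d : ℕ} [NeZero d]

theorem norm_chi (χ : DirichletCharacter ℂ d) (b : ZMod d) :
    ‖χ b‖ ^ 2 = if IsUnit b then 1 else 0 := by
  split_ifs with h
  · obtain ⟨u, rfl⟩ := h
    rw [χ.unit_norm_eq_one, one_pow]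
  · simp [χ.map_nonunit h]

theorem norm_gauss {χ : DirichletCharacter ℂ d} (hχ : χ.IsPrimitive) :
    ‖gaussSum χ ZMod.stdAddChar‖ ^ 2 = d := by
  have h := parseval (fun n b : ZMod d => ZMod.stdAddChar (n * b)) (fun _ => (d : ℝ))
    (fun b b' => by
      have := AddChar.sum_mulShift (b - b') (ZMod.isPrimitive_stdAddChar d)
      simp only [← AddChar.map_neg_eq_conj, ← AddChar.map_add_eq_mul, ← sub_eq_add_neg, ← mul_sub]
      rw [this]
      simp [sub_eq_zero]) χ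
  have e : ∀ n : ZMod d, ∑ b, ZMod.stdAddChar (n * b) * χ b =
      χ⁻¹ n * gaussSum χ ZMod.stdAddChar := fun n => by
    rw [← gaussSum_mulShift_of_isPrimitive _ hχ, gaussSum]
    exact Finset.sum_congr rfl fun b _ => by rw [AddChar.mulShift_apply, mul_comm]
  simp only [e, norm_mul, mul_pow, norm_chi, ← Finset.sum_mul, ← Finset.mul_sum] at h
  have hp : (0 : ℝ) < ∑ b : ZMod d, if IsUnit b then 1 else 0 :=
    Finset.sum_pos' (fun b _ => by positivity) ⟨1, mem_univ _, by simp⟩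
  rw [mul_comm] at h
  exact mul_right_cancel₀ hp.ne' h

theorem orth (b b' : ZMod d) : ∑ χ : DirichletCharacter ℂ d, χ⁻¹ b * conj (χ⁻¹ b') =
    if b = b' then (((if IsUnit b then φ d else 0 : ℝ)) : ℂ) else 0 := by
  by_cases hb : IsUnit b
  · obtain ⟨u, rfl⟩ := hb
    have : ∀ χ : DirichletCharacter ℂ d, χ⁻¹ u * conj (χ⁻¹ b') = χ (↑u⁻¹ * b') := fun χ => by
      rw [map_mul, map_units_inv, MulChar.inv_apply_eq_inv', ← Complex.star_def,
        MulChar.star_apply', inv_inv]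
    simp only [this, DirichletCharacter.sum_characters_eq, Units.inv_mul_eq_one]
    simp
  · simp [MulChar.map_nonunit _ hb, hb]

theorem sum_red (f : ZMod d → ℝ) :
    ∑ b : ZMod d, (if IsUnit b then f b else 0) = ∑ b ∈ red d, f b := by
  rw [red, Finset.sum_filter]
  refine Finset.sum_nbij' (fun b => b.val) (fun n => (n : ZMod d)) (fun b _ => ?_)
    (fun _ _ => mem_univ _) (fun b _ => by simp) (fun n hn => ?_) (fun b _ => ?_)
  · simpa using b.val_lt
  · exact ZMod.val_cast_of_lt (by simpa using hn)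
  · simp [← ZMod.isUnit_iff_coprime]

theorem Sx_eq (N : ℕ) (a : ℕ → ℂ) (b : ℕ) : Sx N a ((b : ℝ) / d + 0) =
    ∑ n ∈ Icc 1 N, a n * ZMod.stdAddChar ((n : ZMod d) * (b : ZMod d)) := by
  refine Finset.sum_congr rfl fun n _ => ?_
  have := ZMod.stdAddChar_coe (N := d) ((n * b : ℕ) : ℤ)
  push_cast at this
  rw [this, ee]
  congr 2
  push_cast
  ring

end Q_Gauss

open Q_Gauss

theorem stmtGauss : StmtGauss := fun d N a hd => by
  have : NeZero d := ⟨by omega⟩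
  have hd' : (0 : ℝ) < d := by exact_mod_cast hd
  have h := parseval _ _ (orth (d := d))
    fun b => ∑ n ∈ Icc 1 N, a n * ZMod.stdAddChar ((n : ZMod d) * b)
  simp only [ite_mul, zero_mul, sum_red, ← Sx_eq, ← Finset.mul_sum] at h
  have h1 : d * Ad d N a ≤ φ d * Bq d N a 0 := by
    rw [Bq, ← h, Ad, Finset.mul_sum]
    refine le_trans (le_of_eq (Finset.sum_congr rfl fun χ hχ => ?_))
      (Finset.sum_le_sum_of_subset_of_nonneg (subset_univ (prim d)) fun _ _ _ => by positivity)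
    have hp : χ⁻¹.IsPrimitive := by
      have := (mem_filter.1 hχ).2
      rwa [DirichletCharacter.isPrimitive_def, DirichletCharacter.conductor_inv] at *
    rw [← norm_gauss hp, ← mul_pow, ← norm_mul]
    congr 2
    simp only [Finset.mul_sum]
    rw [Finset.sum_comm]
    refine Finset.sum_congr rfl fun n _ => ?_
    have := gaussSum_mulShift_of_isPrimitive ZMod.stdAddChar hp (n : ZMod d)
    rw [inv_inv] at this
    rw [mul_comm, mul_assoc, ← this, gaussSum, Finset.mul_sum]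
    exact Finset.sum_congr rfl fun b _ => by rw [AddChar.mulShift_apply]; ring
  have h2 : (φ d : ℝ) ≤ d := by exact_mod_cast Nat.totient_le d
  have h3 : 0 ≤ Bq d N a 0 := Finset.sum_nonneg fun _ _ => by positivity
  exact le_of_mul_le_mul_left (h1.trans (mul_le_mul_of_nonneg_right h2 h3)) hd'

theorem stmtLS0 (hU : StmtUnfold) (hA : StmtArcs) (hG : StmtGall) : StmtLS0 :=
    fun Q₁ Q N a => by
  have hn : 0 ≤ nrm N a := Finset.sum_nonneg fun _ _ => by positivity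
  rcases Nat.eq_zero_or_pos N with rfl | hN
  · simp [famSum, Ad, nrm]
  have hN' : (1 : ℝ) ≤ N := by exact_mod_cast hN
  have h1 : famSum Q₁ Q N a ≤ ∑ q ∈ Icc 1 Q, Bq q N a 0 := by
    refine (Finset.sum_le_sum fun d hd => stmtGauss d N a ?_).trans
      (Finset.sum_le_sum_of_subset_of_nonneg (fun d hd => ?_)
        fun _ _ _ => Finset.sum_nonneg fun _ _ => by positivity)
    · have := (mem_Ioc.1 hd).1; omega
    · have := mem_Ioc.1 hd; exact mem_Icc.2 ⟨by omega, this.2⟩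
  have hη : (0 : ℝ) < 1 / (4 * N) := by positivity
  have hη' : (1 : ℝ) / (4 * N) < 1 / 2 := one_div_lt_one_div_of_lt (by norm_num) (by linarith)
  have h2 := (abs_le.1 (hG Q N a _ 1 (fun _ => 1) hη hη' zero_le_one fun _ _ => by simp)).2
  obtain ⟨hc, hp, hi⟩ := hU.1 N a
  have hc2 : Continuous fun θ => ‖Sx N a θ‖ ^ 2 := by fun_prop
  have h3 : ∫ θ in (0 : ℝ)..1, (∑ q ∈ Icc 1 Q, (1 : ℝ) * nB q (1 / (4 * N)) θ) * ‖Sx N a θ‖ ^ 2
      ≤ (2 * (1 / (4 * N)) * (Q : ℝ) ^ 2 + 1) * nrm N a := by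
    rw [← hi, ← intervalIntegral.integral_const_mul]
    refine intervalIntegral.integral_mono_on zero_le_one ?_
      ((continuous_const.mul hc2).intervalIntegrable _ _) fun θ _ => ?_
    · simp only [one_mul, Finset.sum_mul]
      have := IntervalIntegrable.sum (Icc 1 Q) fun q _ =>
        (hU.2 q (Set.Iic (1 / (4 * N))) _ measurableSet_Iic hc2 fun x => by rw [hp x]).1
      rw [Finset.sum_fn] at this
      exact this
    · simp only [one_mul]
      exact mul_le_mul_of_nonneg_right (hA.1 Q _ θ hη.le hη') (by positivity)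
  have e1 : (1 : ℝ) / (2 * (1 / (4 * N))) = 2 * N := by field_simp; norm_num
  have e2 : 2 * (1 / (4 * N)) * (Q : ℝ) ^ 2 + 1 = ((Q : ℝ) ^ 2 + 2 * N) / (2 * N) := by
    field_simp; ring
  rw [e2] at h2 h3
  rw [e1] at h2
  simp only [one_mul] at h2 h3
  have h4 := mul_le_mul_of_nonneg_left h3 (by positivity : (0 : ℝ) ≤ 2 * N)
  have e3 : 2 * N * (((Q : ℝ) ^ 2 + 2 * N) / (2 * N) * nrm N a) =
      ((Q : ℝ) ^ 2 + 2 * N) * nrm N a := by field_simp
  have e4 : ((Q : ℝ) ^ 2 + 2 * N) / (2 * N) * (4 * π * N) * nrm N a =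
      2 * π * (((Q : ℝ) ^ 2 + 2 * N) * nrm N a) := by field_simp; ring
  rw [e3] at h4
  rw [e4] at h2
  have h5 : 0 ≤ (Q : ℝ) ^ 2 * nrm N a := by positivity
  have h6 : 0 ≤ (N : ℝ) * nrm N a := by positivity
  nlinarith [mul_le_mul_of_nonneg_right Real.pi_lt_d2.le h5,
    mul_le_mul_of_nonneg_right Real.pi_lt_d2.le h6]

end Pool.Agent.MP_f259ea_nt.Q

end

section

set_option autoImplicit false

open Complex MeasureTheory Finset
open scoped Real ComplexConjugate Classical Nat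

namespace Pool.Agent.MP_f259ea_nt.Q

namespace MajInt

/-- The unfolded integrand. -/
noncomputable def F (K : Finset ℕ) (s : ℕ → Set ℝ) (N : ℕ) (a : ℕ → ℂ) (β : ℝ) : ℝ :=
  ∑ k ∈ K, (s k).indicator (fun _ => (1 : ℝ)) |β| * Bq k N a β

theorem Bq_nonneg (k N : ℕ) (a : ℕ → ℂ) (β : ℝ) : 0 ≤ Bq k N a β :=
  Finset.sum_nonneg fun _ _ => by positivity

theorem Ad_nonneg (d N : ℕ) (a : ℕ → ℂ) : 0 ≤ Ad d N a :=
  Finset.sum_nonneg fun _ _ => by positivity

theorem F_eq (K : Finset ℕ) (s : ℕ → Set ℝ) (N : ℕ) (a : ℕ → ℂ) (β : ℝ)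
    [DecidablePred fun k => |β| ∈ s k] : F K s N a β = ∑ k ∈ K with |β| ∈ s k, Bq k N a β := by
  unfold F
  rw [Finset.sum_filter]
  refine Finset.sum_congr rfl fun k _ => ?_
  by_cases h : |β| ∈ s k
  · simp [h]
  · simp [h]

theorem F_nonneg (K : Finset ℕ) (s : ℕ → Set ℝ) (N : ℕ) (a : ℕ → ℂ) (β : ℝ) :
    0 ≤ F K s N a β := by
  rw [F_eq]
  exact Finset.sum_nonneg fun k _ => Bq_nonneg k N a β

theorem unfoldF (hU : StmtUnfold) (K : Finset ℕ) (s : ℕ → Set ℝ) (hs : ∀ k, MeasurableSet (s k))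
    (N : ℕ) (a : ℕ → ℂ) :
    IntervalIntegrable (fun θ => (∑ k ∈ K, (nS k (s k) θ : ℝ)) * ‖Sx N a θ‖ ^ 2) volume 0 1 ∧
    IntervalIntegrable (F K s N a) volume (-(1 / 2)) (1 / 2) ∧
    ∫ θ in (0 : ℝ)..1, (∑ k ∈ K, (nS k (s k) θ : ℝ)) * ‖Sx N a θ‖ ^ 2
      = ∫ β in (-(1 / 2) : ℝ)..(1 / 2), F K s N a β := by
  have hc : Continuous fun θ => ‖Sx N a θ‖ ^ 2 := (hU.1 N a).1.norm.pow 2
  have hp : Function.Periodic (fun θ => ‖Sx N a θ‖ ^ 2) 1 := fun x => by
    simp only [(hU.1 N a).2.1 x]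
  have h := fun k => hU.2 k (s k) _ (hs k) hc hp
  have e1 : (fun θ => (∑ k ∈ K, (nS k (s k) θ : ℝ)) * ‖Sx N a θ‖ ^ 2)
      = fun θ => ∑ k ∈ K, (nS k (s k) θ : ℝ) * ‖Sx N a θ‖ ^ 2 := by
    funext θ
    rw [Finset.sum_mul]
  have e2 : F K s N a = fun β => ∑ k ∈ K, (s k).indicator (fun _ => (1 : ℝ)) |β|
      * ∑ b ∈ red k, ‖Sx N a ((b : ℝ) / k + β)‖ ^ 2 := rfl
  rw [e1, e2]
  refine ⟨?_, ?_, ?_⟩
  · have := IntervalIntegrable.sum K fun k _ => (h k).1
    rwa [Finset.sum_fn] at this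
  · have := IntervalIntegrable.sum K fun k _ => (h k).2.1
    rwa [Finset.sum_fn] at this
  · rw [intervalIntegral.integral_finset_sum fun k _ => (h k).1,
      intervalIntegral.integral_finset_sum fun k _ => (h k).2.1]
    exact Finset.sum_congr rfl fun k _ => (h k).2.2

theorem swap (K D : Finset ℕ) (f : ℕ → ℕ → ℝ) :
    ∑ d ∈ D, ∑ k ∈ K with d ∣ k, f d k = ∑ k ∈ K, ∑ d ∈ D with d ∣ k, f d k := by
  simp only [Finset.sum_filter]
  exact Finset.sum_comm

theorem harm_Icc (m : ℕ) (hm : 1 ≤ m) (j : ℕ) :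
    ∑ r ∈ Icc m (m + j), (1 : ℝ) / r ≤ 1 + Real.log (((m + j : ℕ) : ℝ) / m) := by
  have hm' : (1 : ℝ) ≤ m := by exact_mod_cast hm
  induction j with
  | zero =>
    simp only [add_zero, Finset.Icc_self, Finset.sum_singleton]
    rw [div_self (by positivity), Real.log_one, add_zero]
    exact (div_le_one (by positivity)).2 hm'
  | succ j ih =>
    rw [← add_assoc, Finset.sum_Icc_succ_top (by omega)]
    have hj : (0 : ℝ) ≤ j := Nat.cast_nonneg j
    push_cast at ih ⊢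
    have h1 : Real.log (((m : ℝ) + j) / (m + j + 1)) ≤ ((m : ℝ) + j) / (m + j + 1) - 1 :=
      Real.log_le_sub_one_of_pos (by positivity)
    have h2 : ((m : ℝ) + j) / (m + j + 1) - 1 = -(1 / (m + j + 1)) := by
      field_simp
      ring
    rw [Real.log_div (by positivity) (by positivity)] at h1 ih ⊢
    linarith

theorem harm (S : Finset ℕ) (W x : ℝ) (hW : 1 ≤ W)
    (h : ∀ r ∈ S, 1 ≤ r ∧ x ≤ r ∧ (r : ℝ) < W * x) : ∑ r ∈ S, (1 : ℝ) / r ≤ 1 + Real.log W := by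
  rcases S.eq_empty_or_nonempty with rfl | hS
  · have := Real.log_nonneg hW
    simp only [Finset.sum_empty]
    linarith
  obtain ⟨j, hj⟩ : ∃ j, S.max' hS = S.min' hS + j :=
    Nat.exists_eq_add_of_le (S.min'_le _ (S.max'_mem hS))
  have h0 := h _ (S.min'_mem hS)
  have h1 := h _ (S.max'_mem hS)
  have hm' : (1 : ℝ) ≤ (S.min' hS : ℕ) := by exact_mod_cast h0.1
  have hM' : (1 : ℝ) ≤ (S.max' hS : ℕ) := by exact_mod_cast h1.1
  calc ∑ r ∈ S, (1 : ℝ) / r ≤ ∑ r ∈ Icc (S.min' hS) (S.min' hS + j), (1 : ℝ) / r :=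
        Finset.sum_le_sum_of_subset_of_nonneg
          (fun r hr => Finset.mem_Icc.2 ⟨S.min'_le r hr, hj ▸ S.le_max' r hr⟩)
          fun _ _ _ => by positivity
    _ ≤ 1 + Real.log (((S.min' hS + j : ℕ) : ℝ) / (S.min' hS : ℕ)) := harm_Icc _ h0.1 j
    _ ≤ 1 + Real.log W := by
        rw [← hj]
        gcongr
        rw [div_le_iff₀ (by positivity)]
        have := mul_le_mul_of_nonneg_left h0.2.1 (by linarith : (0 : ℝ) ≤ W)
        linarith [h1.2.2]

theorem harm_dvd (S : Finset ℕ) (d : ℕ) (W t : ℝ) (hW : 1 ≤ W) (ht : 0 < t)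
    (h : ∀ k ∈ S, 1 ≤ k ∧ d ∣ k ∧ 1 ≤ k * t ∧ k * t < W) :
    ∑ k ∈ S, (d : ℝ) / k ≤ 1 + Real.log W := by
  have hinj : Set.InjOn (fun k => k / d) (S : Set ℕ) := fun k hk k' hk' e => by
    have e' : k / d = k' / d := e
    rw [← Nat.mul_div_cancel' (h k hk).2.1, ← Nat.mul_div_cancel' (h k' hk').2.1, e']
  refine le_trans (le_of_eq ?_) (harm (S.image fun k => k / d) W (1 / (d * t)) hW ?_)
  · rw [Finset.sum_image hinj]
    refine Finset.sum_congr rfl fun k hk => ?_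
    obtain ⟨h1, ⟨r, rfl⟩, -, -⟩ := h k hk
    have hd : 0 < d := Nat.pos_of_mul_pos_right h1
    have hr : 0 < r := Nat.pos_of_mul_pos_left h1
    rw [Nat.mul_div_cancel_left _ hd]
    push_cast
    field_simp
  · intro r hr
    obtain ⟨k, hk, rfl⟩ := Finset.mem_image.1 hr
    obtain ⟨h1, ⟨r, rfl⟩, h2, h3⟩ := h k hk
    have hd : 0 < d := Nat.pos_of_mul_pos_right h1
    have hr : 0 < r := Nat.pos_of_mul_pos_left h1
    have hd' : (0 : ℝ) < d := by exact_mod_cast hd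
    rw [Nat.mul_div_cancel_left _ hd]
    push_cast at h2 h3
    refine ⟨hr, ?_, ?_⟩
    · rw [div_le_iff₀ (by positivity)]
      linarith
    · rw [mul_one_div, lt_div_iff₀ (by positivity)]
      linarith

theorem uu_le (hAr : StmtArith) {d k Q : ℕ} (hk : 1 ≤ k) (hkQ : k ≤ Q) (hd : d ∣ k) :
    uu d k ≤ 4 * √(1 + Real.log Q) * ((d : ℝ) / k) := by
  have hk' : (1 : ℝ) ≤ k := by exact_mod_cast hk
  have h1 := (hAr.2.1 d k hk hd).2
  have h2 := hAr.2.2.2 k hk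
  have h3 : Real.log k ≤ Real.log Q := Real.log_le_log (by positivity) (by exact_mod_cast hkQ)
  have h4 : 0 ≤ Real.log k := Real.log_nonneg hk'
  have h5 : (k : ℝ) / φ k ≤ 4 * √(1 + Real.log Q) := by
    refine (abs_le_of_sq_le_sq' ?_ (by positivity)).2
    rw [mul_pow, Real.sq_sqrt (by linarith)]
    linarith
  calc uu d k ≤ (d : ℝ) / φ k := h1
    _ = (k : ℝ) / φ k * ((d : ℝ) / k) := by
        rw [mul_comm, div_mul_div_comm, mul_comm (d : ℝ) k, mul_div_mul_left _ _ (by positivity)]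
    _ ≤ _ := by gcongr

theorem lower (hAr : StmtArith) (hC : StmtChar) {N Q : ℕ} {a : ℕ → ℂ} (hcop : Cop N Q a) (β : ℝ)
    (D : Finset ℕ) {R X : ℝ} (hR : 1 ≤ R) (hX : X ≤ Q) (hD : ∀ d ∈ D, 1 ≤ d ∧ d * R ≤ X) :
    Real.log R * ∑ d ∈ D, (Ad d N fun n => a n * ee (n * β))
      ≤ ∑ k ∈ Icc 1 ⌊X⌋₊, Bq k N a β := by
  have hfl : ⌊X⌋₊ ≤ Q := Nat.floor_le_of_le hX
  calc Real.log R * ∑ d ∈ D, (Ad d N fun n => a n * ee (n * β))
      ≤ ∑ d ∈ D, ∑ k ∈ Icc 1 ⌊X⌋₊ with d ∣ k, uu d k * Ad d N fun n => a n * ee (n * β) := by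
        rw [Finset.mul_sum]
        refine Finset.sum_le_sum fun d hd => ?_
        rw [← Finset.sum_mul]
        exact mul_le_mul_of_nonneg_right (hAr.2.2.1 d R X (hD d hd).1 hR (hD d hd).2)
          (Ad_nonneg _ _ _)
    _ = ∑ k ∈ Icc 1 ⌊X⌋₊, ∑ d ∈ D with d ∣ k, uu d k * Ad d N fun n => a n * ee (n * β) :=
        swap _ _ fun d k => uu d k * Ad d N fun n => a n * ee (n * β)
    _ ≤ _ := by
        refine Finset.sum_le_sum fun k hk => ?_
        have hk' := Finset.mem_Icc.1 hk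
        rw [hC.2 k N a β hk'.1 (hcop k (Finset.mem_Icc.2 ⟨hk'.1, hk'.2.trans hfl⟩))]
        refine Finset.sum_le_sum_of_subset_of_nonneg (fun d hd => ?_) fun d hd _ => ?_
        · exact Nat.mem_divisors.2 ⟨(Finset.mem_filter.1 hd).2, by omega⟩
        · exact mul_nonneg (hAr.2.1 d k hk'.1 (Nat.dvd_of_mem_divisors hd)).1 (Ad_nonneg _ _ _)

theorem upper (hAr : StmtArith) (hC : StmtChar) {N Q : ℕ} {a : ℕ → ℂ} (hcop : Cop N Q a) (β : ℝ)
    (K : Finset ℕ) {W t : ℝ} (hW : 1 ≤ W) (ht : 0 < t)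
    (hK : ∀ k ∈ K, k ∈ Icc 1 Q ∧ 1 ≤ k * t ∧ k * t < W) :
    ∑ k ∈ K, Bq k N a β ≤ 4 * √(1 + Real.log Q) * (1 + Real.log W) *
      ∑ d ∈ (Icc 1 Q).filter (fun d : ℕ => d * t < W), (Ad d N fun n => a n * ee (n * β)) := by
  calc ∑ k ∈ K, Bq k N a β
      = ∑ k ∈ K, ∑ d ∈ (Icc 1 Q).filter (fun d : ℕ => d * t < W) with d ∣ k,
          uu d k * Ad d N fun n => a n * ee (n * β) := by
        refine Finset.sum_congr rfl fun k hk => ?_
        obtain ⟨h1, -, h3⟩ := hK k hk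
        have h1' := Finset.mem_Icc.1 h1
        rw [hC.2 k N a β h1'.1 (hcop k h1)]
        refine Finset.sum_congr ?_ fun _ _ => rfl
        ext d
        simp only [Nat.mem_divisors, Finset.mem_filter, Finset.mem_Icc]
        refine ⟨fun h => ?_, fun h => ⟨h.2, by omega⟩⟩
        have h4 : d ≤ k := Nat.le_of_dvd (by omega) h.1
        have h5 : (d : ℝ) ≤ k := by exact_mod_cast h4
        exact ⟨⟨⟨Nat.pos_of_dvd_of_pos h.1 (by omega), by omega⟩, by nlinarith⟩, h.1⟩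
    _ = ∑ d ∈ (Icc 1 Q).filter (fun d : ℕ => d * t < W), ∑ k ∈ K with d ∣ k,
          uu d k * Ad d N fun n => a n * ee (n * β) :=
        (swap _ _ fun d k => uu d k * Ad d N fun n => a n * ee (n * β)).symm
    _ ≤ _ := by
        rw [Finset.mul_sum]
        refine Finset.sum_le_sum fun d _ => ?_
        rw [← Finset.sum_mul]
        refine mul_le_mul_of_nonneg_right ?_ (Ad_nonneg _ _ _)
        calc ∑ k ∈ K with d ∣ k, uu d k
            ≤ ∑ k ∈ K with d ∣ k, 4 * √(1 + Real.log Q) * ((d : ℝ) / k) :=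
              Finset.sum_le_sum fun k hk => by
                have hk' := Finset.mem_filter.1 hk
                have h1 := Finset.mem_Icc.1 (hK k hk'.1).1
                exact uu_le hAr h1.1 h1.2 hk'.2
          _ ≤ _ := by
              rw [← Finset.mul_sum]
              refine mul_le_mul_of_nonneg_left (harm_dvd _ d W t hW ht fun k hk => ?_)
                (by positivity)
              have hk' := Finset.mem_filter.1 hk
              have h1 := hK k hk'.1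
              exact ⟨(Finset.mem_Icc.1 h1.1).1, hk'.2, h1.2⟩

end MajInt

open MajInt

theorem stmtMajor (hAr : StmtArith) (hO : StmtOrth) (hC : StmtChar) (hU : StmtUnfold) :
    StmtMajor := by
  intro N Q a h β₀ hcop hh h0 h1 hQ
  obtain ⟨-, i2, i3⟩ := unfoldF hU (Icc 1 ⌊Real.exp h⌋₊) (fun _ => Set.Iic β₀)
    (fun _ => measurableSet_Iic) N a
  have hc : Continuous fun θ => h * ‖Sx N a θ‖ ^ 2 :=
    continuous_const.mul ((hU.1 N a).1.norm.pow 2)
  unfold nB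
  rw [i3, ← intervalIntegral.integral_const_mul]
  refine le_trans ?_ (intervalIntegral.integral_mono_interval (a := -β₀) (b := β₀) (by linarith)
    (by linarith) h1 (Filter.Eventually.of_forall fun β => F_nonneg _ _ _ _ β) i2)
  refine intervalIntegral.integral_mono_on (by linarith) (hc.intervalIntegrable _ _)
    (i2.mono_set ?_) fun β hβ => ?_
  · rw [Set.uIcc_of_le (by linarith), Set.uIcc_of_le (by norm_num)]
    exact Set.Icc_subset_Icc (by linarith) h1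
  · have h2 := lower hAr hC hcop β {1} (Real.one_le_exp hh) hQ (fun d hd => by
      rw [Finset.mem_singleton.1 hd]
      simp)
    rw [Real.log_exp, Finset.sum_singleton, hO.2.2] at h2
    rw [F_eq]
    refine h2.trans (Finset.sum_le_sum_of_subset_of_nonneg (fun k hk => ?_)
      fun k _ _ => Bq_nonneg _ _ _ _)
    exact Finset.mem_filter.2 ⟨hk, Set.mem_Iic.2 (abs_le.2 hβ)⟩

theorem stmtInter (hAr : StmtArith) (hC : StmtChar) (hU : StmtUnfold) (hA : StmtArcs) :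
    StmtInter := by
  intro N Q a η W R hcop hQ hη hW hR h8
  have hQ' : (1 : ℝ) ≤ Q := by exact_mod_cast hQ
  have hL : 0 < Real.log R := Real.log_pos hR
  have hWR : 1 ≤ W * R := by nlinarith
  have hlW : 0 ≤ Real.log W := Real.log_nonneg hW
  obtain ⟨-, i2, i3⟩ := unfoldF hU (Icc 1 Q)
    (fun k => {x | 1 ≤ (Q : ℝ) * k * (x + η) ∧ (Q : ℝ) * k * (x + η) < W})
    (fun k => (measurableSet_le (f := fun _ => (1 : ℝ)) (g := fun x => (Q : ℝ) * k * (x + η))
      measurable_const (by fun_prop)).inter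
      (measurableSet_lt (f := fun x => (Q : ℝ) * k * (x + η)) (g := fun _ => W) (by fun_prop)
        measurable_const)) N a
  obtain ⟨j1, j2, j3⟩ := unfoldF hU (Icc 1 Q)
    (fun k => {x | (Q : ℝ) * k * (x + η) < 2 * (W * R)})
    (fun k => measurableSet_lt (by fun_prop) measurable_const) N a
  have hc : Continuous fun θ => ‖Sx N a θ‖ ^ 2 := (hU.1 N a).1.norm.pow 2
  have hc0 : 0 ≤ 4 * √(1 + Real.log Q) * (1 + Real.log W) / Real.log R := by positivity
  have k1 : ∫ β in (-(1 / 2) : ℝ)..(1 / 2),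
      F (Icc 1 Q) (fun k => {x | (Q : ℝ) * k * (x + η) < 2 * (W * R)}) N a β ≤ nrm N a := by
    rw [← j3, ← (hU.1 N a).2.2]
    refine intervalIntegral.integral_mono_on zero_le_one j1 (hc.intervalIntegrable _ _)
      fun θ _ => ?_
    have h1 := hA.2.2.1 Q Q η (2 * (W * R)) θ hQ hη (by linarith) (by linarith)
    have h2 : ∑ k ∈ Icc 1 Q, (nS k {x | (Q : ℝ) * k * (x + η) < 2 * (W * R)} θ : ℝ) ≤ 1 := by
      exact_mod_cast h1
    exact mul_le_of_le_one_left (by positivity) h2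
  rw [i3]
  refine le_trans ?_ (mul_le_mul_of_nonneg_left k1 hc0)
  rw [← intervalIntegral.integral_const_mul]
  refine intervalIntegral.integral_mono_on (by norm_num) i2 (j2.const_mul _) fun β _ => ?_
  have hβ := abs_nonneg β
  have ht : 0 < (Q : ℝ) * (|β| + η) := by positivity
  have hX : W * R / (Q * (|β| + η)) ≤ Q := by
    rw [div_le_iff₀ ht]
    nlinarith [mul_nonneg (sq_nonneg (Q : ℝ)) hβ]
  have u2 := lower hAr hC hcop β ((Icc 1 Q).filter fun d : ℕ => d * (Q * (|β| + η)) < W) hR.le hX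
    fun d hd => by
      obtain ⟨h1, h2⟩ := Finset.mem_filter.1 hd
      refine ⟨(Finset.mem_Icc.1 h1).1, ?_⟩
      rw [le_div_iff₀ ht]
      nlinarith
  have u3 : ∑ k ∈ Icc 1 ⌊W * R / (Q * (|β| + η))⌋₊, Bq k N a β
      ≤ F (Icc 1 Q) (fun k => {x | (Q : ℝ) * k * (x + η) < 2 * (W * R)}) N a β := by
    rw [F_eq]
    refine Finset.sum_le_sum_of_subset_of_nonneg (fun k hk => ?_) fun k _ _ => Bq_nonneg _ _ _ _
    obtain ⟨h1, h2⟩ := Finset.mem_Icc.1 hk
    have h3 : (k : ℝ) ≤ W * R / (Q * (|β| + η)) := (Nat.le_floor_iff (by positivity)).1 h2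
    rw [le_div_iff₀ ht] at h3
    refine Finset.mem_filter.2 ⟨Finset.mem_Icc.2 ⟨h1, h2.trans (Nat.floor_le_of_le hX)⟩, ?_⟩
    show (Q : ℝ) * k * (|β| + η) < 2 * (W * R)
    linarith
  rw [F_eq]
  refine (upper hAr hC hcop β _ hW ht fun k hk => ?_).trans ?_
  · obtain ⟨h1, h2, h3⟩ := Finset.mem_filter.1 hk
    exact ⟨h1, by linarith, by linarith⟩
  rw [div_mul_eq_mul_div, mul_div_assoc]
  refine mul_le_mul_of_nonneg_left ?_ (by positivity)
  rw [le_div_iff₀ hL, mul_comm]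
  exact u2.trans u3

end Pool.Agent.MP_f259ea_nt.Q

end

section

/-!
Mertens-type estimates for the conductor aspect.
-/

set_option autoImplicit false

open MeasureTheory Finset
open scoped Real Classical ArithmeticFunction.vonMangoldt

namespace Pool.Agent.MP_f259ea_nt.Q

namespace Mert

lemma diff_le {c : ℕ → ℝ} {C : ℝ} (hc : ∀ N : ℕ, 1 ≤ N → |∑ n ∈ Icc 1 N, c n - Real.log N| ≤ C)
    {x y : ℝ} (hx : 1 ≤ x) (hxy : x ≤ y) :
    |∑ n ∈ Ioc ⌊x⌋₊ ⌊y⌋₊, c n - (Real.log y - Real.log x)| ≤ 2 * C + 2 := by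
  have key : ∀ z : ℝ, 1 ≤ z → |∑ n ∈ Ioc 0 ⌊z⌋₊, c n - Real.log z| ≤ C + 1 := by
    intro z hz
    have h1 : 1 ≤ ⌊z⌋₊ := Nat.le_floor (by exact_mod_cast hz)
    have h1' : (1 : ℝ) ≤ ⌊z⌋₊ := by exact_mod_cast h1
    have h2 := abs_le.1 (hc _ h1)
    have h3 : Real.log ⌊z⌋₊ ≤ Real.log z :=
      Real.log_le_log (by linarith) (Nat.floor_le (by linarith))
    have h4 : Real.log z ≤ Real.log 2 + Real.log ⌊z⌋₊ := by
      rw [← Real.log_mul (by norm_num) (by linarith)]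
      exact Real.log_le_log (by linarith) (by linarith [Nat.lt_floor_add_one z])
    have h5 : Real.log 2 ≤ 1 := by
      linarith [Real.log_le_sub_one_of_pos (show (0 : ℝ) < 2 by norm_num)]
    rw [← Finset.Icc_add_one_left_eq_Ioc, zero_add, abs_le]
    constructor <;> linarith [h2.1, h2.2]
  have e := Finset.sum_Ioc_consecutive c (Nat.zero_le ⌊x⌋₊) (Nat.floor_mono hxy)
  have h1 := abs_le.1 (key x hx)
  have h2 := abs_le.1 (key y (hx.trans hxy))
  rw [abs_le]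
  constructor <;> linarith [h1.1, h1.2, h2.1, h2.2]

lemma piece {c : ℕ → ℝ} {C : ℝ} (h0 : ∀ n, 0 ≤ c n)
    (hc : ∀ N : ℕ, 1 ≤ N → |∑ n ∈ Icc 1 N, c n - Real.log N| ≤ C) {f : ℝ → ℝ} (hf : Continuous f)
    {Y a b η B : ℝ} (hY : 0 < Y) (ha : 0 ≤ a) (hab : a ≤ b) (hB : |f a| ≤ B)
    (hη : ∀ t ∈ Set.Icc a b, |f t - f a| ≤ η) :
    |∑ n ∈ Ioc ⌊Real.exp (a * Y)⌋₊ ⌊Real.exp (b * Y)⌋₊, c n * f (Real.log n / Y)
      - Y * ∫ t in a..b, f t| ≤ 2 * η * ((b - a) * Y) + (B + η) * (2 * C + 2) := by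
  have hη0 : 0 ≤ η := (abs_nonneg _).trans (hη a ⟨le_rfl, hab⟩)
  have h1 := diff_le hc (x := Real.exp (a * Y)) (y := Real.exp (b * Y))
    (Real.one_le_exp (by positivity)) (Real.exp_le_exp.2 (by gcongr))
  rw [Real.log_exp, Real.log_exp, ← sub_mul] at h1
  obtain ⟨D, hD⟩ : ∃ D, D = ∑ n ∈ Ioc ⌊Real.exp (a * Y)⌋₊ ⌊Real.exp (b * Y)⌋₊, c n := ⟨_, rfl⟩
  have h2 : |∑ n ∈ Ioc ⌊Real.exp (a * Y)⌋₊ ⌊Real.exp (b * Y)⌋₊, c n * f (Real.log n / Y)
      - D * f a| ≤ D * η := by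
    rw [hD, Finset.sum_mul, Finset.sum_mul, ← Finset.sum_sub_distrib]
    refine (Finset.abs_sum_le_sum_abs _ _).trans (Finset.sum_le_sum fun n hn => ?_)
    rw [Finset.mem_Ioc] at hn
    have h2 : Real.exp (a * Y) < n := Nat.lt_of_floor_lt hn.1
    have h3 : (n : ℝ) ≤ Real.exp (b * Y) := (Nat.le_floor_iff (Real.exp_pos _).le).1 hn.2
    have hn0 : (0 : ℝ) < n := (Real.exp_pos _).trans h2
    rw [← mul_sub, abs_mul, abs_of_nonneg (h0 n)]
    refine mul_le_mul_of_nonneg_left (hη _ ⟨?_, ?_⟩) (h0 n)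
    · rw [le_div_iff₀ hY]; exact ((Real.lt_log_iff_exp_lt hn0).2 h2).le
    · rw [div_le_iff₀ hY]; exact (Real.log_le_iff_le_exp hn0).2 h3
  rw [← hD] at h1
  have h3 : |(∫ t in a..b, f t) - (b - a) * f a| ≤ η * (b - a) := by
    have := intervalIntegral.norm_integral_le_of_norm_le_const (a := a) (b := b) (C := η)
      (f := fun t => f t - f a) fun t ht => by
        rw [Set.uIoc_of_le hab] at ht
        exact hη t ⟨ht.1.le, ht.2⟩
    rwa [intervalIntegral.integral_sub (hf.intervalIntegrable _ _) intervalIntegrable_const,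
      intervalIntegral.integral_const, smul_eq_mul, Real.norm_eq_abs,
      abs_of_nonneg (sub_nonneg.2 hab)] at this
  have h4 : |(D - (b - a) * Y) * f a| ≤ (2 * C + 2) * B := by
    rw [abs_mul]; exact mul_le_mul h1 hB (abs_nonneg _) ((abs_nonneg _).trans h1)
  have h5 : |Y * ((∫ t in a..b, f t) - (b - a) * f a)| ≤ Y * (η * (b - a)) := by
    rw [abs_mul, abs_of_pos hY]; exact mul_le_mul_of_nonneg_left h3 hY.le
  have h6 : D * η ≤ ((b - a) * Y + (2 * C + 2)) * η :=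
    mul_le_mul_of_nonneg_right (by linarith [(abs_le.1 h1).2]) hη0
  have a2 := abs_le.1 h2
  have a4 := abs_le.1 h4
  have a5 := abs_le.1 h5
  rw [abs_le]
  constructor <;> nlinarith [a2.1, a2.2, a4.1, a4.2, a5.1, a5.2]

lemma general {c : ℕ → ℝ} {C : ℝ} (h0 : ∀ n, 0 ≤ c n)
    (hc : ∀ N : ℕ, 1 ≤ N → |∑ n ∈ Icc 1 N, c n - Real.log N| ≤ C) {f : ℝ → ℝ} (hf : Continuous f)
    {ε : ℝ} (hε : 0 < ε) : ∃ Y₀ : ℝ, ∀ Y : ℝ, Y₀ ≤ Y →
      |∑ n ∈ Icc 1 ⌊Real.exp Y⌋₊, c n * f (Real.log n / Y) - Y * ∫ t in (0 : ℝ)..1, f t|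
        ≤ Y * ε := by
  obtain ⟨B, hB⟩ := (isCompact_Icc (a := (0 : ℝ)) (b := 1)).exists_bound_of_continuousOn
    hf.continuousOn
  simp only [Real.norm_eq_abs] at hB
  obtain ⟨δ, hδ, hU⟩ := Metric.uniformContinuousOn_iff.1
    ((isCompact_Icc (a := (0 : ℝ)) (b := 1)).uniformContinuousOn_of_continuous hf.continuousOn)
    (ε / 4) (by linarith)
  obtain ⟨K, hK⟩ := exists_nat_one_div_lt hδ
  obtain ⟨k, hk⟩ : ∃ k : ℝ, k = K + 1 := ⟨_, rfl⟩
  rw [← hk] at hK
  have hk0 : 0 < k := by rw [hk]; positivity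
  obtain ⟨R, hR⟩ : ∃ R : ℝ, R = (B + ε / 4) * (2 * C + 2) := ⟨_, rfl⟩
  refine ⟨max 1 ((k * R + C * B) / (ε / 2)), fun Y hY => ?_⟩
  have hY0 : 0 < Y := by linarith [le_trans (le_max_left _ _) hY]
  have hY2 : k * R + C * B ≤ Y * (ε / 2) :=
    (div_le_iff₀ (by linarith)).1 (le_trans (le_max_right _ _) hY)
  have step : ∀ j : ℕ, j ≤ K + 1 →
      |∑ n ∈ Ioc 0 ⌊Real.exp (j / k * Y)⌋₊, c n * f (Real.log n / Y)
        - Y * ∫ t in (0 : ℝ)..(j / k), f t| ≤ C * B + j * (ε / 2 * Y / k + R) := by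
    intro j
    induction j with
    | zero =>
      intro _
      have h1 := hc 1 le_rfl
      have h2 := hB 0 (by simp)
      simp only [Finset.Icc_self, Finset.sum_singleton, Nat.cast_one, Real.log_one, sub_zero] at h1
      have h3 : |c 1 * f 0| ≤ C * B := by
        rw [abs_mul]; exact mul_le_mul h1 h2 (abs_nonneg _) ((abs_nonneg _).trans h1)
      simpa using h3
    | succ j ih =>
      intro hj
      have hj' : (j : ℝ) + 1 ≤ k := by rw [hk]; exact_mod_cast hj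
      have e0 : (0 : ℝ) ≤ j / k := by positivity
      have h1 : (j : ℝ) / k ≤ (j + 1 : ℕ) / k := by push_cast; gcongr; linarith
      have h2 : ((j + 1 : ℕ) : ℝ) / k ≤ 1 := by push_cast; rwa [div_le_one hk0]
      have h3 : ((j + 1 : ℕ) : ℝ) / k - j / k = 1 / k := by push_cast; ring
      have hp := piece h0 hc hf hY0 e0 h1 (η := ε / 4) (hB _ ⟨e0, by linarith⟩) fun t ht =>
        (hU t ⟨by linarith [ht.1], by linarith [ht.2]⟩ _ ⟨e0, by linarith⟩ (by
          rw [Real.dist_eq, abs_of_nonneg (by linarith [ht.1])]; linarith [ht.2])).le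
      rw [← Finset.sum_Ioc_consecutive (fun n : ℕ => c n * f (Real.log n / Y))
        (Nat.zero_le ⌊Real.exp (j / k * Y)⌋₊)
        (Nat.floor_mono (Real.exp_le_exp.2 (by gcongr))),
        ← intervalIntegral.integral_add_adjacent_intervals (hf.intervalIntegrable 0 (j / k))
          (hf.intervalIntegrable _ _)]
      have ih' := abs_le.1 (ih (by omega))
      rw [h3, ← hR] at hp
      have hp' := abs_le.1 hp
      have e1 : 2 * (ε / 4) * (1 / k * Y) = ε / 2 * Y / k := by ring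
      have e2 : ((j + 1 : ℕ) : ℝ) * (ε / 2 * Y / k + R) =
          j * (ε / 2 * Y / k + R) + (ε / 2 * Y / k + R) := by
        push_cast; ring
      rw [e2, mul_add, abs_le]
      constructor <;> linarith [ih'.1, ih'.2, hp'.1, hp'.2]
  have h1 := step (K + 1) le_rfl
  have ek : ((K + 1 : ℕ) : ℝ) = k := by rw [hk]; push_cast; ring
  have e4 : k * (ε / 2 * Y / k + R) = ε / 2 * Y + k * R := by field_simp
  rw [ek, div_self hk0.ne', one_mul, ← Finset.Icc_add_one_left_eq_Ioc, zero_add, e4] at h1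
  linarith

lemma nonprime : ∃ C : ℝ, 0 < C ∧ ∀ X : ℕ, ∑ n ∈ Icc 1 X with ¬ n.Prime, Λ n / (n : ℝ) ≤ C := by
  have h := ArithmeticFunction.vonMangoldt.summable_residueClass_non_primes_div (q := 1) 0
  have e : ∀ n : ℕ, ArithmeticFunction.vonMangoldt.residueClass (q := 1) 0 n = Λ n := fun n =>
    Set.indicator_of_mem (s := {n : ℕ | (n : ZMod 1) = 0}) (Subsingleton.elim (n : ZMod 1) 0) _
  simp only [e] at h
  have h0 : ∀ n : ℕ, 0 ≤ (if n.Prime then 0 else Λ n) / (n : ℝ) := fun n => by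
    have := ArithmeticFunction.vonMangoldt_nonneg (n := n)
    positivity
  refine ⟨∑' n : ℕ, (if n.Prime then 0 else Λ n) / (n : ℝ) + 1,
    add_pos_of_nonneg_of_pos (tsum_nonneg h0) one_pos, fun X => ?_⟩
  have h1 := h.sum_le_tsum (Icc 1 X) fun n _ => h0 n
  have h2 : ∑ n ∈ Icc 1 X with ¬ n.Prime, Λ n / (n : ℝ)
      = ∑ n ∈ Icc 1 X, (if n.Prime then 0 else Λ n) / (n : ℝ) := by
    rw [Finset.sum_filter]
    refine Finset.sum_congr rfl fun n _ => ?_
    by_cases hn : n.Prime <;> simp [hn]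
  linarith

lemma primes : ∃ C : ℝ, ∀ N : ℕ, 1 ≤ N →
    |∑ n ∈ Icc 1 N, (if n.Prime then Real.log n / n else 0) - Real.log N| ≤ C := by
  obtain ⟨C, hC, h⟩ := nonprime
  refine ⟨C + 8, fun N hN => ?_⟩
  have h1 := mertSum_bounds hN
  have h2 := h N
  have h3 : 0 ≤ ∑ n ∈ Icc 1 N with ¬ n.Prime, Λ n / (n : ℝ) := Finset.sum_nonneg fun n _ =>
    div_nonneg ArithmeticFunction.vonMangoldt_nonneg n.cast_nonneg
  have h4 : mertSum N = ∑ n ∈ Icc 1 N, (if n.Prime then Real.log n / n else 0)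
      + ∑ n ∈ Icc 1 N with ¬ n.Prime, Λ n / (n : ℝ) := by
    rw [mertSum, Finset.sum_filter, ← Finset.sum_add_distrib]
    refine Finset.sum_congr rfl fun n _ => ?_
    by_cases hn : n.Prime
    · simp [hn, ArithmeticFunction.vonMangoldt_apply_prime hn]
    · simp [hn]
  have h6 : Real.log 4 ≤ 3 := by
    linarith [Real.log_le_sub_one_of_pos (show (0 : ℝ) < 4 by norm_num)]
  rw [abs_le]
  constructor <;> linarith [h1.1, h1.2]

lemma harm (N : ℕ) (hN : 1 ≤ N) : |∑ n ∈ Icc 1 N, 1 / (n : ℝ) - Real.log N| ≤ 1 := by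
  have h1 := log_add_one_le_harmonic N
  have h2 := harmonic_le_one_add_log N
  simp only [harmonic_eq_sum_Icc, Rat.cast_sum, Rat.cast_inv, Rat.cast_natCast] at h1 h2
  have h3 : Real.log N ≤ Real.log (N + 1 : ℕ) :=
    Real.log_le_log (by exact_mod_cast hN) (by push_cast; linarith)
  simp only [one_div]
  rw [abs_le]
  constructor <;> linarith

end Mert

theorem stmtMert2 : StmtMert2 := by
  refine ⟨fun f hf _ ε hε => ?_, Mert.nonprime⟩
  obtain ⟨C, hC⟩ := Mert.primes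
  obtain ⟨Y1, h1⟩ := Mert.general (c := fun n => if n.Prime then Real.log n / n else 0)
    (fun n => by
      have := Real.log_natCast_nonneg n
      positivity) hC hf hε
  obtain ⟨Y2, h2⟩ := Mert.general (c := fun n => 1 / (n : ℝ)) (fun n => by positivity)
    Mert.harm hf hε
  refine ⟨max Y1 Y2, fun Y hY => ⟨?_, ?_⟩⟩
  · have h3 := (abs_le.1 (h1 Y ((le_max_left _ _).trans hY))).1
    simp only [ite_mul, zero_mul] at h3
    rw [Finset.sum_filter]
    linarith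
  · have h3 := (abs_le.1 (h2 Y ((le_max_right _ _).trans hY))).2
    linarith

end Pool.Agent.MP_f259ea_nt.Q

end

section

/-! The signed density of fractions on the minor arcs. -/

set_option autoImplicit false

open Complex MeasureTheory Finset
open scoped Real ComplexConjugate Classical ArithmeticFunction.Moebius
  ArithmeticFunction.vonMangoldt Nat

namespace Pool.Agent.MP_f259ea_nt.Q

namespace Q_Minor

theorem hyper (F : ℕ → ℕ → ℝ) (X : ℕ) :
    ∑ d ∈ Ioc 0 X, ∑ e ∈ d.divisors, F (d / e) e = ∑ f ∈ Ioc 0 X, ∑ e ∈ Ioc 0 (X / f), F f e := by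
  rw [sum_sigma', sum_sigma']
  refine sum_nbij' (fun p => ⟨p.1 / p.2, p.2⟩) (fun p => ⟨p.1 * p.2, p.2⟩) ?_ ?_ ?_ ?_ ?_
  · rintro ⟨d, e⟩ h
    simp only [mem_sigma, mem_Ioc, Nat.mem_divisors] at h ⊢
    obtain ⟨⟨h1, h2⟩, ⟨f, rfl⟩, -⟩ := h
    have he : 0 < e := Nat.pos_of_mul_pos_right h1
    have hf : 0 < f := Nat.pos_of_mul_pos_left h1
    rw [Nat.mul_div_cancel_left _ he]
    exact ⟨⟨hf, (Nat.le_mul_of_pos_left f he).trans h2⟩, he, (Nat.le_div_iff_mul_le hf).2 h2⟩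
  · rintro ⟨f, e⟩ h
    simp only [mem_sigma, mem_Ioc, Nat.mem_divisors] at h ⊢
    obtain ⟨⟨h1, h2⟩, h3, h4⟩ := h
    rw [Nat.le_div_iff_mul_le h1, mul_comm] at h4
    exact ⟨⟨Nat.mul_pos h1 h3, h4⟩, dvd_mul_left _ _, (Nat.mul_pos h1 h3).ne'⟩
  · rintro ⟨d, e⟩ h
    simp only [mem_sigma, mem_Ioc, Nat.mem_divisors] at h
    simp only [Nat.div_mul_cancel h.2.1]
  · rintro ⟨f, e⟩ h
    simp only [mem_sigma, mem_Ioc] at h
    simp only [Nat.mul_div_cancel _ h.2.1]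
  · rintro ⟨d, e⟩ _
    rfl

theorem phi_div {e : ℕ} (he : 0 < e) :
    (φ e : ℝ) / e = ∑ x ∈ e.divisors, (μ (e / x) : ℝ) / ((e / x : ℕ) : ℝ) := by
  have h := (ArithmeticFunction.sum_eq_iff_sum_mul_moebius_eq (R := ℝ) (f := fun n => (φ n : ℝ))
    (g := fun n => (n : ℝ))).1 (fun n _ => by exact_mod_cast Nat.sum_totient n) e he
  rw [← h, Nat.sum_divisorsAntidiagonal' (f := fun x y => (μ x : ℝ) * (y : ℝ)), sum_div]
  refine sum_congr rfl fun x hx => ?_
  obtain ⟨f, rfl⟩ := Nat.dvd_of_mem_divisors hx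
  have hx0 : 0 < x := Nat.pos_of_mul_pos_right he
  have hf : 0 < f := Nat.pos_of_mul_pos_left he
  rw [Nat.mul_div_cancel_left _ hx0]
  push_cast
  field_simp

theorem count_eq {η θ : ℝ} (hη : η < 1 / 2) {e : ℕ} (he : 0 < e) :
    ((range e).filter fun b : ℕ => dZ (θ - (b : ℝ) / e) ≤ η).card = cnt θ η e := by
  have he' : (0 : ℝ) < e := by exact_mod_cast he
  have heZ : (0 : ℤ) < e := by exact_mod_cast he
  have key : ∀ (b : ℕ) (r : ℤ), (b + e * r : ℤ) ∈ Icc ⌈(θ - η) * e⌉ ⌊(θ + η) * e⌋ ↔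
      |θ - (b : ℝ) / e - r| ≤ η := by
    intro b r
    have e1 : θ - (b : ℝ) / e - r = (θ * e - (b + e * r)) / e := by field_simp; ring
    rw [mem_Icc, Int.ceil_le, Int.le_floor, e1, abs_div, abs_of_pos he', div_le_iff₀ he', abs_le]
    push_cast
    constructor <;> rintro ⟨h1, h2⟩ <;> constructor <;> linarith
  refine card_bij (fun b _ => (b : ℤ) + e * round (θ - (b : ℝ) / e)) ?_ ?_ ?_
  · intro b hb
    exact (key b _).2 (mem_filter.1 hb).2
  · intro a ha b hb h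
    have ha' : a < e := mem_range.1 (mem_filter.1 ha).1
    have hb' : b < e := mem_range.1 (mem_filter.1 hb).1
    have := congrArg (· % (e : ℤ)) h
    simp only [Int.add_mul_emod_self_left] at this
    rw [Int.emod_eq_of_lt (by omega) (by omega), Int.emod_eq_of_lt (by omega) (by omega)] at this
    exact_mod_cast this
  · intro m hm
    have h0 := Int.emod_nonneg m heZ.ne'
    have h1 := Int.emod_lt_of_pos m heZ
    obtain ⟨b, hb⟩ := Int.eq_ofNat_of_zero_le h0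
    have h2 : m = b + e * (m / e) := by rw [← hb]; exact (Int.emod_add_mul_ediv m e).symm
    rw [h2, key] at hm
    have h3 : round (θ - (b : ℝ) / e) = m / e := by
      rw [round_eq_iff]
      rw [abs_le] at hm
      constructor <;> linarith [hm.1, hm.2]
    refine ⟨b, mem_filter.2 ⟨mem_range.2 (by omega), ?_⟩, by rw [h3, ← h2]⟩
    rw [dZ, h3]; exact hm

theorem sum_nB (hR : StmtRed) {η θ : ℝ} (hη : η < 1 / 2) {e : ℕ} (he : 0 < e) :
    ∑ q ∈ e.divisors, (nB q η θ : ℝ) = cnt θ η e := by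
  have h := hR (fun x => if dZ (θ - x) ≤ η then 1 else 0) e he
  rw [← count_eq hη he, card_filter]
  push_cast
  rw [h]
  refine sum_congr rfl fun q _ => ?_
  rw [nB, nS, card_filter]
  push_cast
  rfl

theorem step1 (hR : StmtRed) (Q₁ Q : ℕ) {η θ : ℝ} (hη : η < 1 / 2) :
    ∑ q ∈ Icc 1 Q, cq Q₁ Q q * nB q η θ - 2 * η * ∑ d ∈ Ioc Q₁ Q, phiS d =
      ∑ d ∈ Ioc Q₁ Q, ∑ e ∈ d.divisors,
        (μ (d / e) : ℝ) * ((φ e : ℝ) / e * (cnt θ η e - 2 * η * e)) := by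
  simp only [cq, cc, sum_filter, sum_mul, phiS, mul_sum]
  rw [sum_comm, ← sum_sub_distrib]
  refine sum_congr rfl fun d hd => ?_
  have h1 : ∀ q ∈ Icc 1 Q, (if q ∣ d then ∑ e ∈ d.divisors,
      if q ∣ e then (μ (d / e) : ℝ) * ((φ e : ℝ) / e) else 0 else 0) * (nB q η θ : ℝ) =
      ∑ e ∈ d.divisors, (μ (d / e) : ℝ) * ((φ e : ℝ) / e) * if q ∣ e then (nB q η θ : ℝ) else 0 := by
    intro q _
    split_ifs with h
    · rw [sum_mul]
      refine sum_congr rfl fun e _ => ?_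
      split_ifs <;> simp
    · rw [zero_mul]
      refine (sum_eq_zero fun e he => ?_).symm
      rw [if_neg fun h' => h (h'.trans (Nat.dvd_of_mem_divisors he)), mul_zero]
  rw [sum_congr rfl h1, sum_comm, ← sum_sub_distrib]
  refine sum_congr rfl fun e he => ?_
  have he0 : 0 < e := Nat.pos_of_mem_divisors he
  have he1 : e ≤ Q := (Nat.divisor_le he).trans (mem_Ioc.1 hd).2
  have h2 : (Icc 1 Q).filter (· ∣ e) = e.divisors := by
    ext q
    simp only [mem_filter, mem_Icc, Nat.mem_divisors]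
    exact ⟨fun h => ⟨h.2, he0.ne'⟩, fun h => ⟨⟨Nat.pos_of_dvd_of_pos h.1 he0,
      (Nat.le_of_dvd he0 h.1).trans he1⟩, h.1⟩⟩
  rw [← mul_sum, ← sum_filter, h2, sum_nB hR hη he0]
  have : (e : ℝ) ≠ 0 := by exact_mod_cast he0.ne'
  field_simp

theorem step2 (h : ℕ → ℝ) (X : ℕ) :
    ∑ d ∈ Ioc 0 X, ∑ e ∈ d.divisors, (μ (d / e) : ℝ) * ((φ e : ℝ) / e * h e) =
      ∑ f ∈ Ioc 0 X, (μ f : ℝ) * ∑ g ∈ Ioc 0 (X / f), (μ g : ℝ) / g *
        ∑ x ∈ Ioc 0 (X / f / g), h (g * x) := by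
  rw [hyper (fun f e => (μ f : ℝ) * ((φ e : ℝ) / e * h e))]
  refine sum_congr rfl fun f _ => ?_
  rw [← mul_sum]
  congr 1
  simp only [mul_sum]
  rw [← hyper (fun g x => (μ g : ℝ) / g * h (g * x))]
  refine sum_congr rfl fun e he => ?_
  rw [phi_div (mem_Ioc.1 he).1, sum_mul]
  refine sum_congr rfl fun x hx => ?_
  rw [Nat.div_mul_cancel (Nat.dvd_of_mem_divisors hx)]

theorem sum_id (Y : ℕ) : ∑ x ∈ Ioc 0 Y, (2 * x : ℝ) = Y ^ 2 + Y := by
  induction Y with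
  | zero => simp
  | succ Y ih => rw [sum_Ioc_succ_top (Nat.zero_le Y), ih]; push_cast; ring

theorem step3 (hT : StmtTri) {Q : ℕ} {η W θ : ℝ} (hQ : 1 ≤ Q) (hη : 0 < η) (hW : 0 < W)
    (hm : ∀ (a : ℤ) (k : ℕ), 1 ≤ k → W ≤ Q * (|k * θ - a| + k * η)) {g : ℕ} (hg : 0 < g) (Y : ℕ) :
    |∑ x ∈ Ioc 0 Y, ((cnt θ η (g * x) : ℝ) - 2 * η * (g * x : ℕ))| ≤
      g * (Y * (20 * (√η + η + η * Q / W))) := by
  rcases Nat.eq_zero_or_pos Y with rfl | hY
  · simp
  have hg1 : (1 : ℝ) ≤ g := by exact_mod_cast hg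
  have hY' : (0 : ℝ) < Y := by exact_mod_cast hY
  have hQ' : (0 : ℝ) < Q := by exact_mod_cast hQ
  set ε : ℝ := g * η with hε
  have hε0 : 0 < ε := by positivity
  have hs : 0 < √ε := Real.sqrt_pos.2 hε0
  have hss : √ε * √ε = ε := Real.mul_self_sqrt hε0.le
  obtain ⟨r, hr1, hr2⟩ := Real.exists_rat_abs_sub_le_and_den_le (g * θ) (n := ⌈(√ε)⁻¹⌉₊)
    (Nat.ceil_pos.2 (by positivity))
  have hk : (0 : ℝ) < r.den := by exact_mod_cast r.pos
  have hn1 : (√ε)⁻¹ ≤ ⌈(√ε)⁻¹⌉₊ := Nat.le_ceil _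
  have hn2 : (⌈(√ε)⁻¹⌉₊ : ℝ) < (√ε)⁻¹ + 1 := Nat.ceil_lt_add_one (by positivity)
  have ha : |(r.den : ℝ) * (g * θ) - r.num| ≤ √ε := by
    have e : (r.den : ℝ) * (g * θ) - r.num = r.den * (g * θ - r) := by
      rw [Rat.cast_def]; field_simp
    rw [e, abs_mul, abs_of_pos hk]
    calc (r.den : ℝ) * |g * θ - r| ≤ r.den * (1 / ((⌈(√ε)⁻¹⌉₊ + 1) * r.den)) := by gcongr
      _ = 1 / (⌈(√ε)⁻¹⌉₊ + 1) := by field_simp
      _ ≤ 1 / (√ε)⁻¹ := one_div_le_one_div_of_le (by positivity) (by linarith)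
      _ = √ε := by simp
  have hb : (r.den : ℝ) * ε ≤ √ε + ε := by
    have h1 : (r.den : ℝ) ≤ (√ε)⁻¹ + 1 := le_trans (by exact_mod_cast hr2) hn2.le
    calc (r.den : ℝ) * ε ≤ ((√ε)⁻¹ + 1) * ε := by gcongr
      _ = √ε + ε := by
        rw [add_mul, one_mul, add_left_inj, inv_mul_eq_iff_eq_mul₀ hs.ne', hss]
  have hlow := hm r.num (r.den * g) (Nat.mul_pos r.pos hg)
  have htri := hT (g * θ) ε Y r.num r.den hε0 hY' r.pos
    (Int.isCoprime_iff_gcd_eq_one.2 (by simpa [Int.gcd] using r.reduced))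
  rw [Nat.floor_natCast] at htri
  push_cast at hlow
  rw [mul_assoc, mul_assoc, ← hε] at hlow
  set v : ℝ := |(r.den : ℝ) * (g * θ) - r.num| + r.den * ε with hv
  have hv0 : 0 < v := by positivity
  have h1 : ε * Y ^ 2 / (Y * v) ≤ Y * (ε * Q / W) := by
    have e : ε * Y ^ 2 / (Y * v) = Y * (ε / v) := by field_simp
    rw [e]
    refine mul_le_mul_of_nonneg_left ?_ hY'.le
    rw [div_le_div_iff₀ hv0 hW, mul_assoc ε Q v]
    exact mul_le_mul_of_nonneg_left hlow hε0.le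
  have h2 : √ε ≤ g * √η := by
    rw [hε, Real.sqrt_mul (by positivity)]
    gcongr
    rw [Real.sqrt_le_left (by positivity)]
    nlinarith
  have e : ∑ x ∈ Ioc 0 Y, ((cnt θ η (g * x) : ℝ) - 2 * η * (g * x : ℕ)) =
      (∑ x ∈ Icc 1 Y, (cnt (g * θ) ε x : ℝ) - ε * Y ^ 2) - ε * Y := by
    have e1 : ∀ x : ℕ, cnt θ η (g * x) = cnt (g * θ) ε x := by
      intro x
      simp only [cnt, hε]
      push_cast
      congr 3 <;> ring
    have e2 : Icc 1 Y = Ioc 0 Y := rfl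
    rw [sum_sub_distrib, e2, sub_sub, ← mul_add, ← sum_id, mul_sum]
    congr 1
    · exact sum_congr rfl fun x _ => by rw [e1]
    · exact sum_congr rfl fun x _ => by rw [hε]; push_cast; ring
  rw [e]
  refine (abs_sub _ _).trans ?_
  rw [abs_of_pos (mul_pos hε0 hY')]
  have h3 : Y * v ≤ Y * (2 * (g * √η) + ε) := by gcongr; linarith
  have h4 : 0 ≤ Y * (ε * Q / W) := by positivity
  have h5 : 0 ≤ Y * ε := by positivity
  have e3 : (g : ℝ) * (Y * (20 * (√η + η + η * Q / W))) =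
      20 * (Y * (g * √η)) + 20 * (Y * ε) + 20 * (Y * (ε * Q / W)) := by rw [hε]; ring
  rw [e3]
  linarith

theorem harm {X Q : ℕ} (h : X ≤ Q) : ∑ f ∈ Ioc 0 X, (f : ℝ)⁻¹ ≤ 1 + Real.log Q := by
  have h1 := harmonic_le_one_add_log Q
  simp only [harmonic_eq_sum_Icc, Rat.cast_sum, Rat.cast_inv, Rat.cast_natCast] at h1
  exact (sum_le_sum_of_subset_of_nonneg (Ioc_subset_Ioc_right h)
    fun _ _ _ => by positivity).trans h1

theorem abs_mu (n : ℕ) : |(μ n : ℝ)| ≤ 1 := by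
  exact_mod_cast ArithmeticFunction.abs_moebius_le_one

theorem bound {h : ℕ → ℝ} {K : ℝ} (hK : 0 ≤ K)
    (hh : ∀ g, 0 < g → ∀ Y : ℕ, |∑ x ∈ Ioc 0 Y, h (g * x)| ≤ g * (Y * K)) {X Q : ℕ} (hX : X ≤ Q) :
    |∑ d ∈ Ioc 0 X, ∑ e ∈ d.divisors, (μ (d / e) : ℝ) * ((φ e : ℝ) / e * h e)| ≤
      (1 + Real.log Q) ^ 2 * (Q * K) := by
  have hL : 0 ≤ 1 + Real.log Q := by have := Real.log_natCast_nonneg Q; linarith
  have inner : ∀ Y : ℕ, Y ≤ Q → |∑ g ∈ Ioc 0 Y, (μ g : ℝ) / g * ∑ x ∈ Ioc 0 (Y / g), h (g * x)| ≤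
      (1 + Real.log Q) * (Y * K) := by
    intro Y hY
    refine (abs_sum_le_sum_abs _ _).trans (le_trans (sum_le_sum (g := fun g : ℕ =>
      (g : ℝ)⁻¹ * (Y * K)) fun g hg => ?_) ?_)
    · have hg0 : 0 < g := (mem_Ioc.1 hg).1
      have hg' : (0 : ℝ) < g := by exact_mod_cast hg0
      rw [abs_mul, abs_div, abs_of_pos hg']
      calc |(μ g : ℝ)| / g * |∑ x ∈ Ioc 0 (Y / g), h (g * x)|
          ≤ 1 / g * (g * ((Y / g : ℕ) * K)) := by
            gcongr
            · exact abs_mu g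
            · exact hh g hg0 _
        _ ≤ 1 / g * (g * ((Y / g : ℝ) * K)) := by gcongr; exact Nat.cast_div_le
        _ = (g : ℝ)⁻¹ * (Y * K) := by field_simp
    · rw [← sum_mul]
      gcongr
      exact harm hY
  rw [step2]
  refine (abs_sum_le_sum_abs _ _).trans (le_trans (sum_le_sum (g := fun f : ℕ =>
    (f : ℝ)⁻¹ * ((1 + Real.log Q) * (Q * K))) fun f hf => ?_) ?_)
  · have hf' : (0 : ℝ) < f := by exact_mod_cast (mem_Ioc.1 hf).1
    rw [abs_mul]
    calc _ ≤ 1 * ((1 + Real.log Q) * ((X / f : ℕ) * K)) :=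
          mul_le_mul (abs_mu f) (inner _ ((Nat.div_le_self _ _).trans hX)) (abs_nonneg _) one_pos.le
      _ ≤ 1 * ((1 + Real.log Q) * ((Q / f : ℝ) * K)) := by
          gcongr
          exact Nat.cast_div_le.trans (by gcongr)
      _ = _ := by field_simp
  · rw [← sum_mul, pow_two, mul_assoc]
    gcongr
    exact harm hX

end Q_Minor

open Q_Minor in
theorem stmtMinor (hR : StmtRed) (hT : StmtTri) : StmtMinor := by
  refine ⟨40, by norm_num, fun Q₁ Q η W θ hQ hQ₁ hη hη' hW hm => ?_⟩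
  rw [step1 hR Q₁ Q hη']
  have hb := fun X (hX : X ≤ Q) => bound (h := fun e => (cnt θ η e : ℝ) - 2 * η * e)
    (K := 20 * (√η + η + η * Q / W)) (by positivity)
    (fun g hg Y => step3 hT hQ hη hW hm hg Y) hX
  have e := sum_Ioc_consecutive (fun d => ∑ e ∈ d.divisors,
    (μ (d / e) : ℝ) * ((φ e : ℝ) / e * (cnt θ η e - 2 * η * e))) (Nat.zero_le Q₁) hQ₁
  rw [eq_sub_of_add_eq' e]
  refine (abs_sub _ _).trans ((add_le_add (hb Q le_rfl) (hb Q₁ hQ₁)).trans (le_of_eq ?_))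
  ring

end Pool.Agent.MP_f259ea_nt.Q

end

section

set_option autoImplicit false

open Complex MeasureTheory Finset
open scoped Real ComplexConjugate Classical ArithmeticFunction.Moebius
  ArithmeticFunction.vonMangoldt Nat

namespace Pool.Agent.MP_f259ea_nt.Q

namespace Q_Orth

open DirichletCharacter

lemma fiber {e d : ℕ} [NeZero e] (hd : d ∣ e) (F : DirichletCharacter ℂ e → ℂ) :
    ∑ ψ ∈ prim d, F (changeLevel hd ψ)
      = ∑ χ ∈ (univ : Finset (DirichletCharacter ℂ e)) with χ.conductor = d, F χ := by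
  refine Finset.sum_bij (fun ψ _ => changeLevel hd ψ) (fun ψ hψ => ?_)
    (fun ψ _ ψ' _ h => changeLevel_injective hd h) (fun χ hχ => ?_) (fun _ _ => rfl)
  · simp only [prim, mem_filter, mem_univ, true_and] at hψ ⊢
    rw [conductor_changeLevel]; exact hψ
  · simp only [mem_filter, mem_univ, true_and] at hχ
    subst hχ
    exact ⟨χ.primitiveCharacter, by
      simpa [prim] using primitiveCharacter_isPrimitive χ, changeLevel_primitiveCharacter χ⟩

/-- The kernel of the primitive characters modulo `d`. -/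
noncomputable def kap (d m n : ℕ) : ℂ := ∑ χ ∈ prim d, χ (m : ZMod d) * conj (χ (n : ZMod d))

lemma orth (e m n : ℕ) (he : 1 ≤ e) (hm : Nat.Coprime m e) (hn : Nat.Coprime n e) :
    ∑ d ∈ e.divisors, kap d m n = if m ≡ n [MOD e] then (φ e : ℂ) else 0 := by
  have : NeZero e := ⟨by omega⟩
  have hu : IsUnit (n : ZMod e) := (ZMod.isUnit_iff_coprime n e).2 hn
  have h1 := sum_char_inv_mul_char_eq ℂ hu (m : ZMod e)
  have h2 : ∀ χ : DirichletCharacter ℂ e,
      χ (n : ZMod e)⁻¹ * χ (m : ZMod e) = χ (m : ZMod e) * conj (χ (n : ZMod e)) := fun χ => by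
    have h3 := MulChar.star_apply' χ (n : ZMod e)
    rw [RCLike.star_def, MulChar.inv_apply_eq_inv'] at h3
    have h4 : χ (n : ZMod e)⁻¹ * χ (n : ZMod e) = 1 := by
      rw [← map_mul, ZMod.inv_mul_of_unit _ hu, map_one]
    rw [h3, mul_comm, eq_inv_of_mul_eq_one_left h4]
  simp only [h2, ZMod.natCast_eq_natCast_iff] at h1
  have h5 : (if m ≡ n [MOD e] then (φ e : ℂ) else 0) = if n ≡ m [MOD e] then (φ e : ℂ) else 0 :=
    if_congr Nat.ModEq.comm rfl rfl
  rw [h5, ← h1, ← Finset.sum_fiberwise_of_maps_to (s := univ) (t := e.divisors)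
    (g := fun χ : DirichletCharacter ℂ e => χ.conductor)
    (fun χ _ => Nat.mem_divisors.2 ⟨χ.conductor_dvd_level, NeZero.ne e⟩)]
  refine sum_congr rfl fun d hd => ?_
  have hde := Nat.dvd_of_mem_divisors hd
  rw [← fiber hde, kap]
  refine sum_congr rfl fun ψ _ => ?_
  have h6 := changeLevel_eq_cast_of_dvd' ψ hde (Nat.isCoprime_iff_coprime.2 hm)
  have h7 := changeLevel_eq_cast_of_dvd' ψ hde (Nat.isCoprime_iff_coprime.2 hn)
  simp only [Int.cast_natCast] at h6 h7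
  rw [h6, h7]

lemma kap_eq {d m n : ℕ} (hd : 1 ≤ d) (hm : Nat.Coprime m d) (hn : Nat.Coprime n d) :
    kap d m n = ∑ e ∈ d.divisors,
      (μ (d / e) : ℂ) * if m ≡ n [MOD e] then (φ e : ℂ) else 0 := by
  have h := (ArithmeticFunction.sum_eq_iff_sum_mul_moebius_eq_on (R := ℂ)
    (f := fun d => kap d m n) (g := fun e => if m ≡ n [MOD e] then (φ e : ℂ) else 0)
    {e | Nat.Coprime m e ∧ Nat.Coprime n e}
    (fun a b hab hb => ⟨hb.1.coprime_dvd_right hab, hb.2.coprime_dvd_right hab⟩)).1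
    (fun e he h => orth e m n he h.1 h.2) d hd ⟨hm, hn⟩
  rw [← h]
  exact Nat.sum_divisorsAntidiagonal'
    (fun a e => (μ a : ℂ) * if m ≡ n [MOD e] then (φ e : ℂ) else 0)

lemma card_eq {d : ℕ} (hd : 1 ≤ d) : ((prim d).card : ℝ) = phiS d := by
  have h := kap_eq hd (Nat.coprime_one_left d) (Nat.coprime_one_left d)
  simp only [kap, Nat.cast_one, map_one, mul_one, sum_const, nsmul_eq_mul, Nat.ModEq.refl,
    if_true] at h
  rw [phiS]
  exact_mod_cast h

lemma card_le {d : ℕ} (hd : 1 ≤ d) : (prim d).card ≤ d := by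
  have : NeZero d := ⟨by omega⟩
  refine (card_le_univ _).trans ?_
  rw [← Nat.card_eq_fintype_card, card_eq_totient_of_hasEnoughRootsOfUnity]
  exact Nat.totient_le d

lemma kap_diag (d m n : ℕ) : ‖kap d m n‖ ≤ (prim d).card := by
  refine (norm_sum_le_of_le _ (n := fun _ => (1 : ℝ)) fun χ _ => ?_).trans (by simp)
  rw [norm_mul, Complex.norm_conj]
  exact mul_le_one₀ (norm_le_one _ _) (norm_nonneg _) (norm_le_one _ _)

lemma kap_off {d : ℕ} (hd : 1 ≤ d) (m n : ℕ) :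
    ‖kap d m n‖ ≤ ∑ e ∈ d.divisors, if m ≡ n [MOD e] then (e : ℝ) else 0 := by
  by_cases h : Nat.Coprime m d ∧ Nat.Coprime n d
  · rw [kap_eq hd h.1 h.2]
    refine norm_sum_le_of_le _ fun e _ => ?_
    split_ifs
    · rw [norm_mul, Complex.norm_intCast, Complex.norm_natCast]
      have h1 : |((μ (d / e) : ℤ) : ℝ)| ≤ 1 := by
        exact_mod_cast ArithmeticFunction.abs_moebius_le_one
      have h2 : (φ e : ℝ) ≤ e := by exact_mod_cast Nat.totient_le e
      nlinarith [Nat.cast_nonneg (α := ℝ) (φ e)]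
    · simp
  · have h0 : kap d m n = 0 := by
      refine sum_eq_zero fun χ _ => ?_
      rcases not_and_or.1 h with h | h
      · rw [χ.map_nonunit (mt (ZMod.isUnit_iff_coprime m d).1 h), zero_mul]
      · rw [χ.map_nonunit (mt (ZMod.isUnit_iff_coprime n d).1 h), map_zero, mul_zero]
    rw [h0, norm_zero]
    exact sum_nonneg fun e _ => by positivity

lemma Ad_le (d N : ℕ) (a : ℕ → ℂ) :
    Ad d N a ≤ ∑ m ∈ Icc 1 N, ∑ n ∈ Icc 1 N, ‖a m‖ * ‖a n‖ * ‖kap d m n‖ := by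
  have h : (Ad d N a : ℂ) = ∑ m ∈ Icc 1 N, ∑ n ∈ Icc 1 N, a m * conj (a n) * kap d m n := by
    simp only [Ad, kap, ofReal_sum, ofReal_pow, ← Complex.mul_conj', map_sum, map_mul,
      sum_mul_sum]
    simp only [mul_sum]
    rw [sum_comm]
    refine sum_congr rfl fun m _ => ?_
    rw [sum_comm]
    exact sum_congr rfl fun n _ => sum_congr rfl fun χ _ => by ring
  refine (Real.le_norm_self _).trans ?_
  rw [← Complex.norm_real, h]
  refine norm_sum_le_of_le _ fun m _ => norm_sum_le_of_le _ fun n _ => ?_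
  rw [norm_mul, norm_mul, Complex.norm_conj]

/-- The number of moduli for which `m` and `n` are congruent. -/
noncomputable def tt (N m n : ℕ) : ℝ := ∑ e ∈ Icc 1 N, if m ≡ n [MOD e] then 1 else 0

lemma off_sum (Q₁ Q : ℕ) {N m n : ℕ} (hm : m ∈ Icc 1 N) (hn : n ∈ Icc 1 N) (hmn : m ≠ n) :
    ∑ d ∈ Ioc Q₁ Q, ‖kap d m n‖ ≤ Q * tt N m n := by
  rw [mem_Icc] at hm hn
  have h1 : ∀ d ∈ Ioc Q₁ Q, ‖kap d m n‖ ≤
      ∑ e ∈ Icc 1 N, if e ∣ d then (if m ≡ n [MOD e] then (e : ℝ) else 0) else 0 := by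
    intro d hd
    have hd1 : 1 ≤ d := by have := (mem_Ioc.1 hd).1; omega
    refine (kap_off hd1 m n).trans ?_
    rw [← sum_filter, ← sum_filter, ← sum_filter, filter_filter]
    refine sum_le_sum_of_subset_of_nonneg (fun e he => ?_) fun _ _ _ => Nat.cast_nonneg _
    simp only [mem_filter, Nat.mem_divisors, mem_Icc] at he ⊢
    refine ⟨⟨Nat.pos_of_dvd_of_pos he.1.1 hd1, ?_⟩, he.1.1, he.2⟩
    rcases lt_or_gt_of_ne hmn with h | h
    · have := Nat.le_of_dvd (by omega) ((Nat.modEq_iff_dvd' h.le).1 he.2)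
      omega
    · have := Nat.le_of_dvd (by omega) ((Nat.modEq_iff_dvd' h.le).1 he.2.symm)
      omega
  refine (sum_le_sum h1).trans ?_
  rw [sum_comm, tt, mul_sum]
  refine sum_le_sum fun e he => ?_
  rw [← sum_filter, sum_const, nsmul_eq_mul]
  split_ifs
  · have h2 : #{d ∈ Ioc Q₁ Q | e ∣ d} ≤ Q / e := by
      rw [← Nat.Ioc_filter_dvd_card_eq_div]
      exact card_le_card (filter_subset_filter _ (Ioc_subset_Ioc_left (Nat.zero_le _)))
    have h3 : #{d ∈ Ioc Q₁ Q | e ∣ d} * e ≤ Q :=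
      (Nat.mul_le_mul_right e h2).trans (Nat.div_mul_le_self Q e)
    rw [mul_one]
    exact_mod_cast h3
  · simp

lemma row_sum {N m : ℕ} (hm : m ∈ Icc 1 N) :
    ∑ n ∈ (Icc 1 N).erase m, tt N m n ≤ N * (1 + Real.log N) := by
  simp only [tt]
  rw [sum_comm]
  have h1 : ∀ e ∈ Icc 1 N, ∑ n ∈ (Icc 1 N).erase m, (if m ≡ n [MOD e] then (1 : ℝ) else 0)
      ≤ N * (e : ℝ)⁻¹ := by
    intro e _
    rw [sum_boole, filter_erase, card_erase_of_mem (mem_filter.2 ⟨hm, Nat.ModEq.refl m⟩)]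
    have h2 : #{n ∈ Icc 1 N | m ≡ n [MOD e]} ≤ (range (N / e + 1)).card := by
      refine card_le_card_of_injOn (fun n => n / e) (fun n hn => ?_) (fun n hn n' hn' h => ?_)
      · simp only [coe_filter, mem_Icc, Set.mem_ofPred_eq] at hn
        simp only [coe_range, Set.mem_Iio]
        exact Nat.lt_succ_of_le (Nat.div_le_div_right hn.1.2)
      · simp only [coe_filter, mem_Icc, Set.mem_ofPred_eq] at hn hn'
        have h3 : n % e = n' % e := hn.2.symm.trans hn'.2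
        have h4 : n / e = n' / e := h
        rw [← Nat.div_add_mod n e, ← Nat.div_add_mod n' e, h3, h4]
    rw [card_range] at h2
    have h3 : #{n ∈ Icc 1 N | m ≡ n [MOD e]} - 1 ≤ N / e := Nat.sub_le_of_le_add h2
    exact (Nat.cast_le.2 h3).trans Nat.cast_div_le
  refine (sum_le_sum h1).trans ?_
  rw [← mul_sum]
  refine mul_le_mul_of_nonneg_left ?_ (Nat.cast_nonneg _)
  have h := harmonic_le_one_add_log N
  rw [harmonic_eq_sum_Icc] at h
  simpa using h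

end Q_Orth

open Q_Orth

theorem stmtOrth : StmtOrth := by
  refine ⟨orth, fun d hd => ⟨card_eq hd, card_le hd⟩, fun N a => ?_⟩
  have h : prim 1 = {1} := by
    ext χ
    rw [DirichletCharacter.level_one χ]
    exact iff_of_true (mem_filter.2 ⟨mem_univ _, DirichletCharacter.isPrimitive_one_level_one⟩)
      (mem_singleton_self _)
  have h1 : ∀ n : ℕ, (1 : DirichletCharacter ℂ 1) (n : ZMod 1) = 1 := fun n =>
    MulChar.one_apply (isUnit_of_subsingleton _)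
  simp only [Ad, h, sum_singleton, h1, mul_one]

theorem stmtLS1 : StmtLS1 := by
  intro Q₁ Q N a
  set B : ℕ → ℕ → ℝ := fun m n => if m = n then famCard Q₁ Q else Q * tt N m n with hB
  have hsym : ∀ m n, B m n = B n m := fun m n => by
    simp only [hB, tt, eq_comm (a := m), Nat.ModEq.comm (a := m)]
  have hK : ∀ m ∈ Icc 1 N, ∀ n ∈ Icc 1 N, ∑ d ∈ Ioc Q₁ Q, ‖kap d m n‖ ≤ B m n := by
    intro m hm n hn
    simp only [hB]
    split_ifs with h
    · exact sum_le_sum fun d _ => kap_diag d m n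
    · exact off_sum Q₁ Q hm hn h
  have hrow : ∀ m ∈ Icc 1 N, ∑ n ∈ Icc 1 N, B m n
      ≤ famCard Q₁ Q + Q * N * (1 + Real.log N) := by
    intro m hm
    rw [← add_sum_erase _ _ hm, sum_congr rfl (g := fun n => Q * tt N m n)
      fun n hn => if_neg (ne_of_mem_erase hn).symm, ← mul_sum, mul_assoc]
    simp only [hB, if_true]
    gcongr
    exact row_sum hm
  calc famSum Q₁ Q N a
      ≤ ∑ d ∈ Ioc Q₁ Q, ∑ m ∈ Icc 1 N, ∑ n ∈ Icc 1 N, ‖a m‖ * ‖a n‖ * ‖kap d m n‖ :=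
        sum_le_sum fun d _ => Ad_le d N a
    _ = ∑ m ∈ Icc 1 N, ∑ n ∈ Icc 1 N, ‖a m‖ * ‖a n‖ * ∑ d ∈ Ioc Q₁ Q, ‖kap d m n‖ := by
        rw [sum_comm]
        refine sum_congr rfl fun m _ => ?_
        rw [sum_comm]
        simp only [mul_sum]
    _ ≤ ∑ m ∈ Icc 1 N, ∑ n ∈ Icc 1 N, (‖a m‖ ^ 2 * B m n / 2 + ‖a n‖ ^ 2 * B n m / 2) := by
        refine sum_le_sum fun m hm => sum_le_sum fun n hn => ?_
        have h1 := hK m hm n hn
        have h2 : 0 ≤ ∑ d ∈ Ioc Q₁ Q, ‖kap d m n‖ := sum_nonneg fun _ _ => norm_nonneg _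
        rw [← hsym m n]
        have h3 : ‖a m‖ * ‖a n‖ ≤ (‖a m‖ ^ 2 + ‖a n‖ ^ 2) / 2 := by
          nlinarith [sq_nonneg (‖a m‖ - ‖a n‖)]
        calc _ ≤ (‖a m‖ ^ 2 + ‖a n‖ ^ 2) / 2 * B m n := mul_le_mul h3 h1 h2 (by positivity)
          _ = _ := by ring
    _ = ∑ m ∈ Icc 1 N, ‖a m‖ ^ 2 * ∑ n ∈ Icc 1 N, B m n := by
        simp only [sum_add_distrib]
        rw [sum_comm (f := fun m n => ‖a n‖ ^ 2 * B n m / 2), ← sum_add_distrib]
        refine sum_congr rfl fun m _ => ?_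
        rw [← sum_add_distrib, mul_sum]
        exact sum_congr rfl fun n _ => by ring
    _ ≤ ∑ m ∈ Icc 1 N, ‖a m‖ ^ 2 * (famCard Q₁ Q + Q * N * (1 + Real.log N)) :=
        sum_le_sum fun m hm => mul_le_mul_of_nonneg_left (hrow m hm) (sq_nonneg _)
    _ = _ := by rw [← sum_mul, mul_comm, nrm]

end Pool.Agent.MP_f259ea_nt.Q

end

section

/-!
The finite inequality for simple real points.
-/

set_option autoImplicit false

open Finset Complex Matrix
open scoped Real ComplexConjugate ComplexOrder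

namespace Pool.Agent.MP_f259ea_nt.Q

namespace Simple

open B

variable {n : Type*} [Fintype n] [DecidableEq n]

lemma abs0 {r : Type*} [Fintype r] [DecidableEq r] (V : Matrix n r ℂ) {Q : Matrix n n ℂ}
    (hQ : Q.IsHermitian) {J : Type*} [Fintype J] (u : J → n → ℂ)
    (hu : (∑ j, vecMulVec (u j) (star (u j)) - Q).PosSemidef) :
    2 * tr (V * Vᴴ) - Fintype.card r + 4 * tr Q - 4 * Fintype.card J
      ≤ ip (V * Vᴴ + Q) (V * Vᴴ + Q) := by
  have h := main_abs (C := dm fun (_ : Fin 0) (_ : n) => (0 : ℝ)) (ν := 0) (σ := 2) (τ := 2)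
    (dm_herm _) (dm_le _ fun _ => by simp) (by norm_num) (by norm_num) (by norm_num)
    (by norm_num) V (Vᴴ * V - 1) ((isHermitian_conjTranspose_mul_self V).sub isHermitian_one)
    (by
      convert (PosSemidef.one : (1 : Matrix r r ℂ).PosSemidef) using 1
      rw [Complex.ofReal_ofNat, two_smul]
      abel) PosSemidef.zero hQ u hu
  have e0 : ∀ X : Matrix n n ℂ, Bf (dm fun (_ : Fin 0) (_ : n) => (0 : ℝ)) X X = ip X X :=
    fun X => by simp [Bf, Nm, ip]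
  have e1 : ip (V * Vᴴ) (V * Vᴴ) = ip (Vᴴ * V) (Vᴴ * V) := by
    unfold ip
    rw [Matrix.mul_assoc, trace_mul_comm]
    simp only [Matrix.mul_assoc]
  have e2 : tr (Vᴴ * V) = tr (V * Vᴴ) := by
    unfold tr
    rw [trace_mul_comm]
  have e3 : tr (1 : Matrix r r ℂ) = Fintype.card r := by simp [tr]
  rw [e0, e0, add_zero, ip_sub_left, ip_sub_right, ip_sub_right, ip_comm 1 (Vᴴ * V), ip_one_right,
    ip_one_right, e1, e2, e3] at h
  linarith

omit [DecidableEq n] in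
lemma tr_sum {ι : Type*} (s : Finset ι) (F : ι → Matrix n n ℂ) :
    tr (∑ j ∈ s, F j) = ∑ j ∈ s, tr (F j) := by
  unfold tr
  rw [trace_sum, Complex.re_sum]

end Simple

open B Simple in
theorem stmtSMain : StmtSMain := by
  classical
  intro d hd hJ
  refine ⟨4, fun Z₀ Z₁ m c hZ₀ hZ₁ => ?_⟩
  set Z := Z₀ ∪ Z₁ with hZ
  have hZc : ∀ x ∈ Z, conj x ∈ Z := by
    intro x hx
    rcases mem_union.mp hx with h' | h'
    · exact mem_union_left _ (hZ₀ x h').1
    · exact mem_union_right _ (hZ₁ x h').1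
  obtain ⟨v, hgram, hint⟩ := BData.model_gen hd Z hZc
  have hone : ∀ x ∈ Z, star (v (conj x)) ⬝ᵥ v x = 1 := by
    intro x hx
    have h := hgram x hx _ (hZc x hx)
    rw [Complex.conj_conj, sub_self, ft_zero, hd.ψ_sum, Complex.ofReal_one] at h
    rw [← h, dotProduct]
    exact Finset.sum_congr rfl fun α _ => by simp [mul_comm]
  have hip : ∀ c' : ℂ → ℂ, (op v Z c').IsHermitian → ip (op v Z c') (op v Z c')
      = ∫ a in (-1 : ℝ)..1, d.K a * ‖mu Z c' a‖ ^ 2 := by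
    intro c' hh
    rw [ip_herm hh, hint c']
    refine Finset.sum_congr rfl fun α _ => Finset.sum_congr rfl fun β _ => ?_
    rw [Finset.sum_eq_zero fun (s : Fin d.J) _ => absurd s.2 (by omega), op_apply, sub_zero,
      one_mul]
  have hZ0 : Z₀ ⊆ Z := subset_union_left
  have hZ1 : Z₁ ⊆ Z := subset_union_right
  have htrp : ∀ z ∈ Z, ∀ c' : ℂ,
      tr (c' • rk (v z) (v (conj z)) + conj c' • rk (v (conj z)) (v z)) = 2 * c'.re := by
    intro z hz c'
    have h2 := hone _ (hZc z hz)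
    rw [Complex.conj_conj] at h2
    unfold tr
    rw [trace_add, trace_smul, trace_smul, trace_rk, trace_rk, hone z hz, h2]
    simp; ring
  set R := Z₀.filter (fun z => z.im = 0) with hRdef
  set Zp := Z₀.filter (fun z => 0 < z.im) with hZp
  set R1 := Z₀.filter (fun z => z.im = 0 ∧ m z = 1) with hR1
  set R2 := R.filter (fun z => ¬ m z = 1) with hR2
  have hR1' : R1 = R.filter fun z => m z = 1 := by rw [hR1, hRdef, filter_filter]
  have hv1 : ∀ z ∈ R, star (v z) ⬝ᵥ v z = 1 := by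
    intro z hz
    have h := hone z (hZ0 (mem_filter.mp hz).1)
    rwa [Complex.conj_eq_iff_im.mpr (mem_filter.mp hz).2] at h
  have hs1 : R1 ⊆ R := hR1' ▸ filter_subset _ _
  have hm1 : ∀ z ∈ R1, m z = 1 := fun z hz => (mem_filter.mp hz).2.2
  set V : Matrix (Fin d.n × Z) R1 ℂ := Matrix.of fun α z => v z α with hV
  have hVV : V * Vᴴ = opR v R1 m := by
    ext α β
    rw [mul_apply, opR, Matrix.sum_apply, ← Finset.sum_coe_sort R1]
    refine Finset.sum_congr rfl fun z _ => ?_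
    simp [hV, rk_apply, hm1 z z.2]
  set T : ℂ → ℂ → Matrix (Fin d.n × Z) (Fin d.n × Z) ℂ :=
    fun c' z => c' • rk (v z) (v (conj z)) + conj c' • rk (v (conj z)) (v z) with hT
  set y : ℂ → ℂ → Fin d.n × Z → ℂ := fun c' z => c' • v z + v (conj z) with hy
  set w : ℂ → Fin d.n × Z → ℂ := fun z => ((√(m z) : ℝ) : ℂ) • v z with hw
  have hww : ∑ z ∈ R2, rk (w z) (w z) = opR v R2 m := by
    refine Finset.sum_congr rfl fun z _ => ?_
    ext α β
    conv_rhs => rw [← Real.mul_self_sqrt (Nat.cast_nonneg (m z))]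
    simp only [hw, rk_apply, Pi.smul_apply, Matrix.smul_apply, smul_eq_mul, map_mul,
      Complex.conj_ofReal, Complex.ofReal_mul]
    ring
  set Q := opR v R2 m + (∑ z ∈ Zp, T (m z) z + ∑ z ∈ Z₁, T (c z / 2) z) with hQ
  have hQh : Q.IsHermitian := by
    refine (hww ▸ posSemidef_sum _ fun j _ => rk_psd (w j)).isHermitian.add
      (IsHermitian.add ?_ ?_)
    · unfold Matrix.IsHermitian
      rw [conjTranspose_sum]
      exact Finset.sum_congr rfl fun z _ => pair_herm _ _ _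
    · unfold Matrix.IsHermitian
      rw [conjTranspose_sum]
      exact Finset.sum_congr rfl fun z _ => pair_herm _ _ _
  let uu : R2 ⊕ (Zp ⊕ Z₁) → Fin d.n × Z → ℂ :=
    Sum.elim (fun z => w z) (Sum.elim (fun z => y (m z) z) (fun z => y (c z / 2) z))
  have hu : (∑ j, vecMulVec (uu j) (star (uu j)) - Q).PosSemidef := by
    have h1 : (∑ z ∈ Zp, (rk (y (m z) z) (y (m z) z) - T (m z) z)).PosSemidef :=
      posSemidef_sum _ fun z _ => pair_le _ _ _
    have h2 : (∑ z ∈ Z₁, (rk (y (c z / 2) z) (y (c z / 2) z) - T (c z / 2) z)).PosSemidef :=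
      posSemidef_sum _ fun z _ => pair_le _ _ _
    convert h1.add h2 using 1
    rw [Fintype.sum_sum_type, Fintype.sum_sum_type, Finset.sum_sub_distrib,
      Finset.sum_sub_distrib, hQ, ← hww]
    simp only [uu, Sum.elim_inl, Sum.elim_inr]
    rw [Finset.sum_coe_sort Zp (fun z => vecMulVec (y (m z) z) (star (y (m z) z))),
      Finset.sum_coe_sort Z₁ (fun z => vecMulVec (y (c z / 2) z) (star (y (c z / 2) z))),
      Finset.sum_coe_sort R2 (fun z => vecMulVec (w z) (star (w z)))]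
    unfold rk
    abel
  have hmain := abs0 V hQh uu hu
  have hop0 : op v Z₀ (fun z => (m z : ℂ))
      = opR v R1 m + opR v R2 m + ∑ z ∈ Zp, T (m z) z := by
    have e : opR v R1 m + opR v R2 m = opR v R m := by
      unfold opR
      rw [hR1', hR2, Finset.sum_filter_add_sum_filter_not]
    rw [e, ← op_real v (fun z hz => (mem_filter.mp hz).2) m]
    unfold op
    rw [sum_split (fun z hz => (hZ₀ z hz).1)]
    congr 1
    refine Finset.sum_congr rfl fun z hz => ?_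
    simp only [hT]
    rw [(hZ₀ z (mem_filter.mp hz).1).2.1, map_natCast, Complex.conj_conj]
  have hop1 : op v Z₁ c = ∑ z ∈ Z₁, T (c z / 2) z := by
    have e := sum_conj (fun z hz => (hZ₁ z hz).1) (fun z => (c z / 2) • rk (v z) (v (conj z)))
    simp only [hT]
    rw [Finset.sum_add_distrib]
    have e2 : ∑ z ∈ Z₁, conj (c z / 2) • rk (v (conj z)) (v z)
        = ∑ z ∈ Z₁, (c z / 2) • rk (v z) (v (conj z)) := by
      rw [← e]
      refine Finset.sum_congr rfl fun z hz => ?_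
      rw [(hZ₁ z hz).2, Complex.conj_conj, map_div₀, map_ofNat]
    rw [e2, ← Finset.sum_add_distrib]
    refine Finset.sum_congr rfl fun z _ => ?_
    rw [← add_smul, add_halves]
  set ct : ℂ → ℂ := fun z => (if z ∈ Z₀ then (m z : ℂ) else 0) + (if z ∈ Z₁ then c z else 0)
    with hct
  have hG : V * Vᴴ + Q = op v Z ct := by
    have : op v Z ct = op v Z₀ (fun z => (m z : ℂ)) + op v Z₁ c := by
      rw [← op_indicator v hZ0, ← op_indicator v hZ1]
      unfold op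
      simp only [hct, add_smul, Finset.sum_add_distrib]
    rw [this, hop0, hop1, hVV, hQ]; abel
  have hGh : (op v Z ct).IsHermitian := by
    rw [← hG]
    exact (posSemidef_self_mul_conjTranspose V).isHermitian.add hQh
  have hmu : ∀ a, mu Z ct a = mu Z₀ (fun x => (m x : ℂ)) a + mu Z₁ c a := by
    intro a
    rw [← mu_indicator hZ0, ← mu_indicator hZ1]
    unfold mu
    simp only [hct, add_mul, Finset.sum_add_distrib]
  rw [hG, hip ct hGh] at hmain
  simp only [hmu] at hmain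
  refine le_trans ?_ hmain
  have htrQ : tr Q
      = ∑ z ∈ R2, (m z : ℝ) + (∑ z ∈ Zp, 2 * (m z : ℝ) + ∑ z ∈ Z₁, (c z).re) := by
    rw [hQ, tr_add, tr_add, tr_sum, tr_sum, tr_opR v fun z hz => hv1 z (mem_filter.mp hz).1]
    congr 2
    · refine Finset.sum_congr rfl fun z hz => ?_
      rw [hT]; simp only []
      rw [htrp z (hZ0 (mem_filter.mp hz).1), Complex.natCast_re]
    · refine Finset.sum_congr rfl fun z hz => ?_
      rw [hT]; simp only []
      rw [htrp z (hZ1 hz)]; simp; ring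
  have hcard : (Fintype.card (R2 ⊕ (Zp ⊕ Z₁)) : ℝ) = R2.card + (Zp.card + Z₁.card) := by
    simp only [Fintype.card_sum, Fintype.card_coe, Nat.cast_add]
  have s0 : ∑ z ∈ R1, (m z : ℝ) = R1.card := by
    rw [Finset.sum_congr rfl fun x hx => by rw [hm1 x hx]]; simp
  have s1 : ∑ x ∈ Z₀, (m x : ℝ)
      = R1.card + ∑ z ∈ R2, (m z : ℝ) + 2 * ∑ z ∈ Zp, (m z : ℝ) := by
    rw [sum_split (fun z hz => (hZ₀ z hz).1), Finset.mul_sum, ← s0, hR1', hR2,
      Finset.sum_filter_add_sum_filter_not]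
    congr 1
    refine Finset.sum_congr rfl fun z hz => ?_
    rw [(hZ₀ z (mem_filter.mp hz).1).2.1]; ring
  have s2 : (R2.card : ℝ) * 2 ≤ ∑ z ∈ R2, (m z : ℝ) := by
    rw [← nsmul_eq_mul]
    refine Finset.card_nsmul_le_sum _ _ _ fun z hz => ?_
    have a1 := (hZ₀ z (mem_filter.mp (mem_filter.mp hz).1).1).2.2
    have a2 := (mem_filter.mp hz).2
    exact_mod_cast (by omega : 2 ≤ m z)
  have s4 : (Zp.card : ℝ) ≤ ∑ z ∈ Zp, (m z : ℝ) := by
    rw [Finset.card_eq_sum_ones]; push_cast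
    exact Finset.sum_le_sum fun z hz => by
      exact_mod_cast (hZ₀ z (mem_filter.mp hz).1).2.2
  have s5 : -∑ x ∈ Z₁, ‖c x‖ ≤ ∑ z ∈ Z₁, (c z).re := by
    rw [← Finset.sum_neg_distrib]
    exact Finset.sum_le_sum fun z _ => (abs_le.mp (Complex.abs_re_le_norm _)).1
  have s6 : ∑ x ∈ Z₁, (1 + ‖c x‖) = Z₁.card + ∑ x ∈ Z₁, ‖c x‖ := by
    rw [Finset.sum_add_distrib]; simp
  rw [htrQ, hcard, hVV, tr_opR v fun z hz => hv1 z (hs1 hz), s0, Fintype.card_coe,
    ← Finset.mul_sum, s1, s6]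
  linarith

end Pool.Agent.MP_f259ea_nt.Q

end

section

set_option autoImplicit false

open Complex MeasureTheory Finset
open scoped Real ComplexConjugate Classical

namespace Pool.Agent.MP_f259ea_nt.Q

namespace Unfold

lemma ee_add (x y : ℝ) : ee (x + y) = ee x * ee y := by
  unfold ee; rw [← Complex.exp_add]; congr 1; push_cast; ring

lemma conj_ee (x : ℝ) : conj (ee x) = ee (-x) := by
  unfold ee
  rw [← Complex.exp_conj]; congr 1
  simp only [map_mul, Complex.conj_ofReal, Complex.conj_I, map_ofNat]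
  push_cast; ring

lemma ee_int (n : ℤ) : ee n = 1 := by
  unfold ee
  rw [← Complex.exp_int_mul_two_pi_mul_I n]; congr 1; push_cast; ring

lemma continuous_ee : Continuous ee := by unfold ee; fun_prop

lemma int_ee (h : ℤ) : ∫ θ in (0 : ℝ)..1, ee (h * θ) = if h = 0 then 1 else 0 := by
  split_ifs with h0
  · simp [h0, ee]
  · have hc : (2 * π * I * h : ℂ) ≠ 0 := by
      simp [Real.pi_ne_zero, h0]
    have e : ∀ θ : ℝ, ee (h * θ) = Complex.exp (2 * π * I * h * θ) := fun θ => by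
      unfold ee; congr 1; push_cast; ring
    simp only [e]
    rw [integral_exp_mul_complex hc, ← e, ← e, mul_one, mul_zero, ee_int]
    simp [ee]

lemma continuous_Sx (N : ℕ) (a : ℕ → ℂ) : Continuous (Sx N a) := by
  unfold Sx
  exact continuous_finsetSum _ fun n _ => continuous_const.mul
    (continuous_ee.comp (continuous_const.mul continuous_id))

lemma periodic_Sx (N : ℕ) (a : ℕ → ℂ) : Function.Periodic (Sx N a) 1 := fun θ => by
  unfold Sx
  refine sum_congr rfl fun n _ => ?_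
  have := ee_int n
  rw [Int.cast_natCast] at this
  rw [mul_add, mul_one, ee_add, this, mul_one]

lemma inner (N : ℕ) (a g : ℕ → ℂ) :
    ∫ θ in (0 : ℝ)..1, Sx N a θ * conj (Sx N g θ) = ∑ n ∈ Icc 1 N, a n * conj (g n) := by
  have e : ∀ θ : ℝ, Sx N a θ * conj (Sx N g θ) = ∑ n ∈ Icc 1 N, ∑ m ∈ Icc 1 N,
      a n * conj (g m) * ee ((((n : ℤ) - m : ℤ) : ℝ) * θ) := fun θ => by
    unfold Sx
    rw [map_sum, sum_mul_sum]
    refine sum_congr rfl fun n _ => sum_congr rfl fun m _ => ?_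
    have : (((n : ℤ) - m : ℤ) : ℝ) * θ = n * θ + -(m * θ) := by push_cast; ring
    rw [map_mul, conj_ee, this, ee_add]; ring
  have c : ∀ n m : ℕ, Continuous fun θ : ℝ =>
      a n * conj (g m) * ee ((((n : ℤ) - m : ℤ) : ℝ) * θ) := fun n m =>
    continuous_const.mul (continuous_ee.comp (continuous_const.mul continuous_id))
  simp only [e]
  rw [intervalIntegral.integral_finsetSum fun n _ =>
    (continuous_finsetSum _ fun m _ => c n m).intervalIntegrable _ _]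
  refine sum_congr rfl fun n hn => ?_
  rw [intervalIntegral.integral_finsetSum fun m _ => (c n m).intervalIntegrable _ _]
  simp only [intervalIntegral.integral_const_mul, int_ee, sub_eq_zero, Nat.cast_inj, mul_ite,
    mul_one, mul_zero, sum_ite_eq, hn, if_true]

lemma parseval (N : ℕ) (a : ℕ → ℂ) : ∫ θ in (0 : ℝ)..1, ‖Sx N a θ‖ ^ 2 = nrm N a := by
  have h := inner N a a
  simp only [Complex.mul_conj, Complex.normSq_eq_norm_sq] at h
  rw [intervalIntegral.integral_ofReal] at h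
  unfold nrm
  exact_mod_cast h

lemma shift {E : Type*} [NormedAddCommGroup E] [NormedSpace ℝ E] {f : ℝ → E}
    (hf : Function.Periodic f 1) (t : ℝ) :
    ∫ x in t..t + 1, f x = ∫ x in (-(1 / 2) : ℝ)..(1 / 2), f x := by
  rw [hf.intervalIntegral_add_eq t (-(1 / 2))]; norm_num

lemma shift0 {E : Type*} [NormedAddCommGroup E] [NormedSpace ℝ E] {f : ℝ → E}
    (hf : Function.Periodic f 1) :
    ∫ x in (-(1 / 2) : ℝ)..(1 / 2), f x = ∫ x in (0 : ℝ)..1, f x := by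
  rw [← shift hf 0, zero_add]

lemma measurable_dZ : Measurable dZ := by
  unfold dZ
  simp only [round_eq]
  have h : Measurable fun x : ℝ => ((⌊x + 1 / 2⌋ : ℤ) : ℝ) :=
    (measurable_from_top (f := fun n : ℤ => (n : ℝ))).comp
      (Int.measurable_floor.comp (measurable_id.add_const _))
  exact (measurable_id.sub h).abs

lemma dZ_add_one (x : ℝ) : dZ (x + 1) = dZ x := by
  unfold dZ; rw [round_add_one]; push_cast; congr 1; ring

lemma dZ_eq {x : ℝ} (h1 : -(1 / 2) ≤ x) (h2 : x ≤ 1 / 2) : dZ x = |x| := by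
  unfold dZ
  rcases h2.lt_or_eq with h | rfl
  · rw [round_eq_zero_iff.2 ⟨h1, h⟩]; simp
  · rw [round_eq]; norm_num

lemma ind_int {s : Set ℝ} (hs : MeasurableSet s) {f : ℝ → ℝ} (hf : Measurable f) (a b : ℝ) :
    IntervalIntegrable (fun x => s.indicator (fun _ => (1 : ℝ)) (f x)) volume a b := by
  refine (intervalIntegrable_const (c := (1 : ℝ))).mono_fun'
    ((measurable_const.indicator hs).comp hf).aestronglyMeasurable
    (Filter.Eventually.of_forall fun x => ?_)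
  by_cases h : f x ∈ s <;> simp [h]

lemma nS_mul (k : ℕ) (s : Set ℝ) (G : ℝ → ℝ) (θ : ℝ) : (nS k s θ : ℝ) * G θ =
    ∑ b ∈ red k, s.indicator (fun _ => (1 : ℝ)) (dZ (θ - (b : ℝ) / k)) * G θ := by
  unfold nS
  rw [card_filter, Nat.cast_sum, sum_mul]
  refine sum_congr rfl fun b _ => ?_
  by_cases h : dZ (θ - (b : ℝ) / k) ∈ s <;> simp [h]

lemma cs {f g : ℝ → ℝ} (hf : Continuous f) (hg : Continuous g) {a b : ℝ} (hab : a ≤ b) :
    ∫ x in a..b, f x * g x ≤ √(∫ x in a..b, f x ^ 2) * √(∫ x in a..b, g x ^ 2) := by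
  have i1 : IntervalIntegrable (fun x => f x ^ 2) volume a b := (hf.pow 2).intervalIntegrable a b
  have i2 : IntervalIntegrable (fun x => g x ^ 2) volume a b := (hg.pow 2).intervalIntegrable a b
  have i3 : IntervalIntegrable (fun x => f x * g x) volume a b := (hf.mul hg).intervalIntegrable a b
  have h := discrim_le_zero (a := ∫ x in a..b, f x ^ 2) (b := 2 * ∫ x in a..b, f x * g x)
    (c := ∫ x in a..b, g x ^ 2) fun t => by
      have h0 : 0 ≤ ∫ x in a..b, (t * t * f x ^ 2 + 2 * t * (f x * g x) + g x ^ 2) :=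
        intervalIntegral.integral_nonneg hab fun x _ => by nlinarith [sq_nonneg (t * f x + g x)]
      rw [intervalIntegral.integral_add ((i1.const_mul _).add (i3.const_mul _)) i2,
        intervalIntegral.integral_add (i1.const_mul _) (i3.const_mul _),
        intervalIntegral.integral_const_mul, intervalIntegral.integral_const_mul] at h0
      linarith
  rw [← Real.sqrt_mul (intervalIntegral.integral_nonneg hab fun x _ => sq_nonneg _)]
  refine (le_abs_self _).trans (Real.abs_le_sqrt ?_)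
  rw [discrim] at h
  nlinarith

lemma sumIcc {M : Type*} [AddCommMonoid M] (f : ℕ → M) (N : ℕ) :
    ∑ n ∈ Icc 1 N, f n = ∑ m ∈ range N, f (m + 1) := by
  induction N with
  | zero => simp
  | succ N ih => rw [sum_Icc_succ_top (by omega), ih, sum_range_succ]

lemma Sx_diff (N : ℕ) (g : ℕ → ℂ) (h0 : g 0 = 0) (h1 : g (N + 1) = 0) (β : ℝ) :
    Sx (N + 1) (fun n => g n - g (n - 1)) β = (1 - ee β) * Sx N g β := by
  unfold Sx
  rw [sumIcc, sumIcc]
  simp only [Nat.add_sub_cancel, sub_mul, sum_sub_distrib, one_mul]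
  rw [sum_range_succ, h1, zero_mul, add_zero, sum_range_succ' (fun m => g m * _), h0, zero_mul,
    add_zero, mul_sum]
  congr 1
  refine sum_congr rfl fun m _ => ?_
  have : ((m + 1 + 1 : ℕ) : ℝ) * β = β + ((m + 1 : ℕ) : ℝ) * β := by push_cast; ring
  rw [this, ee_add]; ring

lemma norm_one_sub_ee {β : ℝ} (h : |β| ≤ 1 / 2) : 4 * |β| ≤ ‖1 - ee β‖ := by
  have e : ee β = Complex.exp (I * ((2 * π * β : ℝ) : ℂ)) := by
    unfold ee; congr 1; push_cast; ring
  have hp := Real.pi_pos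
  have h1 : |π * β| ≤ π / 2 := by
    rw [abs_mul, abs_of_pos hp]; nlinarith
  have h2 := Real.mul_abs_le_abs_sin h1
  rw [abs_mul, abs_of_pos hp, ← mul_assoc, div_mul_cancel₀ _ hp.ne'] at h2
  rw [norm_sub_rev, e, Complex.norm_exp_I_mul_ofReal_sub_one,
    show 2 * π * β / 2 = π * β by ring, Real.norm_eq_abs, abs_mul, abs_two]
  linarith

end Unfold

open Unfold

theorem stmtUnfold : StmtUnfold := by
  refine ⟨fun N a => ⟨continuous_Sx N a, periodic_Sx N a, parseval N a⟩, ?_⟩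
  intro k s G hs hG hp
  have i1 : ∀ b : ℕ, IntervalIntegrable (fun θ =>
      s.indicator (fun _ => (1 : ℝ)) (dZ (θ - (b : ℝ) / k)) * G θ) volume 0 1 := fun b =>
    (ind_int hs (measurable_dZ.comp (measurable_id.sub_const _)) 0 1).mul_continuousOn
      hG.continuousOn
  have c2 : ∀ b : ℕ, Continuous fun β : ℝ => G ((b : ℝ) / k + β) := fun b =>
    hG.comp (continuous_const.add continuous_id)
  have i2 := ind_int hs continuous_abs.measurable (-(1 / 2)) (1 / 2)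
  refine ⟨?_, i2.mul_continuousOn (continuous_finsetSum _ fun b _ => c2 b).continuousOn, ?_⟩
  · simp only [nS_mul]
    have := IntervalIntegrable.sum (red k) fun b _ => i1 b
    rw [Finset.sum_fn] at this
    exact this
  · simp only [nS_mul, mul_sum]
    rw [intervalIntegral.integral_finsetSum fun b _ => i1 b,
      intervalIntegral.integral_finsetSum fun b _ => i2.mul_continuousOn (c2 b).continuousOn]
    refine sum_congr rfl fun b _ => ?_
    have hper : Function.Periodic (fun β => s.indicator (fun _ => (1 : ℝ)) (dZ β) *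
        G ((b : ℝ) / k + β)) 1 := fun β => by
      simp only [dZ_add_one, ← add_assoc, hp _]
    have h1 := intervalIntegral.integral_comp_sub_right (a := 0) (b := 1)
      (fun β => s.indicator (fun _ => (1 : ℝ)) (dZ β) * G ((b : ℝ) / k + β)) ((b : ℝ) / k)
    simp only [add_sub_cancel] at h1
    rw [h1, show 1 - (b : ℝ) / k = 0 - (b : ℝ) / k + 1 by ring, shift hper]
    refine intervalIntegral.integral_congr fun β hβ => ?_
    rw [Set.uIcc_of_le (by norm_num)] at hβ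
    simp only [dZ_eq hβ.1 hβ.2]

theorem stmtModel : StmtModel := by
  intro N a g b hb hb2 h0 h1
  have cS := continuous_Sx N a
  have cG := continuous_Sx N g
  have cD := continuous_Sx (N + 1) fun n => g n - g (n - 1)
  obtain ⟨R, hR⟩ : ∃ R : ℝ → ℝ, ∀ β, R β = (Sx N a β * conj (Sx N g β)).re := ⟨_, fun _ => rfl⟩
  obtain ⟨P, hP⟩ : ∃ P : ℝ → ℝ, ∀ β, P β =
    ‖Sx N a β‖ * ‖Sx (N + 1) (fun n => g n - g (n - 1)) β‖ := ⟨_, fun _ => rfl⟩
  have cI : Continuous fun β => Sx N a β * conj (Sx N g β) :=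
    cS.mul (Complex.continuous_conj.comp cG)
  have cR : Continuous R := by rw [funext hR]; exact Complex.continuous_re.comp cI
  have cP : Continuous P := by rw [funext hP]; exact cS.norm.mul cD.norm
  have iR := fun x y => cR.intervalIntegrable (μ := volume) x y
  have iP := fun x y => cP.intervalIntegrable (μ := volume) x y
  have iG : ∀ x y, IntervalIntegrable (fun β => ‖Sx N g β‖ ^ 2) volume x y := fun x y =>
    (cG.norm.pow 2).intervalIntegrable x y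
  have pars : ∀ (M : ℕ) (c : ℕ → ℂ),
      ∫ β in (-(1 / 2) : ℝ)..(1 / 2), ‖Sx M c β‖ ^ 2 = nrm M c := fun M c => by
    rw [shift0 (f := fun β => ‖Sx M c β‖ ^ 2) fun β => by simp only [periodic_Sx M c β], parseval]
  have e1 : ∫ β in (-(1 / 2) : ℝ)..(1 / 2), R β = (∑ n ∈ Icc 1 N, a n * conj (g n)).re := by
    rw [shift0 fun β => by rw [hR, hR, periodic_Sx N a β, periodic_Sx N g β], ← Unfold.inner,
      funext hR]
    exact Complex.reCLM.intervalIntegral_comp_comm (cI.intervalIntegrable _ _)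
  have e2 : ∫ β in (-(1 / 2) : ℝ)..(1 / 2), P β ≤
      √(nrm N a) * √(∑ n ∈ range (N + 1), ‖g (n + 1) - g n‖ ^ 2) := by
    have := cs cS.norm cD.norm (a := -(1 / 2)) (b := 1 / 2) (by norm_num)
    rw [pars, pars] at this
    rw [funext hP]
    refine this.trans (le_of_eq ?_)
    rw [nrm, nrm, sumIcc _ (N + 1)]
    simp only [Nat.add_sub_cancel]
  have pw : ∀ β : ℝ, b ≤ |β| → |β| ≤ 1 / 2 → 4 * b * R β ≤ P β := fun β h2 h3 => by
    have h4 := norm_one_sub_ee h3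
    have h5 : R β ≤ ‖Sx N a β‖ * ‖Sx N g β‖ := by
      rw [hR]
      refine (Complex.re_le_norm _).trans (le_of_eq ?_)
      rw [norm_mul, Complex.norm_conj]
    rw [hP, Sx_diff N g h0 h1, norm_mul]
    have h6 : 0 ≤ ‖Sx N a β‖ * ‖Sx N g β‖ := by positivity
    nlinarith
  have o1 : ∫ β in (-(1 / 2) : ℝ)..(-b), 4 * b * R β ≤ ∫ β in (-(1 / 2) : ℝ)..(-b), P β :=
    intervalIntegral.integral_mono_on (by linarith) ((iR _ _).const_mul _) (iP _ _) fun β hβ => by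
      have : |β| = -β := abs_of_nonpos (by linarith [hβ.2])
      exact pw β (by linarith [hβ.2]) (by linarith [hβ.1])
  have o2 : ∫ β in b..(1 / 2), 4 * b * R β ≤ ∫ β in b..(1 / 2), P β :=
    intervalIntegral.integral_mono_on hb2 ((iR _ _).const_mul _) (iP _ _) fun β hβ => by
      have : |β| = β := abs_of_nonneg (by linarith [hβ.1])
      exact pw β (by linarith [hβ.1]) (by linarith [hβ.2])
  rw [intervalIntegral.integral_const_mul] at o1 o2
  have o3 : 0 ≤ ∫ β in (-b)..b, P β :=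
    intervalIntegral.integral_nonneg (by linarith) fun β _ => by rw [hP]; positivity
  have split : ∀ f : ℝ → ℝ, (∀ x y, IntervalIntegrable f volume x y) →
      ∫ β in (-(1 / 2) : ℝ)..(1 / 2), f β = (∫ β in (-(1 / 2) : ℝ)..(-b), f β) +
        (∫ β in (-b)..b, f β) + ∫ β in b..(1 / 2), f β := fun f hf => by
    rw [intervalIntegral.integral_add_adjacent_intervals (hf _ _) (hf _ _),
      intervalIntegral.integral_add_adjacent_intervals (hf _ _) (hf _ _)]
  have s1 := split R iR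
  have s2 := split P iP
  have s3 := split (fun β => ‖Sx N g β‖ ^ 2) iG
  rw [pars] at s3
  have g1 : 0 ≤ ∫ β in (-(1 / 2) : ℝ)..(-b), ‖Sx N g β‖ ^ 2 :=
    intervalIntegral.integral_nonneg (by linarith) fun β _ => sq_nonneg _
  have g2 : 0 ≤ ∫ β in b..(1 / 2), ‖Sx N g β‖ ^ 2 :=
    intervalIntegral.integral_nonneg hb2 fun β _ => sq_nonneg _
  have m : ∫ β in (-b)..b, (2 * R β - ‖Sx N g β‖ ^ 2) ≤ ∫ β in (-b)..b, ‖Sx N a β‖ ^ 2 :=
    intervalIntegral.integral_mono_on (by linarith) (((iR _ _).const_mul _).sub (iG _ _))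
      ((cS.norm.pow 2).intervalIntegrable _ _) fun β _ => by
      have := Complex.normSq_nonneg (Sx N a β - Sx N g β)
      rw [Complex.normSq_sub, Complex.normSq_eq_norm_sq, Complex.normSq_eq_norm_sq, ← hR] at this
      linarith
  rw [intervalIntegral.integral_sub ((iR _ _).const_mul _) (iG _ _),
    intervalIntegral.integral_const_mul] at m
  have fin : 2 * ((∫ β in (-(1 / 2) : ℝ)..(-b), R β) + ∫ β in b..(1 / 2), R β) ≤
      √(nrm N a) * √(∑ n ∈ range (N + 1), ‖g (n + 1) - g n‖ ^ 2) / (2 * b) := by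
    rw [le_div_iff₀ (by positivity)]
    linarith
  linarith

end Pool.Agent.MP_f259ea_nt.Q

end

section

/-!
Estimates for Dirichlet L-functions that are uniform in the modulus.
-/

set_option autoImplicit false

open Complex MeasureTheory Set Filter Topology Asymptotics Metric DirichletCharacter
open scoped Real ComplexConjugate

namespace Pool.Agent.MP_f259ea_nt.Q

namespace Unif

theorem sums (N : ℕ) (hN : 0 < N) (a : ℕ → ℂ) (ha : ∀ n, a (n + N) = a n)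
    (hb : ∀ n, ‖a n‖ ≤ 1) :
    ∃ c : ℂ, ‖c‖ ≤ 1 ∧ ∀ n : ℕ, ‖∑ k ∈ Finset.Icc 1 n, a k - c * n‖ ≤ 2 * N := by
  have hs : ∀ s : Finset ℕ, ‖∑ k ∈ s, a k‖ ≤ s.card := fun s =>
    (norm_sum_le _ _).trans (by simpa using Finset.sum_le_card_nsmul s _ 1 fun k _ => hb k)
  have hconst : ∀ n, ∑ k ∈ Finset.range N, a (n + k) = ∑ k ∈ Finset.range N, a k := by
    intro n
    induction n with
    | zero => simp
    | succ n ih =>
      have h1 := Finset.sum_range_succ (fun k => a (n + k)) N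
      have h2 := Finset.sum_range_succ' (fun k => a (n + k)) N
      have h3 : ∑ k ∈ Finset.range N, a (n + (k + 1)) = ∑ k ∈ Finset.range N, a (n + 1 + k) :=
        Finset.sum_congr rfl fun k _ => by congr 1; ring
      rw [h1, ha, h3] at h2
      simp only [add_zero] at h2
      rw [← ih]
      exact (add_right_cancel h2).symm
  set c : ℂ := (∑ k ∈ Finset.range N, a k) / N with hc
  have hN' : (N : ℂ) ≠ 0 := by exact_mod_cast hN.ne'
  set D : ℕ → ℂ := fun n => ∑ k ∈ Finset.Icc 1 n, a k - c * n with hD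
  have hIcc : ∀ n, ∑ k ∈ Finset.Icc 1 n, a k = ∑ k ∈ Finset.range n, a (1 + k) := by
    intro n
    rw [← Finset.Ico_add_one_right_eq_Icc, Finset.sum_Ico_eq_sum_range]
    simp
  have hper : ∀ n, D (n + N) = D n := by
    intro n
    simp only [hD, hIcc]
    rw [Finset.sum_range_add]
    have h3 : ∑ k ∈ Finset.range N, a (1 + (n + k)) = ∑ k ∈ Finset.range N, a ((1 + n) + k) :=
      Finset.sum_congr rfl fun k _ => by congr 1; ring
    rw [h3, hconst, hc]
    push_cast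
    field_simp
    ring
  have hmod : ∀ q r, D (r + N * q) = D r := by
    intro q
    induction q with
    | zero => simp
    | succ q ih =>
      intro r
      have : r + N * (q + 1) = (r + N * q) + N := by ring
      rw [this, hper, ih]
  have hc1 : ‖c‖ ≤ 1 := by
    rw [hc, norm_div, Complex.norm_natCast, div_le_one (by exact_mod_cast hN)]
    simpa using hs (Finset.range N)
  refine ⟨c, hc1, fun n => ?_⟩
  have h1 : D n = D (n % N) := by
    conv_lhs => rw [← Nat.mod_add_div n N]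
    exact hmod _ _
  change ‖D n‖ ≤ _
  rw [h1]
  have h2 : ((n % N : ℕ) : ℝ) ≤ N := by exact_mod_cast (Nat.mod_lt n hN).le
  have h3 := hs (Finset.Icc 1 (n % N))
  rw [Nat.card_Icc, Nat.add_sub_cancel] at h3
  refine (norm_sub_le _ _).trans ?_
  rw [norm_mul, Complex.norm_natCast]
  nlinarith [(Nat.cast_nonneg (n % N) : (0 : ℝ) ≤ (n % N : ℕ))]

theorem growth (N : ℕ) [NeZero N] (χ : DirichletCharacter ℂ N) :
    ∀ s : ℂ, 1 / 20 ≤ s.re → 1 ≤ s.im →
      ‖DirichletCharacter.LFunction χ s‖ ≤ 100 * N * ‖s‖ := by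
  obtain ⟨c, hc1, h⟩ := sums N (Nat.pos_of_ne_zero (NeZero.ne N))
    (fun n => χ n) (fun n => by simp) (fun n => χ.norm_le_one _)
  have hN1 : (1 : ℝ) ≤ N := by exact_mod_cast Nat.pos_of_ne_zero (NeZero.ne N)
  set B : ℝ := 2 * N with hBdef
  have hB : 0 ≤ B := (norm_nonneg _).trans (h 0)
  set U : Set ℂ := {s | 0 < s.re} ∩ {s | 0 < s.im} with hU
  have hUo : IsOpen U :=
    (isOpen_lt continuous_const Complex.continuous_re).inter
      (isOpen_lt continuous_const Complex.continuous_im)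
  have hUc : IsPreconnected U :=
    ((convex_halfSpace_re_gt 0).inter (convex_halfSpace_im_gt 0)).isPreconnected
  have hne : ∀ s ∈ U, s ≠ 1 := by
    intro s hs h1
    have := hs.2
    simp [h1] at this
  have h1 : AnalyticOnNhd ℂ (DirichletCharacter.LFunction χ) U := by
    refine DifferentiableOn.analyticOnNhd (fun s hs => ?_) hUo
    exact (DirichletCharacter.differentiableAt_LFunction χ s (Or.inl (hne s hs))).differentiableWithinAt
  have h2 : AnalyticOnNhd ℂ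
      (fun s => c * s / (s - 1) + s * mellin (errFun (fun n => χ n) c) (-s)) U := by
    refine DifferentiableOn.analyticOnNhd (fun s hs => ?_) hUo
    refine DifferentiableAt.differentiableWithinAt ?_
    refine DifferentiableAt.add ?_ (differentiableAt_id.mul (differentiableAt_mellin_errFun h hs.1))
    exact DifferentiableAt.div (by fun_prop) (by fun_prop) (sub_ne_zero.2 (hne s hs))
  have hz : (2 + I : ℂ) ∈ U := by constructor <;> simp
  have heq : DirichletCharacter.LFunction χ =ᶠ[𝓝 (2 + I)]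
      fun s => c * s / (s - 1) + s * mellin (errFun (fun n => χ n) c) (-s) := by
    have : ∀ᶠ s in 𝓝 (2 + I : ℂ), 1 < s.re :=
      (isOpen_lt continuous_const Complex.continuous_re).mem_nhds (by simp)
    filter_upwards [this] with s hs
    rw [DirichletCharacter.LFunction_eq_LSeries χ hs]
    exact LSeries_eq_err h hs (DirichletCharacter.LSeriesSummable_of_one_lt_re χ hs)
  have hEq := h1.eqOn_of_preconnected_of_eventuallyEq h2 hUc hz heq
  intro s hs1 hs2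
  have hsU : s ∈ U := ⟨by simp only [mem_ofPred_eq]; linarith, by simp only [mem_ofPred_eq]; linarith⟩
  rw [hEq hsU]
  have hre : 0 < s.re := by linarith
  have hm := norm_mellin_errFun_le h hre
  have hm' : ‖mellin (errFun (fun n => χ n) c) (-s)‖ ≤ 20 * (B + ‖c‖) := by
    refine hm.trans ?_
    rw [div_le_iff₀ hre]
    have : 0 ≤ B + ‖c‖ := by positivity
    nlinarith
  have hn1 : 1 ≤ ‖s - 1‖ := by
    have := Complex.abs_im_le_norm (s - 1)
    simp only [sub_im, one_im, sub_zero] at this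
    exact hs2.trans ((le_abs_self _).trans this)
  have hA : ‖c * s / (s - 1)‖ ≤ ‖c‖ * ‖s‖ := by
    rw [norm_div, norm_mul]
    exact div_le_self (by positivity) hn1
  calc _ ≤ ‖c * s / (s - 1)‖ + ‖s * mellin (errFun (fun n => χ n) c) (-s)‖ := norm_add_le _ _
    _ ≤ ‖c‖ * ‖s‖ + ‖s‖ * (20 * (B + ‖c‖)) := by
        rw [norm_mul]; gcongr
    _ = (‖c‖ + 20 * (B + ‖c‖)) * ‖s‖ := by ring
    _ ≤ _ := mul_le_mul_of_nonneg_right (by linarith) (norm_nonneg s)

theorem lower : ∃ δ : ℝ, 0 < δ ∧ ∀ (N : ℕ) [NeZero N] (χ : DirichletCharacter ℂ N) (s : ℂ),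
    s.re = 2 → δ ≤ ‖DirichletCharacter.LFunction χ s‖ := by
  have hsum : Summable fun n : ℕ => ‖LSeries.term (fun _ => (1 : ℂ)) 2 n‖ := by
    have : LSeriesSummable (fun _ => (1 : ℂ)) 2 :=
      LSeriesSummable_of_bounded_of_one_lt_re (m := 1) (fun n _ => by simp) (by simp)
    exact this.norm
  set Z : ℝ := ∑' n : ℕ, ‖LSeries.term (fun _ => (1 : ℂ)) 2 n‖ with hZ
  have hZ0 : 0 ≤ Z := tsum_nonneg fun n => norm_nonneg _
  refine ⟨1 / (Z + 1), by positivity, fun N _ χ s hs => ?_⟩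
  have hs1 : 1 < s.re := by rw [hs]; norm_num
  rw [DirichletCharacter.LFunction_eq_LSeries χ hs1]
  have hmul := DirichletCharacter.LSeries.mul_mu_eq_one χ hs1
  have hle : ‖LSeries ((fun n : ℕ => χ n) * fun n : ℕ => ((ArithmeticFunction.moebius n : ℤ) : ℂ)) s‖
      ≤ Z := by
    unfold LSeries
    refine tsum_of_norm_bounded hsum.hasSum fun n => ?_
    rw [LSeries.norm_term_eq, LSeries.norm_term_eq, hs]
    split_ifs with hn
    · exact le_rfl
    · simp only [norm_one, re_ofNat]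
      gcongr
      rw [Pi.mul_apply, norm_mul]
      have h1 := χ.norm_le_one (n : ZMod N)
      have h2 : ‖((ArithmeticFunction.moebius n : ℤ) : ℂ)‖ ≤ 1 := by
        rw [Complex.norm_intCast]
        exact_mod_cast ArithmeticFunction.abs_moebius_le_one
      nlinarith [norm_nonneg (χ (n : ZMod N)),
        norm_nonneg ((ArithmeticFunction.moebius n : ℤ) : ℂ)]
  have h1 := congrArg norm hmul
  rw [norm_mul, norm_one] at h1
  rw [div_le_iff₀ (by positivity)]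
  have h0 := norm_nonneg (LSeries (fun n : ℕ => χ n) s)
  nlinarith [mul_le_mul_of_nonneg_left hle h0]

theorem one_le_log (N : ℕ) [NeZero N] {t : ℝ} (ht : 3 ≤ t) : 1 ≤ Real.log (N * t) := by
  have hN1 : (1 : ℝ) ≤ N := by exact_mod_cast Nat.pos_of_ne_zero (NeZero.ne N)
  exact one_le_log_of_three_le (by nlinarith)

theorem loc : ∃ C : ℝ, 1 ≤ C ∧ ∀ (N : ℕ) [NeZero N] (χ : DirichletCharacter ℂ N) (t : ℝ),
    3 ≤ t → ∃ Z : Finset ℂ,
      (∀ z, z ∈ Z ↔ z ∈ closedBall ((2 : ℂ) + ((t + 1 / 2 : ℝ) : ℂ) * I) (9 / 5) ∧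
        DirichletCharacter.LFunction χ z = 0) ∧
      (∀ ρ ∈ Z, 1 ≤ (analyticOrderAt (DirichletCharacter.LFunction χ) ρ).toNat) ∧
      (∑ ρ ∈ Z, ((analyticOrderAt (DirichletCharacter.LFunction χ) ρ).toNat : ℝ)
        ≤ C * Real.log (N * t)) ∧
      ∀ z ∈ closedBall ((2 : ℂ) + ((t + 1 / 2 : ℝ) : ℂ) * I) (8 / 5),
        DirichletCharacter.LFunction χ z ≠ 0 →
        ‖logDeriv (DirichletCharacter.LFunction χ) z -
          ∑ ρ ∈ Z, ((analyticOrderAt (DirichletCharacter.LFunction χ) ρ).toNat : ℂ) / (z - ρ)‖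
          ≤ C * Real.log (N * t) := by
  obtain ⟨δ, hδ, hlow⟩ := lower
  set A : ℝ := 301 / δ with hA
  have hApos : 0 < A := by positivity
  have habs := abs_nonneg (Real.log A)
  refine ⟨30000 * (|Real.log A| + 2), by linarith, fun N _ χ t ht => ?_⟩
  have hgr := growth N χ
  have hN1 : (1 : ℝ) ≤ N := by exact_mod_cast Nat.pos_of_ne_zero (NeZero.ne N)
  have hNt : 3 ≤ N * t := by nlinarith
  have hlog := one_le_log N ht
  set c : ℂ := (2 : ℂ) + ((t + 1 / 2 : ℝ) : ℂ) * I with hc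
  have hcre : c.re = 2 := by simp [hc]
  have hcim : c.im = t + 1 / 2 := by simp [hc]
  set M : ℝ := |Real.log A| + 1 + Real.log (N * t) with hM
  have hM1 : 1 ≤ M := by linarith
  have hMle : M ≤ (|Real.log A| + 2) * Real.log (N * t) := by nlinarith
  have hball : ∀ z ∈ closedBall c (19 / 10 : ℝ), 1 / 20 ≤ z.re ∧ 1 ≤ z.im ∧ ‖z‖ ≤ 3 * t := by
    intro z hz
    rw [mem_closedBall, dist_eq_norm] at hz
    have h1 := (abs_le.1 ((Complex.abs_re_le_norm (z - c)).trans hz)).1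
    have h2 := (abs_le.1 ((Complex.abs_im_le_norm (z - c)).trans hz)).1
    rw [sub_re, hcre] at h1
    rw [sub_im, hcim] at h2
    refine ⟨by linarith, by linarith, ?_⟩
    have h3 : ‖c‖ ≤ 2 + (t + 1 / 2) := by
      refine (Complex.norm_le_abs_re_add_abs_im c).trans ?_
      rw [hcre, hcim, abs_of_pos (by norm_num), abs_of_pos (by linarith)]
    have h4 : ‖z‖ ≤ ‖z - c‖ + ‖c‖ := norm_le_norm_sub_add _ _
    linarith
  have han : AnalyticOnNhd ℂ (DirichletCharacter.LFunction χ) (closedBall c (19 / 10)) := by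
    have hU : IsOpen {s : ℂ | 0 < s.im} := isOpen_lt continuous_const Complex.continuous_im
    refine (DifferentiableOn.analyticOnNhd (s := {s : ℂ | 0 < s.im}) (fun s hs => ?_) hU).mono ?_
    · refine (DirichletCharacter.differentiableAt_LFunction χ s (Or.inl ?_)).differentiableWithinAt
      rintro rfl
      simp at hs
    · intro z hz
      have := (hball z hz).2.1
      change 0 < z.im
      linarith
  have hLc := hlow N χ c hcre
  have hexp : A * (N * t) ≤ Real.exp M := by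
    rw [hM, Real.exp_add, Real.exp_log (by linarith)]
    gcongr
    calc A = Real.exp (Real.log A) := (Real.exp_log hApos).symm
      _ ≤ _ := Real.exp_le_exp.2 (by linarith [le_abs_self (Real.log A)])
  have hbig : 301 * (N * t) ≤ Real.exp M * ‖DirichletCharacter.LFunction χ c‖ := by
    calc 301 * (N * t) = A * (N * t) * δ := by rw [hA]; field_simp
      _ ≤ _ := by gcongr
  obtain ⟨Z, hZ, hpos, hcount, hpf⟩ := local_structure (DirichletCharacter.LFunction χ) c M hM1 han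
    (norm_pos_iff.1 (hδ.trans_le hLc))
    (fun z hz => by
      obtain ⟨h1, h2, h3⟩ := hball z (sphere_subset_closedBall hz)
      have := hgr z h1 h2
      nlinarith)
    (by nlinarith)
  refine ⟨Z, hZ, hpos, hcount.trans (by nlinarith), fun z hz hz0 => (hpf z hz hz0).trans ?_⟩
  nlinarith

theorem count : ∃ C : ℝ, 0 ≤ C ∧ ∀ (N : ℕ) [NeZero N] (χ : DirichletCharacter ℂ N) (t : ℝ),
    3 ≤ t → ∀ Z : Finset ℂ, (∀ ρ ∈ Z, 1 / 2 ≤ ρ.re ∧ ρ.re ≤ 2 ∧ t ≤ ρ.im ∧ ρ.im ≤ t + 1) →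
      ∑ ρ ∈ Z, ((analyticOrderAt (DirichletCharacter.LFunction χ) ρ).toNat : ℝ)
        ≤ C * Real.log (N * t) := by
  classical
  obtain ⟨C, hC, h⟩ := loc
  refine ⟨C, by linarith, fun N _ χ t ht Z' hZ' => ?_⟩
  obtain ⟨Z, hZ, -, hcount, -⟩ := h N χ t ht
  refine le_trans ?_ hcount
  have key : ∑ ρ ∈ Z', (analyticOrderAt (DirichletCharacter.LFunction χ) ρ).toNat ≤
      ∑ ρ ∈ Z, (analyticOrderAt (DirichletCharacter.LFunction χ) ρ).toNat := ?_
  · exact_mod_cast key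
  refine Finset.sum_le_sum_of_ne_zero fun ρ hρ hne => ?_
  obtain ⟨h1, h2, h3, h4⟩ := hZ' ρ hρ
  refine (hZ ρ).2 ⟨closedBall_subset_closedBall (by norm_num) (mem_closedBall_of_rect h1 h2 h3 h4),
    ?_⟩
  refine apply_eq_zero_of_analyticOrderAt_ne_zero fun h0 => hne ?_
  rw [h0]; simp

theorem heights : ∃ C : ℝ, 0 ≤ C ∧ ∀ (N : ℕ) [NeZero N] (χ : DirichletCharacter ℂ N) (t : ℝ),
    3 ≤ t → ∃ t' ∈ Set.Icc t (t + 1), ∀ σ ∈ Set.Icc (1 / 2 : ℝ) 2,
      DirichletCharacter.LFunction χ (σ + t' * I) ≠ 0 ∧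
      ‖logDeriv (DirichletCharacter.LFunction χ) (σ + t' * I)‖ ≤ C * Real.log (N * t) ^ 2 := by
  obtain ⟨C, hC, h⟩ := loc
  refine ⟨C + 4 * C ^ 2, by positivity, fun N _ χ t ht => ?_⟩
  obtain ⟨Z, hZ, hpos, hcount, hpf⟩ := h N χ t ht
  have hlog := one_le_log N ht
  obtain ⟨t', ht', hfar⟩ := exists_far_point Z t
  refine ⟨t', ht', fun σ hσ => ?_⟩
  set z : ℂ := σ + t' * I with hz
  have hzre : z.re = σ := by simp [hz]
  have hzim : z.im = t' := by simp [hz]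
  have hzb := mem_closedBall_of_rect (t := t) (z := z) (by rw [hzre]; exact hσ.1)
    (by rw [hzre]; exact hσ.2) (by rw [hzim]; exact ht'.1) (by rw [hzim]; exact ht'.2)
  have hk : (0 : ℝ) < 1 / (2 * ((Z.card : ℝ) + 1)) := by positivity
  have hne : DirichletCharacter.LFunction χ z ≠ 0 := by
    intro h0
    have hzZ := (hZ z).2 ⟨closedBall_subset_closedBall (by norm_num) hzb, h0⟩
    have := hfar z hzZ
    rw [hzim, sub_self, abs_zero] at this
    linarith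
  refine ⟨hne, ?_⟩
  have h1 := hpf z hzb hne
  have hcard : (Z.card : ℝ) ≤ C * Real.log (N * t) := by
    refine le_trans ?_ hcount
    rw [Finset.card_eq_sum_ones]
    push_cast
    exact Finset.sum_le_sum fun ρ hρ => by exact_mod_cast hpos ρ hρ
  have hCl : 1 ≤ C * Real.log (N * t) := by nlinarith
  have h2 : ‖∑ ρ ∈ Z, ((analyticOrderAt (DirichletCharacter.LFunction χ) ρ).toNat : ℂ) / (z - ρ)‖
      ≤ C * Real.log (N * t) * (4 * (C * Real.log (N * t))) := by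
    refine (norm_sum_le _ _).trans ?_
    calc _ ≤ ∑ ρ ∈ Z, ((analyticOrderAt (DirichletCharacter.LFunction χ) ρ).toNat : ℝ) *
          (4 * (C * Real.log (N * t))) := by
          refine Finset.sum_le_sum fun ρ hρ => ?_
          rw [norm_div, Complex.norm_natCast, div_eq_mul_inv]
          gcongr
          have h3 : 1 / (2 * ((Z.card : ℝ) + 1)) ≤ ‖z - ρ‖ := by
            refine (hfar ρ hρ).trans ?_
            have := Complex.abs_im_le_norm (z - ρ)
            rwa [sub_im, hzim] at this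
          calc ‖z - ρ‖⁻¹ ≤ (1 / (2 * ((Z.card : ℝ) + 1)))⁻¹ := inv_anti₀ hk h3
            _ = 2 * ((Z.card : ℝ) + 1) := by simp
            _ ≤ _ := by linarith
      _ ≤ _ := by rw [← Finset.sum_mul]; gcongr
  have h3 := norm_le_norm_sub_add (logDeriv (DirichletCharacter.LFunction χ) z)
    (∑ ρ ∈ Z, ((analyticOrderAt (DirichletCharacter.LFunction χ) ρ).toNat : ℂ) / (z - ρ))
  have h4 : C * Real.log (N * t) ≤ C * Real.log (N * t) ^ 2 := by
    have : Real.log (N * t) ≤ Real.log (N * t) ^ 2 := by nlinarith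
    gcongr
  nlinarith

theorem unit : ∃ C : ℝ, 0 ≤ C ∧ ∀ (N : ℕ) [NeZero N] (χ : DirichletCharacter ℂ N),
    χ.IsPrimitive → ∀ t : ℝ, 3 ≤ t → ∀ Z : Finset ℂ,
      (∀ z ∈ Z, t ≤ z.re ∧ z.re ≤ t + 1 ∧ |z.im| < 1 / 2) →
        ∑ z ∈ Z, (nn χ z : ℝ) ≤ C * Real.log (N * t) := by
  classical
  obtain ⟨C, hC, h⟩ := count
  refine ⟨2 * C, by positivity, fun N _ χ hχ => ?_⟩
  have key : ∀ t : ℝ, 3 ≤ t → ∀ Z : Finset ℂ,
      (∀ z ∈ Z, t ≤ z.re ∧ z.re ≤ t + 1 ∧ |z.im| < 1 / 2 ∧ z.im ≤ 0) →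
        ∑ z ∈ Z, (nn χ z : ℝ) ≤ C * Real.log (N * t) := by
    intro t ht Z hZ
    have h1 := h N χ t ht (Z.image sOf) (by
      intro ρ hρ
      obtain ⟨z, hz, rfl⟩ := Finset.mem_image.1 hρ
      obtain ⟨h1, h2, h3, h4⟩ := hZ z hz
      rw [abs_lt] at h3
      simp only [sOf_re, sOf_im]
      exact ⟨by linarith, by linarith, h1, h2⟩)
    rw [Finset.sum_image (fun _ _ _ _ h => sOf_injective h)] at h1
    calc ∑ z ∈ Z, (nn χ z : ℝ)
        = ∑ z ∈ Z, ((analyticOrderAt (LFunction χ) (sOf z)).toNat : ℝ) := by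
          refine Finset.sum_congr rfl fun z hz => ?_
          obtain ⟨h1, -, -, h4⟩ := hZ z hz
          unfold nn
          rw [order_Xi_eq χ (by linarith) (by linarith)]
      _ ≤ C * Real.log (N * t) := h1
  intro t ht Z hZ
  rw [← Finset.sum_filter_add_sum_filter_not Z (fun z => z.im ≤ 0)]
  have h1 := key t ht (Z.filter (fun z => z.im ≤ 0)) (by
    intro z hz
    rw [Finset.mem_filter] at hz
    obtain ⟨h1, h2, h3⟩ := hZ z hz.1
    exact ⟨h1, h2, h3, hz.2⟩)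
  have h2 := key t ht ((Z.filter (fun z => ¬ z.im ≤ 0)).image conj) (by
    intro ρ hρ
    obtain ⟨z, hz, rfl⟩ := Finset.mem_image.1 hρ
    rw [Finset.mem_filter] at hz
    obtain ⟨h1, h2, h3⟩ := hZ z hz.1
    simp only [conj_re, conj_im, abs_neg]
    exact ⟨h1, h2, h3, by linarith [not_le.1 hz.2]⟩)
  rw [Finset.sum_image (fun _ _ _ _ h => by simpa using congrArg conj h)] at h2
  have h3 : ∑ z ∈ Z.filter (fun z => ¬ z.im ≤ 0), (nn χ (conj z) : ℝ)
      = ∑ z ∈ Z.filter (fun z => ¬ z.im ≤ 0), (nn χ z : ℝ) := by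
    refine Finset.sum_congr rfl fun z hz => ?_
    rw [Finset.mem_filter] at hz
    rw [nn_conj χ hχ (by linarith [(hZ z hz.1).1])]
  linarith

theorem long : ∃ C : ℝ, 0 ≤ C ∧ ∀ (N : ℕ) [NeZero N] (χ : DirichletCharacter ℂ N),
    χ.IsPrimitive → ∀ t R : ℝ, 3 ≤ t → 0 ≤ R → ∀ Z : Finset ℂ,
      (∀ z ∈ Z, t ≤ z.re ∧ z.re ≤ t + R ∧ |z.im| < 1 / 2) →
        ∑ z ∈ Z, (nn χ z : ℝ) ≤ C * (R + 1) * Real.log (N * (t + R + 1)) := by
  classical
  obtain ⟨C, hC, h⟩ := unit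
  refine ⟨C, hC, fun N _ χ hχ => ?_⟩
  replace h := h N χ hχ
  have hN1 : (0 : ℝ) < N := by exact_mod_cast Nat.pos_of_ne_zero (NeZero.ne N)
  have key : ∀ (n : ℕ) (t : ℝ), 3 ≤ t → ∀ Z : Finset ℂ,
      (∀ z ∈ Z, t ≤ z.re ∧ z.re ≤ t + (n + 1) ∧ |z.im| < 1 / 2) →
        ∑ z ∈ Z, (nn χ z : ℝ) ≤ C * (n + 1) * Real.log (N * (t + n)) := by
    intro n t ht
    induction n with
    | zero => intro Z hZ; simpa using h t ht Z (by simpa using hZ)
    | succ n ih =>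
      intro Z hZ
      rw [← Finset.sum_filter_add_sum_filter_not Z (fun z => z.re ≤ t + (n + 1))]
      have h1 := ih (Z.filter (fun z => z.re ≤ t + (n + 1))) (by
        intro z hz
        rw [Finset.mem_filter] at hz
        obtain ⟨h1, -, h3⟩ := hZ z hz.1
        exact ⟨h1, hz.2, h3⟩)
      have hn : (0 : ℝ) ≤ n := by positivity
      have h2 := h (t + (n + 1)) (by linarith) (Z.filter (fun z => ¬ z.re ≤ t + (n + 1))) (by
        intro z hz
        rw [Finset.mem_filter] at hz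
        obtain ⟨-, h2, h3⟩ := hZ z hz.1
        push_cast at h2
        exact ⟨(not_le.1 hz.2).le, by linarith, h3⟩)
      have h3 : Real.log (N * (t + n)) ≤ Real.log (N * (t + (n + 1))) := by
        gcongr
        linarith
      have h4 : C * (n + 1) * Real.log (N * (t + n)) ≤ C * (n + 1) * Real.log (N * (t + (n + 1))) := by gcongr
      push_cast
      nlinarith
  intro t R ht hR Z hZ
  have h1 := key ⌊R⌋₊ t ht Z (by
    intro z hz
    obtain ⟨h1, h2, h3⟩ := hZ z hz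
    exact ⟨h1, by linarith [Nat.lt_floor_add_one R], h3⟩)
  refine h1.trans ?_
  have h2 := Nat.floor_le hR
  have hn : (0 : ℝ) ≤ ⌊R⌋₊ := by positivity
  have h3 : 0 ≤ Real.log (N * (t + ⌊R⌋₊)) := zero_le_one.trans (one_le_log N (by linarith))
  have h4 : Real.log (N * (t + ⌊R⌋₊)) ≤ Real.log (N * (t + R + 1)) :=
    Real.log_le_log (by positivity) (mul_le_mul_of_nonneg_left (by linarith) hN1.le)
  gcongr

theorem gam (N : ℕ) (χ : DirichletCharacter ℂ N) (t : ℝ) (ht : 2 ≤ t) :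
    ‖logDeriv (DirichletCharacter.gammaFactor χ) (1 / 2 + t * I) - ((Real.log t / 2 : ℝ) : ℂ)‖
      ≤ ‖Complex.log π‖ + ‖digamma 1‖ + 9 := by
  by_cases hχ : χ.Even
  · have e : DirichletCharacter.gammaFactor χ = Gammaℝ := funext fun s => hχ.gammaFactor_def s
    have := logDeriv_Gammaℝ_bound (σ := 1 / 2) le_rfl (by norm_num) ht
    rw [e]
    convert this using 4
    push_cast; rfl
  · have e : DirichletCharacter.gammaFactor χ = fun s => Gammaℝ (s + 1) := funext fun s => by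
      simp [DirichletCharacter.gammaFactor, hχ]
    have := logDeriv_Gammaℝ_bound (σ := 3 / 2) (by norm_num) (by norm_num) ht
    rw [e, logDeriv_apply, deriv_comp_add_const, ← logDeriv_apply]
    convert this using 4
    push_cast; ring

theorem btwo : ∃ C : ℝ, 0 ≤ C ∧ ∀ (N : ℕ) [NeZero N] (χ : DirichletCharacter ℂ N),
    Btwo χ ≤ C := by
  have hs := (ArithmeticFunction.LSeriesSummable_vonMangoldt (s := 2) (by simp)).norm
  refine ⟨_, tsum_nonneg fun _ => norm_nonneg _, fun N _ χ =>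
    (summable_Btwo χ).tsum_le_tsum (fun n => LSeries.norm_term_le _ ?_) hs⟩
  rw [chiL, Pi.mul_apply, norm_mul]
  exact mul_le_of_le_one_left (norm_nonneg _) (χ.norm_le_one _)

end Unif

theorem stmtUnif : StmtUnif := by
  obtain ⟨C₁, h₁, H₁⟩ := Unif.heights
  obtain ⟨C₂, h₂, H₂⟩ := Unif.long
  obtain ⟨C₃, h₃, H₃⟩ := Unif.btwo
  have h₄ : 0 < ‖Complex.log π‖ + ‖digamma 1‖ + 9 := by positivity
  refine ⟨C₁ + C₂ + C₃ + (‖Complex.log π‖ + ‖digamma 1‖ + 9), by positivity, fun N _ χ =>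
    ⟨fun t ht => ?_, fun hχ t R ht hR Z hZ => (H₂ N χ hχ t R ht hR Z hZ).trans ?_,
      fun t ht => (Unif.gam N χ t ht).trans (by linarith), (H₃ N χ).trans (by linarith)⟩⟩
  · obtain ⟨t', ht', h⟩ := H₁ N χ t ht
    exact ⟨t', ht', fun σ hσ => ⟨(h σ hσ).1, (h σ hσ).2.trans
      (mul_le_mul_of_nonneg_right (by linarith) (sq_nonneg _))⟩⟩
  · have := Unif.one_le_log N (t := t + R + 1) (by linarith)
    gcongr
    linarith

end Pool.Agent.MP_f259ea_nt.Q

end

section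

/-! Gaussian smoothing of the indicator function of an interval. -/

set_option autoImplicit false

open Complex MeasureTheory Set Filter Topology
open scoped Real ComplexConjugate

namespace Pool.Agent.MP_f259ea_nt.Q

namespace WeightG

/-- The Gaussian kernel. -/
noncomputable def K (z : ℂ) (s : ℝ) : ℂ := cexp (-(π * (z - s) ^ 2))

/-- The smoothed indicator function. -/
noncomputable def w (A B : ℝ) (z : ℂ) : ℂ := ∫ s in Ioc A B, K z s

/-- The Fourier transform of the indicator function. -/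
noncomputable def E (A B u : ℝ) : ℂ := ∫ s in A..B, cexp (2 * π * I * u * s)

/-- The Fourier transform of the smoothed indicator function. -/
noncomputable def W (A B u : ℝ) : ℂ := (Real.exp (-(π * u ^ 2)) : ℝ) * E A B u

lemma neg_pi_re : (-(π : ℂ)).re < 0 := by simpa using Real.pi_pos

lemma gauss_int (c d : ℂ) :
    ∫ x : ℝ, cexp (-(π : ℂ) * x ^ 2 + c * x + d) = cexp (d + c ^ 2 / (4 * π)) := by
  have hπ : (π : ℂ) ≠ 0 := ofReal_ne_zero.2 Real.pi_ne_zero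
  rw [integral_cexp_quadratic neg_pi_re, neg_neg, div_self hπ, one_cpow, one_mul]
  congr 1
  field_simp
  ring

lemma norm_K (z : ℂ) (s : ℝ) :
    ‖K z s‖ = Real.exp (π * z.im ^ 2) * Real.exp (-π * (z.re - s) ^ 2) := by
  rw [K, norm_exp, ← Real.exp_add]
  congr 1
  simp [sq]
  ring

lemma K_eq (z : ℂ) : K z = fun s : ℝ => cexp (-(π : ℂ) * s ^ 2 + 2 * π * z * s + -(π * z ^ 2)) := by
  funext s; rw [K]; congr 1; ring

lemma integrable_K (z : ℂ) : Integrable (K z) := by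
  rw [K_eq]; exact integrable_cexp_quadratic' neg_pi_re _ _

lemma integral_K (z : ℂ) : ∫ s, K z s = 1 := by
  have hπ : (π : ℂ) ≠ 0 := ofReal_ne_zero.2 Real.pi_ne_zero
  rw [K_eq, gauss_int, show -(π * z ^ 2) + (2 * π * z) ^ 2 / (4 * π) = 0 by field_simp; ring,
    Complex.exp_zero]

lemma int_g (a : ℝ) : Integrable fun s : ℝ => Real.exp (-1 * (a - s) ^ 2) :=
  (integrable_exp_neg_mul_sq one_pos).comp_sub_left a

lemma integral_g (a : ℝ) : ∫ s : ℝ, Real.exp (-1 * (a - s) ^ 2) ≤ 2 := by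
  rw [integral_sub_left_eq_self (fun s : ℝ => Real.exp (-1 * s ^ 2)) volume a, integral_gaussian,
    div_one]
  exact Real.sqrt_le_iff.2 ⟨by norm_num, by linarith [Real.pi_le_four]⟩

lemma tail {z : ℂ} (hz : |z.im| ≤ 2) {S : Set ℝ} (hS : MeasurableSet S) {D : ℝ} (hD : 0 ≤ D)
    (h : ∀ s ∈ S, D ≤ |z.re - s|) :
    ‖∫ s in S, K z s‖ ≤ 2 * Real.exp (4 * π) * Real.exp (-(2 * D ^ 2)) := by
  have hi := (int_g z.re).const_mul (Real.exp (4 * π) * Real.exp (-(2 * D ^ 2)))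
  refine (norm_integral_le_of_norm_le hi.integrableOn
    ((ae_restrict_iff' hS).2 (Eventually.of_forall fun s hs => ?_))).trans ?_
  · rw [norm_K, ← Real.exp_add, ← Real.exp_add, ← Real.exp_add]
    refine Real.exp_le_exp.2 ?_
    have h1 : z.im ^ 2 ≤ 2 ^ 2 := by rw [← sq_abs]; gcongr
    have h2 : D ^ 2 ≤ (z.re - s) ^ 2 := by rw [← sq_abs (z.re - s)]; gcongr; exact h s hs
    have h3 := Real.pi_gt_three
    nlinarith [sq_nonneg (z.re - s)]
  · refine (setIntegral_le_integral hi (Eventually.of_forall fun x => by positivity)).trans ?_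
    rw [integral_const_mul]
    have := mul_le_mul_of_nonneg_left (integral_g z.re)
      (show 0 ≤ Real.exp (4 * π) * Real.exp (-(2 * D ^ 2)) by positivity)
    linarith

lemma w_diff {A B : ℝ} (hAB : A ≤ B) : Differentiable ℂ (w A B) := by
  have hg : Differentiable ℂ fun z : ℂ => cexp (-(π * z ^ 2)) := by fun_prop
  obtain ⟨G, hG⟩ := hg.isExactOn_univ
  have hG' : Differentiable ℂ G := fun z => (hG z (mem_univ z)).differentiableAt
  have : w A B = fun z => -G (z - B) - -G (z - A) := by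
    funext z
    rw [w, ← intervalIntegral.integral_of_le hAB]
    refine intervalIntegral.integral_eq_sub_of_hasDerivAt (f := fun s : ℝ => -G (z - s))
      (fun s _ => ?_) (integrable_K z).intervalIntegrable
    have h1 := ((hG (z - s) (mem_univ _)).comp (s : ℂ) ((hasDerivAt_id' (s : ℂ)).const_sub z)).neg
    exact h1.comp_ofReal.congr_deriv (by simp [K])
  rw [this]
  fun_prop

lemma w_conj (A B : ℝ) (z : ℂ) : w A B (conj z) = conj (w A B z) := by
  rw [w, w, ← integral_conj]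
  congr 1; funext s
  rw [K, K, ← Complex.exp_conj]
  congr 1
  simp

lemma line_eq (v u s : ℝ) :
    (fun t : ℝ => K (t + v * I) s * cexp (2 * π * I * u * (t + v * I))) = fun t : ℝ =>
      cexp (-(π : ℂ) * t ^ 2 + (2 * π * (I * u - (v * I - s))) * t +
        (-(π * (v * I - s) ^ 2) + 2 * π * I * u * (v * I))) := by
  funext t; rw [K, ← Complex.exp_add]; congr 1; ring

lemma line_int (v u s : ℝ) :
    ∫ t : ℝ, K (t + v * I) s * cexp (2 * π * I * u * (t + v * I)) =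
      (Real.exp (-(π * u ^ 2)) : ℝ) * cexp (2 * π * I * u * s) := by
  have hπ : (π : ℂ) ≠ 0 := ofReal_ne_zero.2 Real.pi_ne_zero
  rw [line_eq, gauss_int, ofReal_exp, ← Complex.exp_add]
  congr 1
  push_cast
  field_simp
  linear_combination (4 * (u : ℂ) ^ 2) * I_sq

lemma prod_int (A B v u : ℝ) :
    Integrable (Function.uncurry fun t s : ℝ =>
      K (t + v * I) s * cexp (2 * π * I * u * (t + v * I)))
      (volume.prod (volume.restrict (Ioc A B))) := by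
  refine (integrable_prod_iff' (Continuous.aestronglyMeasurable ?_)).2 ⟨?_, ?_⟩
  · unfold K Function.uncurry; fun_prop
  · refine Eventually.of_forall fun s => ?_
    have h := line_eq v u s
    simp only [Function.uncurry_apply_pair]
    rw [h]
    exact integrable_cexp_quadratic' neg_pi_re _ _
  · have h : ∀ s : ℝ, ∫ t : ℝ, ‖K (t + v * I) s * cexp (2 * π * I * u * (t + v * I))‖ =
        ∫ t : ℝ, ‖K (t + v * I) 0 * cexp (2 * π * I * u * (t + v * I))‖ := by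
      intro s
      rw [← integral_sub_right_eq_self
        (fun t : ℝ => ‖K (t + v * I) 0 * cexp (2 * π * I * u * (t + v * I))‖) s]
      congr 1; funext t
      rw [norm_mul, norm_mul, norm_K, norm_K, norm_exp, norm_exp]
      simp
    simp only [Function.uncurry_apply_pair, h]
    exact integrable_const _

lemma w_int (A B v : ℝ) : Integrable fun t : ℝ => w A B (t + v * I) := by
  simpa [w] using (prod_int A B v 0).integral_prod_left

lemma w_fourier {A B : ℝ} (hAB : A ≤ B) (v u : ℝ) :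
    ∫ t : ℝ, w A B (t + v * I) * cexp (2 * π * I * u * (t + v * I)) = W A B u := by
  simp_rw [w, ← integral_mul_const]
  rw [integral_integral_swap (prod_int A B v u)]
  simp_rw [line_int]
  rw [integral_const_mul, W, E, intervalIntegral.integral_of_le hAB]

lemma norm_e (u s : ℝ) : ‖cexp (2 * π * I * u * s)‖ = 1 := by
  simpa using norm_exp_I (2 * π) u s

lemma norm_E {A B : ℝ} (hAB : A ≤ B) (u : ℝ) : ‖E A B u‖ ≤ B - A := by
  refine (intervalIntegral.norm_integral_le_of_norm_le_const (C := 1)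
    fun s _ => (norm_e u s).le).trans ?_
  rw [one_mul, abs_of_nonneg (sub_nonneg.2 hAB)]

lemma norm_W (A B u : ℝ) : ‖W A B u‖ = Real.exp (-(π * u ^ 2)) * ‖E A B u‖ := by
  rw [W, norm_mul, norm_real, Real.norm_of_nonneg (Real.exp_pos _).le]

lemma exp_le (u : ℝ) : Real.exp (-(π * u ^ 2)) ≤ 1 :=
  Real.exp_le_one_iff.2 (neg_nonpos.2 (by positivity))

lemma decay_E (A B u : ℝ) : |u| * ‖E A B u‖ ≤ 1 := by
  rcases eq_or_ne u 0 with rfl | hu
  · simp
  have hπ : (π : ℂ) ≠ 0 := ofReal_ne_zero.2 Real.pi_ne_zero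
  have hc : (2 * π * I * u : ℂ) ≠ 0 :=
    mul_ne_zero (mul_ne_zero (mul_ne_zero two_ne_zero hπ) I_ne_zero) (ofReal_ne_zero.2 hu)
  have hn : ‖(2 * π * I * u : ℂ)‖ = 2 * π * |u| := by simp [abs_of_pos Real.pi_pos]
  have h0 : 0 < |u| := abs_pos.2 hu
  have h1 : ‖cexp (2 * π * I * u * B) - cexp (2 * π * I * u * A)‖ ≤ 2 :=
    (norm_sub_le _ _).trans (by rw [norm_e, norm_e]; norm_num)
  rw [E, integral_exp_mul_complex hc, norm_div, hn, ← mul_div_assoc, div_le_one (by positivity)]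
  have := Real.pi_gt_three
  nlinarith

lemma lip_e (u v s : ℝ) :
    ‖cexp (2 * π * I * u * s) - cexp (2 * π * I * v * s)‖ ≤ 2 * π * |s| * |u - v| := by
  have h : cexp (2 * π * I * u * s) - cexp (2 * π * I * v * s) =
      cexp (2 * π * I * v * s) * (cexp (I * (2 * π * s * (u - v) : ℝ)) - 1) := by
    rw [mul_sub, ← Complex.exp_add, mul_one]
    congr 2
    push_cast
    ring
  rw [h, norm_mul, norm_e, one_mul]
  refine Real.norm_exp_I_mul_ofReal_sub_one_le.trans (le_of_eq ?_)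
  rw [Real.norm_eq_abs, abs_mul, abs_mul, abs_of_pos (by positivity : 0 < 2 * π)]

lemma lip_E {T A B : ℝ} (hT : 1 ≤ T) (hA : T ≤ A) (hAB : A ≤ B) (hB : B ≤ 2 * T) (u v : ℝ) :
    ‖E A B u - E A B v‖ ≤ 16 * T ^ 2 * |u - v| := by
  rw [E, E, ← intervalIntegral.integral_sub (Continuous.intervalIntegrable (by fun_prop) _ _)
    (Continuous.intervalIntegrable (by fun_prop) _ _)]
  refine (intervalIntegral.norm_integral_le_of_norm_le_const (C := 2 * 4 * (2 * T) * |u - v|)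
    fun s hs => (lip_e u v s).trans ?_).trans ?_
  · rw [uIoc_of_le hAB] at hs
    have h1 : |s| ≤ 2 * T := by rw [abs_of_pos (by linarith [hs.1])]; linarith [hs.2]
    gcongr
    exact Real.pi_le_four
  · rw [abs_of_nonneg (sub_nonneg.2 hAB)]
    calc 2 * 4 * (2 * T) * |u - v| * (B - A) ≤ 2 * 4 * (2 * T) * |u - v| * T := by
          gcongr; linarith
      _ = 16 * T ^ 2 * |u - v| := by ring

lemma lip_g (u v : ℝ) : |Real.exp (-(π * u ^ 2)) - Real.exp (-(π * v ^ 2))| ≤ 4 * |u - v| := by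
  have hd : ∀ x : ℝ, HasDerivAt (fun x : ℝ => Real.exp (-(π * x ^ 2)))
      (Real.exp (-(π * x ^ 2)) * -(π * (2 * x))) x := fun x =>
    ((((hasDerivAt_id' x).pow 2).const_mul π).neg.exp).congr_deriv (by simp)
  have := convex_univ.norm_image_sub_le_of_norm_hasDerivWithin_le (C := 4)
    (fun x _ => (hd x).hasDerivWithinAt) (fun x _ => ?_) (mem_univ v) (mem_univ u)
  · simpa only [Real.norm_eq_abs] using this
  rw [Real.norm_eq_abs, abs_mul, abs_neg, abs_mul, abs_mul, abs_two, abs_of_pos Real.pi_pos,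
    abs_of_pos (Real.exp_pos _), Real.exp_neg, inv_mul_le_iff₀ (Real.exp_pos _)]
  have h1 := Real.add_one_le_exp (π * x ^ 2)
  have h2 : 2 * |x| ≤ π * x ^ 2 + 1 := by
    have h3 := Real.pi_gt_three
    rw [← sq_abs x]
    nlinarith [sq_nonneg (|x| - 1), sq_nonneg |x|]
  have h4 := Real.pi_le_four
  have h5 := abs_nonneg x
  nlinarith

lemma gw {T A B : ℝ} (hT : 1 ≤ T) (hA : T ≤ A) (hAB : A ≤ B) (hB : B ≤ 2 * T) :
    GW T (W A B) := by
  have hE : ∀ u, ‖E A B u‖ ≤ T := fun u => (norm_E hAB u).trans (by linarith)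
  have hc : Continuous (W A B) := by
    unfold W E
    exact Continuous.mul (by fun_prop)
      (intervalIntegral.continuous_parametric_intervalIntegral_of_continuous' (by fun_prop) _ _)
  have hg : ∀ u, ‖W A B u‖ ≤ T * Real.exp (-(π * u ^ 2)) := fun u => by
    rw [norm_W, mul_comm]
    exact mul_le_mul_of_nonneg_right (hE u) (Real.exp_pos _).le
  refine ⟨hc, fun u => ?_, ?_, ?_, hg, fun u => ?_, fun u v => ?_⟩
  · simp only [W, E, map_mul, conj_ofReal, neg_sq]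
    rw [intervalIntegral.integral_of_le hAB, intervalIntegral.integral_of_le hAB, ← integral_conj]
    congr 2; funext s
    rw [← Complex.exp_conj]
    congr 1
    simp [map_ofNat]
  · refine ((integrable_exp_neg_mul_sq Real.pi_pos).const_mul (T ^ 2)).mono'
      (hc.norm.pow 2).aestronglyMeasurable (Eventually.of_forall fun u => ?_)
    rw [Real.norm_of_nonneg (sq_nonneg _), neg_mul]
    calc ‖W A B u‖ ^ 2 ≤ (T * Real.exp (-(π * u ^ 2))) ^ 2 := by gcongr; exact hg u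
      _ = T ^ 2 * (Real.exp (-(π * u ^ 2)) * Real.exp (-(π * u ^ 2))) := by ring
      _ ≤ T ^ 2 * Real.exp (-(π * u ^ 2)) := by
          gcongr
          exact mul_le_of_le_one_left (Real.exp_pos _).le (exp_le u)
  · have hf : Integrable ((Ioc A B).indicator fun _ => (1 : ℂ)) :=
      (integrable_indicator_iff measurableSet_Ioc).2 (by simp)
    have h := planch_gauss hf (M := 1) (fun t => by
      by_cases h : t ∈ Ioc A B <;> simp [h]) two_pos
    have h1 : ∀ u : ℝ, ∫ t : ℝ, (Ioc A B).indicator (fun _ => (1 : ℂ)) t *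
        cexp (2 * π * I * u * t) = E A B u := fun u => by
      rw [E, intervalIntegral.integral_of_le hAB, ← integral_indicator measurableSet_Ioc]
      congr 1; funext t
      by_cases h : t ∈ Ioc A B <;> simp [h]
    have h2 : ∫ t : ℝ, ‖(Ioc A B).indicator (fun _ => (1 : ℂ)) t‖ = B - A := by
      simp_rw [norm_indicator_eq_indicator_norm]
      rw [integral_indicator measurableSet_Ioc]
      simp [hAB]
    simp_rw [h1] at h
    rw [h2] at h
    refine le_trans (le_of_eq ?_) (h.trans (by linarith))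
    congr 1; funext u
    rw [norm_W, mul_pow, ← Real.exp_nat_mul, mul_comm]
    congr 2
    push_cast
    ring
  · rw [norm_W, mul_left_comm]
    exact mul_le_one₀ (exp_le u) (by positivity) (decay_E A B u)
  · have h : W A B u - W A B v =
        ((Real.exp (-(π * u ^ 2)) - Real.exp (-(π * v ^ 2)) : ℝ) : ℂ) * E A B u +
          (Real.exp (-(π * v ^ 2)) : ℝ) * (E A B u - E A B v) := by
      rw [W, W, ofReal_sub]; ring
    rw [h]
    refine (norm_add_le _ _).trans ?_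
    rw [norm_mul, norm_mul, norm_real, norm_real, Real.norm_eq_abs,
      Real.norm_of_nonneg (Real.exp_pos _).le]
    have h1 : T ≤ T ^ 2 := by nlinarith
    calc _ ≤ 4 * |u - v| * T ^ 2 + 1 * (16 * T ^ 2 * |u - v|) := by
          gcongr
          · exact lip_g u v
          · exact (hE u).trans h1
          · exact exp_le v
          · exact lip_E hT hA hAB hB u v
      _ = 20 * T ^ 2 * |u - v| := by ring

lemma w_out {A B : ℝ} {z : ℂ} (hz : |z.im| ≤ 2) {D : ℝ} (hD : 0 ≤ D)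
    (h : z.re ≤ A - D ∨ B + D ≤ z.re) :
    ‖w A B z‖ ≤ 2 * Real.exp (4 * π) * Real.exp (-(2 * D ^ 2)) := by
  refine tail hz measurableSet_Ioc hD fun s hs => ?_
  rcases h with h | h
  · exact le_abs.2 (Or.inr (by linarith [hs.1]))
  · exact le_abs.2 (Or.inl (by linarith [hs.2]))

end WeightG

open WeightG in
theorem stmtWeightG : StmtWeightG := by
  have hc := Real.exp_pos (4 * π)
  have hexp : ∀ D : ℝ, 2 * Real.exp (4 * π) * Real.exp (-(2 * D ^ 2)) ≤
      8 * Real.exp (4 * π) * Real.exp (-D ^ 2) := fun D => by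
    gcongr
    · norm_num
    · nlinarith [sq_nonneg D]
  refine ⟨8 * Real.exp (4 * π), by positivity, fun T A B hT hA hAB hB =>
    ⟨w A B, W A B, w_diff hAB, w_conj A B, gw hT hA hAB hB, by simp [W, E],
      fun v _ => ⟨w_int A B v, w_fourier hAB v⟩, fun z hz => ?_, fun z D hz hD h1 h2 => ?_,
      fun z D hz hD h => (w_out hz (by linarith) h).trans (hexp D), fun v D hv hD => ?_⟩⟩
  · have := tail hz (measurableSet_Ioc (a := A) (b := B)) le_rfl fun s _ => abs_nonneg _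
    simpa [w] using this.trans (hexp 0)
  · rw [← integral_K z, ← integral_add_compl (measurableSet_Ioc (a := A) (b := B))
      (integrable_K z), w, sub_add_cancel_left, norm_neg]
    refine (tail hz measurableSet_Ioc.compl (by linarith) fun s hs => ?_).trans (hexp D)
    rw [mem_compl_iff, mem_Ioc, not_and_or, not_lt, not_le] at hs
    rcases hs with hs | hs
    · exact le_abs.2 (Or.inl (by linarith))
    · exact le_abs.2 (Or.inr (by linarith))
  · have hi := ((int_g A).add (int_g B)).const_mul (2 * Real.exp (4 * π) * Real.exp (-D ^ 2))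
    have key : ∀ (a t : ℝ), D ≤ |a - t| → Real.exp (-(2 * |a - t| ^ 2)) ≤
        Real.exp (-D ^ 2) * Real.exp (-1 * (a - t) ^ 2) := fun a t h => by
      rw [← Real.exp_add, ← sq_abs (a - t)]
      refine Real.exp_le_exp.2 ?_
      nlinarith
    refine (setIntegral_mono_on (w_int A B v).norm.integrableOn hi.integrableOn
      measurableSet_Icc.compl fun t ht => ?_).trans ?_
    · have him : |((t : ℂ) + v * I).im| ≤ 2 := by simpa using hv
      have hre : ((t : ℂ) + v * I).re = t := by simp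
      rw [mem_compl_iff, mem_Icc, not_and_or, not_le, not_le] at ht
      simp only [Pi.add_apply]
      rcases ht with ht | ht
      · have h1 : |A - t| = A - t := abs_of_nonneg (by linarith)
        refine (w_out him (abs_nonneg (A - t)) (Or.inl (by rw [hre, h1]; linarith))).trans ?_
        rw [mul_assoc (2 * Real.exp (4 * π))]
        gcongr
        refine (key A t (by rw [h1]; linarith)).trans ?_
        gcongr
        exact le_add_of_nonneg_right (Real.exp_pos _).le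
      · have h1 : |B - t| = -(B - t) := abs_of_nonpos (by linarith)
        refine (w_out him (abs_nonneg (B - t)) (Or.inr (by rw [hre, h1]; linarith))).trans ?_
        rw [mul_assoc (2 * Real.exp (4 * π))]
        gcongr
        refine (key B t (by rw [h1]; linarith)).trans ?_
        gcongr
        exact le_add_of_nonneg_left (Real.exp_pos _).le
    · refine (setIntegral_le_integral hi (Eventually.of_forall fun x => by
        simp only [Pi.add_apply, Pi.zero_apply]; positivity)).trans ?_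
      simp only [Pi.add_apply]
      rw [integral_const_mul, integral_add (int_g A) (int_g B)]
      have := mul_le_mul_of_nonneg_left (add_le_add (integral_g A) (integral_g B))
        (show 0 ≤ 2 * Real.exp (4 * π) * Real.exp (-D ^ 2) by positivity)
      linarith

end Pool.Agent.MP_f259ea_nt.Q

end
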