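import Pool.Agent.Mg.Ff259ea.G19b7e5
import Pool.Agent.Mg.Ff259ea.G80961c
import Pool.Agent.Mg.Ff259ea.Ga1e4d8

section

/-! The mean square of the arithmetic side over the family. -/

set_option autoImplicit false

open Complex MeasureTheory Finset
open scoped Real ComplexConjugate Classical ArithmeticFunction.Moebius
  ArithmeticFunction.vonMangoldt Nat

namespace Pool.Agent.MP_f259ea_nt.Q

namespace Q_Prime

/-! ### Integrals -/

lemma fold {K G : ℝ → ℝ} (hK : Continuous K) (hG : Continuous G) (hev : ∀ u, G (-u) = G u)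
    {l : ℝ} (hl : 0 < l) :
    l * ∫ s in (-1 : ℝ)..1, K s * G (s * l) =
      ∫ u in (0 : ℝ)..l, (K (u / l) + K (-(u / l))) * G u := by
  have c1 : Continuous fun s => K s * G (s * l) := by fun_prop
  have c2 : Continuous fun s => K (-s) * G (s * l) := by fun_prop
  have h1 : ∫ s in (-1 : ℝ)..0, K s * G (s * l) = ∫ s in (0 : ℝ)..1, K (-s) * G (s * l) := by
    have := intervalIntegral.integral_comp_neg (a := 0) (b := 1) fun s => K s * G (s * l)
    simp only [neg_zero, neg_mul, hev] at this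
    exact this.symm
  have h2 := intervalIntegral.integral_comp_div (a := 0) (b := l)
    (fun s => (K s + K (-s)) * G (s * l)) hl.ne'
  simp only [div_mul_cancel₀ _ hl.ne', zero_div, div_self hl.ne', smul_eq_mul] at h2
  rw [h2, ← intervalIntegral.integral_add_adjacent_intervals (b := 0)
    (c1.intervalIntegrable _ _) (c1.intervalIntegrable _ _), h1,
    ← intervalIntegral.integral_add (c2.intervalIntegrable _ _) (c1.intervalIntegrable _ _)]
  congr 2
  funext s
  ring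

lemma piece {Kt G Φ v f1 f2 f3 f4 : ℝ → ℝ} (cK : Continuous Kt) (cG : Continuous G)
    (cΦ : Continuous Φ) (cv : Continuous v) (c1 : Continuous f1) (c2 : Continuous f2)
    (c3 : Continuous f3) (c4 : Continuous f4) {α k0 k1 k2 M a b : ℝ} (hab : a ≤ b)
    (hK0 : ∀ u, 0 ≤ Kt u) (hK : ∀ u, Kt u ≤ M)
    (hR : ∀ u, 0 ≤ k0 + k1 * v u + k2 * (f1 u + f2 u + f3 u + f4 u))
    (h : ∀ u ∈ Set.Icc a b,
      G u ≤ α * Φ u + (k0 + k1 * v u + k2 * (f1 u + f2 u + f3 u + f4 u))) :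
    ∫ u in a..b, Kt u * G u ≤ α * (∫ u in a..b, Kt u * Φ u) +
      M * (k0 * (b - a) + k1 * (∫ u in a..b, v u) + k2 * ((∫ u in a..b, f1 u) +
        (∫ u in a..b, f2 u) + (∫ u in a..b, f3 u) + ∫ u in a..b, f4 u)) := by
  have I : ∀ {f : ℝ → ℝ}, Continuous f → IntervalIntegrable f volume a b := fun hf =>
    hf.intervalIntegrable _ _
  calc ∫ u in a..b, Kt u * G u ≤ ∫ u in a..b, (α * (Kt u * Φ u) +
        M * (k0 + k1 * v u + k2 * (f1 u + f2 u + f3 u + f4 u))) := by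
        refine intervalIntegral.integral_mono_on hab (I (by fun_prop)) (I (by fun_prop))
          fun u hu => ?_
        have h1 := mul_le_mul_of_nonneg_left (h u hu) (hK0 u)
        have h2 := mul_le_mul_of_nonneg_right (hK u) (hR u)
        linarith
    _ = _ := by
        rw [intervalIntegral.integral_add (I (by fun_prop)) (I (by fun_prop)),
          intervalIntegral.integral_const_mul, intervalIntegral.integral_const_mul,
          intervalIntegral.integral_add (I (by fun_prop)) (I (by fun_prop)),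
          intervalIntegral.integral_add (I (by fun_prop)) (I (by fun_prop)),
          intervalIntegral.integral_const_mul, intervalIntegral.integral_const_mul,
          intervalIntegral.integral_add (I (by fun_prop)) (I c4),
          intervalIntegral.integral_add (I (by fun_prop)) (I c3),
          intervalIntegral.integral_add (I c1) (I c2), intervalIntegral.integral_const,
          smul_eq_mul, mul_comm (b - a)]

lemma core {Kt G Φ v w n1 n2 n3 n4 : ℝ → ℝ} (cK : Continuous Kt) (cG : Continuous G)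
    (cΦ : Continuous Φ) (cv : Continuous v) (cw : Continuous w) (c1 : Continuous n1)
    (c2 : Continuous n2) (c3 : Continuous n3) (c4 : Continuous n4) {α k0 k1 k2 M p q l : ℝ}
    (hp : 0 ≤ p) (hpq : p ≤ q) (hql : q ≤ l) (hK0 : ∀ u, 0 ≤ Kt u) (hK : ∀ u, Kt u ≤ M)
    (hk0 : 0 ≤ k0) (hk1 : 0 ≤ k1) (hk2 : 0 ≤ k2) (pv : ∀ u, 0 ≤ v u) (pw : ∀ u, 0 ≤ w u)
    (p1 : ∀ u, 0 ≤ n1 u) (p2 : ∀ u, 0 ≤ n2 u) (p3 : ∀ u, 0 ≤ n3 u) (p4 : ∀ u, 0 ≤ n4 u)
    (h0 : ∀ u ∈ Set.Icc 0 p,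
      G u ≤ α * Φ u + (k0 + k1 * v u + k2 * (n1 u + n2 u + n3 u + n4 u)))
    (h1 : ∀ u ∈ Set.Icc p q,
      G u ≤ α * Φ u + (k0 + k1 * v u + k2 * (w u + n2 u + n3 u + n4 u)))
    (h2 : ∀ u ∈ Set.Icc q l,
      G u ≤ α * Φ u + (k0 + k1 * v u + k2 * (w u + n1 u + n3 u + n4 u))) :
    ∫ u in (0 : ℝ)..l, Kt u * G u ≤ α * (∫ u in (0 : ℝ)..l, Kt u * Φ u) +
      M * (k0 * l + k1 * (∫ u in (0 : ℝ)..l, v u) + k2 * ((∫ u in p..l, w u) +
        (∫ u in (0 : ℝ)..p, n1 u) + (∫ u in q..l, n1 u) + (∫ u in (0 : ℝ)..q, n2 u) +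
        (∫ u in (0 : ℝ)..l, n3 u) + ∫ u in (0 : ℝ)..l, n4 u)) := by
  have A : ∀ {f : ℝ → ℝ}, Continuous f → ∀ a b c : ℝ,
      ∫ u in a..c, f u = (∫ u in a..b, f u) + ∫ u in b..c, f u := fun hf a b c =>
    (intervalIntegral.integral_add_adjacent_intervals (hf.intervalIntegrable _ _)
      (hf.intervalIntegrable _ _)).symm
  have e0 := piece cK cG cΦ cv c1 c2 c3 c4 hp hK0 hK (fun u => by
    have := pv u; have := p1 u; have := p2 u; have := p3 u; have := p4 u; positivity) h0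
  have e1 := piece cK cG cΦ cv cw c2 c3 c4 hpq hK0 hK (fun u => by
    have := pv u; have := pw u; have := p2 u; have := p3 u; have := p4 u; positivity) h1
  have e2 := piece cK cG cΦ cv cw c1 c3 c4 hql hK0 hK (fun u => by
    have := pv u; have := pw u; have := p1 u; have := p3 u; have := p4 u; positivity) h2
  have cKG : Continuous fun u => Kt u * G u := cK.mul cG
  have cKΦ : Continuous fun u => Kt u * Φ u := cK.mul cΦ
  rw [A cKG 0 p l, A cKG p q l, A cKΦ 0 p l, A cKΦ p q l, A cv 0 p l, A cv p q l, A cw p q l,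
    A c2 0 p q, A c3 0 p l, A c3 p q l, A c4 0 p l, A c4 p q l]
  linarith

/-! ### Sums over the family -/

/-- Sum of squares over the family. -/
noncomputable def FS (Q₁ Q : ℕ) (f : (d : ℕ) → DirichletCharacter ℂ d → ℝ) : ℝ :=
  ∑ d ∈ Ioc Q₁ Q, ∑ χ ∈ prim d, f d χ ^ 2

/-- The size of a character sum. -/
noncomputable def Pn (N : ℕ) (a : ℕ → ℂ) (d : ℕ) (χ : DirichletCharacter ℂ d) : ℝ :=
  ‖∑ n ∈ Icc 1 N, a n * χ (n : ZMod d)‖

lemma FS_Pn (Q₁ Q N : ℕ) (a : ℕ → ℂ) : FS Q₁ Q (Pn N a) = famSum Q₁ Q N a := rfl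

lemma FS_const (Q₁ Q : ℕ) (c : ℝ) : FS Q₁ Q (fun _ _ => c) = famCard Q₁ Q * c ^ 2 := by
  simp only [FS, famCard, sum_const, nsmul_eq_mul, sum_mul]

lemma seven {r x y1 y2 y3 y4 e : ℝ} (he : 0 < e) (hr : 0 ≤ r)
    (h : r ≤ x + y1 + y2 + y3 + y4 + 2) :
    r ^ 2 ≤ (1 + e) * x ^ 2 + (1 + 1 / e) * 6 * (y1 ^ 2 + y2 ^ 2 + y3 ^ 2 + y4 ^ 2 + 2) := by
  have h1 : r ^ 2 ≤ (x + (y1 + y2 + y3 + y4 + 2)) ^ 2 := pow_le_pow_left₀ hr (by linarith) 2
  have h2 : (y1 + y2 + y3 + y4 + 2) ^ 2 ≤ 6 * (y1 ^ 2 + y2 ^ 2 + y3 ^ 2 + y4 ^ 2 + 2) := by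
    nlinarith [sq_nonneg (y1 - y2), sq_nonneg (y1 - y3), sq_nonneg (y1 - y4), sq_nonneg (y2 - y3),
      sq_nonneg (y2 - y4), sq_nonneg (y3 - y4), sq_nonneg (y1 - 1), sq_nonneg (y2 - 1),
      sq_nonneg (y3 - 1), sq_nonneg (y4 - 1)]
  generalize y1 + y2 + y3 + y4 + 2 = y at h1 h2
  have h3 : 0 ≤ (e * x - y) ^ 2 / e := by positivity
  have h4 : (e * x - y) ^ 2 / e = e * x ^ 2 + 1 / e * y ^ 2 - 2 * x * y := by field_simp; ring
  have h5 := mul_le_mul_of_nonneg_left h2 (show 0 ≤ 1 + 1 / e by positivity)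
  nlinarith

lemma FS_seven (Q₁ Q : ℕ) {r x y1 y2 y3 y4 : (d : ℕ) → DirichletCharacter ℂ d → ℝ} {e : ℝ}
    (he : 0 < e) (hr : ∀ d χ, 0 ≤ r d χ)
    (h : ∀ d χ, r d χ ≤ x d χ + y1 d χ + y2 d χ + y3 d χ + y4 d χ + 2) :
    FS Q₁ Q r ≤ (1 + e) * FS Q₁ Q x + (1 + 1 / e) * 6 *
      (FS Q₁ Q y1 + FS Q₁ Q y2 + FS Q₁ Q y3 + FS Q₁ Q y4 + 2 * famCard Q₁ Q) := by
  have h2 : 2 * famCard Q₁ Q = ∑ d ∈ Ioc Q₁ Q, ∑ _χ ∈ prim d, (2 : ℝ) := by
    simp only [famCard, sum_const, nsmul_eq_mul, mul_sum, mul_comm]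
  simp only [h2, FS, mul_sum, ← sum_add_distrib]
  exact sum_le_sum fun d _ => sum_le_sum fun χ _ => seven he (hr d χ) (h d χ)

lemma famCard_nonneg (Q₁ Q : ℕ) : 0 ≤ famCard Q₁ Q := sum_nonneg fun _ _ => Nat.cast_nonneg _

lemma famCard_le (hO : StmtOrth) (Q₁ Q : ℕ) : famCard Q₁ Q ≤ (Q : ℝ) ^ 2 := by
  calc famCard Q₁ Q ≤ ∑ _d ∈ Ioc Q₁ Q, (Q : ℝ) := sum_le_sum fun d hd => by
        rw [mem_Ioc] at hd
        exact_mod_cast (hO.2.1 d (by omega)).2.trans hd.2
    _ ≤ _ := by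
        rw [sum_const, nsmul_eq_mul, sq, Nat.card_Ioc]
        exact mul_le_mul_of_nonneg_right (by exact_mod_cast Nat.sub_le _ _) (Nat.cast_nonneg _)

lemma nrm_nonneg (N : ℕ) (a : ℕ → ℂ) : 0 ≤ nrm N a := sum_nonneg fun _ _ => sq_nonneg _

lemma nrm_ite (N : ℕ) (a : ℕ → ℂ) (P : ℕ → Prop) [DecidablePred P] :
    nrm N (fun n => if P n then a n else 0) ≤ nrm N a := sum_le_sum fun n _ => by
  beta_reduce
  split_ifs
  · exact le_rfl
  · simp

lemma trunc {M N : ℕ} (h : M ≤ N) {a : ℕ → ℂ} (ha : ∀ n, M < n → a n = 0) (Q₁ Q : ℕ) :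
    famSum Q₁ Q N a = famSum Q₁ Q M a ∧ nrm N a = nrm M a := by
  have k : ∀ n ∈ Icc 1 N, n ∉ Icc 1 M → a n = 0 := fun n h1 h2 =>
    ha n (by rw [mem_Icc] at h1 h2; omega)
  constructor
  · refine sum_congr rfl fun d _ => sum_congr rfl fun χ _ => ?_
    rw [sum_subset (Icc_subset_Icc_right h) fun n h1 h2 => by rw [k n h1 h2, zero_mul]]
  · exact (sum_subset (Icc_subset_Icc_right h) fun n h1 h2 => by simp [k n h1 h2]).symm

/-! ### Continuity -/

variable {W : ℝ → ℂ}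

lemma cont_av (hW : Continuous W) (n : ℕ) : Continuous fun u => av W u n := by
  unfold av; fun_prop

lemma cont_a1 (hW : Continuous W) (δ : ℝ) (Q n : ℕ) : Continuous fun u => a1 δ Q W u n := by
  unfold a1; split_ifs
  exacts [cont_av hW n, continuous_const]

lemma cont_a2 (hW : Continuous W) (Q n : ℕ) : Continuous fun u => a2 Q W u n := by
  unfold a2; split_ifs
  exacts [cont_av hW n, continuous_const]

lemma cont_a3 (hW : Continuous W) (δ : ℝ) (Q n : ℕ) : Continuous fun u => a3 δ Q W u n := by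
  unfold a3; split_ifs
  exacts [continuous_const, cont_av hW n]

lemma cont_gv (hW : Continuous W) (δ : ℝ) (Q n : ℕ) : Continuous fun u => gv δ Q W u n := by
  unfold gv; split_ifs <;> fun_prop

lemma cont_nrm (N : ℕ) {a : ℝ → ℕ → ℂ} (ha : ∀ n, Continuous fun u => a u n) :
    Continuous fun u => nrm N (a u) :=
  continuous_finsetSum _ fun n _ => (ha n).norm.pow 2

lemma cont_gain (hW : Continuous W) (δ : ℝ) (Q : ℕ) : Continuous (gain δ Q W) :=
  (continuous_const.mul (continuous_re.comp (continuous_finsetSum _ fun n _ =>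
    (cont_a2 hW Q n).mul (continuous_conj.comp (cont_gv hW δ Q n))))).sub
    (cont_nrm _ (cont_gv hW δ Q))

lemma cont_hh (δ : ℝ) (Q : ℕ) : Continuous (hh δ Q) := by
  unfold hh; fun_prop

lemma cont_Sch {d : ℕ} {χ : DirichletCharacter ℂ d} (hW : Continuous W)
    (hP : Continuous (Psum χ W)) (L : ℝ) : Continuous (Sch χ W L) :=
  ((continuous_const.mul hW).sub hP).sub (continuous_conj.comp (hP.comp continuous_neg))

lemma norm_Sch_neg {d : ℕ} (χ : DirichletCharacter ℂ d) (hW : ∀ u, W (-u) = conj (W u))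
    (L u : ℝ) : ‖Sch χ W L (-u)‖ = ‖Sch χ W L u‖ := by
  rw [← norm_conj (Sch χ W L u)]
  simp only [Sch, neg_neg, hW, map_sub, map_mul, conj_ofReal, conj_conj]
  congr 1
  ring

lemma norm_Sch_le {d : ℕ} (χ : DirichletCharacter ℂ d) {δ : ℝ} {Q N : ℕ} (hN : N1 δ Q ≤ Q)
    {L u : ℝ} (hL : 0 ≤ L) (h1 : ‖Psum χ W u - ∑ n ∈ Icc 1 N, av W u n * χ (n : ZMod d)‖ ≤ 1)
    (h2 : ‖Psum χ W (-u) - ∑ n ∈ Icc 1 N, av W (-u) n * χ (n : ZMod d)‖ ≤ 1) :
    ‖Sch χ W L u‖ ≤ L * ‖W u‖ + Pn N (a1 δ Q W u) d χ + Pn N (a2 Q W u) d χ +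
      Pn N (a3 δ Q W u) d χ + Pn N (av W (-u)) d χ + 2 := by
  have e : ∑ n ∈ Icc 1 N, av W u n * χ (n : ZMod d) =
      ∑ n ∈ Icc 1 N, a1 δ Q W u n * χ (n : ZMod d) + ∑ n ∈ Icc 1 N, a2 Q W u n * χ (n : ZMod d) +
        ∑ n ∈ Icc 1 N, a3 δ Q W u n * χ (n : ZMod d) := by
    rw [← sum_add_distrib, ← sum_add_distrib]
    refine sum_congr rfl fun n _ => ?_
    unfold a1 a2 a3
    by_cases a : n ≤ N1 δ Q
    · rw [if_pos a, if_neg fun b => by omega, if_pos (Or.inl a)]; ring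
    · by_cases b : n.Prime ∧ Q < n
      · rw [if_neg a, if_pos b, if_pos (Or.inr b)]; ring
      · rw [if_neg a, if_neg b, if_neg (not_or.2 ⟨a, b⟩)]; ring
  have k1 := norm_le_insert' (Psum χ W u) (∑ n ∈ Icc 1 N, av W u n * χ (n : ZMod d))
  have k2 := norm_le_insert' (Psum χ W (-u)) (∑ n ∈ Icc 1 N, av W (-u) n * χ (n : ZMod d))
  have k3 : ‖∑ n ∈ Icc 1 N, av W u n * χ (n : ZMod d)‖ ≤
      Pn N (a1 δ Q W u) d χ + Pn N (a2 Q W u) d χ + Pn N (a3 δ Q W u) d χ := by
    rw [e]; exact norm_add₃_le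
  have k4 : ‖Sch χ W L u‖ ≤ L * ‖W u‖ + ‖Psum χ W u‖ + ‖Psum χ W (-u)‖ := by
    refine (norm_sub_le _ _).trans ?_
    rw [norm_conj]
    refine add_le_add_left ((norm_sub_le _ _).trans ?_) _
    rw [norm_mul, norm_real, Real.norm_of_nonneg hL]
  unfold Pn at k3 ⊢
  linarith

/-! ### Arithmetic -/

lemma dom {G e κ F Z D Φ v s1 s2 s3 s4 m1 m2 m3 m4 : ℝ} (he : 0 ≤ e) (hκ : 0 ≤ κ) (hF : F ≤ Z)
    (h : G ≤ (1 + e) * D + κ * 6 * (s1 + s2 + s3 + s4 + 2 * F))
    (hD : D ≤ F * Φ + F + e * Z * v) (h1 : s1 ≤ 30 * Z * m1) (h2 : s2 ≤ 30 * Z * m2)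
    (h3 : s3 ≤ 30 * Z * m3) (h4 : s4 ≤ 30 * Z * m4) :
    G ≤ (1 + e) * F * Φ + ((1 + e) * F + κ * 12 * Z + (1 + e) * e * Z * v +
      κ * 180 * Z * (m1 + m2 + m3 + m4)) := by
  have k1 := mul_le_mul_of_nonneg_left hD (show 0 ≤ 1 + e by linarith)
  have k2 := mul_le_mul_of_nonneg_left (show s1 + s2 + s3 + s4 + 2 * F ≤
    30 * Z * (m1 + m2 + m3 + m4) + 2 * Z by linarith) (show 0 ≤ κ * 6 by linarith)
  linarith

lemma final {X l e κ F Z M C δ ε J T L I1 I2 I3 : ℝ} (hl : 0 < l) (he : 0 ≤ e) (he1 : e ≤ 1)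
    (hκ : 0 ≤ κ) (hF0 : 0 ≤ F) (hF : F ≤ Z) (hM : 0 ≤ M) (hC : 0 ≤ C) (hδ : 0 ≤ δ) (hT : 0 ≤ T)
    (hL : 0 ≤ L) (hLl : L ≤ 5 * l) (hJ : (1 + e) * (J + e) ≤ J + ε)
    (a1 : M * (2 + κ * 12) ≤ ε / 3 * (T * L)) (a2 : M * (10 * e * C) ≤ ε / 3)
    (a3 : M * (900 * κ * C * δ) ≤ ε / 3)
    (h1 : I1 ≤ l * (2 * π * T * L * (J + e))) (h2 : I2 ≤ C * T * L ^ 2)
    (h3 : I3 ≤ C * δ * T * L ^ 2)
    (h : l * X ≤ (1 + e) * F * I1 + M * (((1 + e) * F + κ * 12 * Z) * l +
      (1 + e) * e * Z * I2 + κ * 180 * Z * I3)) :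
    X ≤ 2 * π * T * L * (J + ε) * F + ε * Z * T * L := by
  have hZ : 0 ≤ Z := hF0.trans hF
  have hπ := Real.pi_pos
  refine le_of_mul_le_mul_left (h.trans ?_) hl
  have b1 : (1 + e) * F * I1 ≤ l * (2 * π * T * L * (J + ε) * F) :=
    calc (1 + e) * F * I1 ≤ (1 + e) * F * (l * (2 * π * T * L * (J + e))) := by gcongr
      _ = l * (2 * π * T * L * ((1 + e) * (J + e)) * F) := by ring
      _ ≤ _ := by gcongr
  have b2 : M * (((1 + e) * F + κ * 12 * Z) * l) ≤ l * (ε / 3 * Z * T * L) :=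
    calc M * (((1 + e) * F + κ * 12 * Z) * l) ≤ M * (((1 + 1) * Z + κ * 12 * Z) * l) := by gcongr
      _ = M * (2 + κ * 12) * (Z * l) := by ring
      _ ≤ ε / 3 * (T * L) * (Z * l) := by gcongr
      _ = _ := by ring
  have b3 : M * ((1 + e) * e * Z * I2) ≤ l * (ε / 3 * Z * T * L) :=
    calc M * ((1 + e) * e * Z * I2) ≤ M * ((1 + e) * e * Z * (C * T * L ^ 2)) := by gcongr
      _ = M * ((1 + e) * e * Z * (C * T * L * L)) := by ring
      _ ≤ M * ((1 + 1) * e * Z * (C * T * L * (5 * l))) := by gcongr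
      _ = M * (10 * e * C) * (Z * T * L * l) := by ring
      _ ≤ ε / 3 * (Z * T * L * l) := by gcongr
      _ = _ := by ring
  have b4 : M * (κ * 180 * Z * I3) ≤ l * (ε / 3 * Z * T * L) :=
    calc M * (κ * 180 * Z * I3) ≤ M * (κ * 180 * Z * (C * δ * T * L ^ 2)) := by gcongr
      _ = M * (κ * 180 * Z * (C * δ * T * L * L)) := by ring
      _ ≤ M * (κ * 180 * Z * (C * δ * T * L * (5 * l))) := by gcongr
      _ = M * (900 * κ * C * δ) * (Z * T * L * l) := by ring
      _ ≤ ε / 3 * (Z * T * L * l) := by gcongr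
      _ = _ := by ring
  linarith

lemma small {c ε : ℝ} (hc : 0 ≤ c) (hε : 0 < ε) {t : ℝ} (ht : 0 < t) :
    ∃ e : ℝ, 0 < e ∧ e ≤ t ∧ c * e ≤ ε := by
  refine ⟨min t (ε / (c + 1)), lt_min ht (by positivity), min_le_left _ _, ?_⟩
  calc c * min t (ε / (c + 1)) ≤ (c + 1) * (ε / (c + 1)) :=
        mul_le_mul (by linarith) (min_le_right _ _) (le_min ht.le (by positivity)) (by linarith)
    _ = ε := by field_simp

lemma large {δ e : ℝ} (hδ : 0 < δ) (he : 0 < e) (M : ℝ) :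
    ∃ Q₀ : ℕ, ∀ Q ≥ Q₀, M ≤ Real.log (Q : ℝ) ∧ 2 * Real.log (Q : ℝ) ≤ e * (Q : ℝ) ^ δ := by
  have h1 := Real.tendsto_log_atTop.eventually_ge_atTop M
  have h2 := (isLittleO_log_rpow_atTop hδ).bound (show 0 < e / 2 by positivity)
  obtain ⟨Q₀, hQ⟩ := Filter.eventually_atTop.1
    ((tendsto_natCast_atTop_atTop (R := ℝ)).eventually (h1.and h2))
  refine ⟨Q₀, fun Q h => ⟨(hQ Q h).1, ?_⟩⟩
  have h3 := (hQ Q h).2
  rw [Real.norm_of_nonneg (Real.log_natCast_nonneg Q), Real.norm_of_nonneg (by positivity)] at h3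
  linarith

end Q_Prime

open Q_Prime

theorem stmtPrime (hO : StmtOrth) (h0 : StmtLS0) (h1 : StmtLS1) (hT : StmtTail) (hD : StmtDiag)
    (hB : StmtBad) (hG : StmtGain) : StmtPrime := by
  intro K hK hK0 hK1 ε hε
  obtain ⟨Km, hKm0, hKm⟩ : ∃ Km : ℝ, 0 ≤ Km ∧ ∀ a, K a ≤ Km := by
    obtain ⟨c, hc⟩ := (isCompact_Icc (a := (-1 : ℝ)) (b := 1)).exists_bound_of_continuousOn
      hK.continuousOn
    have h0 : 0 ≤ c := (norm_nonneg _).trans (hc 0 ⟨by norm_num, by norm_num⟩)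
    refine ⟨c, h0, fun a => ?_⟩
    by_cases ha : 1 ≤ |a|
    · rwa [hK1 a ha]
    · exact (le_abs_self _).trans (hc a (abs_le.1 (not_le.1 ha).le))
  obtain ⟨C, hC, hB⟩ := hB
  obtain ⟨e', he', he'1, he'2⟩ := small (c := |J2 K| + 2) (by positivity) hε one_pos
  obtain ⟨e, he, he1, he2⟩ := small (c := 2 * Km * (10 * C)) (ε := ε / 3) (by positivity)
    (by positivity) he'
  have hκ : 0 ≤ 1 + 1 / e := by positivity
  obtain ⟨δ₀, hδ₀, hD⟩ := hD K hK hK0 hK1 e he
  obtain ⟨δ, hδ, hδ1, hδ2⟩ := small (c := 2 * Km * (900 * (1 + 1 / e) * C)) (ε := ε / 3)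
    (by positivity) (by positivity) (lt_min hδ₀ (show (0 : ℝ) < 1 / 4 by norm_num))
  have hδ4 : δ ≤ 1 / 4 := hδ1.trans (min_le_right _ _)
  obtain ⟨QD, hD⟩ := hD δ hδ (hδ1.trans (min_le_left _ _))
  obtain ⟨QB, hB⟩ := hB δ hδ (by linarith)
  obtain ⟨QT, hT3⟩ := hT.2.2 δ hδ (by linarith)
  obtain ⟨QG, hG⟩ := hG δ e hδ hδ4 he
  obtain ⟨QL, hL⟩ := large hδ he (max 1 (2 * Km * (2 + (1 + 1 / e) * 12) / (ε / 3)))
  refine ⟨δ, hδ, hδ4, QD + QB + QT + QG + QL + 1, fun Q hQ T W Q₁ hLT hTQ hW hQ₁ hQ₁' => ?_⟩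
  obtain ⟨hL1, hL2⟩ := hL Q (by omega)
  obtain ⟨hL0, hL1⟩ := max_le_iff.1 hL1
  obtain ⟨hB1, hB2⟩ := hB Q (by omega) T W hLT hW
  have hD' := hD Q (by omega) T W hLT hW
  have hQ1 : (1 : ℝ) ≤ Q := by exact_mod_cast (by omega : 1 ≤ Q)
  have hG' := hG Q (by omega) T W Q₁ hTQ hW hQ₁ hQ₁'
  have hT' := hT3 Q (by omega) T W (hTQ.trans ((Real.rpow_le_rpow_of_exponent_le hQ1
    (by linarith : δ / 4 ≤ 1)).trans_eq (Real.rpow_one _))) hW
  have hπ := Real.pi_pos
  have hπ4 : π ≤ 15 / 4 := by linarith [Real.pi_lt_d2]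
  have hδL : δ * Real.log Q ≤ 1 / 4 * Real.log Q := by gcongr
  have hδL0 : 0 ≤ δ * Real.log Q := by positivity
  have hu1 : 1 / 20 ≤ ust δ Q := by
    rw [ust, le_div_iff₀ (by positivity)]; linarith
  have hu2 : ust δ Q ≤ ell δ Q := div_le_div_of_nonneg_right (by linarith) (by positivity)
  have hl : 0 < ell δ Q := by linarith
  have hLl : Real.log Q ≤ 5 * ell δ Q := by
    rw [ell, ← mul_div_assoc, le_div_iff₀ (by positivity)]; nlinarith
  have hhh : ∀ u, u ≤ ust δ Q → hh δ Q u = 0 := fun u hu => by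
    rw [ust, le_div_iff₀ (by positivity)] at hu
    exact max_eq_right (by linarith)
  have hN1 : (N1 δ Q : ℝ) ≤ (Q : ℝ) ^ (1 - δ) := Nat.floor_le (by positivity)
  have hN1Q : N1 δ Q ≤ Q := by
    exact_mod_cast hN1.trans ((Real.rpow_le_rpow_of_exponent_le hQ1
      (by linarith : 1 - δ ≤ 1)).trans_eq (Real.rpow_one _))
  have hN1N : N1 δ Q ≤ NN δ Q :=
    Nat.floor_le_floor (Real.rpow_le_rpow_of_exponent_le hQ1 (by linarith))
  have hN : (NN δ Q : ℝ) ≤ (Q : ℝ) ^ 2 :=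
    (Nat.floor_le (by positivity)).trans ((Real.rpow_le_rpow_of_exponent_le hQ1
      (by linarith : 2 - δ ≤ 2)).trans_eq (Real.rpow_two _))
  have hshort : (Q : ℝ) * N1 δ Q * (1 + Real.log (N1 δ Q)) ≤ e * (Q : ℝ) ^ 2 := by
    have k1 : Real.log (N1 δ Q) ≤ Real.log Q := by
      rcases Nat.eq_zero_or_pos (N1 δ Q) with h | h
      · rw [h, Nat.cast_zero, Real.log_zero]; linarith
      · exact Real.log_le_log (by exact_mod_cast h) (by exact_mod_cast hN1Q)
    have k2 := Real.log_natCast_nonneg (N1 δ Q)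
    calc (Q : ℝ) * N1 δ Q * (1 + Real.log (N1 δ Q))
        ≤ Q * (Q : ℝ) ^ (1 - δ) * (e * (Q : ℝ) ^ δ) := by gcongr; linarith
      _ = e * (Q * ((Q : ℝ) ^ (1 - δ) * (Q : ℝ) ^ δ)) := by ring
      _ = _ := by rw [← Real.rpow_add (by linarith), sub_add_cancel, Real.rpow_one, sq]
  have hF0 := famCard_nonneg Q₁ Q
  have hF := famCard_le hO Q₁ Q
  have hLS : ∀ a, FS Q₁ Q (Pn (NN δ Q) a) ≤ 30 * (Q : ℝ) ^ 2 * nrm (NN δ Q) a := fun a =>
    (h0 Q₁ Q (NN δ Q) a).trans (mul_le_mul_of_nonneg_right (by linarith) (nrm_nonneg _ _))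
  have hw : ∀ u, FS Q₁ Q (fun _ _ => Real.log Q * ‖W u‖) =
      famCard Q₁ Q * (Real.log Q ^ 2 * ‖W u‖ ^ 2) := fun u => by rw [FS_const, mul_pow]
  have hw' : ∀ u, FS Q₁ Q (fun _ _ => Real.log Q * ‖W u‖) ≤
      30 * (Q : ℝ) ^ 2 * (Real.log Q ^ 2 * ‖W u‖ ^ 2) := fun u => by
    rw [hw]
    exact mul_le_mul_of_nonneg_right (by linarith) (by positivity)
  have hS : ∀ u, 0 ≤ u → u ≤ ell δ Q → ∀ (d : ℕ) (χ : DirichletCharacter ℂ d),
      ‖Sch χ W (Real.log Q) u‖ ≤ _ := fun u a b d χ =>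
    norm_Sch_le χ hN1Q (by linarith) (hT' d χ u b) (hT' d χ (-u) (by linarith))
  have cS : ∀ (d : ℕ) (χ : DirichletCharacter ℂ d), Continuous (Sch χ W (Real.log Q)) :=
    fun d χ => cont_Sch hW.cont (hT.1 T W hW d χ) _
  have cG : Continuous fun u => FS Q₁ Q fun _ χ => ‖Sch χ W (Real.log Q) u‖ :=
    continuous_finsetSum _ fun d _ => continuous_finsetSum _ fun χ _ => (cS d χ).norm.pow 2
  have cw : Continuous fun u => Real.log Q ^ 2 * ‖W u‖ ^ 2 :=
    continuous_const.mul (hW.cont.norm.pow 2)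
  have c1 := cont_nrm (NN δ Q) (cont_a1 hW.cont δ Q)
  have c2 := cont_nrm (NN δ Q) (cont_a2 hW.cont Q)
  have pv : ∀ u, 0 ≤ e * (Q : ℝ) ^ 2 * nrm (NN δ Q) (av W u) := fun u =>
    mul_nonneg (by positivity) (nrm_nonneg _ _)
  have pw : ∀ u, 0 ≤ famCard Q₁ Q * (Real.log Q ^ 2 * ‖W u‖ ^ 2) := fun u => by positivity
  have pn : ∀ a, 0 ≤ famCard Q₁ Q * nrm (NN δ Q) a := fun a => mul_nonneg hF0 (nrm_nonneg _ _)
  have key := core (Kt := fun u => K (u / ell δ Q) + K (-(u / ell δ Q))) (M := 2 * Km)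
    (α := (1 + e) * famCard Q₁ Q) (k0 := (1 + e) * famCard Q₁ Q + (1 + 1 / e) * 12 * (Q : ℝ) ^ 2)
    (k1 := (1 + e) * e * (Q : ℝ) ^ 2) (k2 := (1 + 1 / e) * 180 * (Q : ℝ) ^ 2)
    (Φ := fun u => Real.log Q ^ 2 * ‖W u‖ ^ 2 + nrm (NN δ Q) (a1 δ Q W u) +
      nrm (NN δ Q) (a2 Q W u) - hh δ Q u * gain δ Q W u)
    (by fun_prop) cG (((cw.add c1).add c2).sub ((cont_hh δ Q).mul (cont_gain hW.cont δ Q)))
    (cont_nrm (NN δ Q) (cont_av hW.cont)) cw c1 c2 (cont_nrm (NN δ Q) (cont_a3 hW.cont δ Q))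
    (cont_nrm (NN δ Q) (a := fun u => av W (-u)) fun n => (cont_av hW.cont n).comp continuous_neg)
    (by norm_num) hu1 hu2 (fun u => add_nonneg (hK0 _) (hK0 _))
    (fun u => by linarith [hKm (u / ell δ Q), hKm (-(u / ell δ Q))])
    (by positivity) (by positivity) (by positivity) (fun u => nrm_nonneg _ _)
    (fun u => by positivity) (fun u => nrm_nonneg _ _) (fun u => nrm_nonneg _ _)
    (fun u => nrm_nonneg _ _) (fun u => nrm_nonneg _ _)
    (fun u hu => by
      refine dom he.le hκ hF (FS_seven Q₁ Q he (fun _ _ => norm_nonneg _)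
        (hS u hu.1 (by linarith [hu.2]))) ?_ (hLS _) (hLS _) (hLS _) (hLS _)
      rw [hw, hhh u (hu.2.trans hu1)]
      linarith [pv u, pn (a1 δ Q W u), pn (a2 Q W u)])
    (fun u hu => by
      refine dom he.le hκ hF (FS_seven Q₁ Q (x := Pn (NN δ Q) (a1 δ Q W u)) he
        (fun _ _ => norm_nonneg _) fun d χ =>
          (hS u (by linarith [hu.1]) (hu.2.trans hu2) d χ).trans_eq (by ring)) ?_
        (hw' u) (hLS (a2 Q W u)) (hLS (a3 δ Q W u)) (hLS (av W (-u)))
      obtain ⟨t1, t2⟩ := trunc hN1N (a := a1 δ Q W u) (fun n hn => if_neg (not_le.2 hn)) Q₁ Q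
      have t3 := h1 Q₁ Q (N1 δ Q) (a1 δ Q W u)
      rw [← t1, ← t2] at t3
      have t4 := mul_le_mul hshort (nrm_ite (NN δ Q) (av W u) fun n => n ≤ N1 δ Q)
        (nrm_nonneg _ _) (by positivity)
      rw [FS_Pn, hhh u hu.2]
      change _ * nrm (NN δ Q) (a1 δ Q W u) ≤ _ at t4
      linarith [pw u, pn (a2 Q W u)])
    (fun u hu => by
      refine dom he.le hκ hF (FS_seven Q₁ Q (x := Pn (NN δ Q) (a2 Q W u)) he
        (fun _ _ => norm_nonneg _) fun d χ =>
          (hS u (by linarith [hu.1]) hu.2 d χ).trans_eq (by ring)) ?_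
        (hw' u) (hLS (a1 δ Q W u)) (hLS (a3 δ Q W u)) (hLS (av W (-u)))
      have t3 := hG' u hu.2
      have t4 := mul_le_mul_of_nonneg_left (nrm_ite (NN δ Q) (av W u) fun n => n.Prime ∧ Q < n)
        (show 0 ≤ e * (Q : ℝ) ^ 2 by positivity)
      rw [FS_Pn]
      change _ * nrm (NN δ Q) (a2 Q W u) ≤ _ at t4
      linarith [pw u, pn (a1 δ Q W u)])
  rw [← fold hK cG (fun u => by simp only [norm_Sch_neg _ hW.symm]) hl] at key
  have swap : ∑ d ∈ Ioc Q₁ Q, ∑ χ ∈ prim d,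
      ∫ s in (-1 : ℝ)..1, K s * ‖Sch χ W (Real.log Q) (s * ell δ Q)‖ ^ 2 =
      ∫ s in (-1 : ℝ)..1, K s * FS Q₁ Q fun _ χ => ‖Sch χ W (Real.log Q) (s * ell δ Q)‖ := by
    have cI : ∀ (d : ℕ) (χ : DirichletCharacter ℂ d),
        Continuous fun s => K s * ‖Sch χ W (Real.log Q) (s * ell δ Q)‖ ^ 2 := fun d χ =>
      hK.mul (((cS d χ).comp (continuous_mul_const _)).norm.pow 2)
    simp only [FS, mul_sum]
    rw [intervalIntegral.integral_finsetSum fun d _ =>
      (continuous_finsetSum _ fun χ _ => cI d χ).intervalIntegrable _ _]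
    exact sum_congr rfl fun d _ =>
      (intervalIntegral.integral_finsetSum fun χ _ => (cI d χ).intervalIntegrable _ _).symm
  rw [swap]
  have hT1 : 1 ≤ T := hL0.trans hLT
  refine final hl he.le (he1.trans he'1) hκ hF0 hF (by positivity) hC.le hδ.le (by linarith)
    (by linarith) hLl ?_ ?_ (by linarith) (by linarith) hD' hB2 hB1 key
  · have k1 : e * J2 K ≤ e' * |J2 K| :=
      (mul_le_mul_of_nonneg_left (le_abs_self _) he.le).trans
        (mul_le_mul_of_nonneg_right he1 (abs_nonneg _))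
    nlinarith
  · rw [div_le_iff₀ (by positivity)] at hL1
    have k1 : Real.log Q ≤ T * Real.log Q := le_mul_of_one_le_left (by linarith) hT1
    have k2 := mul_le_mul_of_nonneg_left k1 (show 0 ≤ ε / 3 by positivity)
    linarith

end Pool.Agent.MP_f259ea_nt.Q

end

section

/-!
The functional `J2` of a piecewise linear kernel.
-/

set_option autoImplicit false

open MeasureTheory Finset

namespace Pool.Agent.MP_f259ea_nt.Q

/-- `∫ |a| D tent (a / D - j) da` for an integer `j`. -/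
noncomputable def tau (D : ℝ) (j : ℤ) : ℝ := if j = 0 then D ^ 3 / 3 else D ^ 3 * |(j : ℝ)|

lemma int_tau {D : ℝ} (hD : 0 < D) (j : ℤ) :
    ∫ a, |a| * (D * tent (a / D - j)) = tau D j := by
  unfold tau
  split_ifs with h
  · subst h
    simpa using int_abs_tent_zero hD
  · exact int_abs_tent_of_one_le hD (by exact_mod_cast Int.one_le_abs h)

lemma int_tau_shift {D : ℝ} (hD : 0 < D) (j k : ℤ) :
    ∫ a, |a - k * D| * (D * tent (a / D - j)) = tau D (j - k) := by
  rw [← int_tau hD, ← integral_add_right_eq_self _ (k * D)]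
  congr 1; funext a
  have : (a + k * D) / D - j = a / D - ((j - k : ℤ) : ℝ) := by push_cast; field_simp; ring
  rw [this, add_sub_cancel_right]

lemma tent_int {D : ℝ} (hD : 0 < D) (j : ℝ) {g : ℝ → ℝ} (hg : Continuous g) :
    Integrable fun a : ℝ => g a * (D * tent (a / D - j)) := by
  have := (tent_integrable hD j (g := fun a => ((g a : ℝ) : ℂ)) (by fun_prop)).re
  simp only [RCLike.re_to_complex, ← Complex.ofReal_mul, Complex.ofReal_re] at this
  simpa only [mul_comm] using this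

lemma int_tent_one {D : ℝ} (hD : 0 < D) (j : ℝ) : ∫ a, D * tent (a / D - j) = D ^ 2 := by
  have h0 : ∫ t, tent t = 1 := by
    have := int_tent_mul (fun _ => 1) continuous_const
    simp only [mul_one] at this
    rw [this, intervalIntegral.integral_mul_const, intervalIntegral.integral_sub
      intervalIntegrable_const (Continuous.intervalIntegrable (by fun_prop) _ _), integral_id]
    simp; norm_num
  rw [← integral_add_right_eq_self _ (j * D)]
  have e : ∀ a : ℝ, (a + j * D) / D - j = a / D := fun a => by field_simp; ring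
  simp only [e]
  rw [integral_const_mul, Measure.integral_comp_div tent D, h0, abs_of_pos hD, smul_eq_mul]
  ring

lemma min_eq (a : ℝ) : min (2 * |a|) 1 = 2 * |a| + 1 - |a - 1 / 2| - |a + 1 / 2| := by
  rcases le_total a (-(1 / 2)) with h | h
  · rw [abs_of_nonpos (by linarith), abs_of_nonpos (by linarith), abs_of_nonpos (by linarith),
      min_eq_right (by linarith)]; ring
  rcases le_total a 0 with h1 | h1
  · rw [abs_of_nonpos h1, abs_of_nonpos (by linarith), abs_of_nonneg (by linarith),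
      min_eq_left (by linarith)]; ring
  rcases le_total a (1 / 2) with h2 | h2
  · rw [abs_of_nonneg h1, abs_of_nonpos (by linarith), abs_of_nonneg (by linarith),
      min_eq_left (by linarith)]; ring
  · rw [abs_of_nonneg h1, abs_of_nonneg (by linarith), abs_of_nonneg (by linarith),
      min_eq_right (by linarith)]; ring

/-- The weight of lag `j`. -/
noncomputable def lagT (D : ℝ) (k : ℤ) (j : ℤ) : ℝ :=
  (if j = 0 then D / 2 else 0) + (2 * tau D j + D ^ 2 - tau D (j - k) - tau D (j + k))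

lemma int_min {D : ℝ} (hD : 0 < D) {k : ℤ} (hk : k * D = 1 / 2) (j : ℤ) :
    ∫ a, min (2 * |a|) 1 * (D * tent (a / D - j))
      = 2 * tau D j + D ^ 2 - tau D (j - k) - tau D (j + k) := by
  have h1 := int_tau_shift hD j k
  have h2 := int_tau_shift hD j (-k)
  rw [hk] at h1
  have e : ((-k : ℤ) : ℝ) * D = -(1 / 2) := by push_cast; linarith
  rw [e, sub_neg_eq_add] at h2
  simp only [sub_neg_eq_add] at h2
  rw [← h1, ← h2, ← int_tau hD, ← int_tent_one hD j, ← integral_const_mul, ← integral_add,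
    ← integral_sub, ← integral_sub]
  · congr 1; funext a; rw [min_eq]; ring
  · exact (((tent_int hD j (g := fun a => |a|) (by fun_prop)).const_mul 2).add
      (by simpa using tent_int hD j (g := fun _ => 1) continuous_const)).sub
      (tent_int hD j (g := fun a => |a - 1 / 2|) (by fun_prop))
  · exact tent_int hD j (g := fun a => |a + 1 / 2|) (by fun_prop)
  · exact ((tent_int hD j (g := fun a => |a|) (by fun_prop)).const_mul 2).add
      (by simpa using tent_int hD j (g := fun _ => 1) continuous_const)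
  · exact tent_int hD j (g := fun a => |a - 1 / 2|) (by fun_prop)
  · exact (tent_int hD j (g := fun a => |a|) (by fun_prop)).const_mul 2
  · simpa using tent_int hD j (g := fun _ => 1) continuous_const

theorem J2_eq {d : BData} (hd : d.Good) {k : ℤ} (hk : k * d.D = 1 / 2) :
    J2 d.K = ∑ i ∈ range d.n, ∑ i' ∈ range d.n, d.w i i' * lagT d.D k ((i : ℤ) - i') := by
  have hD := BData.D_pos hd
  have hint : ∀ j : ℝ, Integrable fun a : ℝ => min (2 * |a|) 1 * (d.D * tent (a / d.D - j)) :=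
    fun j => tent_int hD j (by fun_prop)
  have e : ∫ a in (-1 : ℝ)..1, d.K a * min (2 * |a|) 1 = ∑ i ∈ range d.n, ∑ i' ∈ range d.n,
      d.w i i' * ∫ a, min (2 * |a|) 1 * (d.D * tent (a / d.D - ((i : ℝ) - i'))) := by
    rw [BData.int_K hd]
    simp only [← integral_const_mul]
    rw [Finset.sum_congr rfl fun (i : ℕ) _ => (integral_finsetSum _ fun (i' : ℕ) _ =>
      (hint ((i : ℝ) - i')).const_mul (d.w i i')).symm,
      ← integral_finsetSum _ fun (i : ℕ) _ => integrable_finsetSum _ fun (i' : ℕ) _ =>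
      (hint ((i : ℝ) - i')).const_mul (d.w i i')]
    congr 1; funext a
    unfold BData.K
    rw [Finset.sum_mul]
    refine Finset.sum_congr rfl fun i _ => ?_
    rw [Finset.sum_mul]
    refine Finset.sum_congr rfl fun i' _ => ?_
    ring
  rw [J2, e, BData.K, Finset.sum_div, ← Finset.sum_add_distrib]
  refine Finset.sum_congr rfl fun i _ => ?_
  rw [Finset.sum_div, ← Finset.sum_add_distrib]
  refine Finset.sum_congr rfl fun i' _ => ?_
  have h1 := int_min hD hk ((i : ℤ) - i')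
  push_cast at h1
  rw [h1, lagT, mul_div_assoc, ← mul_add]
  congr 2
  split_ifs with h
  · have : i = i' := by omega
    subst this
    simp [tent]
  · have h1 : 1 ≤ |(i : ℝ) - i'| := by exact_mod_cast Int.one_le_abs h
    rw [tent_eq_zero (by simpa [abs_sub_comm] using h1)]
    simp

/-- The same sum, grouped by lags. -/
theorem J2_lag {d : BData} (hd : d.Good) {k : ℤ} (hk : k * d.D = 1 / 2) :
    J2 d.K = ∑ r ∈ range d.n, (∑ i ∈ range (d.n - r), d.w (i + r) i)
        * (lagT d.D k r + lagT d.D k (-r)) - (∑ i ∈ range d.n, d.w i i) * lagT d.D k 0 := by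
  rw [J2_eq hd hk]
  have h := sum_lag d.n d.w BData.w_symm (fun x => lagT d.D k ⌊x⌋)
  have e1 : ∀ i i' : ℕ, ⌊(i : ℝ) - i'⌋ = (i : ℤ) - i' := fun i i' => by
    rw [show (i : ℝ) - i' = (((i : ℤ) - i' : ℤ) : ℝ) by push_cast; ring, Int.floor_intCast]
  have e2 : ∀ r : ℕ, ⌊-(r : ℝ)⌋ = -(r : ℤ) := fun r => by
    rw [show -(r : ℝ) = ((-(r : ℤ) : ℤ) : ℝ) by push_cast; ring, Int.floor_intCast]
  simpa only [e1, e2, Int.floor_natCast, Int.floor_zero] using h

end Pool.Agent.MP_f259ea_nt.Q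

end

section

/-!
A kernel without multipliers for band width two.
-/

set_option autoImplicit false

open Finset

namespace Pool.Agent.MP_f259ea_nt.Q

def tz (j : ℤ) : ℤ := if j = 0 then 1 else 3 * |j|

def lagI (j : ℤ) : ℤ := (if j = 0 then 5400 else 0) + (2 * tz j + 180 - tz (j - 30) - tz (j + 30))

lemma tau_eq (j : ℤ) : tau (1 / 60) j = (tz j : ℝ) / 648000 := by
  unfold tau tz
  split_ifs
  · norm_num
  · push_cast; ring

lemma lagT_eq (j : ℤ) : lagT (1 / 60) 30 j = (lagI j : ℝ) / 648000 := by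
  unfold lagT lagI
  simp only [tau_eq]
  split_ifs <;> push_cast <;> ring

/-- `J2` from integer lag sums. -/
lemma J2_int {d : BData} (hd : d.Good) (hD : d.D = 1 / 60) (lw : ℕ → ℤ)
    (h : ∀ r : ℕ, ∑ i ∈ range (d.n - r), d.w (i + r) i = (lw r : ℝ) / 100000000000000) :
    J2 d.K = ((∑ r ∈ range d.n, lw r * (lagI r + lagI (-r)) - lw 0 * lagI 0 : ℤ) : ℝ)
      / (100000000000000 * 648000) := by
  rw [J2_lag hd (k := 30) (by rw [hD]; norm_num), hD]
  have h0 : ∑ i ∈ range d.n, d.w i i = (lw 0 : ℝ) / 100000000000000 := h 0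
  simp only [h, h0, lagT_eq]
  push_cast
  rw [sub_div, Finset.sum_div]
  congr 1
  · exact Finset.sum_congr rfl fun r _ => by ring
  · ring

def Lp : List ℤ :=
  [5926338, 6260309, 6594277, 6927453, 7259026, 7588171, 7914041, 8235781, 8552521, 8863384,
   9167489, 9463950, 9751882, 10030403, 10298637, 10555715, 10800782, 11032994, 11251528,
   11455577, 11644360, 11817119, 11973126, 12111683, 12232124, 12333820, 12416180, 12478653,
   12520729, 12541948, 12541948, 12520729, 12478653, 12416180, 12333820, 12232124, 12111683,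
   11973126, 11817119, 11644360, 11455577, 11251528, 11032994, 10800782, 10555715, 10298637,
   10030403, 9751882, 9463950, 9167489, 8863384, 8552521, 8235781, 7914041, 7588171, 7259026,
   6927453, 6594277, 6260309, 5926338]

noncomputable def d1 : BData where
  n := 60
  M := 60
  J := 0
  T := 0
  ψ i := (Lp.getD i 0 : ℝ) / 10000000
  c _ _ := 0
  h i := (Lp.getD i 0 : ℝ) / 10000000
  g _ _ := 0
  ν := 0
  σ := 2
  τ := 2
  b := 0
  l := 1 / 10
  kl := 1 / 2
  s := 1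

theorem lenp : Lp.length = 60 := by decide +kernel
theorem sump : Lp.sum = 600000000 := by decide +kernel
theorem posp : ∀ i < 60, 0 ≤ Lp.getD i 0 := by decide +kernel

def FQ1 (u : ℚ) : ℚ :=
  u - (4 * (987 / 100) * (1 / 10) ^ 2) * u ^ 3 / 6
    + (4 * (987 / 100) * (1 / 10) ^ 2) ^ 2 * u ^ 5 / 120
    - (4 * (987 / 100) * (1 / 10) ^ 2) ^ 3 * u ^ 7 / 5040

theorem klQ1 : (1 / 2 : ℚ) ≤ ∑ i ∈ range 60, (Lp.getD i 0 : ℚ) / 10000000 *
    (FQ1 ((((i + 1 : ℕ) : ℚ) - 60 / 2) * (1 / 60)) - FQ1 (((i : ℚ) - 60 / 2) * (1 / 60))) := by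
  decide +kernel

theorem lagSum1 : ∑ r ∈ range 60, acL Lp r * (lagI r + lagI (-r)) - acL Lp 0 * lagI 0
    = 69189746408335846328 := by decide +kernel

theorem d1_D : d1.D = 1 / 60 := by simp [BData.D, d1]

theorem d1_sum : ∑ i ∈ range 60, (Lp.getD i 0 : ℝ) / 10000000 = 60 := by
  rw [← sum_div, ← Int.cast_sum, ← sumL_eq Lp 60 lenp, sump]; norm_num

theorem d1_h0 : d1.h0 = 1 := by
  rw [BData.h0, d1_D]
  change 1 / 60 * ∑ i ∈ range 60, (Lp.getD i 0 : ℝ) / 10000000 = _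
  rw [d1_sum]; norm_num

theorem d1_ρ : d1.ρ = 1 := by
  rw [BData.ρ, d1_h0]
  simp [d1]

theorem d1_good : d1.Good where
  M_pos := by decide
  ψ_nonneg := fun i hi => div_nonneg (by exact_mod_cast posp i hi) (by norm_num)
  ψ_sum := by
    rw [d1_D]
    change 1 / 60 * ∑ i ∈ range 60, (Lp.getD i 0 : ℝ) / 10000000 = _
    rw [d1_sum]; norm_num
  supp := fun i hi i' _ h => by
    change i' + 60 ≤ i at h
    change i < 60 at hi
    omega
  c_le := fun i _ => by simp [d1]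
  lag := fun r _ => by simp [BData.H, BData.w, d1]
  maj := fun i _ => by simp [d1]
  kl_le := by
    have h := (Rat.cast_le (K := ℝ)).2 klQ1
    simp only [BData.node, d1_D, BData.F]
    simp only [d1, FQ1] at h ⊢
    push_cast at h ⊢
    exact h
  ν_nonneg := by simp only [d1]; norm_num
  ν_le := by simp only [d1]; norm_num
  σ_pos := by simp only [d1]; norm_num
  τ_nonneg := by simp only [d1]; norm_num
  b_nonneg := by simp only [d1]; norm_num
  l_pos := by simp only [d1]; norm_num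
  s_nonneg := by simp only [d1]; norm_num
  h0_nonneg := by rw [d1_h0]; norm_num
  σ_ge := by rw [d1_h0]; simp only [d1]; norm_num
  cp_σ := by simp only [BData.cp, d1]; norm_num
  cp_ρ := by rw [d1_ρ]; simp only [BData.cp, d1]; norm_num
  pair := by rw [d1_ρ]; simp only [BData.cp, BData.t2, d1]; norm_num
  triple := by rw [d1_ρ]; simp only [BData.cp, BData.t2, d1]; norm_num
  cl21 := by rw [d1_ρ]; simp only [BData.cp, BData.t2, BData.ε, d1]; norm_num
  cl22 := by rw [d1_ρ]; simp only [BData.cp, BData.t2, BData.ε, d1]; norm_num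
  cl111 := by rw [d1_ρ]; simp only [BData.cp, BData.t2, BData.ε, d1]; norm_num

theorem d1_J2 : J2 d1.K < 2 - 9322 / 10000 := by
  rw [J2_int d1_good d1_D (acL Lp) (fun r => by
    change ∑ i ∈ range (60 - r), d1.w (i + r) i = _
    rw [acL_eq _ _ _ lenp, Int.cast_sum, sum_div]
    refine sum_congr rfl fun i _ => ?_
    simp only [BData.w, d1, range_zero, sum_empty]
    push_cast; ring)]
  change ((∑ r ∈ range 60, acL Lp r * (lagI r + lagI (-r)) - acL Lp 0 * lagI 0 : ℤ) : ℝ) / _ < _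
  rw [lagSum1]; norm_num

end Pool.Agent.MP_f259ea_nt.Q

end

section

/-!
Numerical data for band width two with multipliers (integers, scale `10 ^ 7`).
-/

set_option autoImplicit false

namespace Pool.Agent.MP_f259ea_nt.Q

def Pψ : List ℤ :=
  [0, 0, 0, 0, 0, 0, 0, 0, 0, 0, 0, 0, 0, 0, 0, 0, 0, 0, 0, 0, 0, 0, 0, 0, 0, 0, 0, 0, 0, 0, 0, 0,
   0, 0, 0, 0, 0, 0, 0, 0, 0, 0, 0, 0, 0, 0, 0, 0, 0, 0, 0, 0, 0, 0, 0, 0, 0, 0, 0, 0, 5135647,
   5676230, 5993010, 6537551, 7050917, 7515219, 7961271, 8245809, 8722575, 9063942, 9461854,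
   9769538, 10144258, 10449384, 10628765, 10858866, 11152354, 11202484, 11486854, 11613817,
   11698760, 11756022, 11822842, 11883661, 12244900, 12328015, 12369601, 12383298, 12408756,
   12433800, 12433800, 12408756, 12383298, 12369601, 12328015, 12244900, 11883661, 11822842,
   11756022, 11698760, 11613817, 11486854, 11202484, 11152354, 10858866, 10628765, 10449384,
   10144258, 9769538, 9461854, 9063942, 8722575, 8245809, 7961271, 7515219, 7050917, 6537551,
   5993010, 5676230, 5135647, 0, 0, 0, 0, 0, 0, 0, 0, 0, 0, 0, 0, 0, 0, 0, 0, 0, 0, 0, 0, 0, 0, 0,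
   0, 0, 0, 0, 0, 0, 0, 0, 0, 0, 0, 0, 0, 0, 0, 0, 0, 0, 0, 0, 0, 0, 0, 0, 0, 0, 0, 0, 0, 0, 0, 0,
   0, 0, 0, 0, 0]

def Pξ0 : List ℤ :=
  [0, 0, 0, 0, 0, 0, 0, 0, 0, 0, 0, 0, 0, 0, 0, 0, 0, 0, 0, 0, 0, 0, 0, 0, 0, 0, 0, 0, 0, 0, 0, 0,
   0, 0, 0, 0, 0, 0, 0, 0, 0, 0, 0, 0, 0, 0, 0, 0, 0, 0, 0, 0, 0, 0, 0, 0, 0, 0, 0, 0, 489587,
   382050, -313933, 773274, -93816, 697142, 387034, 271455, 665199, 1081719, 930893, 639525,
   561372, 939329, 998744, 1412542, 1883951, 2018695, 1991075, 2187504, 1790354, 1617608, 1265906,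
   299536, 157880, 853909, 1178100, 1240139, 1339198, 1575547, 1575547, 1339198, 1240139, 1178100,
   853909, 157880, 299536, 1265906, 1617608, 1790354, 2187504, 1991075, 2018695, 1883951, 1412542,
   998744, 939329, 561372, 639525, 930893, 1081719, 665199, 271455, 387034, 697142, -93816,
   773274, -313933, 382050, 489587, 0, 0, 0, 0, 0, 0, 0, 0, 0, 0, 0, 0, 0, 0, 0, 0, 0, 0, 0, 0, 0,
   0, 0, 0, 0, 0, 0, 0, 0, 0, 0, 0, 0, 0, 0, 0, 0, 0, 0, 0, 0, 0, 0, 0, 0, 0, 0, 0, 0, 0, 0, 0, 0,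
   0, 0, 0, 0, 0, 0, 0]

def Pξ1 : List ℤ :=
  [0, 0, 0, 0, 0, 0, 0, 0, 0, 0, 0, 0, 0, 0, 0, 0, 0, 0, 0, 0, 0, 0, 0, 0, 0, 0, 0, 0, 0, 0, 0, 0,
   0, 0, 0, 0, 0, 0, 0, 0, 0, 0, 0, 0, 0, 0, 0, 0, 0, 0, 0, 0, 0, 0, 0, 0, 0, 0, 0, 0, -132493,
   340027, 167957, 776929, 510776, 611243, 511899, 995670, 882821, 802443, 791487, 652700, 393423,
   -108949, -110575, 125737, 516580, 375683, 248639, -378536, -759756, -1237, 234711, -255167,
   -425560, -1484297, -1160068, -493888, -847951, -547252, 547252, 847951, 493888, 1160068,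
   1484297, 425560, 255167, -234711, 1237, 759756, 378536, -248639, -375683, -516580, -125737,
   110575, 108949, -393423, -652700, -791487, -802443, -882821, -995670, -511899, -611243,
   -510776, -776929, -167957, -340027, 132493, 0, 0, 0, 0, 0, 0, 0, 0, 0, 0, 0, 0, 0, 0, 0, 0, 0,
   0, 0, 0, 0, 0, 0, 0, 0, 0, 0, 0, 0, 0, 0, 0, 0, 0, 0, 0, 0, 0, 0, 0, 0, 0, 0, 0, 0, 0, 0, 0, 0,
   0, 0, 0, 0, 0, 0, 0, 0, 0, 0, 0]

def Pξ2 : List ℤ :=
  [0, 0, 0, 0, 0, 0, 0, 0, 0, 0, 0, 0, 0, 0, 0, 0, 0, 0, 0, 0, 0, 0, 0, 0, 0, 0, 0, 0, 0, 0, 0, 0,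
   0, 0, 0, 0, 0, 0, 0, 0, 0, 0, 0, 0, 0, 0, 0, 0, 0, 0, 0, 0, 0, 0, 0, 0, 0, 0, 0, 0, 513424,
   950130, 34680, 388561, 805348, 1172110, 1441580, 1221402, 1338082, 1149663, 1384299, 1647797,
   1873731, 1859220, 1754075, 1437503, 783328, 113834, -65989, -2020, -451224, -368556, -909284,
   -481781, 126215, 615774, 547930, 756855, 874921, 787684, 787684, 874921, 756855, 547930,
   615774, 126215, -481781, -909284, -368556, -451224, -2020, -65989, 113834, 783328, 1437503,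
   1754075, 1859220, 1873731, 1647797, 1384299, 1149663, 1338082, 1221402, 1441580, 1172110,
   805348, 388561, 34680, 950130, 513424, 0, 0, 0, 0, 0, 0, 0, 0, 0, 0, 0, 0, 0, 0, 0, 0, 0, 0, 0,
   0, 0, 0, 0, 0, 0, 0, 0, 0, 0, 0, 0, 0, 0, 0, 0, 0, 0, 0, 0, 0, 0, 0, 0, 0, 0, 0, 0, 0, 0, 0, 0,
   0, 0, 0, 0, 0, 0, 0, 0, 0]

def Pξ3 : List ℤ :=
  [0, 0, 0, 0, 0, 0, 0, 0, 0, 0, 0, 0, 0, 0, 0, 0, 0, 0, 0, 0, 0, 0, 0, 0, 0, 0, 0, 0, 0, 0, 0, 0,
   0, 0, 0, 0, 0, 0, 0, 0, 0, 0, 0, 0, 0, 0, 0, 0, 0, 0, 0, 0, 0, 0, 0, 0, 0, 0, 0, 0, 145388,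
   -73172, -525290, 237486, -428899, 121721, 177818, -334638, 29453, 379011, 408739, 509997,
   348696, 30708, -639422, -790870, -734591, -721849, -1005646, -493327, -916723, -1216691,
   -1329754, -1335099, -1510410, -718624, 484343, 668678, -241120, -395358, 395358, 241120,
   -668678, -484343, 718624, 1510410, 1335099, 1329754, 1216691, 916723, 493327, 1005646, 721849,
   734591, 790870, 639422, -30708, -348696, -509997, -408739, -379011, -29453, 334638, -177818,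
   -121721, 428899, -237486, 525290, 73172, -145388, 0, 0, 0, 0, 0, 0, 0, 0, 0, 0, 0, 0, 0, 0, 0,
   0, 0, 0, 0, 0, 0, 0, 0, 0, 0, 0, 0, 0, 0, 0, 0, 0, 0, 0, 0, 0, 0, 0, 0, 0, 0, 0, 0, 0, 0, 0, 0,
   0, 0, 0, 0, 0, 0, 0, 0, 0, 0, 0, 0, 0]

def Ph : List ℤ :=
  [-24, 5251, -16406, -29373, -55043, -69169, -101060, -144439, -184485, -222559, -242345,
   -266760, -291607, -310960, -321579, -312966, -294016, -264881, -220825, -177667, -137344,
   -122837, -116392, -103500, -92343, -72045, -64829, -37395, 608, 37242, 88569, 136342, 202222,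
   254535, 310439, 361329, 421966, 494521, 569484, 642983, 709556, 797833, 909804, 1050800,
   1217810, 1417326, 1641848, 1872791, 2091792, 2297069, 2497990, 2699144, 2899991, 3097772,
   3315852, 3549453, 3800856, 4056924, 4320922, 4590406, 4865207, 5143595, 5437415, 5724794,
   6016289, 6291248, 6567522, 6832675, 7101829, 7367831, 7621641, 7880458, 8151354, 8436407,
   8713786, 8961768, 9173383, 9352256, 9491276, 9602745, 9691633, 9794691, 9895993, 9984846,
   10051705, 10096079, 10143834, 10169939, 10196723, 10210228, 10210228, 10196723, 10169939,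
   10143834, 10096079, 10051705, 9984846, 9895993, 9794691, 9691633, 9602745, 9491276, 9352256,
   9173383, 8961768, 8713786, 8436407, 8151354, 7880458, 7621641, 7367831, 7101829, 6832675,
   6567522, 6291248, 6016289, 5724794, 5437415, 5143595, 4865207, 4590406, 4320922, 4056924,
   3800856, 3549453, 3315852, 3097772, 2899991, 2699144, 2497990, 2297069, 2091792, 1872791,
   1641848, 1417326, 1217810, 1050800, 909804, 797833, 709556, 642983, 569484, 494521, 421966,
   361329, 310439, 254535, 202222, 136342, 88569, 37242, 608, -37395, -64829, -72045, -92343,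
   -103500, -116392, -122837, -137344, -177667, -220825, -264881, -294016, -312966, -321579,
   -310960, -291607, -266760, -242345, -222559, -184485, -144439, -101060, -69169, -55043, -29373,
   -16406, 5251, -24]

def Pg0 : List ℤ :=
  [46824, 95858, 98271, 85053, 41452, 22279, 48301, 66623, 85060, 105451, 120209, 138142, 180307,
   242726, 301350, 355823, 405488, 449051, 479921, 504166, 523415, 519761, 470804, 406609, 341306,
   272810, 199685, 152220, 97496, -7567, -121670, -246328, -324931, -370240, -397369, -380098,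
   -336950, -259857, -160014, -12758, 188997, 410427, 645178, 906592, 1187146, 1461210, 1730041,
   1999873, 2247974, 2461847, 2673474, 2891999, 3097690, 3292254, 3507762, 3703996, 3861516,
   4016311, 4147363, 4303238, 4397811, 4461434, 4579445, 4673355, 4766496, 4779668, 4723094,
   4674800, 4598928, 4491362, 4372355, 4225393, 4003247, 3724581, 3428130, 3113310, 2778681,
   2442229, 2115205, 1786683, 1461325, 1187738, 981502, 794426, 618540, 454630, 316049, 152904,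
   36827, 13775, -13775, -36827, -152904, -316049, -454630, -618540, -794426, -981502, -1187738,
   -1461325, -1786683, -2115205, -2442229, -2778681, -3113310, -3428130, -3724581, -4003247,
   -4225393, -4372355, -4491362, -4598928, -4674800, -4723094, -4779668, -4766496, -4673355,
   -4579445, -4461434, -4397811, -4303238, -4147363, -4016311, -3861516, -3703996, -3507762,
   -3292254, -3097690, -2891999, -2673474, -2461847, -2247974, -1999873, -1730041, -1461210,
   -1187146, -906592, -645178, -410427, -188997, 12758, 160014, 259857, 336950, 380098, 397369,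
   370240, 324931, 246328, 121670, 7567, -97496, -152220, -199685, -272810, -341306, -406609,
   -470804, -519761, -523415, -504166, -479921, -449051, -405488, -355823, -301350, -242726,
   -180307, -138142, -120209, -105451, -85060, -66623, -48301, -22279, -41452, -85053, -98271,
   -95858, -46824]

def Pg1 : List ℤ :=
  [43504, 5929, -15171, -58492, -96451, -107039, -102876, -58728, -15399, -18444, -32421, -26069,
   -8193, 11264, 32836, 43464, 47267, 54303, 46608, 9413, -38366, -85583, -166495, -299285,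
   -482187, -675225, -848685, -976319, -1148776, -1332947, -1548511, -1751548, -1911316, -2051329,
   -2109156, -2148101, -2206577, -2268653, -2315488, -2327715, -2329258, -2321904, -2286500,
   -2205314, -2079421, -1934825, -1797058, -1649476, -1483179, -1333341, -1222749, -1163126,
   -1131912, -1079256, -987307, -921089, -856102, -796862, -721433, -614402, -622836, -503982,
   -426335, -336620, -224739, -118265, 17196, 89542, 147867, 268522, 457612, 685528, 940704,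
   1189988, 1438203, 1711897, 1984894, 2223037, 2442617, 2662104, 2874040, 3064054, 3237015,
   3412069, 3613070, 3834776, 4014396, 4063583, 4126878, 4130805, 4130805, 4126878, 4063583,
   4014396, 3834776, 3613070, 3412069, 3237015, 3064054, 2874040, 2662104, 2442617, 2223037,
   1984894, 1711897, 1438203, 1189988, 940704, 685528, 457612, 268522, 147867, 89542, 17196,
   -118265, -224739, -336620, -426335, -503982, -622836, -614402, -721433, -796862, -856102,
   -921089, -987307, -1079256, -1131912, -1163126, -1222749, -1333341, -1483179, -1649476,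
   -1797058, -1934825, -2079421, -2205314, -2286500, -2321904, -2329258, -2327715, -2315488,
   -2268653, -2206577, -2148101, -2109156, -2051329, -1911316, -1751548, -1548511, -1332947,
   -1148776, -976319, -848685, -675225, -482187, -299285, -166495, -85583, -38366, 9413, 46608,
   54303, 47267, 43464, 32836, 11264, -8193, -26069, -32421, -18444, -15399, -58728, -102876,
   -107039, -96451, -58492, -15171, 5929, 43504]

end Pool.Agent.MP_f259ea_nt.Q

end
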