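import Pool.Agent.Mg.Ff259ea.G19b7e5

set_option autoImplicit false

open MeasureTheory Finset Filter
open scoped Real

namespace Pool.Agent.MP_f259ea_nt.Q

namespace LS2

lemma harm (A n : ℕ) (hA : 1 ≤ A) :
    ∑ r ∈ Ioc A (A + n), (1 : ℝ) / r ≤ Real.log (A + n : ℕ) - Real.log A := by
  induction n with
  | zero => simp
  | succ n ih =>
    rw [← add_assoc, Finset.sum_Ioc_succ_top (by omega)]
    have h0 : (0 : ℝ) < (A + n : ℕ) := by positivity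
    have h1 := Real.one_sub_inv_le_log_of_pos (x := ((A + n + 1 : ℕ) : ℝ) / (A + n : ℕ))
      (by positivity)
    rw [Real.log_div (by positivity) h0.ne', inv_div] at h1
    have h2 : (1 : ℝ) / (A + n + 1 : ℕ) = 1 - (A + n : ℕ) / (A + n + 1 : ℕ) := by
      push_cast
      field_simp
      ring
    linarith

lemma cq_le (hAr : StmtArith) {Q₁ Q q : ℕ} {L : ℝ} (hL : 1 ≤ L) (hq : 1 ≤ q)
    (h : (Q : ℝ) ≤ Q₁ * L) : |cq Q₁ Q q| ≤ 1 + Real.log L := by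
  have hq0 : (0 : ℝ) < q := by exact_mod_cast hq
  have h1 : |cq Q₁ Q q| ≤ ∑ r ∈ Ioc (Q₁ / q) (Q / q), (1 : ℝ) / r := by
    refine (Finset.abs_sum_le_sum_abs _ _).trans ((Finset.sum_le_sum fun d hd =>
      hAr.1 q d (by simp at hd; omega) (mem_filter.1 hd).2).trans ?_)
    refine (Finset.sum_le_sum_of_subset_of_nonneg (t := (Ioc (Q₁ / q) (Q / q)).image (q * ·))
      (fun d hd => ?_) fun _ _ _ => by positivity).trans (le_of_eq ?_)
    · obtain ⟨hd, r, rfl⟩ := mem_filter.1 hd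
      rw [mem_Ioc] at hd
      refine mem_image.2 ⟨r, mem_Ioc.2 ⟨?_, ?_⟩, rfl⟩
      · exact (Nat.div_lt_iff_lt_mul hq).2 (by rw [mul_comm]; exact hd.1)
      · exact (Nat.le_div_iff_mul_le hq).2 (by rw [mul_comm]; exact hd.2)
    · rw [Finset.sum_image fun a _ b _ e => Nat.eq_of_mul_eq_mul_left hq e]
      refine Finset.sum_congr rfl fun r _ => ?_
      push_cast
      rw [div_mul_eq_div_div, div_self hq0.ne']
  refine h1.trans ?_
  have hL0 := Real.log_nonneg hL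
  rcases le_or_gt (Q / q) (Q₁ / q) with h2 | h2
  · rw [Finset.Ioc_eq_empty_of_le h2, Finset.sum_empty]
    linarith
  · obtain ⟨n, hn⟩ := Nat.exists_eq_add_of_le (Nat.succ_le_of_lt h2)
    rw [← Finset.insert_Ioc_add_one_left_eq_Ioc h2, Finset.sum_insert (by simp), hn]
    have h3 := harm (Q₁ / q + 1) n (Nat.le_add_left 1 _)
    have h4 : (1 : ℝ) / (Q₁ / q + 1 : ℕ) ≤ 1 :=
      (div_le_one (by positivity)).2 (by exact_mod_cast Nat.le_add_left 1 _)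
    have h5 : Real.log (Q₁ / q + 1 + n : ℕ) ≤ Real.log (L * (Q₁ / q + 1 : ℕ)) := by
      refine Real.log_le_log (by positivity) (le_of_mul_le_mul_left ?_ hq0)
      have e1 : (q : ℝ) * (Q₁ / q + 1 + n : ℕ) ≤ Q := by
        exact_mod_cast (hn ▸ Nat.mul_div_le Q q : q * (Q₁ / q + 1 + n) ≤ Q)
      have e2 : (Q₁ : ℝ) ≤ q * (Q₁ / q + 1 : ℕ) := by
        exact_mod_cast (Nat.lt_mul_div_succ Q₁ hq).le
      nlinarith
    rw [Real.log_mul (by positivity) (by positivity)] at h5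
    exact (add_le_add h4 h3).trans (by linarith)

lemma fam_eq (hC : StmtChar) {Q₁ Q N : ℕ} {a : ℕ → ℂ} (h : Cop N Q a) :
    famSum Q₁ Q N a = ∑ q ∈ Icc 1 Q, cq Q₁ Q q * Bq q N a 0 := by
  simp only [famSum, cq, Finset.sum_mul]
  rw [Finset.sum_congr rfl fun d hd => hC.1 d N a (by simp at hd; omega)
    (h d (by simp at hd ⊢; omega))]
  refine Finset.sum_comm' fun d q => ?_
  simp only [mem_Ioc, Nat.mem_divisors, mem_filter, mem_Icc]
  constructor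
  · rintro ⟨h1, h2, h3⟩
    have := Nat.le_of_dvd (by omega) h2
    exact ⟨⟨h1, h2⟩, Nat.pos_of_dvd_of_pos h2 (by omega), by omega⟩
  · rintro ⟨⟨h1, h2⟩, -⟩
    exact ⟨h1, h2, by omega⟩

lemma nS_pos {k : ℕ} {s : Set ℝ} {θ : ℝ} :
    0 < nS k s θ ↔ ∃ b ∈ red k, dZ (θ - (b : ℝ) / k) ∈ s := by
  simp only [nS, Finset.card_pos, Finset.Nonempty, mem_filter]

lemma nS_mono {k : ℕ} {s t : Set ℝ} (h : s ⊆ t) (θ : ℝ) : nS k s θ ≤ nS k t θ := by
  unfold nS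
  refine Finset.card_le_card fun b hb => ?_
  simp only [mem_filter] at hb ⊢
  exact ⟨hb.1, h hb.2⟩

lemma intble (hU : StmtUnfold) (s : Finset ℕ) (c : ℕ → ℝ) (S : ℕ → Set ℝ)
    (hS : ∀ k, MeasurableSet (S k)) (N : ℕ) (a : ℕ → ℂ) :
    IntervalIntegrable (fun θ => (∑ k ∈ s, c k * nS k (S k) θ) * ‖Sx N a θ‖ ^ 2) volume 0 1 := by
  have := IntervalIntegrable.sum s fun k _ => ((hU.2 k (S k) (fun θ => ‖Sx N a θ‖ ^ 2) (hS k)
    ((hU.1 N a).1.norm.pow 2) fun θ => by simp only [(hU.1 N a).2.1 θ]).1).const_mul (c k)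
  refine this.congr fun θ _ => ?_
  simp [Finset.sum_mul, mul_assoc]

lemma integ {ρ M I G : ℝ → ℝ} {A B D : ℝ} (hG : Continuous G) (hG0 : ∀ θ, 0 ≤ G θ)
    (h1 : IntervalIntegrable (fun θ => ρ θ * G θ) volume 0 1)
    (h2 : IntervalIntegrable (fun θ => M θ * G θ) volume 0 1)
    (h3 : IntervalIntegrable (fun θ => I θ * G θ) volume 0 1)
    (h : ∀ θ, ρ θ ≤ A - B * M θ + D * I θ) :
    ∫ θ in (0 : ℝ)..1, ρ θ * G θ ≤ A * (∫ θ in (0 : ℝ)..1, G θ)
      - B * (∫ θ in (0 : ℝ)..1, M θ * G θ) + D * ∫ θ in (0 : ℝ)..1, I θ * G θ := by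
  have h0 := (hG.intervalIntegrable (μ := volume) 0 1).const_mul A
  simp only [← intervalIntegral.integral_const_mul]
  rw [← intervalIntegral.integral_sub h0 (h2.const_mul B),
    ← intervalIntegral.integral_add (h0.sub (h2.const_mul B)) (h3.const_mul D)]
  refine intervalIntegral.integral_mono_on zero_le_one h1
    ((h0.sub (h2.const_mul B)).add (h3.const_mul D)) fun θ _ => ?_
  exact (mul_le_mul_of_nonneg_right (h θ) (hG0 θ)).trans (le_of_eq (by ring))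

lemma pt (hA : StmtArcs) {Q : ℕ} {η W Cc X E θ m : ℝ} {c : ℕ → ℝ} (hQ : 1 ≤ Q) (hη : 0 < η)
    (hη2 : η < 1 / 2) (hc : ∀ q ∈ Icc 1 Q, |c q| ≤ Cc) (hCc : 0 ≤ Cc) (hX : 0 ≤ X) (hE : 0 ≤ E)
    (hW : W ≤ (Q : ℝ) ^ 2 * η)
    (hmin : (∀ (a : ℤ) (k : ℕ), 1 ≤ k → W ≤ Q * (|k * θ - a| + k * η)) →
      ∑ q ∈ Icc 1 Q, c q * nB q η θ ≤ X + E) (hm1 : m ≤ 1)
    (hm0 : (∀ (a : ℤ) (k : ℕ), 1 ≤ k → 1 ≤ Q * (|k * θ - a| + k * η)) → m ≤ 0) :
    ∑ q ∈ Icc 1 Q, c q * nB q η θ ≤ X + (E + Cc) - X * m + Cc * (2 * η * (Q : ℝ) ^ 2 + 1) *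
      ∑ k ∈ Icc 1 Q, (nS k {x | 1 ≤ Q * k * (x + η) ∧ Q * k * (x + η) < W} θ : ℝ) := by
  have hQ0 : (0 : ℝ) < Q := by exact_mod_cast hQ
  have h1 : ∑ q ∈ Icc 1 Q, c q * nB q η θ ≤ Cc * ∑ q ∈ Icc 1 Q, (nB q η θ : ℝ) := by
    rw [Finset.mul_sum]
    exact Finset.sum_le_sum fun q hq =>
      mul_le_mul_of_nonneg_right ((le_abs_self _).trans (hc q hq)) (by positivity)
  set I : ℝ := ∑ k ∈ Icc 1 Q, (nS k {x | 1 ≤ Q * k * (x + η) ∧ Q * k * (x + η) < W} θ : ℝ)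
  have hI : 0 ≤ Cc * (2 * η * (Q : ℝ) ^ 2 + 1) * I := by positivity
  by_cases hcore : ∀ (a : ℤ) (k : ℕ), 1 ≤ k → 1 ≤ Q * (|k * θ - a| + k * η)
  · have h2 := mul_nonneg hX (neg_nonneg.2 (hm0 hcore))
    by_cases hm : ∀ (a : ℤ) (k : ℕ), 1 ≤ k → W ≤ Q * (|k * θ - a| + k * η)
    · linarith [hmin hm]
    · push Not at hm
      obtain ⟨a, k, hk, hlt⟩ := hm
      obtain ⟨k', h3, h4, b, hb, h5⟩ := hA.2.2.2.1 θ a k hk
      obtain ⟨a', h6⟩ := hA.2.2.2.2 θ b k' h3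
      have h7 := hcore a' k' h3
      have h8 : (Q : ℝ) * (|k' * θ - a'| + k' * η) < W := by
        refine lt_of_le_of_lt ?_ hlt
        rw [h6]
        gcongr
      have h9 : k' ≤ Q := by
        have : (Q : ℝ) * η * k' < Q * η * Q := by
          nlinarith [mul_nonneg hQ0.le (abs_nonneg (k' * θ - a'))]
        exact_mod_cast (lt_of_mul_lt_mul_left this (by positivity)).le
      rw [h6, ← mul_add, ← mul_assoc] at h7 h8
      have h10 : (1 : ℝ) ≤ I := le_trans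
        (Nat.one_le_cast.2 (nS_pos.2 ⟨b, hb, And.intro h7 h8⟩))
        (Finset.single_le_sum (f := fun k : ℕ =>
          (nS k {x | 1 ≤ Q * k * (x + η) ∧ Q * k * (x + η) < W} θ : ℝ))
          (fun _ _ => by positivity) (mem_Icc.2 ⟨h3, h9⟩))
      have h11 := mul_le_mul_of_nonneg_left (hA.1 Q η θ hη.le hη2) hCc
      have h12 := le_mul_of_one_le_right
        (show 0 ≤ Cc * (2 * η * (Q : ℝ) ^ 2 + 1) by positivity) h10
      linarith
  · push Not at hcore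
    obtain ⟨a, k, hk, hlt⟩ := hcore
    have h2 : ∑ q ∈ Icc 1 Q, (nB q η θ : ℝ) ≤ 1 := by
      exact_mod_cast hA.2.1 Q η θ a k hη.le hk hlt
    have h3 := mul_le_mul_of_nonneg_left h2 hCc
    have h4 := mul_le_mul_of_nonneg_left hm1 hX
    linarith

lemma major (hU : StmtUnfold) (hA : StmtArcs) (hMa : StmtMajor) {Q N : ℕ} {a : ℕ → ℂ}
    {η h β₀ : ℝ} (hQ : 1 ≤ Q) (hN : 1 ≤ N) (hNQ : (N : ℝ) ≤ (Q : ℝ) ^ 2) (hcop : Cop N Q a)
    (hη : 0 < η) (hηN : η ≤ 1 / N) (h2 : 2 ≤ (Q : ℝ) ^ 2 * η) (hh : 0 ≤ h) (hβ : 0 ≤ β₀)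
    (hc : h = 0 ∨ 2 * Q * Real.exp h * (β₀ + 1 / N) ≤ 1) :
    ∃ M : ℝ → ℝ, IntervalIntegrable (fun θ => M θ * ‖Sx N a θ‖ ^ 2) volume 0 1 ∧
      (h * ∫ β in (-β₀)..β₀, ‖Sx N a β‖ ^ 2 ≤ ∫ θ in (0 : ℝ)..1, M θ * ‖Sx N a θ‖ ^ 2) ∧
      (∀ θ, M θ ≤ 1) ∧
      ∀ θ : ℝ, (∀ (a : ℤ) (k : ℕ), 1 ≤ k → 1 ≤ Q * (|k * θ - a| + k * η)) → M θ ≤ 0 := by
  rcases hc with rfl | hc
  · exact ⟨fun _ => 0, by simp, by simp, fun _ => zero_le_one, fun _ _ => le_rfl⟩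
  have hQ1 : (1 : ℝ) ≤ Q := by exact_mod_cast hQ
  have hN0 : (0 : ℝ) < N := by exact_mod_cast hN
  have he := Real.one_le_exp hh
  have hi : (0 : ℝ) < 1 / N := by positivity
  have key : ∀ k ∈ Icc 1 ⌊Real.exp h⌋₊, ∀ x ≤ β₀, (Q : ℝ) * k * (x + η) < 1 := fun k hk x hx => by
    have h3 : (k : ℝ) ≤ Real.exp h := (Nat.le_floor_iff (by positivity)).1 (mem_Icc.1 hk).2
    calc _ ≤ (Q : ℝ) * k * (β₀ + 1 / N) := by gcongr
      _ ≤ Q * Real.exp h * (β₀ + 1 / N) := by gcongr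
      _ < 1 := by linarith
  refine ⟨fun θ => ∑ k ∈ Icc 1 ⌊Real.exp h⌋₊, (nB k β₀ θ : ℝ), ?_, hMa N Q a h β₀ hcop hh hβ ?_ ?_,
    fun θ => ?_, fun θ hθ => Finset.sum_nonpos fun k hk => ?_⟩
  · simpa only [one_mul, nB] using intble hU (Icc 1 ⌊Real.exp h⌋₊) (fun _ => 1)
      (fun _ => Set.Iic β₀) (fun _ => measurableSet_Iic) N a
  · have : 1 * 1 * β₀ ≤ Q * Real.exp h * (β₀ + 1 / N) := by
      gcongr
      linarith
    linarith
  · have h3 : Q * Real.exp h * (1 / N) ≤ Q * Real.exp h * (β₀ + 1 / N) := by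
      gcongr
      linarith
    have h4 : Q * Real.exp h * (1 / N) ≤ 1 := by linarith
    rw [mul_one_div, div_le_one hN0] at h4
    exact le_of_mul_le_mul_left (h4.trans (by rwa [sq] at hNQ)) (by linarith)
  · have h3 := hA.2.2.1 Q ⌊Real.exp h⌋₊ η 1 θ hQ hη one_pos (by linarith)
    have h4 : ∑ k ∈ Icc 1 ⌊Real.exp h⌋₊, nB k β₀ θ ≤ 1 :=
      (Finset.sum_le_sum fun k hk => nS_mono (key k hk) θ).trans h3
    beta_reduce
    exact_mod_cast h4
  · by_contra hn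
    obtain ⟨b, -, hb⟩ := nS_pos.1 (show 0 < nB k β₀ θ by exact_mod_cast not_le.1 hn)
    obtain ⟨a', h6⟩ := hA.2.2.2.2 θ b k (mem_Icc.1 hk).1
    have h7 := hθ a' k (mem_Icc.1 hk).1
    rw [h6, ← mul_add, ← mul_assoc] at h7
    exact h7.not_gt (key k hk _ hb)

lemma asym {C δ ε : ℝ} (hC : 0 < C) (hδ : 0 < δ) (hε : 0 < ε) : ∀ᶠ L : ℝ in atTop,
    3 / 2 * C * (1 + L) ^ 2 / L ^ 3 + 49 * (1 + Real.log L) / L + 3 / 2 * (1 + Real.log L) *
      (4 * √(1 + L) * (1 + Real.log (L ^ 3)) / (δ / 4 * L)) ≤ ε := by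
  have h0 : (0 : ℝ) < ((8 : ℕ) : ℝ)⁻¹ := by norm_num
  filter_upwards [eventually_ge_atTop 1,
    (tendsto_rpow_atTop h0).eventually_ge_atTop ((6 * C + 441 + 10800 / δ) / ε)] with L h1 h2
  have h3 := Real.log_le_rpow_div (zero_le_one.trans h1) h0
  have h4 := Real.rpow_inv_natCast_pow (zero_le_one.trans h1) (show 8 ≠ 0 by norm_num)
  have h5 := Real.one_le_rpow h1 h0.le
  have h6 := Real.log_nonneg h1
  rw [Real.log_pow]
  generalize Real.log L = y at h3 h6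
  generalize L ^ ((8 : ℕ) : ℝ)⁻¹ = s at h2 h3 h4 h5
  subst h4
  have h7 : y ≤ 8 * s := by norm_num at h3; linarith
  have h8 : √(1 + s ^ 8) ≤ 2 * s ^ 4 := Real.sqrt_le_iff.2 ⟨by positivity, by nlinarith⟩
  have hp : ∀ n : ℕ, 1 ≤ s ^ n := fun n => one_le_pow₀ h5
  have e1 : 3 / 2 * C * (1 + s ^ 8) ^ 2 / (s ^ 8) ^ 3 ≤ 6 * C / s :=
    calc _ ≤ 3 / 2 * C * (2 * s ^ 8) ^ 2 * s ^ 7 / (s ^ 8) ^ 3 := by
          refine div_le_div_of_nonneg_right ?_ (by positivity)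
          refine le_trans ?_ (le_mul_of_one_le_right (by positivity) (hp 7))
          gcongr
          linarith
      _ = _ := by field_simp; norm_num
  have e2 : 49 * (1 + y) / s ^ 8 ≤ 441 / s :=
    calc _ ≤ 49 * (9 * s) * s ^ 6 / s ^ 8 := by
          refine div_le_div_of_nonneg_right ?_ (by positivity)
          refine le_trans ?_ (le_mul_of_one_le_right (by positivity) (hp 6))
          linarith
      _ = _ := by field_simp; norm_num
  have e3 : 3 / 2 * (1 + y) * (4 * √(1 + s ^ 8) * (1 + (3 : ℕ) * y) / (δ / 4 * s ^ 8))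
      ≤ 10800 / δ / s :=
    calc _ ≤ 3 / 2 * (9 * s) * (4 * (2 * s ^ 4) * (25 * s * s) / (δ / 4 * s ^ 8)) := by
          push_cast
          gcongr
          · linarith
          · nlinarith
      _ = _ := by field_simp; norm_num
  rw [div_le_iff₀ hε, mul_comm s, ← div_le_iff₀ (by positivity), add_div, add_div] at h2
  linarith

end LS2

open LS2 in
theorem stmtLS2 (hAr : StmtArith) (hO : StmtOrth) (hC : StmtChar) (hU : StmtUnfold)
    (hA : StmtArcs) (hG : StmtGall) (hMi : StmtMinor) (hMa : StmtMajor) (hI : StmtInter) :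
    StmtLS2 := by
  intro δ ε hδ hε
  obtain ⟨C, hC0, hMi⟩ := hMi
  have hlog := Real.tendsto_log_atTop.comp tendsto_natCast_atTop_atTop
  refine eventually_atTop.1 ?_
  filter_upwards [hlog.eventually (asym hC0 hδ hε), hlog.eventually_gt_atTop 2,
    eventually_gt_atTop 1, tendsto_natCast_atTop_atTop.eventually
      ((isLittleO_log_rpow_rpow_atTop (7 : ℕ) (half_pos hδ)).bound (show (0 : ℝ) < 1 / 8 by norm_num))]
    with Q h1 hL hQ h2 Q₁ N a h β₀ hQ₁ hQL hN hcop hh hβ hc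
  rcases Nat.eq_zero_or_pos N with rfl | hN1
  · simp [famSum, Ad, nrm, Sx]
  simp only [Function.comp] at h1 hL
  have hQ1 : (1 : ℝ) < Q := by exact_mod_cast hQ
  have hN0 : (1 : ℝ) ≤ N := by exact_mod_cast hN1
  have hR : Real.log ((Q : ℝ) ^ (δ / 4)) = δ / 4 * Real.log Q := Real.log_rpow (by positivity) _
  have hR1 : 1 < (Q : ℝ) ^ (δ / 4) := Real.one_lt_rpow hQ1 (by positivity)
  rw [Real.rpow_natCast, Real.norm_of_nonneg (by positivity),
    Real.norm_of_nonneg (by positivity)] at h2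
  have hJ := hI N Q a (1 / (N * Real.log Q)) (Real.log Q ^ 3) _ hcop hQ.le (by positivity)
    (one_le_pow₀ (by linarith)) hR1
  rw [hR] at hJ
  have hM := hMi Q₁ Q (1 / (N * Real.log Q)) (Real.log Q ^ 3)
  generalize Real.log Q = L at *
  have hL0 : 0 < L := by linarith
  have hY : 8 * (L ^ 3 * (Q : ℝ) ^ (δ / 4)) ^ 2 ≤ (Q : ℝ) ^ 2 * (1 / (N * L)) := by
    have e1 : (Q : ℝ) ^ (δ / 2) = ((Q : ℝ) ^ (δ / 4)) ^ 2 := by
      rw [← Real.rpow_natCast, ← Real.rpow_mul (by positivity)]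
      congr 1
      push_cast
      ring
    have e2 : (Q : ℝ) ^ 2 = (Q : ℝ) ^ (2 - δ) * ((Q : ℝ) ^ (δ / 2) * (Q : ℝ) ^ (δ / 2)) := by
      rw [← Real.rpow_add (by positivity), ← Real.rpow_add (by positivity), ← Real.rpow_natCast]
      congr 1
      push_cast
      ring
    rw [mul_one_div, le_div_iff₀ (by positivity), e2, mul_pow, ← e1]
    calc _ = N * ((Q : ℝ) ^ (δ / 2) * (8 * L ^ 7)) := by ring
      _ ≤ _ := by
        gcongr
        linarith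
  have hNQ : (N : ℝ) ≤ (Q : ℝ) ^ 2 := by
    rw [← Real.rpow_natCast]
    exact hN.trans (Real.rpow_le_rpow_of_exponent_le hQ1.le (by push_cast; linarith))
  have hηN : 1 / (N * L) ≤ 1 / N := by
    gcongr
    nlinarith
  have hη2 : 1 / (N * L) < 1 / 2 := by
    gcongr
    nlinarith
  have hNη : 1 / (N * L) * N = 1 / L := by field_simp
  have hη : 0 < 1 / (N * L) := by positivity
  replace hJ := hJ hY
  generalize 1 / (N * L) = η at *
  have hL3 : 1 ≤ L ^ 3 := one_le_pow₀ (by linarith)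
  have hY1 : 2 * (L ^ 3) ^ 2 ≤ (Q : ℝ) ^ 2 * η := by
    have : (L ^ 3) ^ 2 ≤ (L ^ 3 * (Q : ℝ) ^ (δ / 4)) ^ 2 := by
      gcongr
      exact le_mul_of_one_le_right (by positivity) hR1.le
    nlinarith
  have hCc : 0 ≤ Real.log L := Real.log_nonneg (by linarith)
  have hcq : ∀ q ∈ Icc 1 Q, |cq Q₁ Q q| ≤ 1 + Real.log L := fun q hq =>
    cq_le hAr (by linarith) (mem_Icc.1 hq).1 hQL
  have hF : ∑ d ∈ Ioc Q₁ Q, phiS d = famCard Q₁ Q :=
    Finset.sum_congr rfl fun d hd => (hO.2.1 d (by simp at hd; omega)).1.symm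
  have hF0 : 0 ≤ famCard Q₁ Q := Finset.sum_nonneg fun _ _ => Nat.cast_nonneg _
  have hn0 : 0 ≤ nrm N a := Finset.sum_nonneg fun _ _ => by positivity
  obtain ⟨M, m1, m2, m3, m4⟩ :=
    major hU hA hMa hQ.le hN1 hNQ hcop hη hηN (by nlinarith) hh hβ hc
  have h3 := integ (G := fun θ => ‖Sx N a θ‖ ^ 2) ((hU.1 N a).1.norm.pow 2) (fun θ => by positivity)
    (intble hU (Icc 1 Q) (cq Q₁ Q) (fun _ => Set.Iic η) (fun _ => measurableSet_Iic) N a) m1
    (by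
      simpa only [one_mul] using intble hU (Icc 1 Q) (fun _ => 1)
        (fun k => {x | 1 ≤ Q * k * (x + η) ∧ Q * k * (x + η) < L ^ 3}) (fun k => by measurability)
        N a)
    fun θ => pt hA (X := 2 * η * famCard Q₁ Q)
      (E := C * (1 + L) ^ 2 * (Q * √η + η * Q + η * (Q : ℝ) ^ 2 / L ^ 3)) hQ.le hη hη2 hcq
      (by positivity) (by positivity) (by positivity) (by nlinarith) (fun hm => by
        have := (abs_le.1 (hM θ hQ.le hQ₁ hη hη2 (by positivity) hm)).2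
        rw [hF] at this
        linarith) (m3 θ) (m4 θ)
  have h4 := (abs_le.1 (hG Q N a η _ (cq Q₁ Q) hη hη2 (by positivity) hcq)).2
  rw [← fam_eq hC hcop] at h4
  rw [(hU.1 N a).2.2] at h3
  have h5 := mul_le_mul_of_nonneg_left m2 (show 0 ≤ 2 * η * famCard Q₁ Q by positivity)
  have h6 := mul_le_mul_of_nonneg_left hJ
    (show 0 ≤ (1 + Real.log L) * (2 * η * (Q : ℝ) ^ 2 + 1) by positivity)
  have hJ0 : 0 ≤ 4 * √(1 + L) * (1 + Real.log (L ^ 3)) / (δ / 4 * L) := by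
    have := Real.log_nonneg hL3
    positivity
  generalize 4 * √(1 + L) * (1 + Real.log (L ^ 3)) / (δ / 4 * L) = J at *
  have h7 : 2 * η * (Q : ℝ) ^ 2 + 1 ≤ 3 * η * (Q : ℝ) ^ 2 := by nlinarith
  have h8 : Q * √η ≤ η * (Q : ℝ) ^ 2 / L ^ 3 := by
    rw [le_div_iff₀ (by positivity)]
    refine le_of_sq_le_sq (a := _) ?_ (by positivity) |>.trans' le_rfl
    rw [mul_pow, mul_pow, Real.sq_sqrt hη.le, sq (η * _), mul_comm η]
    gcongr
    nlinarith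
  have h9 : η * Q ≤ Q * √η := by
    rw [mul_comm]
    gcongr
    exact Real.le_sqrt_self_iff.2 (by linarith)
  have h10 : C * (1 + L) ^ 2 * (Q * √η + η * Q + η * (Q : ℝ) ^ 2 / L ^ 3) + (1 + Real.log L)
      + (1 + Real.log L) * (2 * η * (Q : ℝ) ^ 2 + 1) * J
      + 2 * η * ((1 + Real.log L) * (2 * η * (Q : ℝ) ^ 2 + 1) * (4 * π * N))
      ≤ 2 * η * (ε * (Q : ℝ) ^ 2) := by
    have e1 : 1 ≤ 2 * η * (Q : ℝ) ^ 2 * (1 / L) := by
      rw [mul_one_div, le_div_iff₀ hL0]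
      nlinarith [le_self_pow₀ (show 1 ≤ L by linarith) (show 3 ≠ 0 by norm_num)]
    calc _ ≤ C * (1 + L) ^ 2 * (3 * (η * (Q : ℝ) ^ 2 / L ^ 3))
          + (1 + Real.log L) * (2 * η * (Q : ℝ) ^ 2 * (1 / L))
          + (1 + Real.log L) * (3 * η * (Q : ℝ) ^ 2) * J
          + 2 * η * ((1 + Real.log L) * (3 * η * (Q : ℝ) ^ 2) * (4 * 4 * N)) := by
          gcongr
          · linarith
          · exact le_mul_of_one_le_right (by positivity) e1
          · exact Real.pi_le_four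
      _ = 2 * η * ((3 / 2 * C * (1 + L) ^ 2 / L ^ 3 + 49 * (1 + Real.log L) / L
          + 3 / 2 * (1 + Real.log L) * J) * (Q : ℝ) ^ 2) := by
          linear_combination 96 * η * (1 + Real.log L) * (Q : ℝ) ^ 2 * hNη
      _ ≤ _ := by gcongr
  have h11 := mul_le_mul_of_nonneg_right h10 hn0
  refine le_of_mul_le_mul_left ?_ (show 0 < 2 * η by positivity)
  have h12 := mul_le_mul_of_nonneg_left h4 (show 0 ≤ 2 * η by positivity)
  rw [mul_sub, ← mul_assoc (2 * η) (1 / _), mul_one_div_cancel (by positivity), one_mul] at h12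
  simp only [nB] at h3 h12
  linarith

end Pool.Agent.MP_f259ea_nt.Q
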