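import Pool.Agent.Mg.Ff259ea.G290dc1

/-!
The numerical certificate for band width two with multipliers.
-/

set_option autoImplicit false

open Finset

namespace Pool.Agent.MP_f259ea_nt.Q

def Pξ : ℕ → List ℤ
  | 0 => Pξ0
  | 1 => Pξ1
  | 2 => Pξ2
  | _ => Pξ3

def Pg : ℕ → List ℤ
  | 0 => Pg0
  | _ => Pg1

noncomputable def d2 : BData where
  n := 180
  M := 60
  J := 4
  T := 2
  ψ i := (Pψ.getD i 0 : ℝ) / 10000000
  c j i := ((Pξ j).getD i 0 : ℝ) / (Pψ.getD i 0 : ℝ)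
  h i := (Ph.getD i 0 : ℝ) / 10000000
  g t i := ((Pg t).getD i 0 : ℝ) / 10000000
  ν := 1 / 25
  σ := 59 / 20
  τ := 799 / 250
  b := 3636 / 15625
  l := 12 / 25
  kl := 7 / 10
  s := 7 / 10

def lagW2 (r : ℕ) : ℤ := acL Pψ r - (acL Pξ0 r + acL Pξ1 r + acL Pξ2 r + acL Pξ3 r)

theorem lagZ2 : ∀ r < 180, acL Ph r + (acL Pg0 r + acL Pg1 r) ≤ lagW2 r := by decide +kernel

theorem cZ2 : ∀ i < 180, 25 * (Pξ0.getD i 0 ^ 2 + Pξ1.getD i 0 ^ 2 + Pξ2.getD i 0 ^ 2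
    + Pξ3.getD i 0 ^ 2) ≤ Pψ.getD i 0 ^ 2 := by decide +kernel

theorem ψZ2 : ∀ i < 180, 0 ≤ Pψ.getD i 0 ∧ (i < 60 ∨ 120 ≤ i → Pψ.getD i 0 = 0) := by
  decide +kernel

theorem majQ2 : ∀ i < 180, (Pψ.getD i 0 : ℚ) / 10000000 - (Ph.getD i 0 : ℚ) / 10000000 ≤
    3636 / 15625 * (max (1 - 987 / 100 * (12 / 25) ^ 2 *
      max ((((i : ℚ) - 180 / 2) * (1 / 60)) ^ 2) (((((i + 1 : ℕ) : ℚ) - 180 / 2) * (1 / 60)) ^ 2)
        / 6) 0) ^ 2 := by decide +kernel

theorem klQ2 : (7 / 10 : ℚ) ≤ ∑ i ∈ range 180, (Pψ.getD i 0 : ℚ) / 10000000 *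
    (FQ ((((i + 1 : ℕ) : ℚ) - 180 / 2) * (1 / 60)) - FQ (((i : ℚ) - 180 / 2) * (1 / 60))) := by
  decide +kernel

theorem lenψ2 : Pψ.length = 180 := by decide +kernel
theorem lenh2 : Ph.length = 180 := by decide +kernel
theorem lenx0 : Pξ0.length = 180 := by decide +kernel
theorem lenx1 : Pξ1.length = 180 := by decide +kernel
theorem lenx2 : Pξ2.length = 180 := by decide +kernel
theorem lenx3 : Pξ3.length = 180 := by decide +kernel
theorem leng20 : Pg0.length = 180 := by decide +kernel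
theorem leng21 : Pg1.length = 180 := by decide +kernel
theorem sumψ2 : Pψ.sum = 600000000 := by decide +kernel
theorem sumh2 : Ph.sum = 594115462 := by decide +kernel
theorem sumg20 : Pg0.sum = 0 := by decide +kernel
theorem sumg21 : Pg1.sum = -10907702 := by decide +kernel
theorem lagSum2 : ∑ r ∈ range 180, lagW2 r * (lagI r + lagI (-r)) - lagW2 0 * lagI 0
    = 67686924552150590548 := by decide +kernel

theorem d2_w {i i' : ℕ} (hi : i < 180) (hi' : i' < 180) : d2.w i i' =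
    ((Pψ.getD i 0 * Pψ.getD i' 0 - (Pξ0.getD i 0 * Pξ0.getD i' 0 + Pξ1.getD i 0 * Pξ1.getD i' 0
      + Pξ2.getD i 0 * Pξ2.getD i' 0 + Pξ3.getD i 0 * Pξ3.getD i' 0) : ℤ) : ℝ)
      / 100000000000000 := by
  have z : ∀ k < 180, Pψ.getD k 0 = 0 → Pξ0.getD k 0 = 0 ∧ Pξ1.getD k 0 = 0 ∧
      Pξ2.getD k 0 = 0 ∧ Pξ3.getD k 0 = 0 := by
    intro k hk h0
    have := cZ2 k hk
    rw [h0] at this
    have a0 := sq_nonneg (Pξ0.getD k 0)
    have a1 := sq_nonneg (Pξ1.getD k 0)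
    have a2 := sq_nonneg (Pξ2.getD k 0)
    have a3 := sq_nonneg (Pξ3.getD k 0)
    refine ⟨?_, ?_, ?_, ?_⟩ <;> apply pow_eq_zero_iff (two_ne_zero) |>.1 <;> nlinarith
  simp only [BData.w, d2, sum_range_succ, range_zero, sum_empty, Pξ, zero_add]
  by_cases h1 : Pψ.getD i 0 = 0
  · obtain ⟨e0, e1, e2, e3⟩ := z i hi h1
    rw [h1, e0, e1, e2, e3]; simp
  by_cases h2 : Pψ.getD i' 0 = 0
  · obtain ⟨e0, e1, e2, e3⟩ := z i' hi' h2
    rw [h2, e0, e1, e2, e3]; simp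
  have h1' : (Pψ.getD i 0 : ℝ) ≠ 0 := by exact_mod_cast h1
  have h2' : (Pψ.getD i' 0 : ℝ) ≠ 0 := by exact_mod_cast h2
  push_cast
  field_simp
  ring

theorem d2_lagw {r : ℕ} :
    ∑ i ∈ range (180 - r), d2.w (i + r) i = (lagW2 r : ℝ) / 100000000000000 := by
  rw [sum_congr rfl fun i hi => d2_w (i := i + r) (i' := i)
    (by have := mem_range.1 hi; omega) (by have := mem_range.1 hi; omega), ← sum_div, lagW2,
    acL_eq _ _ _ lenψ2, acL_eq _ _ _ lenx0, acL_eq _ _ _ lenx1, acL_eq _ _ _ lenx2,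
    acL_eq _ _ _ lenx3, ← Int.cast_sum]
  simp only [sum_sub_distrib, sum_add_distrib]

theorem d2_lagH {r : ℕ} : ∑ i ∈ range (180 - r), d2.H (i + r) i
    = ((acL Ph r + (acL Pg0 r + acL Pg1 r) : ℤ) : ℝ) / 100000000000000 := by
  rw [acL_eq _ _ _ lenh2, acL_eq _ _ _ leng20, acL_eq _ _ _ leng21, ← sum_add_distrib,
    ← sum_add_distrib, Int.cast_sum, sum_div]
  refine sum_congr rfl fun i _ => ?_
  simp only [BData.H, d2, sum_range_succ, range_zero, sum_empty, Pg, zero_add]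
  push_cast; ring

theorem d2_D : d2.D = 1 / 60 := by simp [BData.D, d2]

theorem d2_h0 : d2.h0 = 594115462 / 600000000 := by
  rw [BData.h0, d2_D]
  change 1 / 60 * ∑ i ∈ range 180, (Ph.getD i 0 : ℝ) / 10000000 = _
  rw [sum_cast _ lenh2, sumh2]; norm_num

theorem d2_ρ : d2.ρ = (594115462 / 600000000) ^ 2 + (10907702 / 600000000) ^ 2 := by
  rw [BData.ρ, d2_h0, d2_D]
  change _ + ∑ t ∈ range 2, (1 / 60 * ∑ i ∈ range 180, ((Pg t).getD i 0 : ℝ) / 10000000) ^ 2 = _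
  simp only [sum_range_succ _ 1, sum_range_succ _ 0, range_zero, sum_empty, Pg]
  rw [sum_cast _ leng20, sum_cast _ leng21, sumg20, sumg21]; norm_num

theorem d2_good : d2.Good where
  M_pos := by decide
  ψ_nonneg := fun i hi => div_nonneg (by exact_mod_cast (ψZ2 i hi).1) (by norm_num)
  ψ_sum := by
    rw [d2_D]
    change 1 / 60 * ∑ i ∈ range 180, (Pψ.getD i 0 : ℝ) / 10000000 = _
    rw [sum_cast _ lenψ2, sumψ2]; norm_num
  supp := fun i hi i' hi' h => by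
    change i' + 60 ≤ i at h
    change (Pψ.getD i 0 : ℝ) / 10000000 * ((Pψ.getD i' 0 : ℝ) / 10000000) = 0
    by_cases h1 : i' < 60
    · rw [(ψZ2 i' hi').2 (Or.inl h1)]; simp
    · rw [(ψZ2 i hi).2 (Or.inr (by omega))]; simp
  c_le := fun i hi => by
    have h : (25 : ℝ) * ((Pξ0.getD i 0 : ℝ) ^ 2 + (Pξ1.getD i 0 : ℝ) ^ 2 + (Pξ2.getD i 0 : ℝ) ^ 2
      + (Pξ3.getD i 0 : ℝ) ^ 2) ≤ (Pψ.getD i 0 : ℝ) ^ 2 := by exact_mod_cast cZ2 i hi
    simp only [d2, sum_range_succ, range_zero, sum_empty, Pξ, zero_add, div_pow, ← add_div]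
    rcases eq_or_lt_of_le (sq_nonneg (Pψ.getD i 0 : ℝ)) with h0 | h0
    · rw [← h0]; norm_num
    · rw [div_le_iff₀ h0]; linarith
  lag := fun r hr => by
    change ∑ i ∈ range (180 - r), d2.H (i + r) i ≤ ∑ i ∈ range (180 - r), d2.w (i + r) i
    rw [d2_lagw, d2_lagH]
    exact div_le_div_of_nonneg_right (by exact_mod_cast lagZ2 r hr) (by norm_num)
  maj := fun i hi => by
    have h := (Rat.cast_le (K := ℝ)).2 (majQ2 i hi)
    simp only [BData.node, d2_D]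
    simp only [d2]
    push_cast at h ⊢
    exact h
  kl_le := by
    have h := (Rat.cast_le (K := ℝ)).2 klQ2
    simp only [BData.node, d2_D, BData.F]
    simp only [d2, FQ] at h ⊢
    push_cast at h ⊢
    exact h
  ν_nonneg := by simp only [d2]; norm_num
  ν_le := by simp only [d2]; norm_num
  σ_pos := by simp only [d2]; norm_num
  τ_nonneg := by simp only [d2]; norm_num
  b_nonneg := by simp only [d2]; norm_num
  l_pos := by simp only [d2]; norm_num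
  s_nonneg := by simp only [d2]; norm_num
  h0_nonneg := by rw [d2_h0]; norm_num
  σ_ge := by rw [d2_h0]; simp only [d2]; norm_num
  cp_σ := by simp only [BData.cp, d2]; norm_num
  cp_ρ := by rw [d2_ρ]; simp only [BData.cp, d2]; norm_num
  pair := by rw [d2_ρ]; simp only [BData.cp, BData.t2, d2]; norm_num
  triple := by rw [d2_ρ]; simp only [BData.cp, BData.t2, d2]; norm_num
  cl21 := by rw [d2_ρ]; simp only [BData.cp, BData.t2, BData.ε, d2]; norm_num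
  cl22 := by rw [d2_ρ]; simp only [BData.cp, BData.t2, BData.ε, d2]; norm_num
  cl111 := by rw [d2_ρ]; simp only [BData.cp, BData.t2, BData.ε, d2]; norm_num

theorem d2_const : (9675 / 10000 : ℝ) * (2 * d2.ρ) < 3 * d2.ρ - J2 d2.K := by
  rw [J2_int d2_good d2_D lagW2 (fun r => d2_lagw)]
  change _ < _ - ((∑ r ∈ range 180, lagW2 r * (lagI r + lagI (-r)) - lagW2 0 * lagI 0 : ℤ) : ℝ) / _
  rw [lagSum2, d2_ρ]
  norm_num

theorem d2_ρ_pos : 0 < d2.ρ := by rw [d2_ρ]; norm_num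

end Pool.Agent.MP_f259ea_nt.Q
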