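import Mathlib
import Pool.Agent.Mg.Ff259ea.Gae27b5

section

/-!
Part B, matrix lemmas: trace pairing, diagonalisation, inertia bound, spectral loss.
-/

set_option autoImplicit false

open Matrix Finset
open scoped ComplexOrder

namespace Pool.Agent.MP_f259ea_nt.B

variable {n : Type*} [Fintype n] [DecidableEq n]

/-- Real trace pairing. -/
noncomputable def ip (X Y : Matrix n n ℂ) : ℝ := (X * Y).trace.re

/-- Real trace. -/
noncomputable def tr (X : Matrix n n ℂ) : ℝ := X.trace.re

omit [DecidableEq n] in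
lemma ip_comm (X Y : Matrix n n ℂ) : ip X Y = ip Y X := by
  unfold ip; rw [trace_mul_comm]

omit [DecidableEq n] in
lemma ip_add_left (X X' Y : Matrix n n ℂ) : ip (X + X') Y = ip X Y + ip X' Y := by
  unfold ip; rw [Matrix.add_mul, trace_add, Complex.add_re]

omit [DecidableEq n] in
lemma ip_add_right (X Y Y' : Matrix n n ℂ) : ip X (Y + Y') = ip X Y + ip X Y' := by
  unfold ip; rw [Matrix.mul_add, trace_add, Complex.add_re]

omit [DecidableEq n] in
lemma ip_sub_left (X X' Y : Matrix n n ℂ) : ip (X - X') Y = ip X Y - ip X' Y := by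
  unfold ip; rw [Matrix.sub_mul, trace_sub, Complex.sub_re]

omit [DecidableEq n] in
lemma ip_sub_right (X Y Y' : Matrix n n ℂ) : ip X (Y - Y') = ip X Y - ip X Y' := by
  unfold ip; rw [Matrix.mul_sub, trace_sub, Complex.sub_re]

omit [DecidableEq n] in
lemma ip_smul_right (c : ℝ) (X Y : Matrix n n ℂ) : ip X ((c : ℂ) • Y) = c * ip X Y := by
  unfold ip; rw [Matrix.mul_smul, trace_smul, smul_eq_mul, Complex.re_ofReal_mul]

omit [DecidableEq n] in
lemma ip_smul_left (c : ℝ) (X Y : Matrix n n ℂ) : ip ((c : ℂ) • X) Y = c * ip X Y := by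
  rw [ip_comm, ip_smul_right, ip_comm]

lemma ip_one_right (X : Matrix n n ℂ) : ip X 1 = tr X := by
  unfold ip tr; rw [Matrix.mul_one]

omit [DecidableEq n] in
lemma ip_sum_right {ι : Type*} (s : Finset ι) (X : Matrix n n ℂ) (Y : ι → Matrix n n ℂ) :
    ip X (∑ j ∈ s, Y j) = ∑ j ∈ s, ip X (Y j) := by
  unfold ip; rw [Matrix.mul_sum, trace_sum, Complex.re_sum]

omit [DecidableEq n] in
lemma tr_add (X Y : Matrix n n ℂ) : tr (X + Y) = tr X + tr Y := by
  unfold tr; rw [trace_add, Complex.add_re]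

omit [DecidableEq n] in
lemma tr_sub (X Y : Matrix n n ℂ) : tr (X - Y) = tr X - tr Y := by
  unfold tr; rw [trace_sub, Complex.sub_re]

omit [DecidableEq n] in
lemma tr_nonneg {X : Matrix n n ℂ} (hX : X.PosSemidef) : 0 ≤ tr X := by
  have := hX.trace_nonneg
  exact (Complex.nonneg_iff.mp this).1

/-- Conjugated real diagonal matrix. -/
noncomputable def dg (U : Matrix n n ℂ) (f : n → ℝ) : Matrix n n ℂ :=
  U * diagonal (fun i => (f i : ℂ)) * Uᴴ

lemma exists_dg {A : Matrix n n ℂ} (hA : A.IsHermitian) :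
    ∃ (U : Matrix n n ℂ) (f : n → ℝ), Uᴴ * U = 1 ∧ U * Uᴴ = 1 ∧ A = dg U f := by
  refine ⟨hA.eigenvectorUnitary, hA.eigenvalues, ?_, ?_, ?_⟩
  · exact Unitary.coe_star_mul_self hA.eigenvectorUnitary
  · exact Unitary.coe_mul_star_self hA.eigenvectorUnitary
  · have := hA.spectral_theorem
    rw [Unitary.conjStarAlgAut_apply] at this
    exact this

lemma dg_mul {U : Matrix n n ℂ} (hU : Uᴴ * U = 1) (f g : n → ℝ) :
    dg U f * dg U g = dg U (fun i => f i * g i) := by
  unfold dg
  have : U * diagonal (fun i => (f i : ℂ)) * Uᴴ * (U * diagonal (fun i => (g i : ℂ)) * Uᴴ)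
      = U * (diagonal (fun i => (f i : ℂ)) * (Uᴴ * U) * diagonal (fun i => (g i : ℂ))) * Uᴴ := by
    simp only [Matrix.mul_assoc]
  rw [this, hU, Matrix.mul_one, diagonal_mul_diagonal]
  simp

lemma dg_add (U : Matrix n n ℂ) (f g : n → ℝ) :
    dg U f + dg U g = dg U (fun i => f i + g i) := by
  unfold dg
  rw [← Matrix.add_mul, ← Matrix.mul_add, diagonal_add]
  simp

lemma dg_sub (U : Matrix n n ℂ) (f g : n → ℝ) :
    dg U f - dg U g = dg U (fun i => f i - g i) := by
  unfold dg
  rw [← Matrix.sub_mul, ← Matrix.mul_sub, diagonal_sub]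
  simp

lemma dg_const {U : Matrix n n ℂ} (hU : U * Uᴴ = 1) (c : ℝ) :
    dg U (fun _ => c) = (c : ℂ) • (1 : Matrix n n ℂ) := by
  unfold dg
  have : diagonal (fun _ : n => (c : ℂ)) = (c : ℂ) • (1 : Matrix n n ℂ) := by
    rw [← diagonal_one, ← diagonal_smul]; congr 1; ext i; simp
  rw [this, Matrix.mul_smul, Matrix.mul_one, Matrix.smul_mul, hU]

lemma dg_psd (U : Matrix n n ℂ) {f : n → ℝ} (hf : ∀ i, 0 ≤ f i) : (dg U f).PosSemidef := by
  unfold dg
  apply PosSemidef.mul_mul_conjTranspose_same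
  apply PosSemidef.diagonal
  intro i
  exact Complex.zero_le_real.mpr (hf i)

lemma dg_herm (U : Matrix n n ℂ) (f : n → ℝ) : (dg U f).IsHermitian := by
  have h1 := (dg_psd U (f := fun i => max (f i) 0) (fun i => le_max_right _ _)).isHermitian
  have h2 := (dg_psd U (f := fun i => max (-f i) 0) (fun i => le_max_right _ _)).isHermitian
  have := h1.sub h2
  rw [dg_sub] at this
  convert this using 2
  ext i
  rcases le_total (f i) 0 with h | h
  · rw [max_eq_right h, max_eq_left (by linarith)]; ring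
  · rw [max_eq_left h, max_eq_right (by linarith)]; ring

lemma tr_dg {U : Matrix n n ℂ} (hU : Uᴴ * U = 1) (f : n → ℝ) : tr (dg U f) = ∑ i, f i := by
  unfold tr dg
  rw [trace_mul_cycle, hU, Matrix.one_mul, trace_diagonal, Complex.re_sum]
  simp

lemma nonneg_of_dg_psd {U : Matrix n n ℂ} (hU : Uᴴ * U = 1) {f : n → ℝ}
    (h : (dg U f).PosSemidef) (i : n) : 0 ≤ f i := by
  have h1 := h.conjTranspose_mul_mul_same U
  have : Uᴴ * dg U f * U = diagonal (fun i => (f i : ℂ)) := by
    unfold dg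
    have : Uᴴ * (U * diagonal (fun i => (f i : ℂ)) * Uᴴ) * U
      = (Uᴴ * U) * diagonal (fun i => (f i : ℂ)) * (Uᴴ * U) := by simp only [Matrix.mul_assoc]
    rw [this, hU, Matrix.one_mul, Matrix.mul_one]
  rw [this, posSemidef_diagonal_iff] at h1
  exact Complex.zero_le_real.mp (h1 i)

lemma exists_sqrt {X : Matrix n n ℂ} (hX : X.PosSemidef) :
    ∃ R : Matrix n n ℂ, X = Rᴴ * R := by
  obtain ⟨U, f, hU, -, rfl⟩ := exists_dg hX.isHermitian
  have hf := nonneg_of_dg_psd hU hX
  refine ⟨dg U (fun i => Real.sqrt (f i)), ?_⟩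
  rw [(dg_herm U _).eq, dg_mul hU]
  congr 1
  ext i
  exact (Real.mul_self_sqrt (hf i)).symm

lemma ip_nonneg {X Y : Matrix n n ℂ} (hX : X.PosSemidef) (hY : Y.PosSemidef) : 0 ≤ ip X Y := by
  obtain ⟨R, rfl⟩ := exists_sqrt hX
  have h := tr_nonneg (hY.mul_mul_conjTranspose_same R)
  unfold ip; unfold tr at h
  rwa [Matrix.mul_assoc, trace_mul_comm]

lemma ip_le_of_le {X Y : Matrix n n ℂ} {c : ℝ} (hX : X.PosSemidef)
    (hY : ((c : ℂ) • (1 : Matrix n n ℂ) - Y).PosSemidef) : ip X Y ≤ c * tr X := by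
  have := ip_nonneg hX hY
  rw [ip_sub_right, ip_smul_right, ip_one_right] at this
  linarith

omit [DecidableEq n] in
lemma ip_self_nonneg {X : Matrix n n ℂ} (hX : X.IsHermitian) : 0 ≤ ip X X := by
  have h := tr_nonneg (posSemidef_conjTranspose_mul_self X)
  rw [hX.eq] at h
  exact h

omit [DecidableEq n] in
lemma two_ip_le {X Y : Matrix n n ℂ} (hX : X.IsHermitian) (hY : Y.IsHermitian) :
    2 * ip X Y ≤ ip X X + ip Y Y := by
  have := ip_self_nonneg (hX.sub hY)
  rw [ip_sub_left, ip_sub_right, ip_sub_right, ip_comm Y X] at this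
  linarith

/-- Inertia bound: if `dg U f ≤ ∑ u_j u_j^*` then at most `card J` of the `f i` are positive. -/
lemma card_pos_le {U : Matrix n n ℂ} (hU : Uᴴ * U = 1) {f : n → ℝ} {J : Type*} [Fintype J]
    (u : J → n → ℂ) (h : (∑ j, vecMulVec (u j) (star (u j)) - dg U f).PosSemidef) :
    (univ.filter (fun i => 0 < f i)).card ≤ Fintype.card J := by
  classical
  set S := {i // 0 < f i}
  let ext : (S → ℂ) →ₗ[ℂ] (n → ℂ) :=
    { toFun := fun α i => if hi : 0 < f i then α ⟨i, hi⟩ else 0
      map_add' := by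
        intro α β; ext i; by_cases hi : 0 < f i <;> simp [hi]
      map_smul' := by
        intro c α; ext i; by_cases hi : 0 < f i <;> simp [hi] }
  let W : Matrix J n ℂ := Matrix.of (fun j => star (u j))
  let L : (S → ℂ) →ₗ[ℂ] (J → ℂ) := (Matrix.mulVecLin (W * U)).comp ext
  have hinj : Function.Injective L := by
    rw [← LinearMap.ker_eq_bot, LinearMap.ker_eq_bot']
    intro α hα
    set β := ext α with hβ
    have hW : W *ᵥ (U *ᵥ β) = 0 := by
      rw [mulVec_mulVec]; exact hα
    have h1 := h.dotProduct_mulVec_nonneg (U *ᵥ β)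
    have h2 : (∑ j, vecMulVec (u j) (star (u j))) *ᵥ (U *ᵥ β) = 0 := by
      rw [Matrix.sum_mulVec]
      apply Finset.sum_eq_zero
      intro j _
      have : star (u j) ⬝ᵥ (U *ᵥ β) = 0 := congrFun hW j
      rw [vecMulVec_mulVec, this]; simp
    have h3 : star (U *ᵥ β) ⬝ᵥ (dg U f *ᵥ (U *ᵥ β)) = ((∑ i, f i * ‖β i‖ ^ 2 : ℝ) : ℂ) := by
      unfold dg
      rw [star_mulVec, mulVec_mulVec, dotProduct_mulVec, vecMul_vecMul, ← dotProduct_mulVec]
      have : Uᴴ * (U * diagonal (fun i => (f i : ℂ)) * Uᴴ * U)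
        = (Uᴴ * U) * diagonal (fun i => (f i : ℂ)) * (Uᴴ * U) := by simp only [Matrix.mul_assoc]
      rw [this, hU, Matrix.one_mul, Matrix.mul_one]
      simp only [dotProduct, mulVec_diagonal, Pi.star_apply, Complex.ofReal_sum]
      refine Finset.sum_congr rfl fun i _ => ?_
      rw [Complex.ofReal_mul, Complex.ofReal_pow, ← Complex.conj_mul']
      simp only [RCLike.star_def]; ring
    rw [sub_mulVec, h2, zero_sub, dotProduct_neg, h3, ← Complex.ofReal_neg,
      Complex.zero_le_real] at h1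
    have hterm : ∀ i ∈ (univ : Finset n), 0 ≤ f i * ‖β i‖ ^ 2 := by
      intro i _
      by_cases hi : 0 < f i
      · positivity
      · have : β i = 0 := by simp [hβ, ext, hi]
        simp [this]
    have h4 : ∑ i, f i * ‖β i‖ ^ 2 = 0 := le_antisymm (by linarith) (Finset.sum_nonneg hterm)
    rw [Finset.sum_eq_zero_iff_of_nonneg hterm] at h4
    ext ⟨i, hi⟩
    have h5 := h4 i (mem_univ i)
    have h6 : β i = α ⟨i, hi⟩ := by simp [hβ, ext, hi]
    rw [h6] at h5
    have : ‖α ⟨i, hi⟩‖ ^ 2 = 0 := by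
      rcases mul_eq_zero.mp h5 with h | h
      · exact absurd h hi.ne'
      · exact h
    simpa using this
  have := LinearMap.finrank_le_finrank_of_injective hinj
  simp only [Module.finrank_fintype_fun_eq_card] at this
  rwa [Fintype.card_subtype] at this

/-- Decomposition of a Hermitian matrix dominated by `card J` rank-one terms. -/
lemma exists_pos_neg {Q : Matrix n n ℂ} (hQ : Q.IsHermitian) {J : Type*} [Fintype J]
    (u : J → n → ℂ) (h : (∑ j, vecMulVec (u j) (star (u j)) - Q).PosSemidef) :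
    ∃ Qp Qm Pr : Matrix n n ℂ, Qp.PosSemidef ∧ Qm.PosSemidef ∧ Pr.PosSemidef ∧ Q = Qp - Qm ∧
      ip Q Pr = tr Qp ∧ ip Pr Pr ≤ Fintype.card J := by
  obtain ⟨U, f, hU, -, rfl⟩ := exists_dg hQ
  refine ⟨dg U (fun i => max (f i) 0), dg U (fun i => max (-f i) 0),
    dg U (fun i => if 0 < f i then 1 else 0), dg_psd U fun i => le_max_right _ _,
    dg_psd U fun i => le_max_right _ _, dg_psd U fun i => by split_ifs <;> norm_num, ?_, ?_, ?_⟩
  · rw [dg_sub]; congr 1; ext i
    rcases le_total (f i) 0 with h | h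
    · rw [max_eq_right h, max_eq_left (by linarith)]; ring
    · rw [max_eq_left h, max_eq_right (by linarith)]; ring
  · unfold ip; rw [dg_mul hU]
    change tr _ = _
    congr 2; ext i
    split_ifs with hi
    · rw [max_eq_left hi.le, mul_one]
    · rw [max_eq_right (not_lt.mp hi), mul_zero]
  · unfold ip; rw [dg_mul hU]
    change tr _ ≤ _
    rw [tr_dg hU]
    have := card_pos_le hU u h
    have h2 : ∑ i, (if 0 < f i then (1 : ℝ) else 0) * (if 0 < f i then 1 else 0)
        = ((univ.filter (fun i => 0 < f i)).card : ℝ) := by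
      rw [Finset.card_filter]; push_cast
      refine Finset.sum_congr rfl fun i _ => ?_
      split_ifs <;> simp
    rw [h2]; exact_mod_cast this

/-- Spectral truncation of `V Vᴴ` at level `σ` and the bound for the loss. -/
lemma exists_trunc {r : Type*} [Fintype r] [DecidableEq r] (V : Matrix n r ℂ)
    (E : Matrix r r ℂ) (hE : E.IsHermitian) {σ : ℝ} (hσ : 0 < σ)
    (h : ((σ : ℂ) • (1 : Matrix r r ℂ) + E - Vᴴ * V).PosSemidef) :
    ∃ Y X : Matrix n n ℂ, Y.PosSemidef ∧ X.PosSemidef ∧ V * Vᴴ = Y + X ∧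
      ((σ : ℂ) • (1 : Matrix n n ℂ) - Y).PosSemidef ∧ ip X X ≤ ip E E := by
  have hP := posSemidef_self_mul_conjTranspose V
  obtain ⟨U, f, hU, hU', hf⟩ := exists_dg hP.isHermitian
  have hf0 := nonneg_of_dg_psd hU (hf ▸ hP)
  set X := dg U (fun i => max (f i - σ) 0) with hX
  refine ⟨dg U (fun i => min (f i) σ), X, dg_psd U fun i => le_min (hf0 i) hσ.le,
    dg_psd U fun i => le_max_right _ _, ?_, ?_, ?_⟩
  · rw [hf, hX, dg_add]; congr 1; ext i
    rcases le_total (f i) σ with h | h
    · rw [min_eq_left h, max_eq_right (by linarith)]; ring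
    · rw [min_eq_right h, max_eq_left (by linarith)]; ring
  · rw [← dg_const hU', dg_sub]
    exact dg_psd U fun i => sub_nonneg.mpr (min_le_right _ _)
  · set g := dg U (fun i => max (f i - σ) 0 / f i) with hg
    have hgP : g * (V * Vᴴ) = X := by
      rw [hf, hg, dg_mul hU, hX]; congr 1; ext i
      rcases le_total (f i) σ with h | h
      · rw [max_eq_right (by linarith)]; simp
      · have : f i ≠ 0 := by linarith [hσ] |> fun h' : 0 < f i => h'.ne'
        field_simp
    have hgpsd : g.PosSemidef :=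
      dg_psd U fun i => div_nonneg (le_max_right _ _) (hf0 i)
    set Xt := Vᴴ * g * V with hXt
    have hXtpsd : Xt.PosSemidef := hgpsd.conjTranspose_mul_mul_same V
    have h1 : tr Xt = tr X := by
      unfold tr; rw [hXt, trace_mul_cycle, trace_mul_comm, hgP]
    have h2 : ip Xt Xt = ip X X := by
      unfold ip
      have : Xt * Xt = Vᴴ * (g * (V * Vᴴ) * g * V) := by rw [hXt]; simp only [Matrix.mul_assoc]
      rw [this, trace_mul_comm]
      have : g * (V * Vᴴ) * g * V * Vᴴ = (g * (V * Vᴴ)) * (g * (V * Vᴴ)) := by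
        simp only [Matrix.mul_assoc]
      rw [this, hgP]
    have h3 : ip Xt (Vᴴ * V) = ip X (V * Vᴴ) := by
      unfold ip
      have : Xt * (Vᴴ * V) = Vᴴ * (g * (V * Vᴴ) * V) := by rw [hXt]; simp only [Matrix.mul_assoc]
      rw [this, trace_mul_comm, hgP, Matrix.mul_assoc]
    have h4 : ip X (V * Vᴴ) = ip X X + σ * tr X := by
      have : X * (V * Vᴴ) = X * X + (σ : ℂ) • X := by
        have e1 : (σ : ℂ) • X = X * dg U (fun _ => σ) := by
          rw [dg_const hU', Matrix.mul_smul, Matrix.mul_one]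
        rw [e1, hf, hX, dg_mul hU, dg_mul hU, dg_mul hU, dg_add]; congr 1; ext i
        rcases le_total (f i) σ with h | h
        · rw [max_eq_right (by linarith)]; simp
        · rw [max_eq_left (by linarith)]; ring
      unfold ip tr
      rw [this, trace_add, trace_smul, Complex.add_re, smul_eq_mul, Complex.re_ofReal_mul]
    have h5 := ip_nonneg hXtpsd h
    rw [ip_sub_right, ip_add_right, ip_smul_right, ip_one_right, h1, h3, h4] at h5
    have h6 := two_ip_le hXtpsd.isHermitian hE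
    rw [h2] at h6
    linarith

end Pool.Agent.MP_f259ea_nt.B

end

section

/-!
Part B, the abstract matrix inequality.
-/

set_option autoImplicit false

open Matrix Finset
open scoped ComplexOrder

namespace Pool.Agent.MP_f259ea_nt.B

variable {n : Type*} [Fintype n] [DecidableEq n] {κ : Type*} [Fintype κ]

/-- The completely positive map `Y ↦ ∑ C_j Y C_j`. -/
noncomputable def Nm (C : κ → Matrix n n ℂ) (Y : Matrix n n ℂ) : Matrix n n ℂ :=
  ∑ j, C j * Y * C j

/-- The modified trace pairing. -/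
noncomputable def Bf (C : κ → Matrix n n ℂ) (X Y : Matrix n n ℂ) : ℝ := ip X Y - ip X (Nm C Y)

omit [DecidableEq n] in
lemma Nm_add (C : κ → Matrix n n ℂ) (X Y : Matrix n n ℂ) : Nm C (X + Y) = Nm C X + Nm C Y := by
  unfold Nm; simp only [Matrix.mul_add, Matrix.add_mul, Finset.sum_add_distrib]

omit [DecidableEq n] in
lemma Nm_sub (C : κ → Matrix n n ℂ) (X Y : Matrix n n ℂ) : Nm C (X - Y) = Nm C X - Nm C Y := by
  unfold Nm; simp only [Matrix.mul_sub, Matrix.sub_mul, Finset.sum_sub_distrib]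

omit [DecidableEq n] in
lemma Nm_psd {C : κ → Matrix n n ℂ} (hC : ∀ j, (C j).IsHermitian) {Y : Matrix n n ℂ}
    (hY : Y.PosSemidef) : (Nm C Y).PosSemidef := by
  unfold Nm
  apply posSemidef_sum
  intro j _
  have := hY.mul_mul_conjTranspose_same (C j)
  rwa [(hC j).eq] at this

lemma Nm_le {C : κ → Matrix n n ℂ} (hC : ∀ j, (C j).IsHermitian) {ν : ℝ}
    (hν : ((ν : ℂ) • (1 : Matrix n n ℂ) - ∑ j, C j * C j).PosSemidef) {Y : Matrix n n ℂ} {c : ℝ}
    (hc : 0 ≤ c) (hY : ((c : ℂ) • (1 : Matrix n n ℂ) - Y).PosSemidef) :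
    (((ν * c : ℝ) : ℂ) • (1 : Matrix n n ℂ) - Nm C Y).PosSemidef := by
  have h1 := Nm_psd hC hY
  have h2 : ((c : ℂ) • ((ν : ℂ) • (1 : Matrix n n ℂ) - ∑ j, C j * C j)).PosSemidef :=
    hν.smul (Complex.zero_le_real.mpr hc)
  have h3 := h1.add h2
  convert h3 using 1
  rw [Nm_sub]
  have : Nm C ((c : ℂ) • (1 : Matrix n n ℂ)) = (c : ℂ) • ∑ j, C j * C j := by
    unfold Nm; rw [Finset.smul_sum]
    refine Finset.sum_congr rfl fun j _ => ?_
    rw [Matrix.mul_smul, Matrix.mul_one, Matrix.smul_mul]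
  rw [this, smul_sub, smul_smul, Complex.ofReal_mul, mul_comm (c : ℂ)]
  abel

omit [DecidableEq n] in
lemma ip_Nm_symm (C : κ → Matrix n n ℂ) (X Y : Matrix n n ℂ) :
    ip X (Nm C Y) = ip Y (Nm C X) := by
  unfold Nm
  rw [ip_sum_right, ip_sum_right]
  refine Finset.sum_congr rfl fun j _ => ?_
  unfold ip
  have e1 : X * (C j * Y * C j) = (X * C j) * (Y * C j) := by simp only [Matrix.mul_assoc]
  have e2 : Y * (C j * X * C j) = (Y * C j) * (X * C j) := by simp only [Matrix.mul_assoc]
  rw [e1, e2, trace_mul_comm]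

lemma ip_Nm_self_le {C : κ → Matrix n n ℂ} (hC : ∀ j, (C j).IsHermitian) {ν : ℝ}
    (hν : ((ν : ℂ) • (1 : Matrix n n ℂ) - ∑ j, C j * C j).PosSemidef) {X : Matrix n n ℂ}
    (hX : X.IsHermitian) : ip X (Nm C X) ≤ ν * ip X X := by
  have hXX : (X * X).PosSemidef := by
    have := posSemidef_conjTranspose_mul_self X
    rwa [hX.eq] at this
  have h1 := ip_le_of_le hXX hν
  have h2 : ip X (Nm C X) ≤ ip (X * X) (∑ j, C j * C j) := by
    unfold Nm
    rw [ip_sum_right, ip_sum_right]
    refine Finset.sum_le_sum fun j _ => ?_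
    have h := tr_nonneg (posSemidef_conjTranspose_mul_self (X * C j - C j * X))
    rw [conjTranspose_sub, conjTranspose_mul, conjTranspose_mul, hX.eq, (hC j).eq,
      Matrix.sub_mul, Matrix.mul_sub, Matrix.mul_sub, tr_sub, tr_sub, tr_sub] at h
    have e1 : tr (C j * X * (X * C j)) = ip (X * X) (C j * C j) := by
      unfold tr ip
      have : C j * X * (X * C j) = C j * (X * X * C j) := by simp only [Matrix.mul_assoc]
      rw [this, trace_mul_comm]; simp only [Matrix.mul_assoc]
    have e2 : tr (C j * X * (C j * X)) = ip X (C j * X * C j) := by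
      unfold tr ip
      have : C j * X * (C j * X) = (C j * X * C j) * X := by simp only [Matrix.mul_assoc]
      rw [this, trace_mul_comm]
    have e3 : tr (X * C j * (X * C j)) = ip X (C j * X * C j) := by
      unfold tr ip; simp only [Matrix.mul_assoc]
    have e4 : tr (X * C j * (C j * X)) = ip (X * X) (C j * C j) := by
      unfold tr ip
      have : X * C j * (C j * X) = (X * (C j * C j)) * X := by simp only [Matrix.mul_assoc]
      rw [this, trace_mul_comm]; simp only [Matrix.mul_assoc]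
    rw [e1, e2, e3, e4] at h
    linarith
  have : tr (X * X) = ip X X := rfl
  rw [this] at h1
  linarith

omit [DecidableEq n] in
lemma Bf_comm (C : κ → Matrix n n ℂ) (X Y : Matrix n n ℂ) : Bf C X Y = Bf C Y X := by
  unfold Bf; rw [ip_comm X Y, ip_Nm_symm]

omit [DecidableEq n] in
lemma Bf_add_left (C : κ → Matrix n n ℂ) (X X' Y : Matrix n n ℂ) :
    Bf C (X + X') Y = Bf C X Y + Bf C X' Y := by
  unfold Bf; rw [ip_add_left, ip_add_left]; ring

omit [DecidableEq n] in
lemma Bf_sub_left (C : κ → Matrix n n ℂ) (X X' Y : Matrix n n ℂ) :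
    Bf C (X - X') Y = Bf C X Y - Bf C X' Y := by
  unfold Bf; rw [ip_sub_left, ip_sub_left]; ring

omit [DecidableEq n] in
lemma Bf_add_add (C : κ → Matrix n n ℂ) (X Y : Matrix n n ℂ) :
    Bf C (X + Y) (X + Y) = Bf C X X + 2 * Bf C Y X + Bf C Y Y := by
  rw [Bf_add_left, Bf_comm C X (X + Y), Bf_comm C Y (X + Y), Bf_add_left, Bf_add_left,
    Bf_comm C X Y]
  ring

/-- The abstract inequality. -/
theorem main_abs {C : κ → Matrix n n ℂ} (hC : ∀ j, (C j).IsHermitian) {ν σ τ : ℝ}
    (hν : ((ν : ℂ) • (1 : Matrix n n ℂ) - ∑ j, C j * C j).PosSemidef) (hν1 : ν ≤ 1)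
    (hσ : 0 < σ) (hτ : 0 ≤ τ) (hcp : 2 * σ ≤ 2 * τ * (1 - ν) - 2 * ν * σ)
    {r : Type*} [Fintype r] [DecidableEq r] (V : Matrix n r ℂ)
    (E : Matrix r r ℂ) (hE : E.IsHermitian)
    (hV : ((σ : ℂ) • (1 : Matrix r r ℂ) + E - Vᴴ * V).PosSemidef)
    {P Q : Matrix n n ℂ} (hP : P.PosSemidef) (hQ : Q.IsHermitian)
    {J : Type*} [Fintype J] (u : J → n → ℂ)
    (hu : (∑ j, vecMulVec (u j) (star (u j)) - Q).PosSemidef) :
    Bf C (V * Vᴴ) (V * Vᴴ) - ip E E - 2 * ν * σ * tr P
      + (2 * τ * (1 - ν) - 2 * ν * σ) * tr Q - (1 - ν) * τ ^ 2 * Fintype.card J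
      ≤ Bf C (V * Vᴴ + P + Q) (V * Vᴴ + P + Q) := by
  obtain ⟨Y, X, hY, hX, hVV, hYσ, hloss⟩ := exists_trunc V E hE hσ hV
  obtain ⟨Qp, Qm, Pr, hQp, hQm, hPr, hQeq, hQPr, hPrPr⟩ := exists_pos_neg hQ u hu
  have hNY := Nm_psd hC hY
  have hNYle := Nm_le hC hν hσ.le hYσ
  set R := X + P + Q with hR
  have hRh : R.IsHermitian := (hX.isHermitian.add hP.isHermitian).add hQ
  have e1 : V * Vᴴ + P + Q = Y + R := by rw [hVV, hR]; abel
  rw [e1, hVV, Bf_add_add, Bf_add_add, hR, Bf_add_left C (X + P) Q Y, Bf_add_left C X P Y, ← hR]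
  -- `B(X,X) ≤ |X|²`
  have a1 : Bf C X X ≤ ip X X := by
    unfold Bf; have := ip_nonneg hX (Nm_psd hC hX); linarith
  -- `B(P,Y) ≥ -νσ tr P`
  have a2 : -(ν * σ * tr P) ≤ Bf C P Y := by
    unfold Bf
    have := ip_nonneg hP hY
    have := ip_le_of_le hP hNYle
    linarith
  -- `B(Q,Y) ≥ -νσ q₊ - σ q₋`
  have a3 : -(ν * σ * tr Qp) - σ * tr Qm ≤ Bf C Q Y := by
    rw [hQeq, Bf_sub_left]
    unfold Bf
    have := ip_nonneg hQp hY
    have := ip_le_of_le hQp hNYle
    have := ip_le_of_le hQm hYσ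
    have := ip_nonneg hQm hNY
    linarith
  -- `B(R,R) ≥ (1-ν)(2τ q₊ - τ² p)`
  have a4 : (1 - ν) * ip R R ≤ Bf C R R := by
    unfold Bf; have := ip_Nm_self_le hC hν hRh; linarith
  have a5 : 2 * τ * tr Qp - τ ^ 2 * Fintype.card J ≤ ip R R := by
    have hs : ((τ : ℂ) • Pr).IsHermitian := (hPr.smul (Complex.zero_le_real.mpr hτ)).isHermitian
    have h1 := two_ip_le hRh hs
    rw [ip_smul_right, ip_smul_right, ip_smul_left] at h1
    have h2 : tr Qp ≤ ip R Pr := by
      rw [hR, ip_add_left, ip_add_left, hQPr]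
      have := ip_nonneg hX hPr
      have := ip_nonneg hP hPr
      linarith
    have h3 : τ * tr Qp ≤ τ * ip R Pr := mul_le_mul_of_nonneg_left h2 hτ
    have h4 : τ * (τ * ip Pr Pr) ≤ τ * (τ * Fintype.card J) :=
      mul_le_mul_of_nonneg_left (mul_le_mul_of_nonneg_left hPrPr hτ) hτ
    nlinarith
  have a6 : (1 - ν) * (2 * τ * tr Qp - τ ^ 2 * Fintype.card J) ≤ (1 - ν) * ip R R :=
    mul_le_mul_of_nonneg_left a5 (by linarith)
  have a7 : tr Q = tr Qp - tr Qm := by rw [hQeq, tr_sub]
  have a8 : 2 * σ * tr Qm ≤ (2 * τ * (1 - ν) - 2 * ν * σ) * tr Qm :=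
    mul_le_mul_of_nonneg_right hcp (tr_nonneg hQm)
  rw [a7]
  nlinarith

end Pool.Agent.MP_f259ea_nt.B

end

section

/-!
Part B, cell integrals of exponentials and the tent identity.
-/

set_option autoImplicit false

open Finset Complex MeasureTheory
open scoped Real ComplexConjugate

namespace Pool.Agent.MP_f259ea_nt.B

/-- `exp (2 π i u z)`. -/
noncomputable def ee (u : ℝ) (z : ℂ) : ℂ := Complex.exp (2 * π * I * u * z)

/-- The cell integral. -/
noncomputable def gam (p D : ℝ) (z : ℂ) : ℂ := ∫ u in p..p + D, ee u z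

lemma ee_continuous (z : ℂ) : Continuous (fun u : ℝ => ee u z) := by
  unfold ee; fun_prop

lemma ee_add (u : ℝ) (z w : ℂ) : ee u (z + w) = ee u z * ee u w := by
  unfold ee; rw [← Complex.exp_add]; congr 1; ring

lemma ee_add' (u u' : ℝ) (z : ℂ) : ee (u + u') z = ee u z * ee u' z := by
  unfold ee; rw [← Complex.exp_add]; congr 1; push_cast; ring

lemma ee_neg (u : ℝ) (z : ℂ) : ee (-u) z = ee u (-z) := by
  unfold ee; congr 1; push_cast; ring

lemma conj_ee (u : ℝ) (z : ℂ) : conj (ee u z) = ee u (-conj z) := by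
  unfold ee; rw [← Complex.exp_conj]; congr 1
  simp only [map_mul, Complex.conj_ofReal, Complex.conj_I, map_ofNat]; ring

lemma gam_shift (p D : ℝ) (z : ℂ) : gam p D z = ee p z * gam 0 D z := by
  unfold gam
  rw [← intervalIntegral.integral_const_mul]
  have := intervalIntegral.integral_comp_add_left (a := 0) (b := 0 + D) (fun u => ee u z) p
  simp only [add_zero, zero_add] at this ⊢
  rw [← this]
  simp only [ee_add']

lemma conj_gam (p D : ℝ) (z : ℂ) : conj (gam p D z) = gam p D (-conj z) := by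
  unfold gam
  simp only [← conj_ee]
  unfold intervalIntegral
  rw [map_sub, integral_conj, integral_conj]

lemma gam_zero (p D : ℝ) : gam p D 0 = D := by
  unfold gam ee; simp

lemma tent_continuous : Continuous tent := by
  unfold tent; fun_prop

lemma tent_nonneg (x : ℝ) : 0 ≤ tent x := le_max_right _ _

lemma tent_eq_zero {x : ℝ} (hx : 1 ≤ |x|) : tent x = 0 := max_eq_right (by linarith)

lemma tent_neg (x : ℝ) : tent (-x) = tent x := by unfold tent; rw [abs_neg]

lemma tent_support {D : ℝ} (hD : 0 < D) (r a : ℝ) (h : tent (a / D - r) ≠ 0) :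
    (r - 1) * D < a ∧ a < (r + 1) * D := by
  have h1 : |a / D - r| < 1 := by
    by_contra h'; exact h (tent_eq_zero (not_lt.mp h'))
  rw [abs_lt] at h1
  constructor
  · have : r - 1 < a / D := by linarith [h1.1]
    rwa [lt_div_iff₀ hD] at this
  · have : a / D < r + 1 := by linarith [h1.2]
    rwa [div_lt_iff₀ hD] at this

lemma tent_integrable {E : Type*} [NormedAddCommGroup E] [NormedSpace ℝ E] {D : ℝ} (hD : 0 < D)
    (r : ℝ) {f : ℝ → E} (hf : Continuous f) :
    Integrable (fun a : ℝ => (D * tent (a / D - r)) • f a) := by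
  apply Continuous.integrable_of_hasCompactSupport
  · have := tent_continuous
    fun_prop
  · apply HasCompactSupport.intro (isCompact_Icc (a := (r - 1) * D) (b := (r + 1) * D))
    intro a ha
    have : tent (a / D - r) = 0 := by
      by_contra h
      obtain ⟨h1, h2⟩ := tent_support hD r a h
      exact ha ⟨h1.le, h2.le⟩
    simp [this]

lemma tent_ft_zero {D : ℝ} (hD : 0 < D) (z : ℂ) :
    ∫ a : ℝ, (D * tent (a / D - 0)) • ee a z = gam 0 D z * gam 0 D (-z) := by
  have hsupp : Function.support (fun a : ℝ => (D * tent (a / D - 0)) • ee a z)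
      ⊆ Set.Ioc (-D) D := by
    intro a ha
    have : tent (a / D - 0) ≠ 0 := by
      intro h; apply ha; simp only [h, mul_zero, zero_smul]
    obtain ⟨h1, h2⟩ := tent_support hD 0 a this
    constructor <;> linarith
  have hcont : Continuous (fun a : ℝ => (D * tent (a / D - 0)) • ee a z) := by
    have := tent_continuous
    have := ee_continuous z
    fun_prop
  rw [← intervalIntegral.integral_eq_integral_of_support_subset hsupp,
    ← intervalIntegral.integral_add_adjacent_intervals (b := 0) (hcont.intervalIntegrable _ _)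
      (hcont.intervalIntegrable _ _)]
  set c : ℂ := 2 * π * I * z with hc
  have hee : ∀ a : ℝ, ee a z = Complex.exp (c * a) := by
    intro a; unfold ee; congr 1; rw [hc]; ring
  have hee' : ∀ a : ℝ, ee a (-z) = Complex.exp (-c * a) := by
    intro a; unfold ee; congr 1; rw [hc]; ring
  have e1 : ∫ a in (-D)..0, (D * tent (a / D - 0)) • ee a z
      = ∫ a in (-D)..0, ((D : ℂ) + a) * Complex.exp (c * a) := by
    apply intervalIntegral.integral_congr
    intro a ha
    rw [Set.uIcc_of_le (by linarith)] at ha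
    have h1 : a / D ≤ 0 := div_nonpos_of_nonpos_of_nonneg ha.2 hD.le
    have h2 : -1 ≤ a / D := by rw [le_div_iff₀ hD]; linarith [ha.1]
    have : D * tent (a / D - 0) = D + a := by
      unfold tent
      rw [sub_zero, abs_of_nonpos h1, max_eq_left (by linarith)]; field_simp; ring
    simp only [this, hee, Complex.real_smul]; push_cast; ring
  have e2 : ∫ a in (0 : ℝ)..D, (D * tent (a / D - 0)) • ee a z
      = ∫ a in (0 : ℝ)..D, ((D : ℂ) - a) * Complex.exp (c * a) := by
    apply intervalIntegral.integral_congr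
    intro a ha
    rw [Set.uIcc_of_le (by linarith)] at ha
    have h1 : 0 ≤ a / D := div_nonneg ha.1 hD.le
    have h2 : a / D ≤ 1 := by rw [div_le_iff₀ hD]; linarith [ha.2]
    have : D * tent (a / D - 0) = D - a := by
      unfold tent
      rw [sub_zero, abs_of_nonneg h1, max_eq_left (by linarith)]; field_simp
    simp only [this, hee, Complex.real_smul]; push_cast; ring
  rw [e1, e2]
  unfold gam
  simp only [hee, hee', zero_add]
  by_cases h0 : c = 0
  · simp only [h0, zero_mul, neg_zero, Complex.exp_zero, mul_one]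
    have f1 : ∫ a in (-D)..0, ((D : ℂ) + a) = ((∫ a in (-D)..0, (D + a) : ℝ) : ℂ) := by
      rw [← intervalIntegral.integral_ofReal]; push_cast; rfl
    have f2 : ∫ a in (0 : ℝ)..D, ((D : ℂ) - a) = ((∫ a in (0 : ℝ)..D, (D - a) : ℝ) : ℂ) := by
      rw [← intervalIntegral.integral_ofReal]; push_cast; rfl
    rw [f1, f2, intervalIntegral.integral_add (by simp) (by simp),
      intervalIntegral.integral_sub (by simp) (by simp)]
    simp only [integral_id, intervalIntegral.integral_const, smul_eq_mul, Complex.real_smul]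
    push_cast; ring
  · have hc' : -c ≠ 0 := neg_ne_zero.mpr h0
    rw [integral_exp_mul_complex h0, integral_exp_mul_complex hc']
    have hd : ∀ (s : ℂ) (a : ℝ), HasDerivAt
        (fun a : ℝ => (((D : ℂ) + s * a) / c - s / c ^ 2) * Complex.exp (c * a))
        (((D : ℂ) + s * a) * Complex.exp (c * a)) a := by
      intro s a
      have h1 : HasDerivAt (fun y : ℂ => (((D : ℂ) + s * y) / c - s / c ^ 2) * Complex.exp (c * y))
          ((s / c) * Complex.exp (c * a)
            + (((D : ℂ) + s * a) / c - s / c ^ 2) * (Complex.exp (c * a) * c)) (a : ℂ) := by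
        have a1 : HasDerivAt (fun y : ℂ => ((D : ℂ) + s * y) / c - s / c ^ 2) (s / c) (a : ℂ) := by
          have := ((((hasDerivAt_id (a : ℂ)).const_mul s).const_add (D : ℂ)).div_const c).sub_const
            (s / c ^ 2)
          simpa using this
        have a2 : HasDerivAt (fun y : ℂ => Complex.exp (c * y)) (Complex.exp (c * a) * c)
            (a : ℂ) := by
          have := ((hasDerivAt_id (a : ℂ)).const_mul c).cexp
          simpa using this
        exact a1.mul a2
      have h2 := h1.comp_ofReal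
      convert h2 using 1
      field_simp; ring
    have g1 : ∫ a in (-D)..0, ((D : ℂ) + a) * Complex.exp (c * a) = _ :=
      (intervalIntegral.integral_congr (g := fun a : ℝ => ((D : ℂ) + 1 * a) * Complex.exp (c * a))
        (fun a _ => by simp)).trans
        (intervalIntegral.integral_eq_sub_of_hasDerivAt (fun a _ => hd 1 a)
          (Continuous.intervalIntegrable (by fun_prop) _ _))
    have g2 : ∫ a in (0 : ℝ)..D, ((D : ℂ) - a) * Complex.exp (c * a) = _ :=
      (intervalIntegral.integral_congr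
        (g := fun a : ℝ => ((D : ℂ) + (-1) * a) * Complex.exp (c * a))
        (fun a _ => by simp [sub_eq_add_neg])).trans
        (intervalIntegral.integral_eq_sub_of_hasDerivAt (fun a _ => hd (-1) a)
          (Continuous.intervalIntegrable (by fun_prop) _ _))
    rw [g1, g2]
    have hx : Complex.exp (c * ((-D : ℝ) : ℂ)) = (Complex.exp (c * D))⁻¹ := by
      rw [← Complex.exp_neg]; congr 1; push_cast; ring
    have hy : Complex.exp (-c * (D : ℂ)) = (Complex.exp (c * D))⁻¹ := by
      rw [← Complex.exp_neg]; congr 1; ring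
    rw [hx, hy]
    have hne := Complex.exp_ne_zero (c * D)
    simp only [Complex.ofReal_zero, mul_zero, Complex.exp_zero, Complex.ofReal_neg]
    field_simp
    ring

lemma tent_ft {D : ℝ} (hD : 0 < D) (p p' : ℝ) (z : ℂ) :
    ∫ a : ℝ, (D * tent (a / D - (p - p') / D)) • ee a z = gam p D z * gam p' D (-z) := by
  have h := integral_add_right_eq_self (μ := volume)
    (fun a : ℝ => (D * tent (a / D - (p - p') / D)) • ee a z) (p - p')
  rw [← h]
  have : ∀ a : ℝ, (D * tent ((a + (p - p')) / D - (p - p') / D)) • ee (a + (p - p')) z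
      = ee (p - p') z * ((D * tent (a / D - 0)) • ee a z) := by
    intro a
    rw [ee_add', add_div, add_sub_cancel_right, sub_zero, mul_smul_comm, mul_comm (ee a z)]
  simp only [this]
  rw [integral_const_mul, tent_ft_zero hD, gam_shift p, gam_shift p', sub_eq_add_neg, ee_add',
    ee_neg]
  ring

lemma mu_eq (A : Finset ℂ) (c : ℂ → ℂ) (a : ℝ) : mu A c a = ∑ z ∈ A, c z * ee a z := rfl

lemma mu_continuous (A : Finset ℂ) (c : ℂ → ℂ) : Continuous (mu A c) := by
  unfold mu; fun_prop

lemma conj_mu {A : Finset ℂ} {c : ℂ → ℂ} (hA : ∀ z ∈ A, conj z ∈ A ∧ c (conj z) = conj (c z))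
    (a : ℝ) : conj (mu A c a) = ∑ z ∈ A, c z * ee a (-z) := by
  rw [mu_eq, map_sum]
  refine Finset.sum_bij' (fun z _ => conj z) (fun z _ => conj z) (fun z hz => (hA z hz).1)
    (fun z hz => (hA z hz).1) (fun z _ => by simp) (fun z _ => by simp) ?_
  intro z hz
  rw [map_mul, conj_ee, (hA z hz).2]

/-- The tent-weighted mean square of `mu` as a double sum of products of cell integrals. -/
lemma tent_mu {D : ℝ} (hD : 0 < D) (p p' : ℝ) {A : Finset ℂ} {c : ℂ → ℂ}
    (hA : ∀ z ∈ A, conj z ∈ A ∧ c (conj z) = conj (c z)) :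
    ((∫ a : ℝ, (D * tent (a / D - (p - p') / D)) * ‖mu A c a‖ ^ 2 : ℝ) : ℂ)
      = ∑ z ∈ A, ∑ w ∈ A, c z * c w * (gam p D (z - w) * gam p' D (w - z)) := by
  rw [← integral_complex_ofReal]
  have h1 : ∀ a : ℝ, (((D * tent (a / D - (p - p') / D)) * ‖mu A c a‖ ^ 2 : ℝ) : ℂ)
      = ∑ z ∈ A, ∑ w ∈ A, c z * c w * ((D * tent (a / D - (p - p') / D)) • ee a (z - w)) := by
    intro a
    rw [Complex.ofReal_mul, Complex.ofReal_pow, ← Complex.mul_conj', conj_mu hA, mu_eq,
      Finset.sum_mul_sum, Finset.mul_sum]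
    refine Finset.sum_congr rfl fun z _ => ?_
    rw [Finset.mul_sum]
    refine Finset.sum_congr rfl fun w _ => ?_
    rw [sub_eq_add_neg z w, ee_add, Complex.real_smul]; ring
  simp only [h1]
  have hint : ∀ z w : ℂ, Integrable (fun a : ℝ =>
      c z * c w * ((D * tent (a / D - (p - p') / D)) • ee a (z - w))) :=
    fun z w => (tent_integrable hD _ (ee_continuous _)).const_mul _
  rw [integral_finsetSum _ (fun z _ => integrable_finsetSum _ fun w _ => hint z w)]
  refine Finset.sum_congr rfl fun z _ => ?_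
  rw [integral_finsetSum _ (fun w _ => hint z w)]
  refine Finset.sum_congr rfl fun w _ => ?_
  rw [integral_const_mul, tent_ft hD, neg_sub]

/-- The cell Gram form is the cell mean square. -/
lemma gram_eq {ι : Type*} [Fintype ι] (p D : ℝ) (z : ι → ℂ) (ξ : ι → ℂ) :
    ∑ a, ∑ b, conj (ξ a) * ξ b * gam p D (z b - conj (z a))
      = ((∫ u in p..p + D, ‖∑ b, ξ b * ee u (z b)‖ ^ 2 : ℝ) : ℂ) := by
  rw [← intervalIntegral.integral_ofReal]
  have h1 : ∀ u : ℝ, ((‖∑ b, ξ b * ee u (z b)‖ ^ 2 : ℝ) : ℂ)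
      = ∑ a, ∑ b, conj (ξ a) * ξ b * ee u (z b - conj (z a)) := by
    intro u
    rw [Complex.ofReal_pow, ← Complex.conj_mul', map_sum, Finset.sum_mul_sum]
    refine Finset.sum_congr rfl fun a _ => Finset.sum_congr rfl fun b _ => ?_
    rw [map_mul, conj_ee, sub_eq_add_neg, ee_add]; ring
  simp only [h1]
  have hint : ∀ a b : ι, IntervalIntegrable
      (fun u : ℝ => conj (ξ a) * ξ b * ee u (z b - conj (z a))) volume p (p + D) :=
    fun a b => ((ee_continuous _).const_mul _).intervalIntegrable _ _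
  rw [intervalIntegral.integral_finsetSum
    (fun a _ => (continuous_finsetSum _ fun b _ =>
      (ee_continuous _).const_mul _).intervalIntegrable _ _)]
  refine Finset.sum_congr rfl fun a _ => ?_
  rw [intervalIntegral.integral_finsetSum (fun b _ => hint a b)]
  refine Finset.sum_congr rfl fun b _ => ?_
  rw [intervalIntegral.integral_const_mul]; rfl

end Pool.Agent.MP_f259ea_nt.B

end

section

/-!
Part B, combinatorial lemmas: sparse configurations, lag sums, conjugation splitting,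
rank-one extraction.
-/

set_option autoImplicit false

open Finset Complex Matrix
open scoped Real ComplexConjugate ComplexOrder

namespace Pool.Agent.MP_f259ea_nt.B

/-- No cluster pattern implies the row-sum bound. -/
lemma row_le_two (R : Finset ℂ) (hR : ∀ z ∈ R, z.im = 0) (m : ℂ → ℕ) (hm : ∀ z ∈ R, 1 ≤ m z)
    {l : ℝ} (hl : 0 < l) (h3 : ∀ z ∈ R, m z ≤ 2)
    (h2 : ∀ z ∈ R, ∀ w ∈ R, z ≠ w → |z.re - w.re| ≤ l → m z ≠ 2)
    (h111 : ∀ z ∈ R, ∀ w ∈ R, ∀ y ∈ R, z ≠ w → z ≠ y → w ≠ y → |z.re - w.re| ≤ l →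
      |z.re - y.re| ≤ l → |w.re - y.re| ≤ l → False)
    (z : ℂ) (hz : z ∈ R) : ∑ w ∈ R, (m w : ℝ) * tent ((z.re - w.re) / l) ≤ 2 := by
  classical
  set g : ℂ → ℝ := fun w => (m w : ℝ) * tent ((z.re - w.re) / l) with hg
  set L := R.filter (fun w => w.re < z.re ∧ z.re - w.re < l) with hL
  set U := R.filter (fun w => z.re < w.re ∧ w.re - z.re < l) with hU
  have hinj : ∀ w ∈ R, ∀ y ∈ R, w.re = y.re → w = y := fun w hw y hy h =>
    Complex.ext h (by rw [hR w hw, hR y hy])
  have hsum : ∑ w ∈ R, g w = g z + (∑ w ∈ L, g w + ∑ w ∈ U, g w) := by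
    have hdisj : Disjoint L U := by
      rw [Finset.disjoint_left]
      intro w h1 h2
      have := (mem_filter.mp h1).2.1
      have := (mem_filter.mp h2).2.1
      linarith
    have hzn : z ∉ L ∪ U := by
      rw [mem_union, hL, hU, mem_filter, mem_filter]
      rintro (h | h) <;> exact lt_irrefl _ h.2.1
    rw [← Finset.sum_union hdisj, ← Finset.sum_insert hzn]
    symm
    apply Finset.sum_subset
    · intro w hw
      rcases mem_insert.mp hw with rfl | hw
      · exact hz
      · rcases mem_union.mp hw with h | h <;> exact (mem_filter.mp h).1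
    · intro w hw hn
      rw [mem_insert, mem_union, hL, hU, mem_filter, mem_filter] at hn
      push Not at hn
      have hne : w.re ≠ z.re := fun h => hn.1 (hinj w hw z hz h)
      have : 1 ≤ |(z.re - w.re) / l| := by
        rw [abs_div, abs_of_pos hl, le_div_iff₀ hl, one_mul]
        rcases lt_or_gt_of_ne hne with h | h
        · have := hn.2.1 hw h
          rw [abs_of_pos (by linarith)]; linarith
        · have := hn.2.2 hw h
          rw [abs_of_neg (by linarith)]; linarith
      simp only [hg, tent_eq_zero this, mul_zero]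
  have hgz : g z = m z := by simp [hg, tent]
  have hLp : ∀ w ∈ L, w ∈ R ∧ z ≠ w ∧ |z.re - w.re| ≤ l ∧ w.re < z.re ∧ z.re - w.re < l := by
    intro w hw
    obtain ⟨h1, h2, h3⟩ := mem_filter.mp hw
    refine ⟨h1, fun h => by rw [h] at h2; exact lt_irrefl _ h2, ?_, h2, h3⟩
    rw [abs_of_pos (by linarith)]; exact h3.le
  have hUp : ∀ w ∈ U, w ∈ R ∧ z ≠ w ∧ |z.re - w.re| ≤ l ∧ z.re < w.re ∧ w.re - z.re < l := by
    intro w hw
    obtain ⟨h1, h2, h3⟩ := mem_filter.mp hw
    refine ⟨h1, fun h => by rw [h] at h2; exact lt_irrefl _ h2, ?_, h2, h3⟩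
    rw [abs_of_neg (by linarith)]; linarith
  have hone : ∀ w ∈ R, z ≠ w → |z.re - w.re| ≤ l → m w = 1 := by
    intro w hw hne hd
    have a1 := h2 w hw z hz hne.symm (by rwa [abs_sub_comm])
    have a2 := h3 w hw
    have a3 := hm w hw
    omega
  have hgL : ∀ w ∈ L, g w = 1 - (z.re - w.re) / l := by
    intro w hw
    obtain ⟨h1, h2', h3', h4, h5⟩ := hLp w hw
    have a1 : 0 ≤ (z.re - w.re) / l := div_nonneg (by linarith) hl.le
    have a2 : (z.re - w.re) / l ≤ 1 := by rw [div_le_one hl]; exact h5.le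
    simp only [hg, hone w h1 h2' h3', Nat.cast_one, one_mul, tent]
    rw [abs_of_nonneg a1, max_eq_left (by linarith)]
  have hgU : ∀ w ∈ U, g w = 1 - (w.re - z.re) / l := by
    intro w hw
    obtain ⟨h1, h2', h3', h4, h5⟩ := hUp w hw
    have a1 : (z.re - w.re) / l ≤ 0 := div_nonpos_of_nonpos_of_nonneg (by linarith) hl.le
    have a2 : (w.re - z.re) / l ≤ 1 := by rw [div_le_one hl]; exact h5.le
    have a3 : -((z.re - w.re) / l) = (w.re - z.re) / l := by ring
    simp only [hg, hone w h1 h2' h3', Nat.cast_one, one_mul, tent]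
    rw [abs_of_nonpos a1, a3, max_eq_left (by linarith)]
  rw [hsum, hgz]
  by_cases hz2 : m z = 2
  · have hLe : L = ∅ := by
      rw [Finset.eq_empty_iff_forall_notMem]
      intro w hw
      obtain ⟨h1, h2', h3', -⟩ := hLp w hw
      exact h2 z hz w h1 h2' h3' hz2
    have hUe : U = ∅ := by
      rw [Finset.eq_empty_iff_forall_notMem]
      intro w hw
      obtain ⟨h1, h2', h3', -⟩ := hUp w hw
      exact h2 z hz w h1 h2' h3' hz2
    rw [hLe, hUe, hz2]; simp
  · have hz1 : m z = 1 := by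
      have := h3 z hz
      have := hm z hz
      omega
    rw [hz1]
    have hLu : ∀ w ∈ L, ∀ y ∈ L, y = w := by
      intro w hw y hy
      by_contra hne
      obtain ⟨a1, a2, a3, a4, a5⟩ := hLp w hw
      obtain ⟨b1, b2, b3, b4, b5⟩ := hLp y hy
      exact h111 z hz w a1 y b1 a2 b2 (Ne.symm hne) a3 b3 (abs_le.mpr ⟨by linarith, by linarith⟩)
    have hUu : ∀ w ∈ U, ∀ y ∈ U, y = w := by
      intro w hw y hy
      by_contra hne
      obtain ⟨a1, a2, a3, a4, a5⟩ := hUp w hw
      obtain ⟨b1, b2, b3, b4, b5⟩ := hUp y hy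
      exact h111 z hz w a1 y b1 a2 b2 (Ne.symm hne) a3 b3 (abs_le.mpr ⟨by linarith, by linarith⟩)
    have : ∑ w ∈ L, g w + ∑ w ∈ U, g w ≤ 1 := by
      rcases L.eq_empty_or_nonempty with hLe | ⟨w, hw⟩
      · rcases U.eq_empty_or_nonempty with hUe | ⟨y, hy⟩
        · rw [hLe, hUe]; simp
        · have hUs : U = {y} := Finset.eq_singleton_iff_unique_mem.mpr ⟨hy, hUu y hy⟩
          have := hgU y hy
          have a := (hUp y hy).2.2.2.1
          have : 0 ≤ (y.re - z.re) / l := div_nonneg (by linarith) hl.le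
          rw [hLe, hUs, sum_empty, sum_singleton]; linarith
      · have hLs : L = {w} := Finset.eq_singleton_iff_unique_mem.mpr ⟨hw, hLu w hw⟩
        have e1 := hgL w hw
        obtain ⟨a1, a2, a3, a4, a5⟩ := hLp w hw
        rcases U.eq_empty_or_nonempty with hUe | ⟨y, hy⟩
        · have : 0 ≤ (z.re - w.re) / l := div_nonneg (by linarith) hl.le
          rw [hLs, hUe, sum_empty, sum_singleton]; linarith
        · have hUs : U = {y} := Finset.eq_singleton_iff_unique_mem.mpr ⟨hy, hUu y hy⟩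
          have e2 := hgU y hy
          obtain ⟨b1, b2, b3, b4, b5⟩ := hUp y hy
          have hwy : w ≠ y := fun h => by rw [h] at a4; linarith
          have hfar : l < y.re - w.re := by
            by_contra hc
            exact h111 z hz w a1 y b1 a2 b2 hwy a3 b3
              (abs_le.mpr ⟨by linarith, by linarith⟩)
          have : 1 ≤ (z.re - w.re) / l + (y.re - z.re) / l := by
            rw [← add_div, le_div_iff₀ hl]; linarith
          rw [hLs, hUs, sum_singleton, sum_singleton]; linarith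
    push_cast; linarith

lemma sum_tri (n : ℕ) (G : ℕ → ℕ → ℝ) :
    ∑ i ∈ range n, ∑ i' ∈ range n, (if i' ≤ i then G i i' else 0)
      = ∑ r ∈ range n, ∑ i ∈ range (n - r), G (i + r) i := by
  rw [← Finset.sum_product', ← Finset.sum_filter, Finset.sum_sigma']
  refine Finset.sum_bij' (fun p _ => ⟨p.1 - p.2, p.2⟩) (fun q _ => (q.2 + q.1, q.2)) ?_ ?_ ?_ ?_ ?_
  · intro p hp
    simp only [mem_filter, mem_product, mem_range, mem_sigma] at hp ⊢
    omega
  · intro q hq
    simp only [mem_filter, mem_product, mem_range, mem_sigma] at hq ⊢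
    omega
  · intro p hp
    simp only [mem_filter, mem_product, mem_range] at hp
    ext <;> simp only []
    omega
  · intro q _
    ext <;> simp
  · intro p hp
    simp only [mem_filter, mem_product, mem_range] at hp
    have : p.2 + (p.1 - p.2) = p.1 := by omega
    simp only [this]

lemma lag_nonneg (n : ℕ) (W : ℕ → ℕ → ℝ) (hW : ∀ i i', W i i' = W i' i)
    (hlag : ∀ r < n, 0 ≤ ∑ i ∈ range (n - r), W (i + r) i) (A : ℝ → ℝ) (hA : ∀ x, 0 ≤ A x) :
    0 ≤ ∑ i ∈ range n, ∑ i' ∈ range n, W i i' * A ((i : ℝ) - i') := by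
  have e : ∀ i i' : ℕ, W i i' * A ((i : ℝ) - i')
      = (if i' ≤ i then W i i' * A ((i : ℝ) - i') else 0)
        + (if i ≤ i' then (if i = i' then 0 else W i' i * A ((i : ℝ) - i')) else 0) := by
    intro i i'
    rcases lt_trichotomy i i' with h | h | h
    · rw [if_neg (by omega), if_pos h.le, if_neg h.ne, zero_add, hW]
    · rw [if_pos h.ge, if_pos h.le, if_pos h, add_zero]
    · rw [if_pos h.le, if_neg (by omega), add_zero]
  rw [Finset.sum_congr rfl fun i _ => Finset.sum_congr rfl fun i' _ => e i i']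
  simp only [Finset.sum_add_distrib]
  rw [sum_tri n (fun i i' => W i i' * A ((i : ℝ) - i')), Finset.sum_comm (s := range n) (t := range n)
    (f := fun i i' => if i ≤ i' then (if i = i' then 0 else W i' i * A ((i : ℝ) - i')) else 0),
    sum_tri n (fun i' i => if i = i' then 0 else W i' i * A ((i : ℝ) - i'))]
  refine add_nonneg (Finset.sum_nonneg fun r hr => ?_) (Finset.sum_nonneg fun r hr => ?_)
  · have : ∀ i : ℕ, (((i + r : ℕ) : ℝ) - i) = r := fun i => by push_cast; ring
    simp only [this]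
    rw [← Finset.sum_mul]
    exact mul_nonneg (hlag r (mem_range.mp hr)) (hA _)
  · have : ∀ i : ℕ, ((i : ℝ) - ((i + r : ℕ) : ℝ)) = -r := fun i => by push_cast; ring
    simp only [this]
    rcases Nat.eq_zero_or_pos r with rfl | h
    · simp
    · have : ∀ i : ℕ, i ≠ i + r := fun i => by omega
      simp only [this, if_false]
      rw [← Finset.sum_mul]
      exact mul_nonneg (hlag r (mem_range.mp hr)) (hA _)

lemma sum_conj {M : Type*} [AddCommMonoid M] {A : Finset ℂ} (hA : ∀ z ∈ A, conj z ∈ A)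
    (F : ℂ → M) : ∑ z ∈ A, F (conj z) = ∑ z ∈ A, F z :=
  Finset.sum_bij' (fun z _ => conj z) (fun z _ => conj z) (fun z hz => hA z hz)
    (fun z hz => hA z hz) (fun z _ => by simp) (fun z _ => by simp) (fun _ _ => rfl)

lemma sum_split {M : Type*} [AddCommMonoid M] {A : Finset ℂ} (hA : ∀ z ∈ A, conj z ∈ A)
    (F : ℂ → M) : ∑ z ∈ A, F z = ∑ z ∈ A.filter (fun z => z.im = 0), F z
      + ∑ z ∈ A.filter (fun z => 0 < z.im), (F z + F (conj z)) := by
  classical
  rw [Finset.sum_add_distrib, ← Finset.sum_filter_add_sum_filter_not A (fun z => z.im = 0),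
    ← Finset.sum_filter_add_sum_filter_not (A.filter fun z => ¬ z.im = 0) (fun z => 0 < z.im),
    Finset.filter_filter, Finset.filter_filter]
  congr 2
  · congr 1
    refine Finset.filter_congr fun z _ => ⟨fun h => h.2, fun h => ⟨h.ne', h⟩⟩
  · refine Finset.sum_bij' (fun z _ => conj z) (fun z _ => conj z) ?_ ?_ (fun z _ => by simp)
      (fun z _ => by simp) (fun z _ => by simp)
    · intro z hz
      rw [mem_filter] at hz ⊢
      refine ⟨hA z hz.1, ?_⟩
      rw [Complex.conj_im]
      rcases lt_trichotomy z.im 0 with h | h | h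
      · linarith
      · exact absurd h hz.2.1
      · exact absurd h hz.2.2
    · intro z hz
      rw [mem_filter] at hz ⊢
      refine ⟨hA z hz.1, ?_⟩
      rw [Complex.conj_im]
      constructor <;> intro h <;> linarith [hz.2]

variable {n : Type*} [Fintype n]

/-- The rank-one matrix `x yᴴ`. -/
noncomputable def rk (x y : n → ℂ) : Matrix n n ℂ := vecMulVec x (star y)

lemma rk_psd (x : n → ℂ) : (rk x x).PosSemidef := posSemidef_vecMulVec_self_star x

omit [Fintype n] in
lemma rk_apply (x y : n → ℂ) (a b : n) : rk x y a b = x a * conj (y b) := rfl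

lemma trace_rk (x y : n → ℂ) : (rk x y).trace = star y ⬝ᵥ x := by
  unfold rk; rw [trace_vecMulVec, dotProduct_comm]

omit [Fintype n] in
lemma rk_conjTranspose (x y : n → ℂ) : (rk x y)ᴴ = rk y x := by
  ext a b; simp [rk_apply, mul_comm]

/-- Rank-one extraction (Cauchy–Schwarz). -/
lemma exists_rank_one (C : Finset ℂ) (v : ℂ → n → ℂ) (m ξ : ℂ → ℝ) (hm : ∀ z ∈ C, 0 ≤ m z)
    (hW : 0 < ∑ z ∈ C, m z * ξ z ^ 2) :
    ∃ u : n → ℂ, (∑ z ∈ C, (m z : ℂ) • rk (v z) (v z) - rk u u).PosSemidef ∧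
      (∑ z ∈ C, m z * ξ z ^ 2) * tr (rk u u)
        = ∑ z ∈ C, ∑ w ∈ C, m z * ξ z * (m w * ξ w) * (star (v z) ⬝ᵥ v w).re := by
  set W := ∑ z ∈ C, m z * ξ z ^ 2 with hWdef
  set s : n → ℂ := ∑ z ∈ C, ((m z * ξ z : ℝ) : ℂ) • v z with hs
  set y : n → ℂ := ((W⁻¹ : ℝ) : ℂ) • s with hy
  have hsq : ((Real.sqrt W : ℝ) : ℂ) * (Real.sqrt W : ℝ) = (W : ℝ) := by
    rw [← Complex.ofReal_mul, Real.mul_self_sqrt hW.le]
  have hW0 : (W : ℂ) ≠ 0 := by exact_mod_cast hW.ne'
  have huu : rk (((Real.sqrt W : ℝ) : ℂ) • y) (((Real.sqrt W : ℝ) : ℂ) • y)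
      = ((W⁻¹ : ℝ) : ℂ) • rk s s := by
    ext a b
    simp only [rk_apply, hy, Pi.smul_apply, smul_eq_mul, map_mul, Complex.conj_ofReal,
      Matrix.smul_apply, Complex.ofReal_inv, map_inv₀]
    have : (↑(Real.sqrt W) : ℂ) * ((W : ℂ)⁻¹ * s a) * (↑(Real.sqrt W) * ((W : ℂ)⁻¹ * conj (s b)))
      = ((↑(Real.sqrt W) : ℂ) * ↑(Real.sqrt W)) * (W : ℂ)⁻¹ * (W : ℂ)⁻¹ * (s a * conj (s b)) := by
      ring
    rw [this, hsq]; field_simp
  refine ⟨((Real.sqrt W : ℝ) : ℂ) • y, ?_, ?_⟩
  · have h1 : (∑ z ∈ C, (m z : ℂ) • rk (v z - (ξ z : ℂ) • y) (v z - (ξ z : ℂ) • y)).PosSemidef :=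
      posSemidef_sum _ fun z hz => (rk_psd _).smul (Complex.zero_le_real.mpr (hm z hz))
    convert h1 using 1
    rw [huu]
    ext a b
    have hsa : ∀ a, s a = ∑ z ∈ C, ((m z : ℂ) * ξ z) * v z a := by
      intro a; rw [hs, Finset.sum_apply]; simp
    have hWc : (W : ℂ) = ∑ z ∈ C, (m z : ℂ) * (ξ z : ℂ) ^ 2 := by
      rw [hWdef]; push_cast; rfl
    have hsb : conj (s b) = ∑ z ∈ C, ((m z : ℂ) * ξ z) * conj (v z b) := by
      rw [hsa, map_sum]; simp
    simp only [Matrix.sub_apply, Matrix.sum_apply, Matrix.smul_apply, rk_apply, smul_eq_mul,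
      Pi.sub_apply, Pi.smul_apply, map_sub, map_mul, Complex.conj_ofReal]
    have : ∀ z ∈ C, (m z : ℂ) * ((v z a - ξ z * y a) * (conj (v z b) - ξ z * conj (y b)))
        = (m z : ℂ) * (v z a * conj (v z b)) - conj (y b) * (((m z : ℂ) * ξ z) * v z a)
          - y a * (((m z : ℂ) * ξ z) * conj (v z b))
          + y a * conj (y b) * ((m z : ℂ) * (ξ z : ℂ) ^ 2) := fun z _ => by ring
    rw [Finset.sum_congr rfl this, Finset.sum_add_distrib, Finset.sum_sub_distrib,
      Finset.sum_sub_distrib, ← Finset.mul_sum, ← Finset.mul_sum, ← Finset.mul_sum, ← hsa, ← hsb,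
      ← hWc]
    simp only [hy, Pi.smul_apply, smul_eq_mul, map_mul, Complex.conj_ofReal, Complex.ofReal_inv,
      map_inv₀]
    field_simp
    ring
  · rw [huu]
    unfold tr
    rw [trace_smul, smul_eq_mul, Complex.re_ofReal_mul, ← mul_assoc, mul_inv_cancel₀ hW.ne',
      one_mul, trace_rk, hs, star_sum, sum_dotProduct, Complex.re_sum]
    refine Finset.sum_congr rfl fun z _ => ?_
    rw [dotProduct_sum, Complex.re_sum]
    refine Finset.sum_congr rfl fun w _ => ?_
    rw [star_smul, smul_dotProduct, dotProduct_smul, smul_eq_mul, smul_eq_mul, RCLike.star_def,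
      Complex.conj_ofReal, ← mul_assoc, ← Complex.ofReal_mul, Complex.re_ofReal_mul]

/-- A conjugate pair is dominated by one rank-one matrix. -/
lemma pair_le (c : ℂ) (x y : n → ℂ) :
    (rk (c • x + y) (c • x + y) - (c • rk x y + conj c • rk y x)).PosSemidef := by
  have h := (rk_psd (c • x)).add (rk_psd y)
  convert h using 1
  ext a b
  simp only [Matrix.sub_apply, Matrix.add_apply, Matrix.smul_apply, rk_apply, smul_eq_mul,
    Pi.add_apply, Pi.smul_apply, map_add, map_mul]
  ring

omit [Fintype n] in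
lemma pair_herm (c : ℂ) (x y : n → ℂ) : (c • rk x y + conj c • rk y x).IsHermitian := by
  unfold Matrix.IsHermitian
  rw [conjTranspose_add, conjTranspose_smul, conjTranspose_smul, rk_conjTranspose,
    rk_conjTranspose, add_comm]
  simp

end Pool.Agent.MP_f259ea_nt.B

end
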