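import Pool.Agent.Mg.Ff259ea.G19b7e5
import Pool.Agent.Mg.Ff259ea.G9f392d
import Pool.Agent.Mg.Ff259ea.G98087c
import Pool.Agent.Mg.Ff259ea.G90f553
import Pool.Agent.Mg.Ff259ea.G531d1a
import Pool.Agent.Mg.Ff259ea.G290dc1
import Pool.Agent.Mg.Ff259ea.G3f0772
import Pool.Agent.Mg.Ff259ea.G95ef6c

section

/-! Bounds for the arithmetic coefficients. -/

set_option autoImplicit false

open Finset
open scoped Classical ArithmeticFunction.Moebius ArithmeticFunction.zeta Nat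

namespace Pool.Agent.MP_f259ea_nt.Q

namespace QArith

lemma mu_sum {m k : ℕ} (hk : k ≠ 0) (h : m ∣ k) :
    ∑ e ∈ k.divisors with m ∣ e, (μ (k / e) : ℝ) = if m = k then 1 else 0 := by
  obtain ⟨r, rfl⟩ := h
  have hm : m ≠ 0 := left_ne_zero_of_mul hk
  have hr : r ≠ 0 := right_ne_zero_of_mul hk
  have h1 : ∑ e ∈ (m * r).divisors with m ∣ e, (μ (m * r / e) : ℝ) =
      ∑ e ∈ r.divisors, (μ (r / e) : ℝ) := by
    symm
    refine sum_nbij' (fun e => m * e) (fun e => e / m) ?_ ?_ ?_ ?_ ?_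
    · intro e he
      exact mem_filter.2 ⟨Nat.mem_divisors.2
        ⟨Nat.mul_dvd_mul_left _ (Nat.dvd_of_mem_divisors he), hk⟩, dvd_mul_right _ _⟩
    · intro e he
      obtain ⟨h2, c, rfl⟩ := mem_filter.1 he
      rw [Nat.mul_div_cancel_left _ (Nat.pos_of_ne_zero hm)]
      exact Nat.mem_divisors.2
        ⟨Nat.dvd_of_mul_dvd_mul_left (Nat.pos_of_ne_zero hm) (Nat.dvd_of_mem_divisors h2), hr⟩
    · intro e _
      exact Nat.mul_div_cancel_left _ (Nat.pos_of_ne_zero hm)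
    · intro e he
      exact Nat.mul_div_cancel' (mem_filter.1 he).2
    · intro e _
      rw [Nat.mul_div_mul_left _ _ (Nat.pos_of_ne_zero hm)]
  rw [h1, Nat.sum_div_divisors r fun e => (μ e : ℝ)]
  have h2 := congrArg (fun f : ArithmeticFunction ℝ => f r)
    (ArithmeticFunction.coe_moebius_mul_coe_zeta (R := ℝ))
  simp only [ArithmeticFunction.coe_mul_zeta_apply, ArithmeticFunction.intCoe_apply,
    ArithmeticFunction.one_apply] at h2
  rw [h2]
  refine if_congr ⟨fun h => by rw [h, mul_one], fun h => ?_⟩ rfl rfl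
  exact mul_left_cancel₀ hm (h.symm.trans (mul_one m).symm)

lemma key (w : ℕ → ℝ) {d k : ℕ} (hk : k ≠ 0) (h : d ∣ k) :
    ∑ e ∈ k.divisors with d ∣ e, (μ (k / e) : ℝ) * ∑ g ∈ e.divisors, w g =
      ∑ g ∈ k.divisors with Nat.lcm d g = k, w g := by
  have h1 : ∀ e ∈ k.divisors.filter (fun e => d ∣ e), (μ (k / e) : ℝ) * ∑ g ∈ e.divisors, w g =
      ∑ g ∈ k.divisors, if g ∣ e then (μ (k / e) : ℝ) * w g else 0 := by
    intro e he
    have he' := Nat.dvd_of_mem_divisors (mem_filter.1 he).1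
    rw [← sum_filter, mul_sum]
    refine sum_congr ?_ fun _ _ => rfl
    ext g
    simp only [Nat.mem_divisors, mem_filter]
    exact ⟨fun a => ⟨⟨a.1.trans he', hk⟩, a.1⟩, fun a => ⟨a.2, ne_zero_of_dvd_ne_zero hk he'⟩⟩
  rw [sum_congr rfl h1, sum_comm, sum_filter]
  refine sum_congr rfl fun g hg => ?_
  rw [← sum_filter, filter_filter, ← sum_mul]
  simp only [← Nat.lcm_dvd_iff]
  rw [mu_sum hk (Nat.lcm_dvd h (Nat.dvd_of_mem_divisors hg))]
  split_ifs <;> simp

lemma split (w : ℕ → ℝ) (h0 : ∀ g, ¬ Squarefree g → w g = 0)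
    (hm : ∀ a b, Nat.Coprime a b → w (a * b) = w a * w b) {d r : ℕ} (hk : d * r ≠ 0) :
    ∑ g ∈ (d * r).divisors with Nat.lcm d g = d * r, w g =
      if Nat.Coprime d r then w r * ∑ g ∈ d.divisors, w g else 0 := by
  have hd : d ≠ 0 := left_ne_zero_of_mul hk
  have hr : r ≠ 0 := right_ne_zero_of_mul hk
  have hg : ∀ g, Nat.lcm d g = d * r → g = Nat.gcd d g * r := fun g h => by
    have h1 := Nat.gcd_mul_lcm d g
    rw [h] at h1
    exact mul_left_cancel₀ hd (by rw [← h1]; ring)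
  split_ifs with hc
  · rw [mul_sum]
    symm
    refine sum_nbij' (fun e => e * r) (fun e => e / r) ?_ ?_ ?_ ?_ ?_
    · intro e he
      have h1 : e * r ∣ d * r := Nat.mul_dvd_mul_right (Nat.dvd_of_mem_divisors he) _
      exact mem_filter.2 ⟨Nat.mem_divisors.2 ⟨h1, hk⟩,
        Nat.dvd_antisymm (Nat.lcm_dvd (dvd_mul_right _ _) h1) (hc.mul_dvd_of_dvd_of_dvd
          (Nat.dvd_lcm_left _ _) ((dvd_mul_left _ _).trans (Nat.dvd_lcm_right _ _)))⟩
    · intro e he
      rw [hg e (mem_filter.1 he).2, Nat.mul_div_cancel _ (Nat.pos_of_ne_zero hr)]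
      exact Nat.mem_divisors.2 ⟨Nat.gcd_dvd_left _ _, hd⟩
    · intro e _
      exact Nat.mul_div_cancel _ (Nat.pos_of_ne_zero hr)
    · intro e he
      exact Nat.div_mul_cancel ⟨Nat.gcd d e, (hg e (mem_filter.1 he).2).trans (mul_comm _ _)⟩
    · intro e he
      rw [hm e r (hc.coprime_dvd_left (Nat.dvd_of_mem_divisors he)), mul_comm]
  · refine sum_eq_zero fun g hg' => h0 g fun hs => ?_
    obtain ⟨p, hp, h1, h2⟩ := Nat.Prime.not_coprime_iff_dvd.1 hc
    have h3 := hg g (mem_filter.1 hg').2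
    have h4 : p ∣ g := h3 ▸ h2.mul_left _
    exact hp.not_isUnit (hs p (h3 ▸ Nat.mul_dvd_mul (Nat.dvd_gcd h1 h4) h2))

lemma sum_eq_prod (w : ℕ → ℝ) (h0 : ∀ g, ¬ Squarefree g → w g = 0) (h1 : w 1 = 1)
    (hm : ∀ a b, Nat.Coprime a b → w (a * b) = w a * w b) {e : ℕ} (he : e ≠ 0) :
    ∑ g ∈ e.divisors, w g = ∏ p ∈ e.primeFactors, (1 + w p) := by
  let W : ArithmeticFunction ℝ := ⟨w, h0 0 not_squarefree_zero⟩
  have hW : W.IsMultiplicative := ⟨h1, fun h => hm _ _ h⟩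
  have h2 := (ArithmeticFunction.isMultiplicative_zeta.natCast.mul hW).multiplicative_factorization
    _ he
  rw [ArithmeticFunction.coe_zeta_mul_apply, Finsupp.prod, Nat.support_factorization] at h2
  refine h2.trans (prod_congr rfl fun p hp => ?_)
  have hp' := Nat.prime_of_mem_primeFactors hp
  obtain ⟨j, hj⟩ : ∃ j, e.factorization p = j + 1 :=
    ⟨_, (Nat.succ_pred_eq_of_pos (hp'.factorization_pos_of_dvd he
      (Nat.dvd_of_mem_primeFactors hp))).symm⟩
  rw [ArithmeticFunction.coe_zeta_mul_apply, hj, Nat.sum_divisors_prime_pow hp', sum_range_succ',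
    sum_range_succ', sum_eq_zero, zero_add, zero_add, pow_one, pow_zero, add_comm]
  · exact congrArg (· + w p) h1
  · intro i _
    exact h0 _ fun hs => hp'.not_isUnit (hs p ⟨p ^ i, by ring⟩)

lemma tot {e : ℕ} : (φ e : ℝ) = e * ∏ p ∈ e.primeFactors, (1 - (p : ℝ)⁻¹) := by
  have h := congrArg (fun x : ℚ => (x : ℝ)) (Nat.totient_eq_mul_prod_factors e)
  push_cast at h
  exact h

/-- The first weight. -/
noncomputable def w1 (g : ℕ) : ℝ := (μ g : ℝ) / g

/-- The second weight. -/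
noncomputable def w2 (g : ℕ) : ℝ := (μ g : ℝ) ^ 2 / φ g

lemma w1_zero (g : ℕ) (h : ¬ Squarefree g) : w1 g = 0 := by
  rw [w1, ArithmeticFunction.moebius_eq_zero_of_not_squarefree h]; simp

lemma w2_zero (g : ℕ) (h : ¬ Squarefree g) : w2 g = 0 := by
  rw [w2, ArithmeticFunction.moebius_eq_zero_of_not_squarefree h]; simp

lemma w1_mul (a b : ℕ) (h : Nat.Coprime a b) : w1 (a * b) = w1 a * w1 b := by
  rw [w1, w1, w1, ArithmeticFunction.isMultiplicative_moebius.map_mul_of_coprime h,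
    div_mul_div_comm]
  push_cast; rfl

lemma w2_mul (a b : ℕ) (h : Nat.Coprime a b) : w2 (a * b) = w2 a * w2 b := by
  rw [w2, w2, w2, ArithmeticFunction.isMultiplicative_moebius.map_mul_of_coprime h,
    Nat.totient_mul h, div_mul_div_comm]
  push_cast; rw [mul_pow]

lemma w2_nonneg (g : ℕ) : 0 ≤ w2 g := by unfold w2; positivity

lemma w2_le (g : ℕ) : w2 g ≤ 1 / φ g := by
  refine div_le_div_of_nonneg_right ?_ (Nat.cast_nonneg _)
  rw [← Int.cast_pow, ArithmeticFunction.moebius_sq]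
  split_ifs <;> simp

lemma sum_w1 {e : ℕ} (he : e ≠ 0) : (φ e : ℝ) / e = ∑ g ∈ e.divisors, w1 g := by
  rw [sum_eq_prod w1 w1_zero (by simp [w1]) w1_mul he, tot,
    mul_div_cancel_left₀ _ (Nat.cast_ne_zero.2 he)]
  refine prod_congr rfl fun p hp => ?_
  rw [w1, ArithmeticFunction.moebius_apply_prime (Nat.prime_of_mem_primeFactors hp)]
  push_cast; ring

lemma ratio {e : ℕ} (he : e ≠ 0) : (e : ℝ) / φ e = ∏ p ∈ e.primeFactors, (1 - (p : ℝ)⁻¹)⁻¹ := by
  rw [tot, div_mul_eq_div_div, div_self (Nat.cast_ne_zero.2 he), one_div, prod_inv_distrib]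

lemma sum_w2 {e : ℕ} (he : e ≠ 0) : (e : ℝ) / φ e = ∑ g ∈ e.divisors, w2 g := by
  rw [sum_eq_prod w2 w2_zero (by simp [w2]) w2_mul he, ratio he]
  refine prod_congr rfl fun p hp => ?_
  have hp' := Nat.prime_of_mem_primeFactors hp
  have h1 : (1 : ℝ) < p := by exact_mod_cast hp'.one_lt
  have h2 : (p : ℝ) - 1 ≠ 0 := by linarith
  rw [w2, ArithmeticFunction.moebius_apply_prime hp', Nat.totient_prime hp',
    Nat.cast_pred hp'.pos]
  push_cast; field_simp; ring

lemma cc_eq {q d : ℕ} (hd : d ≠ 0) (h : q ∣ d) :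
    cc q d = ∑ g ∈ d.divisors with Nat.lcm q g = d, w1 g := by
  rw [← key w1 hd h]
  exact sum_congr rfl fun e he => by
    rw [sum_w1 (Nat.pos_of_mem_divisors (mem_filter.1 he).1).ne']

lemma uu_eq {d k : ℕ} (hk : k ≠ 0) (h : d ∣ k) :
    uu d k = ∑ g ∈ k.divisors with Nat.lcm d g = k, w2 g := by
  rw [← key w2 hk h]
  exact sum_congr rfl fun e he => by
    rw [sum_w2 (Nat.pos_of_mem_divisors (mem_filter.1 he).1).ne']

/-- The reciprocal as a monoid homomorphism. -/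
noncomputable def recip : ℕ →* ℝ where
  toFun n := (n : ℝ)⁻¹
  map_one' := by simp
  map_mul' m n := by simp [mul_comm]

lemma sum_le (s : Finset ℕ) (hs : ∀ p ∈ s, p.Prime) (T : Finset ℕ)
    (hT : ∀ m ∈ T, m ∈ Nat.factoredNumbers s) :
    ∑ m ∈ T, (m : ℝ)⁻¹ ≤ ∏ p ∈ s, (1 - (p : ℝ)⁻¹)⁻¹ := by
  have h := (EulerProduct.summable_and_hasSum_factoredNumbers_prod_filter_prime_geometric
    (f := recip) (fun {p} hp => by
      change ‖(p : ℝ)⁻¹‖ < 1
      rw [Real.norm_of_nonneg (by positivity)]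
      exact inv_lt_one_of_one_lt₀ (by exact_mod_cast hp.one_lt)) s).2
  rw [filter_true_of_mem hs] at h
  have h2 := sum_le_hasSum (T.subtype (· ∈ Nat.factoredNumbers s))
    (fun m _ => (by positivity : (0 : ℝ) ≤ ((m : ℕ) : ℝ)⁻¹)) h
  change ∑ m ∈ T.subtype (· ∈ Nat.factoredNumbers s), ((m : ℕ) : ℝ)⁻¹ ≤ _ at h2
  rw [sum_subtype_eq_sum_filter (f := fun m : ℕ => (m : ℝ)⁻¹), filter_true_of_mem hT] at h2
  exact h2

open UniqueFactorizationMonoid in
lemma fibre (G g : ℕ) : ∑ n ∈ Icc 1 G with radical n = g, (n : ℝ)⁻¹ ≤ w2 g := by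
  rcases ((Icc 1 G).filter fun n => radical n = g).eq_empty_or_nonempty with h | ⟨n0, h⟩
  · rw [h, sum_empty]; exact w2_nonneg g
  have hs : Squarefree g := (mem_filter.1 h).2 ▸ squarefree_radical
  have hg : g ≠ 0 := hs.ne_zero
  have hdvd : ∀ n ∈ (Icc 1 G).filter fun n => radical n = g, g ∣ n := fun n hn =>
    (mem_filter.1 hn).2 ▸ radical_dvd_self
  have h1 := sum_le g.primeFactors (fun p hp => Nat.prime_of_mem_primeFactors hp)
    (((Icc 1 G).filter fun n => radical n = g).image (· / g)) fun m hm => by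
      obtain ⟨n, hn, rfl⟩ := mem_image.1 hm
      have h5 : n / g ∣ n := Nat.div_dvd_of_dvd (hdvd n hn)
      have h6 : n ≠ 0 := by have := (mem_Icc.1 (mem_filter.1 hn).1).1; omega
      rw [Nat.mem_factoredNumbers_iff_primeFactors_subset]
      refine ⟨ne_zero_of_dvd_ne_zero h6 h5, (Nat.primeFactors_mono h5 h6).trans ?_⟩
      rw [← (mem_filter.1 hn).2, Nat.radical_eq_prod_primeFactors,
        Nat.primeFactors_prod fun p hp => Nat.prime_of_mem_primeFactors hp]
  rw [sum_image (fun a ha b hb h => by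
    rw [← Nat.div_mul_cancel (hdvd a ha), ← Nat.div_mul_cancel (hdvd b hb)]
    exact congrArg (· * g) h), ← ratio hg] at h1
  have hgr : (0 : ℝ) < g := Nat.cast_pos.2 (Nat.pos_of_ne_zero hg)
  have e1 : ∑ n ∈ Icc 1 G with radical n = g, (n : ℝ)⁻¹ =
      (∑ n ∈ Icc 1 G with radical n = g, ((n / g : ℕ) : ℝ)⁻¹) * (g : ℝ)⁻¹ := by
    rw [sum_mul]
    refine sum_congr rfl fun n hn => ?_
    rw [← mul_inv, ← Nat.cast_mul, Nat.div_mul_cancel (hdvd n hn)]
  have e2 : w2 g = (g : ℝ) / φ g * (g : ℝ)⁻¹ := by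
    rw [w2, ← Int.cast_pow, ArithmeticFunction.moebius_sq_eq_one_of_squarefree hs]
    push_cast; field_simp
  rw [e1, e2]
  exact mul_le_mul_of_nonneg_right h1 (by positivity)

open UniqueFactorizationMonoid in
lemma log_le (G : ℕ) : Real.log ((G : ℝ) + 1) ≤ ∑ g ∈ Icc 1 G, w2 g := by
  have h := log_add_one_le_harmonic G
  rw [harmonic_eq_sum_Icc] at h
  push_cast at h
  refine h.trans ?_
  rw [← sum_fiberwise_of_maps_to (t := Icc 1 G) (g := fun n : ℕ => radical n)]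
  · exact sum_le_sum fun g _ => fibre G g
  · intro n hn
    obtain ⟨h1, h2⟩ := mem_Icc.1 hn
    exact mem_Icc.2 ⟨Nat.radical_pos n, (Nat.radical_le_self_iff.2 (by omega)).trans h2⟩

lemma odd_prod (S : Finset ℕ) : (∀ p ∈ S, p % 2 = 1 ∧ 3 ≤ p) →
    ∏ p ∈ S, ((1 - (p : ℝ)⁻¹)⁻¹) ^ 2 ≤ 2 * S.card + 1 ∧
      ∀ b, (∀ p ∈ S, p < b) → b % 2 = 1 → 3 ≤ b → 2 * S.card + 3 ≤ b := by
  induction S using Finset.induction_on_max with
  | empty => intro _; exact ⟨by simp, fun b _ _ h => by simpa using h⟩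
  | insert a S ha ih =>
    intro h
    obtain ⟨h1, h2⟩ := ih fun p hp => h p (mem_insert_of_mem hp)
    have h3 := h a (mem_insert_self _ _)
    have h4 := h2 a ha h3.1 h3.2
    have h5 : a ∉ S := fun h => lt_irrefl _ (ha a h)
    rw [prod_insert h5, card_insert_of_notMem h5]
    refine ⟨?_, fun b hb h6 h7 => by have := hb a (mem_insert_self _ _); omega⟩
    have h8 : (2 * S.card + 3 : ℝ) ≤ a := by exact_mod_cast h4
    have h9 : (0 : ℝ) ≤ S.card := Nat.cast_nonneg _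
    have h10 : ((1 - (a : ℝ)⁻¹)⁻¹) ^ 2 * (2 * S.card + 1) ≤ 2 * S.card + 3 := by
      have e : (1 - (a : ℝ)⁻¹)⁻¹ = a / (a - 1) := by
        have : (a : ℝ) ≠ 0 := by linarith
        have : (a : ℝ) - 1 ≠ 0 := by linarith
        field_simp
      rw [e, div_pow, div_mul_eq_mul_div, div_le_iff₀ (by nlinarith)]
      nlinarith [mul_nonneg (sub_nonneg.2 h8) (show (0 : ℝ) ≤ a by linarith)]
    push_cast
    nlinarith [mul_le_mul_of_nonneg_left h1 (sq_nonneg ((1 - (a : ℝ)⁻¹)⁻¹))]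

lemma ratio_sq {k : ℕ} (hk : 1 ≤ k) : ((k : ℝ) / φ k) ^ 2 ≤ 16 * (1 + Real.log k) := by
  have hk0 : k ≠ 0 := by omega
  have h1 := (odd_prod (k.primeFactors.erase 2) fun p hp => by
    have h2 := Nat.prime_of_mem_primeFactors (mem_of_mem_erase hp)
    have h3 := ne_of_mem_erase hp
    have h4 := h2.two_le
    exact ⟨h2.eq_two_or_odd.resolve_left h3, by omega⟩).1
  have h2 : ((k.primeFactors.erase 2).card : ℝ) ≤ k.primeFactors.card := by
    exact_mod_cast card_erase_le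
  have h3 : 2 ^ k.primeFactors.card ≤ k :=
    (pow_card_le_prod _ _ _ fun p hp => (Nat.prime_of_mem_primeFactors hp).two_le).trans
      (Nat.le_of_dvd hk (Nat.prod_primeFactors_dvd k))
  have h4 : (k.primeFactors.card : ℝ) * Real.log 2 ≤ Real.log k := by
    rw [← Real.log_pow]
    exact Real.log_le_log (by positivity) (by exact_mod_cast h3)
  have h5 : (k.primeFactors.card : ℝ) ≤ 2 * Real.log k := by
    nlinarith [Real.log_two_gt_d9, (Nat.cast_nonneg k.primeFactors.card : (0 : ℝ) ≤ _)]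
  have h6 : 0 ≤ Real.log k := Real.log_natCast_nonneg k
  rw [ratio hk0, ← prod_pow]
  by_cases h7 : 2 ∈ k.primeFactors
  · rw [← mul_prod_erase _ _ h7]
    have e : ((1 - ((2 : ℕ) : ℝ)⁻¹)⁻¹) ^ 2 = 4 := by norm_num
    rw [e]
    linarith
  · rw [erase_eq_of_notMem h7] at h1
    linarith

end QArith

open QArith in
theorem stmtArith : StmtArith := by
  refine ⟨fun q d hd h => ?_, fun d k hk h => ?_, fun d R X hd hR hX => ?_, fun k hk => ratio_sq hk⟩
  · have hd0 : d ≠ 0 := by omega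
    rw [cc_eq hd0 h]
    obtain ⟨r, rfl⟩ := h
    have hq : q ≠ 0 := left_ne_zero_of_mul hd0
    have hq' : (0 : ℝ) < q := Nat.cast_pos.2 (Nat.pos_of_ne_zero hq)
    have hr' : (0 : ℝ) < r := Nat.cast_pos.2 (Nat.pos_of_ne_zero (right_ne_zero_of_mul hd0))
    rw [split w1 w1_zero w1_mul hd0]
    split_ifs
    · rw [← sum_w1 hq, abs_mul, w1, abs_div, Nat.abs_cast,
        abs_of_nonneg (show (0 : ℝ) ≤ (φ q : ℝ) / q by positivity),
        Nat.cast_mul, div_mul_cancel_left₀ hq'.ne', ← mul_one (r : ℝ)⁻¹]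
      refine mul_le_mul ?_ ((div_le_one hq').2 (by exact_mod_cast Nat.totient_le q))
        (by positivity) (by positivity)
      rw [← one_div]
      exact div_le_div_of_nonneg_right (by exact_mod_cast ArithmeticFunction.abs_moebius_le_one)
        hr'.le
    · rw [abs_zero]; positivity
  · have hk0 : k ≠ 0 := by omega
    rw [uu_eq hk0 h]
    refine ⟨sum_nonneg fun g _ => w2_nonneg g, ?_⟩
    obtain ⟨r, rfl⟩ := h
    rw [split w2 w2_zero w2_mul hk0]
    split_ifs with hc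
    · rw [← sum_w2 (left_ne_zero_of_mul hk0), Nat.totient_mul hc]
      refine (mul_le_mul_of_nonneg_right (w2_le r) (by positivity)).trans_eq ?_
      push_cast
      rw [div_mul_div_comm, one_mul, mul_comm]
    · positivity
  · have h1 : Real.log R ≤ Real.log ((⌊R⌋₊ : ℝ) + 1) :=
      Real.log_le_log (by linarith) (Nat.lt_floor_add_one R).le
    refine h1.trans ((log_le _).trans ?_)
    rw [← sum_fiberwise_of_maps_to (t := (Icc 1 ⌊X⌋₊).filter fun k => d ∣ k)
      (g := fun g : ℕ => Nat.lcm d g)]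
    · refine sum_le_sum fun k hk => ?_
      obtain ⟨h2, h3⟩ := mem_filter.1 hk
      have hk0 : k ≠ 0 := by have := (mem_Icc.1 h2).1; omega
      rw [uu_eq hk0 h3]
      refine sum_le_sum_of_subset_of_nonneg (fun g hg => ?_) fun g _ _ => w2_nonneg g
      have h4 := (mem_filter.1 hg).2
      exact mem_filter.2 ⟨Nat.mem_divisors.2 ⟨h4 ▸ Nat.dvd_lcm_right _ _, hk0⟩, h4⟩
    · intro g hg
      obtain ⟨h2, h3⟩ := mem_Icc.1 hg
      refine mem_filter.2 ⟨mem_Icc.2 ⟨Nat.lcm_pos hd h2, ?_⟩, Nat.dvd_lcm_left _ _⟩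
      refine (Nat.le_of_dvd (Nat.mul_pos hd h2) (Nat.lcm_dvd_mul _ _)).trans (Nat.le_floor ?_)
      have h4 : (g : ℝ) ≤ R := (Nat.cast_le.2 h3).trans (Nat.floor_le (by linarith))
      push_cast
      exact (mul_le_mul_of_nonneg_left h4 (Nat.cast_nonneg _)).trans hX

end Pool.Agent.MP_f259ea_nt.Q

end

section

/-!
Conductor aspect: the terms away from their main ranges are small.
-/

set_option autoImplicit false

open Complex MeasureTheory Finset
open scoped Real ComplexConjugate Classical ArithmeticFunction.Moebius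
  ArithmeticFunction.vonMangoldt Nat

namespace Pool.Agent.MP_f259ea_nt.Q

namespace QBad

lemma int_fwd {f : ℝ → ℝ} (hf : Continuous f) {x y s : ℝ} (hxy : x ≤ y) (hs : 0 < s)
    (h : ∀ u ∈ Set.Icc x y, f u ≤ 1 / (u - x + s) ^ 2) : ∫ u in x..y, f u ≤ 1 / s := by
  have hpos : ∀ u ∈ Set.uIcc x y, u - x + s ≠ 0 := fun u hu => by
    rw [Set.uIcc_of_le hxy] at hu
    have := hu.1
    exact ne_of_gt (by linarith)
  have hc : ContinuousOn (fun u : ℝ => 1 / (u - x + s) ^ 2) (Set.uIcc x y) :=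
    continuousOn_const.div (by fun_prop) fun u hu => pow_ne_zero 2 (hpos u hu)
  have hd : ∀ u ∈ Set.uIcc x y, HasDerivAt (fun u : ℝ => -(u - x + s)⁻¹) (1 / (u - x + s) ^ 2) u :=
    fun u hu => by
      have h1 : HasDerivAt (fun u : ℝ => u - x + s) 1 u :=
        ((hasDerivAt_id u).sub_const x).add_const s
      exact (h1.inv (hpos u hu)).neg.congr_deriv (by ring)
  have h1 := intervalIntegral.integral_eq_sub_of_hasDerivAt hd hc.intervalIntegrable
  have h2 : ∫ u in x..y, f u ≤ ∫ u in x..y, 1 / (u - x + s) ^ 2 :=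
    intervalIntegral.integral_mono_on hxy (hf.intervalIntegrable x y) hc.intervalIntegrable h
  have h3 : 0 ≤ (y - x + s)⁻¹ := inv_nonneg.2 (by linarith)
  rw [h1, sub_self, zero_add] at h2
  rw [one_div]
  linarith

lemma int_bwd {f : ℝ → ℝ} (hf : Continuous f) {x y s : ℝ} (hxy : x ≤ y) (hs : 0 < s)
    (h : ∀ u ∈ Set.Icc x y, f u ≤ 1 / (y - u + s) ^ 2) : ∫ u in x..y, f u ≤ 1 / s := by
  have h1 := int_fwd (f := fun u => f (x + y - u)) (by fun_prop) hxy hs fun u hu => by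
    have := h (x + y - u) ⟨by linarith [hu.2], by linarith [hu.1]⟩
    rwa [show y - (x + y - u) + s = u - x + s by ring] at this
  rwa [intervalIntegral.integral_comp_sub_left, add_sub_cancel_right, add_sub_cancel_left] at h1

variable {T : ℝ} {W : ℝ → ℂ}

lemma sq_le_of_gap (hW : GW T W) {v r : ℝ} (hr : 0 < r) (h : r ≤ |v|) : ‖W v‖ ^ 2 ≤ 1 / r ^ 2 := by
  have h1 := hW.decay v
  have h2 : ‖W v‖ ≤ 1 / r := by
    rw [le_div_iff₀ hr]
    nlinarith [norm_nonneg (W v)]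
  calc ‖W v‖ ^ 2 ≤ (1 / r) ^ 2 := by gcongr
    _ = _ := by rw [div_pow, one_pow]

lemma int_le_T (hW : GW T W) {x y : ℝ} (hxy : x ≤ y) (c : ℝ) :
    ∫ u in x..y, ‖W (u - c)‖ ^ 2 ≤ T := by
  rw [intervalIntegral.integral_comp_sub_right (fun u => ‖W u‖ ^ 2),
    intervalIntegral.integral_of_le (by linarith)]
  exact (setIntegral_le_integral hW.sq_int
    (Filter.Eventually.of_forall fun u => by positivity)).trans hW.sq_le

lemma norm_av (W : ℝ → ℂ) (u : ℝ) (n : ℕ) :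
    ‖av W u n‖ ^ 2 = Λ n ^ 2 / n * ‖W (u - un n)‖ ^ 2 := by
  rw [av, norm_mul, mul_pow, Complex.norm_real, Real.norm_eq_abs, sq_abs, div_pow,
    Real.sq_sqrt n.cast_nonneg]

lemma master (hW : Continuous W) (N : ℕ) (P : ℕ → Prop) [DecidablePred P] {v : ℝ → ℝ}
    (hv : Continuous v) {a : ℝ → ℕ → ℂ} (ha : ∀ u n, a u n = if P n then av W (v u) n else 0)
    {x y B : ℝ} (hB : ∀ n, 2 ≤ n → P n → ∫ u in x..y, ‖W (v u - un n)‖ ^ 2 ≤ B) :
    ∫ u in x..y, nrm N (a u) ≤ B * ∑ n ∈ Icc 1 N, if P n then Λ n ^ 2 / n else 0 := by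
  have h1 : ∀ u, nrm N (a u)
      = ∑ n ∈ Icc 1 N, (if P n then Λ n ^ 2 / n else 0) * ‖W (v u - un n)‖ ^ 2 := fun u => by
    refine Finset.sum_congr rfl fun n _ => ?_
    rw [ha]
    split_ifs
    · exact norm_av _ _ _
    · simp
  simp only [h1]
  rw [intervalIntegral.integral_finsetSum fun n _ => Continuous.intervalIntegrable (by fun_prop) _ _,
    Finset.mul_sum]
  refine Finset.sum_le_sum fun n hn => ?_
  rw [intervalIntegral.integral_const_mul, mul_comm B]
  split_ifs with hP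
  · rcases (Finset.mem_Icc.1 hn).1.eq_or_lt with h | h
    · subst h; simp
    · exact mul_le_mul_of_nonneg_left (hB n h hP) (by positivity)
  · simp

lemma master' (hW : Continuous W) (N : ℕ) (P : ℕ → Prop) [DecidablePred P] {v : ℝ → ℝ}
    (hv : Continuous v) {a : ℝ → ℕ → ℂ} (ha : ∀ u n, a u n = if P n then av W (v u) n else 0)
    {x y B S : ℝ} (hB0 : 0 ≤ B) (hB : ∀ n, 2 ≤ n → P n → ∫ u in x..y, ‖W (v u - un n)‖ ^ 2 ≤ B)
    (hS : ∑ n ∈ Icc 1 N, Λ n ^ 2 / n ≤ S) : ∫ u in x..y, nrm N (a u) ≤ B * S := by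
  refine (master hW N P hv ha hB).trans (mul_le_mul_of_nonneg_left (le_trans ?_ hS) hB0)
  refine Finset.sum_le_sum fun n _ => ?_
  split_ifs
  · exact le_rfl
  · positivity

lemma un_two {n : ℕ} (hn : 2 ≤ n) : 11 / 100 ≤ un n := by
  refine le_trans ?_ (un_mono (m := 2) (by norm_num) hn)
  have h1 := Real.log_two_gt_d9
  have h2 := Real.pi_lt_d2
  rw [un, le_div_iff₀ (by positivity)]
  push_cast
  linarith

lemma log_le_of_le_floor {Q n : ℕ} (hQ : 1 ≤ Q) (hn : 1 ≤ n) {e : ℝ}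
    (h : n ≤ ⌊(Q : ℝ) ^ e⌋₊) : Real.log n ≤ e * Real.log Q := by
  have hQ0 : (0 : ℝ) < Q := by exact_mod_cast hQ
  rw [← Real.log_rpow hQ0]
  exact Real.log_le_log (by exact_mod_cast hn)
    ((Nat.le_floor_iff (by positivity)).1 h)

lemma sq_div_le {n : ℕ} {M : ℝ} (h : Real.log n ≤ M) : Λ n ^ 2 / (n : ℝ) ≤ M * (Λ n / n) := by
  have h1 : Λ n ≤ M := ArithmeticFunction.vonMangoldt_le_log.trans h
  have h2 : 0 ≤ Λ n / (n : ℝ) := div_nonneg ArithmeticFunction.vonMangoldt_nonneg n.cast_nonneg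
  calc Λ n ^ 2 / (n : ℝ) = Λ n * (Λ n / n) := by ring
    _ ≤ _ := mul_le_mul_of_nonneg_right h1 h2

lemma S_le {Q : ℕ} {δ : ℝ} (hδ : 0 < δ) (hδ' : δ ≤ 1 / 2) (hQ : 1 ≤ Q) (hL : 1 ≤ Real.log Q) :
    ∑ n ∈ Icc 1 (NN δ Q), Λ n ^ 2 / (n : ℝ) ≤ 16 * Real.log Q ^ 2 := by
  have hQ1 : (1 : ℝ) ≤ Q := by exact_mod_cast hQ
  have hN : 1 ≤ NN δ Q := Nat.le_floor (by
    rw [Nat.cast_one]; exact Real.one_le_rpow hQ1 (by linarith))
  have h1 : ∀ n, 1 ≤ n → n ≤ NN δ Q → Real.log n ≤ 2 * Real.log Q := fun n hn h =>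
    (log_le_of_le_floor hQ hn h).trans (by nlinarith)
  have h2 := (mertSum_bounds hN).2
  have h3 := h1 _ hN le_rfl
  have h4 : Real.log 4 ≤ 2 := by
    rw [show (4 : ℝ) = 2 ^ 2 by norm_num, Real.log_pow]
    have := Real.log_two_lt_d9
    push_cast; linarith
  calc _ ≤ ∑ n ∈ Icc 1 (NN δ Q), 2 * Real.log Q * (Λ n / n) :=
        Finset.sum_le_sum fun n hn =>
          sq_div_le (h1 n (Finset.mem_Icc.1 hn).1 (Finset.mem_Icc.1 hn).2)
    _ = 2 * Real.log Q * mertSum (NN δ Q) := by rw [mertSum, Finset.mul_sum]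
    _ ≤ 2 * Real.log Q * (8 * Real.log Q) :=
        mul_le_mul_of_nonneg_left (by linarith) (by linarith)
    _ = _ := by ring

lemma S3_le {Q : ℕ} {δ C : ℝ} (hδ : 0 < δ) (hδ' : δ ≤ 1 / 2) (hQ : 1 ≤ Q)
    (hC : ∀ X : ℕ, ∑ n ∈ Icc 1 X with ¬ n.Prime, Λ n / (n : ℝ) ≤ C) :
    (∑ n ∈ Icc 1 (NN δ Q), if ¬ (n ≤ N1 δ Q ∨ (n.Prime ∧ Q < n)) then Λ n ^ 2 / (n : ℝ) else 0)
      ≤ Real.log Q * (δ * Real.log Q + 10) + 2 * Real.log Q * C := by
  have hQ1 : (1 : ℝ) ≤ Q := by exact_mod_cast hQ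
  have hL : 0 ≤ Real.log Q := Real.log_nonneg hQ1
  have h0 : ∀ n : ℕ, 0 ≤ Λ n / (n : ℝ) := fun n =>
    div_nonneg ArithmeticFunction.vonMangoldt_nonneg n.cast_nonneg
  have h1 := mertSum_diff (x := (Q : ℝ) ^ (1 - δ)) (y := Q) (Real.one_le_rpow hQ1 (by linarith))
    (by simpa using Real.rpow_le_rpow_of_exponent_le hQ1 (show 1 - δ ≤ 1 by linarith))
  rw [Nat.floor_natCast, Real.log_rpow (by linarith)] at h1
  have h2 : ∑ n ∈ Icc 1 (NN δ Q) with n ∈ Ioc (N1 δ Q) Q, Λ n / (n : ℝ)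
      ≤ δ * Real.log Q + 10 := by
    refine le_trans (Finset.sum_le_sum_of_subset_of_nonneg
      (fun n hn => (Finset.mem_filter.1 hn).2) fun n _ _ => h0 n) (h1.trans (le_of_eq ?_))
    ring
  refine le_trans ?_ (add_le_add (mul_le_mul_of_nonneg_left h2 hL)
    (mul_le_mul_of_nonneg_left (hC (NN δ Q)) (by linarith)))
  rw [Finset.sum_filter, Finset.sum_filter, Finset.mul_sum, Finset.mul_sum,
    ← Finset.sum_add_distrib]
  refine Finset.sum_le_sum fun n hn => ?_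
  rw [Finset.mem_Icc] at hn
  have h3 : 0 ≤ Real.log Q * if n ∈ Ioc (N1 δ Q) Q then Λ n / (n : ℝ) else 0 :=
    mul_nonneg hL (by split_ifs; exacts [h0 n, le_rfl])
  have h4 : 0 ≤ 2 * Real.log Q * if ¬ n.Prime then Λ n / (n : ℝ) else 0 :=
    mul_nonneg (by linarith) (by split_ifs; exacts [le_rfl, h0 n])
  by_cases hc : n ≤ N1 δ Q ∨ (n.Prime ∧ Q < n)
  · rw [if_neg (not_not.2 hc)]; linarith
  rw [if_pos hc]
  by_cases hp : n.Prime
  · have h5 : n ∈ Ioc (N1 δ Q) Q := by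
      rw [Finset.mem_Ioc]
      constructor
      · by_contra h; exact hc (Or.inl (by omega))
      · by_contra h; exact hc (Or.inr ⟨hp, by omega⟩)
    rw [if_pos h5]
    have h6 : Real.log n ≤ Real.log Q :=
      Real.log_le_log (by exact_mod_cast hn.1) (by exact_mod_cast (Finset.mem_Ioc.1 h5).2)
    linarith [sq_div_le h6]
  · rw [if_pos hp]
    have h6 : Real.log n ≤ 2 * Real.log Q :=
      (log_le_of_le_floor hQ hn.1 hn.2).trans (by nlinarith)
    linarith [sq_div_le h6]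

end QBad

open QBad in
theorem stmtBad (hM : StmtMert2) : StmtBad := by
  obtain ⟨C, hC0, hC⟩ := hM.2
  refine ⟨16, by norm_num, fun δ hδ hδ' => ⟨⌈Real.exp ((500 + 2 * C) / δ)⌉₊, ?_⟩⟩
  intro Q hQ T W hT hW
  have hQe : Real.exp ((500 + 2 * C) / δ) ≤ Q := Nat.ceil_le.1 hQ
  have hQ0 : (0 : ℝ) < Q := (Real.exp_pos _).trans_le hQe
  have hQ1 : 1 ≤ Q := by exact_mod_cast hQ0
  have hL : 500 + 2 * C ≤ δ * Real.log Q := by
    have := (Real.le_log_iff_exp_le hQ0).2 hQe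
    rw [div_le_iff₀ hδ] at this
    linarith
  have hS := S3_le hδ hδ' hQ1 hC
  have hlog := fun (n : ℕ) (hn : 1 ≤ n) (h : n ≤ N1 δ Q) => log_le_of_le_floor hQ1 hn h
  have hlog' : ∀ n : ℕ, Q < n → Real.log Q ≤ Real.log n := fun n h =>
    Real.log_le_log hQ0 (by exact_mod_cast h.le)
  have hL0 : 0 ≤ Real.log Q := Real.log_natCast_nonneg Q
  have hL1 : 1000 ≤ Real.log Q := by nlinarith
  have hS0 := S_le hδ hδ' hQ1 (by linarith)
  have hpi := Real.pi_pos
  have hpi4 := Real.pi_le_four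
  have hust : 0 ≤ ust δ Q := div_nonneg (mul_nonneg (by linarith) hL0) (by positivity)
  have hue : ust δ Q ≤ ell δ Q := by
    exact div_le_div_of_nonneg_right (mul_le_mul_of_nonneg_right (by linarith) hL0)
      (by positivity)
  have he : 1 / 20 ≤ ell δ Q := by
    rw [ell, le_div_iff₀ (by positivity)]
    nlinarith
  have he0 : 0 ≤ ell δ Q := by linarith
  have hT0 : 0 ≤ T := by linarith
  have hc := hW.cont
  have t1 : ∫ u in (1 / 20 : ℝ)..(ell δ Q), Real.log Q ^ 2 * ‖W u‖ ^ 2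
      ≤ Real.log Q ^ 2 * (1 / (1 / 20)) := by
    rw [intervalIntegral.integral_const_mul]
    refine mul_le_mul_of_nonneg_left (int_fwd (by fun_prop) he (by norm_num) fun u hu => ?_)
      (by positivity)
    exact sq_le_of_gap hW (by linarith [hu.1]) (le_abs.2 (Or.inl (by linarith)))
  have t2 : ∫ u in (0 : ℝ)..(1 / 20), nrm (NN δ Q) (a1 δ Q W u)
      ≤ 1 / (6 / 100) * (16 * Real.log Q ^ 2) := by
    refine master' hc _ (fun n => n ≤ N1 δ Q) continuous_id (fun _ _ => rfl) (by norm_num)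
      (fun n hn _ => int_bwd (by fun_prop) (by norm_num) (by norm_num) fun u hu => ?_) hS0
    have := un_two hn
    exact sq_le_of_gap hW (by linarith [hu.2]) (le_abs.2 (Or.inr (by simp only [id]; linarith)))
  have t3 : ∫ u in (ust δ Q)..(ell δ Q), nrm (NN δ Q) (a1 δ Q W u)
      ≤ 1 / 1 * (16 * Real.log Q ^ 2) := by
    refine master' hc _ (fun n => n ≤ N1 δ Q) continuous_id (fun _ _ => rfl) (by norm_num)
      (fun n hn hP => int_fwd (by fun_prop) hue (by norm_num) fun u hu => ?_) hS0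
    have h1 : un n + 1 ≤ ust δ Q := by
      have := hlog n (by omega) hP
      rw [un, ust, div_add_one (by positivity)]
      gcongr
      nlinarith
    exact sq_le_of_gap hW (by linarith [hu.1]) (le_abs.2 (Or.inl (by simp only [id]; linarith)))
  have t4 : ∫ u in (0 : ℝ)..(ust δ Q), nrm (NN δ Q) (a2 Q W u)
      ≤ 1 / 1 * (16 * Real.log Q ^ 2) := by
    refine master' hc _ (fun n => n.Prime ∧ Q < n) continuous_id (fun _ _ => rfl) (by norm_num)
      (fun n hn hP => int_bwd (by fun_prop) hust (by norm_num) fun u hu => ?_) hS0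
    have h1 : ust δ Q + 1 ≤ un n := by
      have := hlog' n hP.2
      rw [un, ust, div_add_one (by positivity)]
      gcongr
      nlinarith
    exact sq_le_of_gap hW (by linarith [hu.2]) (le_abs.2 (Or.inr (by simp only [id]; linarith)))
  have t5 : ∫ u in (0 : ℝ)..(ell δ Q), nrm (NN δ Q) (a3 δ Q W u)
      ≤ T * (Real.log Q * (δ * Real.log Q + 10) + 2 * Real.log Q * C) := by
    refine (master hc _ (fun n => ¬ (n ≤ N1 δ Q ∨ (n.Prime ∧ Q < n))) continuous_id
      (fun u n => ?_) (fun n _ _ => int_le_T hW he0 _)).trans (mul_le_mul_of_nonneg_left hS hT0)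
    rw [a3, ite_not, id]
  have t6 : ∫ u in (0 : ℝ)..(ell δ Q), nrm (NN δ Q) (av W (-u))
      ≤ 1 / (1 / 10) * (16 * Real.log Q ^ 2) := by
    refine master' hc _ (fun _ => True) continuous_neg (fun _ _ => (if_pos trivial).symm)
      (by norm_num) (fun n hn _ => int_fwd (by fun_prop) he0 (by norm_num) fun u hu => ?_) hS0
    have := un_two hn
    exact sq_le_of_gap hW (by linarith [hu.1]) (le_abs.2 (Or.inr (by linarith)))
  have t7 : ∫ u in (0 : ℝ)..(ell δ Q), nrm (NN δ Q) (av W u) ≤ T * (16 * Real.log Q ^ 2) :=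
    master' hc _ (fun _ => True) continuous_id (fun _ _ => (if_pos trivial).symm) hT0
      (fun n _ _ => int_le_T hW he0 _) hS0
  refine ⟨?_, t7.trans (le_of_eq (by ring))⟩
  have h1 : 500 * Real.log Q ^ 2 ≤ δ * T * Real.log Q ^ 2 :=
    mul_le_mul_of_nonneg_right (by nlinarith) (by positivity)
  have h2 : T * (Real.log Q * (10 + 2 * C)) ≤ T * (Real.log Q * (δ * Real.log Q)) :=
    mul_le_mul_of_nonneg_left (mul_le_mul_of_nonneg_left (by linarith) hL0) hT0
  have h3 : 0 ≤ Real.log Q ^ 2 := by positivity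
  nlinarith

end Pool.Agent.MP_f259ea_nt.Q

end

section

/-!
Conductor aspect: translation of the counts into statements about `L(s, χ)`.
-/

set_option autoImplicit false

open Complex MeasureTheory Finset Filter Topology DirichletCharacter
open scoped Real ComplexConjugate Classical

namespace Pool.Agent.MP_f259ea_nt.Q

lemma finsum_prim (d : ℕ) (f : DirichletCharacter ℂ d → ℝ) :
    ∑ᶠ χ ∈ {χ : DirichletCharacter ℂ d | χ.IsPrimitive}, f χ = ∑ χ ∈ prim d, f χ := by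
  rw [← finsum_mem_coe_finset]
  congr 1
  ext χ
  simp [mem_prim]

lemma count_all {d : ℕ} [NeZero d] {χ : DirichletCharacter ℂ d} (hχ : χ.IsPrimitive) {T : ℝ}
    (hT : 0 < T) :
    (∑ᶠ ρ ∈ {s : ℂ | 0 < s.re ∧ s.re < 1 ∧ T < s.im ∧ s.im ≤ 2 * T ∧ LFunction χ s = 0},
      ((analyticOrderAt (LFunction χ) ρ).toNat : ℝ)) = ∑ z ∈ ZF χ T, (nn χ z : ℝ) := by
  obtain ⟨Z, hZ, e1, -⟩ := target_sets χ hχ hT
  rw [ZF_eq hZ, e1]

lemma count_distinct {d : ℕ} [NeZero d] {χ : DirichletCharacter ℂ d} (hχ : χ.IsPrimitive)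
    {T : ℝ} (hT : 0 < T) :
    {s : ℂ | 0 < s.re ∧ s.re < 1 ∧ T < s.im ∧ s.im ≤ 2 * T ∧ LFunction χ s = 0}.ncard
      = (ZF χ T).card := by
  obtain ⟨Z, hZ, -, e2⟩ := target_sets χ hχ hT
  rw [ZF_eq hZ, e2]

lemma count_simple {d : ℕ} [NeZero d] {χ : DirichletCharacter ℂ d} (hχ : χ.IsPrimitive)
    {T : ℝ} (hT : 0 < T) :
    {s : ℂ | s.re = 1 / 2 ∧ T < s.im ∧ s.im ≤ 2 * T ∧ analyticOrderAt (LFunction χ) s = 1}.ncard
      = ((ZF χ T).filter fun z => z.im = 0 ∧ nn χ z = 1).card := by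
  have hZ := mem_ZF hχ hT
  have hS : {s : ℂ | s.re = 1 / 2 ∧ T < s.im ∧ s.im ≤ 2 * T ∧ analyticOrderAt (LFunction χ) s = 1}
      = ((((ZF χ T).filter fun z => z.im = 0 ∧ nn χ z = 1).image sOf : Finset ℂ) : Set ℂ) := by
    ext s
    simp only [Set.mem_ofPred_eq, Finset.coe_image, Set.mem_image, Finset.mem_coe,
      Finset.mem_filter, hZ]
    constructor
    · rintro ⟨h1, h3, h4, h5⟩
      have hs : sOf ((s - 1 / 2) / I) = s := by unfold sOf; field_simp; ring
      have hre := sOf_re ((s - 1 / 2) / I)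
      have him := sOf_im ((s - 1 / 2) / I)
      rw [hs] at hre him
      have ho := order_Xi_eq χ (z := (s - 1 / 2) / I) (by linarith) (by linarith)
      rw [hs, h5] at ho
      refine ⟨(s - 1 / 2) / I, ⟨⟨by linarith, by linarith, ?_⟩, by linarith, ?_⟩, hs⟩
      · by_contra h
        rw [(analyticOnNhd_Xi χ _ (show 0 < ((s - 1 / 2) / I).re by
          linarith)).analyticOrderAt_eq_zero.2 h] at ho
        exact zero_ne_one ho
      · unfold nn
        rw [ho]; rfl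
    · rintro ⟨z, ⟨⟨h1, h2, -⟩, h4, h5⟩, rfl⟩
      simp only [sOf_re, sOf_im]
      refine ⟨by linarith, h1, h2, ?_⟩
      rw [← order_Xi_eq χ (by linarith) (hT.trans h1)]
      unfold nn at h5
      have := ENat.natCast_toNat (order_Xi_ne_top χ (hT.trans h1))
      rw [← this, h5]; rfl
  rw [hS, Set.ncard_coe_finset, Finset.card_image_of_injective _ sOf_injective]

end Pool.Agent.MP_f259ea_nt.Q

end

section

set_option autoImplicit false

open Complex MeasureTheory Finset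
open scoped Real ArithmeticFunction.vonMangoldt

namespace Pool.Agent.MP_f259ea_nt.Q

namespace Tail

lemma T_nonneg {T : ℝ} {W : ℝ → ℂ} (h : GW T W) : 0 ≤ T :=
  (integral_nonneg fun _ => sq_nonneg _).trans h.sq_le

lemma coef_le {d : ℕ} (χ : DirichletCharacter ℂ d) (n : ℕ) : ‖coef χ n‖ ≤ 2 := by
  rcases Nat.eq_zero_or_pos n with rfl | hn
  · simp [coef_zero]
  have h0 : 0 < √(n : ℝ) := Real.sqrt_pos.2 (by exact_mod_cast hn)
  have h1 : Λ n ≤ 2 * √(n : ℝ) := by
    have h2 := Real.log_le_sub_one_of_pos h0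
    rw [Real.log_sqrt (by positivity)] at h2
    linarith [ArithmeticFunction.vonMangoldt_le_log (n := n)]
  rw [coef, norm_div, norm_mul, Complex.norm_real, Complex.norm_real, Real.norm_of_nonneg h0.le,
    Real.norm_of_nonneg ArithmeticFunction.vonMangoldt_nonneg, div_le_iff₀ h0]
  exact (mul_le_of_le_one_left ArithmeticFunction.vonMangoldt_nonneg (χ.norm_le_one _)).trans h1

lemma term_le {T : ℝ} {W : ℝ → ℂ} (h : GW T W) {d : ℕ} (χ : DirichletCharacter ℂ d) (n : ℕ)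
    (u A : ℝ) (hA : 0 < n → 2 * Real.log n - A ≤ (Real.log n - 2 * π * u) ^ 2 / (4 * π)) :
    ‖coef χ n * W (u - un n)‖ ≤ 2 * T * Real.exp A * (1 / (n : ℝ) ^ 2) := by
  rcases Nat.eq_zero_or_pos n with rfl | hn
  · simp [coef_zero]
  have hT := T_nonneg h
  have hn' : (0 : ℝ) < n := by exact_mod_cast hn
  have e : π * (u - un n) ^ 2 = (Real.log n - 2 * π * u) ^ 2 / (4 * π) := by
    unfold un; field_simp; ring
  have h1 : Real.exp (-(π * (u - un n) ^ 2)) ≤ Real.exp A * (1 / (n : ℝ) ^ 2) := by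
    have : (1 / (n : ℝ) ^ 2) = Real.exp (-(2 * Real.log n)) := by
      rw [Real.exp_neg, show 2 * Real.log n = Real.log ((n : ℝ) ^ 2) by simp,
        Real.exp_log (by positivity), one_div]
    rw [this, ← Real.exp_add, e]
    exact Real.exp_le_exp.2 (by linarith [hA hn])
  rw [norm_mul]
  calc _ ≤ 2 * (T * (Real.exp A * (1 / (n : ℝ) ^ 2))) :=
        mul_le_mul (coef_le χ n) ((h.gauss _).trans (by gcongr)) (norm_nonneg _) (by norm_num)
    _ = _ := by ring

lemma term_le' {T : ℝ} {W : ℝ → ℂ} (h : GW T W) {d : ℕ} (χ : DirichletCharacter ℂ d) (n : ℕ)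
    {u R : ℝ} (hu : u ≤ R) :
    ‖coef χ n * W (u - un n)‖ ≤ 2 * T * Real.exp (4 * π + 4 * π * R) * (1 / (n : ℝ) ^ 2) := by
  refine term_le h χ n u _ fun _ => ?_
  have hpi := Real.pi_pos
  rw [le_div_iff₀ (by positivity)]
  nlinarith [sq_nonneg (Real.log n - 2 * π * u - 4 * π), mul_le_mul_of_nonneg_left hu
    (show 0 ≤ 16 * π ^ 2 by positivity)]

lemma zeta_le : π ^ 2 / 6 ≤ 2 := by nlinarith [Real.pi_lt_d2, Real.pi_pos]

end Tail

open Tail

theorem stmtTail : StmtTail := by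
  have hpi := Real.pi_pos
  refine ⟨fun T W h d χ => ?_, ⟨4 * Real.exp (4 * π + 4 * π * 0), by positivity,
    fun T W h d χ => ?_⟩, fun δ hδ hδ2 => ?_⟩
  · refine continuous_iff_continuousAt.2 fun u => ?_
    have : ContinuousOn (Psum χ W) (Set.Iic (u + 1)) :=
      continuousOn_tsum (fun n => (continuous_const.mul
        (h.cont.comp (continuous_id.sub continuous_const))).continuousOn)
        (hasSum_zeta_two.summable.mul_left (2 * T * Real.exp (4 * π + 4 * π * (u + 1))))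
        fun n x hx => term_le' h χ n hx
    exact this.continuousAt (Iic_mem_nhds (by linarith))
  · have hT := T_nonneg h
    refine (tsum_of_norm_bounded (hasSum_zeta_two.mul_left (2 * T * Real.exp (4 * π + 4 * π * 0)))
      fun n => term_le' h χ n le_rfl).trans ?_
    calc _ ≤ 2 * T * Real.exp (4 * π + 4 * π * 0) * 2 := by gcongr; exact zeta_le
      _ = _ := by ring
  · have hev : ∀ᶠ Q : ℕ in Filter.atTop, 4 * π * (2 + 6 / δ) / δ ≤ Real.log Q ∧ 4 ≤ Q :=
      ((Real.tendsto_log_atTop.comp tendsto_natCast_atTop_atTop).eventually_ge_atTop _).and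
        (Filter.eventually_ge_atTop 4)
    obtain ⟨Q₀, hQ₀⟩ := Filter.eventually_atTop.1 hev
    refine ⟨Q₀, fun Q hQ T W hTQ h d χ u hu => ?_⟩
    obtain ⟨hL, hQ4⟩ := hQ₀ Q hQ
    have hQ4' : (4 : ℝ) ≤ Q := by exact_mod_cast hQ4
    have hT := T_nonneg h
    have hL0 : 0 ≤ Real.log Q := Real.log_nonneg (by linarith)
    have hsum : Summable fun n : ℕ => coef χ n * W (u - un n) :=
      Summable.of_norm_bounded (hasSum_zeta_two.summable.mul_left _) fun n => term_le' h χ n le_rfl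
    have e : ∀ n : ℕ, av W u n * χ (n : ZMod d) = coef χ n * W (u - un n) := fun n => by
      simp only [av, coef]; push_cast; ring
    simp only [e]
    rw [Psum, ← hsum.sum_add_tsum_compl (s := Icc 1 (NN δ Q)), add_sub_cancel_left,
      _root_.tsum_subtype _ fun n : ℕ => coef χ n * W (u - un n)]
    refine (tsum_of_norm_bounded
      (hasSum_zeta_two.mul_left (2 * T * Real.exp (-(2 * Real.log Q)))) fun n => ?_).trans ?_
    · by_cases hn : n ∈ ((Icc 1 (NN δ Q) : Finset ℕ) : Set ℕ)ᶜ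
      · rw [Set.indicator_of_mem hn]
        refine term_le h χ n u _ fun hn0 => ?_
        have h1 : NN δ Q < n := by
          simp only [Set.mem_compl_iff, Finset.mem_coe, Finset.mem_Icc, not_and, not_le] at hn
          exact hn hn0
        have h2 : (Q : ℝ) ^ (2 - δ) < n := (Nat.floor_lt (by positivity)).1 h1
        have h3 : (2 - δ) * Real.log Q ≤ Real.log n := by
          rw [← Real.log_rpow (by linarith)]
          exact Real.log_le_log (by positivity) h2.le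
        have h4 : 2 * π * u ≤ (2 - 2 * δ) * Real.log Q := by
          rw [ell, le_div_iff₀ (by positivity)] at hu; linarith
        obtain ⟨x, hx⟩ : ∃ x, x = Real.log n - 2 * π * u := ⟨_, rfl⟩
        have h5 : δ * Real.log Q ≤ x := by linarith
        have h6 : 4 * π * (2 + 6 / δ) ≤ x := by
          rw [div_le_iff₀ hδ] at hL; linarith
        have hx0 : 0 ≤ x := le_trans (by positivity) h5
        have h7 : 6 * Real.log Q ≤ 6 / δ * x := by
          rw [div_mul_eq_mul_div, le_div_iff₀ hδ]; linarith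
        have h8 : (2 + 6 / δ) * x ≤ x ^ 2 / (4 * π) := by
          rw [le_div_iff₀ (by positivity)]; nlinarith
        rw [← hx]
        nlinarith [mul_nonneg hδ.le hL0]
      · rw [Set.indicator_of_notMem hn, norm_zero]; positivity
    · have : Real.exp (-(2 * Real.log Q)) = 1 / (Q : ℝ) ^ 2 := by
        rw [Real.exp_neg, show 2 * Real.log Q = Real.log ((Q : ℝ) ^ 2) by simp,
          Real.exp_log (by positivity), one_div]
      rw [this]
      calc _ ≤ 2 * Q * (1 / (Q : ℝ) ^ 2) * 2 := by gcongr; exact zeta_le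
        _ = 4 / Q := by field_simp; ring
        _ ≤ 1 := by rw [div_le_one (by linarith)]; exact hQ4'

theorem stmtShift : StmtShift := by
  intro f hf hc ε hε
  have hpi := Real.pi_pos
  obtain ⟨M, hM⟩ := hf.bounded_above_of_compact_support hc
  have hM0 : 0 ≤ M := (norm_nonneg _).trans (hM 0)
  obtain ⟨η, hη, hu⟩ := Metric.uniformContinuous_iff.1
    (hc.uniformContinuous_of_continuous hf) (ε / 2) (by positivity)
  refine ⟨max (2 / η) (8 * π * M / ε), fun T ℓ c W hT hℓ h => ?_⟩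
  have hℓ1 : 2 / η ≤ ℓ := (le_max_left _ _).trans hℓ
  have hℓ0 : 0 < ℓ := lt_of_lt_of_le (by positivity) hℓ1
  have hT1 : 8 * π * M ≤ T * ε := (div_le_iff₀ hε).1 ((le_max_right _ _).trans hT)
  have hi : ∀ b : ℝ, Integrable fun v => f ((v + b) / ℓ) * ‖W v‖ ^ 2 := fun b =>
    h.sq_int.bdd_mul (hf.comp (by fun_prop)).aestronglyMeasurable
      (Filter.Eventually.of_forall fun v => hM _)
  constructor
  · simpa using (hi c).comp_sub_right c
  · have e1 : ∫ u, f (u / ℓ) * ‖W (u - c)‖ ^ 2 = ∫ v, f ((v + c) / ℓ) * ‖W v‖ ^ 2 := by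
      rw [← integral_add_right_eq_self _ c]; simp
    rw [e1, ← integral_const_mul, ← integral_sub (hi c) (h.sq_int.const_mul _), ← Real.norm_eq_abs]
    have hg : Integrable fun v : ℝ => ε / 2 * ‖W v‖ ^ 2 + 4 * M * (1 + v ^ 2)⁻¹ :=
      (h.sq_int.const_mul _).add (integrable_inv_one_add_sq.const_mul _)
    refine (norm_integral_le_of_norm_le hg (Filter.Eventually.of_forall fun v => ?_)).trans ?_
    · rw [← sub_mul, norm_mul, Real.norm_of_nonneg (sq_nonneg ‖W v‖)]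
      by_cases hv : |v| ≤ 1
      · have h1 : dist ((v + c) / ℓ) (c / ℓ) < η := by
          rw [Real.dist_eq, ← sub_div, add_sub_cancel_right, abs_div, abs_of_pos hℓ0,
            div_lt_iff₀ hℓ0]
          rw [div_le_iff₀ hη] at hℓ1; linarith
        have h2 := hu h1
        rw [dist_eq_norm] at h2
        have : 0 ≤ 4 * M * (1 + v ^ 2)⁻¹ := by positivity
        nlinarith [sq_nonneg ‖W v‖]
      · have h1 : ‖f ((v + c) / ℓ) - f (c / ℓ)‖ ≤ 2 * M :=
          (norm_sub_le _ _).trans (by linarith [hM ((v + c) / ℓ), hM (c / ℓ)])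
        have h2 : ‖W v‖ ^ 2 ≤ 2 * (1 + v ^ 2)⁻¹ := by
          have h3 := h.decay v
          have h4 : v ^ 2 * ‖W v‖ ^ 2 ≤ 1 := by
            rw [← sq_abs v, ← mul_pow]; exact pow_le_one₀ (by positivity) h3
          have h5 : 1 ≤ v ^ 2 := by rw [← sq_abs v]; exact one_le_pow₀ (not_le.1 hv).le
          rw [← div_eq_mul_inv, le_div_iff₀ (by positivity)]
          nlinarith [sq_nonneg ‖W v‖]
        have h6 := mul_le_mul h1 h2 (sq_nonneg _) (by positivity)
        have : 0 ≤ ε / 2 * ‖W v‖ ^ 2 := by positivity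
        linarith
    · rw [integral_add (h.sq_int.const_mul _) (integrable_inv_one_add_sq.const_mul _),
        integral_const_mul, integral_const_mul, integral_univ_inv_one_add_sq]
      nlinarith [h.sq_le]

end Pool.Agent.MP_f259ea_nt.Q

end

section

/-!
Conductor aspect: assembling the lemmas.
-/

set_option autoImplicit false

open Complex MeasureTheory Finset Filter Topology DirichletCharacter
open scoped Real ComplexConjugate Classical

namespace Pool.Agent.MP_f259ea_nt.Q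

theorem ls2 : StmtLS2 :=
  stmtLS2 stmtArith stmtOrth (stmtChar stmtOrth) stmtUnfold stmtArcs (stmtGall stmtUnfold)
    (stmtMinor stmtRed stmtTri) (stmtMajor stmtArith stmtOrth (stmtChar stmtOrth) stmtUnfold)
    (stmtInter stmtArith (stmtChar stmtOrth) stmtUnfold stmtArcs)

theorem prime_of (hD : StmtDiag) : StmtPrime :=
  stmtPrime stmtOrth (stmtLS0 stmtUnfold stmtArcs (stmtGall stmtUnfold)) stmtLS1 stmtTail hD
    (stmtBad stmtMert2) (stmtGain ls2 stmtModel)

theorem perChi : StmtPerChi := stmtPerChi stmtUnif stmtWeightG stmtTail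

theorem simple_of (hD : StmtDiag) {d : BData} (hd : d.Good) (hJ : d.J = 0) {c : ℝ} (hc0 : 0 ≤ c)
    (hc : J2 d.K < 2 - c) :
    ∃ θ : ℝ, 0 < θ ∧ ∃ Q₀ : ℕ, ∀ Q : ℕ, Q₀ ≤ Q → ∀ T : ℝ, Real.log Q ≤ T → T ≤ (Q : ℝ) ^ θ →
      c * ∑ q ∈ Finset.range Q, ∑ᶠ χ ∈ {χ : DirichletCharacter ℂ (q + 1) | χ.IsPrimitive},
          ∑ᶠ ρ ∈ {s : ℂ | 0 < s.re ∧ s.re < 1 ∧ T < s.im ∧ s.im ≤ 2 * T ∧ LFunction χ s = 0},
            ((analyticOrderAt (LFunction χ) ρ).toNat : ℝ)
        ≤ ∑ q ∈ Finset.range Q, ∑ᶠ χ ∈ {χ : DirichletCharacter ℂ (q + 1) | χ.IsPrimitive},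
          ({s : ℂ | s.re = 1 / 2 ∧ T < s.im ∧ s.im ≤ 2 * T ∧
            analyticOrderAt (LFunction χ) s = 1}.ncard : ℝ) := by
  obtain ⟨θ, hθ, Q₀, h⟩ := fam stmtUnif stmtOrth (stmtCard stmtOrth) (prime_of hD) perChi
    (K := d.K) BData.K_continuous (BData.K_nonneg hd) (fun a ha => BData.K_zero hd ha)
    (α := 2) (β := 1) (c := c) (P := fun x m => x.im = 0 ∧ m = 1) one_pos hc0
    (fun ℓ z m hℓ => by simp [hℓ.ne']) (stmtG_of_S (stmtSMain d hd hJ)) (by linarith)
  refine ⟨θ, hθ, Q₀, fun Q hQ T h1 h2 => ?_⟩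
  obtain ⟨hT, h⟩ := h Q hQ T h1 h2
  simp only [finsum_prim]
  convert h using 2
  · exact sum_congr rfl fun q _ => sum_congr rfl fun χ hχ => count_all (mem_prim.1 hχ) hT
  · refine sum_congr rfl fun χ hχ => ?_
    rw [count_simple (mem_prim.1 hχ) hT]
    congr

theorem distinct_of (hD : StmtDiag) {d : BData} (hd : d.Good) (hρ : 0 < d.ρ) {c : ℝ}
    (hc0 : 0 ≤ c) (hc : c * (2 * d.ρ) < 3 * d.ρ - J2 d.K) :
    ∃ θ : ℝ, 0 < θ ∧ ∃ Q₀ : ℕ, ∀ Q : ℕ, Q₀ ≤ Q → ∀ T : ℝ, Real.log Q ≤ T → T ≤ (Q : ℝ) ^ θ →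
      c * ∑ q ∈ Finset.range Q, ∑ᶠ χ ∈ {χ : DirichletCharacter ℂ (q + 1) | χ.IsPrimitive},
          ∑ᶠ ρ ∈ {s : ℂ | 0 < s.re ∧ s.re < 1 ∧ T < s.im ∧ s.im ≤ 2 * T ∧ LFunction χ s = 0},
            ((analyticOrderAt (LFunction χ) ρ).toNat : ℝ)
        ≤ ∑ q ∈ Finset.range Q, ∑ᶠ χ ∈ {χ : DirichletCharacter ℂ (q + 1) | χ.IsPrimitive},
          ({s : ℂ | 0 < s.re ∧ s.re < 1 ∧ T < s.im ∧ s.im ≤ 2 * T ∧
            LFunction χ s = 0}.ncard : ℝ) := by
  obtain ⟨θ, hθ, Q₀, h⟩ := fam stmtUnif stmtOrth (stmtCard stmtOrth) (prime_of hD) perChi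
    (K := d.K) BData.K_continuous (BData.K_nonneg hd) (fun a ha => BData.K_zero hd ha)
    (α := 3 * d.ρ) (β := 2 * d.ρ) (c := c) (P := fun _ _ => True) (by linarith) hc0
    (fun ℓ z m hℓ => Iff.rfl) (stmtG_of_B (stmtBMain d hd)) hc
  refine ⟨θ, hθ, Q₀, fun Q hQ T h1 h2 => ?_⟩
  obtain ⟨hT, h⟩ := h Q hQ T h1 h2
  simp only [finsum_prim]
  convert h using 2
  · exact sum_congr rfl fun q _ => sum_congr rfl fun χ hχ => count_all (mem_prim.1 hχ) hT
  · refine sum_congr rfl fun χ hχ => ?_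
    rw [count_distinct (mem_prim.1 hχ) hT]
    simp

end Pool.Agent.MP_f259ea_nt.Q

end

section

/-!
Conductor aspect: the diagonal term.
-/

set_option autoImplicit false

namespace Pool.Agent.MP_f259ea_nt.Q

theorem diag : StmtDiag := stmtDiag stmtMert2 stmtShift

end Pool.Agent.MP_f259ea_nt.Q

end
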